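import Pool.Agent.MP_cff99f_al.Gen.Base

/-!
Block DL: over a group of type `FP_2` derivations lift to a stage of a direct system.
-/

namespace Pool.Agent.DG

universe u w u₁ u₂

namespace DLaux

variable {G : Type w} [Group G]

/-- The action of the group ring on the chains. -/
noncomputable def act (Y : Type u) [MulAction G Y] :
    MonoidAlgebra ℤ G →ₐ[ℤ] Module.End ℤ (Y →₀ ℤ) :=
  MonoidAlgebra.lift ℤ _ G
    { toFun := fun g => (sm g : (Y →₀ ℤ) →ₗ[ℤ] (Y →₀ ℤ))
      map_one' := by
        apply LinearMap.ext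
        intro z
        exact sm_one z
      map_mul' := by
        intro g h
        apply LinearMap.ext
        intro z
        exact sm_mul g h z }

theorem act_of (Y : Type u) [MulAction G Y] (g : G) (z : Y →₀ ℤ) :
    act Y (MonoidAlgebra.of ℤ G g) z = sm g z := by
  unfold act
  rw [MonoidAlgebra.lift_of]
  rfl

/-- The equivariant map with given values on the basis. -/
noncomputable def ext {Y : Type u} [MulAction G Y] {k : ℕ} (v : Fin k → (Y →₀ ℤ)) :
    (Fin k → MonoidAlgebra ℤ G) →+ (Y →₀ ℤ) where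
  toFun x := ∑ j, act Y (x j) (v j)
  map_zero' := by simp
  map_add' x y := by
    rw [← Finset.sum_add_distrib]
    apply Finset.sum_congr rfl
    intro j _
    rw [Pi.add_apply, map_add, LinearMap.add_apply]

theorem ext_apply {Y : Type u} [MulAction G Y] {k : ℕ} (v : Fin k → (Y →₀ ℤ))
    (x : Fin k → MonoidAlgebra ℤ G) : ext v x = ∑ j, act Y (x j) (v j) := rfl

theorem ext_smul {Y : Type u} [MulAction G Y] {k : ℕ} (v : Fin k → (Y →₀ ℤ)) (g : G)
    (x : Fin k → MonoidAlgebra ℤ G) :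
    ext v (MonoidAlgebra.of ℤ G g • x) = sm g (ext v x) := by
  rw [ext_apply, ext_apply, map_sum]
  apply Finset.sum_congr rfl
  intro j _
  rw [Pi.smul_apply, smul_eq_mul, map_mul, Module.End.mul_apply, act_of]

theorem ext_single {Y : Type u} [MulAction G Y] {k : ℕ} (v : Fin k → (Y →₀ ℤ)) (j : Fin k) :
    ext v (Pi.single j (1 : MonoidAlgebra ℤ G)) = v j := by
  classical
  rw [ext_apply, Finset.sum_eq_single j]
  · rw [Pi.single_eq_same, map_one]
    rfl
  · intro i _ hij
    rw [Pi.single_eq_of_ne hij, map_zero]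
    rfl
  · intro h
    exact absurd (Finset.mem_univ j) h

/-- Equivariant maps agreeing on the basis are equal. -/
theorem eq_of_basis {Y : Type u} [MulAction G Y] {k : ℕ}
    (f f' : (Fin k → MonoidAlgebra ℤ G) →+ (Y →₀ ℤ))
    (hf : ∀ (g : G) x, f (MonoidAlgebra.of ℤ G g • x) = sm g (f x))
    (hf' : ∀ (g : G) x, f' (MonoidAlgebra.of ℤ G g • x) = sm g (f' x))
    (h : ∀ j, f (Pi.single j 1) = f' (Pi.single j 1)) (x : Fin k → MonoidAlgebra ℤ G) :
    f x = f' x := by
  induction x using FPAlg.single_induction with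
  | h0 => rw [map_zero, map_zero]
  | hadd x y hx hy => rw [map_add, map_add, hx, hy]
  | hneg x hx => rw [map_neg, map_neg, hx]
  | h1 j g => rw [hf, hf', h]

/-- The additive extension of `D` to the group ring. -/
noncomputable def Dlin {Y : Type u} (D : G → (Y →₀ ℤ)) : MonoidAlgebra ℤ G →+ (Y →₀ ℤ) :=
  (Finsupp.linearCombination ℤ D).toAddMonoidHom.comp
    (MonoidAlgebra.coeffAddEquiv (R := ℤ) (M := G)).toAddMonoidHom

theorem Dlin_of {Y : Type u} (D : G → (Y →₀ ℤ)) (g : G) :
    Dlin D (MonoidAlgebra.of ℤ G g) = D g := by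
  show Finsupp.linearCombination ℤ D (Finsupp.single g (1 : ℤ)) = D g
  rw [Finsupp.linearCombination_single, one_smul]

/-- The additive map `g • b j ↦ n j • D g`. -/
noncomputable def dl {Y : Type u} {k : ℕ} (n : Fin k → ℤ) (D : G → (Y →₀ ℤ)) :
    (Fin k → MonoidAlgebra ℤ G) →+ (Y →₀ ℤ) where
  toFun x := ∑ j, n j • Dlin D (x j)
  map_zero' := by simp
  map_add' x y := by
    rw [← Finset.sum_add_distrib]
    apply Finset.sum_congr rfl
    intro j _
    rw [Pi.add_apply, map_add, smul_add]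

theorem dl_apply {Y : Type u} {k : ℕ} (n : Fin k → ℤ) (D : G → (Y →₀ ℤ))
    (x : Fin k → MonoidAlgebra ℤ G) : dl n D x = ∑ j, n j • Dlin D (x j) := rfl

theorem dl_single {Y : Type u} {k : ℕ} (n : Fin k → ℤ) (D : G → (Y →₀ ℤ)) (g : G) (j : Fin k) :
    dl n D (MonoidAlgebra.of ℤ G g • Pi.single j 1) = n j • D g := by
  classical
  rw [dl_apply, Finset.sum_eq_single j]
  · rw [Pi.smul_apply, Pi.single_eq_same, smul_eq_mul, mul_one, Dlin_of]
  · intro i _ hij
    rw [Pi.smul_apply, Pi.single_eq_of_ne hij, smul_zero, map_zero, smul_zero]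
  · intro h
    exact absurd (Finset.mem_univ j) h

theorem dl_smul {Y : Type u} [MulAction G Y] {k : ℕ} (ε : (Fin k → MonoidAlgebra ℤ G) →+ ℤ)
    (hε : ∀ (g : G) x, ε (MonoidAlgebra.of ℤ G g • x) = ε x)
    (D : G → (Y →₀ ℤ)) (hD : ∀ g h, D (g * h) = D g + sm g (D h)) (g : G)
    (x : Fin k → MonoidAlgebra ℤ G) :
    dl (fun j => ε (Pi.single j 1)) D (MonoidAlgebra.of ℤ G g • x) =
      sm g (dl (fun j => ε (Pi.single j 1)) D x) + ε x • D g := by
  induction x using FPAlg.single_induction with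
  | h0 => rw [smul_zero, map_zero, map_zero, map_zero, zero_smul, add_zero]
  | hadd x y hx hy => rw [smul_add, map_add, map_add, hx, hy, map_add, map_add, add_smul]; abel
  | hneg x hx => rw [smul_neg, map_neg, map_neg, hx, map_neg, map_neg, neg_smul]; abel
  | h1 j h =>
    rw [← mul_smul, ← map_mul, dl_single, dl_single, hε, hD, map_zsmul, smul_add]
    abel

/-- A chain whose image in the chains of `Y` vanishes is killed by any map which identifies the
elements of its support with equal images. -/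
theorem mapDomain_eq_zero {Z Z' Y : Type*} (π : Z → Y) (tr : Z → Z') (w : Z →₀ ℤ)
    (hw : w.mapDomain π = 0)
    (h : ∀ z ∈ w.support, ∀ z' ∈ w.support, π z = π z' → tr z = tr z') :
    w.mapDomain tr = 0 := by
  classical
  by_cases hne : w.support = ∅
  · rw [Finsupp.support_eq_empty.1 hne, Finsupp.mapDomain_zero]
  obtain ⟨z0, hz0⟩ := Finset.nonempty_iff_ne_empty.2 hne
  let s : Y → Z' := fun y => if hy : ∃ z ∈ w.support, π z = y then tr hy.choose else tr z0
  have hs : ∀ z ∈ w.support, tr z = (s ∘ π) z := by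
    intro z hz
    have hy : ∃ z' ∈ w.support, π z' = π z := ⟨z, hz, rfl⟩
    show tr z = s (π z)
    simp only [s, dif_pos hy]
    exact h z hz _ hy.choose_spec.1 hy.choose_spec.2.symm
  rw [Finsupp.mapDomain_congr hs, Finsupp.mapDomain_comp, hw, Finsupp.mapDomain_zero]

theorem mapDomain_sm {Z : Type*} {Z' : Type*} [MulAction G Z] [MulAction G Z'] (f : Z → Z')
    (hf : ∀ (g : G) z, f (g • z) = g • f z) (g : G) (w : Z →₀ ℤ) :
    (sm g w).mapDomain f = sm g (w.mapDomain f) := by
  rw [sm_def, sm_def, ← Finsupp.mapDomain_comp, ← Finsupp.mapDomain_comp]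
  congr 1
  funext z
  exact hf g z

end DLaux

open DLaux

/-- Lifting of derivations. Let `G` be of type `FP_2` and let `Z l`, `l : Λ`, be `G`-sets over the
`G`-set `Y` such that finitely many pairs of elements of `Z l` with equal images in `Y` become equal
in some `Z m` over `Y`. Then every derivation from `G` to the chains of `Y` lifts to a derivation to
the chains of some `Z l`.
Proof: let `(k, ε, d)` be as in `TypeFP 2 G`, `b j` the basis of `Fin (k 0) → ℤ G`, `n j = ε (b j)`. Let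
`δ (g • b j) = n j • D g` (additive map to the chains of `Y`); then
`δ (g • x) = g (δ x) + ε x • D g`, so `δ` is `G`-linear on `ker ε`, and `δ ∘ d 0` is `G`-linear and
kills the image of `d 1`. Lift `δ ∘ d 0` on a basis of `Fin (k 1) → ℤ G` to the chains of some
`Z l` (possible as `π l` is surjective) and pass to a `Z m` where the lift kills the
images under `d 1` of the basis elements of `Fin (k 2) → ℤ G` (finitely many elements of the chains
of `Z l` which map to `0` in the chains of `Y` become `0` in the chains of some `Z m`). So `δ` lifts to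
a `G`-linear `δ'` on `ker ε = im (d 0)`. Choose `e0` with `ε e0 = 1` and put
`D' g = δ' (g • e0 - e0) - (g m' - m')`, `m'` a lift of `δ e0`. -/
theorem exists_lift_derivation {G : Type w} [Group G] (h : TypeFP 2 G)
    {Λ : Type u₁} [Nonempty Λ] {Z : Λ → Type u₂} [∀ l, MulAction G (Z l)]
    {Y : Type u} [MulAction G Y] (π : ∀ l, Z l → Y)
    (hπ : ∀ l (g : G) z, π l (g • z) = g • π l z) (hsurj : ∀ l, Function.Surjective (π l))
    (hdir : ∀ l (Q : Finset (Z l × Z l)), (∀ q ∈ Q, π l q.1 = π l q.2) →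
      ∃ (m : Λ) (tr : Z l → Z m), (∀ (g : G) z, tr (g • z) = g • tr z) ∧
        (∀ z, π m (tr z) = π l z) ∧ ∀ q ∈ Q, tr q.1 = tr q.2)
    (D : G → (Y →₀ ℤ)) (hD : ∀ g h, D (g * h) = D g + sm g (D h)) :
    ∃ (l : Λ) (D' : G → (Z l →₀ ℤ)), (∀ g h, D' (g * h) = D' g + sm g (D' h)) ∧
      ∀ g, (D' g).mapDomain (π l) = D g := by
  classical
  obtain ⟨k, ε, d, hs, hi, h0, h1⟩ := h
  have h0 := h0 two_pos
  have h1 := h1 0 one_lt_two
  set δ := dl (fun j => ε (Pi.single j 1)) D with hδ
  have hδs : ∀ (g : G) x, δ (MonoidAlgebra.of ℤ G g • x) = sm g (δ x) + ε x • D g :=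
    dl_smul ε hi D hD
  have hεd : ∀ x, ε (d 0 x) = 0 := fun x => (h0 _).2 ⟨_, rfl⟩
  obtain ⟨l⟩ := ‹Nonempty Λ›
  have hlift : ∀ (l : Λ) (y : Y →₀ ℤ), ∃ z : Z l →₀ ℤ, z.mapDomain (π l) = y := by
    intro l y
    exact Finsupp.mapDomain_surjective (hsurj l) y
  choose v hv using fun j : Fin (k 1) => hlift l (δ (d 0 (Pi.single j 1)))
  let β : (Fin (k 1) → MonoidAlgebra ℤ G) →+ (Z l →₀ ℤ) := ext v
  have hβs : ∀ (g : G) x, β (MonoidAlgebra.of ℤ G g • x) = sm g (β x) := ext_smul v
  have hβ : ∀ x, (β x).mapDomain (π l) = δ (d 0 x) := by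
    intro x
    refine eq_of_basis ((Finsupp.mapDomain.addMonoidHom (π l)).comp β)
      (δ.comp (d 0).toAddMonoidHom) ?_ ?_ ?_ x
    · intro g x
      show (β (MonoidAlgebra.of ℤ G g • x)).mapDomain (π l) = sm g ((β x).mapDomain (π l))
      rw [hβs, mapDomain_sm (π l) (hπ l)]
    · intro g x
      show δ (d 0 (MonoidAlgebra.of ℤ G g • x)) = sm g (δ (d 0 x))
      rw [map_smul, hδs, hεd, zero_smul, add_zero]
    · intro j
      show (β (Pi.single j 1)).mapDomain (π l) = δ (d 0 (Pi.single j 1))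
      rw [← hv j]
      congr 1
      exact ext_single v j
  -- pass to a later stage
  let S : Finset (Z l) := Finset.univ.biUnion fun j : Fin (k 2) => (β (d 1 (Pi.single j 1))).support
  obtain ⟨m, tr, htrs, htrπ, htr⟩ := hdir l ((S ×ˢ S).filter fun q => π l q.1 = π l q.2) (by
    intro q hq
    exact (Finset.mem_filter.1 hq).2)
  let β' : (Fin (k 1) → MonoidAlgebra ℤ G) →+ (Z m →₀ ℤ) :=
    (Finsupp.mapDomain.addMonoidHom tr).comp β
  have hβ's : ∀ (g : G) x, β' (MonoidAlgebra.of ℤ G g • x) = sm g (β' x) := by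
    intro g x
    show (β (MonoidAlgebra.of ℤ G g • x)).mapDomain tr = sm g ((β x).mapDomain tr)
    rw [hβs, mapDomain_sm tr htrs]
  have hβ' : ∀ x, (β' x).mapDomain (π m) = δ (d 0 x) := by
    intro x
    show ((β x).mapDomain tr).mapDomain (π m) = _
    rw [← Finsupp.mapDomain_comp, ← hβ x]
    congr 1
    funext z
    exact htrπ z
  have hkill : ∀ y, β' (d 1 y) = 0 := by
    intro y
    have := eq_of_basis (β'.comp (d 1).toAddMonoidHom) (0 : _ →+ (Z m →₀ ℤ)) (by
      intro g x
      show β' (d 1 (MonoidAlgebra.of ℤ G g • x)) = sm g (β' (d 1 x))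
      rw [map_smul, hβ's]) (by
      intro g x
      show (0 : Z m →₀ ℤ) = sm g (0 : Z m →₀ ℤ)
      rw [map_zero]) (by
      intro j
      show (β (d 1 (Pi.single j 1))).mapDomain tr = 0
      apply mapDomain_eq_zero (π l) tr
      · rw [hβ, (h1 _).2 ⟨_, rfl⟩, map_zero]
      · intro z hz z' hz' hzz
        have hS : ∀ z ∈ (β (d 1 (Pi.single j 1))).support, z ∈ S := by
          intro z hz
          exact Finset.mem_biUnion.2 ⟨j, Finset.mem_univ _, hz⟩
        exact htr (z, z') (Finset.mem_filter.2 ⟨Finset.mem_product.2 ⟨hS z hz, hS z' hz'⟩, hzz⟩)) y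
    exact this
  -- the lift on the kernel of the augmentation
  have hpre : ∀ x, ∃ y, ε x = 0 → d 0 y = x := by
    intro x
    by_cases hx : ε x = 0
    · obtain ⟨y, hy⟩ := (h0 x).1 hx
      exact ⟨y, fun _ => hy⟩
    · exact ⟨0, fun h => absurd h hx⟩
  choose pre hpre using hpre
  have hδ' : ∀ x y, d 0 y = x → β' (pre x) = β' y := by
    intro x y hy
    have hx : ε x = 0 := by rw [← hy]; exact hεd y
    have h2 : d 0 (pre x - y) = 0 := by rw [map_sub, hpre x hx, hy, sub_self]
    obtain ⟨t, ht⟩ := (h1 _).1 h2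
    have h3 : β' (pre x - y) = 0 := by rw [← ht]; exact hkill t
    rw [map_sub] at h3
    exact sub_eq_zero.1 h3
  obtain ⟨e0, he0⟩ := hs 1
  obtain ⟨m', hm'⟩ := hlift m (δ e0)
  have hεe : ∀ g : G, ε (MonoidAlgebra.of ℤ G g • e0 - e0) = 0 := by
    intro g
    rw [map_sub, hi, sub_self]
  refine ⟨m, fun g => β' (pre (MonoidAlgebra.of ℤ G g • e0 - e0)) - (sm g m' - m'), ?_, ?_⟩
  · intro g h
    have h2 : β' (pre (MonoidAlgebra.of ℤ G (g * h) • e0 - e0)) =
        β' (pre (MonoidAlgebra.of ℤ G g • e0 - e0)) +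
          sm g (β' (pre (MonoidAlgebra.of ℤ G h • e0 - e0))) := by
      rw [← hβ's, ← map_add]
      apply hδ'
      rw [map_add, map_smul, hpre _ (hεe g), hpre _ (hεe h), smul_sub, ← mul_smul, ← map_mul]
      abel
    show β' (pre (MonoidAlgebra.of ℤ G (g * h) • e0 - e0)) - (sm (g * h) m' - m') =
      β' (pre (MonoidAlgebra.of ℤ G g • e0 - e0)) - (sm g m' - m') +
        sm g (β' (pre (MonoidAlgebra.of ℤ G h • e0 - e0)) - (sm h m' - m'))
    rw [h2, map_sub, map_sub, sm_mul]
    abel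
  · intro g
    show (β' (pre (MonoidAlgebra.of ℤ G g • e0 - e0)) - (sm g m' - m')).mapDomain (π m) = D g
    have h3 : ∀ a b : Z m →₀ ℤ, (a - b).mapDomain (π m) = a.mapDomain (π m) - b.mapDomain (π m) :=
      fun a b => map_sub (Finsupp.mapDomain.addMonoidHom (π m)) a b
    rw [h3, h3, hβ', hpre _ (hεe g), mapDomain_sm (π m) (hπ m), hm', map_sub, hδs, he0, one_smul]
    abel

end Pool.Agent.DG
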