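import Pool.Agent.MP_cff99f_al.Gen.Base

/-!
Block FGen: groups of type `FP_1` are finitely generated; supports of derivations.
-/

namespace Pool.Agent.DG

universe u w

/-- A group of type `FP_1` is finitely generated. Proof: by `fg_ker_aug` for the `G`-set `G` the
augmentation ideal is generated by finitely many chains `s`, each a combination of `t - 1` for `t` in
a finite set `X ⊆ G`. Let `H` be the subgroup generated by `X`. In the chains of `G ⧸ H` the class of
`H` is killed by all `s`, so by all `g - 1`; so `g ∈ H`. -/
theorem fg_of_typeFP_one (G : Type w) [Group G] (h : TypeFP 1 G) : Group.FG G := by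
  classical
  obtain ⟨S, hS0, hS⟩ := fg_ker_aug (G := G) h G (by
    intro g x hx
    simpa using hx) (by
    have : Subsingleton (MulAction.orbitRel.Quotient G G) := by
      constructor
      intro a b
      induction a using Quotient.inductionOn'
      induction b using Quotient.inductionOn'
      rename_i a b
      apply Quotient.sound'
      rw [MulAction.orbitRel_apply]
      exact ⟨a * b⁻¹, by simp⟩
    infer_instance) ⟨1⟩
  let X : Finset G := S.biUnion fun s => s.support
  let H : Subgroup G := Subgroup.closure (X : Set G)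
  have hkey : ∀ y ∈ AddSubgroup.closure {y : G →₀ ℤ | ∃ g : G, ∃ s ∈ S, y = s.mapDomain (g • ·)},
      y.mapDomain (fun g : G => (g : G ⧸ H)) = 0 := by
    intro y hy
    induction hy using AddSubgroup.closure_induction with
    | zero => simp
    | add a b _ _ ha hb => rw [Finsupp.mapDomain_add, ha, hb, add_zero]
    | neg a _ ha =>
      have := (Finsupp.mapDomain.addMonoidHom (M := ℤ) (fun g : G => (g : G ⧸ H))).map_neg a
      change Finsupp.mapDomain _ (-a) = - Finsupp.mapDomain _ a at this
      rw [this, ha, neg_zero]
    | mem y hy =>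
      obtain ⟨g, s, hs, rfl⟩ := hy
      rw [← Finsupp.mapDomain_comp]
      have h1 : Finsupp.mapDomain ((fun g : G => (g : G ⧸ H)) ∘ fun x => g • x) s =
          Finsupp.mapDomain (fun _ => (g : G ⧸ H)) s := by
        apply Finsupp.mapDomain_congr
        intro x hx
        have hxH : x ∈ H := Subgroup.subset_closure (by
          simp only [X, Finset.coe_biUnion, Set.mem_iUnion]
          exact ⟨s, hs, hx⟩)
        simp only [Function.comp, smul_eq_mul]
        rw [eq_comm, QuotientGroup.eq]
        simpa using hxH
      rw [h1]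
      have h2 := hS0 s hs
      have h3 : Finsupp.mapDomain (fun _ : G => (g : G ⧸ H)) s =
          Finsupp.single (g : G ⧸ H) (sumCoeff G s) := by
        clear h1 h2 hs
        induction s using Finsupp.induction_linear with
        | zero => simp
        | add a b ha hb => rw [Finsupp.mapDomain_add, ha, hb, map_add, Finsupp.single_add]
        | single x n => rw [Finsupp.mapDomain_single, FPAlg.sumCoeff_single]
      rw [h3, h2, Finsupp.single_zero]
  have htop : H = ⊤ := by
    rw [eq_top_iff]
    intro g _
    have h1 := hkey _ (hS (Finsupp.single g 1 - Finsupp.single 1 1) (by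
      rw [map_sub, FPAlg.sumCoeff_single, FPAlg.sumCoeff_single, sub_self]))
    have h2 := (Finsupp.mapDomain.addMonoidHom (M := ℤ) (fun g : G => (g : G ⧸ H))).map_sub
      (Finsupp.single g 1) (Finsupp.single 1 1)
    change Finsupp.mapDomain _ _ = Finsupp.mapDomain _ _ - Finsupp.mapDomain _ _ at h2
    rw [h1, Finsupp.mapDomain_single, Finsupp.mapDomain_single, eq_comm, sub_eq_zero] at h2
    have h3 := (Finsupp.single_eq_single_iff _ _ _ _).1 h2
    rcases h3 with ⟨h3, -⟩ | ⟨h3, -⟩
    · have := QuotientGroup.eq.1 h3.symm
      simpa using this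
    · exact absurd h3 one_ne_zero
  exact ⟨⟨X, htop⟩⟩

/-- The supports of the values of a derivation on a finitely generated subgroup `A` lie in the
translates by `A` of a finite set. -/
theorem exists_finset_supp {G : Type w} [Group G] {Y : Type u} [MulAction G Y]
    (D : G → (Y →₀ ℤ)) (hD : ∀ g h, D (g * h) = D g + sm g (D h)) (A : Subgroup G) (hA : A.FG) :
    ∃ S : Finset Y, ∀ x ∈ A, ∀ s, D x s ≠ 0 → ∃ g ∈ A, g • s ∈ S := by
  classical
  obtain ⟨T, hT⟩ := hA
  have h1 : D 1 = 0 := by
    have := hD 1 1
    rw [one_mul, sm_one] at this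
    simpa using this
  refine ⟨T.biUnion fun t => (D t).support, ?_⟩
  intro x hx
  rw [← hT] at hx
  induction hx using Subgroup.closure_induction with
  | mem x hx =>
    intro s hs
    refine ⟨1, A.one_mem, ?_⟩
    rw [one_smul]
    exact Finset.mem_biUnion.2 ⟨x, hx, Finsupp.mem_support_iff.2 hs⟩
  | one =>
    intro s hs
    rw [h1] at hs
    exact absurd rfl hs
  | mul x y hx hy hx' hy' =>
    intro s hs
    rw [hT] at hx hy
    rw [hD, Finsupp.add_apply, sm_apply] at hs
    by_cases h : D x s = 0
    · rw [h, zero_add] at hs
      obtain ⟨g, hg, hgs⟩ := hy' _ hs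
      exact ⟨g * x⁻¹, A.mul_mem hg (A.inv_mem hx), by rwa [mul_smul]⟩
    · exact hx' s h
  | inv x hx hx' =>
    intro s hs
    rw [hT] at hx
    have h2 := hD x⁻¹ x
    rw [inv_mul_cancel, h1] at h2
    have h3 : D x (x • s) ≠ 0 := by
      intro h4
      apply hs
      have h5 := congrArg (fun z => z s) h2
      simp only [Finsupp.add_apply, Finsupp.zero_apply, sm_apply, inv_inv] at h5
      rw [h4, add_zero] at h5
      exact h5.symm
    obtain ⟨g, hg, hgs⟩ := hx' _ h3
    exact ⟨g * x, A.mul_mem hg hx, by rwa [mul_smul]⟩

end Pool.Agent.DG
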