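import Pool.Agent.MP_cff99f_al.Gen.Rho2
import Pool.Agent.MP_cff99f_al.Gen.FGen
import Pool.Agent.MP_cff99f_al.Gen.DL

/-!
Block B2: if `v` is the least vertex with `A ≤ L v` for a finitely generated `A` then `R v` is
finitely generated.
-/

namespace Pool.Agent.DG

universe w u₁ u₂ u₃

namespace B2Aux

variable {G : Type w} [Group G] {F : Type u₃} {V : Type u₁} [MulAction G F] [MulAction G V]

/-- The elements of `F` over the orbit of `v`. -/
def Yset (b : F → V) (hb : ∀ (g : G) s, b (g • s) = g • b s) (v : V) : SubMulAction G F where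
  carrier := {s | ∃ g : G, b s = g • v}
  smul_mem' := by
    rintro c s ⟨g, hg⟩
    exact ⟨c * g, by rw [hb, hg, mul_smul]⟩

/-- The pairs `(s, g H)` with `b s = g • v`. -/
def Zset (b : F → V) (hb : ∀ (g : G) s, b (g • s) = g • b s) (v : V) (H : Subgroup G) :
    SubMulAction G (F × G ⧸ H) where
  carrier := {p | ∃ g : G, (g : G ⧸ H) = p.2 ∧ b p.1 = g • v}
  smul_mem' := by
    rintro c ⟨s, q⟩ ⟨g, h1, hg⟩
    refine ⟨c * g, ?_, ?_⟩
    · have h1 : (g : G ⧸ H) = q := h1
      change _ = c • q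
      rw [← h1]; rfl
    · change b (c • s) = _
      rw [hb]
      change c • b s = _
      have hg : b s = g • v := hg
      rw [hg, mul_smul]

theorem mapDomain_fst_apply {X Q : Type*} (c : X × Q →₀ ℤ) (s : X) (J : Finset Q)
    (h : ∀ q, c (s, q) ≠ 0 → q ∈ J) : c.mapDomain Prod.fst s = ∑ q ∈ J, c (s, q) := by
  classical
  rw [Finsupp.mapDomain, Finsupp.sum_apply, Finsupp.sum]
  have h1 : ∀ a ∈ c.support, (Finsupp.single a.1 (c a)) s = if a.1 = s then c a else 0 := by
    intro a _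
    rw [Finsupp.single_apply]
  rw [Finset.sum_congr rfl h1]
  symm
  refine Finset.sum_bij_ne_zero (fun q _ _ => (s, q)) ?_ ?_ ?_ ?_
  · intro q _ hq
    exact Finsupp.mem_support_iff.2 hq
  · intro q1 _ _ q2 _ _ heq
    exact (Prod.mk.inj heq).2
  · rintro ⟨a, q⟩ ha hne
    have ha1 : a = s := by
      by_contra hh
      exact hne (if_neg hh)
    subst ha1
    have hc : c (a, q) ≠ 0 := Finsupp.mem_support_iff.1 ha
    exact ⟨q, h q hc, hc, rfl⟩
  · intro q _ _
    simp

/-- In `L ⊔ B` with `L` and `B` commuting all elements are products. -/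
theorem mem_sup_comm {L B : Subgroup G} (h : ∀ x y, x ∈ L → y ∈ B → x * y = y * x) {g : G}
    (hg : g ∈ L ⊔ B) : ∃ l ∈ L, ∃ b ∈ B, g = l * b := by
  let K : Subgroup G :=
    { carrier := {g | ∃ l ∈ L, ∃ b ∈ B, g = l * b}
      mul_mem' := by
        rintro _ _ ⟨l, hl, b, hb, rfl⟩ ⟨l', hl', b', hb', rfl⟩
        refine ⟨l * l', L.mul_mem hl hl', b * b', B.mul_mem hb hb', ?_⟩
        have := h l' b hl' hb
        calc l * b * (l' * b') = l * (b * l') * b' := by group
          _ = l * (l' * b) * b' := by rw [this]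
          _ = l * l' * (b * b') := by group
      one_mem' := ⟨1, L.one_mem, 1, B.one_mem, by simp⟩
      inv_mem' := by
        rintro _ ⟨l, hl, b, hb, rfl⟩
        refine ⟨l⁻¹, L.inv_mem hl, b⁻¹, B.inv_mem hb, ?_⟩
        rw [mul_inv_rev]
        exact (h _ _ (L.inv_mem hl) (B.inv_mem hb)).symm }
  have hK : L ⊔ B ≤ K := by
    refine sup_le ?_ ?_
    · intro l hl
      exact ⟨l, hl, 1, B.one_mem, by simp⟩
    · intro b hb
      exact ⟨1, L.one_mem, b, hb, by simp⟩
  exact hK hg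

theorem core (h2 : TypeFP 2 G) (b : F → V) (hb : ∀ (g : G) s, b (g • s) = g • b s) (v : V)
    (L R A : Subgroup G) (hstab : ∀ g : G, g • v = v ↔ ∃ x ∈ L, ∃ y ∈ R, g = x * y)
    (hcomm : ∀ x y, x ∈ L → y ∈ R → x * y = y * x) (hLR : ∀ x, x ∈ L → x ∈ R → x = 1)
    (htriv : ∀ r ∈ R, ∀ s, b s = v → r • s = s)
    (D : G → (F →₀ ℤ)) (hD : ∀ g h, D (g * h) = D g + sm g (D h))
    (hAL : A ≤ L) (hA : A.FG)
    (hni : ¬ ∃ m : F →₀ ℤ, ∀ x ∈ A, ∀ s, b s = v → D x s = (sm x m - m) s) : R.FG := by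
  classical
  -- the restriction of `D`
  let Y := Yset b hb v
  let DY : G → (Y →₀ ℤ) := fun g => (D g).subtypeDomain (· ∈ Y)
  have hDY : ∀ g h, DY (g * h) = DY g + sm g (DY h) := by
    intro g h
    ext y
    rw [Finsupp.add_apply, sm_apply]
    change D (g * h) y.1 = D g y.1 + D h (g⁻¹ • y.1)
    rw [hD, Finsupp.add_apply, sm_apply]
  let Λ := {B : Subgroup G // B ≤ R ∧ B.FG}
  have : Nonempty Λ := ⟨⟨⊥, bot_le, ⟨∅, by simp⟩⟩⟩
  let Z : Λ → Type (max u₃ w) := fun B => Zset b hb v (L ⊔ B.1)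
  let π : ∀ l : Λ, Z l → Y := fun l z => ⟨z.1.1, by
    obtain ⟨g, -, hg⟩ := z.2
    exact ⟨g, hg⟩⟩
  have hlift := exists_lift_derivation (Z := Z) h2 π (fun l g z => rfl)
    (by
      rintro l ⟨s, g, hg⟩
      exact ⟨⟨(s, (g : G ⧸ _)), g, rfl, hg⟩, rfl⟩)
    (by
      intro l Q hQ
      -- the `R`-parts needed
      have hpair : ∀ q ∈ Q, ∃ r ∈ R, ∀ B' : Subgroup G, L ⊔ l.1 ≤ L ⊔ B' → r ∈ B' →
          ∀ g g' : G, (g : G ⧸ (L ⊔ l.1)) = q.1.1.2 → (g' : G ⧸ (L ⊔ l.1)) = q.2.1.2 →
            g⁻¹ * g' ∈ L ⊔ B' := by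
        rintro ⟨⟨⟨s, c⟩, g1, hg1, hs1⟩, ⟨⟨s', c'⟩, g2, hg2, hs2⟩⟩ hq
        have hs : s = s' := congrArg Subtype.val (hQ _ hq)
        have e : g1 • v = g2 • v := by
          rw [← hs1, ← hs2]
          change b s = b s'
          rw [hs]
        have e2 : (g1⁻¹ * g2) • v = v := by rw [mul_smul, ← e, inv_smul_smul]
        obtain ⟨x, hx, r, hr, hxr⟩ := (hstab _).1 e2
        refine ⟨r, hr, fun B' hB' hrB g g' hg hg' => ?_⟩
        have h1 : g⁻¹ * g1 ∈ L ⊔ l.1 := by
          rw [← QuotientGroup.eq]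
          exact hg.trans hg1.symm
        have h2 : g2⁻¹ * g' ∈ L ⊔ l.1 := by
          rw [← QuotientGroup.eq]
          exact hg2.trans hg'.symm
        have h3 : g⁻¹ * g' = (g⁻¹ * g1) * (x * r) * (g2⁻¹ * g') := by
          rw [← hxr]; group
        rw [h3]
        exact (L ⊔ B').mul_mem ((L ⊔ B').mul_mem (hB' h1)
          ((L ⊔ B').mul_mem (le_sup_left (a := L) hx) (le_sup_right (a := L) hrB))) (hB' h2)
      choose! ρ hρR hρ using hpair
      let B' : Subgroup G := l.1 ⊔ Subgroup.closure ((Q.image ρ : Finset G) : Set G)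
      have hB'R : B' ≤ R := by
        refine sup_le l.2.1 ?_
        rw [Subgroup.closure_le]
        intro r hr
        rw [Finset.mem_coe, Finset.mem_image] at hr
        obtain ⟨q, hq, rfl⟩ := hr
        exact hρR q hq
      have hB'fg : B'.FG := l.2.2.sup ⟨Q.image ρ, rfl⟩
      have hle : L ⊔ l.1 ≤ L ⊔ B' := sup_le_sup_left le_sup_left L
      refine ⟨⟨B', hB'R, hB'fg⟩,
        fun z => ⟨(z.1.1, Subgroup.quotientMapOfLE hle z.1.2), ?_⟩, ?_, ?_, ?_⟩
      · obtain ⟨g, hg, hg'⟩ := z.2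
        refine ⟨g, ?_, hg'⟩
        change (g : G ⧸ (L ⊔ B')) = Subgroup.quotientMapOfLE hle z.1.2
        rw [← hg]; rfl
      · rintro g ⟨⟨s, c⟩, hz⟩
        apply Subtype.ext
        refine Prod.ext rfl ?_
        change Subgroup.quotientMapOfLE hle (g • c) = g • Subgroup.quotientMapOfLE hle c
        induction c using QuotientGroup.induction_on with
        | H c => rfl
      · intro z
        rfl
      · intro q hq
        have hs : q.1.1.1 = q.2.1.1 := congrArg Subtype.val (hQ _ hq)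
        apply Subtype.ext
        refine Prod.ext hs ?_
        change Subgroup.quotientMapOfLE hle q.1.1.2 = Subgroup.quotientMapOfLE hle q.2.1.2
        obtain ⟨g, hg⟩ := QuotientGroup.mk_surjective q.1.1.2
        obtain ⟨g', hg'⟩ := QuotientGroup.mk_surjective q.2.1.2
        rw [← hg, ← hg']
        change (g : G ⧸ (L ⊔ B')) = (g' : G ⧸ (L ⊔ B'))
        rw [QuotientGroup.eq]
        refine hρ q hq B' hle ?_ g g' hg hg'
        exact le_sup_right (a := l.1) (Subgroup.subset_closure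
          (Finset.mem_coe.2 (Finset.mem_image_of_mem ρ hq))))
    DY hDY
  obtain ⟨⟨B, hBR, hBfg⟩, D', hD', hlift⟩ := hlift
  let H : Subgroup G := L ⊔ B
  let D1 : G → (F × G ⧸ H →₀ ℤ) := fun g => (D' g).mapDomain (fun z : Z ⟨B, hBR, hBfg⟩ => z.1)
  have hval : Function.Injective (fun z : Z ⟨B, hBR, hBfg⟩ => (z.1 : F × G ⧸ H)) :=
    Subtype.val_injective
  have hD1 : ∀ g h, D1 (g * h) = D1 g + sm g (D1 h) := by
    intro g h
    change Finsupp.mapDomain _ (D' (g * h)) = _
    rw [hD', Finsupp.mapDomain_add]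
    congr 1
    rw [sm_def, sm_def, ← Finsupp.mapDomain_comp]
    change _ = Finsupp.mapDomain _ (Finsupp.mapDomain _ (D' h))
    rw [← Finsupp.mapDomain_comp]
    rfl
  have hD1Z : ∀ x s q, D1 x (s, q) ≠ 0 → ∃ g : G, (g : G ⧸ H) = q ∧ b s = g • v := by
    intro x s q hne
    by_contra hcon
    apply hne
    apply Finsupp.mapDomain_of_notMem_range
    rintro ⟨z, hz⟩
    obtain ⟨g, hg1, hg2⟩ := z.2
    have hz' : z.1 = (s, q) := hz
    rw [hz'] at hg1 hg2
    exact hcon ⟨g, hg1, hg2⟩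
  have hD1D : ∀ x s, b s = v → (D1 x).mapDomain Prod.fst s = D x s := by
    intro x s hs
    have e1 : (D1 x).mapDomain Prod.fst = (DY x).mapDomain Subtype.val := by
      rw [← hlift x]
      change Finsupp.mapDomain _ (Finsupp.mapDomain _ (D' x)) = _
      rw [← Finsupp.mapDomain_comp, ← Finsupp.mapDomain_comp]
      rfl
    have hsY : s ∈ Y := ⟨1, by rw [one_smul]; exact hs⟩
    rw [e1]
    have := Finsupp.mapDomain_apply (Subtype.val_injective (p := (· ∈ Y))) (DY x) ⟨s, hsY⟩
    exact this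
  -- classes of elements of `R`
  let C : Set (G ⧸ H) := {q | ∃ β ∈ R, (β : G ⧸ H) = q}
  have hAx : ∀ x ∈ L, ∀ β ∈ R, x • ((β : G) : G ⧸ H) = ((β : G) : G ⧸ H) := by
    intro x hx β hβ
    change ((x * β : G) : G ⧸ H) = _
    rw [QuotientGroup.eq]
    have : (x * β)⁻¹ * β = x⁻¹ := by
      rw [hcomm x β hx hβ]; group
    rw [this]
    exact le_sup_left (a := L) (L.inv_mem hx)
  obtain ⟨S, hS⟩ := exists_finset_supp D1 hD1 A hA
  let J : Finset (G ⧸ H) := S.image Prod.snd
  have hJ : ∀ x ∈ A, ∀ s q, q ∈ C → D1 x (s, q) ≠ 0 → q ∈ J := by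
    rintro x hx s q ⟨β, hβ, rfl⟩ hne
    obtain ⟨g, hg, hgS⟩ := hS x hx (s, (β : G ⧸ H)) hne
    have e : g • ((s, (β : G ⧸ H)) : F × G ⧸ H) = (g • s, (β : G ⧸ H)) := by
      rw [Prod.smul_mk, hAx g (hAL hg) β hβ]
    rw [e] at hgS
    exact Finset.mem_image.2 ⟨_, hgS, rfl⟩
  have hCfin : C.Finite := by
    by_contra hinf
    obtain ⟨q0, ⟨β0, hβ0, hq0⟩, hq0J⟩ : ∃ q ∈ C, q ∉ J := by
      by_contra hcon
      push Not at hcon
      exact hinf (J.finite_toSet.subset fun q hq => hcon q hq)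
    -- all the parts are inner
    have hinner : ∀ q ∈ C, ∃ m : F →₀ ℤ, ∀ x ∈ A, ∀ s, b s = v →
        D1 x (s, q) = (sm x m - m) s := by
      rintro q ⟨β, hβ, rfl⟩
      let r := β0 * β⁻¹
      have hr : r ∈ R := R.mul_mem hβ0 (R.inv_mem hβ)
      refine ⟨(D1 r).comapDomain (fun s => (s, (β0 : G ⧸ H)))
        (fun _ _ _ _ h => (Prod.mk.inj h).1), fun x hx s hs => ?_⟩
      have e1 : D1 x + sm x (D1 r) = D1 r + sm r (D1 x) := by
        rw [← hD1, ← hD1, hcomm x r (hAL hx) hr]
      have e2 := DFunLike.congr_fun e1 (s, (β0 : G ⧸ H))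
      rw [Finsupp.add_apply, Finsupp.add_apply, sm_apply, sm_apply, Prod.smul_mk,
        Prod.smul_mk, hAx x⁻¹ (L.inv_mem (hAL hx)) β0 hβ0,
        htriv r⁻¹ (R.inv_mem hr) s hs] at e2
      have e3 : r⁻¹ • ((β0 : G) : G ⧸ H) = (β : G ⧸ H) := by
        change ((r⁻¹ * β0 : G) : G ⧸ H) = _
        congr 1
        simp only [r]; group
      rw [e3] at e2
      have e4 : D1 x (s, (β0 : G ⧸ H)) = 0 := by
        by_contra hne
        apply hq0J
        rw [← hq0]
        exact hJ x hx s _ ⟨β0, hβ0, rfl⟩ hne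
      rw [e4] at e2
      rw [Finsupp.sub_apply, sm_apply, Finsupp.comapDomain_apply, Finsupp.comapDomain_apply]
      linarith
    choose! μ hμ using hinner
    apply hni
    refine ⟨∑ q ∈ J.filter (· ∈ C), μ q, fun x hx s hs => ?_⟩
    rw [← hD1D x s hs, mapDomain_fst_apply (D1 x) s (J.filter (· ∈ C))]
    · have : ∀ q ∈ J.filter (· ∈ C), D1 x (s, q) = (sm x (μ q) - μ q) s := by
        intro q hq
        exact hμ q (Finset.mem_filter.1 hq).2 x hx s hs
      rw [Finset.sum_congr rfl this, map_sum, ← Finset.sum_sub_distrib, Finsupp.finsetSum_apply]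
    · intro q hne
      have hqC : q ∈ C := by
        obtain ⟨g, rfl, hg⟩ := hD1Z x s q hne
        rw [hs] at hg
        obtain ⟨l, hl, r, hr, rfl⟩ := (hstab g).1 hg.symm
        refine ⟨r, hr, ?_⟩
        rw [QuotientGroup.eq]
        have : r⁻¹ * (l * r) = l := by rw [hcomm l r hl hr]; group
        rw [this]
        exact le_sup_left (a := L) hl
      exact Finset.mem_filter.2 ⟨hJ x hx s q hqC hne, hqC⟩
  -- conclusion
  have hrep : ∀ q ∈ C, ∃ β ∈ R, (β : G ⧸ H) = q := fun q hq => hq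
  choose! β hβR hβ using hrep
  have hR : R = B ⊔ Subgroup.closure ((hCfin.toFinset.image β : Finset G) : Set G) := by
    apply le_antisymm
    · intro r hr
      have hq : (r : G ⧸ H) ∈ C := ⟨r, hr, rfl⟩
      have h1 : (β (r : G ⧸ H))⁻¹ * r ∈ H := by
        rw [← QuotientGroup.eq]
        exact hβ _ hq
      obtain ⟨l, hl, b', hb', hlb⟩ := mem_sup_comm
        (fun x y hx hy => hcomm x y hx (hBR hy)) h1
      have hl1 : l = 1 := by
        apply hLR l hl
        have : l = (β (r : G ⧸ H))⁻¹ * r * b'⁻¹ := by rw [hlb]; group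
        rw [this]
        exact R.mul_mem (R.mul_mem (R.inv_mem (hβR _ hq)) hr) (R.inv_mem (hBR hb'))
      rw [hl1, one_mul] at hlb
      have : r = β (r : G ⧸ H) * b' := by rw [← hlb]; group
      rw [this]
      refine Subgroup.mul_mem _ ?_ (le_sup_left (a := B) hb')
      refine le_sup_right (a := B) (Subgroup.subset_closure (Finset.mem_coe.2
        (Finset.mem_image_of_mem β ?_)))
      exact hCfin.mem_toFinset.2 hq
    · refine sup_le hBR ?_
      rw [Subgroup.closure_le]
      intro r hr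
      rw [Finset.mem_coe, Finset.mem_image] at hr
      obtain ⟨q, hq, rfl⟩ := hr
      exact hβR q (hCfin.mem_toFinset.1 hq)
  rw [hR]
  exact hBfg.sup ⟨_, rfl⟩

end B2Aux

namespace GDC

variable {G : Type w} {V : Type u₁} {E : Type u₂} {F : Type u₃} [Group G] [PartialOrder V]
    [MulAction G V] [MulAction G E] [MulAction G F] (T : GDC G V E F)

/-- Let `G` be of type `FP_2`. If `A` is trivial then `v = bot` and `R bot = ⊤`. Otherwise `y` is not
inner at `v` on `A`. Let `Y = {s // ∃ g, b s = g • v}` and for a finitely generated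
subgroup `B ≤ R v` let `Z B = {(s, c) : Y × G ⧸ (L v ⊔ B) // b s = c • v}` (here `L v ⊔ B ≤ L v ⊔ R v`
fixes `v`, and `c • v` stands for `g • v`, `c` the class of `g`). Two pairs `(s, c)`, `(s, c')` over
the same `s` become equal for a larger `B`. By `exists_lift_derivation` the restriction of `y` to
`Y` lifts to a derivation `D'` to the chains of some `Z B`. For `β ∈ R v` let `D' x β` be the part of
`D' x` on the pairs `(s, β (L v ⊔ B))` with `b s = v`: a chain of 2-cells ending at `v`. For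
`x ∈ A ≤ L v` and `r ∈ R v` we have `x r = r x`, so `x D'(r) - D'(r) = r D'(x) - D'(x)`, so the
derivations `D' · β` of `A` for different `β` differ by inner ones. Their sum over the
cosets `β` is the part of `y` at `v`. As `A` is finitely generated only finitely many of the
`D' · β` are nonzero on `A`. If `R v / B` were infinite one of them would be `0`, so all would be
inner, so their sum would be inner. So `B` has finite index in `R v` and `R v` is finitely
generated. -/
theorem R_fg_of_isRho (hinj : T.Inj) (h2 : TypeFP 2 G) (A : Subgroup G) (hA : A.FG) (v : V)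
    (hv : T.IsRho A v) : (T.R v).FG := by
  by_cases hne : A = ⊥
  · have hv0 : v = T.bot := by
      apply le_antisymm
      · exact hv.2 T.bot (by rw [hne]; exact bot_le)
      · exact T.bot_le v
    have hR : T.R v = ⊤ := by
      rw [eq_top_iff, hv0]
      intro g _
      exact T.toVD.mem_R_bot g
    rw [hR, ← Group.fg_def]
    apply fg_of_typeFP_one
    obtain ⟨k, ε, d, a1, a2, a3, a4⟩ := h2
    exact ⟨k, ε, d, a1, a2, fun _ => a3 (by omega), fun i hi => a4 i (by omega)⟩
  · refine B2Aux.core h2 T.b T.b_smul v (T.L v) (T.R v) A (T.stabV v) (T.comm v) (T.LR v) ?_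
      (T.y T.w) (T.y_mul hinj T.isW_w) hv.1 hA ?_
    · intro r hr s hs
      exact T.smul_cell_of_R hr hs.le
    · exact hv.not_inner T hinj hA hne

end GDC

end Pool.Agent.DG
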