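import Pool.Agent.MP_cff99f_al.FPAlg

/-!
General case, abstract part: directed complexes with a group action.
-/

namespace Pool.Agent.DG

universe u w u₁ u₂ u₃

section

variable {G : Type w} [Group G] {Y : Type u} [MulAction G Y]

/-- Translation of chains by a group element. -/
noncomputable def sm (g : G) : (Y →₀ ℤ) →ₗ[ℤ] (Y →₀ ℤ) := Finsupp.lmapDomain ℤ ℤ (g • ·)

theorem sm_def (g : G) (z : Y →₀ ℤ) : sm g z = z.mapDomain (g • ·) := rfl

@[simp] theorem sm_single (g : G) (y : Y) (n : ℤ) :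
    sm g (Finsupp.single y n) = Finsupp.single (g • y) n := Finsupp.mapDomain_single

@[simp] theorem sm_one (z : Y →₀ ℤ) : sm (1 : G) z = z := by
  induction z using Finsupp.induction_linear with
  | zero => simp
  | add f g hf hg => rw [map_add, hf, hg]
  | single y n => simp

theorem sm_mul (g h : G) (z : Y →₀ ℤ) : sm (g * h) z = sm g (sm h z) := by
  induction z using Finsupp.induction_linear with
  | zero => simp
  | add f g hf hg => rw [map_add, map_add, map_add, hf, hg]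
  | single y n => simp [mul_smul]

@[simp] theorem sm_inv_sm (g : G) (z : Y →₀ ℤ) : sm g⁻¹ (sm g z) = z := by
  rw [← sm_mul]; simp

@[simp] theorem sm_sm_inv (g : G) (z : Y →₀ ℤ) : sm g (sm g⁻¹ z) = z := by
  rw [← sm_mul]; simp

theorem sm_smul_apply (g : G) (z : Y →₀ ℤ) (y : Y) : sm g z (g • y) = z y :=
  Finsupp.mapDomain_apply (MulAction.injective g) z y

theorem sm_apply (g : G) (z : Y →₀ ℤ) (y : Y) : sm g z y = z (g⁻¹ • y) := by
  conv_lhs => rw [← smul_inv_smul g y]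
  rw [sm_smul_apply]

end

/-- Vertices of a directed complex with a group action, and the two factors `L v`, `R v` of the
stabiliser of each vertex `v`. -/
structure VD (G : Type w) (V : Type u₁) [Group G] [PartialOrder V] [MulAction G V] where
  bot : V
  top : V
  L : V → Subgroup G
  R : V → Subgroup G
  bot_le : ∀ v, bot ≤ v
  le_top : ∀ v, v ≤ top
  smul_le : ∀ (g : G) (p q : V), p ≤ q → g • p ≤ g • q
  L_mono : ∀ p q, p ≤ q → L p ≤ L q
  R_anti : ∀ p q, p ≤ q → R q ≤ R p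
  L_smul : ∀ (g : G) v x, x ∈ L (g • v) ↔ g⁻¹ * x * g ∈ L v
  R_smul : ∀ (g : G) v x, x ∈ R (g • v) ↔ g⁻¹ * x * g ∈ R v
  L_bot : ∀ x, x ∈ L bot → x = 1
  R_top : ∀ x, x ∈ R top → x = 1
  LR : ∀ v x, x ∈ L v → x ∈ R v → x = 1
  comm : ∀ v x y, x ∈ L v → y ∈ R v → x * y = y * x
  stabV : ∀ (v : V) (g : G), g • v = v ↔ ∃ x ∈ L v, ∃ y ∈ R v, g = x * y

/-- The boundary of a chain of edges. -/
noncomputable def bd1 {V E : Type*} (i t : E → V) : (E →₀ ℤ) →ₗ[ℤ] (V →₀ ℤ) :=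
  Finsupp.linearCombination ℤ fun e => Finsupp.single (t e) (1 : ℤ) - Finsupp.single (i e) (1 : ℤ)

/-- The boundary of a chain of 2-cells. -/
noncomputable def bd2 {E F : Type*} (d : F → (E →₀ ℤ)) : (F →₀ ℤ) →ₗ[ℤ] (E →₀ ℤ) :=
  Finsupp.linearCombination ℤ d

/-- A directed complex with an action of `G`: vertices `V`, edges `E`, 2-cells `F`. The edge `e`
goes from `i e` to `t e`, the 2-cell `s` from `a s` to `b s` and has the boundary `d s`; all
intervals are exact. -/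
structure GDC (G : Type w) (V : Type u₁) (E : Type u₂) (F : Type u₃) [Group G] [PartialOrder V] [MulAction G V]
    [MulAction G E] [MulAction G F] extends VD G V where
  i : E → V
  t : E → V
  a : F → V
  b : F → V
  d : F → (E →₀ ℤ)
  i_smul : ∀ (g : G) e, i (g • e) = g • i e
  t_smul : ∀ (g : G) e, t (g • e) = g • t e
  a_smul : ∀ (g : G) s, a (g • s) = g • a s
  b_smul : ∀ (g : G) s, b (g • s) = g • b s
  d_smul : ∀ (g : G) s, d (g • s) = sm g (d s)
  it : ∀ e, i e < t e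
  ab : ∀ s, a s < b s
  d_supp : ∀ s e, d s e ≠ 0 → a s ≤ i e ∧ t e ≤ b s
  dd : ∀ s, bd1 i t (d s) = 0
  stabE : ∀ (e : E) (g : G), g • e = e ↔ ∃ x ∈ L (i e), ∃ y ∈ R (t e), g = x * y
  stabF : ∀ (s : F) (g : G), g • s = s ↔ ∃ x ∈ L (a s), ∃ y ∈ R (b s), g = x * y
  ex0 : ∀ p q, p ≤ q → ∃ z ∈ Finsupp.supported ℤ ℤ {e | p ≤ i e ∧ t e ≤ q},
    bd1 i t z = Finsupp.single q (1 : ℤ) - Finsupp.single p (1 : ℤ)
  ex1 : ∀ p q, p ≤ q → ∀ z ∈ Finsupp.supported ℤ ℤ {e | p ≤ i e ∧ t e ≤ q}, bd1 i t z = 0 →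
    ∃ y ∈ Finsupp.supported ℤ ℤ {s | p ≤ a s ∧ b s ≤ q}, bd2 d y = z

namespace GDC

variable {G : Type w} {V : Type u₁} {E : Type u₂} {F : Type u₃} [Group G] [PartialOrder V] [MulAction G V]
    [MulAction G E] [MulAction G F] (T : GDC G V E F)

/-- Chains of vertices of the interval `[p, q]`. -/
noncomputable def C0 (p q : V) : Submodule ℤ (V →₀ ℤ) := Finsupp.supported ℤ ℤ {v | p ≤ v ∧ v ≤ q}

/-- Chains of edges of the interval `[p, q]`. -/
noncomputable def C1 (p q : V) : Submodule ℤ (E →₀ ℤ) :=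
  Finsupp.supported ℤ ℤ {e | p ≤ T.i e ∧ T.t e ≤ q}

/-- Chains of 2-cells of the interval `[p, q]`. -/
noncomputable def C2 (p q : V) : Submodule ℤ (F →₀ ℤ) :=
  Finsupp.supported ℤ ℤ {s | p ≤ T.a s ∧ T.b s ≤ q}

/-- The boundary of edges. -/
noncomputable def d1 : (E →₀ ℤ) →ₗ[ℤ] (V →₀ ℤ) := bd1 T.i T.t

/-- The boundary of 2-cells. -/
noncomputable def d2 : (F →₀ ℤ) →ₗ[ℤ] (E →₀ ℤ) := bd2 T.d

/-- The boundary of chains of 2-cells is injective. -/
def Inj : Prop := ∀ y, T.d2 y = 0 → y = 0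

end GDC

end Pool.Agent.DG
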