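import Pool.Agent.MP_cff99f_al.Gen.Rev

/-!
Block Basic: first properties of directed complexes with a group action.
-/

namespace Pool.Agent.DG

universe w u₁ u₂ u₃

section

variable {G : Type w} [Group G] {Y : Type u₁} [MulAction G Y]

theorem sm_eq_self {g : G} {z : Y →₀ ℤ} (h : ∀ y, z y ≠ 0 → g • y = y) : sm g z = z := by
  rw [sm_def, Finsupp.mapDomain_congr (g := id), Finsupp.mapDomain_id]
  intro y hy
  exact h y (Finsupp.mem_support_iff.1 hy)

end

namespace VD

variable {G : Type w} {V : Type u₁} [Group G] [PartialOrder V] [MulAction G V] (S : VD G V)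

include S in
theorem smul_le_iff (g : G) (p q : V) : g • p ≤ g • q ↔ p ≤ q := by
  constructor
  · intro h
    have h1 := S.smul_le g⁻¹ _ _ h
    rwa [inv_smul_smul, inv_smul_smul] at h1
  · exact S.smul_le g p q

theorem smul_bot (g : G) : g • S.bot = S.bot := by
  apply le_antisymm
  · have h1 := S.smul_le g _ _ (S.bot_le (g⁻¹ • S.bot))
    rwa [smul_inv_smul] at h1
  · exact S.bot_le _

theorem smul_top (g : G) : g • S.top = S.top := by
  apply le_antisymm
  · exact S.le_top _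
  · have h1 := S.smul_le g _ _ (S.le_top (g⁻¹ • S.top))
    rwa [smul_inv_smul] at h1

theorem mem_L_top (g : G) : g ∈ S.L S.top := by
  obtain ⟨x, hx, y, hy, rfl⟩ := (S.stabV S.top g).1 (S.smul_top g)
  rw [S.R_top y hy, mul_one]
  exact hx

theorem mem_R_bot (g : G) : g ∈ S.R S.bot := by
  obtain ⟨x, hx, y, hy, rfl⟩ := (S.stabV S.bot g).1 (S.smul_bot g)
  rw [S.L_bot x hx, one_mul]
  exact hy

/-- `L p` fixes everything above `p`. -/
theorem smul_of_mem_L {x : G} {p v : V} (hx : x ∈ S.L p) (h : p ≤ v) : x • v = v := 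
  (S.stabV v x).2 ⟨x, S.L_mono _ _ h hx, 1, one_mem _, (mul_one x).symm⟩

theorem smul_of_mem_R {x : G} {p v : V} (hx : x ∈ S.R p) (h : v ≤ p) : x • v = v := 
  (S.stabV v x).2 ⟨1, one_mem _, x, S.R_anti _ _ h hx, (one_mul x).symm⟩

/-- Uniqueness of the decomposition in the stabiliser. -/
theorem decomp_unique {v : V} {x x' y y' : G} (hx : x ∈ S.L v) (hx' : x' ∈ S.L v)
    (hy : y ∈ S.R v) (hy' : y' ∈ S.R v) (h : x * y = x' * y') : x = x' ∧ y = y' := by
  have h1 : x'⁻¹ * x = y' * y⁻¹ := by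
    rw [inv_mul_eq_iff_eq_mul, ← mul_assoc, ← h, mul_assoc, mul_inv_cancel, mul_one]
  have h2 : x'⁻¹ * x = 1 := S.LR v _ ((S.L v).mul_mem ((S.L v).inv_mem hx') hx)
    (by rw [h1]; exact (S.R v).mul_mem hy' ((S.R v).inv_mem hy))
  have h3 : x = x' := (inv_mul_eq_one.1 h2).symm
  refine ⟨h3, ?_⟩
  rw [h3] at h
  exact mul_left_cancel h

/-- `L p R q ∩ L q R r = L p R r`. -/
theorem mem_inter {g : G} {p q r : V} (hpq : p ≤ q) (hqr : q ≤ r)
    (h1 : ∃ x ∈ S.L p, ∃ y ∈ S.R q, g = x * y) (h2 : ∃ x ∈ S.L q, ∃ y ∈ S.R r, g = x * y) :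
    ∃ x ∈ S.L p, ∃ y ∈ S.R r, g = x * y := by
  obtain ⟨x, hx, y, hy, e1⟩ := h1
  obtain ⟨x', hx', y', hy', e2⟩ := h2
  obtain ⟨h3, h4⟩ := S.decomp_unique (S.L_mono _ _ hpq hx) hx' hy (S.R_anti _ _ hqr hy')
    (e1.symm.trans e2)
  exact ⟨x, hx, y, by rw [h4]; exact hy', e1⟩

/-- `L p` and `R q` commute for `p ≤ q`. -/
theorem comm' {p q : V} (h : p ≤ q) {x y : G} (hx : x ∈ S.L p) (hy : y ∈ S.R q) :
    x * y = y * x := 
  S.comm q x y (S.L_mono _ _ h hx) hy

end VD

namespace GDC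

variable {G : Type w} {V : Type u₁} {E : Type u₂} {F : Type u₃} [Group G] [PartialOrder V]
    [MulAction G V] [MulAction G E] [MulAction G F] (T : GDC G V E F)

theorem mem_C1 {p q : V} {z : E →₀ ℤ} :
    z ∈ T.C1 p q ↔ ∀ e, z e ≠ 0 → p ≤ T.i e ∧ T.t e ≤ q := by
  unfold C1
  rw [Finsupp.mem_supported]
  constructor
  · intro h e he
    exact h (Finset.mem_coe.2 (Finsupp.mem_support_iff.2 he))
  · intro h e he
    exact h e (Finsupp.mem_support_iff.1 (Finset.mem_coe.1 he))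

theorem mem_C2 {p q : V} {z : F →₀ ℤ} :
    z ∈ T.C2 p q ↔ ∀ s, z s ≠ 0 → p ≤ T.a s ∧ T.b s ≤ q := by
  unfold C2
  rw [Finsupp.mem_supported]
  constructor
  · intro h e he
    exact h (Finset.mem_coe.2 (Finsupp.mem_support_iff.2 he))
  · intro h e he
    exact h e (Finsupp.mem_support_iff.1 (Finset.mem_coe.1 he))

theorem d1_single (e : E) (n : ℤ) : T.d1 (Finsupp.single e n) =
    n • (Finsupp.single (T.t e) (1 : ℤ) - Finsupp.single (T.i e) (1 : ℤ)) := by
  unfold d1 bd1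
  rw [Finsupp.linearCombination_single]

theorem d2_single (s : F) (n : ℤ) : T.d2 (Finsupp.single s n) = n • T.d s := by
  unfold d2 bd2
  rw [Finsupp.linearCombination_single]

open Classical in
theorem weight_d1 (U : Set V) (hup : ∀ p q, p ≤ q → p ∈ U → q ∈ U) (z : E →₀ ℤ) :
    Finsupp.linearCombination ℤ (fun v => if v ∈ U then (1 : ℤ) else 0) (T.d1 z) =
      z.sum fun e n => if T.i e ∉ U ∧ T.t e ∈ U then n else 0 := by
  induction z using Finsupp.induction_linear with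
  | zero => simp
  | add f g hf hg =>
    rw [map_add, map_add, hf, hg, Finsupp.sum_add_index']
    · intro e; simp
    · intro e m n; split_ifs <;> simp
  | single e n =>
    rw [d1_single, map_smul, map_sub, Finsupp.linearCombination_single,
      Finsupp.linearCombination_single, Finsupp.sum_single_index (by simp)]
    have h1 : T.i e ∈ U → T.t e ∈ U := hup _ _ (T.it e).le
    by_cases hi : T.i e ∈ U
    · simp [hi, h1 hi]
    · by_cases ht : T.t e ∈ U
      · simp [hi, ht]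
      · simp [hi, ht]

theorem smul_edge_of_L {x : G} {p : V} {e : E} (hx : x ∈ T.L p) (h : p ≤ T.i e) : x • e = e := 
  (T.stabE e x).2 ⟨x, T.L_mono _ _ h hx, 1, one_mem _, (mul_one x).symm⟩

theorem smul_edge_of_R {x : G} {p : V} {e : E} (hx : x ∈ T.R p) (h : T.t e ≤ p) : x • e = e := 
  (T.stabE e x).2 ⟨1, one_mem _, x, T.R_anti _ _ h hx, (one_mul x).symm⟩

theorem smul_cell_of_L {x : G} {p : V} {s : F} (hx : x ∈ T.L p) (h : p ≤ T.a s) : x • s = s := 
  (T.stabF s x).2 ⟨x, T.L_mono _ _ h hx, 1, one_mem _, (mul_one x).symm⟩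

theorem smul_cell_of_R {x : G} {p : V} {s : F} (hx : x ∈ T.R p) (h : T.b s ≤ p) : x • s = s := 
  (T.stabF s x).2 ⟨1, one_mem _, x, T.R_anti _ _ h hx, (one_mul x).symm⟩

theorem sm_C1_of_L {x : G} {p q : V} {z : E →₀ ℤ} (hx : x ∈ T.L p) (hz : z ∈ T.C1 p q) :
    sm x z = z := 
  sm_eq_self fun e he => T.smul_edge_of_L hx ((T.mem_C1.1 hz e he).1)

theorem sm_C1_of_R {x : G} {p q : V} {z : E →₀ ℤ} (hx : x ∈ T.R q) (hz : z ∈ T.C1 p q) :
    sm x z = z := 
  sm_eq_self fun e he => T.smul_edge_of_R hx ((T.mem_C1.1 hz e he).2)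

theorem sm_C2_of_L {x : G} {p q : V} {z : F →₀ ℤ} (hx : x ∈ T.L p) (hz : z ∈ T.C2 p q) :
    sm x z = z := 
  sm_eq_self fun e he => T.smul_cell_of_L hx ((T.mem_C2.1 hz e he).1)

theorem sm_C2_of_R {x : G} {p q : V} {z : F →₀ ℤ} (hx : x ∈ T.R q) (hz : z ∈ T.C2 p q) :
    sm x z = z := 
  sm_eq_self fun e he => T.smul_cell_of_R hx ((T.mem_C2.1 hz e he).2)

theorem sm_mem_C1 (g : G) {p q : V} {z : E →₀ ℤ} (hz : z ∈ T.C1 p q) :
    sm g z ∈ T.C1 (g • p) (g • q) := by
  rw [T.mem_C1]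
  intro e he
  rw [sm_apply] at he
  have h1 := T.mem_C1.1 hz _ he
  rw [T.i_smul, T.t_smul] at h1
  have h2 := T.smul_le g _ _ h1.1
  have h3 := T.smul_le g _ _ h1.2
  rw [smul_inv_smul] at h2 h3
  exact ⟨h2, h3⟩

theorem sm_mem_C2 (g : G) {p q : V} {z : F →₀ ℤ} (hz : z ∈ T.C2 p q) :
    sm g z ∈ T.C2 (g • p) (g • q) := by
  rw [T.mem_C2]
  intro e he
  rw [sm_apply] at he
  have h1 := T.mem_C2.1 hz _ he
  rw [T.a_smul, T.b_smul] at h1
  have h2 := T.smul_le g _ _ h1.1
  have h3 := T.smul_le g _ _ h1.2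
  rw [smul_inv_smul] at h2 h3
  exact ⟨h2, h3⟩

theorem C1_mono {p p' q q' : V} (h : p' ≤ p) (h' : q ≤ q') : T.C1 p q ≤ T.C1 p' q' := by
  intro z hz
  rw [T.mem_C1] at hz ⊢
  exact fun e he => ⟨h.trans (hz e he).1, (hz e he).2.trans h'⟩

theorem C2_mono {p p' q q' : V} (h : p' ≤ p) (h' : q ≤ q') : T.C2 p q ≤ T.C2 p' q' := by
  intro z hz
  rw [T.mem_C2] at hz ⊢
  exact fun e he => ⟨h.trans (hz e he).1, (hz e he).2.trans h'⟩

theorem C1_top (z : E →₀ ℤ) : z ∈ T.C1 T.bot T.top := 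
  T.mem_C1.2 fun _ _ => ⟨T.bot_le _, T.le_top _⟩

theorem C2_top (z : F →₀ ℤ) : z ∈ T.C2 T.bot T.top := 
  T.mem_C2.2 fun _ _ => ⟨T.bot_le _, T.le_top _⟩

theorem d2_mem {p q : V} {z : F →₀ ℤ} (hz : z ∈ T.C2 p q) : T.d2 z ∈ T.C1 p q := by
  unfold d2 bd2
  rw [Finsupp.linearCombination_apply]
  apply Submodule.sum_mem
  intro s hs
  apply Submodule.smul_mem
  have h1 := T.mem_C2.1 hz s (Finsupp.mem_support_iff.1 hs)
  apply T.C1_mono h1.1 h1.2
  exact T.mem_C1.2 fun e he => T.d_supp s e he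

theorem d1_mem {p q : V} {z : E →₀ ℤ} (hz : z ∈ T.C1 p q) :
    T.d1 z ∈ Finsupp.supported ℤ ℤ {v : V | p ≤ v ∧ v ≤ q} := by
  unfold d1 bd1
  rw [Finsupp.linearCombination_apply]
  apply Submodule.sum_mem
  intro e he
  apply Submodule.smul_mem
  have h1 := T.mem_C1.1 hz e (Finsupp.mem_support_iff.1 he)
  have h2 := (T.it e).le
  apply Submodule.sub_mem
  · exact Finsupp.single_mem_supported ℤ _ ⟨h1.1.trans h2, h1.2⟩
  · exact Finsupp.single_mem_supported ℤ _ ⟨h1.1, h2.trans h1.2⟩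

theorem d1_sm (g : G) (z : E →₀ ℤ) : T.d1 (sm g z) = sm g (T.d1 z) := by
  induction z using Finsupp.induction_linear with
  | zero => simp
  | add f g hf hg => rw [map_add, map_add, hf, hg, map_add, map_add]
  | single e n =>
    rw [sm_single, d1_single, d1_single, map_smul, map_sub, sm_single, sm_single, T.t_smul,
      T.i_smul]

theorem d2_sm (g : G) (z : F →₀ ℤ) : T.d2 (sm g z) = sm g (T.d2 z) := by
  induction z using Finsupp.induction_linear with
  | zero => simp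
  | add f g hf hg => rw [map_add, map_add, hf, hg, map_add, map_add]
  | single e n =>
    rw [sm_single, d2_single, d2_single, map_smul, T.d_smul]

theorem d1_d2 (z : F →₀ ℤ) : T.d1 (T.d2 z) = 0 := by
  induction z using Finsupp.induction_linear with
  | zero => simp
  | add f g hf hg => rw [map_add, map_add, hf, hg, add_zero]
  | single e n =>
    rw [d2_single, map_smul]
    have h := T.dd e
    unfold d1
    rw [h, smul_zero]

theorem sumCoeff_d1 (z : E →₀ ℤ) : sumCoeff V (T.d1 z) = 0 := by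
  induction z using Finsupp.induction_linear with
  | zero => simp
  | add f g hf hg => rw [map_add, map_add, hf, hg, add_zero]
  | single e n =>
    rw [d1_single, map_zsmul, map_sub, FPAlg.sumCoeff_single, FPAlg.sumCoeff_single, sub_self, smul_zero]

/-- Exactness at the vertices: a chain of vertices of `[p, q]` of total weight `0` is a boundary. -/
theorem exact0 {p q : V} {z : V →₀ ℤ}
    (hz : z ∈ Finsupp.supported ℤ ℤ {v : V | p ≤ v ∧ v ≤ q}) (h : sumCoeff V z = 0) :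
    ∃ y ∈ T.C1 p q, T.d1 y = z := by
  classical
  have hmem : ∀ v, z v ≠ 0 → p ≤ v ∧ v ≤ q := fun v hv =>
    (Finsupp.mem_supported ℤ z).1 hz (Finsupp.mem_support_iff.2 hv)
  have hex : ∀ v : V, ∃ y : E →₀ ℤ, p ≤ v → v ≤ q → y ∈ T.C1 p q ∧
      T.d1 y = Finsupp.single v (1 : ℤ) - Finsupp.single p (1 : ℤ) := by
    intro v
    by_cases hv : p ≤ v ∧ v ≤ q
    · obtain ⟨y, hy, hy'⟩ := T.ex0 p v hv.1
      exact ⟨y, fun _ _ => ⟨T.C1_mono le_rfl hv.2 hy, hy'⟩⟩
    · exact ⟨0, fun h1 h2 => absurd ⟨h1, h2⟩ hv⟩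
  choose f hf using hex
  refine ⟨Finsupp.linearCombination ℤ f z, ?_, ?_⟩
  · rw [Finsupp.linearCombination_apply]
    apply Submodule.sum_mem
    intro v hv
    apply Submodule.smul_mem
    have hv' := hmem v (Finsupp.mem_support_iff.1 hv)
    exact (hf v hv'.1 hv'.2).1
  · have h1 : T.d1 (Finsupp.linearCombination ℤ f z) =
        z.sum fun v n => n • (Finsupp.single v (1 : ℤ) - Finsupp.single p (1 : ℤ)) := by
      rw [Finsupp.linearCombination_apply, Finsupp.sum, map_sum, Finsupp.sum]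
      apply Finset.sum_congr rfl
      intro v hv
      have hv' := hmem v (Finsupp.mem_support_iff.1 hv)
      rw [map_smul, (hf v hv'.1 hv'.2).2]
    rw [h1]
    have h2 : ∀ z : V →₀ ℤ, (z.sum fun v n =>
        n • (Finsupp.single v (1 : ℤ) - Finsupp.single p (1 : ℤ))) =
        z - Finsupp.single p (sumCoeff V z) := by
      intro z
      change Finsupp.linearCombination ℤ
        (fun v => Finsupp.single v (1 : ℤ) - Finsupp.single p (1 : ℤ)) z = _
      induction z using Finsupp.induction_linear with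
      | zero => simp
      | add f g hf hg => rw [map_add, map_add, hf, hg, Finsupp.single_add]; abel
      | single v n =>
        rw [Finsupp.linearCombination_single, FPAlg.sumCoeff_single, smul_sub, Finsupp.smul_single,
          Finsupp.smul_single, smul_eq_mul, mul_one]
    rw [h2, h, Finsupp.single_zero, sub_zero]

theorem exact1 {p q : V} (hpq : p ≤ q) {z : E →₀ ℤ} (hz : z ∈ T.C1 p q) (h : T.d1 z = 0) :
    ∃ y ∈ T.C2 p q, T.d2 y = z := T.ex1 p q hpq z hz h

/-- If a chain of edges flows out of `bot` into `top`, then every up-closed set of vertices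
containing `top` but not `bot` is entered by an edge of the chain. -/
theorem exists_crossing {z : E →₀ ℤ}
    (hz : T.d1 z = Finsupp.single T.top (1 : ℤ) - Finsupp.single T.bot (1 : ℤ)) (U : Set V)
    (hup : ∀ p q, p ≤ q → p ∈ U → q ∈ U) (htop : T.top ∈ U) (hbot : T.bot ∉ U) :
    ∃ e, z e ≠ 0 ∧ T.i e ∉ U ∧ T.t e ∈ U := by
  classical
  have h1 := weight_d1 T U hup z
  rw [hz, map_sub, Finsupp.linearCombination_single, Finsupp.linearCombination_single, if_pos htop,
    if_neg hbot] at h1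
  by_contra hcon
  push Not at hcon
  have h2 : (z.sum fun e n => if T.i e ∉ U ∧ T.t e ∈ U then n else 0) = 0 := by
    rw [Finsupp.sum]
    apply Finset.sum_eq_zero
    intro e he
    rw [if_neg]
    rintro ⟨h3, h4⟩
    exact hcon e (Finsupp.mem_support_iff.1 he) h3 h4
  rw [h2] at h1
  simp at h1

/-- Quantitative form: the total coefficient of the crossing edges is `1`. -/
theorem sum_crossing {z : E →₀ ℤ}
    (hz : T.d1 z = Finsupp.single T.top (1 : ℤ) - Finsupp.single T.bot (1 : ℤ)) (U : Set V)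
    (hup : ∀ p q, p ≤ q → p ∈ U → q ∈ U) (htop : T.top ∈ U) (hbot : T.bot ∉ U)
    [DecidablePred fun e => T.i e ∉ U ∧ T.t e ∈ U] :
    ∑ e ∈ z.support.filter (fun e => T.i e ∉ U ∧ T.t e ∈ U), z e = 1 := by
  have h1 := weight_d1 T U hup z
  rw [hz, map_sub, Finsupp.linearCombination_single, Finsupp.linearCombination_single, if_pos htop,
    if_neg hbot] at h1
  rw [Finset.sum_filter]
  have h2 : (1 : ℤ) • (1 : ℤ) - (1 : ℤ) • (0 : ℤ) = 1 := by simp
  rw [h2] at h1
  conv_rhs => rw [h1, Finsupp.sum]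
  apply Finset.sum_congr rfl
  intro e _
  by_cases hc : T.i e ∉ U ∧ T.t e ∈ U
  · rw [if_pos hc, if_pos hc]
  · rw [if_neg hc, if_neg hc]

theorem toVD_rev : T.rev.toVD = T.toVD.rev := rfl

end GDC

end Pool.Agent.DG
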