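import Pool.Agent.MP_cff99f_al.Gen.Dcx

/-!
Block Chain: the chain complexes of words in edges and 2-cells.
-/

namespace Pool.Agent.DG

universe u v w z

section

variable {X : Type w}

theorem cat_single (l l' : List X) (m n : ℤ) :
    cat (Finsupp.single l m) (Finsupp.single l' n) = Finsupp.single (l ++ l') (m * n) := by
  simp only [cat, Finsupp.linearCombination_single, LinearMap.smul_apply,
    Finsupp.lmapDomain_apply, Finsupp.mapDomain_single, Finsupp.smul_single, smul_eq_mul]

theorem cat_assoc (x y z : List X →₀ ℤ) : cat (cat x y) z = cat x (cat y z) := by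
  induction x using Finsupp.induction_linear with
  | zero => simp
  | add f g hf hg => simp only [map_add, LinearMap.add_apply, hf, hg]
  | single a m =>
    induction y using Finsupp.induction_linear with
    | zero => simp
    | add f g hf hg => simp only [map_add, LinearMap.add_apply, hf, hg]
    | single b n =>
      induction z using Finsupp.induction_linear with
      | zero => simp
      | add f g hf hg => simp only [map_add, hf, hg]
      | single c k => simp only [cat_single, List.append_assoc, mul_assoc]

theorem nil_cat (x : List X →₀ ℤ) : cat (Finsupp.single [] 1) x = x := by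
  induction x using Finsupp.induction_linear with
  | zero => simp
  | add f g hf hg => simp only [map_add, hf, hg]
  | single a m => simp only [cat_single, List.nil_append, one_mul]

theorem cat_nil (x : List X →₀ ℤ) : cat x (Finsupp.single [] 1) = x := by
  induction x using Finsupp.induction_linear with
  | zero => simp
  | add f g hf hg => simp only [map_add, LinearMap.add_apply, hf, hg]
  | single a m => simp only [cat_single, List.append_nil, mul_one]

end

section

variable {V : Type w} {E : Type u} {i t : E → V}

theorem pathIn_append {p q : V} {l l' : List E} :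
    PathIn i t p (l ++ l') q ↔ ∃ r, PathIn i t p l r ∧ PathIn i t r l' q := by
  induction l generalizing p with
  | nil =>
    constructor
    · intro h
      exact ⟨p, rfl, h⟩
    · rintro ⟨r, h1, h2⟩
      have h1' : p = r := h1
      subst h1'
      exact h2
  | cons e l ih =>
    constructor
    · rintro ⟨h1, h2⟩
      obtain ⟨r, h3, h4⟩ := ih.1 h2
      exact ⟨r, ⟨h1, h3⟩, h4⟩
    · rintro ⟨r, ⟨h1, h3⟩, h4⟩
      exact ⟨h1, ih.2 ⟨r, h3, h4⟩⟩

theorem pathIn_unique {p q q' : V} {l : List E} (h : PathIn i t p l q) (h' : PathIn i t p l q') :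
    q = q' := by
  induction l generalizing p with
  | nil =>
    have h1 : p = q := h
    have h2 : p = q' := h'
    exact h1.symm.trans h2
  | cons e l ih => exact ih h.2 h'.2

end

variable {α : Type u} {ι : Type v} {P : Pres α ι} {V E : Type w}

namespace Dcx

variable (D : Dcx P V E)

theorem low_path (s : D.Cell2) : D.Path s.a (D.low s) s.b :=
  D.flip_path s.j true s.a s.top s.b s.path (by rw [s.lab, Pres.side_true])

theorem low_lab (s : D.Cell2) : (D.low s).map D.lab = P.rhs s.j := by
  have h := D.flip_lab s.j true s.a s.top s.b s.path (by rw [s.lab, Pres.side_true])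
  rw [Bool.not_true, Pres.side_false] at h
  exact h

theorem cpath_edges {p q : V} {l : List E} : D.CPath p (D.edges l) q ↔ D.Path p l q := by
  induction l generalizing p with
  | nil => exact Iff.rfl
  | cons e l ih =>
    constructor
    · rintro ⟨h1, h2⟩
      exact ⟨h1, ih.1 h2⟩
    · rintro ⟨h1, h2⟩
      exact ⟨h1, ih.2 h2⟩

theorem cpath_append {p q : V} {l l' : List D.X} :
    D.CPath p (l ++ l') q ↔ ∃ r, D.CPath p l r ∧ D.CPath r l' q := pathIn_append

theorem deg_append (l l' : List D.X) : D.deg (l ++ l') = D.deg l + D.deg l' := by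
  induction l with
  | nil => simp [deg]
  | cons x l ih =>
    rcases x with e | s
    · simp only [List.cons_append, deg, ih]
    · simp only [List.cons_append, deg, ih]
      omega

theorem deg_edges (l : List E) : D.deg (D.edges l) = 0 := by
  induction l with
  | nil => rfl
  | cons e l ih =>
    change D.deg (Sum.inl e :: D.edges l) = 0
    rw [deg, ih]

theorem exists_edges {l : List D.X} (h : D.deg l = 0) : ∃ l', l = D.edges l' := by
  induction l with
  | nil => exact ⟨[], rfl⟩
  | cons x l ih =>
    rcases x with e | s
    · obtain ⟨l', rfl⟩ := ih h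
      exact ⟨e :: l', rfl⟩
    · simp [deg] at h

/-- The sign automorphism. -/
noncomputable def sg : (List D.X →₀ ℤ) →ₗ[ℤ] (List D.X →₀ ℤ) :=
  Finsupp.linearCombination ℤ fun l => Finsupp.single l ((-1 : ℤ) ^ D.deg l)

theorem chain_sg_single (l : List D.X) (n : ℤ) :
    D.sg (Finsupp.single l n) = (-1 : ℤ) ^ D.deg l • Finsupp.single l n := by
  rw [sg, Finsupp.linearCombination_single, Finsupp.smul_single, Finsupp.smul_single, smul_eq_mul,
    smul_eq_mul, mul_comm]

theorem chain_ck_induction {k : ℕ} {p q : V} {Q : (List D.X →₀ ℤ) → Prop} {x : List D.X →₀ ℤ}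
    (hx : x ∈ D.Ck k p q) (h0 : Q 0) (hadd : ∀ x y, Q x → Q y → Q (x + y))
    (hs : ∀ l n, D.CPath p l q → D.deg l = k → Q (Finsupp.single l n)) : Q x := by
  rw [← Finsupp.sum_single x, Finsupp.sum]
  refine Finset.sum_induction _ Q hadd h0 ?_
  intro l hl
  have h1 : (l : List D.X) ∈ {l | D.CPath p l q ∧ D.deg l = k} := hx hl
  exact hs l _ h1.1 h1.2

theorem sg_of_mem {k : ℕ} {p q : V} {x : List D.X →₀ ℤ} (hx : x ∈ D.Ck k p q) :
    D.sg x = (-1 : ℤ) ^ k • x := by
  refine D.chain_ck_induction (Q := fun x => D.sg x = (-1 : ℤ) ^ k • x) hx (by simp) (fun x y h1 h2 => ?_) (fun l n _ h2 => ?_)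
  · rw [map_add, h1, h2, smul_add]
  · rw [chain_sg_single, h2]

theorem chain_bd_single (l : List D.X) (n : ℤ) : D.bd (Finsupp.single l n) = n • D.bdW l := by
  rw [bd, Finsupp.linearCombination_single]

theorem chain_bdW_append (l l' : List D.X) : D.bdW (l ++ l') =
    cat (D.bdW l) (Finsupp.single l' 1) + (-1 : ℤ) ^ D.deg l • cat (Finsupp.single l 1) (D.bdW l') := by
  induction l with
  | nil => simp only [List.nil_append, bdW, map_zero, LinearMap.zero_apply, zero_add, deg, pow_zero,
      one_smul, nil_cat]
  | cons x l ih =>
    rcases x with e | s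
    · simp only [List.cons_append, bdW, deg, ih, map_add, map_smul, cat_assoc]
      rw [← cat_assoc (Finsupp.single [Sum.inl e] 1) (Finsupp.single l 1), cat_single]
      simp only [List.cons_append, List.nil_append, mul_one]
    · simp only [List.cons_append, bdW, deg, ih, map_add, map_sub, LinearMap.sub_apply, map_smul,
        cat_assoc, cat_single, mul_one, List.append_assoc]
      rw [← cat_assoc (Finsupp.single [Sum.inr s] 1) (Finsupp.single l 1), cat_single]
      simp only [List.cons_append, List.nil_append, mul_one, pow_succ, mul_neg, neg_smul]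
      abel

/-- The Leibniz rule. -/
theorem bd_cat (x y : List D.X →₀ ℤ) :
    D.bd (cat x y) = cat (D.bd x) y + cat (D.sg x) (D.bd y) := by
  induction x using Finsupp.induction_linear with
  | zero => simp
  | add f g hf hg => simp only [map_add, LinearMap.add_apply, hf, hg]; abel
  | single a m =>
    induction y using Finsupp.induction_linear with
    | zero => simp
    | add f g hf hg => simp only [map_add, hf, hg]; abel
    | single b n =>
      rw [cat_single, chain_bd_single, chain_bdW_append, chain_bd_single, chain_bd_single,
        chain_sg_single]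
      have h1 : (Finsupp.single b n : List D.X →₀ ℤ) = n • Finsupp.single b 1 := by simp
      have h2 : (Finsupp.single a m : List D.X →₀ ℤ) = m • Finsupp.single a 1 := by simp
      rw [h1, h2]
      simp only [map_smul, LinearMap.smul_apply, smul_add, smul_smul]
      congr 2
      · rw [mul_comm]
      · ring

theorem chain_bdW_edges (l : List E) : D.bdW (D.edges l) = 0 := by
  induction l with
  | nil => rfl
  | cons e l ih =>
    change D.bdW (Sum.inl e :: D.edges l) = 0
    rw [bdW, ih, map_zero]

theorem bd_edges (l : List E) (n : ℤ) : D.bd (Finsupp.single (D.edges l) n) = 0 := by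
  rw [chain_bd_single, chain_bdW_edges, smul_zero]

theorem chain_bdW_cell (s : D.Cell2) : D.bdW [Sum.inr s] =
    Finsupp.single (D.edges s.top) 1 - Finsupp.single (D.edges (D.low s)) 1 := by
  simp [bdW]

theorem bd_cell (s : D.Cell2) : D.bd (Finsupp.single [Sum.inr s] 1) =
    Finsupp.single (D.edges s.top) 1 - Finsupp.single (D.edges (D.low s)) 1 := by
  rw [chain_bd_single, one_smul, chain_bdW_cell]

theorem chain_bd_bdW (l : List D.X) : D.bd (D.bdW l) = 0 := by
  induction l with
  | nil => simp [bdW]
  | cons x l ih =>
    rcases x with e | s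
    · rw [bdW, bd_cat, ih, map_zero, add_zero]
      have h := D.bd_edges [e] 1
      change D.bd (Finsupp.single [Sum.inl e] 1) = 0 at h
      rw [h, map_zero, LinearMap.zero_apply]
    · rw [bdW, map_sub, map_sub, bd_cat, ih, map_zero, add_zero, bd_cell, chain_bd_single,
        chain_bd_single, one_smul, one_smul, chain_bdW_append, chain_bdW_append, chain_bdW_edges,
        chain_bdW_edges, deg_edges, deg_edges]
      simp only [map_zero, LinearMap.zero_apply, zero_add, pow_zero, one_smul, map_sub,
        LinearMap.sub_apply]
      abel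

theorem bd_bd (x : List D.X →₀ ℤ) : D.bd (D.bd x) = 0 := by
  induction x using Finsupp.induction_linear with
  | zero => simp
  | add f g hf hg => simp only [map_add, hf, hg, add_zero]
  | single a m => rw [chain_bd_single, map_smul, chain_bd_bdW, smul_zero]

theorem single_mem {p q : V} {l : List D.X} (h : D.CPath p l q) (n : ℤ) :
    Finsupp.single l n ∈ D.Ck (D.deg l) p q :=
  Finsupp.single_mem_supported ℤ n ⟨h, rfl⟩

theorem chain_single_mem' {k : ℕ} {p q : V} {l : List D.X} (h : D.CPath p l q) (hk : D.deg l = k)
    (n : ℤ) : Finsupp.single l n ∈ D.Ck k p q :=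
  Finsupp.single_mem_supported ℤ n ⟨h, hk⟩

theorem cat_mem {k m : ℕ} {p q r : V} {x y : List D.X →₀ ℤ} (hx : x ∈ D.Ck k p q)
    (hy : y ∈ D.Ck m q r) : cat x y ∈ D.Ck (k + m) p r := by
  refine D.chain_ck_induction (Q := fun x => cat x y ∈ D.Ck (k + m) p r) hx (by simp) (fun x y h1 h2 => ?_) (fun l n h1 h2 => ?_)
  · rw [map_add, LinearMap.add_apply]
    exact add_mem h1 h2
  · refine D.chain_ck_induction (Q := fun y => cat (Finsupp.single l n) y ∈ D.Ck (k + m) p r) hy (by simp) (fun x y h1 h2 => ?_) (fun l' n' h3 h4 => ?_)
    · rw [map_add]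
      exact add_mem h1 h2
    · rw [cat_single]
      exact D.chain_single_mem' (D.cpath_append.2 ⟨q, h1, h3⟩) (by rw [deg_append, h2, h4]) _

theorem chain_bdW_mem {q : V} (l : List D.X) : ∀ (k : ℕ) (p : V), D.CPath p l q →
    D.deg l = k + 1 → D.bdW l ∈ D.Ck k p q := by
  induction l with
  | nil => intro k p _ h; simp [deg] at h
  | cons x l ih =>
    intro k p hp hk
    rcases x with e | s
    · have h1 := ih k (D.t e) hp.2 hk
      have h2 : Finsupp.single [Sum.inl e] (1 : ℤ) ∈ D.Ck 0 p (D.t e) :=
        D.chain_single_mem' (show D.CPath p [Sum.inl e] (D.t e) from ⟨hp.1, rfl⟩) rfl 1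
      have h3 := D.cat_mem h2 h1
      rw [zero_add] at h3
      exact h3
    · have hk' : D.deg l = k := by
        have : D.deg l + 1 = k + 1 := hk
        omega
      have hp1 : s.a = p := hp.1
      have hp2 : D.CPath s.b l q := hp.2
      rw [bdW]
      refine sub_mem (sub_mem ?_ ?_) ?_
      · apply D.chain_single_mem'
        · rw [cpath_append]
          refine ⟨s.b, ?_, hp2⟩
          rw [cpath_edges, ← hp1]
          exact s.path
        · rw [deg_append, deg_edges, zero_add, hk']
      · apply D.chain_single_mem'
        · rw [cpath_append]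
          refine ⟨s.b, ?_, hp2⟩
          rw [cpath_edges, ← hp1]
          exact D.low_path s
        · rw [deg_append, deg_edges, zero_add, hk']
      · rcases Nat.eq_zero_or_pos k with h0 | h0
        · subst h0
          obtain ⟨l', rfl⟩ := D.exists_edges hk'
          rw [chain_bdW_edges, map_zero]
          exact zero_mem _
        · obtain ⟨k', rfl⟩ := Nat.exists_eq_succ_of_ne_zero h0.ne'
          have h1 := ih k' s.b hp2 hk'
          have h2 : Finsupp.single [Sum.inr s] (1 : ℤ) ∈ D.Ck 1 p s.b :=
            D.chain_single_mem' (show D.CPath p [Sum.inr s] s.b from ⟨hp1, rfl⟩) rfl 1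
          have h3 := D.cat_mem h2 h1
          rw [add_comm 1 k'] at h3
          exact h3

theorem bd_mem {k : ℕ} {p q : V} {x : List D.X →₀ ℤ} (hx : x ∈ D.Ck (k + 1) p q) :
    D.bd x ∈ D.Ck k p q := by
  refine D.chain_ck_induction (Q := fun x => D.bd x ∈ D.Ck k p q) hx (by simp) (fun x y h1 h2 => ?_) (fun l n h1 h2 => ?_)
  · rw [map_add]
    exact add_mem h1 h2
  · rw [chain_bd_single]
    exact Submodule.smul_mem _ _ (D.chain_bdW_mem l k p h1 h2)

theorem bd_of_mem_zero {p q : V} {x : List D.X →₀ ℤ} (hx : x ∈ D.Ck 0 p q) : D.bd x = 0 := by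
  refine D.chain_ck_induction (Q := fun x => D.bd x = 0) hx (by simp) (fun x y h1 h2 => ?_) (fun l n h1 h2 => ?_)
  · rw [map_add, h1, h2, add_zero]
  · obtain ⟨l', rfl⟩ := D.exists_edges h2
    rw [bd_edges]

/-- The edges of a word, as a chain. -/
noncomputable def linE : (List D.X →₀ ℤ) →ₗ[ℤ] (E →₀ ℤ) :=
  Finsupp.linearCombination ℤ fun l : List D.X => sumE (l.filterMap Sum.getLeft?)

theorem chain_filterMap_edges (l : List E) : (D.edges l).filterMap Sum.getLeft? = l := by
  induction l with
  | nil => rfl
  | cons e l ih =>
    change List.filterMap Sum.getLeft? (Sum.inl e :: D.edges l) = e :: l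
    rw [List.filterMap_cons, ih]
    rfl

theorem chain_linE_single (l : List D.X) (n : ℤ) :
    D.linE (Finsupp.single l n) = n • sumE (l.filterMap Sum.getLeft?) := by
  rw [linE, Finsupp.linearCombination_single]

theorem linE_edges (l : List E) : D.linE (Finsupp.single (D.edges l) 1) = sumE l := by
  rw [chain_linE_single, chain_filterMap_edges, one_smul]

theorem chain_lin_single (l : List D.X) (n : ℤ) :
    D.lin (Finsupp.single l n) = n • D.linW l := by
  rw [lin, Finsupp.linearCombination_single]

theorem chain_linW_append (l l' : List D.X) : D.linW (l ++ l') = D.linW l + D.linW l' := by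
  induction l with
  | nil => simp [linW]
  | cons x l ih =>
    rcases x with e | s
    · simp only [List.cons_append, linW, ih]
    · simp only [List.cons_append, linW, ih, add_assoc]

theorem chain_linW_edges (l : List E) : D.linW (D.edges l) = 0 := by
  induction l with
  | nil => rfl
  | cons e l ih => exact ih

theorem lin_cat_edges (l l' : List E) (x : List D.X →₀ ℤ) :
    D.lin (cat (Finsupp.single (D.edges l) 1) (cat x (Finsupp.single (D.edges l') 1))) =
      D.lin x := by
  induction x using Finsupp.induction_linear with
  | zero => simp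
  | add f g hf hg => simp only [map_add, LinearMap.add_apply, hf, hg]
  | single a m =>
    rw [cat_single, cat_single, chain_lin_single, chain_linW_append, chain_linW_append,
      chain_linW_edges, chain_linW_edges, chain_lin_single, zero_add, add_zero, one_mul, mul_one]

theorem sumE_append (l l' : List E) : sumE (l ++ l') = sumE l + sumE l' := by
  simp [sumE]

theorem chain_sumE_cons (e : E) (l : List E) : sumE (e :: l) = Finsupp.single e 1 + sumE l := by
  simp [sumE]

theorem bd1_sumE {p q : V} {l : List E} (h : D.Path p l q) :
    bd1 D.i D.t (sumE l) = Finsupp.single q (1 : ℤ) - Finsupp.single p (1 : ℤ) := by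
  induction l generalizing p with
  | nil =>
    have h1 : p = q := h
    subst h1
    simp [sumE]
  | cons e l ih =>
    have h1 : D.i e = p := h.1
    rw [chain_sumE_cons, map_add, ih h.2, bd1, Finsupp.linearCombination_single, one_smul, h1]
    abel

/-- The sum of the coefficients. -/
noncomputable def chainAug : (List D.X →₀ ℤ) →ₗ[ℤ] ℤ := Finsupp.linearCombination ℤ fun _ => (1 : ℤ)

theorem chain_aug_single (l : List D.X) (n : ℤ) : D.chainAug (Finsupp.single l n) = n := by
  rw [chainAug, Finsupp.linearCombination_single, smul_eq_mul, mul_one]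

theorem chain_aug_cat (l : List D.X) (x : List D.X →₀ ℤ) :
    D.chainAug (cat (Finsupp.single l 1) x) = D.chainAug x := by
  induction x using Finsupp.induction_linear with
  | zero => simp
  | add f g hf hg => simp only [map_add, hf, hg]
  | single a m => rw [cat_single, chain_aug_single, chain_aug_single, one_mul]

theorem chain_aug_bdW (l : List D.X) : D.chainAug (D.bdW l) = 0 := by
  induction l with
  | nil => simp [bdW]
  | cons x l ih =>
    rcases x with e | s
    · rw [bdW, chain_aug_cat, ih]
    · rw [bdW, map_sub, map_sub, chain_aug_cat, ih, chain_aug_single, chain_aug_single]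
      simp

theorem chain_linE_cat (e : E) (x : List D.X →₀ ℤ) :
    D.linE (cat (Finsupp.single [Sum.inl e] 1) x) =
      D.chainAug x • Finsupp.single e 1 + D.linE x := by
  induction x using Finsupp.induction_linear with
  | zero => simp
  | add f g hf hg => simp only [map_add, hf, hg, add_smul]; abel
  | single a m =>
    rw [cat_single, chain_aug_single, chain_linE_single, chain_linE_single, one_mul]
    have : List.filterMap Sum.getLeft? ([Sum.inl e] ++ a) = e :: List.filterMap Sum.getLeft? a := by
      rw [List.singleton_append, List.filterMap_cons]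
      rfl
    rw [this, chain_sumE_cons, smul_add]

theorem chain_bd2_linW (l : List D.X) (h : D.deg l = 1) :
    bd2 D.dF (D.linW l) = D.linE (D.bdW l) := by
  induction l with
  | nil => simp [deg] at h
  | cons x l ih =>
    rcases x with e | s
    · rw [linW, bdW, chain_linE_cat, chain_aug_bdW, zero_smul, zero_add]
      exact ih h
    · have h' : D.deg l = 0 := by
        have : D.deg l + 1 = 1 := h
        omega
      obtain ⟨l', rfl⟩ := D.exists_edges h'
      rw [linW, bdW, chain_linW_edges, add_zero, chain_bdW_edges, map_zero, sub_zero, map_sub, bd2,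
        Finsupp.linearCombination_single, one_smul, dF]
      have h1 : ∀ l₁ : List E, D.edges l₁ ++ D.edges l' = D.edges (l₁ ++ l') := fun l₁ =>
        List.map_append.symm
      rw [h1, h1, linE_edges, linE_edges, sumE_append, sumE_append]
      abel

/-- Linearisation is compatible with the boundary in degree 1. -/
theorem bd2_lin {p q : V} {x : List D.X →₀ ℤ} (hx : x ∈ D.Ck 1 p q) :
    bd2 D.dF (D.lin x) = D.linE (D.bd x) := by
  refine D.chain_ck_induction (Q := fun x => bd2 D.dF (D.lin x) = D.linE (D.bd x)) hx (by simp) (fun x y h1 h2 => ?_) (fun l n h1 h2 => ?_)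
  · rw [map_add, map_add, map_add, map_add, h1, h2]
  · rw [chain_bd_single, chain_lin_single, map_smul, map_smul, chain_bd2_linW _ _ h2]

theorem chain_lin_cat_inl (e : E) (x : List D.X →₀ ℤ) :
    D.lin (cat (Finsupp.single [Sum.inl e] 1) x) = D.lin x := by
  induction x using Finsupp.induction_linear with
  | zero => simp
  | add f g hf hg => simp only [map_add, hf, hg]
  | single a m =>
    rw [cat_single, one_mul, chain_lin_single, chain_lin_single]
    rfl

theorem chain_lin_cat_inr (s : D.Cell2) (x : List D.X →₀ ℤ) :
    D.lin (cat (Finsupp.single [Sum.inr s] 1) x) =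
      D.chainAug x • Finsupp.single s 1 + D.lin x := by
  induction x using Finsupp.induction_linear with
  | zero => simp
  | add f g hf hg => simp only [map_add, hf, hg, add_smul]; abel
  | single a m =>
    rw [cat_single, one_mul, chain_lin_single, chain_lin_single, chain_aug_single, ← smul_add]
    rfl

theorem chain_lin_bdW (l : List D.X) : D.lin (D.bdW l) = 0 := by
  induction l with
  | nil => simp [bdW]
  | cons x l ih =>
    rcases x with e | s
    · rw [bdW, chain_lin_cat_inl, ih]
    · rw [bdW, map_sub, map_sub, chain_lin_cat_inr, ih, chain_aug_bdW, chain_lin_single,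
        chain_lin_single, chain_linW_append, chain_linW_append, chain_linW_edges,
        chain_linW_edges]
      simp

/-- The linearisation of the boundary of a chain of degree 2 vanishes. -/
theorem lin_bd {p q : V} {x : List D.X →₀ ℤ} (hx : x ∈ D.Ck 2 p q) : D.lin (D.bd x) = 0 := by
  refine D.chain_ck_induction (Q := fun x => D.lin (D.bd x) = 0) hx (by simp) (fun x y h1 h2 => ?_) (fun l n h1 h2 => ?_)
  · rw [map_add, map_add, h1, h2, add_zero]
  · rw [chain_bd_single, map_smul, chain_lin_bdW, smul_zero]

theorem chain_cpath_le [PartialOrder V] (hD : D.Ordered) {p q : V} {l : List D.X}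
    (h : D.CPath p l q) : p ≤ q := by
  induction l generalizing p with
  | nil => exact le_of_eq h
  | cons x l ih =>
    have h2 := ih h.2
    have h1 : D.xi x = p := h.1
    rw [← h1]
    refine le_trans ?_ h2
    rcases x with e | s
    · exact (hD.lt e).le
    · exact (hD.le_iff _ _).2 ⟨s.top, s.path⟩

theorem chain_linW_mem [PartialOrder V] (hD : D.Ordered) {p q : V} {l : List D.X}
    (h : D.CPath p l q) : D.linW l ∈ Finsupp.supported ℤ ℤ {s : D.Cell2 | p ≤ s.a ∧ s.b ≤ q} := by
  induction l generalizing p with
  | nil => exact zero_mem _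
  | cons x l ih =>
    have h1 : D.xi x = p := h.1
    have h3 : p ≤ D.xt x := by
      rw [← h1]
      rcases x with e | s
      · exact (hD.lt e).le
      · exact (hD.le_iff _ _).2 ⟨s.top, s.path⟩
    have h2 := ih h.2
    have h4 : D.linW l ∈ Finsupp.supported ℤ ℤ {s : D.Cell2 | p ≤ s.a ∧ s.b ≤ q} := by
      refine Finsupp.supported_mono ?_ h2
      rintro s ⟨h5, h6⟩
      exact ⟨h3.trans h5, h6⟩
    rcases x with e | s
    · exact h4
    · refine add_mem (Finsupp.single_mem_supported ℤ 1 ⟨?_, ?_⟩) h4
      · exact le_of_eq h1.symm
      · exact D.chain_cpath_le hD h.2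

theorem lin_mem [PartialOrder V] (hD : D.Ordered) {k : ℕ} {p q : V} {x : List D.X →₀ ℤ}
    (hx : x ∈ D.Ck k p q) : D.lin x ∈ Finsupp.supported ℤ ℤ {s : D.Cell2 | p ≤ s.a ∧ s.b ≤ q} := by
  refine D.chain_ck_induction
    (Q := fun x => D.lin x ∈ Finsupp.supported ℤ ℤ {s : D.Cell2 | p ≤ s.a ∧ s.b ≤ q}) hx (by simp) (fun x y h1 h2 => ?_) (fun l n h1 h2 => ?_)
  · rw [map_add]
    exact add_mem h1 h2
  · rw [chain_lin_single]
    exact Submodule.smul_mem _ _ (D.chain_linW_mem hD h1)

section action

variable {G : Type z} [Group G] [MulAction G V] [MulAction G E] [GAct G D]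

theorem low_smul (g : G) (s : D.Cell2) : D.low (g • s) = (D.low s).map (g • ·) :=
  GAct.flip_smul g s.j true s.a s.top s.b s.path (by rw [s.lab, Pres.side_true])

theorem cpath_smul (g : G) {p q : V} {l : List D.X} (h : D.CPath p l q) :
    D.CPath (g • p) (D.gW g l) (g • q) := by
  induction l generalizing p with
  | nil => exact congrArg (g • ·) h
  | cons x l ih =>
    have h1 : D.xi x = p := h.1
    have h2 := ih h.2
    refine ⟨?_, ?_⟩
    · rw [← h1]
      rcases x with e | s
      · exact GAct.i_smul g e
      · rfl
    · have h3 : D.xt (Sum.map (g • ·) (g • ·) x) = g • D.xt x := by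
        rcases x with e | s
        · exact GAct.t_smul g e
        · rfl
      rw [h3]
      exact h2

theorem chain_deg_gW (g : G) (l : List D.X) : D.deg (D.gW g l) = D.deg l := by
  induction l with
  | nil => rfl
  | cons x l ih =>
    rcases x with e | s
    · exact ih
    · exact congrArg (· + 1) ih

theorem chain_gC_single (g : G) (l : List D.X) (n : ℤ) :
    D.gC g (Finsupp.single l n) = Finsupp.single (D.gW g l) n := by
  rw [gC, Finsupp.lmapDomain_apply, Finsupp.mapDomain_single]

theorem gC_mem (g : G) {k : ℕ} {p q : V} {x : List D.X →₀ ℤ} (hx : x ∈ D.Ck k p q) :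
    D.gC g x ∈ D.Ck k (g • p) (g • q) := by
  refine D.chain_ck_induction (Q := fun x => D.gC g x ∈ D.Ck k (g • p) (g • q)) hx (by simp) (fun x y h1 h2 => ?_) (fun l n h1 h2 => ?_)
  · rw [map_add]
    exact add_mem h1 h2
  · rw [chain_gC_single]
    exact D.chain_single_mem' (D.cpath_smul g h1) (by rw [chain_deg_gW, h2]) n

theorem chain_gW_append (g : G) (l l' : List D.X) :
    D.gW g (l ++ l') = D.gW g l ++ D.gW g l' := List.map_append

theorem gC_cat (g : G) (x y : List D.X →₀ ℤ) :
    D.gC g (cat x y) = cat (D.gC g x) (D.gC g y) := by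
  induction x using Finsupp.induction_linear with
  | zero => simp
  | add f g hf hg => simp only [map_add, LinearMap.add_apply, hf, hg]
  | single a m =>
    induction y using Finsupp.induction_linear with
    | zero => simp
    | add f g hf hg => simp only [map_add, hf, hg]
    | single b n =>
      rw [cat_single, chain_gC_single, chain_gC_single, chain_gC_single, cat_single,
        chain_gW_append]

theorem chain_gW_edges (g : G) (l : List E) : D.gW g (D.edges l) = D.edges (l.map (g • ·)) := by
  induction l with
  | nil => rfl
  | cons e l ih => exact congrArg (List.cons (Sum.inl (g • e))) ih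

theorem chain_gC_bdW (g : G) (l : List D.X) : D.gC g (D.bdW l) = D.bdW (D.gW g l) := by
  induction l with
  | nil =>
    change D.gC g 0 = 0
    rw [map_zero]
  | cons x l ih =>
    rcases x with e | s
    · change D.gC g (cat (Finsupp.single [Sum.inl e] 1) (D.bdW l)) =
        cat (Finsupp.single [Sum.inl (g • e)] 1) (D.bdW (D.gW g l))
      rw [gC_cat, ih, chain_gC_single]
      rfl
    · change D.gC g (Finsupp.single (D.edges s.top ++ l) 1 -
          Finsupp.single (D.edges (D.low s) ++ l) 1 - cat (Finsupp.single [Sum.inr s] 1) (D.bdW l)) =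
        Finsupp.single (D.edges (s.top.map (g • ·)) ++ D.gW g l) 1 -
          Finsupp.single (D.edges (D.low (g • s)) ++ D.gW g l) 1 -
          cat (Finsupp.single [Sum.inr (g • s)] 1) (D.bdW (D.gW g l))
      rw [map_sub, map_sub, gC_cat, ih, chain_gC_single, chain_gC_single, chain_gC_single,
        chain_gW_append, chain_gW_append, chain_gW_edges, chain_gW_edges, low_smul]
      rfl

theorem gC_bd (g : G) (x : List D.X →₀ ℤ) : D.gC g (D.bd x) = D.bd (D.gC g x) := by
  induction x using Finsupp.induction_linear with
  | zero => simp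
  | add f g hf hg => simp only [map_add, hf, hg]
  | single a m =>
    rw [chain_bd_single, chain_gC_single, chain_bd_single, map_smul, chain_gC_bdW]

theorem gC_one (x : List D.X →₀ ℤ) : D.gC (1 : G) x = x := by
  induction x using Finsupp.induction_linear with
  | zero => simp
  | add f g hf hg => rw [map_add, hf, hg]
  | single a m =>
    rw [chain_gC_single]
    congr 1
    induction a with
    | nil => rfl
    | cons x l ih =>
      change Sum.map ((1 : G) • ·) ((1 : G) • ·) x :: D.gW (1 : G) l = x :: l
      rw [ih]
      congr 1
      rcases x with e | s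
      · exact congrArg Sum.inl (one_smul G e)
      · exact congrArg Sum.inr (one_smul G s)

theorem gC_mul (g h : G) (x : List D.X →₀ ℤ) : D.gC (g * h) x = D.gC g (D.gC h x) := by
  induction x using Finsupp.induction_linear with
  | zero => simp
  | add f g hf hg => simp only [map_add, hf, hg]
  | single a m =>
    rw [chain_gC_single, chain_gC_single, chain_gC_single]
    congr 1
    induction a with
    | nil => rfl
    | cons x l ih =>
      change Sum.map ((g * h) • ·) ((g * h) • ·) x :: D.gW (g * h) l =
        Sum.map (g • ·) (g • ·) (Sum.map (h • ·) (h • ·) x) :: D.gW g (D.gW h l)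
      rw [ih]
      congr 1
      rcases x with e | s
      · exact congrArg Sum.inl (mul_smul g h e)
      · exact congrArg Sum.inr (mul_smul g h s)

theorem chain_linW_gW (g : G) (l : List D.X) : D.linW (D.gW g l) = sm g (D.linW l) := by
  induction l with
  | nil =>
    change (0 : D.Cell2 →₀ ℤ) = sm g 0
    rw [map_zero]
  | cons x l ih =>
    rcases x with e | s
    · exact ih
    · change Finsupp.single (g • s) 1 + D.linW (D.gW g l) = sm g (Finsupp.single s 1 + D.linW l)
      rw [map_add, sm_single, ih]

theorem lin_gC (g : G) (x : List D.X →₀ ℤ) : D.lin (D.gC g x) = sm g (D.lin x) := by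
  induction x using Finsupp.induction_linear with
  | zero => simp
  | add f g hf hg => simp only [map_add, hf, hg]
  | single a m =>
    rw [chain_gC_single, chain_lin_single, chain_lin_single, map_smul, chain_linW_gW]

theorem chain_sumE_smul (g : G) (l : List E) : sumE (l.map (g • ·)) = sm g (sumE l) := by
  induction l with
  | nil => simp [sumE]
  | cons e l ih =>
    rw [List.map_cons, chain_sumE_cons, chain_sumE_cons, map_add, sm_single, ih]

theorem dF_smul (g : G) (s : D.Cell2) : D.dF (g • s) = sm g (D.dF s) := by
  rw [dF, dF, low_smul, map_sub, chain_sumE_smul]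
  congr 1
  exact chain_sumE_smul g s.top

end action

end Dcx

end Pool.Agent.DG
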