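import Pool.Agent.MP_cff99f_al.Gen.Mark

/-!
Block ChainF: a chain map between directed complexes over a monotone equivariant map of vertices.
-/

namespace Pool.Agent.DG

universe w u₁ u₂ u₃ v₁ v₂ v₃

theorem chainF_lift_sm {G : Type w} [Group G] {X : Type u₁} {Y : Type u₂} [MulAction G X]
    [MulAction G Y] (c : X → (Y →₀ ℤ)) (hc : ∀ (g : G) x, c (g • x) = sm g (c x)) (g : G)
    (z : X →₀ ℤ) :
    Finsupp.linearCombination ℤ c (sm g z) = sm g (Finsupp.linearCombination ℤ c z) := by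
  induction z using Finsupp.induction_linear with
  | zero => simp
  | add f g hf hg => rw [map_add, map_add, hf, hg, map_add, map_add]
  | single x n =>
    rw [sm_single, Finsupp.linearCombination_single, Finsupp.linearCombination_single, hc,
      LinearMap.map_smul]

/-- Let `φ` be a monotone equivariant map from the vertices of `U` to the vertices of `T`,
compatible with `L` and `R`. It extends to an equivariant chain map, by
`exists_equivariant_choice` on edges (exactness `exact0`) and on 2-cells (`exact1`); the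
stabiliser `L (i e) R (t e)` of an edge `e` fixes all chains of the interval
`[φ (i e), φ (t e)]`. -/
theorem exists_chain_map {G : Type w} [Group G]
    {V : Type u₁} {E : Type u₂} {F : Type u₃} [PartialOrder V]
    [MulAction G V] [MulAction G E] [MulAction G F] (T : GDC G V E F)
    {V' : Type v₁} {E' : Type v₂} {F' : Type v₃} [PartialOrder V']
    [MulAction G V'] [MulAction G E'] [MulAction G F'] (U : GDC G V' E' F')
    (φ : V' → V) (hφ : Monotone φ) (hφs : ∀ (g : G) p, φ (g • p) = g • φ p)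
    (hL : ∀ p, U.L p = T.L (φ p)) (hR : ∀ p, U.R p = T.R (φ p)) :
    ∃ (f1 : (E' →₀ ℤ) →ₗ[ℤ] (E →₀ ℤ)) (f2 : (F' →₀ ℤ) →ₗ[ℤ] (F →₀ ℤ)),
      (∀ (g : G) z, f1 (sm g z) = sm g (f1 z)) ∧ (∀ (g : G) z, f2 (sm g z) = sm g (f2 z)) ∧
      (∀ e, f1 (Finsupp.single e 1) ∈ T.C1 (φ (U.i e)) (φ (U.t e))) ∧
      (∀ s, f2 (Finsupp.single s 1) ∈ T.C2 (φ (U.a s)) (φ (U.b s))) ∧
      (∀ z, T.d1 (f1 z) = (U.d1 z).mapDomain φ) ∧ (∀ z, T.d2 (f2 z) = f1 (U.d2 z)) := by
  -- edges
  obtain ⟨c1, hc1, hc1s⟩ := exists_equivariant_choice (G := G) (X := E') (M := E →₀ ℤ)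
    (fun g z => sm g z) (fun z => sm_one z) (fun g h z => sm_mul g h z)
    (fun e => {z | z ∈ T.C1 (φ (U.i e)) (φ (U.t e)) ∧
      T.d1 z = Finsupp.single (φ (U.t e)) (1 : ℤ) - Finsupp.single (φ (U.i e)) (1 : ℤ)})
    (by
      intro e
      obtain ⟨z, hz, hz2⟩ := T.ex0 (φ (U.i e)) (φ (U.t e)) (hφ (le_of_lt (U.it e)))
      exact ⟨z, hz, hz2⟩)
    (by
      rintro g e z ⟨hz, hz2⟩
      refine ⟨?_, ?_⟩
      · rw [U.i_smul, U.t_smul, hφs, hφs]
        exact T.sm_mem_C1 g hz
      · rw [T.d1_sm, hz2, map_sub, sm_single, sm_single, U.i_smul, U.t_smul, hφs, hφs])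
    (by
      rintro g e z ⟨hz, -⟩ hg
      obtain ⟨x, hx, y, hy, rfl⟩ := (U.stabE e g).1 hg
      rw [hL] at hx
      rw [hR] at hy
      rw [sm_mul, T.sm_C1_of_R hy hz, T.sm_C1_of_L hx hz])
  set f1 : (E' →₀ ℤ) →ₗ[ℤ] (E →₀ ℤ) := Finsupp.linearCombination ℤ c1 with hf1
  have hf1s : ∀ (g : G) z, f1 (sm g z) = sm g (f1 z) := fun g z => chainF_lift_sm c1 hc1s g z
  have hf1c : ∀ e, f1 (Finsupp.single e 1) = c1 e := by
    intro e
    rw [hf1, Finsupp.linearCombination_single, one_smul]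
  have hd1 : ∀ z, T.d1 (f1 z) = (U.d1 z).mapDomain φ := by
    intro z
    induction z using Finsupp.induction_linear with
    | zero => simp
    | add f g hf hg => rw [map_add, map_add, hf, hg, map_add, Finsupp.mapDomain_add]
    | single e n =>
      have e1 : (Finsupp.single e n : E' →₀ ℤ) = n • Finsupp.single e 1 := by simp
      rw [e1, LinearMap.map_smul, LinearMap.map_smul, LinearMap.map_smul, hf1c, (hc1 e).2,
        Finsupp.mapDomain_smul]
      congr 1
      rw [GDC.d1, bd1, Finsupp.linearCombination_single, one_smul, Finsupp.mapDomain_sub]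
      simp
  -- 2-cells
  have hmem : ∀ s, f1 (U.d s) ∈ T.C1 (φ (U.a s)) (φ (U.b s)) := by
    intro s
    rw [hf1, Finsupp.linearCombination_apply, Finsupp.sum]
    apply Submodule.sum_mem
    intro e he
    apply Submodule.smul_mem
    have h1 := U.d_supp s e (Finsupp.mem_support_iff.1 he)
    exact T.C1_mono (hφ h1.1) (hφ h1.2) (hc1 e).1
  obtain ⟨c2, hc2, hc2s⟩ := exists_equivariant_choice (G := G) (X := F') (M := F →₀ ℤ)
    (fun g z => sm g z) (fun z => sm_one z) (fun g h z => sm_mul g h z)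
    (fun s => {z | z ∈ T.C2 (φ (U.a s)) (φ (U.b s)) ∧ T.d2 z = f1 (U.d s)})
    (by
      intro s
      have h0 : T.d1 (f1 (U.d s)) = 0 := by
        rw [hd1]
        have : U.d1 (U.d s) = 0 := U.dd s
        rw [this, Finsupp.mapDomain_zero]
      obtain ⟨z, hz, hz2⟩ := T.exact1 (hφ (le_of_lt (U.ab s))) (hmem s) h0
      exact ⟨z, hz, hz2⟩)
    (by
      rintro g s z ⟨hz, hz2⟩
      refine ⟨?_, ?_⟩
      · rw [U.a_smul, U.b_smul, hφs, hφs]
        exact T.sm_mem_C2 g hz
      · rw [T.d2_sm, hz2, U.d_smul, hf1s])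
    (by
      rintro g s z ⟨hz, -⟩ hg
      obtain ⟨x, hx, y, hy, rfl⟩ := (U.stabF s g).1 hg
      rw [hL] at hx
      rw [hR] at hy
      rw [sm_mul, T.sm_C2_of_R hy hz, T.sm_C2_of_L hx hz])
  refine ⟨f1, Finsupp.linearCombination ℤ c2, hf1s, fun g z => chainF_lift_sm c2 hc2s g z,
    ?_, ?_, hd1, ?_⟩
  · intro e
    rw [hf1c]
    exact (hc1 e).1
  · intro s
    rw [Finsupp.linearCombination_single, one_smul]
    exact (hc2 s).1
  · intro z
    induction z using Finsupp.induction_linear with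
    | zero => simp
    | add f g hf hg => rw [map_add, map_add, hf, hg, map_add, map_add]
    | single s n =>
      rw [Finsupp.linearCombination_single, LinearMap.map_smul, (hc2 s).2]
      rw [GDC.d2, bd2, Finsupp.linearCombination_single, LinearMap.map_smul]

end Pool.Agent.DG
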