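import Pool.Agent.MP_cff99f_al.Gen.Mono
import Pool.Agent.MP_cff99f_al.Words

/-!
Block Combing: closed paths with finitely many types of edges generate a subgroup of a finitely
generated subgroup.
-/

namespace Pool.Agent.DG

universe u v

variable {α : Type u} {ι : Type v} {P : Pres α ι}

/-- The edge has a type in the set `S`. -/
def GoodE (P : Pres α ι) (S : Set (List α × ι × List α)) (s : SEdge α ι) : Prop :=
  ∃ t ∈ S, Cong P s.pre t.1 ∧ s.i = t.2.1 ∧ Cong P s.post t.2.2

namespace Combing

open Relation

theorem nil_iff {x y : List α} (h : Cong P x y) : x = [] ↔ y = [] := by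
  induction h with
  | rel x y h =>
    obtain ⟨a, i, b, rfl, rfl⟩ := h
    have h1 := P.lhs_ne i
    have h2 := P.rhs_ne i
    simp [h1, h2]
  | refl x => rfl
  | symm x y _ ih => exact ih.symm
  | trans x y z _ _ h1 h2 => exact h1.trans h2

theorem cong_edge (s : SEdge α ι) : Cong P (s.src P) (s.tgt P) := by
  obtain ⟨a, i, b, p⟩ := s
  cases p
  · exact EqvGen.symm _ _ (EqvGen.rel _ _ ⟨a, i, b, rfl, rfl⟩)
  · exact EqvGen.rel _ _ ⟨a, i, b, rfl, rfl⟩

theorem cong_of_isPath {x y : List α} {l : List (SEdge α ι)} (h : IsPath P x l y) :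
    Cong P x y := by
  induction l generalizing x with
  | nil => cases h; exact EqvGen.refl _
  | cons s l ih =>
    obtain ⟨rfl, h2⟩ := h
    exact EqvGen.trans _ _ _ (cong_edge s) (ih h2)

theorem csymm {x y : List α} (h : Cong P x y) : Cong P y x := EqvGen.symm _ _ h

theorem ctrans {x y z : List α} (h : Cong P x y) (h' : Cong P y z) : Cong P x z :=
  EqvGen.trans _ _ _ h h'

theorem crefl (x : List α) : Cong P x x := EqvGen.refl _

theorem exists_path {x y : List α} (h : Cong P x y) : ∃ l, IsPath P x l y := by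
  induction h with
  | rel x y h =>
    obtain ⟨a, i, b, rfl, rfl⟩ := h
    exact ⟨[⟨a, i, b, true⟩], rfl, rfl⟩
  | refl x => exact ⟨[], rfl⟩
  | symm x y _ ih =>
    obtain ⟨l, hl⟩ := ih
    exact ⟨_, isPath_reverse P hl⟩
  | trans x y z _ _ h1 h2 =>
    obtain ⟨l, hl⟩ := h1
    obtain ⟨l', hl'⟩ := h2
    exact ⟨l ++ l', isPath_append P hl hl'⟩

open Classical in
/-- A chosen path between two words. -/
noncomputable def pth (P : Pres α ι) (x y : List α) : List (SEdge α ι) :=
  if h : ∃ l, IsPath P x l y then h.choose else []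

theorem isPath_pth {x y : List α} (h : Cong P x y) : IsPath P x (pth P x y) y := by
  have := exists_path h
  unfold pth
  rw [dif_pos this]
  exact this.choose_spec

theorem isPath_invL {x y : List α} {l : List (SEdge α ι)} (h : IsPath P x l y) :
    IsPath P y (invL l) x := isPath_reverse P h

theorem whL_append (a b : List α) (l l' : List (SEdge α ι)) :
    whL a b (l ++ l') = whL a b l ++ whL a b l' := List.map_append

theorem isPath_whL' (a b : List α) {x y x' y' : List α} {l : List (SEdge α ι)}
    (h : IsPath P x l y) (hx : a ++ x ++ b = x') (hy : a ++ y ++ b = y') :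
    IsPath P x' (whL a b l) y' := by
  subst hx hy
  exact isPath_whL a b h

open Classical in
/-- The chosen representatives of the congruence classes. -/
noncomputable def nrm (P : Pres α ι) (c x : List α) : List α :=
  if Cong P x c then c else if x = [] then [] else
    (Quotient.mk (EqvGen.setoid (Step P)) x).out

theorem cong_nrm (c x : List α) : Cong P x (nrm P c x) := by
  unfold nrm
  split_ifs with h1 h2
  · exact h1
  · rw [h2]; exact EqvGen.refl _
  · exact EqvGen.symm _ _ (Quotient.exact
      (Quotient.out_eq (Quotient.mk (EqvGen.setoid (Step P)) x)))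

theorem nrm_eq (c : List α) {x y : List α} (h : Cong P x y) : nrm P c x = nrm P c y := by
  by_cases h1 : Cong P x c
  · have h2 : Cong P y c := EqvGen.trans _ _ _ (EqvGen.symm _ _ h) h1
    simp [nrm, h1, h2]
  · have h2 : ¬ Cong P y c := fun h2 => h1 (EqvGen.trans _ _ _ h h2)
    by_cases h3 : x = []
    · have h4 : y = [] := (nil_iff h).1 h3
      rw [h3, h4]
    · have h4 : ¬ y = [] := fun h4 => h3 ((nil_iff h).2 h4)
      have h5 : Quotient.mk (EqvGen.setoid (Step P)) x = Quotient.mk (EqvGen.setoid (Step P)) y :=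
        Quotient.sound h
      simp [nrm, h1, h2, h3, h4, h5]

theorem nrm_self (c : List α) : nrm P c c = c := by
  unfold nrm
  rw [if_pos (crefl c)]

theorem nrm_of (c : List α) {x : List α} (h : Cong P x c) : nrm P c x = c := by
  rw [nrm_eq c h, nrm_self]

theorem nrm_nil (c : List α) : nrm P c [] = [] := by
  unfold nrm
  split_ifs with h1 h2
  · exact (nil_iff h1).1 rfl
  · rfl
  · exact absurd rfl h2

theorem nrm_nrm (c x : List α) : nrm P c (nrm P c x) = nrm P c x :=
  (nrm_eq c (cong_nrm c x)).symm

theorem nrm_left (c x y : List α) : nrm P c (nrm P c x ++ y) = nrm P c (x ++ y) :=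
  (nrm_eq c (cong_append_left (cong_nrm c x) y)).symm

theorem nrm_right (c x y : List α) : nrm P c (x ++ nrm P c y) = nrm P c (x ++ y) :=
  (nrm_eq c (cong_append_right (cong_nrm c y) x)).symm

theorem nrm_cons (c : List α) (x : α) (y : List α) :
    nrm P c (x :: nrm P c y) = nrm P c (x :: y) := nrm_right c [x] y

/-- The combing path of `u B`. -/
noncomputable def kap (P : Pres α ι) (c : List α) : List α → List α → List (SEdge α ι)
  | _, [] => []
  | u, x :: B => whL [] B (pth P (u ++ [x]) (nrm P c (u ++ [x]))) ++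
      kap P c (nrm P c (u ++ [x])) B

/-- The combing path of `B` from the right. -/
noncomputable def lam (P : Pres α ι) (c : List α) : List α → List (SEdge α ι)
  | [] => []
  | x :: B => whL [x] [] (lam P c B) ++ pth P (x :: nrm P c B) (nrm P c (x :: nrm P c B))

theorem kap_nil (c u : List α) : kap P c u [] = [] := rfl

theorem kap_cons (c u : List α) (x : α) (B : List α) :
    kap P c u (x :: B) = whL [] B (pth P (u ++ [x]) (nrm P c (u ++ [x]))) ++
      kap P c (nrm P c (u ++ [x])) B := rfl

theorem lam_cons (c : List α) (x : α) (B : List α) : lam P c (x :: B) =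
    whL [x] [] (lam P c B) ++ pth P (x :: nrm P c B) (nrm P c (x :: nrm P c B)) := rfl

theorem isPath_kap (c : List α) : ∀ (B u : List α), nrm P c u = u →
    IsPath P (u ++ B) (kap P c u B) (nrm P c (u ++ B)) := by
  intro B
  induction B with
  | nil =>
    intro u hu
    simp [kap, IsPath, hu]
  | cons x B ih =>
    intro u hu
    rw [kap_cons]
    refine isPath_append P (isPath_whL' [] B (isPath_pth (cong_nrm c (u ++ [x])))
      (y' := nrm P c (u ++ [x]) ++ B) (by simp) (by simp)) ?_
    have := ih (nrm P c (u ++ [x])) (nrm_nrm c _)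
    rw [nrm_left] at this
    simpa using this

theorem isPath_lam (c : List α) : ∀ B : List α, IsPath P B (lam P c B) (nrm P c B) := by
  intro B
  induction B with
  | nil => simp [lam, IsPath, nrm_nil]
  | cons x B ih =>
    rw [lam_cons]
    refine isPath_append P (isPath_whL' [x] [] ih (y' := x :: nrm P c B) (by simp) (by simp)) ?_
    have := isPath_pth (P := P) (cong_nrm c (x :: nrm P c B))
    rw [nrm_cons] at this ⊢
    exact this

theorem kap_append (c : List α) : ∀ (A C u : List α), nrm P c u = u →
    kap P c u (A ++ C) = whL [] C (kap P c u A) ++ kap P c (nrm P c (u ++ A)) C := by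
  intro A
  induction A with
  | nil =>
    intro C u hu
    simp [kap, hu, whL]
  | cons x A ih =>
    intro C u hu
    rw [List.cons_append, kap_cons, kap_cons, ih C _ (nrm_nrm c _), whL_append, whL_whL,
      nrm_left]
    simp

/-- The end of a path. -/
def endp (P : Pres α ι) (x : List α) (l : List (SEdge α ι)) : List α :=
  l.foldl (fun _ s => s.tgt P) x

theorem endp_eq {x y : List α} {l : List (SEdge α ι)} (h : IsPath P x l y) : endp P x l = y := by
  induction l generalizing x with
  | nil => exact h
  | cons s l ih => exact ih h.2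

open Classical in
/-- The element of the diagram group given by a closed path at `c`. -/
noncomputable def gm (P : Pres α ι) (c : List α) (l : List (SEdge α ι)) : DiagramGroup P c :=
  if h : IsPath P c l c then Hpt.mk P l h else 1

theorem gm_eq {c : List α} {l : List (SEdge α ι)} (h : IsPath P c l c) :
    gm P c l = Hpt.mk P l h := dif_pos h

theorem gm_congr {c : List α} {l l' : List (SEdge α ι)} (h : Htp P c l l' c) :
    gm P c l = gm P c l' := by
  obtain ⟨h1, h2, e⟩ := h
  rw [gm_eq h1, gm_eq h2, e]

theorem gm_append {c : List α} {l l' : List (SEdge α ι)} (h : IsPath P c l c)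
    (h' : IsPath P c l' c) : gm P c (l ++ l') = gm P c l * gm P c l' := by
  rw [gm_eq h, gm_eq h', gm_eq (isPath_append P h h')]
  rfl

theorem gm_invL {c : List α} {l : List (SEdge α ι)} (h : IsPath P c l c) :
    gm P c (invL l) = (gm P c l)⁻¹ := by
  rw [gm_eq h, gm_eq (isPath_invL h)]
  rfl

theorem gm_nil (c : List α) : gm P c [] = 1 := by
  rw [gm_eq (show IsPath P c [] c from rfl)]
  rfl

/-- The element of the diagram group given by a path, using the chosen paths to `c`. -/
noncomputable def phi (P : Pres α ι) (c x : List α) (l : List (SEdge α ι)) : DiagramGroup P c :=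
  gm P c (invL (pth P x c) ++ (l ++ pth P (endp P x l) c))

theorem phi_eq {c x y : List α} {l : List (SEdge α ι)} (h : IsPath P x l y) :
    phi P c x l = gm P c (invL (pth P x c) ++ (l ++ pth P y c)) := by
  rw [phi, endp_eq h]

theorem phi_congr {c x y : List α} {l l' : List (SEdge α ι)} (hx : Cong P x c)
    (h : Htp P x l l' y) : phi P c x l = phi P c x l' := by
  have h0 := h
  obtain ⟨h1, h2, _⟩ := h0
  rw [phi_eq h1, phi_eq h2]
  have hy : Cong P y c := EqvGen.trans _ _ _ (EqvGen.symm _ _ (cong_of_isPath h1)) hx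
  exact gm_congr (Htp.append (Htp.refl (isPath_invL (isPath_pth hx)))
    (Htp.append h (Htp.refl (isPath_pth hy))))

theorem phi_nil {c x : List α} (hx : Cong P x c) : phi P c x [] = 1 := by
  rw [phi_eq (show IsPath P x [] x from rfl), ← gm_nil c]
  exact gm_congr (Htp.cancel' (isPath_pth hx))

theorem phi_append {c x y z : List α} {l l' : List (SEdge α ι)} (hx : Cong P x c)
    (h : IsPath P x l y) (h' : IsPath P y l' z) :
    phi P c x (l ++ l') = phi P c x l * phi P c y l' := by
  have hy : Cong P y c := EqvGen.trans _ _ _ (EqvGen.symm _ _ (cong_of_isPath h)) hx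
  have hz : Cong P z c := EqvGen.trans _ _ _ (EqvGen.symm _ _ (cong_of_isPath h')) hy
  have qx := isPath_pth hx
  have qy := isPath_pth hy
  have qz := isPath_pth hz
  rw [phi_eq (isPath_append P h h'), phi_eq h, phi_eq h',
    ← gm_append (isPath_append P (isPath_invL qx) (isPath_append P h qy))
      (isPath_append P (isPath_invL qy) (isPath_append P h' qz))]
  refine gm_congr (Htp.symm ?_)
  have e1 : invL (pth P x c) ++ (l ++ pth P y c) ++ (invL (pth P y c) ++ (l' ++ pth P z c)) =
      invL (pth P x c) ++ (l ++ ((pth P y c ++ invL (pth P y c)) ++ (l' ++ pth P z c))) := by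
    simp
  have e2 : invL (pth P x c) ++ (l ++ l' ++ pth P z c) =
      invL (pth P x c) ++ (l ++ ([] ++ (l' ++ pth P z c))) := by simp
  rw [e1, e2]
  exact Htp.append (Htp.refl (isPath_invL qx)) (Htp.append (Htp.refl h)
    (Htp.append (Htp.cancel qy) (Htp.refl (isPath_append P h' qz))))

theorem phi_invL {c x y : List α} {l : List (SEdge α ι)} (hx : Cong P x c)
    (h : IsPath P x l y) : phi P c y (invL l) = (phi P c x l)⁻¹ := by
  refine eq_inv_of_mul_eq_one_right ?_
  rw [← phi_append hx h (isPath_invL h), phi_congr hx (Htp.cancel h), phi_nil hx]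

theorem gm_phi {c : List α} {l : List (SEdge α ι)} (h : IsPath P c l c) :
    gm P c l = gm P c (pth P c c) * phi P c c l * (gm P c (pth P c c))⁻¹ := by
  have q := isPath_pth (EqvGen.refl c : Cong P c c)
  rw [phi_eq h, gm_append (isPath_invL q) (isPath_append P h q), gm_append h q, gm_invL q]
  group

/-- `K u B`: the element given by the combing path of `u B`. -/
noncomputable def K (P : Pres α ι) (c u B : List α) : DiagramGroup P c :=
  phi P c (u ++ B) (kap P c u B)

/-- The elements given by the edges. -/
noncomputable def gel (P : Pres α ι) (c s : List α) (i : ι) (p : Bool) (B : List α) :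
    DiagramGroup P c :=
  (K P c s (P.side i p ++ B))⁻¹ * phi P c (s ++ (P.side i p ++ B)) [⟨s, i, B, p⟩] *
    K P c s (P.side i (!p) ++ B)

/-- The elements comparing the combings of `u B` and `u (nrm B)`. -/
noncomputable def theta (P : Pres α ι) (c u B : List α) : DiagramGroup P c :=
  (K P c u B)⁻¹ * phi P c (u ++ B) (whL u [] (lam P c B)) * K P c u (nrm P c B)

/-- The elements for single letters. -/
noncomputable def eta (P : Pres α ι) (c u : List α) (x : α) (b : List α) : DiagramGroup P c :=
  (K P c (nrm P c (u ++ [x])) b)⁻¹ *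
    (phi P c (u ++ x :: b) (whL [] b (pth P (u ++ [x]) (nrm P c (u ++ [x])))))⁻¹ *
    phi P c (u ++ x :: b) (whL u [] (pth P (x :: b) (nrm P c (x :: b)))) *
    K P c u (nrm P c (x :: b))

theorem K_nil {c u : List α} (hc : Cong P u c) : K P c u [] = 1 := by
  rw [K, kap_nil, phi_nil (by simpa using hc)]

theorem theta_nil {c u : List α} (hc : Cong P u c) : theta P c u [] = 1 := by
  rw [theta, K_nil hc, nrm_nil, K_nil hc]
  have : whL u [] (lam P c ([] : List α)) = [] := rfl
  rw [this, phi_nil (by simpa using hc)]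
  simp

theorem theta_cons {c u : List α} (x : α) (B : List α) (hu : nrm P c u = u)
    (hc : Cong P (u ++ x :: B) c) :
    theta P c u (x :: B) = theta P c (nrm P c (u ++ [x])) B * eta P c u x (nrm P c B) := by
  set u' := nrm P c (u ++ [x]) with hu'
  set al := pth P (u ++ [x]) u' with hal
  have hal' : IsPath P (u ++ [x]) al u' := isPath_pth (cong_nrm c _)
  have hlam := isPath_lam (P := P) c B
  have hu'n : nrm P c u' = u' := nrm_nrm c _
  have hc1 : Cong P (u' ++ B) c := by
    refine ctrans (csymm ?_) hc
    have := cong_append_left (cong_of_isPath hal') B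
    simpa using this
  have hc2 : Cong P (u ++ x :: nrm P c B) c := by
    refine ctrans (csymm ?_) hc
    have := cong_append_right (cong_nrm c B (P := P)) (u ++ [x])
    simpa using this
  set mu := pth P (x :: nrm P c B) (nrm P c (x :: nrm P c B)) with hmu
  have hmu' : IsPath P (x :: nrm P c B) mu (nrm P c (x :: nrm P c B)) :=
    isPath_pth (cong_nrm c _)
  -- the factors
  have e1 : K P c u (x :: B) = phi P c (u ++ x :: B) (whL [] B al) * K P c u' B := by
    rw [K, kap_cons]
    exact phi_append hc (isPath_whL' [] B hal' (by simp) (by simp)) (isPath_kap c B u' hu'n)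
  have e2 : phi P c (u ++ x :: B) (whL u [] (lam P c (x :: B))) =
      phi P c (u ++ x :: B) (whL (u ++ [x]) [] (lam P c B)) *
      phi P c (u ++ x :: nrm P c B) (whL u [] mu) := by
    rw [lam_cons, whL_append, whL_whL]
    exact phi_append hc (isPath_whL' _ _ hlam (by simp) (by simp))
      (isPath_whL' u [] hmu' (by simp) rfl)
  have e3 : phi P c (u ++ x :: B) (whL [] B al) * phi P c (u' ++ B) (whL u' [] (lam P c B)) =
      phi P c (u ++ x :: B) (whL (u ++ [x]) [] (lam P c B)) *
      phi P c (u ++ x :: nrm P c B) (whL [] (nrm P c B) al) := by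
    rw [← phi_append hc (isPath_whL' [] B hal' (by simp) (by simp))
        (isPath_whL' u' [] hlam (by simp) (y' := u' ++ nrm P c B) (by simp)),
      ← phi_append hc (isPath_whL' _ _ hlam (by simp) (by simp))
        (isPath_whL' [] _ hal' (by simp) (y' := u' ++ nrm P c B) (by simp))]
    refine phi_congr hc (y := u' ++ nrm P c B) ?_
    have := interchange hal' hlam
    simpa using this
  have e4 := nrm_cons (P := P) c x B
  rw [theta, e1, e2, theta, eta, ← hal, ← hu', ← hmu, e4]
  have e5 : phi P c (u' ++ B) (whL u' [] (lam P c B)) =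
      (phi P c (u ++ x :: B) (whL [] B al))⁻¹ *
      (phi P c (u ++ x :: B) (whL (u ++ [x]) [] (lam P c B)) *
      phi P c (u ++ x :: nrm P c B) (whL [] (nrm P c B) al)) := by
    rw [← e3]; group
  rw [e5]
  group

theorem cong_side (i : ι) (p : Bool) : Cong P (P.side i p) (P.side i (!p)) := by
  have := cong_edge (P := P) (⟨[], i, [], p⟩ : SEdge α ι)
  simpa [SEdge.src, SEdge.tgt] using this

theorem isPath_edge (a : List α) (i : ι) (p : Bool) (b : List α) :
    IsPath P (a ++ (P.side i p ++ b)) [⟨a, i, b, p⟩] (a ++ (P.side i (!p) ++ b)) := by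
  simp [IsPath, SEdge.src, SEdge.tgt]

theorem cong_mid (a b : List α) (i : ι) (p : Bool) :
    Cong P (a ++ (P.side i p ++ b)) (a ++ (P.side i (!p) ++ b)) :=
  cong_append_right (cong_append_left (cong_side i p) b) a

theorem gel_form {c s : List α} (i : ι) (p : Bool) (B : List α) (hs : nrm P c s = s)
    (hc : Cong P (s ++ (P.side i p ++ B)) c) :
    gel P c s i p B = (K P c (nrm P c (s ++ P.side i p)) B)⁻¹ *
      phi P c (nrm P c (s ++ P.side i p) ++ B) (whL [] B (invL (kap P c s (P.side i p)) ++
        ([⟨s, i, [], p⟩] ++ kap P c s (P.side i (!p))))) *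
      K P c (nrm P c (s ++ P.side i p)) B := by
  set t := nrm P c (s ++ P.side i p) with ht
  have ht' : nrm P c (s ++ P.side i (!p)) = t :=
    (nrm_eq c (cong_append_right (cong_side i p) s)).symm
  have htn : nrm P c t = t := nrm_nrm c _
  have k1 : IsPath P (s ++ P.side i p) (kap P c s (P.side i p)) t := isPath_kap c _ s hs
  have k2 : IsPath P (s ++ P.side i (!p)) (kap P c s (P.side i (!p))) t := by
    rw [← ht']; exact isPath_kap c _ s hs
  have kB := isPath_kap (P := P) c B t htn
  have hc' : Cong P (s ++ (P.side i (!p) ++ B)) c :=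
    ctrans (csymm (cong_mid s B i p)) hc
  have hct : Cong P (t ++ B) c := by
    refine ctrans (csymm ?_) hc
    have := cong_append_left (cong_of_isPath k1) B
    simpa using this
  have he : IsPath P (s ++ P.side i p) [⟨s, i, [], p⟩] (s ++ P.side i (!p)) := by
    simp [IsPath, SEdge.src, SEdge.tgt]
  have he' : whL [] B [(⟨s, i, [], p⟩ : SEdge α ι)] = [⟨s, i, B, p⟩] := by
    simp [whL, SEdge.wh]
  have e1 : K P c s (P.side i p ++ B) =
      phi P c (s ++ (P.side i p ++ B)) (whL [] B (kap P c s (P.side i p))) * K P c t B := by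
    rw [K, kap_append c _ _ _ hs]
    exact phi_append hc (isPath_whL' [] B k1 (by simp) (by simp)) kB
  have e2 : K P c s (P.side i (!p) ++ B) =
      phi P c (s ++ (P.side i (!p) ++ B)) (whL [] B (kap P c s (P.side i (!p)))) *
        K P c t B := by
    rw [K, kap_append c _ _ _ hs, ht']
    exact phi_append hc' (isPath_whL' [] B k2 (by simp) (by simp)) kB
  have e3 : phi P c (t ++ B) (whL [] B (invL (kap P c s (P.side i p)) ++
        ([⟨s, i, [], p⟩] ++ kap P c s (P.side i (!p))))) =
      (phi P c (s ++ (P.side i p ++ B)) (whL [] B (kap P c s (P.side i p))))⁻¹ *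
      (phi P c (s ++ (P.side i p ++ B)) [⟨s, i, B, p⟩] *
       phi P c (s ++ (P.side i (!p) ++ B)) (whL [] B (kap P c s (P.side i (!p))))) := by
    rw [whL_append, whL_append, he', ← invL_whL,
      phi_append hct (isPath_invL (isPath_whL' [] B k1 (x' := s ++ (P.side i p ++ B))
        (by simp) (by simp)))
        (isPath_append P (y := s ++ (P.side i (!p) ++ B))
          (by simp [IsPath, SEdge.src, SEdge.tgt])
          (isPath_whL' [] B k2 (y' := t ++ B) (by simp) (by simp))),
      phi_invL hc (isPath_whL' [] B k1 (by simp) (by simp)),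
      phi_append hc (y := s ++ (P.side i (!p) ++ B)) (by simp [IsPath, SEdge.src, SEdge.tgt])
          (isPath_whL' [] B k2 (y' := t ++ B) (by simp) (by simp))]
  rw [gel, e1, e2, e3]
  group

theorem gel_reduce {c s : List α} (i : ι) (p : Bool) (B : List α) (hs : nrm P c s = s)
    (hc : Cong P (s ++ (P.side i p ++ B)) c) :
    gel P c s i p B = theta P c (nrm P c (s ++ P.side i p)) B * gel P c s i p (nrm P c B) *
      (theta P c (nrm P c (s ++ P.side i p)) B)⁻¹ := by
  have hcn : Cong P (s ++ (P.side i p ++ nrm P c B)) c := by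
    refine ctrans (csymm ?_) hc
    exact cong_append_right (cong_append_right (cong_nrm c B) _) s
  rw [gel_form i p B hs hc, gel_form i p _ hs hcn, theta]
  set t := nrm P c (s ++ P.side i p) with ht
  have ht' : nrm P c (s ++ P.side i (!p)) = t :=
    (nrm_eq c (cong_append_right (cong_side i p) s)).symm
  have k1 : IsPath P (s ++ P.side i p) (kap P c s (P.side i p)) t := isPath_kap c _ s hs
  have k2 : IsPath P (s ++ P.side i (!p)) (kap P c s (P.side i (!p))) t := by
    rw [← ht']; exact isPath_kap c _ s hs
  have hct : Cong P (t ++ B) c := by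
    refine ctrans (csymm ?_) hc
    have := cong_append_left (cong_of_isPath k1) B
    simpa using this
  have hG : IsPath P t (invL (kap P c s (P.side i p)) ++
        ([⟨s, i, [], p⟩] ++ kap P c s (P.side i (!p)))) t := by
    refine isPath_append P (isPath_invL k1) (isPath_append P (y := s ++ P.side i (!p)) ?_ k2)
    simp [IsPath, SEdge.src, SEdge.tgt]
  set Gl := invL (kap P c s (P.side i p)) ++
        ([⟨s, i, [], p⟩] ++ kap P c s (P.side i (!p))) with hGl
  have hlam := isPath_lam (P := P) c B
  have e3 : phi P c (t ++ B) (whL [] B Gl) * phi P c (t ++ B) (whL t [] (lam P c B)) =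
      phi P c (t ++ B) (whL t [] (lam P c B)) *
      phi P c (t ++ nrm P c B) (whL [] (nrm P c B) Gl) := by
    rw [← phi_append hct (isPath_whL' [] B hG (by simp) (by simp))
        (isPath_whL' t [] hlam (by simp) (y' := t ++ nrm P c B) (by simp)),
      ← phi_append hct (isPath_whL' _ _ hlam (by simp) (by simp))
        (isPath_whL' [] _ hG (by simp) (y' := t ++ nrm P c B) (by simp))]
    refine phi_congr hct (y := t ++ nrm P c B) ?_
    have := interchange hG hlam
    simpa using this
  have e5 : phi P c (t ++ B) (whL [] B Gl) = phi P c (t ++ B) (whL t [] (lam P c B)) *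
      phi P c (t ++ nrm P c B) (whL [] (nrm P c B) Gl) *
      (phi P c (t ++ B) (whL t [] (lam P c B)))⁻¹ := by
    rw [← e3]; group
  rw [e5]
  group

theorem edge_eq {c : List α} (A : List α) (i : ι) (p : Bool) (B : List α)
    (hc : Cong P (A ++ (P.side i p ++ B)) c) :
    (K P c [] (A ++ (P.side i p ++ B)))⁻¹ * phi P c (A ++ (P.side i p ++ B)) [⟨A, i, B, p⟩] *
      K P c [] (A ++ (P.side i (!p) ++ B)) = gel P c (nrm P c A) i p B := by
  have kA : IsPath P A (kap P c [] A) (nrm P c A) := isPath_kap c A [] (nrm_nil c)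
  have hc' : Cong P (A ++ (P.side i (!p) ++ B)) c :=
    ctrans (csymm (cong_mid A B i p)) hc
  have key : ∀ Z : List α, Cong P (A ++ Z) c → K P c [] (A ++ Z) =
      phi P c (A ++ Z) (whL [] Z (kap P c [] A)) * K P c (nrm P c A) Z := by
    intro Z hZ
    rw [K, kap_append c A Z [] (nrm_nil c)]
    exact phi_append hZ (isPath_whL' [] Z kA (by simp) (by simp))
      (isPath_kap c Z _ (nrm_nrm c A))
  have e0 : IsPath P (P.side i p ++ B) [⟨[], i, B, p⟩] (P.side i (!p) ++ B) := by
    simp [IsPath, SEdge.src, SEdge.tgt]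
  have e3 : phi P c (A ++ (P.side i p ++ B)) (whL [] (P.side i p ++ B) (kap P c [] A)) *
      phi P c (nrm P c A ++ (P.side i p ++ B)) [⟨nrm P c A, i, B, p⟩] =
      phi P c (A ++ (P.side i p ++ B)) [⟨A, i, B, p⟩] *
      phi P c (A ++ (P.side i (!p) ++ B)) (whL [] (P.side i (!p) ++ B) (kap P c [] A)) := by
    rw [← phi_append hc (isPath_whL' [] _ kA (by simp)
          (y' := nrm P c A ++ (P.side i p ++ B)) (by simp))
        (isPath_edge (nrm P c A) i p B),
      ← phi_append hc (isPath_edge A i p B) (isPath_whL' [] _ kA (by simp)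
          (y' := nrm P c A ++ (P.side i (!p) ++ B)) (by simp))]
    refine phi_congr hc (y := nrm P c A ++ (P.side i (!p) ++ B)) ?_
    have := interchange kA e0
    simpa [whL, SEdge.wh] using this
  rw [key _ hc, key _ hc', gel]
  have e5 : phi P c (nrm P c A ++ (P.side i p ++ B)) [⟨nrm P c A, i, B, p⟩] =
      (phi P c (A ++ (P.side i p ++ B)) (whL [] (P.side i p ++ B) (kap P c [] A)))⁻¹ *
      (phi P c (A ++ (P.side i p ++ B)) [⟨A, i, B, p⟩] *
      phi P c (A ++ (P.side i (!p) ++ B)) (whL [] (P.side i (!p) ++ B) (kap P c [] A))) := by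
    rw [← e3]; group
  rw [e5]
  group

/-- The triples of a word. -/
def trip (P : Pres α ι) (c w : List α) : Set (List α × α × List α) :=
  {t | ∃ A x B, w = A ++ x :: B ∧ t = (nrm P c A, x, nrm P c B)}

theorem finite_splits (w : List α) : {t : List α × α × List α | w = t.1 ++ t.2.1 :: t.2.2}.Finite := by
  induction w with
  | nil =>
    convert Set.finite_empty
    ext t
    simp
  | cons y w ih =>
    refine ((ih.image fun t => (y :: t.1, t.2.1, t.2.2)).insert ([], y, w)).subset ?_
    rintro ⟨A, x, B⟩ h
    have h' : y :: w = A ++ x :: B := h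
    rcases A with _ | ⟨z, A⟩
    · simp only [List.nil_append, List.cons.injEq] at h'
      left
      rw [h'.1, h'.2]
    · simp only [List.cons_append, List.cons.injEq] at h'
      right
      exact ⟨(A, x, B), h'.2, by rw [h'.1]⟩

theorem finite_trip (c w : List α) : (trip P c w).Finite := by
  refine ((finite_splits w).image fun t => (nrm P c t.1, t.2.1, nrm P c t.2.2)).subset ?_
  rintro _ ⟨A, x, B, h, rfl⟩
  exact ⟨(A, x, B), h, rfl⟩

theorem split_cases {A Z W₁ W₂ : List α} {x : α} (h : A ++ Z = W₁ ++ x :: W₂) :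
    (∃ A₂, A = W₁ ++ x :: A₂ ∧ W₂ = A₂ ++ Z) ∨ (∃ Z₁, W₁ = A ++ Z₁ ∧ Z = Z₁ ++ x :: W₂) := by
  induction A generalizing W₁ with
  | nil => exact Or.inr ⟨W₁, rfl, h⟩
  | cons a A ih =>
    rcases W₁ with _ | ⟨w, W₁⟩
    · simp only [List.cons_append, List.nil_append, List.cons.injEq] at h
      left
      exact ⟨A, by rw [h.1]; rfl, h.2.symm⟩
    · simp only [List.cons_append, List.cons.injEq] at h
      rcases ih h.2 with ⟨A₂, h1, h2⟩ | ⟨Z₁, h1, h2⟩
      · left
        exact ⟨A₂, by rw [h.1, h1]; rfl, h2⟩
      · right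
        exact ⟨Z₁, by rw [h.1, h1]; rfl, h2⟩

/-- The set of triples. -/
def T (P : Pres α ι) (c : List α) (S : Set (List α × ι × List α)) : Set (List α × α × List α) :=
  trip P c c ∪ ⋃ t ∈ S, (trip P c (t.1 ++ (P.side t.2.1 true ++ t.2.2)) ∪
    trip P c (t.1 ++ (P.side t.2.1 false ++ t.2.2)))

theorem finite_T (c : List α) {S : Set (List α × ι × List α)} (hS : S.Finite) :
    (T P c S).Finite :=
  (finite_trip c c).union (hS.biUnion fun t _ => (finite_trip c _).union (finite_trip c _))

theorem mem_T_of (c : List α) {S : Set (List α × ι × List α)} {a b : List α} {i : ι}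
    (h : (a, i, b) ∈ S) (p : Bool) {t : List α × α × List α}
    (ht : t ∈ trip P c (a ++ (P.side i p ++ b))) : t ∈ T P c S := by
  right
  refine Set.mem_biUnion h ?_
  cases p
  · exact Or.inr ht
  · exact Or.inl ht

/-- The generating set. -/
def Th (P : Pres α ι) (c : List α) (S : Set (List α × ι × List α)) : Set (DiagramGroup P c) :=
  {gm P c (pth P c c), K P c [] c} ∪ ((fun t => eta P c t.1 t.2.1 t.2.2) '' T P c S ∪
    ((fun t => gel P c (nrm P c t.1) t.2.1 true (nrm P c t.2.2)) '' S ∪
      (fun t => gel P c (nrm P c t.1) t.2.1 false (nrm P c t.2.2)) '' S))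

theorem finite_Th (c : List α) {S : Set (List α × ι × List α)} (hS : S.Finite) :
    (Th P c S).Finite :=
  ((Set.finite_singleton _).insert _).union (((finite_T c hS).image _).union
    ((hS.image _).union (hS.image _)))

/-- All the triples of the word are in `T`. -/
def GoodW (P : Pres α ι) (c : List α) (S : Set (List α × ι × List α)) (w : List α) : Prop :=
  trip P c w ⊆ T P c S

theorem theta_mem (c : List α) {S : Set (List α × ι × List α)} :
    ∀ (B v : List α), Cong P (v ++ B) c → GoodW P c S (v ++ B) →
      theta P c (nrm P c v) B ∈ Subgroup.closure (Th P c S) := by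
  intro B
  induction B with
  | nil =>
    intro v hc _
    rw [List.append_nil] at hc
    rw [theta_nil (EqvGen.trans _ _ _ (EqvGen.symm _ _ (cong_nrm c v)) hc)]
    exact one_mem _
  | cons x B ih =>
    intro v hc hw
    have hc' : Cong P (nrm P c v ++ x :: B) c :=
      EqvGen.trans _ _ _ (EqvGen.symm _ _ (cong_append_left (cong_nrm c v) _)) hc
    rw [theta_cons x B (nrm_nrm c v) hc', nrm_left]
    refine mul_mem (ih (v ++ [x]) (by simpa using hc) (by simpa using hw)) ?_
    refine Subgroup.subset_closure (Or.inr (Or.inl ?_))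
    exact ⟨(nrm P c v, x, nrm P c B), hw ⟨v, x, B, rfl, rfl⟩, rfl⟩

theorem goodW_step (c : List α) {S : Set (List α × ι × List α)} {A B : List α} {i : ι}
    (p : Bool) (hE : GoodE P S ⟨A, i, B, p⟩) (hw : GoodW P c S (A ++ (P.side i p ++ B))) :
    GoodW P c S (A ++ (P.side i (!p) ++ B)) := by
  rintro _ ⟨W₁, x, W₂, h, rfl⟩
  rcases split_cases h with ⟨A₂, h1, h2⟩ | ⟨Z₁, h1, h2⟩
  · -- inside `A`
    refine hw ⟨W₁, x, A₂ ++ (P.side i p ++ B), by rw [h1]; simp, ?_⟩
    rw [h2, nrm_eq c (cong_mid A₂ B i p)]
  · rcases split_cases h2 with ⟨r₂, h3, h4⟩ | ⟨B₁, h3, h4⟩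
    · obtain ⟨⟨a, j, b⟩, ht, ha, hj, hb⟩ := hE
      have hj' : i = j := hj
      subst hj'
      have ha' : Cong P A a := ha
      have hb' : Cong P B b := hb
      refine mem_T_of c ht (!p) ⟨a ++ Z₁, x, r₂ ++ b, by rw [h3]; simp, ?_⟩
      rw [h1, h4, nrm_eq c (cong_append_left ha' Z₁), nrm_eq c (cong_append_right hb' r₂)]
    · refine hw ⟨A ++ (P.side i p ++ B₁), x, W₂, by rw [h4]; simp, ?_⟩
      rw [h1, h3, nrm_eq c (cong_mid A B₁ i p)]

theorem main (c : List α) {S : Set (List α × ι × List α)} :
    ∀ (l : List (SEdge α ι)) (w w' : List α), IsPath P w l w' → Cong P w c → GoodW P c S w →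
      (∀ s ∈ l, GoodE P S s) →
      (K P c [] w)⁻¹ * phi P c w l * K P c [] w' ∈ Subgroup.closure (Th P c S) := by
  intro l
  induction l with
  | nil =>
    intro w w' h hc _ _
    have h' : w = w' := h
    subst h'
    rw [phi_nil hc]
    simp
  | cons s l ih =>
    intro w w' h hc hw hS
    obtain ⟨A, i, B, p⟩ := s
    obtain ⟨h1, h2⟩ := h
    have h1' : w = A ++ (P.side i p ++ B) := by rw [← h1]; simp [SEdge.src]
    have h2' : IsPath P (A ++ (P.side i (!p) ++ B)) l w' := by
      simpa [SEdge.tgt] using h2
    subst h1'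
    have hE := hS _ (List.mem_cons_self)
    have hc' : Cong P (A ++ (P.side i (!p) ++ B)) c :=
      ctrans (csymm (cong_mid A B i p)) hc
    have hrest := ih _ w' h2' hc' (goodW_step c p hE hw)
      (fun s hs => hS s (List.mem_cons_of_mem _ hs))
    have hfirst : (K P c [] (A ++ (P.side i p ++ B)))⁻¹ *
        phi P c (A ++ (P.side i p ++ B)) [⟨A, i, B, p⟩] *
        K P c [] (A ++ (P.side i (!p) ++ B)) ∈ Subgroup.closure (Th P c S) := by
      have hcA : Cong P (nrm P c A ++ (P.side i p ++ B)) c :=
        EqvGen.trans _ _ _ (EqvGen.symm _ _ (cong_append_left (cong_nrm c A) _)) hc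
      rw [edge_eq A i p B hc, gel_reduce i p B (nrm_nrm c A) hcA, nrm_left]
      have hth := theta_mem c (S := S) B (A ++ P.side i p) (by simpa using hc)
        (by simpa using hw)
      refine mul_mem (mul_mem hth ?_) (inv_mem hth)
      obtain ⟨⟨a, j, b⟩, ht, ha, hj, hb⟩ := hE
      have hj' : i = j := hj
      subst hj'
      rw [nrm_eq c (show Cong P A a from ha), nrm_eq c (show Cong P B b from hb)]
      refine Subgroup.subset_closure (Or.inr (Or.inr ?_))
      cases p
      · exact Or.inr ⟨_, ht, rfl⟩
      · exact Or.inl ⟨_, ht, rfl⟩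
    have e : phi P c (A ++ (P.side i p ++ B)) (⟨A, i, B, p⟩ :: l) =
        phi P c (A ++ (P.side i p ++ B)) [⟨A, i, B, p⟩] *
        phi P c (A ++ (P.side i (!p) ++ B)) l :=
      phi_append hc (isPath_edge A i p B) h2'
    rw [e]
    have := mul_mem hfirst hrest
    convert this using 1
    group

end Combing

open Combing in
/-- The combing lemma: let `S` be a finite set of types `(a, i, b)`. There is a finite set `Θ` of
elements of the diagram group of `c` such that every closed path at `c` all of whose edges have types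
in `S` is in the subgroup generated by `Θ`.
Proof. For a congruence class `s` of words choose a representative `p s`, with `p [c] = c` and
`p [[]] = []` (the class of the empty word is trivial; if `c = []` everything is trivial), and for
every letter `x` a path `α(s,x)` from `p s · x` to `p (s x)`, `μ(x,b)` from `x · p b` to `p (x b)`
(`α([], x)`, `μ(x, [])` are paths from `x` to `p [x]`). For a class `s` and a word `B` let
`κ(s,B) : p s · B ⇝ p (s B)`, `κ(s, []) = 1`, `κ(s, x B) = (α(s,x) B) · κ(s x, B)`, and
`λ(B) : B ⇝ p [B]`, `λ([]) = 1`, `λ(x B) = (x λ(B)) · μ(x, [B])`. One has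
`κ([], A B) ≃ (κ([], A) B) · κ([A], B)`. For an edge `(A, e, B)`, with sides `l_e, r_e`, `s = [A]`:
`κ([], A l_e B)⁻¹ · (A e B) · κ([], A r_e B) ≃ g(s,e,B) := κ(s, l_e B)⁻¹ (p s · e · B) κ(s, r_e B)`,
because `κ([],A)` commutes with the edge (interchange). Let
`θ(s,B) = κ(s,B)⁻¹ · (p s · λ(B)) · κ(s, p [B])`, a closed path at `p (s B)`. By interchange
`g(s,e,B) ≃ θ(s l_e, B) · g(s, e, p [B]) · θ(s l_e, B)⁻¹`, and `θ(s, x B') ≃ θ(s x, B') η(s, x, [B'])` with
`η(s,x,b) = κ(s x, p b)⁻¹ (α(s,x)⁻¹ · p b) (p s · μ(x,b)) κ(s, p (x b))`, so `θ(s,B)` is the product of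
the elements `η(s B₁, x, [B₂])`, `B = B₁ x B₂` (in reverse order). All words on a closed path at `c`
with edges of types in `S` are congruent to `c`, and the triples `([B₁], x, [B₂])` for the letters
`x` of these words lie in a finite set: the set of the triples of the letters of `c` and of the letters
of the sides `l_e, r_e` inside `a l_e b`, `a r_e b`, `(a, e, b) ∈ S`. So all `g(s,e,B)` occurring, and
with them the product, lie in the subgroup generated by the finitely many `g(s, e, p b)`,
`(s,e,b) ∈ S`, and `η(s,x,b)`, with `(s,x,b)` in this finite set. (For edges with `pos = false` take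
inverses.) -/
theorem combing (c : List α) (S : Set (List α × ι × List α)) (hS : S.Finite) :
    ∃ Θ : Finset (DiagramGroup P c), ∀ (l : List (SEdge α ι)) (h : IsPath P c l c),
      (∀ s ∈ l, GoodE P S s) → (Hpt.mk P l h : DiagramGroup P c) ∈
        Subgroup.closure (Θ : Set (DiagramGroup P c)) := by
  refine ⟨(finite_Th (P := P) c hS).toFinset, ?_⟩
  rw [Set.Finite.coe_toFinset]
  intro l h hl
  have h1 := main c l c c h (Relation.EqvGen.refl _) (S := S) (fun t ht => Or.inl ht) hl
  have hK : K P c [] c ∈ Subgroup.closure (Th P c S) :=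
    Subgroup.subset_closure (Or.inl (Or.inr rfl))
  have hq : gm P c (pth P c c) ∈ Subgroup.closure (Th P c S) :=
    Subgroup.subset_closure (Or.inl (Or.inl rfl))
  rw [← gm_eq h, gm_phi h]
  refine mul_mem (mul_mem hq ?_) (inv_mem hq)
  have h2 := mul_mem (mul_mem hK h1) (inv_mem hK)
  convert h2 using 1
  group

end Pool.Agent.DG
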