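import Pool.Agent.MP_cff99f_al.Gen.Base

/-!
Block Periodic: a complex of finite type with two trivial homology groups.
-/

namespace Pool.Agent.DG

universe u w

namespace FPMod

/-- `FPm R n M`: a free resolution of `M` of length `n` by modules of finite rank. -/
def FPm (R : Type w) [Ring R] : ℕ → ∀ (M : Type w) [AddCommGroup M] [Module R M], Prop
  | 0, M, _, _ => ∃ (k : ℕ) (f : (Fin k → R) →ₗ[R] M), Function.Surjective f
  | n + 1, M, _, _ => ∃ (k : ℕ) (f : (Fin k → R) →ₗ[R] M), Function.Surjective f ∧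
      FPm R n (LinearMap.ker f)

variable {R : Type w} [Ring R]

theorem FPm_zero {M : Type w} [AddCommGroup M] [Module R M] :
    FPm R 0 M ↔ ∃ (k : ℕ) (f : (Fin k → R) →ₗ[R] M), Function.Surjective f := Iff.rfl

theorem FPm_succ {M : Type w} [AddCommGroup M] [Module R M] (n : ℕ) :
    FPm R (n + 1) M ↔ ∃ (k : ℕ) (f : (Fin k → R) →ₗ[R] M), Function.Surjective f ∧
      FPm R n (LinearMap.ker f) := Iff.rfl

theorem FPm_congr (n : ℕ) {M N : Type w} [AddCommGroup M] [Module R M] [AddCommGroup N]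
    [Module R N] (e : M ≃ₗ[R] N) (h : FPm R n M) : FPm R n N := by
  cases n with
  | zero =>
    obtain ⟨k, f, hf⟩ := h
    exact ⟨k, e.toLinearMap ∘ₗ f, e.surjective.comp hf⟩
  | succ n =>
    obtain ⟨k, f, hf, hk⟩ := h
    refine ⟨k, e.toLinearMap ∘ₗ f, e.surjective.comp hf, ?_⟩
    rw [LinearEquiv.ker_comp]
    exact hk

/-- surjections from a module isomorphic to `Fin k → R` -/
theorem FPm_succ_of {n k : ℕ} {M F K : Type w} [AddCommGroup M] [Module R M] [AddCommGroup F]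
    [Module R F] [AddCommGroup K] [Module R K] (e : (Fin k → R) ≃ₗ[R] F) (f : F →ₗ[R] M)
    (hf : Function.Surjective f) (i : K ≃ₗ[R] LinearMap.ker f) (hK : FPm R n K) :
    FPm R (n + 1) M := by
  refine ⟨k, f ∘ₗ e.toLinearMap, hf.comp e.surjective, ?_⟩
  refine FPm_congr n (i.trans (e.ofSubmodules (LinearMap.ker (f ∘ₗ e.toLinearMap))
    (LinearMap.ker f) ?_).symm) hK
  ext x
  rw [Submodule.mem_map]
  constructor
  · rintro ⟨y, hy, rfl⟩
    exact hy
  · intro hx
    refine ⟨e.symm x, ?_, e.apply_symm_apply x⟩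
    rw [LinearMap.mem_ker, LinearMap.comp_apply]
    have : e.toLinearMap (e.symm x) = x := e.apply_symm_apply x
    rw [this]
    exact hx

/-- lifting a map from a free module through a surjection -/
theorem exists_lift_fin {k : ℕ} {B C : Type w} [AddCommGroup B] [Module R B] [AddCommGroup C]
    [Module R C] (p : B →ₗ[R] C) (hp : Function.Surjective p) (g : (Fin k → R) →ₗ[R] C) :
    ∃ g' : (Fin k → R) →ₗ[R] B, ∀ x, p (g' x) = g x := by
  obtain ⟨g', hg'⟩ := Module.projective_lifting_property p g hp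
  exact ⟨g', fun x => LinearMap.congr_fun hg' x⟩

/-- `(Fin (a + b) → R)` is a product -/
theorem exists_prod_equiv (a b : ℕ) :
    Nonempty ((Fin (a + b) → R) ≃ₗ[R] ((Fin a → R) × (Fin b → R))) :=
  ⟨(LinearEquiv.funCongrLeft R R (finSumFinEquiv (m := a) (n := b))).trans
    (LinearEquiv.sumArrowLequivProdArrow (Fin a) (Fin b) R R)⟩

/-- the horseshoe lemma -/
theorem FPm_ext : ∀ (n : ℕ) {A B C : Type w} [AddCommGroup A] [Module R A] [AddCommGroup B]
    [Module R B] [AddCommGroup C] [Module R C] (i : A →ₗ[R] B) (p : B →ₗ[R] C),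
    Function.Injective i → Function.Surjective p → (∀ x, p x = 0 ↔ ∃ y, i y = x) →
    FPm R n A → FPm R n C → FPm R n B := by
  intro n
  induction n with
  | zero =>
    intro A B C _ _ _ _ _ _ i p hi hp hip hA hC
    obtain ⟨a, f, hf⟩ := hA
    obtain ⟨c, g, hg⟩ := hC
    obtain ⟨g', hg'⟩ := exists_lift_fin p hp g
    obtain ⟨e⟩ := exists_prod_equiv (R := R) a c
    refine ⟨a + c, ((i ∘ₗ f).coprod g') ∘ₗ e.toLinearMap, ?_⟩
    have hsur : Function.Surjective ((i ∘ₗ f).coprod g') := by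
      intro b
      obtain ⟨y, hy⟩ := hg (p b)
      obtain ⟨z, hz⟩ := (hip (b - g' y)).1 (by rw [map_sub, hg', hy, sub_self])
      obtain ⟨x, rfl⟩ := hf z
      refine ⟨(x, y), ?_⟩
      rw [LinearMap.coprod_apply, LinearMap.comp_apply, hz]
      abel
    exact hsur.comp e.surjective
  | succ n ih =>
    intro A B C _ _ _ _ _ _ i p hi hp hip hA hC
    obtain ⟨a, f, hf, hfk⟩ := hA
    obtain ⟨c, g, hg, hgk⟩ := hC
    obtain ⟨g', hg'⟩ := exists_lift_fin p hp g
    obtain ⟨e⟩ := exists_prod_equiv (R := R) a c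
    set h : ((Fin a → R) × (Fin c → R)) →ₗ[R] B := (i ∘ₗ f).coprod g' with hh
    have hhv : ∀ x y, h (x, y) = i (f x) + g' y := fun x y => rfl
    have hsurj : Function.Surjective h := by
      intro b
      obtain ⟨y, hy⟩ := hg (p b)
      obtain ⟨z, hz⟩ := (hip (b - g' y)).1 (by rw [map_sub, hg', hy, sub_self])
      obtain ⟨x, rfl⟩ := hf z
      refine ⟨(x, y), ?_⟩
      rw [hhv, hz]
      abel
    refine FPm_succ_of e h hsurj (LinearEquiv.refl R _) ?_
    -- the exact sequence of the kernels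
    have hpi : ∀ y, p (i y) = 0 := fun y => (hip _).2 ⟨y, rfl⟩
    let i' : LinearMap.ker f →ₗ[R] LinearMap.ker h :=
      ((LinearMap.inl R (Fin a → R) (Fin c → R)) ∘ₗ (LinearMap.ker f).subtype).codRestrict
        (LinearMap.ker h) (fun x => by
          have hx : f x = 0 := x.2
          show h ((x : Fin a → R), 0) = 0
          rw [hhv, hx, map_zero, map_zero, add_zero])
    let p' : LinearMap.ker h →ₗ[R] LinearMap.ker g :=
      ((LinearMap.snd R (Fin a → R) (Fin c → R)) ∘ₗ (LinearMap.ker h).subtype).codRestrict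
        (LinearMap.ker g) (fun x => by
          obtain ⟨⟨x, y⟩, hxy⟩ := x
          have hxy' : i (f x) + g' y = 0 := hxy
          show g y = 0
          have := congrArg p hxy'
          rw [map_add, hpi, hg', zero_add, map_zero] at this
          exact this)
    refine ih i' p' ?_ ?_ ?_ hfk hgk
    · intro x y hxy
      have := congrArg (fun z : LinearMap.ker h => (z : (Fin a → R) × (Fin c → R)).1) hxy
      exact Subtype.ext this
    · rintro ⟨y, hy⟩
      have hy' : g y = 0 := hy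
      obtain ⟨z, hz⟩ := (hip (g' y)).1 (by rw [hg', hy'])
      obtain ⟨x, rfl⟩ := hf z
      refine ⟨⟨(-x, y), ?_⟩, rfl⟩
      show h (-x, y) = 0
      rw [hhv, map_neg, map_neg, hz, neg_add_cancel]
    · rintro ⟨⟨x, y⟩, hxy⟩
      have hxy' : i (f x) + g' y = 0 := hxy
      constructor
      · intro h0
        have hy : y = 0 := congrArg Subtype.val h0
        subst hy
        rw [map_zero, add_zero] at hxy'
        have hx : f x = 0 := hi (by rw [hxy', map_zero])
        exact ⟨⟨x, hx⟩, rfl⟩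
      · rintro ⟨⟨x', hx'⟩, hz⟩
        have := congrArg (fun z : LinearMap.ker h => (z : (Fin a → R) × (Fin c → R)).2) hz
        exact Subtype.ext this.symm

/-- from `FPm` to a complex -/
theorem FPm_complex : ∀ (n : ℕ) {M : Type w} [AddCommGroup M] [Module R M], FPm R n M →
    ∃ (k : ℕ → ℕ) (ε : (Fin (k 0) → R) →ₗ[R] M)
      (d : ∀ i, (Fin (k (i + 1)) → R) →ₗ[R] (Fin (k i) → R)),
      Function.Surjective ε ∧ (0 < n → ∀ x, ε x = 0 ↔ ∃ y, d 0 y = x) ∧
      (∀ i, i + 1 < n → ∀ x, d i x = 0 ↔ ∃ y, d (i + 1) y = x) := by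
  intro n
  induction n with
  | zero =>
    intro M _ _ h
    obtain ⟨k, f, hf⟩ := h
    exact ⟨fun _ => k, f, fun _ => 0, hf, fun h => absurd h (lt_irrefl 0),
      fun i hi => absurd hi (Nat.not_lt_zero _)⟩
  | succ n ih =>
    intro M _ _ h
    obtain ⟨k, f, hf, hK⟩ := h
    obtain ⟨k', ε', d', hs, h0, hd⟩ := ih hK
    let k'' : ℕ → ℕ := fun i => match i with
      | 0 => k
      | j + 1 => k' j
    let d'' : ∀ i, (Fin (k'' (i + 1)) → R) →ₗ[R] (Fin (k'' i) → R) := fun i => match i with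
      | 0 => (LinearMap.ker f).subtype ∘ₗ ε'
      | j + 1 => d' j
    refine ⟨k'', f, d'', hf, ?_, ?_⟩
    · intro _ x
      constructor
      · intro hx
        obtain ⟨y, hy⟩ := hs ⟨x, hx⟩
        exact ⟨y, congrArg Subtype.val hy⟩
      · rintro ⟨y, rfl⟩
        exact (ε' y).2
    · intro i hi x
      cases i with
      | zero =>
        have h1 := h0 (by omega) x
        have h2 : d'' 0 x = 0 ↔ ε' x = 0 :=
          ⟨fun h => Subtype.ext h, fun h => congrArg Subtype.val h⟩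
        exact h2.trans h1
      | succ j => exact hd j (by omega) x

/-- the trivial module `ℤ` in the universe of `G` -/
theorem exists_triv (G : Type w) [Group G] :
    ∃ (T : Type w) (_ : AddCommGroup T) (_ : Module (MonoidAlgebra ℤ G) T) (τ : T ≃+ ℤ),
      ∀ (g : G) (t : T), MonoidAlgebra.of ℤ G g • t = t := by
  let aug : MonoidAlgebra ℤ G →+* ℤ := ((MonoidAlgebra.lift ℤ ℤ G) (1 : G →* ℤ)).toRingHom
  have haug : ∀ g : G, aug (MonoidAlgebra.of ℤ G g) = 1 := by
    intro g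
    show (MonoidAlgebra.lift ℤ ℤ G) (1 : G →* ℤ) (MonoidAlgebra.of ℤ G g) = 1
    rw [MonoidAlgebra.lift_of]
    rfl
  let _ : Module (MonoidAlgebra ℤ G) (ULift.{w} ℤ) := Module.compHom (ULift.{w} ℤ) aug
  refine ⟨ULift.{w} ℤ, inferInstance, inferInstance, AddEquiv.ulift, ?_⟩
  intro g t
  show aug (MonoidAlgebra.of ℤ G g) • t = t
  rw [haug, one_smul]

end FPMod

open FPMod FPAlg

/-- A complex of free permutation modules of finite type whose homology is `ℤ` in degrees `0` and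
`1` and `0` in all other degrees gives `FP_n` for all `n`.
Proof: transport to modules `E k = Fin (r k) → ℤ G` by `exists_coord` as in `typeFP_of_complex`. For a
`ℤ G`-module `M` (in `Type w`) let `FPm n M` be defined by recursion: `FPm 0 M` = `M` finitely
generated, `FPm (n+1) M` = there is a surjection from some `Fin k → ℤ G` onto `M` with kernel
`FPm n`. This notion is invariant under isomorphism and closed under extensions (horseshoe). The
image `B` of `E 2 → E 1` is `FPm n` for all `n` (resolved by `E 2, E 3, …`), the kernel `Z` of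
`E 1 → E 0` is an extension of the trivial module `ℤ` by `B` (via `η`), so `FPm n ℤ` implies `FPm n Z`
and then `FPm (n+2) ℤ`. Finally `FPm n ℤ` gives `TypeFP n G`. -/
theorem typeFP_of_periodic (G : Type w) [Group G] (X : ℕ → Type u) [∀ k, MulAction G (X k)]
    (hfree : ∀ k (g : G) (x : X k), g • x = x → g = 1)
    (hfin : ∀ k, Finite (MulAction.orbitRel.Quotient G (X k)))
    (hne : Nonempty (X 0))
    (d : ∀ k, (X (k + 1) →₀ ℤ) →+ (X k →₀ ℤ))
    (hd : ∀ k (g : G) z, d k (sm g z) = sm g (d k z))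
    (h0 : ∀ z : X 0 →₀ ℤ, sumCoeff (X 0) z = 0 ↔ ∃ y, d 0 y = z)
    (η : (X 1 →₀ ℤ) →+ ℤ) (hη : ∀ (g : G) z, η (sm g z) = η z)
    (hηs : ∃ z, d 0 z = 0 ∧ η z = 1)
    (h1 : ∀ z, (d 0 z = 0 ∧ η z = 0) ↔ ∃ y, d 1 y = z)
    (hex : ∀ k z, d (k + 1) z = 0 ↔ ∃ y, d (k + 2) y = z) (n : ℕ) : TypeFP n G := by
  choose c e he using fun k => exists_coord (X k) (hfree k) (hfin k)
  have hes : ∀ k (g : G) z, (e k).symm (z.mapDomain (g • ·)) =
      MonoidAlgebra.of ℤ G g • (e k).symm z := by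
    intro k g z
    rw [AddEquiv.symm_apply_eq, he, AddEquiv.apply_symm_apply]
  let D : ∀ k, (Fin (c (k + 1)) → MonoidAlgebra ℤ G) →ₗ[MonoidAlgebra ℤ G]
      (Fin (c k) → MonoidAlgebra ℤ G) := fun k =>
    toLin (((e k).symm.toAddMonoidHom.comp (d k)).comp (e (k + 1)).toAddMonoidHom) (by
      intro g m
      show (e k).symm (d k (e (k + 1) (MonoidAlgebra.of ℤ G g • m))) =
        MonoidAlgebra.of ℤ G g • (e k).symm (d k (e (k + 1) m))
      rw [he, ← sm_def, hd, sm_def, hes])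
  have hD : ∀ k x, D k x = (e k).symm (d k (e (k + 1) x)) := fun _ _ => rfl
  have hD0 : ∀ k x, D k x = 0 ↔ d k (e (k + 1) x) = 0 := by
    intro k x
    rw [hD, AddEquiv.symm_apply_eq, map_zero]
  have hDr : ∀ k x, (∃ y, D k y = x) ↔ ∃ y, d k y = e k x := by
    intro k x
    constructor
    · rintro ⟨y, rfl⟩
      refine ⟨e (k + 1) y, ?_⟩
      rw [hD, AddEquiv.apply_symm_apply]
    · rintro ⟨y, hy⟩
      refine ⟨(e (k + 1)).symm y, ?_⟩
      rw [hD, AddEquiv.apply_symm_apply, hy, AddEquiv.symm_apply_apply]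
  have hDex : ∀ k x, D (k + 1) x = 0 ↔ ∃ y, D (k + 2) y = x := by
    intro k x
    rw [hD0, hDr, hex]
  obtain ⟨T, _, _, τ, hτ⟩ := exists_triv G
  -- the augmentation
  let ε : (Fin (c 0) → MonoidAlgebra ℤ G) →ₗ[MonoidAlgebra ℤ G] T :=
    toLin (τ.symm.toAddMonoidHom.comp ((sumCoeff (X 0)).comp (e 0).toAddMonoidHom)) (by
      intro g m
      show τ.symm (sumCoeff (X 0) (e 0 (MonoidAlgebra.of ℤ G g • m))) =
        MonoidAlgebra.of ℤ G g • τ.symm (sumCoeff (X 0) (e 0 m))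
      rw [hτ, he, sumCoeff_mapDomain])
  have hεv : ∀ x, τ (ε x) = sumCoeff (X 0) (e 0 x) := by
    intro x
    show τ (τ.symm (sumCoeff (X 0) (e 0 x))) = _
    rw [AddEquiv.apply_symm_apply]
  have hε0 : ∀ x, ε x = 0 ↔ ∃ y, D 0 y = x := by
    intro x
    rw [hDr, ← h0, ← hεv]
    exact (map_eq_zero_iff τ τ.injective).symm
  have hεs : Function.Surjective ε := by
    intro t
    obtain ⟨x⟩ := hne
    refine ⟨(e 0).symm (Finsupp.single x (τ t)), ?_⟩
    apply τ.injective
    rw [hεv, AddEquiv.apply_symm_apply, sumCoeff_single]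
  -- the map `η` on cycles
  let η' : LinearMap.ker (D 0) →ₗ[MonoidAlgebra ℤ G] T :=
    toLin (τ.symm.toAddMonoidHom.comp (η.comp ((e 1).toAddMonoidHom.comp
      (LinearMap.ker (D 0)).subtype.toAddMonoidHom))) (by
      intro g m
      show τ.symm (η (e 1 (MonoidAlgebra.of ℤ G g • (m : Fin (c 1) → MonoidAlgebra ℤ G)))) =
        MonoidAlgebra.of ℤ G g • τ.symm (η (e 1 (m : Fin (c 1) → MonoidAlgebra ℤ G)))
      rw [hτ, he, ← sm_def, hη])
  have hη'v : ∀ x : LinearMap.ker (D 0), τ (η' x) = η (e 1 (x : Fin (c 1) → MonoidAlgebra ℤ G)) := by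
    intro x
    show τ (τ.symm (η (e 1 (x : Fin (c 1) → MonoidAlgebra ℤ G)))) = _
    rw [AddEquiv.apply_symm_apply]
  have hη'0 : ∀ x : LinearMap.ker (D 0), η' x = 0 ↔
      ∃ y, D 1 y = (x : Fin (c 1) → MonoidAlgebra ℤ G) := by
    intro x
    rw [hDr, ← h1]
    have hx : d 0 (e 1 (x : Fin (c 1) → MonoidAlgebra ℤ G)) = 0 := (hD0 0 _).1 x.2
    rw [← map_eq_zero_iff τ τ.injective, hη'v]
    exact ⟨fun h => ⟨hx, h⟩, fun h => h.2⟩
  have hη's : Function.Surjective η' := by
    intro t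
    obtain ⟨z, hz0, hz1⟩ := hηs
    have hz : D 0 ((e 1).symm z) = 0 := by
      rw [hD0, AddEquiv.apply_symm_apply, hz0]
    refine ⟨⟨τ t • (e 1).symm z, ?_⟩, ?_⟩
    · rw [LinearMap.mem_ker, map_zsmul, hz, smul_zero]
    · apply τ.injective
      rw [hη'v]
      show η (e 1 (τ t • (e 1).symm z)) = τ t
      rw [map_zsmul, map_zsmul, AddEquiv.apply_symm_apply, hz1]
      simp
  -- the boundaries have finite type
  have hB : ∀ n k, FPm (MonoidAlgebra ℤ G) n (LinearMap.range (D (k + 1))) := by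
    intro n
    induction n with
    | zero =>
      intro k
      exact ⟨c (k + 2), (D (k + 1)).rangeRestrict, LinearMap.surjective_rangeRestrict _⟩
    | succ n ih =>
      intro k
      refine ⟨c (k + 2), (D (k + 1)).rangeRestrict, LinearMap.surjective_rangeRestrict _, ?_⟩
      refine FPm_congr n (LinearEquiv.ofEq _ _ ?_) (ih (k + 1))
      ext x
      rw [LinearMap.ker_rangeRestrict, LinearMap.mem_range, LinearMap.mem_ker]
      exact (hDex k x).symm
  -- one step of the recursion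
  have hZ : ∀ n, FPm (MonoidAlgebra ℤ G) n T → FPm (MonoidAlgebra ℤ G) n (LinearMap.ker (D 0)) := by
    intro n hT
    have hle : LinearMap.range (D 1) ≤ LinearMap.ker (D 0) := by
      rintro _ ⟨y, rfl⟩
      rw [LinearMap.mem_ker, hD0]
      exact ((h1 _).2 ((hDr 1 _).1 ⟨y, rfl⟩)).1
    refine FPm_ext n (Submodule.inclusion hle) η' (Submodule.inclusion_injective hle) hη's ?_
      (hB n 0) hT
    intro x
    rw [hη'0]
    constructor
    · rintro ⟨y, hy⟩
      exact ⟨⟨_, y, hy⟩, rfl⟩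
    · rintro ⟨⟨z, y, hy⟩, rfl⟩
      exact ⟨y, hy⟩
  have hI : ∀ n, FPm (MonoidAlgebra ℤ G) n (LinearMap.ker (D 0)) →
      FPm (MonoidAlgebra ℤ G) (n + 1) (LinearMap.ker ε) := by
    intro n hZ
    let f : (Fin (c 1) → MonoidAlgebra ℤ G) →ₗ[MonoidAlgebra ℤ G] LinearMap.ker ε :=
      (D 0).codRestrict (LinearMap.ker ε) (fun y => (hε0 _).2 ⟨y, rfl⟩)
    refine ⟨c 1, f, ?_, ?_⟩
    · rintro ⟨x, hx⟩
      obtain ⟨y, hy⟩ := (hε0 x).1 hx
      exact ⟨y, Subtype.ext hy⟩
    · rw [LinearMap.ker_codRestrict]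
      exact hZ
  have hT0 : FPm (MonoidAlgebra ℤ G) 0 T := ⟨c 0, ε, hεs⟩
  have hI0 : FPm (MonoidAlgebra ℤ G) 0 (LinearMap.ker ε) := by
    let f : (Fin (c 1) → MonoidAlgebra ℤ G) →ₗ[MonoidAlgebra ℤ G] LinearMap.ker ε :=
      (D 0).codRestrict (LinearMap.ker ε) (fun y => (hε0 _).2 ⟨y, rfl⟩)
    refine ⟨c 1, f, ?_⟩
    rintro ⟨x, hx⟩
    obtain ⟨y, hy⟩ := (hε0 x).1 hx
    exact ⟨y, Subtype.ext hy⟩
  have hT1 : FPm (MonoidAlgebra ℤ G) 1 T := ⟨c 0, ε, hεs, hI0⟩
  have hTn : ∀ n, FPm (MonoidAlgebra ℤ G) n T ∧ FPm (MonoidAlgebra ℤ G) (n + 1) T := by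
    intro n
    induction n with
    | zero => exact ⟨hT0, hT1⟩
    | succ n ih => exact ⟨ih.2, c 0, ε, hεs, hI n (hZ n ih.1)⟩
  obtain ⟨k, ε', δ, hs, hδ0, hδ⟩ := FPm_complex n (hTn n).1
  refine ⟨k, τ.toAddMonoidHom.comp ε'.toAddMonoidHom, δ, τ.surjective.comp hs, ?_, ?_, hδ⟩
  · intro g x
    show τ (ε' (MonoidAlgebra.of ℤ G g • x)) = τ (ε' x)
    rw [map_smul, hτ]
  · intro hn x
    rw [← hδ0 hn]
    exact map_eq_zero_iff τ τ.injective

end Pool.Agent.DG
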