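import Pool.Agent.MP_cff99f_al.Gen.RedBase
import Pool.Agent.MP_cff99f_al.Gen.Periodic

/-!
Block Cone: the cone of `1 - S`.
-/

namespace Pool.Agent.DG

universe u w

namespace RedBase

variable {G : Type w} {I : Type u} [Group G] [MulAction G I]
variable (R : RedBase G I)

/-- The acyclic part. -/
noncomputable def cc_N : Submodule ℤ (I →₀ ℤ) :=
  Finsupp.supported ℤ ℤ R.D ⊔ (Finsupp.supported ℤ ℤ R.D).map R.d

/-- The critical part. -/
noncomputable def cc_S : Submodule ℤ (I →₀ ℤ) := Finsupp.supported ℤ ℤ R.C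

theorem cc_isCompl : IsCompl R.cc_S R.cc_N := by
  constructor
  · rw [Submodule.disjoint_def]
    exact fun c hc hn => R.h2 c hc hn
  · rw [codisjoint_iff, Submodule.eq_top_iff']
    intro z
    obtain ⟨c, hc, hn⟩ := R.h1 z
    rw [Submodule.mem_sup]
    exact ⟨c, hc, z - c, hn, by simp⟩

/-- The projection to the critical part. -/
noncomputable def cc_pr : (I →₀ ℤ) →ₗ[ℤ] (I →₀ ℤ) :=
  R.cc_S.subtype ∘ₗ Submodule.projectionOnto R.cc_S R.cc_N R.cc_isCompl

theorem cc_pr_mem (z : I →₀ ℤ) : R.cc_pr z ∈ R.cc_S := by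
  simp [cc_pr]

theorem cc_pr_of_mem {z : I →₀ ℤ} (h : z ∈ R.cc_S) : R.cc_pr z = z := by
  have := Submodule.projectionOnto_apply_left R.cc_isCompl ⟨z, h⟩
  simp only [cc_pr, LinearMap.comp_apply, Submodule.subtype_apply]
  rw [this]

theorem cc_pr_of_memN {z : I →₀ ℤ} (h : z ∈ R.cc_N) : R.cc_pr z = 0 := by
  have := Submodule.projectionOnto_apply_right R.cc_isCompl ⟨z, h⟩
  simp only [cc_pr, LinearMap.comp_apply, Submodule.subtype_apply]
  rw [this]
  simp

theorem cc_sub_pr_mem (z : I →₀ ℤ) : z - R.cc_pr z ∈ R.cc_N := by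
  obtain ⟨c, hc, hn⟩ := R.h1 z
  have e : R.cc_pr z = c := by
    have : z = c + (z - c) := by simp
    rw [this, map_add, R.cc_pr_of_mem hc, R.cc_pr_of_memN hn, add_zero]
  rw [e]
  exact hn

theorem cc_d_memN {z : I →₀ ℤ} (h : z ∈ R.cc_N) : R.d z ∈ R.cc_N := by
  obtain ⟨a, ha, b, hb, rfl⟩ := Submodule.mem_sup.1 h
  obtain ⟨b', _, rfl⟩ := Submodule.mem_map.1 hb
  rw [map_add, R.dd, add_zero]
  exact Submodule.mem_sup_right (Submodule.mem_map_of_mem ha)

theorem cc_pr_d_pr (z : I →₀ ℤ) : R.cc_pr (R.d (R.cc_pr z)) = R.cc_pr (R.d z) := by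
  have h := R.cc_pr_of_memN (R.cc_d_memN (R.cc_sub_pr_mem z))
  rw [map_sub, map_sub, sub_eq_zero] at h
  exact h.symm

/-! ### Grading -/

/-- The homogeneous component. -/
noncomputable def cc_hom (k : ℕ) : (I →₀ ℤ) →ₗ[ℤ] (I →₀ ℤ) :=
  Finsupp.linearCombination ℤ fun c => if R.deg c = k then Finsupp.single c 1 else 0

open Classical in
theorem cc_hom_apply (k : ℕ) (z : I →₀ ℤ) (c : I) :
    R.cc_hom k z c = if R.deg c = k then z c else 0 := by
  induction z using Finsupp.induction_linear with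
  | zero => simp
  | add z z' h h' =>
    rw [map_add, Finsupp.add_apply, h, h']
    split_ifs <;> simp
  | single c' n =>
    rw [cc_hom, Finsupp.linearCombination_single]
    by_cases h : R.deg c' = k
    · rw [if_pos h]
      by_cases e : c' = c
      · subst e; simp [h]
      · simp [Finsupp.single_apply, e]
    · rw [if_neg h]
      by_cases e : c' = c
      · subst e; simp [h]
      · simp [Finsupp.single_apply, e]

/-- Chains of degree `k`. -/
def cc_IsHom (k : ℕ) (z : I →₀ ℤ) : Prop := ∀ c, z c ≠ 0 → R.deg c = k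

theorem cc_hom_eq {k : ℕ} {z : I →₀ ℤ} (h : R.cc_IsHom k z) : R.cc_hom k z = z := by
  ext c
  rw [cc_hom_apply]
  by_cases e : z c = 0
  · simp [e]
  · rw [if_pos (h c e)]

theorem cc_isHom_hom (k : ℕ) (z : I →₀ ℤ) : R.cc_IsHom k (R.cc_hom k z) := by
  intro c h
  rw [cc_hom_apply] at h
  by_contra hc
  rw [if_neg hc] at h
  exact h rfl

theorem cc_hom_mem_supported {A : Set I} {z : I →₀ ℤ} (h : z ∈ Finsupp.supported ℤ ℤ A) (k : ℕ) :
    R.cc_hom k z ∈ Finsupp.supported ℤ ℤ A := by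
  rw [Finsupp.mem_supported'] at h ⊢
  intro c hc
  rw [cc_hom_apply, h c hc]
  simp

theorem cc_hom_d (k : ℕ) (z : I →₀ ℤ) : R.cc_hom k (R.d z) = R.d (R.cc_hom (k + 1) z) := by
  induction z using Finsupp.induction_linear with
  | zero => simp
  | add z z' h h' => rw [map_add, map_add, h, h', map_add, map_add]
  | single c n =>
    have e : Finsupp.single c n = n • Finsupp.single c (1 : ℤ) := by simp
    rw [e]
    simp only [map_smul]
    congr 1
    ext c'
    rw [cc_hom_apply]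
    by_cases h : R.deg c = k + 1
    · have e1 : R.cc_hom (k + 1) (Finsupp.single c 1) = Finsupp.single c 1 := by
        apply R.cc_hom_eq
        intro c'' h''
        by_cases e : c = c''
        · rw [← e]; exact h
        · simp [Finsupp.single_apply, e] at h''
      rw [e1]
      by_cases h' : R.d (Finsupp.single c 1) c' = 0
      · simp [h']
      · have := R.hdeg c c' h'
        rw [if_pos (by omega)]
    · have e1 : R.cc_hom (k + 1) (Finsupp.single c (1 : ℤ)) = 0 := by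
        rw [cc_hom, Finsupp.linearCombination_single, if_neg h, smul_zero]
      rw [e1, map_zero]
      by_cases h' : R.d (Finsupp.single c 1) c' = 0
      · simp [h']
      · have := R.hdeg c c' h'
        rw [if_neg (by omega)]
        rfl

theorem cc_hom_memN {z : I →₀ ℤ} (h : z ∈ R.cc_N) (k : ℕ) : R.cc_hom k z ∈ R.cc_N := by
  obtain ⟨a, ha, b, hb, rfl⟩ := Submodule.mem_sup.1 h
  obtain ⟨b', hb', rfl⟩ := Submodule.mem_map.1 hb
  rw [map_add, R.cc_hom_d]
  exact Submodule.add_mem _ (Submodule.mem_sup_left (R.cc_hom_mem_supported ha k))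
    (Submodule.mem_sup_right (Submodule.mem_map_of_mem (R.cc_hom_mem_supported hb' _)))

theorem cc_hom_pr (k : ℕ) (z : I →₀ ℤ) : R.cc_hom k (R.cc_pr z) = R.cc_pr (R.cc_hom k z) := by
  have e : R.cc_hom k z = R.cc_hom k (R.cc_pr z) + R.cc_hom k (z - R.cc_pr z) := by
    rw [← map_add]; simp
  rw [e, map_add, R.cc_pr_of_mem (R.cc_hom_mem_supported (R.cc_pr_mem z) k),
    R.cc_pr_of_memN (R.cc_hom_memN (R.cc_sub_pr_mem z) k), add_zero]

theorem cc_isHom_sub {k : ℕ} {z z' : I →₀ ℤ} (h : R.cc_IsHom k z) (h' : R.cc_IsHom k z') :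
    R.cc_IsHom k (z - z') := by
  intro c hc
  by_contra hne
  have e1 : z c = 0 := by
    by_contra h1
    exact hne (h c h1)
  have e2 : z' c = 0 := by
    by_contra h1
    exact hne (h' c h1)
  apply hc
  simp [e1, e2]

theorem cc_isHom_pr {k : ℕ} {z : I →₀ ℤ} (h : R.cc_IsHom k z) : R.cc_IsHom k (R.cc_pr z) := by
  rw [← R.cc_hom_eq h, ← R.cc_hom_pr]
  exact R.cc_isHom_hom k _

theorem cc_isHom_d {k : ℕ} {z : I →₀ ℤ} (h : R.cc_IsHom (k + 1) z) : R.cc_IsHom k (R.d z) := by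
  rw [← R.cc_hom_eq h, ← R.cc_hom_d]
  exact R.cc_isHom_hom k _

theorem cc_d_of_isHom_zero {z : I →₀ ℤ} (h : R.cc_IsHom 0 z) : R.d z = 0 := by
  rw [← R.cc_hom_eq h]
  induction z using Finsupp.induction_linear with
  | zero => simp
  | add z z' _ _ =>
    -- reduce to single cells
    clear h
    have key : ∀ z : I →₀ ℤ, R.d (R.cc_hom 0 z) = 0 := by
      intro z
      induction z using Finsupp.induction_linear with
      | zero => simp
      | add z z' h h' => rw [map_add, map_add, h, h', add_zero]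
      | single c n =>
        rw [cc_hom, Finsupp.linearCombination_single]
        by_cases hc : R.deg c = 0
        · rw [if_pos hc, map_smul]
          have : R.d (Finsupp.single c 1) = 0 := by
            ext c'
            by_contra hne
            have := R.hdeg c c' hne
            omega
          rw [this, smul_zero]
        · rw [if_neg hc]; simp
    exact key _
  | single c n =>
    rw [cc_hom, Finsupp.linearCombination_single]
    by_cases hc : R.deg c = 0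
    · rw [if_pos hc, map_smul]
      have : R.d (Finsupp.single c 1) = 0 := by
        ext c'
        by_contra hne
        have := R.hdeg c c' hne
        omega
      rw [this, smul_zero]
    · rw [if_neg hc]; simp

/-! ### The complex of critical cells -/

/-- The critical cells of degree `k`. -/
def cc_X (k : ℕ) : Type u := {c : I // c ∈ R.C ∧ R.deg c = k}

instance (k : ℕ) : MulAction G (R.cc_X k) where
  smul g c := ⟨g • c.1, R.gC g _ c.2.1, by rw [R.gdeg]; exact c.2.2⟩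
  one_smul c := Subtype.ext (one_smul G c.1)
  mul_smul g h c := Subtype.ext (mul_smul g h c.1)

theorem cc_X_smul_val (k : ℕ) (g : G) (c : R.cc_X k) : (g • c).1 = g • c.1 := rfl

/-- The inclusion of chains on critical cells. -/
noncomputable def cc_inc (k : ℕ) : (R.cc_X k →₀ ℤ) →ₗ[ℤ] (I →₀ ℤ) :=
  Finsupp.lmapDomain ℤ ℤ fun c : R.cc_X k => c.1

theorem cc_inc_def (k : ℕ) (z : R.cc_X k →₀ ℤ) :
    R.cc_inc k z = z.mapDomain fun c : R.cc_X k => c.1 := rfl

/-- The restriction of chains to critical cells. -/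
noncomputable def cc_res (k : ℕ) : (I →₀ ℤ) →ₗ[ℤ] (R.cc_X k →₀ ℤ) :=
  Finsupp.lsubtypeDomain {c : I | c ∈ R.C ∧ R.deg c = k}

theorem cc_res_apply (k : ℕ) (z : I →₀ ℤ) (c : R.cc_X k) : R.cc_res k z c = z c.1 := rfl

theorem cc_inc_apply (k : ℕ) (z : R.cc_X k →₀ ℤ) (c : R.cc_X k) : R.cc_inc k z c.1 = z c :=
  Finsupp.mapDomain_apply Subtype.val_injective z c

theorem cc_inc_apply_of_notMem (k : ℕ) (z : R.cc_X k →₀ ℤ) (c : I) (h : ¬ (c ∈ R.C ∧ R.deg c = k)) :
    R.cc_inc k z c = 0 := by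
  rw [cc_inc_def]
  apply Finsupp.mapDomain_of_notMem_range
  rintro ⟨c', rfl⟩
  exact h c'.2

theorem cc_res_inc (k : ℕ) (z : R.cc_X k →₀ ℤ) : R.cc_res k (R.cc_inc k z) = z := by
  ext c
  rw [cc_res_apply, cc_inc_apply]

theorem cc_inc_res (k : ℕ) (z : I →₀ ℤ) (h : z ∈ R.cc_S) (h' : R.cc_IsHom k z) :
    R.cc_inc k (R.cc_res k z) = z := by
  ext c
  by_cases hc : c ∈ R.C ∧ R.deg c = k
  · exact R.cc_inc_apply k _ ⟨c, hc⟩
  · rw [R.cc_inc_apply_of_notMem k _ c hc]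
    by_contra hne
    have hne' : z c ≠ 0 := fun e => hne e.symm
    apply hc
    refine ⟨?_, h' c hne'⟩
    by_contra hcC
    exact hne' ((Finsupp.mem_supported' ℤ z).1 h c hcC)

theorem cc_inc_mem (k : ℕ) (z : R.cc_X k →₀ ℤ) : R.cc_inc k z ∈ R.cc_S := by
  unfold cc_S
  rw [Finsupp.mem_supported']
  intro c hc
  exact R.cc_inc_apply_of_notMem k z c (fun h => hc h.1)

theorem cc_isHom_inc (k : ℕ) (z : R.cc_X k →₀ ℤ) : R.cc_IsHom k (R.cc_inc k z) := by
  intro c hc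
  by_contra h
  exact hc (R.cc_inc_apply_of_notMem k z c (fun h' => h h'.2))

theorem cc_inc_injective (k : ℕ) : Function.Injective (R.cc_inc k) := by
  intro z z' h
  rw [← R.cc_res_inc k z, h, R.cc_res_inc]

/-- The differential of the complex of critical cells. -/
noncomputable def cc_dX (k : ℕ) : (R.cc_X (k + 1) →₀ ℤ) →ₗ[ℤ] (R.cc_X k →₀ ℤ) :=
  R.cc_res k ∘ₗ R.cc_pr ∘ₗ R.d ∘ₗ R.cc_inc (k + 1)

theorem cc_inc_dX (k : ℕ) (z : R.cc_X (k + 1) →₀ ℤ) :
    R.cc_inc k (R.cc_dX k z) = R.cc_pr (R.d (R.cc_inc (k + 1) z)) := by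
  apply R.cc_inc_res
  · exact R.cc_pr_mem _
  · exact R.cc_isHom_pr (R.cc_isHom_d (R.cc_isHom_inc _ _))

theorem cc_dX_dX (k : ℕ) (z : R.cc_X (k + 2) →₀ ℤ) : R.cc_dX k (R.cc_dX (k + 1) z) = 0 := by
  apply R.cc_inc_injective
  rw [cc_inc_dX, cc_inc_dX, cc_pr_d_pr, R.dd, map_zero, map_zero]

/-- The augmentation on all chains. -/
noncomputable def cc_aug : (I →₀ ℤ) →ₗ[ℤ] ℤ :=
  Finsupp.linearCombination ℤ fun c : I => if R.deg c = 0 then (1 : ℤ) else 0

theorem cc_aug_inc (z : R.cc_X 0 →₀ ℤ) : R.cc_aug (R.cc_inc 0 z) = sumCoeff (R.cc_X 0) z := by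
  induction z using Finsupp.induction_linear with
  | zero => simp
  | add z z' h h' => rw [map_add, map_add, h, h', map_add]
  | single c n =>
    rw [cc_inc_def, Finsupp.mapDomain_single, cc_aug,
      Finsupp.linearCombination_single, if_pos c.2.2]
    simp [sumCoeff]

/-- Exactness in degree zero. -/
theorem cc_exact_zero (z : R.cc_X 0 →₀ ℤ) : sumCoeff (R.cc_X 0) z = 0 ↔ ∃ y, R.cc_dX 0 y = z := by
  rw [← cc_aug_inc]
  constructor
  · intro h
    obtain ⟨y, hy⟩ := R.hconn (R.cc_inc 0 z) (R.cc_isHom_inc 0 z) h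
    refine ⟨R.cc_res 1 (R.cc_pr (R.cc_hom 1 y)), ?_⟩
    apply R.cc_inc_injective
    rw [cc_inc_dX, cc_inc_res _ _ _ (R.cc_pr_mem _) (R.cc_isHom_pr (R.cc_isHom_hom _ _)),
      cc_pr_d_pr, ← R.cc_hom_d, hy, R.cc_hom_eq (R.cc_isHom_inc 0 z),
      R.cc_pr_of_mem (R.cc_inc_mem _ _)]
  · rintro ⟨y, rfl⟩
    rw [cc_inc_dX]
    have h1 : R.cc_aug (R.d (R.cc_inc 1 y)) = 0 := R.haug _
    have hn := R.cc_sub_pr_mem (R.d (R.cc_inc 1 y))
    have hh : R.cc_IsHom 0 (R.d (R.cc_inc 1 y) - R.cc_pr (R.d (R.cc_inc 1 y))) := by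
      have e1 := R.cc_isHom_d (R.cc_isHom_inc 1 y)
      have e2 := R.cc_isHom_pr e1
      exact R.cc_isHom_sub e1 e2
    obtain ⟨y', _, hy'⟩ := R.h3 _ hn (R.cc_d_of_isHom_zero hh)
    have h2 : R.cc_aug (R.d y') = 0 := R.haug _
    rw [hy', map_sub, h1, zero_sub, neg_eq_zero] at h2
    exact h2

/-! ### Equivariance -/

theorem cc_smul_mem_supported {A : Set I} (hA : ∀ (g : G) c, c ∈ A → g • c ∈ A) (g : G)
    {z : I →₀ ℤ} (h : z ∈ Finsupp.supported ℤ ℤ A) :
    sm g z ∈ Finsupp.supported ℤ ℤ A := by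
  rw [Finsupp.mem_supported'] at h ⊢
  intro c hc
  rw [sm_apply]
  apply h
  intro hA'
  exact hc (by have := hA g _ hA'; rwa [smul_inv_smul] at this)

theorem cc_smul_memN (g : G) {z : I →₀ ℤ} (h : z ∈ R.cc_N) : sm g z ∈ R.cc_N := by
  obtain ⟨a, ha, b, hb, rfl⟩ := Submodule.mem_sup.1 h
  obtain ⟨b', hb', rfl⟩ := Submodule.mem_map.1 hb
  rw [map_add, ← R.gd]
  exact Submodule.add_mem _ (Submodule.mem_sup_left (cc_smul_mem_supported R.gD g ha))
    (Submodule.mem_sup_right (Submodule.mem_map_of_mem (cc_smul_mem_supported R.gD g hb')))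

theorem cc_pr_smul (g : G) (z : I →₀ ℤ) : R.cc_pr (sm g z) = sm g (R.cc_pr z) := by
  have e : sm g z = sm g (R.cc_pr z) + sm g (z - R.cc_pr z) := by
    rw [← map_add]; simp
  rw [e, map_add, R.cc_pr_of_mem (cc_smul_mem_supported R.gC g (R.cc_pr_mem z)),
    R.cc_pr_of_memN (R.cc_smul_memN g (R.cc_sub_pr_mem z)), add_zero]

theorem cc_inc_smul (k : ℕ) (g : G) (z : R.cc_X k →₀ ℤ) :
    R.cc_inc k (sm g z) = sm g (R.cc_inc k z) := by
  rw [sm_def, sm_def, cc_inc_def, cc_inc_def, ← Finsupp.mapDomain_comp, ← Finsupp.mapDomain_comp]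
  rfl

theorem cc_dX_smul (k : ℕ) (g : G) (z : R.cc_X (k + 1) →₀ ℤ) :
    R.cc_dX k (sm g z) = sm g (R.cc_dX k z) := by
  apply R.cc_inc_injective
  rw [cc_inc_dX, cc_inc_smul, R.gd, cc_pr_smul, cc_inc_smul, cc_inc_dX]

theorem cc_isHom_smul {k : ℕ} {z : I →₀ ℤ} (g : G) (h : R.cc_IsHom k z) :
    R.cc_IsHom k (sm g z) := by
  intro c hc
  rw [sm_apply] at hc
  have := h _ hc
  rwa [R.gdeg] at this

theorem cc_isHom_add {k : ℕ} {z z' : I →₀ ℤ} (h : R.cc_IsHom k z) (h' : R.cc_IsHom k z') :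
    R.cc_IsHom k (z + z') := by
  intro c hc
  by_contra hne
  have e1 : z c = 0 := by
    by_contra h1
    exact hne (h c h1)
  have e2 : z' c = 0 := by
    by_contra h1
    exact hne (h' c h1)
  apply hc
  simp [e1, e2]

theorem cc_isHom_zsmul {k : ℕ} {z : I →₀ ℤ} (n : ℤ) (h : R.cc_IsHom k z) :
    R.cc_IsHom k (n • z) := by
  intro c hc
  apply h
  intro e
  apply hc
  rw [Finsupp.smul_apply, e, smul_zero]

theorem cc_free (k : ℕ) (g : G) (x : R.cc_X k) (h : g • x = x) : g = 1 :=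
  R.free g x.1 (congrArg Subtype.val h)

theorem cc_finite (k : ℕ) : Finite (MulAction.orbitRel.Quotient G (R.cc_X k)) := by
  classical
  obtain ⟨S, hS⟩ := R.fin k
  let T : Set (R.cc_X k) := {c | c.1 ∈ S}
  have hT : Finite T := by
    have : Function.Injective (fun c : T => (⟨c.1.1, c.2⟩ : S)) := by
      intro a b h
      have h' : a.1.1 = b.1.1 := congrArg (fun t : S => t.1) h
      exact Subtype.ext (Subtype.ext h')
    exact Finite.of_injective _ this
  refine Finite.of_surjective (fun c : T => (Quotient.mk (MulAction.orbitRel G (R.cc_X k)) c.1)) ?_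
  intro q
  induction q using Quotient.inductionOn with
  | h c =>
    obtain ⟨g, hg⟩ := hS c.1 c.2.1 c.2.2
    refine ⟨⟨g • c, hg⟩, ?_⟩
    apply Quotient.sound
    show MulAction.orbitRel G (R.cc_X k) (g • c) c
    rw [MulAction.orbitRel_apply]
    exact ⟨g, rfl⟩

/-- equivariant choice on a free `G`-set -/
theorem cc_equivariant_choice {X : Type u} [MulAction G X] (hfree : ∀ (g : G) (x : X), g • x = x → g = 1)
    (Q : X → (I →₀ ℤ) → Prop) (hQ : ∀ x, ∃ z, Q x z) (hQg : ∀ (g : G) x z, Q x z → Q (g • x) (sm g z)) :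
    ∃ F : X → (I →₀ ℤ), (∀ x, Q x (F x)) ∧ ∀ (g : G) x, F (g • x) = sm g (F x) := by
  classical
  choose z hz using hQ
  let rep : X → X := fun x => (Quotient.mk (MulAction.orbitRel G X) x).out
  have hrep : ∀ x, ∃ g : G, g • rep x = x := by
    intro x
    have h1 : MulAction.orbitRel G X x (rep x) := by
      apply Quotient.exact
      show Quotient.mk _ x = Quotient.mk _ _
      exact (Quotient.out_eq _).symm
    rw [MulAction.orbitRel_apply] at h1
    exact h1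
  choose γ hγ using hrep
  have hrepg : ∀ (g : G) x, rep (g • x) = rep x := by
    intro g x
    have : (Quotient.mk (MulAction.orbitRel G X) (g • x)) = Quotient.mk (MulAction.orbitRel G X) x := by
      apply Quotient.sound
      show MulAction.orbitRel G X (g • x) x
      rw [MulAction.orbitRel_apply]
      exact ⟨g, rfl⟩
    show (Quotient.mk (MulAction.orbitRel G X) (g • x)).out = _
    rw [this]
  have hγg : ∀ (g : G) x, γ (g • x) = g * γ x := by
    intro g x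
    have h1 : γ (g • x) • rep x = (g * γ x) • rep x := by
      rw [mul_smul, hγ, ← hrepg g x, hγ]
    have h2 : ((g * γ x)⁻¹ * γ (g • x)) • rep x = rep x := by
      rw [mul_smul, h1, inv_smul_smul]
    have := hfree _ _ h2
    rw [inv_mul_eq_one] at this
    exact this.symm
  refine ⟨fun x => sm (γ x) (z (rep x)), ?_, ?_⟩
  · intro x
    have := hQg (γ x) _ _ (hz (rep x))
    rwa [hγ] at this
  · intro g x
    show sm (γ (g • x)) (z (rep (g • x))) = sm g (sm (γ x) (z (rep x)))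
    rw [hrepg, hγg, sm_mul]

/-- The properties of the lifts `j k`. -/
structure cc_J (k : ℕ) (j : (R.cc_X k →₀ ℤ) →ₗ[ℤ] (I →₀ ℤ)) : Prop where
  hom : ∀ z, R.cc_IsHom k (j z)
  pr : ∀ z, R.cc_pr (j z) = R.cc_inc k z
  sm : ∀ (g : G) z, j (sm g z) = sm g (j z)
  cyc : ∀ z : R.cc_X (k + 1) →₀ ℤ, R.d (j (R.cc_dX k z)) = 0

theorem cc_J_zero : R.cc_J 0 (R.cc_inc 0) where
  hom z := R.cc_isHom_inc 0 z
  pr z := R.cc_pr_of_mem (R.cc_inc_mem 0 z)
  sm g z := R.cc_inc_smul 0 g z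
  cyc _ := R.cc_d_of_isHom_zero (R.cc_isHom_inc 0 _)

theorem cc_J_succ (k : ℕ) (j : (R.cc_X k →₀ ℤ) →ₗ[ℤ] (I →₀ ℤ)) (hj : R.cc_J k j) :
    ∃ j' : (R.cc_X (k + 1) →₀ ℤ) →ₗ[ℤ] (I →₀ ℤ), R.cc_J (k + 1) j' ∧
      ∀ z, R.d (j' z) = j (R.cc_dX k z) := by
  classical
  obtain ⟨F, hF, hFg⟩ := cc_equivariant_choice (G := G) (I := I) (X := R.cc_X (k + 1))
    (R.cc_free (k + 1))
    (fun c z => R.cc_IsHom (k + 1) z ∧ R.cc_pr z = R.cc_inc (k + 1) (Finsupp.single c 1) ∧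
      R.d z = j (R.cc_dX k (Finsupp.single c 1)))
    (by
      intro c
      set e := R.cc_inc (k + 1) (Finsupp.single c 1) with he
      set w := R.d e - j (R.cc_dX k (Finsupp.single c 1)) with hw
      have hwN : w ∈ R.cc_N := by
        have h1 : R.cc_pr w = 0 := by
          rw [hw, map_sub, hj.pr, cc_inc_dX, sub_self]
        have := R.cc_sub_pr_mem w
        rwa [h1, sub_zero] at this
      have hwd : R.d w = 0 := by
        rw [hw, map_sub, R.dd, hj.cyc, sub_zero]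
      have hwh : R.cc_IsHom k w := R.cc_isHom_sub (R.cc_isHom_d (R.cc_isHom_inc _ _)) (hj.hom _)
      obtain ⟨y, hy, hyw⟩ := R.h3 w hwN hwd
      have hyN : R.cc_hom (k + 1) y ∈ R.cc_N := R.cc_hom_memN (Submodule.mem_sup_left hy) _
      refine ⟨e - R.cc_hom (k + 1) y, R.cc_isHom_sub (R.cc_isHom_inc _ _) (R.cc_isHom_hom _ _), ?_, ?_⟩
      · rw [map_sub, R.cc_pr_of_memN hyN, sub_zero, he, R.cc_pr_of_mem (R.cc_inc_mem _ _)]
      · rw [map_sub, ← R.cc_hom_d, hyw, R.cc_hom_eq hwh, hw]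
        abel)
    (by
      rintro g c z ⟨h1, h2, h3⟩
      have hs : (Finsupp.single (g • c) 1 : R.cc_X (k + 1) →₀ ℤ) = sm g (Finsupp.single c 1) := by
        rw [sm_single]
      refine ⟨R.cc_isHom_smul g h1, ?_, ?_⟩
      · rw [cc_pr_smul, h2, hs, cc_inc_smul]
      · rw [R.gd, h3, hs, cc_dX_smul, hj.sm])
  let j' : (R.cc_X (k + 1) →₀ ℤ) →ₗ[ℤ] (I →₀ ℤ) := Finsupp.linearCombination ℤ F
  have hj's : ∀ c (n : ℤ), j' (Finsupp.single c n) = n • F c := fun c n =>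
    Finsupp.linearCombination_single ℤ n c
  have e1 : ∀ (c : R.cc_X (k + 1)) (n : ℤ),
      (Finsupp.single c n : R.cc_X (k + 1) →₀ ℤ) = n • Finsupp.single c 1 := by
    intro c n; simp
  have hd : ∀ z, R.d (j' z) = j (R.cc_dX k z) := by
    intro z
    induction z using Finsupp.induction_linear with
    | zero => simp
    | add z z' h h' => rw [map_add, map_add, h, h', map_add, map_add]
    | single c n =>
      rw [hj's, map_smul, (hF c).2.2, e1 c n, map_smul, map_smul]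
  refine ⟨j', ⟨?_, ?_, ?_, ?_⟩, hd⟩
  · intro z
    induction z using Finsupp.induction_linear with
    | zero => rw [map_zero]; intro c hc; exact absurd rfl hc
    | add z z' h h' => rw [map_add]; exact R.cc_isHom_add h h'
    | single c n => rw [hj's]; exact R.cc_isHom_zsmul n (hF c).1
  · intro z
    induction z using Finsupp.induction_linear with
    | zero => simp
    | add z z' h h' => rw [map_add, map_add, h, h', map_add]
    | single c n =>
      rw [hj's, map_smul, (hF c).2.1, e1 c n, map_smul]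
  · intro g z
    induction z using Finsupp.induction_linear with
    | zero => simp
    | add z z' h h' => rw [map_add, map_add, h, h', map_add, map_add]
    | single c n =>
      rw [sm_single, hj's, hj's, hFg, map_smul]
  · intro z
    rw [hd, R.cc_dX_dX, map_zero]

/-- The lifts. -/
noncomputable def cc_j' : ∀ k, {j : (R.cc_X k →₀ ℤ) →ₗ[ℤ] (I →₀ ℤ) // R.cc_J k j}
  | 0 => ⟨R.cc_inc 0, R.cc_J_zero⟩
  | (k + 1) => ⟨(R.cc_J_succ k (cc_j' k).1 (cc_j' k).2).choose,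
      (R.cc_J_succ k (cc_j' k).1 (cc_j' k).2).choose_spec.1⟩

/-- The lifts. -/
noncomputable def cc_j (k : ℕ) : (R.cc_X k →₀ ℤ) →ₗ[ℤ] (I →₀ ℤ) := (R.cc_j' k).1

theorem cc_j_zero : R.cc_j 0 = R.cc_inc 0 := rfl

theorem cc_j_spec (k : ℕ) : R.cc_J k (R.cc_j k) := (R.cc_j' k).2

theorem cc_j_d (k : ℕ) (z : R.cc_X (k + 1) →₀ ℤ) :
    R.d (R.cc_j (k + 1) z) = R.cc_j k (R.cc_dX k z) :=
  (R.cc_J_succ k (R.cc_j' k).1 (R.cc_j' k).2).choose_spec.2 z

/-! ### The endomorphism of the critical complex -/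

/-- hypotheses on the endomorphism -/
structure cc_End (S : (I →₀ ℤ) →ₗ[ℤ] (I →₀ ℤ)) : Prop where
  hSd : ∀ z, R.d (S z) = S (R.d z)
  hSg : ∀ (g : G) z, S (sm g z) = sm g (S z)
  hSdeg : ∀ c c', S (Finsupp.single c 1) c' ≠ 0 → R.deg c' = R.deg c
  hS0 : ∀ c, R.deg c = 0 → S (Finsupp.single c 1) = Finsupp.single c 1
  hSk : ∀ k z, (∀ c, z c ≠ 0 → R.deg c = k + 1) → R.d z = 0 → ∃ y, R.d y = S z

variable {S : (I →₀ ℤ) →ₗ[ℤ] (I →₀ ℤ)} (hS : R.cc_End S)

include hS in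
theorem cc_hom_S (k : ℕ) (z : I →₀ ℤ) : R.cc_hom k (S z) = S (R.cc_hom k z) := by
  induction z using Finsupp.induction_linear with
  | zero => simp
  | add z z' h h' => rw [map_add, map_add, h, h', map_add, map_add]
  | single c n =>
    have e : Finsupp.single c n = n • Finsupp.single c (1 : ℤ) := by simp
    rw [e]
    simp only [map_smul]
    congr 1
    ext c'
    rw [cc_hom_apply]
    by_cases h : R.deg c = k
    · have e1 : R.cc_hom k (Finsupp.single c 1) = Finsupp.single c 1 := by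
        apply R.cc_hom_eq
        intro c'' h''
        by_cases e : c = c''
        · rw [← e]; exact h
        · simp [e] at h''
      rw [e1]
      by_cases h' : S (Finsupp.single c 1) c' = 0
      · simp [h']
      · have := hS.hSdeg c c' h'
        rw [if_pos (by omega)]
    · have e1 : R.cc_hom k (Finsupp.single c (1 : ℤ)) = 0 := by
        rw [cc_hom, Finsupp.linearCombination_single, if_neg h, smul_zero]
      rw [e1, map_zero]
      by_cases h' : S (Finsupp.single c 1) c' = 0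
      · simp [h']
      · have := hS.hSdeg c c' h'
        rw [if_neg (by omega)]
        rfl

include hS in
theorem cc_isHom_S {k : ℕ} {z : I →₀ ℤ} (h : R.cc_IsHom k z) : R.cc_IsHom k (S z) := by
  rw [← R.cc_hom_eq h, ← R.cc_hom_S hS]
  exact R.cc_isHom_hom k _

/-- The endomorphism on critical cells. -/
noncomputable def cc_T (S : (I →₀ ℤ) →ₗ[ℤ] (I →₀ ℤ)) (k : ℕ) :
    (R.cc_X k →₀ ℤ) →ₗ[ℤ] (R.cc_X k →₀ ℤ) :=
  R.cc_res k ∘ₗ R.cc_pr ∘ₗ S ∘ₗ R.cc_j k

include hS in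
theorem cc_inc_T (k : ℕ) (z : R.cc_X k →₀ ℤ) :
    R.cc_inc k (R.cc_T S k z) = R.cc_pr (S (R.cc_j k z)) := by
  apply R.cc_inc_res
  · exact R.cc_pr_mem _
  · exact R.cc_isHom_pr (R.cc_isHom_S hS ((R.cc_j_spec k).hom z))

include hS in
theorem cc_T_dX (k : ℕ) (z : R.cc_X (k + 1) →₀ ℤ) :
    R.cc_dX k (R.cc_T S (k + 1) z) = R.cc_T S k (R.cc_dX k z) := by
  apply R.cc_inc_injective
  rw [cc_inc_dX, R.cc_inc_T hS, R.cc_pr_d_pr, hS.hSd, R.cc_j_d, R.cc_inc_T hS]

include hS in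
theorem cc_T_smul (k : ℕ) (g : G) (z : R.cc_X k →₀ ℤ) :
    R.cc_T S k (sm g z) = sm g (R.cc_T S k z) := by
  apply R.cc_inc_injective
  rw [R.cc_inc_T hS, (R.cc_j_spec k).sm, hS.hSg, R.cc_pr_smul, cc_inc_smul, R.cc_inc_T hS]

include hS in
theorem cc_T_zero (z : R.cc_X 0 →₀ ℤ) : R.cc_T S 0 z = z := by
  apply R.cc_inc_injective
  rw [R.cc_inc_T hS, cc_j_zero]
  have h1 : S (R.cc_inc 0 z) = R.cc_inc 0 z := by
    induction z using Finsupp.induction_linear with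
    | zero => simp
    | add z z' h h' => rw [map_add, map_add, h, h']
    | single c n =>
      have e : (Finsupp.single c n : R.cc_X 0 →₀ ℤ) = n • Finsupp.single c 1 := by simp
      have e2 : R.cc_inc 0 (Finsupp.single c 1) = Finsupp.single c.1 1 := by
        rw [cc_inc_def, Finsupp.mapDomain_single]
      rw [e, map_smul, map_smul, e2, hS.hS0 c.1 c.2.2]
  rw [h1, R.cc_pr_of_mem (R.cc_inc_mem 0 z)]

include hS in
theorem cc_T_cycle (k : ℕ) (z : R.cc_X (k + 1) →₀ ℤ) (hz : R.cc_dX k z = 0) :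
    ∃ y, R.cc_dX (k + 1) y = R.cc_T S (k + 1) z := by
  have h1 : R.d (R.cc_j (k + 1) z) = 0 := by rw [R.cc_j_d, hz, map_zero]
  obtain ⟨y, hy⟩ := hS.hSk k _ ((R.cc_j_spec (k + 1)).hom z) h1
  have h2 : R.d (R.cc_hom (k + 2) y) = S (R.cc_j (k + 1) z) := by
    rw [← R.cc_hom_d, hy, R.cc_hom_eq (R.cc_isHom_S hS ((R.cc_j_spec (k + 1)).hom z))]
  refine ⟨R.cc_res (k + 2) (R.cc_pr (R.cc_hom (k + 2) y)), ?_⟩
  apply R.cc_inc_injective
  rw [cc_inc_dX, cc_inc_res _ _ _ (R.cc_pr_mem _) (R.cc_isHom_pr (R.cc_isHom_hom _ _)),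
    cc_pr_d_pr, h2, R.cc_inc_T hS]

/-! ### The cone -/

/-- The cells of the cone. -/
def cc_E : ℕ → Type u
  | 0 => R.cc_X 0
  | (k + 1) => R.cc_X (k + 1) ⊕ R.cc_X k

noncomputable instance cc_instE : ∀ k, MulAction G (R.cc_E k)
  | 0 => inferInstanceAs (MulAction G (R.cc_X 0))
  | (k + 1) => inferInstanceAs (MulAction G (R.cc_X (k + 1) ⊕ R.cc_X k))

/-- chains on a disjoint union -/
noncomputable def cc_e (A B : Type u) : (A ⊕ B →₀ ℤ) ≃ₗ[ℤ] (A →₀ ℤ) × (B →₀ ℤ) :=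
  Finsupp.sumFinsuppLEquivProdFinsupp ℤ

theorem cc_e_fst {A B : Type u} (z : A ⊕ B →₀ ℤ) (a : A) : (cc_e A B z).1 a = z (Sum.inl a) := rfl

theorem cc_e_snd {A B : Type u} (z : A ⊕ B →₀ ℤ) (b : B) : (cc_e A B z).2 b = z (Sum.inr b) := rfl

theorem cc_e_smul {A B : Type u} [MulAction G A] [MulAction G B] (g : G) (z : A ⊕ B →₀ ℤ) :
    cc_e A B (sm g z) = (sm g (cc_e A B z).1, sm g (cc_e A B z).2) := by
  apply Prod.ext
  · ext a
    rw [cc_e_fst, sm_apply, sm_apply, cc_e_fst]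
    rfl
  · ext b
    rw [cc_e_snd, sm_apply, sm_apply, cc_e_snd]
    rfl

theorem cc_e_symm_smul {A B : Type u} [MulAction G A] [MulAction G B] (g : G)
    (a : A →₀ ℤ) (b : B →₀ ℤ) :
    (cc_e A B).symm (sm g a, sm g b) = sm g ((cc_e A B).symm (a, b)) := by
  rw [LinearEquiv.symm_apply_eq, cc_e_smul, LinearEquiv.apply_symm_apply]

/-- The differential in degree 0. -/
noncomputable def cc_D0 : (R.cc_X 1 ⊕ R.cc_X 0 →₀ ℤ) →ₗ[ℤ] (R.cc_X 0 →₀ ℤ) :=
  R.cc_dX 0 ∘ₗ LinearMap.fst ℤ _ _ ∘ₗ (cc_e _ _).toLinearMap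

theorem cc_D0_apply (z : R.cc_X 1 ⊕ R.cc_X 0 →₀ ℤ) : R.cc_D0 z = R.cc_dX 0 (cc_e _ _ z).1 := rfl

/-- The differential in positive degrees. -/
noncomputable def cc_D1 (S : (I →₀ ℤ) →ₗ[ℤ] (I →₀ ℤ)) (k : ℕ) :
    (R.cc_X (k + 2) ⊕ R.cc_X (k + 1) →₀ ℤ) →ₗ[ℤ] (R.cc_X (k + 1) ⊕ R.cc_X k →₀ ℤ) :=
  (cc_e _ _).symm.toLinearMap ∘ₗ
    LinearMap.prod
      (R.cc_dX (k + 1) ∘ₗ LinearMap.fst ℤ _ _ +
        (LinearMap.id - R.cc_T S (k + 1)) ∘ₗ LinearMap.snd ℤ _ _)
      (-(R.cc_dX k ∘ₗ LinearMap.snd ℤ _ _)) ∘ₗ (cc_e _ _).toLinearMap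

theorem cc_D1_apply (k : ℕ) (z : R.cc_X (k + 2) ⊕ R.cc_X (k + 1) →₀ ℤ) :
    cc_e _ _ (R.cc_D1 S k z) =
      (R.cc_dX (k + 1) (cc_e _ _ z).1 + ((cc_e _ _ z).2 - R.cc_T S (k + 1) (cc_e _ _ z).2),
        - R.cc_dX k (cc_e _ _ z).2) := by
  show cc_e _ _ ((cc_e _ _).symm _) = _
  rw [LinearEquiv.apply_symm_apply]
  rfl

/-- main algebraic step -/
theorem cc_solve (hS : R.cc_End S) (k : ℕ) (a : R.cc_X (k + 1) →₀ ℤ) (b : R.cc_X k →₀ ℤ)
    (c : R.cc_X (k + 1) →₀ ℤ) (hc : -R.cc_dX k c = b)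
    (ha : R.cc_dX k a + (b - R.cc_T S k b) = 0) :
    ∃ (a' : R.cc_X (k + 2) →₀ ℤ) (b' : R.cc_X (k + 1) →₀ ℤ),
      R.cc_dX (k + 1) a' + (b' - R.cc_T S (k + 1) b') = a ∧ -R.cc_dX k b' = b := by
  set w := a - (c - R.cc_T S (k + 1) c) with hw
  have hwd : R.cc_dX k w = 0 := by
    rw [hw, map_sub, map_sub, R.cc_T_dX hS]
    have h1 : R.cc_dX k c = -b := by rw [← hc, neg_neg]
    rw [h1, map_neg, ← ha]
    abel
  obtain ⟨y, hy⟩ := R.cc_T_cycle hS k w hwd
  refine ⟨y, c + w, ?_, ?_⟩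
  · rw [hy, map_add, hw]
    abel
  · rw [map_add, hwd, add_zero, hc]

theorem cc_dd1 (hS : R.cc_End S) (k : ℕ) (z : R.cc_X (k + 3) ⊕ R.cc_X (k + 2) →₀ ℤ) :
    R.cc_D1 S k (R.cc_D1 S (k + 1) z) = 0 := by
  apply (cc_e _ _).injective
  rw [cc_D1_apply, cc_D1_apply, map_zero]
  apply Prod.ext
  · show R.cc_dX (k + 1) (R.cc_dX (k + 2) _ + (_ - _)) + (-R.cc_dX (k + 1) _ - _) = 0
    rw [map_add, map_sub, R.cc_dX_dX, R.cc_T_dX hS, map_neg]
    abel
  · show -R.cc_dX k (-R.cc_dX (k + 1) _) = 0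
    rw [map_neg, R.cc_dX_dX]
    simp

theorem cc_dd0 (hS : R.cc_End S) (z : R.cc_X 2 ⊕ R.cc_X 1 →₀ ℤ) :
    R.cc_D0 (R.cc_D1 S 0 z) = 0 := by
  rw [cc_D0_apply, cc_D1_apply]
  show R.cc_dX 0 (R.cc_dX 1 _ + (_ - _)) = 0
  rw [map_add, map_sub, R.cc_dX_dX, R.cc_T_dX hS, R.cc_T_zero hS]
  abel

theorem cc_exact1 (hS : R.cc_End S) (k : ℕ) (z : R.cc_X (k + 2) ⊕ R.cc_X (k + 1) →₀ ℤ) :
    R.cc_D1 S k z = 0 ↔ ∃ y, R.cc_D1 S (k + 1) y = z := by
  constructor
  · intro h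
    have h1 := R.cc_D1_apply (S := S) k z
    rw [h, map_zero] at h1
    have ha : R.cc_dX (k + 1) (cc_e _ _ z).1 +
        ((cc_e _ _ z).2 - R.cc_T S (k + 1) (cc_e _ _ z).2) = 0 := (congrArg Prod.fst h1).symm
    have hb : - R.cc_dX k (cc_e _ _ z).2 = 0 := (congrArg Prod.snd h1).symm
    rw [neg_eq_zero] at hb
    obtain ⟨c0, hc0⟩ := R.cc_T_cycle hS k _ hb
    obtain ⟨a', b', h2, h3⟩ := R.cc_solve hS (k + 1) (cc_e _ _ z).1 (cc_e _ _ z).2
      ((cc_e _ _ z).1 - c0) (by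
        rw [map_sub, hc0, neg_sub]
        have : (cc_e _ _ z).2 = R.cc_T S (k + 1) (cc_e _ _ z).2 -
            R.cc_dX (k + 1) (cc_e _ _ z).1 := by
          rw [← sub_eq_zero]
          rw [← ha]
          abel
        exact this.symm) ha
    refine ⟨(cc_e _ _).symm (a', b'), ?_⟩
    apply (cc_e _ _).injective
    rw [cc_D1_apply, LinearEquiv.apply_symm_apply]
    exact Prod.ext h2 h3
  · rintro ⟨y, rfl⟩
    exact R.cc_dd1 hS k y

theorem cc_exact0 (hS : R.cc_End S) (z : R.cc_X 1 ⊕ R.cc_X 0 →₀ ℤ) :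
    (R.cc_D0 z = 0 ∧ sumCoeff _ (cc_e _ _ z).2 = 0) ↔ ∃ y, R.cc_D1 S 0 y = z := by
  constructor
  · rintro ⟨h, h'⟩
    obtain ⟨c0, hc0⟩ := (R.cc_exact_zero _).1 h'
    obtain ⟨a', b', h2, h3⟩ := R.cc_solve hS 0 (cc_e _ _ z).1 (cc_e _ _ z).2
      (-c0) (by rw [map_neg, neg_neg, hc0]) (by
        rw [R.cc_T_zero hS, sub_self, add_zero]
        exact h)
    refine ⟨(cc_e _ _).symm (a', b'), ?_⟩
    apply (cc_e _ _).injective
    rw [cc_D1_apply, LinearEquiv.apply_symm_apply]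
    exact Prod.ext h2 h3
  · rintro ⟨y, rfl⟩
    refine ⟨R.cc_dd0 hS y, ?_⟩
    rw [cc_D1_apply]
    show sumCoeff _ (-R.cc_dX 0 _) = 0
    rw [map_neg, (R.cc_exact_zero _).2 ⟨_, rfl⟩, neg_zero]

theorem cc_D1_smul (hS : R.cc_End S) (k : ℕ) (g : G)
    (z : R.cc_X (k + 2) ⊕ R.cc_X (k + 1) →₀ ℤ) :
    R.cc_D1 S k (sm g z) = sm g (R.cc_D1 S k z) := by
  apply (cc_e _ _).injective
  rw [cc_e_smul, cc_D1_apply, cc_D1_apply, cc_e_smul]
  apply Prod.ext
  · show R.cc_dX (k + 1) (sm g _) + (sm g _ - R.cc_T S (k + 1) (sm g _)) =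
      sm g (R.cc_dX (k + 1) _ + (_ - R.cc_T S (k + 1) _))
    rw [R.cc_dX_smul, R.cc_T_smul hS, map_add, map_sub]
  · show -R.cc_dX k (sm g _) = sm g (-R.cc_dX k _)
    rw [R.cc_dX_smul, map_neg]

theorem cc_D0_smul (g : G) (z : R.cc_X 1 ⊕ R.cc_X 0 →₀ ℤ) :
    R.cc_D0 (sm g z) = sm g (R.cc_D0 z) := by
  rw [cc_D0_apply, cc_D0_apply, cc_e_smul, R.cc_dX_smul]

theorem cc_eta_smul (g : G) (z : R.cc_X 1 ⊕ R.cc_X 0 →₀ ℤ) :
    sumCoeff (R.cc_X 0) (cc_e _ _ (sm g z)).2 = sumCoeff (R.cc_X 0) (cc_e _ _ z).2 := by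
  rw [cc_e_smul]
  exact FPAlg.sumCoeff_mapDomain g _

/-- The differential of the cone. -/
noncomputable def cc_D (S : (I →₀ ℤ) →ₗ[ℤ] (I →₀ ℤ)) :
    ∀ k, (R.cc_E (k + 1) →₀ ℤ) →+ (R.cc_E k →₀ ℤ)
  | 0 => R.cc_D0.toAddMonoidHom
  | (k + 1) => (R.cc_D1 S k).toAddMonoidHom

theorem cc_finite_sum {A B : Type u} [MulAction G A] [MulAction G B]
    (hA : Finite (MulAction.orbitRel.Quotient G A)) (hB : Finite (MulAction.orbitRel.Quotient G B)) :
    Finite (MulAction.orbitRel.Quotient G (A ⊕ B)) := by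
  have f1 : ∀ a a' : A, MulAction.orbitRel G A a a' →
      MulAction.orbitRel G (A ⊕ B) (Sum.inl a) (Sum.inl a') := by
    intro a a' h
    rw [MulAction.orbitRel_apply] at h ⊢
    obtain ⟨g, hg⟩ := h
    exact ⟨g, congrArg Sum.inl hg⟩
  have f2 : ∀ a a' : B, MulAction.orbitRel G B a a' →
      MulAction.orbitRel G (A ⊕ B) (Sum.inr a) (Sum.inr a') := by
    intro a a' h
    rw [MulAction.orbitRel_apply] at h ⊢
    obtain ⟨g, hg⟩ := h
    exact ⟨g, congrArg Sum.inr hg⟩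
  let F : MulAction.orbitRel.Quotient G A ⊕ MulAction.orbitRel.Quotient G B →
      MulAction.orbitRel.Quotient G (A ⊕ B) := fun q => match q with
    | Sum.inl q => Quotient.map' (s₁ := MulAction.orbitRel G A)
        (s₂ := MulAction.orbitRel G (A ⊕ B)) Sum.inl f1 q
    | Sum.inr q => Quotient.map' (s₁ := MulAction.orbitRel G B)
        (s₂ := MulAction.orbitRel G (A ⊕ B)) Sum.inr f2 q
  refine Finite.of_surjective F ?_
  intro q
  induction q using Quotient.inductionOn with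
  | h c =>
    rcases c with a | b
    · exact ⟨Sum.inl (Quotient.mk _ a), rfl⟩
    · exact ⟨Sum.inr (Quotient.mk _ b), rfl⟩

end RedBase

/-- If a complex as in `RedBase` has an equivariant chain endomorphism `S` which is the identity in
degree `0` and zero on the homology in degrees `≥ 1`, then `G` is `FP_n` for all `n`.
Proof. Let `X k` be the critical cells of degree `k`, `dX` the reduced differential
(`dX = res ∘ pr ∘ d ∘ inc`, as in `RedData`; `pr` is the projection onto the critical part, a chain map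
to the complex `(X, dX)`). There are equivariant maps `j k : (X k →₀ ℤ) → (I →₀ ℤ)` into chains of
degree `k` with `d (j z) = j (dX z)`, `pr (j z) = inc z`, and `j 0 = inc`: by recursion, on
representatives of the orbits, `j c = inc c - n` with `n` in the acyclic part and
`d n = d (inc c) - j (dX c)`. Put `S' = res ∘ pr ∘ S ∘ j`, a chain map of `(X, dX)`, the identity in
degree 0 and zero on homology in degrees `≥ 1`, and `θ = 1 - S'`. Apply `typeFP_of_periodic` to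
`E k = X k ⊕ X (k-1)` (`E 0 = X 0`), `d (a, b) = (dX a + θ b, - dX b)`, `η (a, b)` = sum of the
coefficients of `b ∈ X 0`. -/
theorem RedBase.typeFP_of_endo {G : Type w} {I : Type u} [Group G] [MulAction G I]
    (R : RedBase G I) (S : (I →₀ ℤ) →ₗ[ℤ] (I →₀ ℤ)) (hSd : ∀ z, R.d (S z) = S (R.d z))
    (hSg : ∀ (g : G) z, S (sm g z) = sm g (S z))
    (hSdeg : ∀ c c', S (Finsupp.single c 1) c' ≠ 0 → R.deg c' = R.deg c)
    (hS0 : ∀ c, R.deg c = 0 → S (Finsupp.single c 1) = Finsupp.single c 1)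
    (hSk : ∀ k z, (∀ c, z c ≠ 0 → R.deg c = k + 1) → R.d z = 0 → ∃ y, R.d y = S z) (n : ℕ) :
    TypeFP n G := by
  have hS : R.cc_End S := ⟨hSd, hSg, hSdeg, hS0, hSk⟩
  refine typeFP_of_periodic G R.cc_E ?_ ?_ ?_ (R.cc_D S) ?_ ?_
    ((sumCoeff (R.cc_X 0)).comp
      ((LinearMap.snd ℤ _ _ ∘ₗ (RedBase.cc_e (R.cc_X 1) (R.cc_X 0)).toLinearMap).toAddMonoidHom))
    ?_ ?_ ?_ ?_ n
  · intro k g x h
    cases k with
    | zero => exact R.cc_free 0 g x h
    | succ k =>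
      rcases x with a | b
      · exact R.cc_free (k + 1) g a (Sum.inl_injective h)
      · exact R.cc_free k g b (Sum.inr_injective h)
  · intro k
    cases k with
    | zero => exact R.cc_finite 0
    | succ k => exact RedBase.cc_finite_sum (R.cc_finite (k + 1)) (R.cc_finite k)
  · obtain ⟨c, hc, hc'⟩ := R.ne
    exact ⟨(⟨c, hc, hc'⟩ : R.cc_X 0)⟩
  · intro k g z
    cases k with
    | zero => exact R.cc_D0_smul g z
    | succ k => exact R.cc_D1_smul hS k g z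
  · intro z
    have h1 := R.cc_exact_zero z
    constructor
    · intro h
      obtain ⟨y, hy⟩ := h1.1 h
      refine ⟨(RedBase.cc_e _ _).symm (y, 0), ?_⟩
      show R.cc_dX 0 (RedBase.cc_e _ _ ((RedBase.cc_e _ _).symm (y, 0))).1 = z
      rw [LinearEquiv.apply_symm_apply]
      exact hy
    · rintro ⟨y, hy⟩
      exact h1.2 ⟨_, hy⟩
  · intro g z
    exact R.cc_eta_smul g z
  · obtain ⟨c, hc, hc'⟩ := R.ne
    refine ⟨(RedBase.cc_e (R.cc_X 1) (R.cc_X 0)).symm
      (0, Finsupp.single (⟨c, hc, hc'⟩ : R.cc_X 0) 1), ?_, ?_⟩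
    · show R.cc_dX 0 (RedBase.cc_e _ _ ((RedBase.cc_e _ _).symm _)).1 = 0
      rw [LinearEquiv.apply_symm_apply]
      exact map_zero _
    · show sumCoeff (R.cc_X 0) (RedBase.cc_e _ _ ((RedBase.cc_e _ _).symm _)).2 = 1
      rw [LinearEquiv.apply_symm_apply]
      exact FPAlg.sumCoeff_single _ _ _
  · intro z
    exact R.cc_exact0 hS z
  · intro k z
    exact R.cc_exact1 hS k z

end Pool.Agent.DG
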