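import Pool.Agent.MP_cff99f_al.Gen.Chain
import Pool.Agent.MP_cff99f_al.Reduction
import Pool.Agent.MP_cff99f_al.UnivAcyc

/-!
Block CovIso: the paths of a labelled directed 2-complex form a covering of the Squier complex;
comparison of the chain complexes.
-/

namespace Pool.Agent.DG

universe u v w

variable {α : Type u} {ι : Type v} {P : Pres α ι} {V E : Type w}

namespace Dcx

variable (D : Dcx P V E)

open Classical in
/-- The move of a path along an edge of the Squier complex. -/
noncomputable def mvL (l : List E) (s : SEdge α ι) : List E :=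
  l.take s.pre.length ++
    D.flip s.i s.pos ((l.drop s.pre.length).take (P.side s.i s.pos).length) ++
    l.drop (s.pre.length + (P.side s.i s.pos).length)

theorem covIso_mvL {A m B : List E} {s : SEdge α ι} (h1 : A.map D.lab = s.pre)
    (h2 : m.map D.lab = P.side s.i s.pos) :
    D.mvL (A ++ m ++ B) s = A ++ D.flip s.i s.pos m ++ B := by
  have e1 : s.pre.length = A.length := by rw [← h1, List.length_map]
  have e2 : (P.side s.i s.pos).length = m.length := by rw [← h2, List.length_map]
  unfold mvL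
  rw [e1, e2, List.append_assoc A m B, List.take_left, List.drop_left, List.take_left,
    ← List.drop_drop, List.drop_left, List.drop_left]

theorem mvL_append {A s B : List E} {j : ι} {b : Bool} (hs : s.map D.lab = P.side j b) :
    D.mvL (A ++ s ++ B) ⟨A.map D.lab, j, B.map D.lab, b⟩ = A ++ D.flip j b s ++ B :=
  D.covIso_mvL (s := ⟨A.map D.lab, j, B.map D.lab, b⟩) rfl hs

theorem covIso_split {l : List E} {a b c : List α} (h : l.map D.lab = a ++ b ++ c) :
    ∃ A m B, l = A ++ m ++ B ∧ A.map D.lab = a ∧ m.map D.lab = b ∧ B.map D.lab = c := by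
  rw [List.map_eq_append_iff] at h
  obtain ⟨l1, B, rfl, h1, h2⟩ := h
  rw [List.map_eq_append_iff] at h1
  obtain ⟨A, m, rfl, h3, h4⟩ := h1
  exact ⟨A, m, B, rfl, h3, h4, h2⟩

theorem covIso_path_iff {p q : V} {A m B : List E} :
    D.Path p (A ++ m ++ B) q ↔ ∃ r r', D.Path p A r ∧ D.Path r m r' ∧ D.Path r' B q := by
  unfold Path
  rw [pathIn_append]
  constructor
  · rintro ⟨r', h1, h2⟩
    rw [pathIn_append] at h1
    obtain ⟨r, h3, h4⟩ := h1
    exact ⟨r, r', h3, h4, h2⟩
  · rintro ⟨r, r', h1, h2, h3⟩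
    exact ⟨r', pathIn_append.2 ⟨r, h1, h2⟩, h3⟩

theorem covIso_flip_path {p q : V} {A m B : List E} {j : ι} {b : Bool}
    (hl : D.Path p (A ++ m ++ B) q) (hm : m.map D.lab = P.side j b) :
    D.Path p (A ++ D.flip j b m ++ B) q := by
  rw [covIso_path_iff] at hl ⊢
  obtain ⟨r, r', h1, h2, h3⟩ := hl
  exact ⟨r, r', h1, D.flip_path j b r m r' h2 hm, h3⟩

theorem mvL_path {p q : V} {l : List E} (hl : D.Path p l q) {s : SEdge α ι}
    (h : s.src P = l.map D.lab) : D.Path p (D.mvL l s) q := by
  obtain ⟨A, m, B, rfl, h1, h2, h3⟩ := D.covIso_split h.symm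
  rw [D.covIso_mvL h1 h2]
  exact D.covIso_flip_path hl h2

open Classical in
/-- The move used in `cov`. -/
noncomputable def covIsoMv (p q : V) (l : {l : List E // D.Path p l q}) (s : SEdge α ι) :
    {l : List E // D.Path p l q} :=
  if h : s.src P = l.1.map D.lab then ⟨D.mvL l.1 s, D.mvL_path l.2 h⟩ else l

theorem covIsoMv_eq {p q : V} {A m B : List E} (hl : D.Path p (A ++ m ++ B) q) {s : SEdge α ι}
    (h1 : A.map D.lab = s.pre) (h2 : m.map D.lab = P.side s.i s.pos) (h3 : B.map D.lab = s.post) :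
    D.covIsoMv p q ⟨A ++ m ++ B, hl⟩ s =
      ⟨A ++ D.flip s.i s.pos m ++ B, D.covIso_flip_path hl h2⟩ := by
  have h : s.src P = (A ++ m ++ B).map D.lab := by
    simp [SEdge.src, h1, h2, h3]
  unfold covIsoMv
  rw [dif_pos h]
  apply Subtype.ext
  exact D.covIso_mvL h1 h2

theorem covIso_flip_lab {p q : V} {A m B : List E} {j : ι} {b : Bool}
    (hl : D.Path p (A ++ m ++ B) q) (hm : m.map D.lab = P.side j b) :
    (D.flip j b m).map D.lab = P.side j (!b) := by
  rw [covIso_path_iff] at hl
  obtain ⟨r, r', h1, h2, h3⟩ := hl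
  exact D.flip_lab j b r m r' h2 hm

theorem covIso_flip_flip {p q : V} {A m B : List E} {j : ι} {b : Bool}
    (hl : D.Path p (A ++ m ++ B) q) (hm : m.map D.lab = P.side j b) :
    D.flip j (!b) (D.flip j b m) = m := by
  rw [covIso_path_iff] at hl
  obtain ⟨r, r', h1, h2, h3⟩ := hl
  exact D.flip_flip j b r m r' h2 hm

theorem covIso_lab_mv {p q : V} (v : {l : List E // D.Path p l q}) (s : SEdge α ι)
    (h : s.src P = v.1.map D.lab) : (D.covIsoMv p q v s).1.map D.lab = s.tgt P := by
  obtain ⟨l, hl⟩ := v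
  obtain ⟨A, m, B, e, h1, h2, h3⟩ := D.covIso_split h.symm
  change l = _ at e
  subst e
  rw [D.covIsoMv_eq hl h1 h2 h3]
  simp only [List.map_append, h1, h3, D.covIso_flip_lab hl h2, SEdge.tgt]

theorem covIso_mv_inv {p q : V} (v : {l : List E // D.Path p l q}) (s : SEdge α ι)
    (h : s.src P = v.1.map D.lab) : D.covIsoMv p q (D.covIsoMv p q v s) s.inv = v := by
  obtain ⟨l, hl⟩ := v
  obtain ⟨A, m, B, e, h1, h2, h3⟩ := D.covIso_split h.symm
  change l = _ at e
  subst e
  rw [D.covIsoMv_eq hl h1 h2 h3,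
    D.covIsoMv_eq (s := s.inv) (D.covIso_flip_path hl h2) h1 (D.covIso_flip_lab hl h2) h3]
  apply Subtype.ext
  change A ++ D.flip s.i (!s.pos) (D.flip s.i s.pos m) ++ B = _
  rw [D.covIso_flip_flip hl h2]

theorem covIso_mv_sq {p₀ q₀ : V} (v : {l : List E // D.Path p₀ l q₀}) (a b c : List α) (i j : ι)
    (p q : Bool) (h : v.1.map D.lab = a ++ P.side i p ++ b ++ P.side j q ++ c) :
    D.covIsoMv p₀ q₀ (D.covIsoMv p₀ q₀ v ⟨a, i, b ++ P.side j q ++ c, p⟩)
        ⟨a ++ P.side i (!p) ++ b, j, c, q⟩ =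
      D.covIsoMv p₀ q₀ (D.covIsoMv p₀ q₀ v ⟨a ++ P.side i p ++ b, j, c, q⟩)
        ⟨a, i, b ++ P.side j (!q) ++ c, p⟩ := by
  obtain ⟨l, hl⟩ := v
  obtain ⟨K, n, C, e, h1, h2, h3⟩ := D.covIso_split (b := P.side j q) h
  change l = _ at e
  subst e
  obtain ⟨A, m, B, e, h4, h5, h6⟩ := D.covIso_split h1
  subst e
  -- first way
  have hl' : D.Path p₀ (A ++ m ++ (B ++ n ++ C)) q₀ := by
    simpa [List.append_assoc] using hl
  have k1 : (⟨A ++ m ++ B ++ n ++ C, hl⟩ : {l : List E // D.Path p₀ l q₀}) =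
      ⟨A ++ m ++ (B ++ n ++ C), hl'⟩ := Subtype.ext (by simp [List.append_assoc])
  have s1 := D.covIsoMv_eq (s := ⟨a, i, b ++ P.side j q ++ c, p⟩) hl' h4 h5
    (by simp [h2, h3, h6])
  have hf1 := D.covIso_flip_path hl' h5
  have hf1' : D.Path p₀ (A ++ D.flip i p m ++ B ++ n ++ C) q₀ := by
    simpa [List.append_assoc] using hf1
  have k2 : (⟨A ++ D.flip i p m ++ (B ++ n ++ C), hf1⟩ : {l : List E // D.Path p₀ l q₀}) =
      ⟨A ++ D.flip i p m ++ B ++ n ++ C, hf1'⟩ := Subtype.ext (by simp [List.append_assoc])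
  have s2 := D.covIsoMv_eq (s := ⟨a ++ P.side i (!p) ++ b, j, c, q⟩) hf1'
    (by simp [h4, h6, D.covIso_flip_lab hl' h5]) h2 h3
  -- second way
  have t1 := D.covIsoMv_eq (s := ⟨a ++ P.side i p ++ b, j, c, q⟩) hl
    (by simp [h4, h5, h6]) h2 h3
  have hg1 := D.covIso_flip_path hl h2
  have hg1' : D.Path p₀ (A ++ m ++ (B ++ D.flip j q n ++ C)) q₀ := by
    simpa [List.append_assoc] using hg1
  have k3 : (⟨A ++ m ++ B ++ D.flip j q n ++ C, hg1⟩ : {l : List E // D.Path p₀ l q₀}) =
      ⟨A ++ m ++ (B ++ D.flip j q n ++ C), hg1'⟩ := Subtype.ext (by simp [List.append_assoc])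
  have t2 := D.covIsoMv_eq (s := ⟨a, i, b ++ P.side j (!q) ++ c, p⟩) hg1' h4 h5
    (by simp [h6, h3, D.covIso_flip_lab hl h2])
  rw [t1]
  change _ = D.covIsoMv p₀ q₀ ⟨A ++ m ++ B ++ D.flip j q n ++ C, hg1⟩ _
  rw [k3, t2, k1, s1]
  change D.covIsoMv p₀ q₀ ⟨A ++ D.flip i p m ++ (B ++ n ++ C), hf1⟩ _ = _
  rw [k2, s2]
  apply Subtype.ext
  simp [List.append_assoc]

open Classical in
/-- The covering of the Squier complex by the paths from `p` to `q`. -/
noncomputable def cov (p q : V) : Cov.{u, v, w} P where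
  E := {l : List E // D.Path p l q}
  lab l := l.1.map D.lab
  mv l s := if h : s.src P = l.1.map D.lab then ⟨D.mvL l.1 s, D.mvL_path l.2 h⟩ else l
  lab_mv := fun v s h => D.covIso_lab_mv v s h
  mv_inv := fun v s h => D.covIso_mv_inv v s h
  mv_sq := fun v a b c i j p q h => D.covIso_mv_sq v a b c i j p q h

/-- The cube of a word in edges and 2-cells. -/
def cube (l : List D.X) : Cube α ι := l.map (Sum.map D.lab (fun s => s.j))

/-- The index set of the chain complex of paths from `p` to `q`. -/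
def I (p q : V) : Type (max v w) := {l : List D.X // D.CPath p l q}

/-- The boundary on chains of cells from `p` to `q`. -/
noncomputable def dI (p q : V) : (D.I p q →₀ ℤ) →ₗ[ℤ] (D.I p q →₀ ℤ) :=
  Finsupp.lsubtypeDomain {l | D.CPath p l q} ∘ₗ D.bd ∘ₗ
    Finsupp.lmapDomain ℤ ℤ (fun c : D.I p q => c.1)

/-- The boundary of a composable word is supported on composable words. -/
theorem covIso_bd_single' {p q : V} {l : List D.X} (h : D.CPath p l q) (n : ℤ) :
    D.bd (Finsupp.single l n) ∈ Finsupp.supported ℤ ℤ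
      {l' | D.CPath p l' q ∧ D.deg l' + 1 = D.deg l} := by
  have h1 := D.single_mem h n
  rcases hd : D.deg l with _ | k
  · rw [hd] at h1
    rw [D.bd_of_mem_zero h1]
    exact Submodule.zero_mem _
  · rw [hd] at h1
    have h2 := D.bd_mem h1
    refine Finsupp.supported_mono ?_ h2
    rintro l' ⟨h3, h4⟩
    exact ⟨h3, by rw [h4]⟩

theorem covIso_mem_supported_val {p q : V} (z : D.I p q →₀ ℤ) :
    D.bd (z.mapDomain fun c : D.I p q => c.1) ∈
      Finsupp.supported ℤ ℤ {l | D.CPath p l q} := by
  induction z using Finsupp.induction_linear with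
  | zero => simp
  | add f g hf hg =>
    rw [Finsupp.mapDomain_add, map_add]
    exact Submodule.add_mem _ hf hg
  | single c n =>
    rw [Finsupp.mapDomain_single]
    exact Finsupp.supported_mono (fun l' h => h.1) (D.covIso_bd_single' c.2 n)

/-- `dI` is the restriction of `bd`. -/
theorem dI_val (p q : V) (z : D.I p q →₀ ℤ) :
    (D.dI p q z).mapDomain (fun c : D.I p q => c.1) = D.bd (z.mapDomain fun c : D.I p q => c.1) := by
  have h := D.covIso_mem_supported_val z
  have hinj : Function.Injective (fun c : D.I p q => c.1) := Subtype.val_injective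
  ext l
  by_cases hl : D.CPath p l q
  · exact (Finsupp.mapDomain_apply hinj (D.dI p q z) (⟨l, hl⟩ : D.I p q)).trans rfl
  · rw [Finsupp.mapDomain_of_notMem_range]
    · by_contra hne
      rw [Finsupp.mem_supported] at h
      exact hl (h (Finsupp.mem_support_iff.2 (Ne.symm hne)))
    · rintro ⟨c, rfl⟩
      exact hl c.2

/-! ### The comparison -/

/-- The top path of a word. -/
def tp : List D.X → List E
  | [] => []
  | Sum.inl e :: l => e :: tp l
  | Sum.inr s :: l => s.top ++ tp l

theorem tp_append (l l' : List D.X) : D.tp (l ++ l') = D.tp l ++ D.tp l' := by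
  induction l with
  | nil => rfl
  | cons x l ih =>
    rcases x with e | s
    · change e :: D.tp (l ++ l') = e :: (D.tp l ++ D.tp l')
      rw [ih]
    · change s.top ++ D.tp (l ++ l') = (s.top ++ D.tp l) ++ D.tp l'
      rw [ih, List.append_assoc]

theorem tp_edges (l : List E) : D.tp (D.edges l) = l := by
  induction l with
  | nil => rfl
  | cons e l ih =>
    change e :: D.tp (D.edges l) = e :: l
    rw [ih]

theorem cube_append (l l' : List D.X) : D.cube (l ++ l') = D.cube l ++ D.cube l' := by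
  simp [cube]

theorem cube_edges (l : List E) : D.cube (D.edges l) = letters (l.map D.lab) := by
  simp [cube, edges, letters, Function.comp_def]

theorem top_cube (l : List D.X) : P.top (D.cube l) = (D.tp l).map D.lab := by
  induction l with
  | nil => rfl
  | cons x l ih =>
    rcases x with e | s
    · change D.lab e :: P.top (D.cube l) = D.lab e :: (D.tp l).map D.lab
      rw [ih]
    · change P.lhs s.j ++ P.top (D.cube l) = (s.top ++ D.tp l).map D.lab
      rw [ih, List.map_append, s.lab]

theorem dim_cube (l : List D.X) : dim (D.cube l) = D.deg l := by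
  induction l with
  | nil => rfl
  | cons x l ih =>
    rcases x with e | s
    · exact ih
    · change dim (D.cube l) + 1 = D.deg l + 1
      rw [ih]

theorem tp_path {p q : V} {l : List D.X} (h : D.CPath p l q) : D.Path p (D.tp l) q := by
  induction l generalizing p with
  | nil => exact h
  | cons x l ih =>
    obtain ⟨h1, h2⟩ := h
    rcases x with e | s
    · exact ⟨h1, ih h2⟩
    · change D.Path p (s.top ++ D.tp l) q
      have h3 : D.Path p s.top s.b := by
        have : s.a = p := h1
        rw [← this]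
        exact s.path
      exact pathIn_append.2 ⟨s.b, h3, ih h2⟩

/-- All the ways to write a word as `a ++ inr s :: b`. -/
def spW : List D.X → List (List D.X × D.Cell2 × List D.X)
  | [] => []
  | Sum.inl e :: l => (spW l).map fun t => (Sum.inl e :: t.1, t.2.1, t.2.2)
  | Sum.inr s :: l => ([], s, l) :: (spW l).map fun t => (Sum.inr s :: t.1, t.2.1, t.2.2)

theorem mem_spW {l : List D.X} {t : List D.X × D.Cell2 × List D.X} (h : t ∈ D.spW l) :
    l = t.1 ++ Sum.inr t.2.1 :: t.2.2 := by
  induction l generalizing t with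
  | nil => simp [spW] at h
  | cons x l ih =>
    rcases x with e | s
    · simp only [spW, List.mem_map] at h
      obtain ⟨t', h1, rfl⟩ := h
      rw [ih h1]
      rfl
    · simp only [spW, List.mem_cons, List.mem_map] at h
      rcases h with rfl | ⟨t', h1, rfl⟩
      · rfl
      · rw [ih h1]
        rfl

theorem splits_cube (l : List D.X) :
    splits (D.cube l) = (D.spW l).map fun t => (D.cube t.1, t.2.1.j, D.cube t.2.2) := by
  induction l with
  | nil => rfl
  | cons x l ih =>
    rcases x with e | s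
    · change (splits (D.cube l)).map _ = ((D.spW l).map _).map _
      rw [ih, List.map_map, List.map_map]
      rfl
    · change _ :: (splits (D.cube l)).map _ = _ :: ((D.spW l).map _).map _
      rw [ih, List.map_map, List.map_map]
      rfl

/-- The contribution of a splitting to the boundary. -/
noncomputable def spF (t : List D.X × D.Cell2 × List D.X) : List D.X →₀ ℤ :=
  (-1 : ℤ) ^ D.deg t.1 • (Finsupp.single (t.1 ++ D.edges t.2.1.top ++ t.2.2) (1 : ℤ) -
    Finsupp.single (t.1 ++ D.edges (D.low t.2.1) ++ t.2.2) (1 : ℤ))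

theorem cat_spF (x : D.X) (t : List D.X × D.Cell2 × List D.X) :
    cat (Finsupp.single [x] (1 : ℤ)) (D.spF t) =
      (-1 : ℤ) ^ D.deg t.1 •
        (Finsupp.single (x :: (t.1 ++ D.edges t.2.1.top ++ t.2.2)) (1 : ℤ) -
        Finsupp.single (x :: (t.1 ++ D.edges (D.low t.2.1) ++ t.2.2)) (1 : ℤ)) := by
  unfold spF
  rw [map_smul, map_sub, cat_single, cat_single]
  rfl

theorem covIso_sum_neg {β M : Type*} [AddCommGroup M] (L : List β) (f g : β → M)
    (h : ∀ x, g x = -f x) : (L.map g).sum = -(L.map f).sum := by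
  induction L with
  | nil => simp
  | cons x L ih => rw [List.map_cons, List.map_cons, List.sum_cons, List.sum_cons, ih, h, neg_add]

theorem bdW_eq (l : List D.X) : D.bdW l = ((D.spW l).map D.spF).sum := by
  induction l with
  | nil => rfl
  | cons x l ih =>
    rcases x with e | s
    · change cat (Finsupp.single [Sum.inl e] 1) (D.bdW l) = (((D.spW l).map _).map D.spF).sum
      rw [ih, map_list_sum, List.map_map, List.map_map]
      congr 1
      apply List.map_congr_left
      intro t _
      rw [Function.comp_apply, Function.comp_apply, cat_spF]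
      rfl
    · change Finsupp.single (D.edges s.top ++ l) 1 - Finsupp.single (D.edges (D.low s) ++ l) 1 -
        cat (Finsupp.single [Sum.inr s] 1) (D.bdW l) =
        ((([], s, l) :: (D.spW l).map fun t => (Sum.inr s :: t.1, t.2.1, t.2.2)).map D.spF).sum
      rw [List.map_cons, List.sum_cons, ih, map_list_sum, List.map_map, List.map_map, sub_eq_add_neg]
      congr 1
      · simp [spF, deg]
      · symm
        apply covIso_sum_neg
        intro t
        rw [Function.comp_apply, Function.comp_apply, cat_spF]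
        change (-1 : ℤ) ^ (D.deg t.1 + 1) • _ = _
        rw [pow_succ, mul_neg_one, neg_smul]
        rfl

theorem cellInj {p q : V} {l l' : List D.X} (h : D.CPath p l q) (h' : D.CPath p l' q)
    (ht : D.tp l = D.tp l') (hc : D.cube l = D.cube l') : l = l' := by
  induction l generalizing p l' with
  | nil =>
    rcases l' with _ | ⟨x, l'⟩
    · rfl
    · simp [cube] at hc
  | cons x l ih =>
    rcases l' with _ | ⟨x', l'⟩
    · simp [cube] at hc
    · obtain ⟨h1, h2⟩ := h
      obtain ⟨h1', h2'⟩ := h'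
      have hc' : Sum.map D.lab (fun s : D.Cell2 => s.j) x = Sum.map D.lab (fun s => s.j) x' ∧
          D.cube l = D.cube l' := by
        simpa [cube] using hc
      obtain ⟨hc1, hc2⟩ := hc'
      rcases x with e | s <;> rcases x' with e' | s'
      · have ht' : e :: D.tp l = e' :: D.tp l' := ht
        obtain ⟨rfl, ht2⟩ := List.cons.inj ht'
        rw [ih h2 h2' ht2 hc2]
      · simp at hc1
      · simp at hc1
      · have hj : s.j = s'.j := by simpa using hc1
        have ht' : s.top ++ D.tp l = s'.top ++ D.tp l' := ht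
        have hlen : s.top.length = s'.top.length := by
          have e1 := congrArg List.length s.lab
          have e2 := congrArg List.length s'.lab
          rw [List.length_map] at e1 e2
          rw [e1, e2, hj]
        obtain ⟨ht1, ht2⟩ := List.append_inj ht' hlen
        have ha : s.a = s'.a := by
          have e1 : s.a = p := h1
          have e2 : s'.a = p := h1'
          rw [e1, e2]
        have hb : s.b = s'.b := by
          refine pathIn_unique s.path ?_
          rw [ha, ht1]
          exact s'.path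
        have hs : s = s' := Cell2.ext ha hb hj ht1
        subst hs
        rw [ih h2 h2' ht2 hc2]

theorem cellSurj {p q : V} (Q : Cube α ι) {l : List E} (hl : D.Path p l q)
    (h : l.map D.lab = P.top Q) : ∃ c, D.CPath p c q ∧ D.tp c = l ∧ D.cube c = Q := by
  induction Q generalizing p l with
  | nil =>
    have : l = [] := by simpa using h
    subst this
    exact ⟨[], hl, rfl, rfl⟩
  | cons x Q ih =>
    rcases x with a | j
    · rcases l with _ | ⟨e, l⟩
      · simp at h
      · have h' : D.lab e = a ∧ l.map D.lab = P.top Q := by simpa using h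
        obtain ⟨h1, h2⟩ := hl
        obtain ⟨c, hc1, hc2, hc3⟩ := ih h2 h'.2
        refine ⟨Sum.inl e :: c, ⟨h1, hc1⟩, ?_, ?_⟩
        · change e :: D.tp c = _
          rw [hc2]
        · change Sum.inl (D.lab e) :: D.cube c = _
          rw [hc3, h'.1]
    · rw [top_inr, List.map_eq_append_iff] at h
      obtain ⟨m, l', rfl, h1, h2⟩ := h
      have hl' := pathIn_append.1 hl
      obtain ⟨r, h3, h4⟩ := hl'
      obtain ⟨c, hc1, hc2, hc3⟩ := ih h4 h2
      refine ⟨Sum.inr ⟨p, r, j, m, h3, h1⟩ :: c, ⟨rfl, hc1⟩, ?_, ?_⟩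
      · change m ++ D.tp c = _
        rw [hc2]
      · change Sum.inr j :: D.cube c = _
        rw [hc3]

/-- The comparison map. -/
def cellF (p q : V) (c : D.I p q) : (D.cov p q).Cell :=
  ⟨(⟨D.tp c.1, D.tp_path c.2⟩, D.cube c.1), (D.top_cube c.1).symm⟩

theorem cellF_bijective (p q : V) : Function.Bijective (D.cellF p q) := by
  constructor
  · intro c c' h
    apply Subtype.ext
    have h1 : (D.cellF p q c).1.1.1 = (D.cellF p q c').1.1.1 := by rw [h]
    have h2 : (D.cellF p q c).1.2 = (D.cellF p q c').1.2 := by rw [h]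
    exact D.cellInj c.2 c'.2 h1 h2
  · rintro ⟨⟨⟨l, hl⟩, Q⟩, h⟩
    obtain ⟨c, hc1, hc2, hc3⟩ := D.cellSurj Q hl h
    refine ⟨⟨c, hc1⟩, ?_⟩
    apply Subtype.ext
    apply Prod.ext
    · exact Subtype.ext hc2
    · exact hc3

/-- The untyped comparison map. -/
def rawF (l : List D.X) : List E × Cube α ι := (D.tp l, D.cube l)

/-- The untyped value of a cell of the covering. -/
def rawC (p q : V) (c : (D.cov p q).E × Cube α ι) : List E × Cube α ι := (c.1.1, c.2)

theorem rawC_injective (p q : V) : Function.Injective (D.rawC p q) := by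
  rintro ⟨c, Q⟩ ⟨c', Q'⟩ h
  simp only [rawC, Prod.mk.injEq] at h
  exact Prod.ext (Subtype.ext h.1) h.2

theorem rawBd_cellF (p q : V) (c : D.I p q) :
    Finsupp.mapDomain (D.rawC p q) ((D.cov p q).rawBd (D.cellF p q c).1) =
      Finsupp.mapDomain D.rawF (D.bdW c.1) := by
  rw [D.bdW_eq]
  unfold Cov.rawBd
  change Finsupp.mapDomain (D.rawC p q) (((splits (D.cube c.1)).map _).sum) = _
  rw [D.splits_cube, List.map_map]
  have key : ∀ L : List (List D.X × D.Cell2 × List D.X), (∀ t ∈ L, t ∈ D.spW c.1) →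
      Finsupp.mapDomain (D.rawC p q) ((L.map ((fun s => (-1 : ℤ) ^ dim s.1 •
        (Finsupp.single ((D.cov p q).lface (D.cellF p q c).1.1 s) (1 : ℤ) -
          Finsupp.single ((D.cov p q).rface (D.cellF p q c).1.1 s) (1 : ℤ))) ∘
          fun t => (D.cube t.1, t.2.1.j, D.cube t.2.2))).sum) =
      Finsupp.mapDomain D.rawF ((L.map D.spF).sum) := by
    intro L
    induction L with
    | nil => intro _; simp
    | cons t L ih =>
      intro h
      rw [List.map_cons, List.sum_cons, List.map_cons, List.sum_cons, Finsupp.mapDomain_add,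
        Finsupp.mapDomain_add, ih (fun t' ht' => h t' (List.mem_cons_of_mem _ ht'))]
      congr 1
      have ht := D.mem_spW (h t List.mem_cons_self)
      have hc := c.2
      rw [Function.comp_apply]
      unfold spF
      rw [Finsupp.mapDomain_smul, Finsupp.mapDomain_smul, D.dim_cube]
      congr 1
      rw [sub_eq_add_neg, sub_eq_add_neg, Finsupp.mapDomain_add, Finsupp.mapDomain_add,
        ← Finsupp.single_neg, ← Finsupp.single_neg, Finsupp.mapDomain_single,
        Finsupp.mapDomain_single, Finsupp.mapDomain_single, Finsupp.mapDomain_single]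
      have htp : D.tp c.1 = D.tp t.1 ++ t.2.1.top ++ D.tp t.2.2 := by
        rw [ht, D.tp_append, List.append_assoc]
        rfl
      have e1 : D.rawC p q ((D.cov p q).lface (D.cellF p q c).1.1
          (D.cube t.1, t.2.1.j, D.cube t.2.2)) =
          D.rawF (t.1 ++ D.edges t.2.1.top ++ t.2.2) := by
        apply Prod.ext
        · change D.tp c.1 = D.tp (t.1 ++ D.edges t.2.1.top ++ t.2.2)
          rw [D.tp_append, D.tp_append, D.tp_edges, htp]
        · change D.cube t.1 ++ letters (P.lhs t.2.1.j) ++ D.cube t.2.2 =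
            D.cube (t.1 ++ D.edges t.2.1.top ++ t.2.2)
          rw [D.cube_append, D.cube_append, D.cube_edges, t.2.1.lab]
      have e2 : D.rawC p q ((D.cov p q).rface (D.cellF p q c).1.1
          (D.cube t.1, t.2.1.j, D.cube t.2.2)) =
          D.rawF (t.1 ++ D.edges (D.low t.2.1) ++ t.2.2) := by
        apply Prod.ext
        · have hpath : D.Path p (D.tp t.1 ++ t.2.1.top ++ D.tp t.2.2) q := by
            rw [← htp]
            exact D.tp_path c.2
          have hv : (D.cellF p q c).1.1 =
              (⟨D.tp t.1 ++ t.2.1.top ++ D.tp t.2.2, hpath⟩ : {l : List E // D.Path p l q}) :=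
            Subtype.ext htp
          change (D.covIsoMv p q (D.cellF p q c).1.1
            ⟨P.top (D.cube t.1), t.2.1.j, P.top (D.cube t.2.2), true⟩).1 =
            D.tp (t.1 ++ D.edges (D.low t.2.1) ++ t.2.2)
          rw [hv, D.covIsoMv_eq hpath (s := ⟨P.top (D.cube t.1), t.2.1.j, P.top (D.cube t.2.2),
            true⟩) (D.top_cube _).symm t.2.1.lab (D.top_cube _).symm]
          rw [D.tp_append, D.tp_append, D.tp_edges]
          rfl
        · change D.cube t.1 ++ letters (P.rhs t.2.1.j) ++ D.cube t.2.2 =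
            D.cube (t.1 ++ D.edges (D.low t.2.1) ++ t.2.2)
          rw [D.cube_append, D.cube_append, D.cube_edges, D.low_lab]
      rw [e1, e2]
  exact key _ (fun _ h => h)

/-- The cells of the covering `cov p q` are the composable words from `p` to `q`. -/
theorem exists_cellEquiv (p q : V) : ∃ f : D.I p q ≃ (D.cov p q).Cell,
    (∀ c, (f c).1.2 = D.cube c.1) ∧
    ∀ z, (D.cov p q).bd (z.mapDomain f) = (D.dI p q z).mapDomain f := by
  refine ⟨Equiv.ofBijective _ (D.cellF_bijective p q), fun c => rfl, fun z => ?_⟩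
  change (D.cov p q).bd (Finsupp.mapDomain (D.cellF p q) z) =
    Finsupp.mapDomain (D.cellF p q) (D.dI p q z)
  apply Finsupp.mapDomain_injective (D.cov p q).val_injective
  rw [val_bd]
  apply Finsupp.mapDomain_injective (D.rawC_injective p q)
  have hL : ∀ y : D.I p q →₀ ℤ, Finsupp.mapDomain (D.rawC p q) (Finsupp.mapDomain (D.cov p q).val
      (Finsupp.mapDomain (D.cellF p q) y)) =
      Finsupp.mapDomain D.rawF (Finsupp.mapDomain (fun c : D.I p q => c.1) y) := by
    intro y
    rw [← Finsupp.mapDomain_comp, ← Finsupp.mapDomain_comp, ← Finsupp.mapDomain_comp]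
    rfl
  refine Eq.trans ?_ (hL _).symm
  refine Eq.trans ?_ (congrArg (Finsupp.mapDomain D.rawF) (D.dI_val p q z)).symm
  induction z using Finsupp.induction_linear with
  | zero => simp
  | add g h hg hh =>
    simp only [Finsupp.mapDomain_add, map_add] at hg hh ⊢
    rw [hg, hh]
  | single c n =>
    have hs : Finsupp.mapDomain (fun c : D.I p q => c.1) (Finsupp.single c n) =
        Finsupp.single c.1 n := Finsupp.mapDomain_single
    refine Eq.trans ?_ (congrArg (fun y => Finsupp.mapDomain D.rawF (D.bd y)) hs).symm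
    rw [Finsupp.mapDomain_single, Finsupp.mapDomain_single]
    unfold Cov.rawD bd
    rw [Finsupp.linearCombination_single, Finsupp.linearCombination_single,
      Finsupp.mapDomain_smul, Finsupp.mapDomain_smul]
    congr 1
    exact D.rawBd_cellF p q c

/-- The reduction to critical cells (from `reduction` for `cov p q`). -/
theorem exists_reduction (hP : Complete P) (p q : V) : ∃ Dc : Set (Cube α ι),
    let C : Set (D.I p q) := {c | IsCrit P (D.cube c.1)}
    let N := Finsupp.supported ℤ ℤ {c : D.I p q | D.cube c.1 ∈ Dc} ⊔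
      (Finsupp.supported ℤ ℤ {c : D.I p q | D.cube c.1 ∈ Dc}).map (D.dI p q)
    (∀ z, ∃ c ∈ Finsupp.supported ℤ ℤ C, z - c ∈ N) ∧
    (∀ c ∈ Finsupp.supported ℤ ℤ C, c ∈ N → c = 0) ∧
    (∀ z ∈ N, D.dI p q z = 0 →
      ∃ y ∈ Finsupp.supported ℤ ℤ {c : D.I p q | D.cube c.1 ∈ Dc}, D.dI p q y = z) := by
  obtain ⟨Dc, hDc⟩ := reduction.{u, v, w} hP
  refine ⟨Dc, ?_⟩
  obtain ⟨R1, R2, R3, -⟩ := hDc (D.cov p q)
  obtain ⟨f, hf1, hf2⟩ := D.exists_cellEquiv p q
  intro C N
  -- transport of supported submodules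
  have hsupp : ∀ (Q : Set (Cube α ι)) (z : D.I p q →₀ ℤ),
      z ∈ Finsupp.supported ℤ ℤ {c : D.I p q | D.cube c.1 ∈ Q} ↔
      z.mapDomain f ∈ Finsupp.supported ℤ ℤ {c : (D.cov p q).Cell | c.1.2 ∈ Q} := by
    intro Q z
    rw [Finsupp.mem_supported, Finsupp.mem_supported]
    constructor
    · intro h c hc
      obtain ⟨c', rfl⟩ := f.surjective c
      rw [Finset.mem_coe, Finsupp.mem_support_iff, Finsupp.mapDomain_apply f.injective] at hc
      have h2 : D.cube c'.1 ∈ Q := h (Finsupp.mem_support_iff.2 hc)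
      change (f c').1.2 ∈ Q
      rw [hf1]
      exact h2
    · intro h c hc
      have h1 : (f c) ∈ {c : (D.cov p q).Cell | c.1.2 ∈ Q} := by
        apply h
        rw [Finset.mem_coe, Finsupp.mem_support_iff, Finsupp.mapDomain_apply f.injective]
        exact Finsupp.mem_support_iff.1 hc
      have h2 : (f c).1.2 ∈ Q := h1
      rw [hf1] at h2
      exact h2
  have hsurj : ∀ y : (D.cov p q).Cell →₀ ℤ, ∃ z : D.I p q →₀ ℤ, z.mapDomain f = y := fun y =>
    Finsupp.mapDomain_surjective f.surjective y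
  have hinj := Finsupp.mapDomain_injective (M := ℤ) f.injective
  have hN : ∀ z : D.I p q →₀ ℤ, z ∈ N ↔ z.mapDomain f ∈
      Finsupp.supported ℤ ℤ {c : (D.cov p q).Cell | c.1.2 ∈ Dc} ⊔
        (Finsupp.supported ℤ ℤ {c : (D.cov p q).Cell | c.1.2 ∈ Dc}).map (D.cov p q).bd := by
    intro z
    constructor
    · intro h
      obtain ⟨x, hx, y, hy, rfl⟩ := Submodule.mem_sup.1 h
      obtain ⟨t, ht, rfl⟩ := Submodule.mem_map.1 hy
      rw [Finsupp.mapDomain_add, ← hf2]
      exact Submodule.add_mem_sup ((hsupp Dc x).1 hx)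
        (Submodule.mem_map_of_mem ((hsupp Dc t).1 ht))
    · intro h
      obtain ⟨x, hx, y, hy, hxy⟩ := Submodule.mem_sup.1 h
      obtain ⟨t, ht, rfl⟩ := Submodule.mem_map.1 hy
      obtain ⟨x, rfl⟩ := hsurj x
      obtain ⟨t, rfl⟩ := hsurj t
      rw [hf2, ← Finsupp.mapDomain_add] at hxy
      rw [← hinj hxy]
      exact Submodule.add_mem_sup ((hsupp Dc x).2 hx)
        (Submodule.mem_map_of_mem ((hsupp Dc t).2 ht))
  have hC : ∀ z : D.I p q →₀ ℤ, z ∈ Finsupp.supported ℤ ℤ C ↔
      z.mapDomain f ∈ Finsupp.supported ℤ ℤ (D.cov p q).crit := hsupp {Q | IsCrit P Q}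
  refine ⟨?_, ?_, ?_⟩
  · intro z
    obtain ⟨c, hc, hzc⟩ := R1 (z.mapDomain f)
    obtain ⟨c, rfl⟩ := hsurj c
    refine ⟨c, (hC c).2 hc, (hN _).2 ?_⟩
    have e : (z - c).mapDomain f = z.mapDomain f - c.mapDomain f := by
      have := map_sub (Finsupp.lmapDomain ℤ ℤ f) z c
      exact this
    rw [e]
    exact hzc
  · intro c hc hcN
    have := R2 _ ((hC c).1 hc) ((hN c).1 hcN)
    apply hinj
    rw [this, Finsupp.mapDomain_zero]
  · intro z hz hz0
    obtain ⟨y, hy, hyz⟩ := R3 (z.mapDomain f) ((hN z).1 hz) (by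
      rw [hf2, hz0, Finsupp.mapDomain_zero])
    obtain ⟨y, rfl⟩ := hsurj y
    refine ⟨y, (hsupp Dc y).2 hy, hinj ?_⟩
    rw [← hf2, hyz]

/-- If the covering `cov p q` is the universal covering then 1-cycles are boundaries
(`univ_acyclic`, `bd_cellMap`). -/
theorem h1_of_cov (p q : V) (x : List α) (f : (D.cov p q).E ≃ (univCov P x).E)
    (hlab : ∀ v, (univCov P x).lab (f v) = (D.cov p q).lab v)
    (hmv : ∀ v s, s.src P = (D.cov p q).lab v → f ((D.cov p q).mv v s) = (univCov P x).mv (f v) s)
    (z : List D.X →₀ ℤ) (hz : z ∈ D.Ck 1 p q) (hz' : D.bd z = 0) :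
    ∃ y ∈ D.Ck 2 p q, D.bd y = z := by
  classical
  obtain ⟨g, hg1, hg2⟩ := D.exists_cellEquiv p q
  have hinjI : Function.Injective (fun c : D.I p q => c.1) := Subtype.val_injective
  -- the chain on `I p q`
  obtain ⟨z₁, hz₁⟩ : ∃ z₁ : D.I p q →₀ ℤ, z₁.mapDomain (fun c : D.I p q => c.1) = z := by
    refine ⟨Finsupp.subtypeDomain (fun l => D.CPath p l q) z, ?_⟩
    ext l
    by_cases hl : D.CPath p l q
    · exact (Finsupp.mapDomain_apply hinjI
        (Finsupp.subtypeDomain (fun l => D.CPath p l q) z) (⟨l, hl⟩ : D.I p q)).trans rfl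
    · refine (Finsupp.mapDomain_of_notMem_range
        (Finsupp.subtypeDomain (fun l => D.CPath p l q) z :
          D.I p q →₀ ℤ) l (f := fun c : D.I p q => c.1) ?_).trans ?_
      · rintro ⟨c, rfl⟩
        exact hl c.2
      · by_contra hne
        have h1 := (Finsupp.mem_supported ℤ z).1 hz (Finsupp.mem_support_iff.2 (Ne.symm hne))
        exact hl h1.1
  have hd₁ : D.dI p q z₁ = 0 := by
    apply Finsupp.mapDomain_injective hinjI
    refine (D.dI_val p q z₁).trans ?_
    refine (congrArg D.bd hz₁).trans ?_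
    rw [hz', Finsupp.mapDomain_zero]
  -- the chain on the universal covering
  have hbij : Function.Bijective (cellMap (D.cov p q) (univCov P x) f hlab) := by
    constructor
    · intro c c' h
      have h1 : (f c.1.1, c.1.2) = (f c'.1.1, c'.1.2) := congrArg Subtype.val h
      simp only [Prod.mk.injEq, EmbeddingLike.apply_eq_iff_eq] at h1
      exact Subtype.ext (Prod.ext h1.1 h1.2)
    · intro c
      refine ⟨⟨(f.symm c.1.1, c.1.2), ?_⟩, ?_⟩
      · rw [← hlab, Equiv.apply_symm_apply]; exact c.2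
      · apply Subtype.ext
        exact Prod.ext (f.apply_symm_apply _) rfl
  set F : D.I p q → (univCov P x).Cell := fun c => cellMap (D.cov p q) (univCov P x) f hlab (g c)
    with hF
  have hFbij : Function.Bijective F := hbij.comp g.bijective
  have hFd : ∀ y : D.I p q →₀ ℤ, (univCov P x).bd (y.mapDomain F) = (D.dI p q y).mapDomain F := by
    intro y
    have e : F = cellMap (D.cov p q) (univCov P x) f hlab ∘ g := rfl
    rw [e, Finsupp.mapDomain_comp, Finsupp.mapDomain_comp, bd_cellMap _ _ _ _ hmv, hg2]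
  have hFdim : ∀ c, dim (F c).1.2 = D.deg c.1 := by
    intro c
    change dim (g c).1.2 = _
    rw [hg1, D.dim_cube]
  obtain ⟨n, y, hy⟩ := univ_acyclic P x (z₁.mapDomain F) (by
    rw [hFd, hd₁, Finsupp.mapDomain_zero])
  obtain ⟨y, rfl⟩ := Finsupp.mapDomain_surjective hFbij.2 y
  obtain ⟨c₀, hc₀⟩ := hFbij.2 ⟨(⟨x, Hpt.id P x⟩, letters x), univ_base_valid P x⟩
  have hdeg₀ : D.deg c₀.1 = 0 := by
    rw [← hFdim, hc₀]
    exact dim_letters x
  have hz₂ : z₁ = Finsupp.single c₀ n + D.dI p q y := by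
    apply Finsupp.mapDomain_injective hFbij.1
    rw [hy, Finsupp.mapDomain_add, hFd, Finsupp.mapDomain_single, hc₀]
  -- back to words
  set Y : List D.X →₀ ℤ := y.mapDomain (fun c : D.I p q => c.1) with hY
  have hYs : Y ∈ Finsupp.supported ℤ ℤ {l | D.CPath p l q} := by
    rw [Finsupp.mem_supported]
    intro l hl
    obtain ⟨c, -, rfl⟩ := Finset.mem_image.1 (Finsupp.mapDomain_support hl)
    exact c.2
  have hz₃ : z = Finsupp.single c₀.1 n + D.bd Y := by
    rw [← hz₁, hz₂, Finsupp.mapDomain_add]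
    refine congrArg₂ (· + ·) Finsupp.mapDomain_single ?_
    exact D.dI_val p q y
  set Y₂ := Y.filter (fun l => D.deg l = 2) with hY₂
  set Y₃ := Y.filter (fun l => ¬ D.deg l = 2) with hY₃
  have hYsum : Y = Y₂ + Y₃ := (Finsupp.filter_add_filter_not Y (fun l => D.deg l = 2)).symm
  have hY₂m : Y₂ ∈ D.Ck 2 p q := by
    rw [Ck, Finsupp.mem_supported]
    intro l hl
    rw [hY₂, Finset.mem_coe, Finsupp.support_filter, Finset.mem_filter] at hl
    exact ⟨(Finsupp.mem_supported ℤ Y).1 hYs hl.1, hl.2⟩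
  have hY₃m : D.bd Y₃ ∈ Finsupp.supported ℤ ℤ {l | D.deg l ≠ 1} := by
    rw [← Finsupp.sum_single Y₃, Finsupp.sum, map_sum]
    apply Submodule.sum_mem
    intro l hl
    rw [hY₃, Finsupp.support_filter, Finset.mem_filter] at hl
    have hl1 : D.CPath p l q := (Finsupp.mem_supported ℤ Y).1 hYs hl.1
    refine Finsupp.supported_mono ?_ (D.covIso_bd_single' hl1 (Y₃ l))
    rintro l' ⟨-, h2⟩ h3
    apply hl.2
    rw [← h2, h3]
  refine ⟨Y₂, hY₂m, ?_⟩
  have key : z - D.bd Y₂ = Finsupp.single c₀.1 n + D.bd Y₃ := by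
    rw [hz₃, hYsum, map_add]
    abel
  have h1 : z - D.bd Y₂ ∈ Finsupp.supported ℤ ℤ {l | D.deg l = 1} := by
    apply Submodule.sub_mem
    · exact Finsupp.supported_mono (fun l h => h.2) hz
    · exact Finsupp.supported_mono (fun l h => h.2) (D.bd_mem hY₂m)
  have h2 : z - D.bd Y₂ ∈ Finsupp.supported ℤ ℤ {l | D.deg l ≠ 1} := by
    rw [key]
    apply Submodule.add_mem
    · apply Finsupp.single_mem_supported
      change D.deg c₀.1 ≠ 1
      rw [hdeg₀]
      exact zero_ne_one
    · exact hY₃m
  have h3 : z - D.bd Y₂ = 0 := by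
    rw [← Finsupp.support_eq_empty, Finset.eq_empty_iff_forall_notMem]
    intro l hl
    exact (Finsupp.mem_supported ℤ _).1 h2 hl ((Finsupp.mem_supported ℤ _).1 h1 hl)
  exact (sub_eq_zero.1 h3).symm

end Dcx

end Pool.Agent.DG
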