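import Pool.Agent.MP_cff99f_al.Cov
import Pool.Agent.MP_cff99f_al.Gen.Base

/-!
Directed 2-complexes labelled over a semigroup presentation.
-/

namespace Pool.Agent.DG

universe u v w z

variable {α : Type u} {ι : Type v}

/-- `PathIn i t p l q`: the list `l` of arrows is a path from `p` to `q`. -/
def PathIn {V E : Type*} (i t : E → V) : V → List E → V → Prop
  | p, [], q => p = q
  | p, e :: l, q => i e = p ∧ PathIn i t (t e) l q

/-- A directed 2-complex over the presentation `P`: the edges are labelled by letters, and every
path `l` whose label is a side of a relation is one side of exactly one 2-cell, the other side of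
which is `flip j p l`. -/
structure Dcx (P : Pres α ι) (V E : Type w) where
  i : E → V
  t : E → V
  lab : E → α
  flip : ι → Bool → List E → List E
  flip_path : ∀ j b p l q, PathIn i t p l q → l.map lab = P.side j b →
    PathIn i t p (flip j b l) q
  flip_lab : ∀ j b p l q, PathIn i t p l q → l.map lab = P.side j b →
    (flip j b l).map lab = P.side j (!b)
  flip_flip : ∀ j b p l q, PathIn i t p l q → l.map lab = P.side j b →
    flip j (!b) (flip j b l) = l

variable {P : Pres α ι} {V E : Type w}

namespace Dcx

variable (D : Dcx P V E)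

/-- Paths. -/
def Path : V → List E → V → Prop := PathIn D.i D.t

/-- A 2-cell: a path `top` from `a` to `b` whose label is the left-hand side of the relation `j`.
The other side of the cell is `D.flip j true top`. -/
@[ext] structure Cell2 where
  a : V
  b : V
  j : ι
  top : List E
  path : D.Path a top b
  lab : top.map D.lab = P.lhs j

/-- The lower side of a 2-cell. -/
def low (s : D.Cell2) : List E := D.flip s.j true s.top

/-- Elementary moves of paths across a 2-cell. -/
def Move (l l' : List E) : Prop :=
  ∃ (A : List E) (j : ι) (b : Bool) (s B : List E), (∃ p q, D.Path p s q) ∧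
    s.map D.lab = P.side j b ∧ l = A ++ s ++ B ∧ l' = A ++ D.flip j b s ++ B

/-- The order on the vertices is given by paths, there are no directed cycles, and all paths with
the same end points are connected by moves. -/
structure Ordered [PartialOrder V] : Prop where
  le_iff : ∀ p q, p ≤ q ↔ ∃ l, D.Path p l q
  lt : ∀ e, D.i e < D.t e
  conn : ∀ p q l l', D.Path p l q → D.Path p l' q → Relation.EqvGen D.Move l l'

/-! ### Cubical chains -/

/-- The letters of cubical cells: edges and 2-cells. -/
abbrev X : Type _ := E ⊕ D.Cell2

/-- Initial vertex of a letter. -/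
def xi : D.X → V := Sum.elim D.i (fun s => s.a)

/-- Terminal vertex of a letter. -/
def xt : D.X → V := Sum.elim D.t (fun s => s.b)

/-- Composable words in edges and 2-cells. -/
def CPath : V → List D.X → V → Prop := PathIn D.xi D.xt

/-- The number of 2-cells in a word. -/
def deg : List D.X → ℕ
  | [] => 0
  | Sum.inl _ :: l => deg l
  | Sum.inr _ :: l => deg l + 1

/-- A word of edges. -/
def edges (l : List E) : List D.X := l.map Sum.inl

end Dcx

/-- The concatenation product on chains of words. -/
noncomputable def cat {X : Type*} : (List X →₀ ℤ) →ₗ[ℤ] (List X →₀ ℤ) →ₗ[ℤ] (List X →₀ ℤ) :=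
  Finsupp.linearCombination ℤ fun l : List X => Finsupp.lmapDomain ℤ ℤ (fun l' => l ++ l')

namespace Dcx

variable (D : Dcx P V E)

/-- The boundary of a word: `∂(x y) = ∂x y + (-1)^{deg x} x ∂y`, `∂ e = 0` for edges and
`∂ s = top s - low s` for 2-cells. -/
noncomputable def bdW : List D.X → (List D.X →₀ ℤ)
  | [] => 0
  | Sum.inl e :: l => cat (Finsupp.single [Sum.inl e] 1) (bdW l)
  | Sum.inr s :: l => Finsupp.single (D.edges s.top ++ l) 1 -
      Finsupp.single (D.edges (D.low s) ++ l) 1 - cat (Finsupp.single [Sum.inr s] 1) (bdW l)

/-- The boundary map. -/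
noncomputable def bd : (List D.X →₀ ℤ) →ₗ[ℤ] (List D.X →₀ ℤ) := Finsupp.linearCombination ℤ D.bdW

/-- Chains of degree `k` from `p` to `q`. -/
noncomputable def Ck (k : ℕ) (p q : V) : Submodule ℤ (List D.X →₀ ℤ) :=
  Finsupp.supported ℤ ℤ {l | D.CPath p l q ∧ D.deg l = k}

/-- The 2-cells of a word, as a chain. -/
noncomputable def linW : List D.X → (D.Cell2 →₀ ℤ)
  | [] => 0
  | Sum.inl _ :: l => linW l
  | Sum.inr s :: l => Finsupp.single s 1 + linW l

/-- The linearisation of chains of words. -/
noncomputable def lin : (List D.X →₀ ℤ) →ₗ[ℤ] (D.Cell2 →₀ ℤ) := Finsupp.linearCombination ℤ D.linW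

/-- The chain of a path. -/
noncomputable def sumE (l : List E) : E →₀ ℤ := (l.map fun e => Finsupp.single e (1 : ℤ)).sum

/-- The boundary of a 2-cell, as a chain of edges. -/
noncomputable def dF (s : D.Cell2) : E →₀ ℤ := sumE s.top - sumE (D.low s)

/-! ### Group actions -/

end Dcx

/-- An action of `G` on a labelled directed 2-complex. -/
class GAct (G : Type z) [Group G] [MulAction G V] [MulAction G E] (D : Dcx P V E) : Prop where
  i_smul : ∀ (g : G) e, D.i (g • e) = g • D.i e
  t_smul : ∀ (g : G) e, D.t (g • e) = g • D.t e
  lab_smul : ∀ (g : G) e, D.lab (g • e) = D.lab e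
  flip_smul : ∀ (g : G) j b p l q, D.Path p l q → l.map D.lab = P.side j b →
    D.flip j b (l.map (g • ·)) = (D.flip j b l).map (g • ·)

namespace Dcx

section action

variable {G : Type z} [Group G] [MulAction G V] [MulAction G E] (D : Dcx P V E)

theorem path_smul [GAct G D] (g : G) {p q : V} {l : List E} (h : D.Path p l q) :
    D.Path (g • p) (l.map (g • ·)) (g • q) := by
  induction l generalizing p with
  | nil => exact congrArg (g • ·) h
  | cons e l ih =>
    obtain ⟨h1, h2⟩ := h
    subst h1
    refine ⟨GAct.i_smul g e, ?_⟩
    have := ih h2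
    change PathIn D.i D.t (D.t (g • e)) _ _
    rw [GAct.t_smul g e]
    exact this

theorem map_lab_smul [GAct G D] (g : G) (l : List E) :
    (l.map (g • ·)).map D.lab = l.map D.lab := by
  rw [List.map_map]
  apply List.map_congr_left
  intro e _
  exact GAct.lab_smul g e

instance [GAct G D] : MulAction G D.Cell2 where
  smul g s := ⟨g • s.a, g • s.b, s.j, s.top.map (g • ·), D.path_smul g s.path,
    (D.map_lab_smul g s.top).trans s.lab⟩
  one_smul s := by
    apply Cell2.ext
    · exact one_smul G s.a
    · exact one_smul G s.b
    · rfl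
    · change s.top.map ((1 : G) • ·) = s.top
      simp
  mul_smul g h s := by
    apply Cell2.ext
    · exact mul_smul g h s.a
    · exact mul_smul g h s.b
    · rfl
    · change s.top.map ((g * h) • ·) = (s.top.map (h • ·)).map (g • ·)
      rw [List.map_map]
      apply List.map_congr_left
      intro e _
      exact mul_smul g h e

/-- Translation of words. -/
def gW [GAct G D] (g : G) (l : List D.X) : List D.X := l.map (Sum.map (g • ·) (g • ·))

/-- Translation of chains of words. -/
noncomputable def gC [GAct G D] (g : G) : (List D.X →₀ ℤ) →ₗ[ℤ] (List D.X →₀ ℤ) :=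
  Finsupp.lmapDomain ℤ ℤ (D.gW g)

end action

end Dcx

end Pool.Agent.DG
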