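import Pool.Agent.MP_cff99f_al.Gen.Chain

/-!
Block Flow: the flow towards the terminal vertex `q` and its homotopy.
-/

namespace Pool.Agent.DG

universe u v w

variable {α : Type u} {ι : Type v} {P : Pres α ι} {V E : Type w} [PartialOrder V]

namespace Dcx

variable (D : Dcx P V E)

section flowaux

omit [PartialOrder V]

theorem flow_cpath_edges {p q : V} {l : List E} (h : D.Path p l q) : D.CPath p (D.edges l) q :=
  D.cpath_edges.2 h

theorem flow_single_edges_mem {p q : V} {l : List E} (h : D.Path p l q) (n : ℤ) :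
    Finsupp.single (D.edges l) n ∈ D.Ck 0 p q := by
  have := D.single_mem (D.cpath_edges.2 h) n
  rwa [D.deg_edges] at this

theorem flow_move_symm {l l' : List E} (h : D.Move l l') : D.Move l' l := by
  obtain ⟨A, j, b, s, B, ⟨p, q, hs⟩, hlab, rfl, rfl⟩ := h
  refine ⟨A, j, !b, D.flip j b s, B, ⟨p, q, D.flip_path j b p s q hs hlab⟩,
    D.flip_lab j b p s q hs hlab, rfl, ?_⟩
  rw [D.flip_flip j b p s q hs hlab]

theorem flow_move_path {l l' : List E} (h : D.Move l l') {p q : V} (hp : D.Path p l q) :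
    D.Path p l' q := by
  obtain ⟨A, j, b, s, B, _, hlab, rfl, rfl⟩ := h
  obtain ⟨r', h1, hB⟩ := pathIn_append.1 hp
  obtain ⟨r, hA, hs⟩ := pathIn_append.1 h1
  exact pathIn_append.2 ⟨r', pathIn_append.2 ⟨r, hA, D.flip_path j b r s r' hs hlab⟩, hB⟩

theorem flow_edges_append (l l' : List E) : D.edges (l ++ l') = D.edges l ++ D.edges l' := by
  simp [Dcx.edges]

theorem flow_bd_single (l : List D.X) (n : ℤ) :
    D.bd (Finsupp.single l n) = n • D.bdW l := by
  rw [Dcx.bd, Finsupp.linearCombination_single]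

theorem flow_move_bd {l l' : List E} (h : D.Move l l') {p q : V} (hp : D.Path p l q) :
    ∃ y ∈ D.Ck 1 p q, D.bd y =
      Finsupp.single (D.edges l') 1 - Finsupp.single (D.edges l) 1 := by
  obtain ⟨A, j, b, s, B, _, hlab, rfl, rfl⟩ := h
  obtain ⟨r', h1, hB⟩ := pathIn_append.1 hp
  obtain ⟨r, hA, hs⟩ := pathIn_append.1 h1
  -- a 2-cell and its boundary
  have key : ∀ c : D.Cell2, c.a = r → c.b = r' →
      cat (Finsupp.single (D.edges A) 1) (cat (Finsupp.single [Sum.inr c] 1)
        (Finsupp.single (D.edges B) 1)) ∈ D.Ck 1 p q ∧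
      D.bd (cat (Finsupp.single (D.edges A) 1) (cat (Finsupp.single [Sum.inr c] 1)
        (Finsupp.single (D.edges B) 1))) =
        Finsupp.single (D.edges (A ++ c.top ++ B)) 1 -
          Finsupp.single (D.edges (A ++ D.low c ++ B)) 1 := by
    intro c ha hb
    subst ha hb
    have hc : D.CPath c.a [Sum.inr c] c.b := ⟨rfl, rfl⟩
    have hc1 : Finsupp.single ([Sum.inr c] : List D.X) (1 : ℤ) ∈ D.Ck 1 c.a c.b := by
      have := D.single_mem hc 1
      exact this
    constructor
    · have h3 := D.cat_mem (D.flow_single_edges_mem hA 1)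
        (D.cat_mem hc1 (D.flow_single_edges_mem hB 1))
      exact h3
    · rw [D.bd_cat, D.bd_edges, map_zero, LinearMap.zero_apply, zero_add, D.bd_cat, D.bd_edges,
        map_zero, add_zero, D.bd_cell, D.sg_of_mem (D.flow_single_edges_mem hA 1), pow_zero,
        one_smul, map_sub, LinearMap.sub_apply, map_sub, cat_single, cat_single, cat_single,
        cat_single, one_mul, one_mul]
      simp only [D.flow_edges_append, List.append_assoc]
  cases b with
  | true =>
    obtain ⟨h2, h3⟩ := key ⟨r, r', j, s, hs, hlab⟩ rfl rfl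
    refine ⟨_, (D.Ck 1 p q).neg_mem h2, ?_⟩
    rw [map_neg, h3, neg_sub]
    rfl
  | false =>
    have hp' := D.flip_path j false r s r' hs hlab
    have hl' := D.flip_lab j false r s r' hs hlab
    obtain ⟨h2, h3⟩ := key ⟨r, r', j, D.flip j false s, hp', hl'⟩ rfl rfl
    refine ⟨_, h2, ?_⟩
    rw [h3]
    have h4 : D.low ⟨r, r', j, D.flip j false s, hp', hl'⟩ = s :=
      D.flip_flip j false r s r' hs hlab
    rw [h4]

theorem flow_eqv {l l' : List E} (h : Relation.EqvGen D.Move l l') (p q : V) :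
    (D.Path p l q ↔ D.Path p l' q) ∧ (D.Path p l q → ∃ y ∈ D.Ck 1 p q, D.bd y =
      Finsupp.single (D.edges l') 1 - Finsupp.single (D.edges l) 1) := by
  induction h with
  | rel x y h =>
    exact ⟨⟨D.flow_move_path h, D.flow_move_path (D.flow_move_symm h)⟩, D.flow_move_bd h⟩
  | refl x => exact ⟨Iff.rfl, fun _ => ⟨0, Submodule.zero_mem _, by rw [map_zero, sub_self]⟩⟩
  | symm x y _ ih =>
    refine ⟨ih.1.symm, fun h => ?_⟩
    obtain ⟨z, hz, hz'⟩ := ih.2 (ih.1.2 h)
    exact ⟨-z, Submodule.neg_mem _ hz, by rw [map_neg, hz', neg_sub]⟩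
  | trans x y z _ _ ih1 ih2 =>
    refine ⟨ih1.1.trans ih2.1, fun h => ?_⟩
    obtain ⟨a, ha, ha'⟩ := ih1.2 h
    obtain ⟨b, hb, hb'⟩ := ih2.2 (ih1.1.1 h)
    exact ⟨a + b, Submodule.add_mem _ ha hb, by rw [map_add, ha', hb']; abel⟩

end flowaux

/-- Two paths with the same end points differ by the boundary of a chain. -/
theorem exists_bd_eq (hD : D.Ordered) {p q : V} {l l' : List E} (h : D.Path p l q)
    (h' : D.Path p l' q) : ∃ y ∈ D.Ck 1 p q, D.bd y =
      Finsupp.single (D.edges l') 1 - Finsupp.single (D.edges l) 1 :=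
  (D.flow_eqv (hD.conn p q l l' h h') p q).2 h

/-- A flow towards the vertex `q`: a path `c r` from every `r ≤ q` to `q`, and for every edge `e` a
chain `γ e` with boundary `e · c (t e) - c (i e)`. -/
structure RFlow (q : V) where
  c : V → List E
  γ : E → (List D.X →₀ ℤ)
  c_path : ∀ r, r ≤ q → D.Path r (c r) q
  c_top : c q = []
  γ_mem : ∀ e, D.t e ≤ q → γ e ∈ D.Ck 1 (D.i e) q
  γ_bd : ∀ e, D.t e ≤ q → D.bd (γ e) = Finsupp.single (D.edges (e :: c (D.t e))) 1 -
    Finsupp.single (D.edges (c (D.i e))) 1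

theorem exists_rflow (hD : D.Ordered) (q : V) : Nonempty (D.RFlow q) := by
  classical
  have hc : ∀ r : V, ∃ l : List E, (r ≤ q → D.Path r l q) ∧ (r = q → l = []) := by
    intro r
    by_cases h : r = q
    · exact ⟨[], fun _ => h, fun _ => rfl⟩
    · by_cases h' : r ≤ q
      · obtain ⟨l, hl⟩ := (hD.le_iff r q).1 h'
        exact ⟨l, fun _ => hl, fun h'' => absurd h'' h⟩
      · exact ⟨[], fun h'' => absurd h'' h', fun _ => rfl⟩
  choose c hc1 hc2 using hc
  have hγ : ∀ e : E, ∃ y : List D.X →₀ ℤ, D.t e ≤ q → (y ∈ D.Ck 1 (D.i e) q ∧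
      D.bd y = Finsupp.single (D.edges (e :: c (D.t e))) 1 -
        Finsupp.single (D.edges (c (D.i e))) 1) := by
    intro e
    by_cases h : D.t e ≤ q
    · have h1 : D.Path (D.i e) (c (D.i e)) q := hc1 _ ((hD.lt e).le.trans h)
      have h2 : D.Path (D.i e) (e :: c (D.t e)) q := ⟨rfl, hc1 _ h⟩
      obtain ⟨y, hy, hy'⟩ := D.exists_bd_eq hD h1 h2
      exact ⟨y, fun _ => ⟨hy, hy'⟩⟩
    · exact ⟨0, fun h' => absurd h' h⟩
  choose γ hγ using hγ
  exact ⟨⟨c, γ, hc1, hc2 q rfl, fun e he => (hγ e he).1, fun e he => (hγ e he).2⟩⟩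

namespace RFlow

variable {D} {q : V} (Φ : D.RFlow q)

/-- `Γ (e₁ … eₙ) = ∑ e₁ … e_{j-1} γ (e_j)`. -/
noncomputable def Gam : List E → (List D.X →₀ ℤ)
  | [] => 0
  | e :: l => Φ.γ e + cat (Finsupp.single [Sum.inl e] 1) (Gam l)

/-- `κ s = s · c (b s) - Γ (top s) + Γ (low s)`. -/
noncomputable def kap (s : D.Cell2) : List D.X →₀ ℤ :=
  Finsupp.single (Sum.inr s :: D.edges (Φ.c s.b)) 1 - Φ.Gam s.top + Φ.Gam (D.low s)

/-- The homotopy `Φ (x e₁ … eₙ) = ± x Γ (e₁ … eₙ)`, where `x` ends with a 2-cell or is empty. -/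
noncomputable def PhW : List D.X → (List D.X →₀ ℤ)
  | [] => 0
  | Sum.inl e :: l => cat (Finsupp.single [Sum.inl e] 1) (PhW l) +
      (if D.deg l = 0 then Φ.γ e else 0)
  | Sum.inr s :: l => - cat (Finsupp.single [Sum.inr s] 1) (PhW l)

noncomputable def Ph : (List D.X →₀ ℤ) →ₗ[ℤ] (List D.X →₀ ℤ) := Finsupp.linearCombination ℤ Φ.PhW

/-- `K (x s e₁ … eₙ) = x κ(s)`. -/
noncomputable def KpW : List D.X → (List D.X →₀ ℤ)
  | [] => 0
  | Sum.inl e :: l => cat (Finsupp.single [Sum.inl e] 1) (KpW l)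
  | Sum.inr s :: l => if D.deg l = 0 then Φ.kap s else cat (Finsupp.single [Sum.inr s] 1) (KpW l)

noncomputable def Kp : (List D.X →₀ ℤ) →ₗ[ℤ] (List D.X →₀ ℤ) := Finsupp.linearCombination ℤ Φ.KpW

theorem flow_le (hD : D.Ordered) {p r : V} {l : List D.X} (h : D.CPath p l r) : p ≤ r := by
  induction l generalizing p with
  | nil => exact le_of_eq h
  | cons x l ih =>
    obtain ⟨h1, h2⟩ := h
    refine le_trans ?_ (ih h2)
    rcases x with e | s
    · rw [← h1]; exact (hD.lt e).le
    · rw [← h1]; exact (hD.le_iff _ _).2 ⟨s.top, s.path⟩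

theorem flow_cons_mem {k : ℕ} {r : V} (e : E) {x : List D.X →₀ ℤ} (hx : x ∈ D.Ck k (D.t e) r) :
    cat (Finsupp.single [Sum.inl e] 1) x ∈ D.Ck k (D.i e) r := by
  have h1 : Finsupp.single ([Sum.inl e] : List D.X) (1 : ℤ) ∈ D.Ck 0 (D.i e) (D.t e) := by
    have := D.flow_single_edges_mem (p := D.i e) (q := D.t e) (l := [e]) ⟨rfl, rfl⟩ 1
    exact this
  have := D.cat_mem h1 hx
  rwa [zero_add] at this

theorem flow_bd_cons (e : E) (x : List D.X →₀ ℤ) :
    D.bd (cat (Finsupp.single [Sum.inl e] 1) x) =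
      cat (Finsupp.single [Sum.inl e] 1) (D.bd x) := by
  have h1 : Finsupp.single ([Sum.inl e] : List D.X) (1 : ℤ) ∈ D.Ck 0 (D.i e) (D.t e) := by
    have := D.flow_single_edges_mem (p := D.i e) (q := D.t e) (l := [e]) ⟨rfl, rfl⟩ 1
    exact this
  have h2 : D.bd (Finsupp.single ([Sum.inl e] : List D.X) (1 : ℤ)) = 0 := D.bd_edges [e] 1
  rw [D.bd_cat, h2, map_zero, LinearMap.zero_apply, zero_add, D.sg_of_mem h1, pow_zero, one_smul]

theorem flow_bd_cell_cat (s : D.Cell2) (x : List D.X →₀ ℤ) :
    D.bd (cat (Finsupp.single [Sum.inr s] 1) x) =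
      cat (Finsupp.single (D.edges s.top) 1) x - cat (Finsupp.single (D.edges (D.low s)) 1) x
        - cat (Finsupp.single [Sum.inr s] 1) (D.bd x) := by
  have h1 : Finsupp.single ([Sum.inr s] : List D.X) (1 : ℤ) ∈ D.Ck 1 s.a s.b := by
    have := D.single_mem (p := s.a) (q := s.b) (l := [Sum.inr s]) ⟨rfl, rfl⟩ 1
    exact this
  rw [D.bd_cat, D.bd_cell, D.sg_of_mem h1, pow_one, map_sub, LinearMap.sub_apply, neg_smul,
    one_smul, map_neg, LinearMap.neg_apply, sub_eq_add_neg _ (cat (Finsupp.single [Sum.inr s] 1) _)]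

theorem Gam_mem (hD : D.Ordered) {p r : V} {l : List E} (h : D.Path p l r) (hr : r ≤ q) :
    Φ.Gam l ∈ D.Ck 1 p q := by
  induction l generalizing p with
  | nil => exact Submodule.zero_mem _
  | cons e l ih =>
    obtain ⟨h1, h2⟩ := h
    subst h1
    have hle : D.t e ≤ q := ((hD.le_iff _ _).2 ⟨l, h2⟩).trans hr
    exact Submodule.add_mem _ (Φ.γ_mem e hle) (flow_cons_mem e (ih h2))

theorem bd_Gam (hD : D.Ordered) {p r : V} {l : List E} (h : D.Path p l r) (hr : r ≤ q) :
    D.bd (Φ.Gam l) = Finsupp.single (D.edges (l ++ Φ.c r)) 1 -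
      Finsupp.single (D.edges (Φ.c p)) 1 := by
  induction l generalizing p with
  | nil =>
    have h' : p = r := h
    subst h'
    rw [Gam, map_zero, List.nil_append, sub_self]
  | cons e l ih =>
    obtain ⟨h1, h2⟩ := h
    subst h1
    have hle : D.t e ≤ q := ((hD.le_iff _ _).2 ⟨l, h2⟩).trans hr
    have h3 : ∀ l' : List E, cat (Finsupp.single [Sum.inl e] 1) (Finsupp.single (D.edges l') 1) =
        (Finsupp.single (D.edges (e :: l')) 1 : List D.X →₀ ℤ) := by
      intro l'
      rw [cat_single, one_mul]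
      rfl
    rw [Gam, map_add, Φ.γ_bd e hle, flow_bd_cons, ih h2, map_sub, h3, h3]
    have h4 : e :: (l ++ Φ.c r) = e :: l ++ Φ.c r := rfl
    rw [h4]
    abel

theorem flow_Gam_append (l l' : List E) :
    Φ.Gam (l ++ l') = Φ.Gam l + cat (Finsupp.single (D.edges l) 1) (Φ.Gam l') := by
  induction l with
  | nil =>
    have h : D.edges ([] : List E) = [] := rfl
    rw [List.nil_append, Gam, h, nil_cat, zero_add]
  | cons e l ih =>
    rw [List.cons_append, Gam, ih, Gam, map_add, ← cat_assoc, cat_single, one_mul, add_assoc]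
    rfl

theorem kap_mem (hD : D.Ordered) (s : D.Cell2) (hs : s.b ≤ q) : Φ.kap s ∈ D.Ck 1 s.a q := by
  have h1 : Finsupp.single (Sum.inr s :: D.edges (Φ.c s.b)) (1 : ℤ) ∈ D.Ck 1 s.a q := by
    have h2 : D.CPath s.a (Sum.inr s :: D.edges (Φ.c s.b)) q :=
      ⟨rfl, D.cpath_edges.2 (Φ.c_path s.b hs)⟩
    have h3 := D.single_mem h2 1
    have h4 : D.deg (Sum.inr s :: D.edges (Φ.c s.b)) = 1 := by
      rw [Dcx.deg, D.deg_edges]
    rwa [h4] at h3
  exact Submodule.add_mem _ (Submodule.sub_mem _ h1 (Φ.Gam_mem hD s.path hs))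
    (Φ.Gam_mem hD (D.low_path s) hs)

theorem bd_kap (hD : D.Ordered) (s : D.Cell2) (hs : s.b ≤ q) : D.bd (Φ.kap s) = 0 := by
  have h1 : (Finsupp.single (Sum.inr s :: D.edges (Φ.c s.b)) 1 : List D.X →₀ ℤ) =
      cat (Finsupp.single [Sum.inr s] 1) (Finsupp.single (D.edges (Φ.c s.b)) 1) := by
    rw [cat_single, one_mul]
    rfl
  rw [kap, map_add, map_sub, h1, flow_bd_cell_cat, Φ.bd_Gam hD s.path hs,
    Φ.bd_Gam hD (D.low_path s) hs, D.bd_edges, map_zero, cat_single, cat_single, one_mul,
    ← D.flow_edges_append, ← D.flow_edges_append]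
  abel

theorem flow_linW_edges (l : List E) : D.linW (D.edges l) = 0 := by
  induction l with
  | nil => rfl
  | cons e l ih => exact ih

theorem flow_lin_cons (e : E) (x : List D.X →₀ ℤ) :
    D.lin (cat (Finsupp.single [Sum.inl e] 1) x) = D.lin x := by
  have h := D.lin_cat_edges [e] [] x
  have h1 : D.edges ([] : List E) = [] := rfl
  rw [h1, cat_nil] at h
  exact h

theorem flow_lin_Gam (l : List E) : D.lin (Φ.Gam l) =
    Finsupp.linearCombination ℤ (fun e => D.lin (Φ.γ e)) (sumE l) := by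
  induction l with
  | nil =>
    rw [Gam, map_zero]
    have : sumE ([] : List E) = 0 := rfl
    rw [this, map_zero]
  | cons e l ih =>
    have : sumE (e :: l) = Finsupp.single e (1 : ℤ) + sumE l := by
      simp [sumE]
    rw [Gam, map_add, flow_lin_cons, ih, this, map_add, Finsupp.linearCombination_single,
      one_smul]

/-- `lin (κ s) = s - g (∂ s)` with `g e = lin (γ e)`. -/
theorem lin_kap (s : D.Cell2) : D.lin (Φ.kap s) = Finsupp.single s 1 -
    Finsupp.linearCombination ℤ (fun e => D.lin (Φ.γ e)) (D.dF s) := by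
  have h1 : D.lin (Finsupp.single (Sum.inr s :: D.edges (Φ.c s.b)) 1) = Finsupp.single s 1 := by
    rw [Dcx.lin, Finsupp.linearCombination_single, one_smul, Dcx.linW, flow_linW_edges, add_zero]
  rw [kap, map_add, map_sub, h1, flow_lin_Gam, flow_lin_Gam, Dcx.dF, map_sub]
  abel

theorem flow_induction {k : ℕ} {p r : V} {motive : (List D.X →₀ ℤ) → Prop}
    (h0 : motive 0) (hadd : ∀ x y, motive x → motive y → motive (x + y))
    (hsmul : ∀ (n : ℤ) x, motive x → motive (n • x))
    (hw : ∀ l, D.CPath p l r → D.deg l = k → motive (Finsupp.single l 1))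
    {x : List D.X →₀ ℤ} (hx : x ∈ D.Ck k p r) : motive x := by
  rw [Dcx.Ck, Finsupp.supported_eq_span_single] at hx
  induction hx using Submodule.span_induction with
  | mem y hy =>
    obtain ⟨l, ⟨hl1, hl2⟩, rfl⟩ := hy
    exact hw l hl1 hl2
  | zero => exact h0
  | add x y _ _ hx hy => exact hadd x y hx hy
  | smul n x _ hx => exact hsmul n x hx

theorem flow_Ph_single (l : List D.X) (n : ℤ) : Φ.Ph (Finsupp.single l n) = n • Φ.PhW l := by
  rw [Ph, Finsupp.linearCombination_single]

theorem flow_Kp_single (l : List D.X) (n : ℤ) : Φ.Kp (Finsupp.single l n) = n • Φ.KpW l := by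
  rw [Kp, Finsupp.linearCombination_single]

theorem Ph_mem (hD : D.Ordered) {k : ℕ} {p : V} {x : List D.X →₀ ℤ} (hx : x ∈ D.Ck k p q) :
    Φ.Ph x ∈ D.Ck (k + 1) p q := by
  refine flow_induction (motive := fun x => Φ.Ph x ∈ D.Ck (k + 1) p q) ?_ ?_ ?_ ?_ hx
  · rw [map_zero]; exact Submodule.zero_mem _
  · intro x y hx hy
    rw [map_add]; exact Submodule.add_mem _ hx hy
  · intro n x hx
    rw [map_smul]; exact Submodule.smul_mem _ n hx
  · intro l hl hk
    rw [flow_Ph_single, one_smul]
    clear hx x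
    induction l generalizing p k with
    | nil => exact Submodule.zero_mem _
    | cons x l ih =>
      obtain ⟨h1, h2⟩ := hl
      rcases x with e | s
      · have h1' : D.i e = p := h1
        subst h1'
        have h2' : D.CPath (D.t e) l q := h2
        have hk' : D.deg l = k := hk
        refine Submodule.add_mem _ (flow_cons_mem e (ih h2' hk')) ?_
        split_ifs with h
        · rw [h] at hk'
          subst hk'
          exact Φ.γ_mem e (flow_le hD h2')
        · exact Submodule.zero_mem _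
      · have h1' : s.a = p := h1
        subst h1'
        have h2' : D.CPath s.b l q := h2
        have hk' : D.deg l + 1 = k := hk
        have h3 : Finsupp.single ([Sum.inr s] : List D.X) (1 : ℤ) ∈ D.Ck 1 s.a s.b := by
          have := D.single_mem (p := s.a) (q := s.b) (l := [Sum.inr s]) ⟨rfl, rfl⟩ 1
          exact this
        have h4 := D.cat_mem h3 (ih h2' rfl)
        have h5 : 1 + (D.deg l + 1) = k + 1 := by omega
        rw [h5] at h4
        exact Submodule.neg_mem _ h4

/-- the sum of the coefficients of the words of degree `0` -/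
noncomputable def flow_eps : (List D.X →₀ ℤ) →ₗ[ℤ] ℤ :=
  Finsupp.linearCombination ℤ fun l => if D.deg l = 0 then 1 else 0

theorem flow_eps_single (l : List D.X) (n : ℤ) : flow_eps (D := D) (Finsupp.single l n) =
    n • (if D.deg l = 0 then 1 else 0) := by
  rw [flow_eps, Finsupp.linearCombination_single]

theorem flow_eps_cons (e : E) (x : List D.X →₀ ℤ) :
    flow_eps (cat (Finsupp.single [Sum.inl e] 1) x) = flow_eps x := by
  induction x using Finsupp.induction_linear with
  | zero => rw [map_zero]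
  | add x y hx hy => rw [map_add, map_add, map_add, hx, hy]
  | single l n =>
    rw [cat_single, one_mul, flow_eps_single, flow_eps_single]
    rfl

theorem flow_eps_cell (s : D.Cell2) (x : List D.X →₀ ℤ) :
    flow_eps (cat (Finsupp.single [Sum.inr s] 1) x) = 0 := by
  induction x using Finsupp.induction_linear with
  | zero => rw [map_zero, map_zero]
  | add x y hx hy => rw [map_add, map_add, hx, hy, add_zero]
  | single l n =>
    rw [cat_single, one_mul, flow_eps_single]
    have : D.deg ([Sum.inr s] ++ l) ≠ 0 := by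
      change D.deg l + 1 ≠ 0
      omega
    rw [if_neg this, smul_zero]

theorem flow_eps_bdW (l : List D.X) : flow_eps (D.bdW l) = 0 := by
  induction l with
  | nil => rw [Dcx.bdW, map_zero]
  | cons x l ih =>
    rcases x with e | s
    · rw [Dcx.bdW, flow_eps_cons, ih]
    · rw [Dcx.bdW, map_sub, map_sub, flow_eps_single, flow_eps_single, flow_eps_cell,
        D.deg_append, D.deg_append, D.deg_edges, D.deg_edges, sub_self, sub_zero]

theorem flow_Ph_cons (e : E) (x : List D.X →₀ ℤ) :
    Φ.Ph (cat (Finsupp.single [Sum.inl e] 1) x) =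
      cat (Finsupp.single [Sum.inl e] 1) (Φ.Ph x) + flow_eps x • Φ.γ e := by
  induction x using Finsupp.induction_linear with
  | zero => simp
  | add x y hx hy =>
    rw [map_add, map_add, map_add, map_add, map_add, hx, hy, add_smul]
    abel
  | single l n =>
    rw [cat_single, one_mul, flow_Ph_single, flow_Ph_single, flow_eps_single, map_smul]
    have h : Φ.PhW ([Sum.inl e] ++ l) = cat (Finsupp.single [Sum.inl e] 1) (Φ.PhW l) +
      (if D.deg l = 0 then Φ.γ e else 0) := rfl
    rw [h, smul_add]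
    split_ifs <;> simp

theorem flow_Ph_cell (s : D.Cell2) (x : List D.X →₀ ℤ) :
    Φ.Ph (cat (Finsupp.single [Sum.inr s] 1) x) =
      - cat (Finsupp.single [Sum.inr s] 1) (Φ.Ph x) := by
  induction x using Finsupp.induction_linear with
  | zero => simp
  | add x y hx hy =>
    rw [map_add, map_add, map_add, map_add, hx, hy]
    abel
  | single l n =>
    rw [cat_single, one_mul, flow_Ph_single, flow_Ph_single, map_smul]
    have h : Φ.PhW ([Sum.inr s] ++ l) = - cat (Finsupp.single [Sum.inr s] 1) (Φ.PhW l) := rfl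
    rw [h, smul_neg]

theorem flow_PhW_edges (l : List E) : Φ.PhW (D.edges l) = Φ.Gam l := by
  induction l with
  | nil => rfl
  | cons e l ih =>
    have h : Φ.PhW (D.edges (e :: l)) = cat (Finsupp.single [Sum.inl e] 1) (Φ.PhW (D.edges l)) +
      (if D.deg (D.edges l) = 0 then Φ.γ e else 0) := rfl
    rw [h, ih, if_pos (D.deg_edges l), Gam, add_comm]

theorem flow_PhW_edges_append (l : List E) (l' : List D.X) (h : D.deg l' ≠ 0) :
    Φ.PhW (D.edges l ++ l') = cat (Finsupp.single (D.edges l) 1) (Φ.PhW l') := by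
  induction l with
  | nil =>
    have h1 : D.edges ([] : List E) = [] := rfl
    rw [h1, nil_cat, List.nil_append]
  | cons e l ih =>
    have h1 : Φ.PhW (D.edges (e :: l) ++ l') =
        cat (Finsupp.single [Sum.inl e] 1) (Φ.PhW (D.edges l ++ l')) +
      (if D.deg (D.edges l ++ l') = 0 then Φ.γ e else 0) := rfl
    have h2 : D.deg (D.edges l ++ l') ≠ 0 := by
      rw [D.deg_append, D.deg_edges, zero_add]
      exact h
    rw [h1, ih, if_neg h2, add_zero, ← cat_assoc, cat_single, one_mul]
    rfl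

/-- The homotopy identity. For a word `x = x' s π` (`s` the last 2-cell) of degree `k` from `p` to `q`:
`∂ Φ x + Φ ∂ x = x - x' κ(s)`. (It is convenient to prove it first for words ending at any `r ≤ q`,
with `x · c r` in place of `x`, by induction on the word from the left:
`Φ (e x) = e Φ x` and `Φ (s x) = - s Φ x` if `x` contains a 2-cell.) -/
theorem homotopy (hD : D.Ordered) {k : ℕ} {p : V} {x : List D.X →₀ ℤ}
    (hx : x ∈ D.Ck (k + 1) p q) : D.bd (Φ.Ph x) + Φ.Ph (D.bd x) = x - Φ.Kp x := by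
  refine flow_induction (motive := fun x => D.bd (Φ.Ph x) + Φ.Ph (D.bd x) = x - Φ.Kp x)
    ?_ ?_ ?_ ?_ hx
  · simp
  · intro x y hx hy
    simp only [map_add]
    have : D.bd (Φ.Ph x) + D.bd (Φ.Ph y) + (Φ.Ph (D.bd x) + Φ.Ph (D.bd y)) =
      (D.bd (Φ.Ph x) + Φ.Ph (D.bd x)) + (D.bd (Φ.Ph y) + Φ.Ph (D.bd y)) := by abel
    rw [this, hx, hy]
    abel
  · intro n x hx
    simp only [map_smul]
    rw [← smul_add, hx, smul_sub]
  · intro l hl hk
    rw [flow_Ph_single, flow_Kp_single, one_smul, one_smul, D.flow_bd_single, one_smul]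
    clear hx x
    induction l generalizing p k with
    | nil => exact absurd hk (by simp [Dcx.deg])
    | cons x l ih =>
      obtain ⟨h1, h2⟩ := hl
      rcases x with e | s
      · have h2' : D.CPath (D.t e) l q := h2
        have hk' : D.deg l = k + 1 := hk
        have e1 : Φ.PhW (Sum.inl e :: l) = cat (Finsupp.single [Sum.inl e] 1) (Φ.PhW l) := by
          rw [PhW, if_neg (by omega), add_zero]
        have e2 : D.bdW (Sum.inl e :: l) = cat (Finsupp.single [Sum.inl e] 1) (D.bdW l) := rfl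
        have e3 : Φ.KpW (Sum.inl e :: l) = cat (Finsupp.single [Sum.inl e] 1) (Φ.KpW l) := rfl
        have e4 : (Finsupp.single (Sum.inl e :: l) 1 : List D.X →₀ ℤ) =
            cat (Finsupp.single [Sum.inl e] 1) (Finsupp.single l 1) := by
          rw [cat_single, one_mul]
          rfl
        rw [e1, e2, e3, e4, flow_bd_cons, flow_Ph_cons, flow_eps_bdW, zero_smul, add_zero,
          ← map_add, ih h2' hk', map_sub]
      · have h2' : D.CPath s.b l q := h2
        have hk' : D.deg l + 1 = k + 1 := hk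
        have e1 : Φ.PhW (Sum.inr s :: l) = - cat (Finsupp.single [Sum.inr s] 1) (Φ.PhW l) := rfl
        have e2 : D.bdW (Sum.inr s :: l) = Finsupp.single (D.edges s.top ++ l) 1 -
          Finsupp.single (D.edges (D.low s) ++ l) 1 -
            cat (Finsupp.single [Sum.inr s] 1) (D.bdW l) := rfl
        have e4 : (Finsupp.single (Sum.inr s :: l) 1 : List D.X →₀ ℤ) =
            cat (Finsupp.single [Sum.inr s] 1) (Finsupp.single l 1) := by
          rw [cat_single, one_mul]
          rfl
        rcases Nat.eq_zero_or_pos (D.deg l) with h0 | h0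
        · obtain ⟨π, rfl⟩ := D.exists_edges h0
          have hπ : D.Path s.b π q := D.cpath_edges.1 h2'
          have e3 : Φ.KpW (Sum.inr s :: D.edges π) = Φ.kap s := by
            rw [KpW, if_pos h0]
          have e5 : D.bdW (D.edges π) = 0 := by
            have := D.bd_edges π 1
            rwa [D.flow_bd_single, one_smul] at this
          rw [e1, e2, e3, e4, e5, map_zero, sub_zero, map_neg, map_sub, flow_Ph_single,
            flow_Ph_single, one_smul, one_smul, ← D.flow_edges_append, ← D.flow_edges_append,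
            flow_PhW_edges, flow_PhW_edges, flow_PhW_edges, flow_Gam_append, flow_Gam_append,
            flow_bd_cell_cat, Φ.bd_Gam hD hπ le_rfl, Φ.c_top, List.append_nil, map_sub, kap]
          have e6 : cat (Finsupp.single [Sum.inr s] 1) (Finsupp.single (D.edges (Φ.c s.b)) 1) =
              (Finsupp.single (Sum.inr s :: D.edges (Φ.c s.b)) 1 : List D.X →₀ ℤ) := by
            rw [cat_single, one_mul]
            rfl
          rw [e6]
          abel
        · have e3 : Φ.KpW (Sum.inr s :: l) = cat (Finsupp.single [Sum.inr s] 1) (Φ.KpW l) := by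
            rw [KpW, if_neg (by omega)]
          obtain ⟨k', hk''⟩ : ∃ k', D.deg l = k' + 1 := ⟨D.deg l - 1, by omega⟩
          have hih := ih h2' hk''
          rw [e1, e2, e3, e4, map_neg, map_sub, map_sub, flow_Ph_single, flow_Ph_single, one_smul,
            one_smul, flow_PhW_edges_append _ _ _ (by omega),
            flow_PhW_edges_append _ _ _ (by omega), flow_bd_cell_cat, flow_Ph_cell, ← map_sub,
            ← hih, map_add]
          abel

end RFlow

end Dcx

end Pool.Agent.DG
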