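import Pool.Agent.MP_cff99f_al.Gen.B2

/-!
Block Gal: the closed vertices.
-/

namespace Pool.Agent.DG

universe w u₁ u₂ u₃

namespace GDC

variable {G : Type w} {V : Type u₁} {E : Type u₂} {F : Type u₃} [Group G] [PartialOrder V]
    [MulAction G V] [MulAction G E] [MulAction G F] (T : GDC G V E F)

open Classical in
/-- The least `v` with `A ≤ L v` (if there is one). -/
noncomputable def rho (A : Subgroup G) : V :=
  if h : ∃ v, T.IsRho A v then h.choose else T.bot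

/-- The greatest `v` with `B ≤ R v` (if there is one). -/
noncomputable def rhoS (B : Subgroup G) : V := OrderDual.ofDual (T.rev.rho B)

/-- The vertices `rho A`, `A` finitely generated. -/
def IsV (v : V) : Prop := ∃ A : Subgroup G, A.FG ∧ T.IsRho A v

/-- The vertices `rhoS B`, `B` finitely generated. -/
def IsZ (v : V) : Prop := ∃ B : Subgroup G, B.FG ∧ B ≤ T.R v ∧ ∀ v', B ≤ T.R v' → v' ≤ v

noncomputable def al (v : V) : V := T.rhoS (T.R v)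

noncomputable def be (v : V) : V := T.rho (T.L v)

/-- The closed vertices. -/
def Qset : Set V := {v | T.IsV v ∧ T.be (T.al v) = v}

theorem rho_eq {A : Subgroup G} {v : V} (h : T.IsRho A v) : T.rho A = v := by
  have h' : ∃ v, T.IsRho A v := ⟨v, h⟩
  unfold rho
  rw [dif_pos h']
  exact h'.choose_spec.unique T h

theorem rhoS_eq {B : Subgroup G} {v : V} (h : B ≤ T.R v) (h' : ∀ v', B ≤ T.R v' → v' ≤ v) :
    T.rhoS B = v := by
  have h1 : T.rev.IsRho B (OrderDual.toDual v) :=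
    ⟨h, fun v' hv' => h' (OrderDual.ofDual v') hv'⟩
  unfold rhoS
  rw [T.rev.rho_eq h1]
  rfl

theorem rho_spec (hinj : T.Inj) {A : Subgroup G} (hA : A.FG) : T.IsRho A (T.rho A) := by
  obtain ⟨v, hv⟩ := T.exists_isRho hinj A hA
  rw [T.rho_eq hv]
  exact hv

theorem rhoS_spec (hinj : T.Inj) {B : Subgroup G} (hB : B.FG) :
    B ≤ T.R (T.rhoS B) ∧ ∀ v', B ≤ T.R v' → v' ≤ T.rhoS B := by
  have h := T.rev.rho_spec (GDC.rev_inj hinj) hB
  exact ⟨h.1, fun v' hv' => h.2 (OrderDual.toDual v') hv'⟩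

/-- `R v` is finitely generated for `v = rho A` (`R_fg_of_isRho`). -/
theorem R_fg_of_isV (hinj : T.Inj) (h2 : TypeFP 2 G) {v : V} (h : T.IsV v) : (T.R v).FG := by
  obtain ⟨A, hA, hv⟩ := h
  exact T.R_fg_of_isRho hinj h2 A hA v hv

/-- The mirror image (apply `R_fg_of_isRho` to `T.rev`). -/
theorem L_fg_of_isZ (hinj : T.Inj) (h2 : TypeFP 2 G) {v : V} (h : T.IsZ v) : (T.L v).FG := by
  obtain ⟨B, hB, h1, h3⟩ := h
  exact T.rev.R_fg_of_isRho (GDC.rev_inj hinj) h2 B hB (OrderDual.toDual v)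
    ⟨h1, fun v' hv' => h3 (OrderDual.ofDual v') hv'⟩

theorem gal_isRho_smul (g : G) {A : Subgroup G} {v : V} (h : T.IsRho A v) :
    T.IsRho (A.map (MulAut.conj g).toMonoidHom) (g • v) := by
  constructor
  · rintro _ ⟨x, hx, rfl⟩
    rw [T.L_smul]
    have : g⁻¹ * (MulAut.conj g).toMonoidHom x * g = x := by
      simp [MulAut.conj_apply, mul_assoc]
    rw [this]
    exact h.1 hx
  · intro v' hv'
    have h1 : A ≤ T.L (g⁻¹ • v') := by
      intro x hx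
      rw [T.L_smul]
      have h2 : (MulAut.conj g).toMonoidHom x ∈ T.L v' := hv' ⟨x, hx, rfl⟩
      simpa [MulAut.conj_apply] using h2
    have h3 := T.smul_le g _ _ (h.2 _ h1)
    rwa [smul_inv_smul] at h3

theorem gal_L_map (g : G) (v : V) :
    (T.L v).map (MulAut.conj g).toMonoidHom = T.L (g • v) := by
  ext x
  rw [T.L_smul]
  constructor
  · rintro ⟨y, hy, rfl⟩
    have : g⁻¹ * (MulAut.conj g).toMonoidHom y * g = y := by
      simp [MulAut.conj_apply, mul_assoc]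
    rw [this]
    exact hy
  · intro h
    refine ⟨_, h, ?_⟩
    simp [MulAut.conj_apply, mul_assoc]

theorem gal_be_smul (g : G) (v : V) : T.be (g • v) = g • T.be v := by
  unfold be
  by_cases h : ∃ u, T.IsRho (T.L v) u
  · obtain ⟨u, hu⟩ := h
    have h1 := T.gal_isRho_smul g hu
    rw [T.gal_L_map] at h1
    rw [T.rho_eq h1, T.rho_eq hu]
  · have h' : ¬ ∃ u, T.IsRho (T.L (g • v)) u := by
      rintro ⟨u, hu⟩
      apply h
      have h1 := T.gal_isRho_smul g⁻¹ hu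
      rw [T.gal_L_map, inv_smul_smul] at h1
      exact ⟨_, h1⟩
    unfold rho
    rw [dif_neg h, dif_neg h']
    exact (T.toVD.smul_bot g).symm

theorem gal_al_eq (v : V) : T.al v = OrderDual.ofDual (T.rev.be (OrderDual.toDual v)) := rfl

theorem al_smul (g : G) (v : V) : T.al (g • v) = g • T.al v := by
  rw [gal_al_eq, gal_al_eq]
  have h := T.rev.gal_be_smul g (OrderDual.toDual v)
  exact congrArg OrderDual.ofDual h

theorem be_smul (g : G) (v : V) : T.be (g • v) = g • T.be v := T.gal_be_smul g v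

theorem smul_mem_Qset (g : G) {v : V} (h : v ∈ T.Qset) : g • v ∈ T.Qset := by
  obtain ⟨⟨A, hA, hv⟩, h2⟩ := h
  refine ⟨⟨A.map (MulAut.conj g).toMonoidHom, ?_, T.gal_isRho_smul g hv⟩, ?_⟩
  · rw [Subgroup.fg_iff_submonoid_fg] at hA ⊢
    exact hA.map _
  · rw [al_smul, be_smul, h2]

/-- The closed vertices, as a `G`-set. -/
def Q : SubMulAction G V where
  carrier := T.Qset
  smul_mem' g _ h := T.smul_mem_Qset g h

/-- For `v = rho A`: `v ≤ al v`, `R (al v) = R v`, `al v` is in `IsZ`. -/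
theorem al_spec (hinj : T.Inj) (h2 : TypeFP 2 G) {v : V} (h : T.IsV v) :
    T.IsZ (T.al v) ∧ v ≤ T.al v ∧ T.R (T.al v) = T.R v := by
  have hR := T.R_fg_of_isV hinj h2 h
  have h3 := T.rhoS_spec hinj hR
  have h4 : v ≤ T.al v := h3.2 v le_rfl
  exact ⟨⟨T.R v, hR, h3.1, h3.2⟩, h4, le_antisymm (T.R_anti _ _ h4) h3.1⟩

theorem be_spec (hinj : T.Inj) (h2 : TypeFP 2 G) {v : V} (h : T.IsZ v) :
    T.IsV (T.be v) ∧ T.be v ≤ v ∧ T.L (T.be v) = T.L v := by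
  have hL := T.L_fg_of_isZ hinj h2 h
  have h3 := T.rho_spec hinj hL
  have h4 : T.be v ≤ v := h3.2 v le_rfl
  exact ⟨⟨T.L v, hL, h3⟩, h4, le_antisymm (T.L_mono _ _ h4) h3.1⟩

/-- `be v` is closed for `v = rhoS B`. -/
theorem be_mem_Q (hinj : T.Inj) (h2 : TypeFP 2 G) {v : V} (h : T.IsZ v) : T.be v ∈ T.Q := by
  obtain ⟨h3, h4, h5⟩ := T.be_spec hinj h2 h
  obtain ⟨h6, h7, h8⟩ := T.al_spec hinj h2 h3
  obtain ⟨h9, h10, h11⟩ := T.be_spec hinj h2 h6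
  have hL1 := T.rho_spec hinj (T.L_fg_of_isZ hinj h2 h)
  have hL2 := T.rho_spec hinj (T.L_fg_of_isZ hinj h2 h6)
  refine ⟨h3, le_antisymm ?_ ?_⟩
  · refine hL2.2 _ ?_
    obtain ⟨B, hB, hB1, hB2⟩ := h
    have h12 : T.al (T.be v) ≤ v := by
      refine hB2 _ ?_
      rw [h8]
      exact hB1.trans (T.R_anti _ _ h4)
    rw [h5]
    exact T.L_mono _ _ h12
  · refine hL1.2 _ ?_
    rw [h11, ← h5]
    exact T.L_mono _ _ h7

theorem gal_isRho_bot : T.IsRho ⊥ T.bot := ⟨bot_le, fun v' _ => T.bot_le v'⟩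

theorem gal_isV_bot : T.IsV T.bot := ⟨⊥, Subgroup.FG.bot, T.gal_isRho_bot⟩

theorem bot_mem_Q (hinj : T.Inj) (h2 : TypeFP 2 G) : T.bot ∈ T.Q := by
  obtain ⟨h6, h7, h8⟩ := T.al_spec hinj h2 T.gal_isV_bot
  refine ⟨T.gal_isV_bot, ?_⟩
  have h3 : T.L (T.al T.bot) = ⊥ := by
    rw [Subgroup.eq_bot_iff_forall]
    intro x hx
    refine T.LR _ x hx ?_
    rw [h8]
    exact T.toVD.mem_R_bot x
  unfold be
  rw [h3]
  exact T.rho_eq T.gal_isRho_bot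

theorem gal_L_al {p : V} (hinj : T.Inj) (h2 : TypeFP 2 G) (hp : p ∈ T.Q) :
    T.L (T.al p) = T.L p := by
  obtain ⟨h3, h4⟩ := hp
  obtain ⟨h6, h7, h8⟩ := T.al_spec hinj h2 h3
  obtain ⟨h9, h10, h11⟩ := T.be_spec hinj h2 h6
  rw [h4] at h11
  exact h11.symm

theorem L_fg_Q (hinj : T.Inj) (h2 : TypeFP 2 G) {p : V} (hp : p ∈ T.Q) : (T.L p).FG := by
  rw [← T.gal_L_al hinj h2 hp]
  exact T.L_fg_of_isZ hinj h2 (T.al_spec hinj h2 hp.1).1

theorem R_fg_Q (hinj : T.Inj) (h2 : TypeFP 2 G) {p : V} (hp : p ∈ T.Q) : (T.R p).FG :=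
  T.R_fg_of_isV hinj h2 hp.1

/-- A closed vertex `p` is `rho (L p)`. -/
theorem le_of_L_Q (hinj : T.Inj) (h2 : TypeFP 2 G) {p : V} (hp : p ∈ T.Q) {v : V}
    (h : T.L p ≤ T.L v) : p ≤ v := by
  have h1 := T.rho_spec hinj (T.L_fg_of_isZ hinj h2 (T.al_spec hinj h2 hp.1).1)
  have h3 : T.rho (T.L (T.al p)) = p := hp.2
  rw [h3, T.gal_L_al hinj h2 hp] at h1
  exact h1.2 v h

theorem le_of_R_Q (hinj : T.Inj) (h2 : TypeFP 2 G) {p q : V} (hp : p ∈ T.Q) (hq : q ∈ T.Q)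
    (h : T.R q ≤ T.R p) : p ≤ q := by
  have h1 := T.rhoS_spec hinj (T.R_fg_Q hinj h2 hq)
  have h3 : p ≤ T.al q := h1.2 p h
  refine T.le_of_L_Q hinj h2 hp ?_
  rw [← T.gal_L_al hinj h2 hq]
  exact T.L_mono _ _ h3

/-- `p = be (al (rho A))`. -/
theorem exL_Q (hinj : T.Inj) (h2 : TypeFP 2 G) (A : Subgroup G) (hA : A.FG) :
    ∃ p ∈ T.Q, A ≤ T.L p ∧ ∀ q ∈ T.Q, A ≤ T.L q → p ≤ q := by
  have hv := T.rho_spec hinj hA
  have hV : T.IsV (T.rho A) := ⟨A, hA, hv⟩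
  obtain ⟨h6, h7, h8⟩ := T.al_spec hinj h2 hV
  obtain ⟨h9, h10, h11⟩ := T.be_spec hinj h2 h6
  refine ⟨T.be (T.al (T.rho A)), T.be_mem_Q hinj h2 h6, ?_, fun q hq hAq => ?_⟩
  · rw [h11]
    exact hv.1.trans (T.L_mono _ _ h7)
  · have h12 : T.rho A ≤ q := hv.2 q hAq
    have h13 : T.al (T.rho A) ≤ T.al q := by
      refine (T.rhoS_spec hinj (T.R_fg_Q hinj h2 hq)).2 _ ?_
      rw [h8]
      exact T.R_anti _ _ h12
    refine (T.rho_spec hinj (T.L_fg_of_isZ hinj h2 h6)).2 _ ?_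
    rw [← T.gal_L_al hinj h2 hq]
    exact T.L_mono _ _ h13

/-- `q = be (rhoS B)`. -/
theorem exR_Q (hinj : T.Inj) (h2 : TypeFP 2 G) (B : Subgroup G) (hB : B.FG) :
    ∃ q ∈ T.Q, B ≤ T.R q ∧ (∀ p ∈ T.Q, B ≤ T.R p → p ≤ q) ∧ q = T.be (T.rhoS B) := by
  have hz := T.rhoS_spec hinj hB
  have hZ : T.IsZ (T.rhoS B) := ⟨B, hB, hz.1, hz.2⟩
  obtain ⟨h9, h10, h11⟩ := T.be_spec hinj h2 hZ
  refine ⟨T.be (T.rhoS B), T.be_mem_Q hinj h2 hZ, hz.1.trans (T.R_anti _ _ h10),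
    fun p hp hBp => ?_, rfl⟩
  refine T.le_of_L_Q hinj h2 hp ?_
  rw [h11]
  exact T.L_mono _ _ (hz.2 p hBp)

/-- With `z = rhoS B` and `q' = be z`: `v ≤ z`, so `A ≤ L v ≤ L z = L q'`, so `p ≤ q' ≤ q`. -/
theorem cross_Q (hinj : T.Inj) (h2 : TypeFP 2 G) (A B : Subgroup G) (hA : A.FG) (hB : B.FG)
    (v p q : V) (hAv : A ≤ T.L v) (hBv : B ≤ T.R v)
    (hp : ∀ p' ∈ T.Q, A ≤ T.L p' → p ≤ p') (hq : ∀ q' ∈ T.Q, B ≤ T.R q' → q' ≤ q) : p ≤ q := by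
  have hz := T.rhoS_spec hinj hB
  have hZ : T.IsZ (T.rhoS B) := ⟨B, hB, hz.1, hz.2⟩
  obtain ⟨h9, h10, h11⟩ := T.be_spec hinj h2 hZ
  have hQ := T.be_mem_Q hinj h2 hZ
  refine (hp _ hQ ?_).trans (hq _ hQ (hz.1.trans (T.R_anti _ _ h10)))
  rw [h11]
  exact hAv.trans (T.L_mono _ _ (hz.2 v hBv))

end GDC

end Pool.Agent.DG
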