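import Pool.Agent.MP_cff99f_al.Gen.KThm

/-!
Block Gallery: two parallel paths are connected by moves across the 2-cells in the support of the
chain bounded by them.
-/

namespace Pool.Agent.DG

universe u v w

variable {α : Type u} {ι : Type v} {P : Pres α ι} {V E : Type w} [PartialOrder V]

namespace Dcx

variable (D : Dcx P V E)

/-- Moves across the 2-cells of `S`. -/
def MoveIn (S : Set D.Cell2) (l l' : List E) : Prop :=
  ∃ (A B : List E) (s : D.Cell2), s ∈ S ∧
    ((l = A ++ s.top ++ B ∧ l' = A ++ D.low s ++ B) ∨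
      (l = A ++ D.low s ++ B ∧ l' = A ++ s.top ++ B))

namespace Gal

variable {D}

theorem le_of_path (hD : D.Ordered) {p q : V} {l : List E} (h : D.Path p l q) : p ≤ q :=
  (hD.le_iff p q).2 ⟨l, h⟩

theorem lt_of_path (hD : D.Ordered) {p q : V} {l : List E} (h : D.Path p l q) (hl : l ≠ []) :
    p < q := by
  cases l with
  | nil => exact absurd rfl hl
  | cons e l =>
    obtain ⟨h1, h2⟩ := h
    subst h1
    exact lt_of_lt_of_le (hD.lt e) (le_of_path hD h2)

omit [PartialOrder V] in
theorem path_ends {p q p' q' : V} {l : List E} (h : D.Path p l q) (h' : D.Path p' l q')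
    (hl : l ≠ []) : p = p' ∧ q = q' := by
  cases l with
  | nil => exact absurd rfl hl
  | cons e l =>
    have h1 : p = p' := h.1.symm.trans h'.1
    subst h1
    exact ⟨rfl, pathIn_unique h h'⟩

variable (D) in
/-- the sides of a cell -/
def side (s : D.Cell2) : Bool → List E
  | true => s.top
  | false => D.low s

omit [PartialOrder V] in
theorem side_path (s : D.Cell2) (b : Bool) : D.Path s.a (side D s b) s.b := by
  cases b
  · exact D.low_path s
  · exact s.path

/-- the sign of a crossing -/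
def sgn : Bool → ℤ
  | true => -1
  | false => 1

theorem sgn_ne (b : Bool) : sgn b ≠ 0 := by cases b <;> simp [sgn]

omit [PartialOrder V] in
theorem sumE_side (s : D.Cell2) (b : Bool) :
    sumE (side D s (!b)) - sumE (side D s b) = sgn b • D.dF s := by
  cases b
  · simp [side, sgn, dF]
  · simp [side, sgn, dF]

theorem cell_lt (hD : D.Ordered) (hinj : ∀ k : D.Cell2 →₀ ℤ, bd2 D.dF k = 0 → k = 0)
    (s : D.Cell2) : s.a < s.b := by
  by_contra hc
  have h1 : ∀ b, side D s b = [] := by
    intro b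
    by_contra hb
    exact hc (lt_of_path hD (side_path s b) hb)
  have h2 : D.dF s = 0 := by
    have := sumE_side s false
    rw [h1, h1, sub_self] at this
    simpa [sgn] using this.symm
  have h3 := hinj (Finsupp.single s 1) (by
    unfold bd2
    rw [Finsupp.linearCombination_single, h2, smul_zero])
  rw [Finsupp.single_eq_zero] at h3
  exact one_ne_zero h3

theorem side_ne (hD : D.Ordered) (hinj : ∀ k : D.Cell2 →₀ ℤ, bd2 D.dF k = 0 → k = 0)
    (s : D.Cell2) (b : Bool) : side D s b ≠ [] := by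
  intro h
  have h1 := side_path s b
  rw [h] at h1
  have h2 : s.a = s.b := h1
  exact (cell_lt hD hinj s).ne h2

theorem path_split (hD : D.Ordered) (hinj : ∀ k : D.Cell2 →₀ ℤ, bd2 D.dF k = 0 → k = 0)
    {s : D.Cell2} {b : Bool} {A B : List E} {p q : V} :
    D.Path p (A ++ side D s b ++ B) q ↔ D.Path p A s.a ∧ D.Path s.b B q := by
  constructor
  · intro h
    obtain ⟨r', h1, h2⟩ := pathIn_append.1 h
    obtain ⟨r, h3, h4⟩ := pathIn_append.1 h1
    obtain ⟨h5, h6⟩ := path_ends h4 (side_path s b) (side_ne hD hinj s b)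
    subst h5; subst h6
    exact ⟨h3, h2⟩
  · rintro ⟨h1, h2⟩
    exact pathIn_append.2 ⟨s.b, pathIn_append.2 ⟨s.a, h1, side_path s b⟩, h2⟩

variable (D) in
omit [PartialOrder V] in
theorem moveIn_iff {S : Set D.Cell2} {l l' : List E} : D.MoveIn S l l' ↔
    ∃ (A B : List E) (s : D.Cell2) (b : Bool), s ∈ S ∧ l = A ++ side D s b ++ B ∧
      l' = A ++ side D s (!b) ++ B := by
  constructor
  · rintro ⟨A, B, s, hs, ⟨h1, h2⟩ | ⟨h1, h2⟩⟩
    · exact ⟨A, B, s, true, hs, h1, h2⟩
    · exact ⟨A, B, s, false, hs, h1, h2⟩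
  · rintro ⟨A, B, s, b, hs, h1, h2⟩
    cases b
    · exact ⟨A, B, s, hs, Or.inr ⟨h1, h2⟩⟩
    · exact ⟨A, B, s, hs, Or.inl ⟨h1, h2⟩⟩

variable (D) in
/-- walks of length `n` across the cells of `S` -/
def Wk (S : Set D.Cell2) : ℕ → List E → List E → Prop
  | 0, l, l' => l = l'
  | n + 1, l, l' => ∃ l₁, D.MoveIn S l l₁ ∧ Wk S n l₁ l'

omit [PartialOrder V] in
theorem MoveIn_mono {S S' : Set D.Cell2} (h : S ⊆ S') {l l' : List E} (hm : D.MoveIn S l l') :
    D.MoveIn S' l l' := by
  obtain ⟨A, B, s, hs, h1⟩ := hm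
  exact ⟨A, B, s, h hs, h1⟩

omit [PartialOrder V] in
theorem wk_mono {S S' : Set D.Cell2} (h : S ⊆ S') {n : ℕ} {l l' : List E} (hw : Wk D S n l l') :
    Wk D S' n l l' := by
  induction n generalizing l with
  | zero => exact hw
  | succ n ih =>
    obtain ⟨l₁, h1, h2⟩ := hw
    exact ⟨l₁, MoveIn_mono h h1, ih h2⟩

omit [PartialOrder V] in
theorem wk_append {S : Set D.Cell2} {n m : ℕ} {l l' l'' : List E} (hw : Wk D S n l l')
    (hw' : Wk D S m l' l'') : Wk D S (n + m) l l'' := by
  induction n generalizing l with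
  | zero =>
    have h : l = l' := hw
    subst h
    rw [Nat.zero_add]
    exact hw'
  | succ n ih =>
    obtain ⟨l₁, h1, h2⟩ := hw
    rw [Nat.add_right_comm]
    exact ⟨l₁, h1, ih h2⟩

omit [PartialOrder V] in
theorem wk_refl_trans {S : Set D.Cell2} {n : ℕ} {l l' : List E} (hw : Wk D S n l l') :
    Relation.ReflTransGen (D.MoveIn S) l l' := by
  induction n generalizing l with
  | zero =>
    have h : l = l' := hw
    subst h
    exact Relation.ReflTransGen.refl
  | succ n ih =>
    obtain ⟨l₁, h1, h2⟩ := hw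
    exact Relation.ReflTransGen.head h1 (ih h2)

omit [PartialOrder V] in
theorem moveIn_symm {S : Set D.Cell2} {l l' : List E} (h : D.MoveIn S l l') :
    D.MoveIn S l' l := by
  obtain ⟨A, B, s, hs, ⟨h1, h2⟩ | ⟨h1, h2⟩⟩ := h
  · exact ⟨A, B, s, hs, Or.inr ⟨h2, h1⟩⟩
  · exact ⟨A, B, s, hs, Or.inl ⟨h2, h1⟩⟩

omit [PartialOrder V] in
theorem wk_snoc {S : Set D.Cell2} {n : ℕ} {l l' l'' : List E} (hw : Wk D S n l l')
    (h : D.MoveIn S l' l'') : Wk D S (n + 1) l l'' :=
  wk_append hw ⟨l'', h, rfl⟩

omit [PartialOrder V] in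
theorem wk_symm {S : Set D.Cell2} {n : ℕ} {l l' : List E} (hw : Wk D S n l l') :
    Wk D S n l' l := by
  induction n generalizing l with
  | zero => exact Eq.symm hw
  | succ n ih =>
    obtain ⟨l₁, h1, h2⟩ := hw
    exact wk_snoc (ih h2) (moveIn_symm h1)

omit [PartialOrder V] in
theorem exists_wk {l l' : List E} (h : Relation.EqvGen D.Move l l') :
    ∃ n, Wk D Set.univ n l l' := by
  induction h with
  | rel l l' h =>
    obtain ⟨A, j, b, s, B, ⟨p, q, hp⟩, hs, rfl, rfl⟩ := h
    refine ⟨1, _, ?_, rfl⟩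
    cases b
    · refine ⟨A, B, ⟨p, q, j, D.flip j false s, D.flip_path j false p s q hp hs,
        D.flip_lab j false p s q hp hs⟩, Set.mem_univ _, Or.inr ⟨?_, rfl⟩⟩
      have := D.flip_flip j false p s q hp hs
      change A ++ s ++ B = A ++ D.flip j true (D.flip j false s) ++ B
      rw [← this]
      simp only [Bool.not_false] at this ⊢
      rw [this, this]
    · exact ⟨A, B, ⟨p, q, j, s, hp, hs⟩, Set.mem_univ _, Or.inl ⟨rfl, rfl⟩⟩
  | refl l => exact ⟨0, rfl⟩
  | symm l l' _ ih =>
    obtain ⟨n, hn⟩ := ih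
    exact ⟨n, wk_symm hn⟩
  | trans l l' l'' _ _ ih ih' =>
    obtain ⟨n, hn⟩ := ih
    obtain ⟨m, hm⟩ := ih'
    exact ⟨n + m, wk_append hn hm⟩

theorem moveIn_path (hD : D.Ordered) (hinj : ∀ k : D.Cell2 →₀ ℤ, bd2 D.dF k = 0 → k = 0)
    {S : Set D.Cell2} {l l' : List E} {p q : V} (hm : D.MoveIn S l l') (hl : D.Path p l q) :
    D.Path p l' q := by
  obtain ⟨A, B, s, b, _, rfl, rfl⟩ := (moveIn_iff D).1 hm
  rw [path_split hD hinj] at hl ⊢
  exact hl

theorem wk_path (hD : D.Ordered) (hinj : ∀ k : D.Cell2 →₀ ℤ, bd2 D.dF k = 0 → k = 0)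
    {S : Set D.Cell2} {n : ℕ} {l l' : List E} {p q : V} (hw : Wk D S n l l')
    (hl : D.Path p l q) : D.Path p l' q := by
  induction n generalizing l with
  | zero =>
    have h : l = l' := hw
    subst h
    exact hl
  | succ n ih =>
    obtain ⟨l₁, h1, h2⟩ := hw
    exact ih h2 (moveIn_path hD hinj h1 hl)

omit [PartialOrder V] in
theorem sumE_move (A B : List E) (s : D.Cell2) (b : Bool) :
    sumE (A ++ side D s (!b) ++ B) - sumE (A ++ side D s b ++ B) = sgn b • D.dF s := by
  rw [← sumE_side, sumE_append, sumE_append, sumE_append, sumE_append]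
  abel

omit [PartialOrder V] in
theorem bd2_single (s : D.Cell2) (n : ℤ) : bd2 D.dF (Finsupp.single s n) = n • D.dF s := by
  unfold bd2
  rw [Finsupp.linearCombination_single]

omit [PartialOrder V] in
theorem wk_chain {S : Set D.Cell2} {n : ℕ} {l l' : List E} (hw : Wk D S n l l') :
    ∃ y : D.Cell2 →₀ ℤ, (∀ c, y c ≠ 0 → c ∈ S) ∧ bd2 D.dF y = sumE l' - sumE l := by
  classical
  induction n generalizing l with
  | zero =>
    have h : l = l' := hw
    subst h
    exact ⟨0, by simp, by simp⟩
  | succ n ih =>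
    obtain ⟨l₁, h1, h2⟩ := hw
    obtain ⟨y, hy, hy'⟩ := ih h2
    obtain ⟨A, B, s, b, hs, rfl, rfl⟩ := (moveIn_iff D).1 h1
    refine ⟨y + Finsupp.single s (sgn b), ?_, ?_⟩
    · intro c hc
      by_cases hcs : c = s
      · rw [hcs]; exact hs
      · apply hy
        rw [Finsupp.add_apply, Finsupp.single_eq_of_ne hcs, add_zero] at hc
        exact hc
    · rw [map_add, bd2_single, hy', ← sumE_move A B s b]
      abel

omit [PartialOrder V] in
theorem first_cross {S : Set D.Cell2} {n : ℕ} {l l' : List E} (hw : Wk D S n l l')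
    (s : D.Cell2) : Wk D (S \ {s}) n l l' ∨ ∃ a b l₂ l₃, a + 1 + b = n ∧
      Wk D (S \ {s}) a l l₂ ∧ D.MoveIn {s} l₂ l₃ ∧ Wk D S b l₃ l' := by
  induction n generalizing l with
  | zero => exact Or.inl hw
  | succ n ih =>
    obtain ⟨l₁, h1, h2⟩ := hw
    obtain ⟨A, B, c, hc, h3⟩ := h1
    by_cases hcs : c = s
    · right
      exact ⟨0, n, l, l₁, by omega, rfl, ⟨A, B, c, by rw [hcs]; exact Set.mem_singleton _, h3⟩,
        h2⟩
    · have h1' : D.MoveIn (S \ {s}) l l₁ := ⟨A, B, c, ⟨hc, hcs⟩, h3⟩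
      rcases ih h2 with h4 | ⟨a, b, l₂, l₃, h5, h6, h7, h8⟩
      · exact Or.inl ⟨l₁, h1', h4⟩
      · exact Or.inr ⟨a + 1, b, l₂, l₃, by omega, ⟨l₁, h1', h6⟩, h7, h8⟩

/-- comparison of prefixes -/
theorem prefix_cmp (hD : D.Ordered) {p r r' : V} {A X A' X' : List E} (hA : D.Path p A r)
    (hA' : D.Path p A' r') (h : A ++ X = A' ++ X') (hr : r ≤ r') :
    ∃ C, A' = A ++ C ∧ X = C ++ X' := by
  rcases List.append_eq_append_iff.1 h with ⟨C, h1, h2⟩ | ⟨C, h1, h2⟩
  · exact ⟨C, h1, h2⟩
  · rw [h1] at hA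
    obtain ⟨r₁, h3, h4⟩ := pathIn_append.1 hA
    have h5 : r₁ = r' := pathIn_unique h3 hA'
    subst h5
    have h6 : C = [] := by
      by_contra hC
      exact absurd hr (not_le_of_gt (lt_of_path hD h4 hC))
    subst h6
    exact ⟨[], by rw [h1]; simp, by rw [h2]; simp⟩

theorem decomp_unique (hD : D.Ordered) {p r : V} {A X A' X' : List E} (hA : D.Path p A r)
    (hA' : D.Path p A' r) (h : A ++ X = A' ++ X') : A = A' ∧ X = X' := by
  obtain ⟨C, h1, h2⟩ := prefix_cmp hD hA hA' h le_rfl
  rw [h1] at hA'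
  obtain ⟨r₁, h3, h4⟩ := pathIn_append.1 hA'
  have h5 : r₁ = r := pathIn_unique h3 hA
  subst h5
  have h6 : C = [] := by
    by_contra hC
    exact absurd (lt_of_path hD h4 hC) (lt_irrefl _)
  subst h6
  exact ⟨by rw [h1]; simp, by rw [h2]; simp⟩

/-- one step of the transport -/
theorem transport_step (hD : D.Ordered)
    (hinj : ∀ k : D.Cell2 →₀ ℤ, bd2 D.dF k = 0 → k = 0) {S : Set D.Cell2} {s : D.Cell2}
    (hS : ∀ c ∈ S, c.b ≤ s.a ∨ s.b ≤ c.a) {β : Bool} {A B l₁ : List E} {p q : V}
    (hA : D.Path p A s.a) (hB : D.Path s.b B q)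
    (hm : D.MoveIn S (A ++ side D s β ++ B) l₁) :
    ∃ A' B', D.Path p A' s.a ∧ D.Path s.b B' q ∧ l₁ = A' ++ side D s β ++ B' ∧
      D.MoveIn S (A ++ side D s (!β) ++ B) (A' ++ side D s (!β) ++ B') := by
  obtain ⟨X, Y, c, b, hc, h1, rfl⟩ := (moveIn_iff D).1 hm
  have hpath : D.Path p (X ++ side D c b ++ Y) q := by
    rw [← h1]; exact (path_split hD hinj).2 ⟨hA, hB⟩
  obtain ⟨hX, hY⟩ := (path_split hD hinj).1 hpath
  rcases hS c hc with hle | hle
  · have h2 : D.Path p (X ++ side D c b) c.b := pathIn_append.2 ⟨c.a, hX, side_path c b⟩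
    obtain ⟨C, h3, h4⟩ := prefix_cmp hD h2 hA
      (show (X ++ side D c b) ++ Y = A ++ (side D s β ++ B) by
        rw [← h1]; simp only [List.append_assoc]) hle
    have hC : D.Path c.b C s.a := by
      rw [h3] at hA
      obtain ⟨r₁, h5, h6⟩ := pathIn_append.1 hA
      have h7 : r₁ = c.b := pathIn_unique h5 h2
      subst h7
      exact h6
    refine ⟨X ++ side D c (!b) ++ C, B, ?_, hB, ?_, ?_⟩
    · exact pathIn_append.2 ⟨c.b, pathIn_append.2 ⟨c.a, hX, side_path c _⟩, hC⟩
    · rw [h4]; simp only [List.append_assoc]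
    · rw [moveIn_iff]
      refine ⟨X, C ++ side D s (!β) ++ B, c, b, hc, ?_, ?_⟩
      · rw [h3]; simp only [List.append_assoc]
      · simp only [List.append_assoc]
  · have h2 : D.Path p (A ++ side D s β) s.b := pathIn_append.2 ⟨s.a, hA, side_path s β⟩
    obtain ⟨C, h3, h4⟩ := prefix_cmp hD h2 hX
      (show (A ++ side D s β) ++ B = X ++ (side D c b ++ Y) by
        rw [h1]; simp only [List.append_assoc]) hle
    have hC : D.Path s.b C c.a := by
      rw [h3] at hX
      obtain ⟨r₁, h5, h6⟩ := pathIn_append.1 hX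
      have h7 : r₁ = s.b := pathIn_unique h5 h2
      subst h7
      exact h6
    refine ⟨A, C ++ side D c (!b) ++ Y, hA, ?_, ?_, ?_⟩
    · exact pathIn_append.2 ⟨c.b, pathIn_append.2 ⟨c.a, hC, side_path c _⟩, hY⟩
    · rw [h3]; simp only [List.append_assoc]
    · rw [moveIn_iff]
      refine ⟨A ++ side D s (!β) ++ C, Y, c, b, hc, ?_, ?_⟩
      · rw [h4]; simp only [List.append_assoc]
      · simp only [List.append_assoc]

theorem transport (hD : D.Ordered)
    (hinj : ∀ k : D.Cell2 →₀ ℤ, bd2 D.dF k = 0 → k = 0) {S : Set D.Cell2} {s : D.Cell2}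
    (hS : ∀ c ∈ S, c.b ≤ s.a ∨ s.b ≤ c.a) {β : Bool} {n : ℕ} {A B A₂ B₂ : List E} {p q : V}
    (hA : D.Path p A s.a) (hB : D.Path s.b B q) (hA₂ : D.Path p A₂ s.a)
    (hw : Wk D S n (A ++ side D s β ++ B) (A₂ ++ side D s β ++ B₂)) :
    Wk D S n (A ++ side D s (!β) ++ B) (A₂ ++ side D s (!β) ++ B₂) := by
  induction n generalizing A B with
  | zero =>
    have h : A ++ side D s β ++ B = A₂ ++ side D s β ++ B₂ := hw
    rw [List.append_assoc, List.append_assoc] at h
    obtain ⟨h1, h2⟩ := decomp_unique hD hA hA₂ h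
    have h3 : B = B₂ := List.append_cancel_left h2
    rw [h1, h3]
    rfl
  | succ n ih =>
    obtain ⟨l₁, h1, h2⟩ := hw
    obtain ⟨A', B', h3, h4, rfl, h6⟩ := transport_step hD hinj hS hA hB h1
    exact ⟨_, h6, ih h3 h4 h2⟩

omit [PartialOrder V] in
theorem sumE_cons (e : E) (l : List E) : sumE (e :: l) = Finsupp.single e 1 + sumE l := by
  simp [sumE]

theorem sumE_supp (hD : D.Ordered) {p q : V} {l : List E} (h : D.Path p l q) :
    sumE l ∈ Finsupp.supported ℤ ℤ {e | p ≤ D.i e ∧ D.t e ≤ q} := by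
  induction l generalizing p with
  | nil =>
    have : sumE ([] : List E) = 0 := by simp [sumE]
    rw [this]
    exact Submodule.zero_mem _
  | cons e l ih =>
    obtain ⟨h1, h2⟩ := h
    rw [sumE_cons]
    apply Submodule.add_mem
    · apply Finsupp.single_mem_supported
      exact ⟨le_of_eq h1.symm, le_of_path hD h2⟩
    · refine Finsupp.supported_mono ?_ (ih h2)
      rintro e' ⟨h3, h4⟩
      refine ⟨?_, h4⟩
      rw [← h1]
      exact (hD.lt e).le.trans h3

theorem exists_fill (hD : D.Ordered) {p q : V} {l l' : List E} (h : D.Path p l q)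
    (h' : D.Path p l' q) : ∃ y : D.Cell2 →₀ ℤ, (∀ c, y c ≠ 0 → p ≤ c.a ∧ c.b ≤ q) ∧
      bd2 D.dF y = sumE l' - sumE l := by
  obtain ⟨y, hy, hy'⟩ := D.ex1 hD p q (le_of_path hD h) (sumE l' - sumE l)
    (Submodule.sub_mem _ (sumE_supp hD h') (sumE_supp hD h)) (by
      rw [map_sub, D.bd1_sumE h', D.bd1_sumE h, sub_self])
  refine ⟨y, fun c hc => ?_, hy'⟩
  exact (Finsupp.mem_supported ℤ y).1 hy (Finset.mem_coe.2 (Finsupp.mem_support_iff.2 hc))

theorem main (hD : D.Ordered) (hinj : ∀ k : D.Cell2 →₀ ℤ, bd2 D.dF k = 0 → k = 0) {p q : V}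
    (n : ℕ) : ∀ (l l' : List E), D.Path p l q → ∀ (y : D.Cell2 →₀ ℤ),
      bd2 D.dF y = sumE l' - sumE l → Wk D Set.univ n l l' →
      ∃ m, m ≤ n ∧ Wk D {s | y s ≠ 0} m l l' := by
  classical
  have huniq : ∀ x y : D.Cell2 →₀ ℤ, bd2 D.dF x = bd2 D.dF y → x = y := by
    intro x y h
    rw [← sub_eq_zero] at h ⊢
    apply hinj
    rw [map_sub]
    exact h
  induction n using Nat.strong_induction_on with
  | _ n ih =>
    intro l l' hl y hy hw
    cases n with
    | zero => exact ⟨0, le_rfl, hw⟩
    | succ n =>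
      obtain ⟨l₁, h1, h2⟩ := hw
      obtain ⟨A, B, s, b, -, rfl, rfl⟩ := (moveIn_iff D).1 h1
      obtain ⟨hA, hB⟩ := (path_split hD hinj).1 hl
      have hl₁ : D.Path p (A ++ side D s (!b) ++ B) q := (path_split hD hinj).2 ⟨hA, hB⟩
      set k₁ : D.Cell2 →₀ ℤ := y - Finsupp.single s (sgn b) with hk₁
      have hbd : bd2 D.dF k₁ = sumE l' - sumE (A ++ side D s (!b) ++ B) := by
        rw [hk₁, map_sub, bd2_single, hy, ← sumE_move A B s b]
        abel
      obtain ⟨m, hm, hwm⟩ := ih n (Nat.lt_succ_self n) _ l' hl₁ k₁ hbd h2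
      have hsub : ∀ c, c ≠ s → k₁ c = y c := by
        intro c hc
        rw [hk₁, Finsupp.sub_apply, Finsupp.single_eq_of_ne hc, sub_zero]
      by_cases hys : y s = 0
      · -- the bad case
        have hk1s : k₁ s ≠ 0 := by
          rw [hk₁, Finsupp.sub_apply, hys, Finsupp.single_eq_same, zero_sub, neg_ne_zero]
          exact sgn_ne b
        rcases first_cross hwm s with h3 | ⟨a, b', l₂, l₃, hab, h4, h5, h6⟩
        · exfalso
          obtain ⟨x, hx, hx'⟩ := wk_chain h3
          have h7 : x = k₁ := huniq _ _ (hx'.trans hbd.symm)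
          exact (hx s (by rw [h7]; exact hk1s)).2 rfl
        · obtain ⟨z, hz, hz'⟩ := wk_chain h4
          have hzs : z s = 0 := by
            by_contra hc
            exact (hz s hc).2 rfl
          obtain ⟨A₂, B₂, s', b₂, hs', rfl, rfl⟩ := (moveIn_iff D).1 h5
          have hs'' : s' = s := hs'
          subst hs''
          have hl₂ : D.Path p (A₂ ++ side D s' b₂ ++ B₂) q := wk_path hD hinj h4 hl₁
          obtain ⟨hA₂, hB₂⟩ := (path_split hD hinj).1 hl₂
          obtain ⟨z₁, hz₁, hz₁'⟩ := exists_fill hD hA hA₂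
          obtain ⟨z₂, hz₂, hz₂'⟩ := exists_fill hD hB hB₂
          have hslt := cell_lt hD hinj s'
          have hz₁s : z₁ s' = 0 := by
            by_contra hc
            exact absurd (hz₁ s' hc).2 (not_le_of_gt hslt)
          have hz₂s : z₂ s' = 0 := by
            by_contra hc
            exact absurd (hz₂ s' hc).1 (not_le_of_gt hslt)
          by_cases hbb : b₂ = b
          · exfalso
            subst hbb
            have h7 : z = z₁ + z₂ - Finsupp.single s' (sgn b₂) := by
              apply huniq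
              rw [map_sub, map_add, hz', hz₁', hz₂', bd2_single, ← sumE_side]
              simp only [sumE_append]
              abel
            have h8 : z s' = -sgn b₂ := by
              rw [h7, Finsupp.sub_apply, Finsupp.add_apply, hz₁s, hz₂s,
                Finsupp.single_eq_same]
              ring
            rw [hzs] at h8
            exact sgn_ne b₂ (by omega)
          · have hb2 : b₂ = !b := by cases b <;> cases b₂ <;> simp_all
            subst hb2
            have h7 : z = z₁ + z₂ := by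
              apply huniq
              rw [map_add, hz', hz₁', hz₂']
              simp only [sumE_append]
              abel
            obtain ⟨a', ha', hwa⟩ := ih a (by omega) _ _ hl₁ z hz'
              (wk_mono (Set.subset_univ _) h4)
            have hS : ∀ c ∈ {s | z s ≠ 0}, c.b ≤ s'.a ∨ s'.b ≤ c.a := by
              intro c hc
              have hc' : z c ≠ 0 := hc
              by_cases hc1 : z₁ c = 0
              · right
                have hc2 : z₂ c ≠ 0 := by
                  rw [h7, Finsupp.add_apply, hc1, zero_add] at hc'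
                  exact hc'
                exact (hz₂ c hc2).1
              · left
                exact (hz₁ c hc1).2
            have hw3 := transport hD hinj hS hA hB hA₂ hwa
            rw [Bool.not_not] at hw3 h6
            have hw4 : Wk D Set.univ (a' + b') (A ++ side D s' b ++ B) l' :=
              wk_append (wk_mono (Set.subset_univ _) hw3) (wk_mono (Set.subset_univ _) h6)
            obtain ⟨m', hm', hwm'⟩ := ih (a' + b') (by omega) _ l' hl y hy hw4
            exact ⟨m', by omega, hwm'⟩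
      · refine ⟨m + 1, by omega, A ++ side D s (!b) ++ B, ?_, ?_⟩
        · rw [moveIn_iff]
          exact ⟨A, B, s, b, hys, rfl, rfl⟩
        · refine wk_mono ?_ hwm
          intro c hc
          by_cases hcs : c = s
          · rw [hcs]; exact hys
          · have hc' : k₁ c ≠ 0 := hc
            rw [hsub c hcs] at hc'
            exact hc'

end Gal

/-- Proof. A move across the 2-cell `s` changes the chain `sumE l` by `± D.dF s`. Consider a sequence
of moves from `l` to `l'` (`Ordered.conn`) of minimal length. It suffices to show that no 2-cell is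
crossed twice: then by injectivity `y` is the signed sum of the crossed cells, and its support is
the set of the crossed cells. Suppose `s` is crossed twice; choose such a pair of crossings of one
cell `s` as close to each other as possible, so that the cells `c₁, …, c_k` crossed in between are
different from each other and from `s`. Just after the first crossing the path is `A σ B`, just
before the second one it is `A' σ' B'`, where `σ, σ'` are sides (top or low) of `s`.
If `σ' = σ`: the signed sum `z` of the `c_i` has boundary `(A' - A) + (B' - B)`, so by `ex1` (for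
`[p, a s]` and `[b s, q]`) and injectivity every `c_i` lies in `[p, a s]` or in `[b s, q]`. So all
paths in between have the form `A'' σ B''` (the vertices along a path increase strictly), and the
moves in between can be made with the other side of `s` in place of `σ`; the two crossings of `s` can be
omitted, a contradiction.
If `σ' ≠ σ`: the boundary of `z` is `(A' - A) + (B' - B) ± D.dF s`, so `z = z₁ + z₂ ± s` with
`z₁, z₂` supported in `[p, a s]`, `[b s, q]`, so `s` is in the support of `z`, a contradiction. -/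
theorem gallery (hD : D.Ordered) (hinj : ∀ k : D.Cell2 →₀ ℤ, bd2 D.dF k = 0 → k = 0) {p q : V}
    {l l' : List E} (hl : D.Path p l q) (hl' : D.Path p l' q) (y : D.Cell2 →₀ ℤ)
    (hy : bd2 D.dF y = sumE l' - sumE l) :
    Relation.ReflTransGen (D.MoveIn {s | y s ≠ 0}) l l' := by
  obtain ⟨n, hn⟩ := Gal.exists_wk (hD.conn p q l l' hl hl')
  obtain ⟨m, -, hm⟩ := Gal.main hD hinj n l l' hl y hy hn
  exact Gal.wk_refl_trans hm

end Dcx

end Pool.Agent.DG
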