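import Pool.Agent.MP_cff99f_al.Gen.Flow

/-!
Block KThm: cycles in the path complexes, and exactness of intervals.
-/

namespace Pool.Agent.DG

universe u v w

variable {α : Type u} {ι : Type v} {P : Pres α ι} {V E : Type w} [PartialOrder V]

set_option linter.unusedSectionVars false

namespace KThmAux

/-- Induction principle for supported chains. -/
theorem supp_ind {X W : Type*} [AddCommGroup W] {S : Set X} (f : (X →₀ ℤ) →ₗ[ℤ] W)
    (M : Submodule ℤ W) (h : ∀ x ∈ S, f (Finsupp.single x 1) ∈ M) :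
    ∀ z ∈ Finsupp.supported ℤ ℤ S, f z ∈ M := by
  have h1 : Finsupp.supported ℤ ℤ S ≤ M.comap f := by
    rw [Finsupp.supported_eq_span_single, Submodule.span_le]
    rintro _ ⟨x, hx, rfl⟩
    exact h x hx
  intro z hz
  exact h1 hz

end KThmAux

namespace Dcx

variable (D : Dcx P V E)

open KThmAux

theorem KThm_bd_single (l : List D.X) : D.bd (Finsupp.single l 1) = D.bdW l := by
  rw [bd, Finsupp.linearCombination_single, one_smul]

theorem KThm_edges_mem {p q : V} {l : List E} (h : D.Path p l q) :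
    Finsupp.single (D.edges l) (1 : ℤ) ∈ D.Ck 0 p q := by
  have := D.single_mem (D.cpath_edges.2 h) 1
  rwa [D.deg_edges] at this

theorem KThm_sg_edges (l : List E) :
    D.sg (Finsupp.single (D.edges l) 1) = Finsupp.single (D.edges l) 1 := by
  rw [sg, Finsupp.linearCombination_single, one_smul, D.deg_edges, pow_zero]

/-- `bd (a · κ) = a · bd κ` for a path `a`. -/
theorem KThm_bd_edges_cat (l : List E) (x : List D.X →₀ ℤ) :
    D.bd (cat (Finsupp.single (D.edges l) 1) x) =
      cat (Finsupp.single (D.edges l) 1) (D.bd x) := by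
  rw [D.bd_cat, D.bd_edges, D.KThm_sg_edges, map_zero, LinearMap.zero_apply, zero_add]

/-- the path order: a word from `p` to `q` has `p ≤ q` -/
theorem KThm_le (hD : D.Ordered) {p q : V} {l : List D.X} (h : D.CPath p l q) : p ≤ q := by
  induction l generalizing p with
  | nil => exact le_of_eq h
  | cons x l ih =>
    obtain ⟨h1, h2⟩ := h
    refine le_trans ?_ (ih h2)
    subst h1
    rcases x with e | s
    · exact (hD.lt e).le
    · exact (hD.le_iff _ _).2 ⟨s.top, s.path⟩

theorem KThm_cell_le (hD : D.Ordered) {p q : V} {l : List D.X} (h : D.CPath p l q)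
    (s : D.Cell2) (hs : Sum.inr s ∈ l) : p ≤ s.a ∧ s.b ≤ q := by
  induction l generalizing p with
  | nil => simp at hs
  | cons x l ih =>
    obtain ⟨h1, h2⟩ := h
    rcases List.mem_cons.1 hs with h3 | h3
    · subst h3
      exact ⟨le_of_eq h1.symm, D.KThm_le hD h2⟩
    · refine ⟨le_trans ?_ (ih h2 h3).1, (ih h2 h3).2⟩
      have h4 : D.CPath p [x] (D.xt x) := ⟨h1, rfl⟩
      exact D.KThm_le hD h4

/-- a path from `p` to `r` (if `p ≤ r`) -/
theorem KThm_paths (hD : D.Ordered) (p : V) : ∃ c : V → List E, ∀ r, p ≤ r → D.Path p (c r) r := by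
  classical
  refine ⟨fun r => if h : ∃ l, D.Path p l r then h.choose else [], fun r hr => ?_⟩
  have h := (hD.le_iff p r).1 hr
  simp only [h, dif_pos]
  exact h.choose_spec

/-- paths to a fixed vertex -/
theorem KThm_paths' (hD : D.Ordered) (q : V) : ∃ c : V → List E, ∀ r, r ≤ q → D.Path r (c r) q := by
  classical
  refine ⟨fun r => if h : ∃ l, D.Path r l q then h.choose else [], fun r hr => ?_⟩
  have h := (hD.le_iff r q).1 hr
  simp only [h, dif_pos]
  exact h.choose_spec

/-- The map `s ↦ a(s) κ(s)`. -/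
noncomputable def KThmT {q : V} (Φ : D.RFlow q) (a : V → List E) :
    (D.Cell2 →₀ ℤ) →ₗ[ℤ] (List D.X →₀ ℤ) :=
  Finsupp.linearCombination ℤ fun s => cat (Finsupp.single (D.edges (a s.a)) 1) (Φ.kap s)

theorem KThmT_single {q : V} (Φ : D.RFlow q) (a : V → List E) (s : D.Cell2) :
    D.KThmT Φ a (Finsupp.single s 1) = cat (Finsupp.single (D.edges (a s.a)) 1) (Φ.kap s) := by
  rw [KThmT, Finsupp.linearCombination_single, one_smul]

theorem KThm_lin_cat {q : V} (Φ : D.RFlow q) (l : List E) (s : D.Cell2) :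
    D.lin (cat (Finsupp.single (D.edges l) 1) (Φ.kap s)) = D.lin (Φ.kap s) := by
  have h := D.lin_cat_edges l [] (Φ.kap s)
  have e : D.edges [] = [] := rfl
  rwa [e, cat_nil] at h

/-- K1: every 2-cycle `k` of the interval `[p, q]` is the linearisation of a 1-cycle of the path
complex: `∑ k s • a(s) κ(s)`, with `a(s)` a path from `p` to `a s` (`lin_kap`). -/
theorem exists_cycle (hD : D.Ordered) {p q : V} {k : D.Cell2 →₀ ℤ}
    (hk : k ∈ Finsupp.supported ℤ ℤ {s : D.Cell2 | p ≤ s.a ∧ s.b ≤ q})
    (h : bd2 D.dF k = 0) : ∃ z ∈ D.Ck 1 p q, D.bd z = 0 ∧ D.lin z = k := by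
  obtain ⟨Φ⟩ := D.exists_rflow hD q
  obtain ⟨a, ha⟩ := D.KThm_paths hD p
  refine ⟨D.KThmT Φ a k, ?_, ?_, ?_⟩
  · refine supp_ind (D.KThmT Φ a) (D.Ck 1 p q) ?_ k hk
    rintro s ⟨h1, h2⟩
    rw [D.KThmT_single]
    have := D.cat_mem (D.KThm_edges_mem (ha s.a h1)) (Φ.kap_mem hD s h2)
    rwa [zero_add] at this
  · have := supp_ind (D.bd.comp (D.KThmT Φ a)) ⊥ ?_ k hk
    · simpa using this
    · rintro s ⟨h1, h2⟩
      rw [LinearMap.comp_apply, D.KThmT_single, D.KThm_bd_edges_cat, Φ.bd_kap hD s h2, map_zero]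
      exact Submodule.zero_mem _
  · have := supp_ind (D.lin.comp (D.KThmT Φ a) - LinearMap.id +
      (Finsupp.linearCombination ℤ (fun e => D.lin (Φ.γ e))).comp (bd2 D.dF)) ⊥ ?_ k hk
    · rw [Submodule.mem_bot] at this
      simp only [LinearMap.add_apply, LinearMap.sub_apply, LinearMap.comp_apply,
        LinearMap.id_apply, h, map_zero, add_zero] at this
      exact sub_eq_zero.1 this
    · rintro s ⟨h1, h2⟩
      rw [Submodule.mem_bot]
      simp only [LinearMap.add_apply, LinearMap.sub_apply, LinearMap.comp_apply,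
        LinearMap.id_apply]
      rw [D.KThmT_single, D.KThm_lin_cat, Φ.lin_kap, bd2, Finsupp.linearCombination_single,
        one_smul]
      abel

/-- words of degree one -/
theorem KThm_deg_one {l : List D.X} (h : D.deg l = 1) : ∃ (A B : List E) (s : D.Cell2),
    l = D.edges A ++ (Sum.inr s :: D.edges B) := by
  induction l with
  | nil => simp [deg] at h
  | cons x l ih =>
    rcases x with e | s
    · obtain ⟨A, B, s, rfl⟩ := ih h
      exact ⟨e :: A, B, s, rfl⟩
    · have h1 : D.deg l = 0 := by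
        have : D.deg l + 1 = 1 := h
        omega
      obtain ⟨B, rfl⟩ := D.exists_edges h1
      exact ⟨[], B, s, rfl⟩

theorem KThm_KpW {q : V} (Φ : D.RFlow q) (A B : List E) (s : D.Cell2) :
    Φ.KpW (D.edges A ++ (Sum.inr s :: D.edges B)) =
      cat (Finsupp.single (D.edges A) 1) (Φ.kap s) := by
  induction A with
  | nil =>
    have e : D.edges [] = [] := rfl
    rw [e, List.nil_append, nil_cat]
    simp [RFlow.KpW, D.deg_edges]
  | cons e A ih =>
    have h1 : Φ.KpW (D.edges (e :: A) ++ (Sum.inr s :: D.edges B)) =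
        cat (Finsupp.single [Sum.inl e] 1) (Φ.KpW (D.edges A ++ (Sum.inr s :: D.edges B))) := rfl
    rw [h1, ih, ← cat_assoc, cat_single]
    simp [edges]

theorem KThm_linW (A B : List E) (s : D.Cell2) :
    D.linW (D.edges A ++ (Sum.inr s :: D.edges B)) = Finsupp.single s 1 := by
  have hB : ∀ B : List E, D.linW (D.edges B) = 0 := by
    intro B
    induction B with
    | nil => rfl
    | cons e B ih => exact ih
  induction A with
  | nil =>
    have e : D.linW (D.edges [] ++ (Sum.inr s :: D.edges B)) =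
        Finsupp.single s 1 + D.linW (D.edges B) := rfl
    rw [e, hB, add_zero]
  | cons e A ih => exact ih

/-- K3: a 1-cycle with linearisation `0` is a boundary: by `homotopy` it is homologous to
`Kp z`, a combination of terms `x' κ(s)`, which is homologous to `∑ (lin z) s • a(s) κ(s)`. -/
theorem exists_bd_of_lin (hD : D.Ordered) {p q : V} {z : List D.X →₀ ℤ} (hz : z ∈ D.Ck 1 p q)
    (h : D.bd z = 0) (h' : D.lin z = 0) : ∃ y ∈ D.Ck 2 p q, D.bd y = z := by
  obtain ⟨Φ⟩ := D.exists_rflow hD q
  obtain ⟨a, ha⟩ := D.KThm_paths hD p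
  have key : Φ.Kp z - D.KThmT Φ a (D.lin z) ∈ (D.Ck 2 p q).map D.bd := by
    have := supp_ind (Φ.Kp - (D.KThmT Φ a).comp D.lin) ((D.Ck 2 p q).map D.bd) ?_ z hz
    · simpa using this
    · rintro x ⟨h1, h2⟩
      obtain ⟨A, B, s, rfl⟩ := D.KThm_deg_one h2
      obtain ⟨r, h3, h4⟩ := D.cpath_append.1 h1
      have h5 : s.a = r := h4.1
      subst h5
      have hA : D.Path p A s.a := D.cpath_edges.1 h3
      have hb : s.b ≤ q := D.KThm_le hD (h4.2 : D.CPath s.b (D.edges B) q)
      obtain ⟨y, hy, hy'⟩ := D.exists_bd_eq hD (ha s.a (D.KThm_le hD h3)) hA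
      rw [LinearMap.sub_apply, LinearMap.comp_apply, RFlow.Kp, lin,
        Finsupp.linearCombination_single, Finsupp.linearCombination_single, one_smul, one_smul,
        D.KThm_KpW, D.KThm_linW, D.KThmT_single]
      refine ⟨cat y (Φ.kap s), D.cat_mem hy (Φ.kap_mem hD s hb), ?_⟩
      rw [D.bd_cat, Φ.bd_kap hD s hb, hy', map_zero, add_zero, map_sub, LinearMap.sub_apply]
  rw [h', map_zero, sub_zero] at key
  obtain ⟨y, hy, hy'⟩ := key
  have h1 := Φ.homotopy hD hz
  rw [h, map_zero, add_zero] at h1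
  refine ⟨Φ.Ph z + y, Submodule.add_mem _ (Φ.Ph_mem hD hz) hy, ?_⟩
  rw [map_add, hy', h1]
  abel

section AW

open Classical in
/-- The part of a word before its last 2-cell, if the latter is `s`. -/
noncomputable def KThmAW (s : D.Cell2) : List D.X → (List D.X →₀ ℤ)
  | [] => 0
  | Sum.inl e :: l => cat (Finsupp.single [Sum.inl e] 1) (KThmAW s l)
  | Sum.inr s' :: l => if D.deg l = 0 then (if s' = s then Finsupp.single [] 1 else 0)
      else cat (Finsupp.single [Sum.inr s'] 1) (KThmAW s l)

noncomputable def KThmA (s : D.Cell2) : (List D.X →₀ ℤ) →ₗ[ℤ] (List D.X →₀ ℤ) :=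
  Finsupp.linearCombination ℤ (D.KThmAW s)

theorem KThmA_single (s : D.Cell2) (l : List D.X) (n : ℤ) :
    D.KThmA s (Finsupp.single l n) = n • D.KThmAW s l := by
  rw [KThmA, Finsupp.linearCombination_single]

theorem KThmAW_edges (s : D.Cell2) (l : List E) : D.KThmAW s (D.edges l) = 0 := by
  induction l with
  | nil => rfl
  | cons e l ih =>
    have h1 : D.KThmAW s (D.edges (e :: l)) =
        cat (Finsupp.single [Sum.inl e] 1) (D.KThmAW s (D.edges l)) := rfl
    rw [h1, ih, map_zero]

theorem KThmAW_append (s : D.Cell2) (w : List E) (l : List D.X) :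
    D.KThmAW s (D.edges w ++ l) = cat (Finsupp.single (D.edges w) 1) (D.KThmAW s l) := by
  induction w with
  | nil =>
    have e : D.edges [] = [] := rfl
    rw [e, List.nil_append, nil_cat]
  | cons e w ih =>
    have h1 : D.KThmAW s (D.edges (e :: w) ++ l) =
        cat (Finsupp.single [Sum.inl e] 1) (D.KThmAW s (D.edges w ++ l)) := rfl
    rw [h1, ih, ← cat_assoc, cat_single]
    simp [edges]

theorem KThmA_cat_edge (s : D.Cell2) (e : E) (y : List D.X →₀ ℤ) :
    D.KThmA s (cat (Finsupp.single [Sum.inl e] 1) y) =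
      cat (Finsupp.single [Sum.inl e] 1) (D.KThmA s y) := by
  induction y using Finsupp.induction_linear with
  | zero => simp
  | add f g hf hg => simp only [map_add, hf, hg]
  | single l n =>
    rw [cat_single, KThmA_single, KThmA_single, one_mul, map_smul]
    rfl

/-- sum of the coefficients -/
noncomputable def KThmEps : (List D.X →₀ ℤ) →ₗ[ℤ] ℤ := Finsupp.linearCombination ℤ fun _ => (1 : ℤ)

theorem KThmEps_single (l : List D.X) (n : ℤ) : D.KThmEps (Finsupp.single l n) = n := by
  rw [KThmEps, Finsupp.linearCombination_single]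
  simp

theorem KThmEps_cat (x y : List D.X →₀ ℤ) :
    D.KThmEps (cat x y) = D.KThmEps x * D.KThmEps y := by
  induction x using Finsupp.induction_linear with
  | zero => simp
  | add f g hf hg => rw [map_add, LinearMap.add_apply, map_add, map_add, hf, hg, add_mul]
  | single l n =>
    induction y using Finsupp.induction_linear with
    | zero => simp
    | add f g hf hg => rw [map_add, map_add, map_add, hf, hg, mul_add]
    | single l' n' => rw [cat_single, KThmEps_single, KThmEps_single, KThmEps_single]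

theorem KThmEps_bd (l : List D.X) : D.KThmEps (D.bdW l) = 0 := by
  induction l with
  | nil => simp [bdW]
  | cons x l ih =>
    rcases x with e | s
    · have h1 : D.bdW (Sum.inl e :: l) = cat (Finsupp.single [Sum.inl e] 1) (D.bdW l) := rfl
      rw [h1, KThmEps_cat, ih, mul_zero]
    · have h1 : D.bdW (Sum.inr s :: l) = Finsupp.single (D.edges s.top ++ l) 1 -
        Finsupp.single (D.edges (D.low s) ++ l) 1 -
          cat (Finsupp.single [Sum.inr s] 1) (D.bdW l) := rfl
      rw [h1, map_sub, map_sub, KThmEps_single, KThmEps_single, KThmEps_cat, ih, mul_zero]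
      norm_num

/-- prefixing a 2-cell, words of positive degree -/
theorem KThmA_cat_cell (s s' : D.Cell2) {k : ℕ} {p q : V} {y : List D.X →₀ ℤ}
    (hy : y ∈ D.Ck (k + 1) p q) :
    D.KThmA s (cat (Finsupp.single [Sum.inr s'] 1) y) =
      cat (Finsupp.single [Sum.inr s'] 1) (D.KThmA s y) := by
  have := supp_ind ((D.KThmA s).comp (cat (Finsupp.single [Sum.inr s'] 1)) -
    (cat (Finsupp.single [Sum.inr s'] 1)).comp (D.KThmA s)) ⊥ ?_ y hy
  · rw [Submodule.mem_bot, LinearMap.sub_apply, LinearMap.comp_apply, LinearMap.comp_apply] at this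
    exact sub_eq_zero.1 this
  · rintro l ⟨h1, h2⟩
    rw [Submodule.mem_bot, LinearMap.sub_apply, LinearMap.comp_apply, LinearMap.comp_apply,
      cat_single, KThmA_single, KThmA_single, one_mul, one_smul, one_smul, sub_eq_zero]
    have h3 : D.deg l ≠ 0 := by omega
    simp [KThmAW, h3]

/-- prefixing a 2-cell, words of degree zero -/
theorem KThmA_cat_cell_zero (s s' : D.Cell2) {p q : V} {y : List D.X →₀ ℤ}
    (hy : y ∈ D.Ck 0 p q) (he : D.KThmEps y = 0) :
    D.KThmA s (cat (Finsupp.single [Sum.inr s'] 1) y) = 0 := by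
  classical
  have := supp_ind ((D.KThmA s).comp (cat (Finsupp.single [Sum.inr s'] 1)) -
    D.KThmEps.smulRight (if s' = s then Finsupp.single [] (1 : ℤ) else 0)) ⊥ ?_ y hy
  · rw [Submodule.mem_bot, LinearMap.sub_apply, LinearMap.comp_apply,
      LinearMap.smulRight_apply, he, zero_smul, sub_zero] at this
    exact this
  · rintro l ⟨h1, h2⟩
    rw [Submodule.mem_bot, LinearMap.sub_apply, LinearMap.comp_apply,
      LinearMap.smulRight_apply, KThmEps_single, one_smul,
      cat_single, KThmA_single, one_mul, one_smul, sub_eq_zero]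
    simp [KThmAW, h2]

/-- `A_s` commutes with the boundary. -/
theorem KThmA_bd (s : D.Cell2) {k : ℕ} {p q : V} {l : List D.X} (h : D.CPath p l q)
    (hk : D.deg l = k) : D.KThmA s (D.bdW l) = D.bd (D.KThmAW s l) := by
  induction l generalizing p k with
  | nil => simp [bdW, KThmAW]
  | cons x l ih =>
    obtain ⟨h1, h2⟩ := h
    rcases x with e | s'
    · have e1 : D.bdW (Sum.inl e :: l) = cat (Finsupp.single [Sum.inl e] 1) (D.bdW l) := rfl
      have e2 : D.KThmAW s (Sum.inl e :: l) =
        cat (Finsupp.single [Sum.inl e] 1) (D.KThmAW s l) := rfl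
      rw [e1, e2, KThmA_cat_edge, ih h2 rfl]
      exact (D.KThm_bd_edges_cat [e] _).symm
    · have e1 : D.bdW (Sum.inr s' :: l) = Finsupp.single (D.edges s'.top ++ l) 1 -
        Finsupp.single (D.edges (D.low s') ++ l) 1 -
          cat (Finsupp.single [Sum.inr s'] 1) (D.bdW l) := rfl
      have h2' : D.CPath s'.b l q := h2
      by_cases h3 : D.deg l = 0
      · obtain ⟨B, rfl⟩ := D.exists_edges h3
        have e3 : D.bdW (D.edges B) = 0 := by
          rw [← D.KThm_bd_single, D.bd_edges]
        have e4 : ∀ w : List E, D.edges w ++ D.edges B = D.edges (w ++ B) := by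
          intro w; simp [edges]
        have e5 : D.bd (D.KThmAW s (Sum.inr s' :: D.edges B)) = 0 := by
          classical
          have : D.KThmAW s (Sum.inr s' :: D.edges B) =
              if s' = s then Finsupp.single [] 1 else 0 := by
            simp [KThmAW, D.deg_edges]
          rw [this]
          split_ifs
          · exact D.bd_edges [] 1
          · exact map_zero _
        rw [e1, e3, e5, e4, e4, map_zero, sub_zero, map_sub, KThmA_single, KThmA_single,
          D.KThmAW_edges, D.KThmAW_edges]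
        simp
      · obtain ⟨m, hm⟩ : ∃ m, D.deg l = m + 1 := ⟨D.deg l - 1, by omega⟩
        have e2 : D.KThmAW s (Sum.inr s' :: l) =
            cat (Finsupp.single [Sum.inr s'] 1) (D.KThmAW s l) := by
          simp [KThmAW, h3]
        have hl : Finsupp.single l (1 : ℤ) ∈ D.Ck (m + 1) s'.b q := by
          have := D.single_mem h2' 1
          rwa [hm] at this
        have hbl : D.bdW l ∈ D.Ck m s'.b q := by
          rw [← D.KThm_bd_single]
          exact D.bd_mem hl
        have e6 : D.KThmA s (cat (Finsupp.single [Sum.inr s'] 1) (D.bdW l)) =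
            cat (Finsupp.single [Sum.inr s'] 1) (D.KThmA s (D.bdW l)) := by
          rcases m with _ | m
          · rw [D.KThmA_cat_cell_zero s s' hbl (D.KThmEps_bd l)]
            have : D.KThmA s (D.bdW l) = 0 := by
              have := supp_ind (D.KThmA s) ⊥ ?_ (D.bdW l) hbl
              · simpa using this
              · rintro w ⟨h5, h6⟩
                obtain ⟨B, rfl⟩ := D.exists_edges h6
                rw [Submodule.mem_bot, KThmA_single, D.KThmAW_edges, smul_zero]
            rw [this, map_zero]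
          · exact D.KThmA_cat_cell s s' hbl
        have e7 : D.sg (Finsupp.single [Sum.inr s'] 1) = - Finsupp.single [Sum.inr s'] 1 := by
          rw [sg, Finsupp.linearCombination_single, one_smul]
          simp [deg]
        rw [e1, e2, map_sub, map_sub, e6, ih h2' rfl, KThmA_single, KThmA_single, one_smul,
          one_smul, D.KThmAW_append, D.KThmAW_append, D.bd_cat, D.bd_cell, e7]
        simp only [map_sub, LinearMap.sub_apply, map_neg, LinearMap.neg_apply]
        abel

/-- the degree of `A_s` -/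
theorem KThmAW_mem (s : D.Cell2) {k : ℕ} {p q : V} {l : List D.X} (h : D.CPath p l q)
    (hk : D.deg l = k + 1) : D.KThmAW s l ∈ D.Ck k p s.a := by
  classical
  induction l generalizing p k with
  | nil => simp [deg] at hk
  | cons x l ih =>
    obtain ⟨h1, h2⟩ := h
    rcases x with e | s'
    · have e2 : D.KThmAW s (Sum.inl e :: l) =
        cat (Finsupp.single [Sum.inl e] 1) (D.KThmAW s l) := rfl
      have h3 : D.CPath p [Sum.inl e] (D.t e) := ⟨h1, rfl⟩
      have h4 := D.cat_mem (D.single_mem h3 1) (ih h2 hk)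
      have h5 : D.deg [Sum.inl e] = 0 := rfl
      rw [h5, zero_add] at h4
      rwa [e2]
    · have hk' : D.deg l = k := by
        have : D.deg l + 1 = k + 1 := hk
        omega
      have h1' : s'.a = p := h1
      by_cases h3 : D.deg l = 0
      · have : D.KThmAW s (Sum.inr s' :: l) =
              if s' = s then Finsupp.single [] 1 else 0 := by
          simp [KThmAW, h3]
        rw [this]
        split_ifs with h6
        · subst h6
          subst h1'
          have h7 : D.CPath s'.a [] s'.a := rfl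
          have h8 := D.single_mem h7 1
          have h9 : D.deg ([] : List D.X) = k := by rw [← hk', h3]; rfl
          rwa [h9] at h8
        · exact Submodule.zero_mem _
      · obtain ⟨m, hm⟩ : ∃ m, k = m + 1 := ⟨k - 1, by omega⟩
        subst hm
        have e2 : D.KThmAW s (Sum.inr s' :: l) =
            cat (Finsupp.single [Sum.inr s'] 1) (D.KThmAW s l) := by
          simp [KThmAW, h3]
        rw [e2]
        have h3' : D.CPath p [Sum.inr s'] s'.b := ⟨h1, rfl⟩
        have h4 := D.cat_mem (D.single_mem h3' 1) (ih h2 hk')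
        have h5 : D.deg [Sum.inr s'] = 1 := rfl
        rw [h5, add_comm] at h4
        exact h4

/-- the formula for `Kp` -/
theorem KThm_Kp_sum {q : V} (Φ : D.RFlow q) (S : Finset D.Cell2) (l : List D.X)
    (h : ∀ s, Sum.inr s ∈ l → s ∈ S) :
    Φ.KpW l = ∑ s ∈ S, cat (D.KThmAW s l) (Φ.kap s) := by
  classical
  induction l with
  | nil => simp [RFlow.KpW, KThmAW]
  | cons x l ih =>
    have ih' := ih fun s hs => h s (List.mem_cons_of_mem _ hs)
    rcases x with e | s'
    · have e1 : Φ.KpW (Sum.inl e :: l) = cat (Finsupp.single [Sum.inl e] 1) (Φ.KpW l) := rfl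
      rw [e1, ih', map_sum]
      refine Finset.sum_congr rfl fun s _ => ?_
      rw [← cat_assoc]
      rfl
    · by_cases h3 : D.deg l = 0
      · have e1 : Φ.KpW (Sum.inr s' :: l) = Φ.kap s' := by
          simp [RFlow.KpW, h3]
        have e2 : ∀ s, D.KThmAW s (Sum.inr s' :: l) =
              if s' = s then Finsupp.single [] 1 else 0 := by
          intro s
          simp [KThmAW, h3]
        have hs' : s' ∈ S := h s' (List.mem_cons_self)
        rw [e1, Finset.sum_eq_single s']
        · rw [e2, if_pos rfl, nil_cat]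
        · intro s _ hs
          rw [e2, if_neg (Ne.symm hs), map_zero, LinearMap.zero_apply]
        · intro hs
          exact absurd hs' hs
      · have e1 : Φ.KpW (Sum.inr s' :: l) = cat (Finsupp.single [Sum.inr s'] 1) (Φ.KpW l) := by
          simp [RFlow.KpW, h3]
        rw [e1, ih', map_sum]
        refine Finset.sum_congr rfl fun s _ => ?_
        have e2 : D.KThmAW s (Sum.inr s' :: l) =
            cat (Finsupp.single [Sum.inr s'] 1) (D.KThmAW s l) := by
          simp [KThmAW, h3]
        rw [e2, ← cat_assoc]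

end AW

/-- K2: the homology in degrees `≥ 1` is spanned by products of a cycle and a 1-cycle. By
`homotopy`, `z` is homologous to `Kp z = ∑ A_s(z) κ(s)`, with `A_s (x' s' π) = x'` if `s' = s` and `0`
otherwise (`s'` the last 2-cell of the word); `A_s` commutes with the boundary. -/
theorem exists_products (hD : D.Ordered) {k : ℕ} {p q : V} {z : List D.X →₀ ℤ}
    (hz : z ∈ D.Ck (k + 1) p q) (h : D.bd z = 0) : ∃ y ∈ D.Ck (k + 2) p q,
      z - D.bd y ∈ AddSubgroup.closure {c | ∃ (r : V) (a κ : List D.X →₀ ℤ), a ∈ D.Ck k p r ∧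
        D.bd a = 0 ∧ κ ∈ D.Ck 1 r q ∧ D.bd κ = 0 ∧ c = cat a κ} := by
  classical
  obtain ⟨Φ⟩ := D.exists_rflow hD q
  refine ⟨Φ.Ph z, Φ.Ph_mem hD hz, ?_⟩
  have h1 := Φ.homotopy hD hz
  rw [h, map_zero, add_zero] at h1
  have h2 : z - D.bd (Φ.Ph z) = Φ.Kp z := by rw [h1]; abel
  rw [h2]
  -- the cells occurring in `z`
  set S : Finset D.Cell2 := z.support.biUnion fun l => (l.filterMap Sum.getRight?).toFinset
    with hS
  have hmemS : ∀ l ∈ z.support, ∀ s, Sum.inr s ∈ l → s ∈ S := by
    intro l hl s hs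
    rw [hS, Finset.mem_biUnion]
    refine ⟨l, hl, ?_⟩
    rw [List.mem_toFinset, List.mem_filterMap]
    exact ⟨Sum.inr s, hs, rfl⟩
  have hz' : ∀ l ∈ z.support, D.CPath p l q ∧ D.deg l = k + 1 := by
    intro l hl
    exact (Finsupp.mem_supported ℤ z).1 hz hl
  have hSb : ∀ s ∈ S, s.b ≤ q := by
    intro s hs
    rw [hS, Finset.mem_biUnion] at hs
    obtain ⟨l, hl, hs⟩ := hs
    rw [List.mem_toFinset, List.mem_filterMap] at hs
    obtain ⟨x, hx, hxs⟩ := hs
    rcases x with e | s'
    · simp at hxs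
    · have : s' = s := by simpa using hxs
      subst this
      exact (D.KThm_cell_le hD (hz' l hl).1 s' hx).2
  have h3 : Φ.Kp z = ∑ s ∈ S, cat (D.KThmA s z) (Φ.kap s) := by
    have e1 : Φ.Kp z = ∑ l ∈ z.support, z l • Φ.KpW l := by
      rw [RFlow.Kp, Finsupp.linearCombination_apply, Finsupp.sum]
    have e2 : ∀ s, D.KThmA s z = ∑ l ∈ z.support, z l • D.KThmAW s l := by
      intro s
      rw [KThmA, Finsupp.linearCombination_apply, Finsupp.sum]
    rw [e1, Finset.sum_congr rfl fun l hl => by
      rw [D.KThm_Kp_sum Φ S l (hmemS l hl), Finset.smul_sum], Finset.sum_comm]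
    refine Finset.sum_congr rfl fun s _ => ?_
    rw [e2, map_sum, LinearMap.sum_apply]
    refine Finset.sum_congr rfl fun l _ => ?_
    rw [map_smul, LinearMap.smul_apply]
  rw [h3]
  refine AddSubgroup.sum_mem _ fun s hs => AddSubgroup.subset_closure ?_
  refine ⟨s.a, D.KThmA s z, Φ.kap s, ?_, ?_, Φ.kap_mem hD s (hSb s hs), Φ.bd_kap hD s (hSb s hs),
    rfl⟩
  · refine supp_ind (D.KThmA s) (D.Ck k p s.a) ?_ z hz
    rintro l ⟨h5, h6⟩
    rw [KThmA_single, one_smul]
    exact D.KThmAW_mem s h5 h6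
  · have := supp_ind (D.bd.comp (D.KThmA s) - (D.KThmA s).comp D.bd) ⊥ ?_ z hz
    · rw [Submodule.mem_bot, LinearMap.sub_apply, LinearMap.comp_apply, LinearMap.comp_apply,
        h, map_zero, sub_zero] at this
      exact this
    · rintro l ⟨h5, h6⟩
      rw [Submodule.mem_bot, LinearMap.sub_apply, LinearMap.comp_apply, LinearMap.comp_apply,
        KThmA_single, one_smul, D.KThm_bd_single, D.KThmA_bd s h5 h6, sub_self]

theorem ex0 (hD : D.Ordered) (p q : V) (h : p ≤ q) :
    ∃ z ∈ Finsupp.supported ℤ ℤ {e | p ≤ D.i e ∧ D.t e ≤ q},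
    bd1 D.i D.t z = Finsupp.single q (1 : ℤ) - Finsupp.single p (1 : ℤ) := by
  obtain ⟨l, hl⟩ := (hD.le_iff p q).1 h
  refine ⟨sumE l, ?_, D.bd1_sumE hl⟩
  clear h
  induction l generalizing p with
  | nil => exact Submodule.zero_mem _
  | cons e l ih =>
    obtain ⟨h1, h2⟩ := hl
    subst h1
    have e1 : sumE (e :: l) = Finsupp.single e (1 : ℤ) + sumE l := by
      simp [sumE]
    rw [e1]
    refine Submodule.add_mem _ ?_ ?_
    · apply Finsupp.single_mem_supported
      exact ⟨le_refl _, (hD.le_iff _ _).2 ⟨l, h2⟩⟩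
    · have h3 := ih (D.t e) h2
      refine Finsupp.supported_mono ?_ h3
      rintro e' ⟨h4, h5⟩
      exact ⟨(hD.lt e).le.trans h4, h5⟩

/-- Exactness at the edges: for a cycle `z` of edges, choose paths `c⁻ r` from `p` to `r` and `c⁺ r`
from `r` to `q`; then `z = ∑ z e • (c⁻(i e) e c⁺(t e) - c⁻(t e) c⁺(t e))` and two paths from `p` to `q`
differ by a boundary (`exists_bd_eq`, `bd2_lin`). -/
theorem ex1 (hD : D.Ordered) (p q : V) (h : p ≤ q) (z : E →₀ ℤ)
    (hz : z ∈ Finsupp.supported ℤ ℤ {e | p ≤ D.i e ∧ D.t e ≤ q}) (hz' : bd1 D.i D.t z = 0) :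
    ∃ y ∈ Finsupp.supported ℤ ℤ {s : D.Cell2 | p ≤ s.a ∧ s.b ≤ q}, bd2 D.dF y = z := by
  classical
  obtain ⟨cm, hcm⟩ := D.KThm_paths hD p
  obtain ⟨cp, hcp⟩ := D.KThm_paths' hD q
  have hy : ∀ e : E, ∃ y : List D.X →₀ ℤ, (p ≤ D.i e ∧ D.t e ≤ q) → y ∈ D.Ck 1 p q ∧
      D.bd y = Finsupp.single (D.edges (cm (D.i e) ++ (e :: cp (D.t e)))) 1 -
        Finsupp.single (D.edges (cm (D.t e) ++ cp (D.t e))) 1 := by
    intro e
    by_cases he : p ≤ D.i e ∧ D.t e ≤ q
    · have h1 : D.Path p (cm (D.i e) ++ (e :: cp (D.t e))) q :=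
        pathIn_append.2 ⟨D.i e, hcm _ he.1, rfl, hcp _ he.2⟩
      have h2 : D.Path p (cm (D.t e) ++ cp (D.t e)) q :=
        pathIn_append.2 ⟨D.t e, hcm _ (he.1.trans (hD.lt e).le), hcp _ he.2⟩
      obtain ⟨y, hy, hy'⟩ := D.exists_bd_eq hD h2 h1
      exact ⟨y, fun _ => ⟨hy, hy'⟩⟩
    · exact ⟨0, fun h => absurd h he⟩
  choose y hy using hy
  set Y : (E →₀ ℤ) →ₗ[ℤ] (D.Cell2 →₀ ℤ) := Finsupp.linearCombination ℤ fun e => D.lin (y e) with hY
  set H : (V →₀ ℤ) →ₗ[ℤ] (E →₀ ℤ) := Finsupp.linearCombination ℤ fun r => sumE (cm r) with hH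
  refine ⟨Y z, ?_, ?_⟩
  · refine supp_ind Y _ ?_ z hz
    intro e he
    rw [hY, Finsupp.linearCombination_single, one_smul]
    exact D.lin_mem hD (hy e he).1
  · have := supp_ind ((bd2 D.dF).comp Y - LinearMap.id + H.comp (bd1 D.i D.t)) ⊥ ?_ z hz
    · rw [Submodule.mem_bot, LinearMap.add_apply, LinearMap.sub_apply, LinearMap.comp_apply,
        LinearMap.comp_apply, LinearMap.id_apply, hz', map_zero, add_zero] at this
      exact sub_eq_zero.1 this
    · intro e he
      obtain ⟨h1, h2⟩ := hy e he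
      have e1 : sumE (e :: cp (D.t e)) = Finsupp.single e (1 : ℤ) + sumE (cp (D.t e)) := by
        simp [sumE]
      have e2 : H (bd1 D.i D.t (Finsupp.single e 1)) = sumE (cm (D.t e)) - sumE (cm (D.i e)) := by
        rw [bd1, Finsupp.linearCombination_single, one_smul, map_sub, hH,
          Finsupp.linearCombination_single, Finsupp.linearCombination_single, one_smul, one_smul]
      have e3 : Y (Finsupp.single e 1) = D.lin (y e) := by
        rw [hY, Finsupp.linearCombination_single, one_smul]
      rw [Submodule.mem_bot, LinearMap.add_apply, LinearMap.sub_apply, LinearMap.comp_apply,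
        LinearMap.comp_apply, LinearMap.id_apply, e2, e3, D.bd2_lin h1, h2, map_sub,
        D.linE_edges, D.linE_edges, sumE_append, sumE_append, e1]
      abel

/-- If all 1-cycles of the path complex from `bot` to `top` are boundaries then the boundary of
2-cells is injective (`exists_cycle`, `lin_bd`). -/
theorem injective_of_h1 (hD : D.Ordered) (bot top : V) (hbot : ∀ v, bot ≤ v) (htop : ∀ v, v ≤ top)
    (h1 : ∀ z ∈ D.Ck 1 bot top, D.bd z = 0 → ∃ y ∈ D.Ck 2 bot top, D.bd y = z)
    (k : D.Cell2 →₀ ℤ) (h : bd2 D.dF k = 0) : k = 0 := by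
  have hk : k ∈ Finsupp.supported ℤ ℤ {s : D.Cell2 | bot ≤ s.a ∧ s.b ≤ top} := by
    rw [Finsupp.mem_supported]
    intro s _
    exact ⟨hbot _, htop _⟩
  obtain ⟨z, hz, hz', hz''⟩ := D.exists_cycle hD hk h
  obtain ⟨y, hy, hy'⟩ := h1 z hz hz'
  rw [← hz'', ← hy']
  exact D.lin_bd hy

end Dcx

end Pool.Agent.DG
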