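import Pool.Agent.MP_cff99f_al.Gen.Base

/-!
Block Orb: orbit sums of chains under one group element.
-/

namespace Pool.Agent.DG

universe u w

variable {G : Type w} [Group G] {Y : Type u} [MulAction G Y]

open Classical in
/-- The sum of the coefficients of a chain over the orbit of `y` under the powers of `x`. -/
noncomputable def osum (x : G) (y : Y) : (Y →₀ ℤ) →ₗ[ℤ] ℤ :=
  Finsupp.linearCombination ℤ fun y' => if ∃ n : ℤ, x ^ n • y = y' then (1 : ℤ) else 0

open Classical in
theorem osum_single (x : G) (y y' : Y) (c : ℤ) :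
    osum x y (Finsupp.single y' c) = c * if ∃ n : ℤ, x ^ n • y = y' then (1 : ℤ) else 0 := by
  rw [osum, Finsupp.linearCombination_single, smul_eq_mul]

/-- Orbit sums of `x m - m` vanish. -/
theorem osum_sub (x : G) (y : Y) (m : Y →₀ ℤ) : osum x y (sm x m - m) = 0 := by
  classical
  induction m using Finsupp.induction_linear with
  | zero => simp
  | add f g hf hg =>
    have h : sm x (f + g) - (f + g) = (sm x f - f) + (sm x g - g) := by
      rw [map_add]; abel
    rw [h, map_add, hf, hg, add_zero]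
  | single y' c =>
    rw [sm_single, map_sub, osum_single, osum_single]
    have h : (∃ n : ℤ, x ^ n • y = x • y') ↔ ∃ n : ℤ, x ^ n • y = y' := by
      constructor
      · rintro ⟨n, hn⟩
        refine ⟨-1 + n, ?_⟩
        rw [zpow_add, mul_smul, hn, zpow_neg_one, inv_smul_smul]
      · rintro ⟨n, hn⟩
        refine ⟨1 + n, ?_⟩
        rw [zpow_add, mul_smul, hn, zpow_one]
    simp only [h, sub_self]

/-- a choice of representatives of the orbits of `x` -/
theorem orb_rep (x : G) : ∃ r : Y → Y, (∀ y, ∃ n : ℤ, x ^ n • y = r y) ∧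
    ∀ (y : Y) (n : ℤ), r (x ^ n • y) = r y := by
  let s : Setoid Y :=
    { r := fun a b => ∃ n : ℤ, x ^ n • a = b
      iseqv :=
        { refl := fun a => ⟨0, by rw [zpow_zero, one_smul]⟩
          symm := by
            rintro a b ⟨n, rfl⟩
            exact ⟨-n, by rw [← mul_smul, ← zpow_add, neg_add_cancel, zpow_zero, one_smul]⟩
          trans := by
            rintro a b c ⟨n, rfl⟩ ⟨k, rfl⟩
            exact ⟨k + n, by rw [← mul_smul, ← zpow_add]⟩ } }
  refine ⟨fun y => (Quotient.mk s y).out, fun y => ?_, fun y n => ?_⟩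
  · have h : s.r (Quotient.mk s y).out y := Quotient.mk_out (s := s) y
    exact s.iseqv.symm h
  · have h : Quotient.mk s (x ^ n • y) = Quotient.mk s y :=
      Quotient.sound (s.iseqv.symm ⟨n, rfl⟩)
    change (Quotient.mk s (x ^ n • y)).out = (Quotient.mk s y).out
    rw [h]

theorem orb_zpow (x : G) (z : Y →₀ ℤ) (n : ℤ) :
    ∃ m : Y →₀ ℤ, sm (x ^ n) z - z = sm x m - m := by
  induction n using Int.induction_on with
  | zero => exact ⟨0, by rw [zpow_zero, sm_one]; simp⟩
  | succ n ih =>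
    obtain ⟨m, hm⟩ := ih
    refine ⟨m + sm (x ^ (n : ℤ)) z, ?_⟩
    rw [add_comm (n : ℤ) 1, zpow_add, zpow_one, sm_mul, map_add]
    have : sm x (sm (x ^ (n : ℤ)) z) - z =
        (sm x (sm (x ^ (n : ℤ)) z) - sm (x ^ (n : ℤ)) z) + (sm (x ^ (n : ℤ)) z - z) := by abel
    rw [this, hm]
    abel
  | pred n ih =>
    obtain ⟨m, hm⟩ := ih
    refine ⟨m - sm (x ^ (-(n : ℤ) - 1)) z, ?_⟩
    have h1 : sm x (sm (x ^ (-(n : ℤ) - 1)) z) = sm (x ^ (-(n : ℤ))) z := by
      rw [← sm_mul]
      congr 2
      rw [show x * x ^ (-(n : ℤ) - 1) = x ^ (1 : ℤ) * x ^ (-(n : ℤ) - 1) by rw [zpow_one],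
        ← zpow_add]
      congr 1
      ring
    rw [map_sub, h1]
    have h2 : sm x m = sm (x ^ (-(n : ℤ))) z - z + m := by rw [hm]; abel
    rw [h2]
    abel

theorem orb_dec (x : G) (r : Y → Y) (hr : ∀ y, ∃ n : ℤ, x ^ n • y = r y) (z : Y →₀ ℤ) :
    ∃ m : Y →₀ ℤ, z = z.mapDomain r + (sm x m - m) := by
  induction z using Finsupp.induction_linear with
  | zero => exact ⟨0, by simp⟩
  | add f g hf hg =>
    obtain ⟨m, hm⟩ := hf
    obtain ⟨m', hm'⟩ := hg
    refine ⟨m + m', ?_⟩
    rw [Finsupp.mapDomain_add, map_add]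
    have : f + g = (f.mapDomain r + (sm x m - m)) + (g.mapDomain r + (sm x m' - m')) := by
      rw [← hm, ← hm']
    rw [this]
    abel
  | single y c =>
    obtain ⟨n, hn⟩ := hr y
    obtain ⟨m, hm⟩ := orb_zpow x (Finsupp.single y c) n
    refine ⟨-m, ?_⟩
    rw [Finsupp.mapDomain_single, ← hn, ← sm_single (x ^ n), map_neg]
    have : sm (x ^ n) (Finsupp.single y c) = sm x m - m + Finsupp.single y c := by
      rw [← hm]; abel
    rw [this]
    abel

/-- Modulo `x m - m` every chain is supported on the orbits with nonzero orbit sum.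
(Replace every `y` in the support by a representative of its orbit; `x ^ n - 1` is divisible by
`x - 1`.) -/
theorem exists_decomp (x : G) (z : Y →₀ ℤ) : ∃ z0 m : Y →₀ ℤ, z = z0 + (sm x m - m) ∧
    ∀ y, z0 y ≠ 0 → osum x y z ≠ 0 := by
  classical
  obtain ⟨r, hr1, hr2⟩ := orb_rep (Y := Y) x
  obtain ⟨m, hm⟩ := orb_dec x r hr1 z
  refine ⟨z.mapDomain r, m, hm, fun y hy => ?_⟩
  have hry : r y = y := by
    have h1 : y ∈ (z.mapDomain r).support := Finsupp.mem_support_iff.2 hy
    have h2 := Finsupp.mapDomain_support h1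
    rw [Finset.mem_image] at h2
    obtain ⟨y', -, rfl⟩ := h2
    obtain ⟨n, hn⟩ := hr1 y'
    rw [← hn, hr2, hn]
  have key : ∀ z : Y →₀ ℤ, z.mapDomain r y = osum x y z := by
    intro z
    induction z using Finsupp.induction_linear with
    | zero => simp
    | add f g hf hg => rw [Finsupp.mapDomain_add, Finsupp.add_apply, hf, hg, map_add]
    | single y' c =>
      rw [Finsupp.mapDomain_single, osum_single, Finsupp.single_apply]
      have h : r y' = y ↔ ∃ n : ℤ, x ^ n • y = y' := by
        constructor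
        · intro h
          obtain ⟨n, hn⟩ := hr1 y'
          refine ⟨-n, ?_⟩
          rw [← h, ← hn, ← mul_smul, ← zpow_add, neg_add_cancel, zpow_zero, one_smul]
        · rintro ⟨n, rfl⟩
          rw [hr2, hry]
      by_cases h' : r y' = y
      · rw [if_pos h', if_pos (h.1 h'), mul_one]
      · rw [if_neg h', if_neg (fun h2 => h' (h.2 h2)), mul_zero]
  rw [← key z]
  exact hy

theorem exists_of_osum_ne (x : G) (y : Y) (z : Y →₀ ℤ) (h : osum x y z ≠ 0) :
    ∃ n : ℤ, z (x ^ n • y) ≠ 0 := by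
  classical
  by_contra hcon
  push Not at hcon
  apply h
  rw [osum, Finsupp.linearCombination_apply, Finsupp.sum]
  apply Finset.sum_eq_zero
  intro y' _
  split_ifs with h'
  · obtain ⟨n, rfl⟩ := h'
    rw [hcon n, zero_smul]
  · rw [smul_zero]

theorem osum_smul (x : G) (n : ℤ) (y : Y) (z : Y →₀ ℤ) : osum x (x ^ n • y) z = osum x y z := by
  classical
  have h : ∀ y' : Y, (∃ k : ℤ, x ^ k • x ^ n • y = y') ↔ ∃ k : ℤ, x ^ k • y = y' := by
    intro y'
    constructor
    · rintro ⟨k, hk⟩
      exact ⟨k + n, by rw [zpow_add, mul_smul, hk]⟩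
    · rintro ⟨k, hk⟩
      exact ⟨k - n, by rw [← mul_smul, ← zpow_add, sub_add_cancel, hk]⟩
  unfold osum
  simp only [h]

theorem osum_congr (x x' : G) (y : Y) (z : Y →₀ ℤ) (h : ∀ n : ℤ, x ^ n • y = x' ^ n • y) :
    osum x y z = osum x' y z := by
  classical
  unfold osum
  simp only [h]

/-- Derivations take the value `0` at `1`, and their values at powers are given by the usual
formula. -/
theorem der_one (D : G → (Y →₀ ℤ)) (hD : ∀ g h, D (g * h) = D g + sm g (D h)) : D 1 = 0 := by
  have h := hD 1 1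
  rw [mul_one, sm_one] at h
  exact (left_eq_add.1 h)

theorem der_pow (D : G → (Y →₀ ℤ)) (hD : ∀ g h, D (g * h) = D g + sm g (D h)) (x : G) (k : ℕ) :
    D (x ^ k) = ∑ j ∈ Finset.range k, sm (x ^ j) (D x) := by
  induction k with
  | zero => rw [pow_zero, der_one D hD, Finset.sum_range_zero]
  | succ k ih => rw [pow_succ, hD, ih, Finset.sum_range_succ]

open Classical in
theorem orb_key (x : G) (r : Y → Y) (hr1 : ∀ y, ∃ n : ℤ, x ^ n • y = r y)
    (hr2 : ∀ (y : Y) (n : ℤ), r (x ^ n • y) = r y) (k j : ℕ) (y : Y) (z : Y →₀ ℤ) :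
    osum (x ^ k) y (sm (x ^ j) (z.mapDomain r)) =
      osum x y z * if ∃ n : ℤ, (x ^ k) ^ n • y = x ^ j • r y then (1 : ℤ) else 0 := by
  induction z using Finsupp.induction_linear with
  | zero => simp
  | add f g hf hg =>
    rw [Finsupp.mapDomain_add, map_add, map_add, hf, hg, map_add, add_mul]
  | single y' c =>
    rw [Finsupp.mapDomain_single, sm_single, osum_single, osum_single]
    by_cases h : ∃ n : ℤ, x ^ n • y = y'
    · rw [if_pos h, mul_one]
      obtain ⟨n, rfl⟩ := h
      rw [hr2]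
    · rw [if_neg h, mul_zero, zero_mul]
      rw [if_neg, mul_zero]
      rintro ⟨n, hn⟩
      apply h
      obtain ⟨l, hl⟩ := hr1 y'
      rw [← hl] at hn
      refine ⟨-l + -(j : ℤ) + k * n, ?_⟩
      have h1 : x ^ ((k : ℤ) * n) • y = x ^ (j : ℤ) • x ^ l • y' := by
        rw [zpow_mul, zpow_natCast, hn, zpow_natCast]
      rw [zpow_add, mul_smul, h1, zpow_add, mul_smul, ← mul_smul (x ^ (-(j : ℤ))), ← zpow_add,
        neg_add_cancel, zpow_zero, one_smul, ← mul_smul, ← zpow_add, neg_add_cancel, zpow_zero,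
        one_smul]

/-- For a derivation `D` the orbit sums of `D x` (under `x`) and of `D (x ^ k)` (under `x ^ k`)
vanish simultaneously. Proof: write `D x = z0 + (x m - m)` where `z0` is supported on chosen
representatives of the orbits of `x`, so `z0 r = osum x r (D x)`; then
`D (x ^ k) = (1 + x + … + x ^ (k-1)) z0 + (x ^ k m - m)` and the orbit sum of this under `x ^ k` at `y`
is `osum x y (D x)` times the number of `j < k` with `x ^ j r` in the orbit of `y` under `x ^ k`,
`r` the representative of the orbit of `y` under `x`; this number is positive. -/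
theorem osum_pow (D : G → (Y →₀ ℤ)) (hD : ∀ g h, D (g * h) = D g + sm g (D h)) (x : G) (k : ℕ)
    (hk : 0 < k) (y : Y) : osum (x ^ k) y (D (x ^ k)) = 0 ↔ osum x y (D x) = 0 := by
  classical
  obtain ⟨r, hr1, hr2⟩ := orb_rep (Y := Y) x
  obtain ⟨m, hm⟩ := orb_dec x r hr1 (D x)
  have h1 : D (x ^ k) = (∑ j ∈ Finset.range k, sm (x ^ j) ((D x).mapDomain r)) +
      (sm (x ^ k) m - m) := by
    rw [der_pow D hD]
    have h2 : ∀ j ∈ Finset.range k, sm (x ^ j) (D x) =
        sm (x ^ j) ((D x).mapDomain r) + (sm (x ^ (j + 1)) m - sm (x ^ j) m) := by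
      intro j _
      conv_lhs => rw [hm]
      rw [map_add, map_sub, pow_succ, sm_mul]
    rw [Finset.sum_congr rfl h2, Finset.sum_add_distrib,
      Finset.sum_range_sub (fun j => sm (x ^ j) m), pow_zero, sm_one]
  have h2 : osum (x ^ k) y (D (x ^ k)) = osum x y (D x) *
      ∑ j ∈ Finset.range k, if ∃ n : ℤ, (x ^ k) ^ n • y = x ^ j • r y then (1 : ℤ) else 0 := by
    rw [h1, map_add, osum_sub, add_zero, map_sum, Finset.mul_sum]
    exact Finset.sum_congr rfl fun j _ => orb_key x r hr1 hr2 k j y (D x)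
  have h3 : 0 < ∑ j ∈ Finset.range k,
      if ∃ n : ℤ, (x ^ k) ^ n • y = x ^ j • r y then (1 : ℤ) else 0 := by
    obtain ⟨l, hl⟩ := hr1 y
    have hk' : (0 : ℤ) < k := by exact_mod_cast hk
    obtain ⟨j, hj⟩ := Int.eq_ofNat_of_zero_le (Int.emod_nonneg (-l) hk'.ne')
    have hjk : j < k := by
      have := Int.emod_lt_of_pos (-l) hk'
      rw [hj] at this
      exact_mod_cast this
    refine Finset.sum_pos' (fun i _ => by split_ifs <;> norm_num) ⟨j, Finset.mem_range.2 hjk, ?_⟩
    rw [if_pos]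
    · norm_num
    · refine ⟨-((-l) / k), ?_⟩
      rw [← hl, ← zpow_natCast x k, ← zpow_mul, ← zpow_natCast x j, ← mul_smul, ← zpow_add]
      congr 2
      have h4 := Int.emod_add_mul_ediv (-l) k
      rw [hj] at h4
      have h5 : ((j : ℕ) : ℤ) = Int.ofNat j := rfl
      rw [h5]
      linear_combination -h4
  rw [h2, mul_eq_zero]
  constructor
  · rintro (h | h)
    · exact h
    · exact absurd h h3.ne'
  · intro h
    exact Or.inl h

end Pool.Agent.DG
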