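import Pool.Agent.MP_cff99f_al.Gen.Basic
import Pool.Agent.MP_cff99f_al.Gen.Orb

/-!
Block Sig: the derivation `y` and the sets `Sig x`.
-/

namespace Pool.Agent.DG

universe w u₁ u₂ u₃

namespace GDC

variable {G : Type w} {V : Type u₁} {E : Type u₂} {F : Type u₃} [Group G] [PartialOrder V]
    [MulAction G V] [MulAction G E] [MulAction G F] (T : GDC G V E F)

include T in
theorem sig_le_of_smul_le (g : G) {p q : V} (h : g • p ≤ g • q) : p ≤ q := by
  have := T.smul_le g⁻¹ _ _ h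
  rwa [inv_smul_smul, inv_smul_smul] at this

/-- Chains of edges flowing from `bot` to `top`. -/
def IsW (z : E →₀ ℤ) : Prop :=
  T.d1 z = Finsupp.single T.top (1 : ℤ) - Finsupp.single T.bot (1 : ℤ)

/-- A chosen chain of edges from `bot` to `top`. -/
noncomputable def w : E →₀ ℤ := (T.ex0 T.bot T.top (T.bot_le _)).choose

theorem isW_w : T.IsW T.w := (T.ex0 T.bot T.top (T.bot_le _)).choose_spec.2

open Classical in
/-- The derivation attached to a chain from `bot` to `top`. -/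
noncomputable def y (z : E →₀ ℤ) (x : G) : F →₀ ℤ :=
  if h : ∃ y, T.d2 y = sm x z - z then h.choose else 0

/-- `sm x z - z` is a cycle, hence a boundary. -/
theorem y_spec {z : E →₀ ℤ} (hz : T.IsW z) (x : G) : T.d2 (T.y z x) = sm x z - z := by
  have h : ∃ y, T.d2 y = sm x z - z := by
    have hc : T.d1 (sm x z - z) = 0 := by
      rw [map_sub, T.d1_sm, hz, map_sub, sm_single, sm_single, T.toVD.smul_top, T.toVD.smul_bot,
        sub_self]
    obtain ⟨y, _, hy⟩ := T.exact1 (T.bot_le T.top) (T.C1_top _) hc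
    exact ⟨y, hy⟩
  unfold y
  rw [dif_pos h]
  exact h.choose_spec

theorem y_unique (hinj : T.Inj) {z : E →₀ ℤ} (hz : T.IsW z) (x : G) {c : F →₀ ℤ}
    (hc : T.d2 c = sm x z - z) : T.y z x = c := by
  have := hinj (T.y z x - c) (by rw [map_sub, T.y_spec hz, hc, sub_self])
  exact sub_eq_zero.mp this

theorem y_mul (hinj : T.Inj) {z : E →₀ ℤ} (hz : T.IsW z) (g h : G) :
    T.y z (g * h) = T.y z g + sm g (T.y z h) := by
  apply T.y_unique hinj hz
  rw [map_add, T.d2_sm, T.y_spec hz, T.y_spec hz, map_sub, sm_mul]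
  abel

/-- Changing `z` changes `y` by an inner derivation. -/
theorem y_indep (hinj : T.Inj) {z z' : E →₀ ℤ} (hz : T.IsW z) (hz' : T.IsW z') :
    ∃ m : F →₀ ℤ, ∀ x : G, T.y z' x = T.y z x + (sm x m - m) := by
  have hc : T.d1 (z' - z) = 0 := by
    rw [map_sub, hz, hz', sub_self]
  obtain ⟨m, _, hm⟩ := T.exact1 (T.bot_le T.top) (T.C1_top _) hc
  refine ⟨m, fun x => ?_⟩
  apply T.y_unique hinj hz'
  rw [map_add, map_sub, T.d2_sm, T.y_spec hz, hm, map_sub]
  abel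

theorem exists_adapted (v : V) : ∃ z1 ∈ T.C1 T.bot v, ∃ z2 ∈ T.C1 v T.top,
    T.d1 z1 = Finsupp.single v (1 : ℤ) - Finsupp.single T.bot (1 : ℤ) ∧
    T.d1 z2 = Finsupp.single T.top (1 : ℤ) - Finsupp.single v (1 : ℤ) ∧ T.IsW (z1 + z2) := by
  obtain ⟨z1, h1, h1'⟩ := T.ex0 T.bot v (T.bot_le v)
  obtain ⟨z2, h2, h2'⟩ := T.ex0 v T.top (T.le_top v)
  refine ⟨z1, h1, z2, h2, h1', h2', ?_⟩
  change T.d1 (z1 + z2) = _
  rw [map_add]
  change bd1 T.i T.t z1 + bd1 T.i T.t z2 = _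
  rw [h1', h2']
  abel

/-- For `x ∈ L v` the chain `y x` (computed with an adapted chain) lies in `[bot, v]`. -/
theorem y_adapted_L (hinj : T.Inj) {v : V} {z1 z2 : E →₀ ℤ} (h1 : z1 ∈ T.C1 T.bot v)
    (h2 : z2 ∈ T.C1 v T.top) (hz : T.IsW (z1 + z2))
    (h1' : T.d1 z1 = Finsupp.single v (1 : ℤ) - Finsupp.single T.bot (1 : ℤ))
    {x : G} (hx : x ∈ T.L v) : T.y (z1 + z2) x ∈ T.C2 T.bot v := by
  have hxv : x • v = v := T.toVD.smul_of_mem_L hx le_rfl
  have e1 : sm x (z1 + z2) - (z1 + z2) = sm x z1 - z1 := by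
    rw [map_add, T.sm_C1_of_L hx h2]
    abel
  have m1 : sm x z1 ∈ T.C1 T.bot v := by
    have := T.sm_mem_C1 x h1
    rwa [T.toVD.smul_bot, hxv] at this
  have hc : T.d1 (sm x z1 - z1) = 0 := by
    rw [map_sub, T.d1_sm, h1', map_sub, sm_single, sm_single, T.toVD.smul_bot, hxv, sub_self]
  obtain ⟨c, hc1, hc2⟩ := T.exact1 (T.bot_le v) (Submodule.sub_mem _ m1 h1) hc
  rw [T.y_unique hinj hz x (hc2.trans e1.symm)]
  exact hc1

theorem y_adapted_R (hinj : T.Inj) {v : V} {z1 z2 : E →₀ ℤ} (h1 : z1 ∈ T.C1 T.bot v)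
    (h2 : z2 ∈ T.C1 v T.top) (hz : T.IsW (z1 + z2))
    (h2' : T.d1 z2 = Finsupp.single T.top (1 : ℤ) - Finsupp.single v (1 : ℤ))
    {x : G} (hx : x ∈ T.R v) : T.y (z1 + z2) x ∈ T.C2 v T.top := by
  have hxv : x • v = v := T.toVD.smul_of_mem_R hx le_rfl
  have e1 : sm x (z1 + z2) - (z1 + z2) = sm x z2 - z2 := by
    rw [map_add, T.sm_C1_of_R hx h1]
    abel
  have m1 : sm x z2 ∈ T.C1 v T.top := by
    have := T.sm_mem_C1 x h2
    rwa [T.toVD.smul_top, hxv] at this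
  have hc : T.d1 (sm x z2 - z2) = 0 := by
    rw [map_sub, T.d1_sm, h2', map_sub, sm_single, sm_single, T.toVD.smul_top, hxv, sub_self]
  obtain ⟨c, hc1, hc2⟩ := T.exact1 (T.le_top v) (Submodule.sub_mem _ m1 h2) hc
  rw [T.y_unique hinj hz x (hc2.trans e1.symm)]
  exact hc1

/-- The set of 2-cells on whose orbits (under the powers of `x`) the chain `y x` has a nonzero
sum. -/
def Sig (x : G) : Set F := {s | osum x s (T.y T.w x) ≠ 0}

theorem Sig_iff (hinj : T.Inj) {z : E →₀ ℤ} (hz : T.IsW z) (x : G) (s : F) :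
    s ∈ T.Sig x ↔ osum x s (T.y z x) ≠ 0 := by
  obtain ⟨m, hm⟩ := T.y_indep hinj T.isW_w hz
  change osum x s (T.y T.w x) ≠ 0 ↔ _
  rw [hm x, map_add, osum_sub, add_zero]

theorem smul_mem_Sig (x : G) (n : ℤ) (s : F) : x ^ n • s ∈ T.Sig x ↔ s ∈ T.Sig x := by
  change osum x (x ^ n • s) (T.y T.w x) ≠ 0 ↔ osum x s (T.y T.w x) ≠ 0
  rw [osum_smul]

theorem Sig_pow (hinj : T.Inj) (x : G) (k : ℕ) (hk : 0 < k) : T.Sig (x ^ k) = T.Sig x := by
  ext s
  exact not_congr (osum_pow (T.y T.w) (T.y_mul hinj T.isW_w) x k hk s)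

/-- S2 -/
theorem Sig_L (hinj : T.Inj) {x : G} {v : V} (hx : x ∈ T.L v) {s : F} (hs : s ∈ T.Sig x) :
    T.b s ≤ v := by
  obtain ⟨z1, h1, z2, h2, h1', h2', hz⟩ := T.exists_adapted v
  rw [T.Sig_iff hinj hz] at hs
  obtain ⟨n, hn⟩ := exists_of_osum_ne x s _ hs
  have hmem := T.y_adapted_L hinj h1 h2 hz h1' hx
  have hle : T.b (x ^ n • s) ≤ v :=
    ((Finsupp.mem_supported ℤ _).1 hmem (Finsupp.mem_support_iff.2 hn)).2
  rw [T.b_smul] at hle
  have hv : x ^ n • v = v := T.toVD.smul_of_mem_L (Subgroup.zpow_mem _ hx n) le_rfl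
  rw [← hv] at hle
  exact T.sig_le_of_smul_le _ hle

/-- S2, mirror image -/
theorem Sig_R (hinj : T.Inj) {x : G} {v : V} (hx : x ∈ T.R v) {s : F} (hs : s ∈ T.Sig x) :
    v ≤ T.a s := by
  obtain ⟨z1, h1, z2, h2, h1', h2', hz⟩ := T.exists_adapted v
  rw [T.Sig_iff hinj hz] at hs
  obtain ⟨n, hn⟩ := exists_of_osum_ne x s _ hs
  have hmem := T.y_adapted_R hinj h1 h2 hz h2' hx
  have hle : v ≤ T.a (x ^ n • s) :=
    ((Finsupp.mem_supported ℤ _).1 hmem (Finsupp.mem_support_iff.2 hn)).1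
  rw [T.a_smul] at hle
  have hv : x ^ n • v = v := T.toVD.smul_of_mem_R (Subgroup.zpow_mem _ hx n) le_rfl
  rw [← hv] at hle
  exact T.sig_le_of_smul_le _ hle

/-- S4: use an adapted chain; `y (l r) = y l + y r`, the two summands live on disjoint sets of
cells, and `l` acts trivially on the cells above `v`. -/
theorem Sig_mul (hinj : T.Inj) {l r : G} {v : V} (hl : l ∈ T.L v) (hr : r ∈ T.R v) :
    T.Sig r ⊆ T.Sig (l * r) := by
  intro s hs
  have hvs : v ≤ T.a s := T.Sig_R hinj hr hs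
  obtain ⟨z1, h1, z2, h2, h1', h2', hz⟩ := T.exists_adapted v
  rw [T.Sig_iff hinj hz] at hs ⊢
  have hyl := T.y_adapted_L hinj h1 h2 hz h1' hl
  have hyr := T.y_adapted_R hinj h1 h2 hz h2' hr
  rw [T.y_mul hinj hz, T.sm_C2_of_L hl hyr, map_add]
  have hcomm : Commute l r := T.comm v l r hl hr
  have horb : ∀ n : ℤ, (l * r) ^ n • s = r ^ n • s := by
    intro n
    have e : (l * r) ^ n = r ^ n * l ^ n := by
      rw [hcomm.mul_zpow, (hcomm.zpow_zpow n n).eq]
    rw [e, mul_smul, T.smul_cell_of_L (Subgroup.zpow_mem _ hl n) hvs]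
  have h0 : osum (l * r) s (T.y (z1 + z2) l) = 0 := by
    by_contra hne
    obtain ⟨n, hn⟩ := exists_of_osum_ne _ s _ hne
    have hle : T.b ((l * r) ^ n • s) ≤ v :=
      ((Finsupp.mem_supported ℤ _).1 hyl (Finsupp.mem_support_iff.2 hn)).2
    rw [horb n] at hle
    have hlt := T.ab (r ^ n • s)
    have hv : r ^ n • v = v := T.toVD.smul_of_mem_R (Subgroup.zpow_mem _ hr n) le_rfl
    have hva : v ≤ T.a (r ^ n • s) := by
      have := T.smul_le (r ^ n) _ _ hvs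
      rwa [hv, ← T.a_smul] at this
    exact absurd (lt_of_lt_of_le (lt_of_le_of_lt hva hlt) hle) (lt_irrefl _)
  rw [h0, zero_add, osum_congr (l * r) r s _ horb]
  exact hs

theorem Sig_rev (hinj : T.Inj) (x : G) : T.rev.Sig x = T.Sig x := by
  have hw : T.rev.IsW T.w := by
    change bd1 (fun e => OrderDual.toDual (T.t e)) (fun e => OrderDual.toDual (T.i e)) T.w = _
    rw [bd1_rev]
    have : bd1 T.i T.t T.w = Finsupp.single T.top (1 : ℤ) - Finsupp.single T.bot (1 : ℤ) := T.isW_w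
    rw [this, sub_eq_add_neg, Finsupp.mapDomain_add, ← Finsupp.single_neg,
      Finsupp.mapDomain_single, Finsupp.mapDomain_single, Finsupp.single_neg, neg_add, neg_neg,
      add_comm, ← sub_eq_add_neg]
    rfl
  have hinj' : T.rev.Inj := GDC.rev_inj hinj
  have hy : T.rev.y T.w x = T.y T.w x :=
    T.rev.y_unique hinj' hw x (T.y_spec T.isW_w x)
  ext s
  rw [T.rev.Sig_iff hinj' hw, hy]
  rfl

theorem Sig_one (hinj : T.Inj) : T.Sig (1 : G) = ∅ := by
  ext s
  have : T.y T.w (1 : G) = 0 := T.y_unique hinj T.isW_w 1 (by rw [map_zero, sm_one, sub_self])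
  constructor
  · intro h
    exact (h (by rw [this, map_zero])).elim
  · intro h
    exact h.elim

end GDC

end Pool.Agent.DG
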