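import Pool.Agent.MP_cff99f_al.Gen.Stab
import Pool.Agent.MP_cff99f_al.Gen.Sig
import Pool.Agent.MP_cff99f_al.Gen.FGen
import Pool.Agent.MP_cff99f_al.Gen.Gallery
import Pool.Agent.MP_cff99f_al.Gen.Combing
import Pool.Agent.MP_cff99f_al.Gen.CovIso

/-!
Block LemmaA: `L v ⊓ R u` is finitely generated if `L v` and `R u` are.
-/

namespace Pool.Agent.DG

universe u v w z

variable {α : Type u} {ι : Type v} {P : Pres α ι} {V E : Type w} [PartialOrder V]
  {G : Type z} [Group G] [MulAction G V] [MulAction G E]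

namespace LemA

theorem cong_of_move (D : Dcx P V E) {l l' : List E} (h : D.Move l l') :
    Cong P (l.map D.lab) (l'.map D.lab) := by
  obtain ⟨A, j, b, s, B, ⟨p, q, hs⟩, hlab, rfl, rfl⟩ := h
  have h1 := D.flip_lab j b p s q hs hlab
  simp only [List.map_append, hlab, h1]
  cases b
  · exact Relation.EqvGen.symm _ _ (Relation.EqvGen.rel _ _
      ⟨A.map D.lab, j, B.map D.lab, rfl, rfl⟩)
  · exact Relation.EqvGen.rel _ _ ⟨A.map D.lab, j, B.map D.lab, rfl, rfl⟩

theorem cong_of_eqv (D : Dcx P V E) {l l' : List E} (h : Relation.EqvGen D.Move l l') :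
    Cong P (l.map D.lab) (l'.map D.lab) := by
  induction h with
  | rel a b h => exact cong_of_move D h
  | refl a => exact Relation.EqvGen.refl _
  | symm a b _ ih => exact Relation.EqvGen.symm _ _ ih
  | trans a b c _ _ ih1 ih2 => exact Relation.EqvGen.trans _ _ _ ih1 ih2

/-- Parallel paths have congruent labels. -/
theorem cong_of_paths (D : Dcx P V E) (hD : D.Ordered) {p q : V} {l l' : List E}
    (h : D.Path p l q) (h' : D.Path p l' q) : Cong P (l.map D.lab) (l'.map D.lab) :=
  cong_of_eqv D (hD.conn p q l l' h h')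

theorem sm_sumE (g : G) (l : List E) : sm g (Dcx.sumE l) = Dcx.sumE (l.map (g • ·)) := by
  unfold Dcx.sumE
  rw [map_list_sum, List.map_map, List.map_map]
  congr 1
  apply List.map_congr_left
  intro e _
  simp

theorem map_smul_mul (g g' : G) (l : List E) :
    l.map ((g * g') • ·) = (l.map (g' • ·)).map (g • ·) := by
  rw [List.map_map]
  apply List.map_congr_left
  intro e _
  exact mul_smul g g' e

theorem map_smul_one (l : List E) : l.map ((1 : G) • ·) = l := by simp

theorem map_smul_inv {g : G} {l l' : List E} (h : l.map (g • ·) = l') :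
    l'.map (g⁻¹ • ·) = l := by
  rw [← h, ← map_smul_mul, inv_mul_cancel, map_smul_one]

/-- The edges of a path lie between its end points. -/
theorem mem_path (D : Dcx P V E) (hD : D.Ordered) {l : List E} : ∀ {p q : V}, D.Path p l q →
    ∀ e ∈ l, p ≤ D.i e ∧ D.t e ≤ q := by
  induction l with
  | nil => intro p q _ e he; exact absurd he List.not_mem_nil
  | cons e0 l ih =>
    intro p q h e he
    obtain ⟨h1, h2⟩ := h
    have h3 : D.t e0 ≤ q := (hD.le_iff _ _).2 ⟨l, h2⟩
    rcases List.mem_cons.1 he with rfl | he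
    · exact ⟨h1.symm.le, h3⟩
    · obtain ⟨h4, h5⟩ := ih h2 e he
      exact ⟨h1.symm.le.trans ((hD.lt e0).le.trans h4), h5⟩

theorem map_eq_self_of (l : List E) (g : G) (h : ∀ e ∈ l, g • e = e) : l.map (g • ·) = l := by
  conv_rhs => rw [← List.map_id l]
  apply List.map_congr_left
  intro e he
  exact h e he

/-- The start and end of the parts of a path `A s B`, `s` a side of a 2-cell. -/
theorem path_parts (D : Dcx P V E) {p q a b : V} {A s B : List E} (hs : D.Path a s b)
    (hne : s ≠ []) (h : D.Path p (A ++ s ++ B) q) : D.Path p A a ∧ D.Path b B q := by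
  obtain ⟨r', h1, h2⟩ := pathIn_append.1 h
  obtain ⟨r, h3, h4⟩ := pathIn_append.1 h1
  obtain ⟨e, s', rfl⟩ := List.exists_cons_of_ne_nil hne
  have h5 : r = a := by
    obtain ⟨h6, -⟩ := h4
    obtain ⟨h7, -⟩ := hs
    exact h6.symm.trans h7
  subst h5
  have h6 : r' = b := pathIn_unique h4 hs
  subst h6
  exact ⟨h3, h2⟩

/-- One move across a 2-cell as an edge of the Squier complex. -/
theorem exists_edge (D : Dcx P V E) (hD : D.Ordered) {p q : V} {Y : Set D.Cell2}
    {S : Set (List α × ι × List α)}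
    (hS : ∀ s ∈ Y, ∀ A B, D.Path p A s.a → D.Path s.b B q →
      ∃ t ∈ S, Cong P (A.map D.lab) t.1 ∧ s.j = t.2.1 ∧ Cong P (B.map D.lab) t.2.2)
    {l l' : List E} (hl : D.Path p l q) (h : D.MoveIn Y l l') :
    ∃ σ : SEdge α ι, σ.src P = l.map D.lab ∧ σ.tgt P = l'.map D.lab ∧ GoodE P S σ ∧
      D.mvL l σ = l' ∧ D.Path p l' q := by
  obtain ⟨A, B, s, hs, h⟩ := h
  have hlow := D.low_lab s
  rcases h with ⟨rfl, rfl⟩ | ⟨rfl, rfl⟩
  · have hne : s.top ≠ [] := by
      intro h
      have := s.lab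
      rw [h] at this
      exact P.lhs_ne _ this.symm
    obtain ⟨h1, h2⟩ := path_parts D s.path hne hl
    obtain ⟨t, ht, h3, h4, h5⟩ := hS s hs A B h1 h2
    have hsrc : (⟨A.map D.lab, s.j, B.map D.lab, true⟩ : SEdge α ι).src P =
        (A ++ s.top ++ B).map D.lab := by
      simp [SEdge.src, s.lab]
    have hmv : D.mvL (A ++ s.top ++ B) ⟨A.map D.lab, s.j, B.map D.lab, true⟩ =
        A ++ D.low s ++ B := D.mvL_append (b := true) s.lab
    refine ⟨⟨A.map D.lab, s.j, B.map D.lab, true⟩, hsrc, ?_, ⟨t, ht, h3, h4, h5⟩, hmv, ?_⟩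
    · simp [SEdge.tgt, hlow]
    · rw [← hmv]
      exact D.mvL_path hl hsrc
  · have hne : D.low s ≠ [] := by
      intro h
      rw [h] at hlow
      exact P.rhs_ne _ hlow.symm
    obtain ⟨h1, h2⟩ := path_parts D (D.low_path s) hne hl
    obtain ⟨t, ht, h3, h4, h5⟩ := hS s hs A B h1 h2
    have hsrc : (⟨A.map D.lab, s.j, B.map D.lab, false⟩ : SEdge α ι).src P =
        (A ++ D.low s ++ B).map D.lab := by
      simp [SEdge.src, hlow]
    have hmv : D.mvL (A ++ D.low s ++ B) ⟨A.map D.lab, s.j, B.map D.lab, false⟩ =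
        A ++ s.top ++ B := by
      have h6 := D.mvL_append (A := A) (s := D.low s) (B := B) (j := s.j) (b := false) hlow
      rw [h6]
      have h7 := D.flip_flip s.j true s.a s.top s.b s.path s.lab
      have h8 : D.flip s.j false (D.low s) = s.top := h7
      rw [h8]
    refine ⟨⟨A.map D.lab, s.j, B.map D.lab, false⟩, hsrc, ?_, ⟨t, ht, h3, h4, h5⟩, hmv, ?_⟩
    · simp [SEdge.tgt, s.lab]
    · rw [← hmv]
      exact D.mvL_path hl hsrc

/-- The vertex of the covering given by a path. -/
def vx (D : Dcx P V E) {p q : V} {l : List E} (hl : D.Path p l q) : (D.cov p q).E :=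
  (⟨l, hl⟩ : {l : List E // D.Path p l q})

/-- The path of a vertex of the covering. -/
def vl (D : Dcx P V E) {p q : V} (v : (D.cov p q).E) : List E :=
  Subtype.val (p := fun l : List E => D.Path p l q) v

theorem vl_path (D : Dcx P V E) {p q : V} (v : (D.cov p q).E) : D.Path p (vl D v) q :=
  Subtype.property (p := fun l : List E => D.Path p l q) v

theorem vl_vx (D : Dcx P V E) {p q : V} {l : List E} (hl : D.Path p l q) : vl D (vx D hl) = l := rfl

theorem vl_ext (D : Dcx P V E) {p q : V} {v v' : (D.cov p q).E} (h : vl D v = vl D v') : v = v' :=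
  Subtype.ext (p := fun l : List E => D.Path p l q) h

theorem lab_vl (D : Dcx P V E) {p q : V} (v : (D.cov p q).E) :
    (D.cov p q).lab v = (vl D v).map D.lab := rfl

open Classical in
/-- The value of `mv` in the covering. -/
theorem vl_mv (D : Dcx P V E) {p q : V} (v : (D.cov p q).E) {σ : SEdge α ι}
    (h : σ.src P = (vl D v).map D.lab) :
    vl D ((D.cov p q).mv v σ) = D.mvL (vl D v) σ := by
  have h1 : (D.cov p q).mv v σ = if h : σ.src P = (vl D v).map D.lab then
      vx D (D.mvL_path (vl_path D v) h) else v := rfl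
  rw [h1, dif_pos h, vl_vx]

/-- A gallery as a path of the Squier complex. -/
theorem exists_spath (D : Dcx P V E) (hD : D.Ordered) {p q : V} {Y : Set D.Cell2}
    {S : Set (List α × ι × List α)}
    (hS : ∀ s ∈ Y, ∀ A B, D.Path p A s.a → D.Path s.b B q →
      ∃ t ∈ S, Cong P (A.map D.lab) t.1 ∧ s.j = t.2.1 ∧ Cong P (B.map D.lab) t.2.2)
    {l l' : List E} (v : (D.cov p q).E) (hv : vl D v = l)
    (h : Relation.ReflTransGen (D.MoveIn Y) l l') :
    ∃ m : List (SEdge α ι), IsPath P (l.map D.lab) m (l'.map D.lab) ∧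
      (∀ s ∈ m, GoodE P S s) ∧ vl D ((D.cov p q).walk v m) = l' := by
  induction h with
  | refl => exact ⟨[], rfl, by simp, hv⟩
  | @tail b c _ hbc ih =>
    obtain ⟨m, hm, hm', hw⟩ := ih
    have hb : D.Path p b q := by rw [← hw]; exact vl_path D _
    obtain ⟨σ, h1, h2, h3, h4, h5⟩ := exists_edge D hD hS hb hbc
    refine ⟨m ++ [σ], isPath_append P hm ⟨h1, h2⟩, ?_, ?_⟩
    · intro s hs
      rcases List.mem_append.1 hs with hs | hs
      · exact hm' s hs
      · rw [List.mem_singleton.1 hs]; exact h3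
    · have h6 : (D.cov p q).walk v (m ++ [σ]) = (D.cov p q).mv ((D.cov p q).walk v m) σ := by
        unfold Cov.walk
        rw [List.foldl_append]
        rfl
      rw [h6, vl_mv D _ (by rw [hw]; exact h1), hw]
      exact h4

/-- Decomposition of a path according to a decomposition of its label. -/
theorem mvL_smul (D : Dcx P V E) [GAct G D] (g : G) {p q : V} {l : List E} (hl : D.Path p l q)
    {σ : SEdge α ι} (h : σ.src P = l.map D.lab) :
    D.mvL (l.map (g • ·)) σ = (D.mvL l σ).map (g • ·) := by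
  -- split the path
  obtain ⟨a, j, b, pos⟩ := σ
  simp only [SEdge.src] at h
  obtain ⟨l1, B, rfl, h1, h2⟩ := List.map_eq_append_iff.1 h.symm
  obtain ⟨A, s, rfl, h3, h4⟩ := List.map_eq_append_iff.1 h1
  subst h3 h2
  have h5 := D.mvL_append (A := A) (s := s) (B := B) (j := j) (b := pos) h4
  rw [h5]
  obtain ⟨r', h6, h7⟩ := pathIn_append.1 hl
  obtain ⟨r, h8, h9⟩ := pathIn_append.1 h6
  have h10 := D.mvL_append (A := A.map (g • ·)) (s := s.map (g • ·)) (B := B.map (g • ·)) (j := j)
    (b := pos) ((D.map_lab_smul g s).trans h4)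
  rw [D.map_lab_smul g A, D.map_lab_smul g B, GAct.flip_smul g j pos r s r' h9 h4] at h10
  simp only [List.map_append] at h10 ⊢
  exact h10

/-- Walking commutes with the action of elements fixing the end points. -/
theorem walk_smul (D : Dcx P V E) [GAct G D] (g : G) {p q : V}
    (m : List (SEdge α ι)) : ∀ {x : List α} (v v' : (D.cov p q).E),
    vl D v' = (vl D v).map (g • ·) → IsPath P ((vl D v).map D.lab) m x →
    vl D ((D.cov p q).walk v' m) = (vl D ((D.cov p q).walk v m)).map (g • ·) := by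
  induction m with
  | nil => intro x v v' h _; exact h
  | cons σ m ih =>
    intro x v v' hvv hm
    obtain ⟨h1, h2⟩ := hm
    have h3 : σ.src P = (vl D v').map D.lab := by rw [hvv, D.map_lab_smul]; exact h1
    have h4 : (vl D ((D.cov p q).mv v σ)).map D.lab = σ.tgt P :=
      (D.cov p q).lab_mv v σ h1
    exact ih ((D.cov p q).mv v σ) ((D.cov p q).mv v' σ) (by
      rw [vl_mv D v h1, vl_mv D v' h3, hvv, mvL_smul D g (vl_path D v) h1]) (by
      rw [h4]; exact h2)

end LemA

open LemA

/-- Proof. Let `T = D.gdcOf hD h`, `π` a path from `p` to `q`, `A` a path from `bot` to `p`, `B` a path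
from `q` to `top`, `c` the label of `π`, `H = L q ⊓ R p`, `w = sumE (A π B)`.
(0) For every path `π'` from `p` to `q` with label `c` there is exactly one `g ∈ H` with `g π = π'`
(`Homog.trans` for `A π B`, `A π' B`; `mem_Lsub`, `mem_Rsub`; `Homog.free`), and `g π` is such a path for
`g ∈ H`.
(1) `T.y w` is a derivation; for `g ∈ H` its boundary is `sumE (g π) - sumE π` and it lies in `[p, q]`.
By `exists_finset_supp` for `R p` and for `L q` there are finite sets `S₁, S₂` of 2-cells such that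
for `g ∈ H` and `s` in the support of `T.y w g` some translate of `s` by an element of `R p` is in
`S₁` and some translate by an element of `L q` is in `S₂`.
(2) Choose for `s₁ ∈ S₁` with `p ≤ a s₁` the label `A₁` of a path from `p` to `a s₁`, and for
`s₂ ∈ S₂` with `b s₂ ≤ q` the label `B₂` of a path from `b s₂` to `q`. Let `S` be the finite set of
the triples `(A₁, s₁.j, B₂)`. As `R p` fixes `p` (and preserves labels) and all paths with the same
end points have congruent labels, for `s` as in (1) the label of every path from `p` to `a s` is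
congruent to some `A₁` with `s₁.j = s.j`, and the label of every path from `b s` to `q` to some `B₂`.
(3) By `gallery` there is a sequence of moves from `π` to `g π` across such cells `s`; reading labels
it gives a closed path `l_g` in the Squier complex at `c` with all edges `GoodE P S`, and
`(D.cov p q).walk π l_g = g π`.
(4) Let `Θ` be as in `combing`. For `f ∈ DiagramGroup P c`, `f = [l]`, let `Ψ f` be the unique `g ∈ H`
with `(D.cov p q).walk π l = g π` (well defined by `walk_congr`); this is a homomorphism, because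
`walk` commutes with the action of `H`. So `g = Ψ [l_g]` is in the subgroup generated by `Ψ Θ`. -/
theorem Dcx.inter_fg (D : Dcx P V E) [GAct G D] (hD : D.Ordered) {bot top : V}
    (h : Dcx.Homog G D bot top) (hinj : (D.gdcOf hD h).Inj) (p q : V) (hpq : p ≤ q)
    (hL : (Dcx.Lsub G D q).FG) (hR : (Dcx.Rsub G D p).FG) :
    (Dcx.Lsub G D q ⊓ Dcx.Rsub G D p).FG := by
  classical
  set T := D.gdcOf hD h with hT
  set H := Dcx.Lsub G D q ⊓ Dcx.Rsub G D p with hH
  obtain ⟨π, hπ⟩ := (hD.le_iff p q).1 hpq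
  obtain ⟨A, hA⟩ := (hD.le_iff bot p).1 (h.bot_le p)
  obtain ⟨B, hB⟩ := (hD.le_iff q top).1 (h.le_top q)
  set c := π.map D.lab with hc
  have hfull : ∀ l, D.Path p l q → D.Path bot (A ++ l ++ B) top := fun l hl =>
    pathIn_append.2 ⟨q, pathIn_append.2 ⟨p, hA, hl⟩, hB⟩
  -- elements of the subgroups fix the ends
  have hLq : ∀ x ∈ Dcx.Lsub G D q, x • q = q := fun x hx =>
    VD.smul_of_mem_L T.toVD (p := q) hx le_rfl
  have hRp : ∀ x ∈ Dcx.Rsub G D p, x • p = p := fun x hx =>
    VD.smul_of_mem_R T.toVD (p := p) hx le_rfl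
  have hq : ∀ g ∈ H, g • q = q := fun g hg => hLq g hg.1
  have hp : ∀ g ∈ H, g • p = p := fun g hg => hRp g hg.2
  have hAfix : ∀ g ∈ H, A.map (g • ·) = A := fun g hg =>
    map_eq_self_of A g fun e he => hg.2 e (mem_path D hD hA e he).2
  have hBfix : ∀ g ∈ H, B.map (g • ·) = B := fun g hg =>
    map_eq_self_of B g fun e he => hg.1 e (mem_path D hD hB e he).1
  have hHpath : ∀ g ∈ H, D.Path p (π.map (g • ·)) q := by
    intro g hg
    have := D.path_smul g hπ
    rwa [hp g hg, hq g hg] at this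
  -- (0)
  have htrans : ∀ π', D.Path p π' q → π'.map D.lab = c → ∃ g ∈ H, π' = π.map (g • ·) := by
    intro π' hπ' hlab
    obtain ⟨g, hg⟩ := h.trans (A ++ π ++ B) (A ++ π' ++ B) (hfull π hπ) (hfull π' hπ') (by
      simp only [List.map_append, hlab, hc])
    simp only [List.map_append] at hg
    have hlen : (A ++ π').length = (A.map (g • ·) ++ π.map (g • ·)).length := by
      have := congrArg List.length hlab
      simp only [List.length_append, List.length_map, hc] at this ⊢
      omega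
    obtain ⟨h1, h2⟩ := List.append_inj hg hlen
    obtain ⟨h3, h4⟩ := List.append_inj h1 (by simp)
    exact ⟨g, ⟨Dcx.mem_Lsub D hD h hB h2.symm, Dcx.mem_Rsub D hD h hA h3.symm⟩, h4⟩
  have huniq : ∀ g ∈ H, ∀ g' ∈ H, π.map (g • ·) = π.map (g' • ·) → g = g' := by
    intro g hg g' hg' he
    have h1 : π.map ((g'⁻¹ * g) • ·) = π := by
      rw [map_smul_mul, he, ← map_smul_mul, inv_mul_cancel, map_smul_one]
    have hm : g'⁻¹ * g ∈ H := H.mul_mem (H.inv_mem hg') hg
    have h2 := h.free (g'⁻¹ * g) (A ++ π ++ B) (hfull π hπ) (by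
      simp only [List.map_append]
      rw [hAfix _ hm, hBfix _ hm, h1])
    exact (inv_mul_eq_one.1 h2).symm
  -- (1)
  set W := Dcx.sumE (A ++ π ++ B) with hW
  have hWw : T.IsW W := D.bd1_sumE (hfull π hπ)
  have hyH : ∀ g ∈ H, bd2 D.dF (T.y W g) = Dcx.sumE (π.map (g • ·)) - Dcx.sumE π := by
    intro g hg
    have h1 : bd2 D.dF (T.y W g) = sm g W - W := T.y_spec hWw g
    rw [h1, hW, sm_sumE]
    simp only [List.map_append, Dcx.sumE_append]
    rw [hAfix g hg, hBfix g hg]
    abel
  have hinj' : ∀ k : D.Cell2 →₀ ℤ, bd2 D.dF k = 0 → k = 0 := hinj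
  have hysupp : ∀ g ∈ H, ∀ s, T.y W g s ≠ 0 → p ≤ s.a ∧ s.b ≤ q := by
    intro g hg
    have hsum : ∀ l, D.Path p l q → Dcx.sumE l ∈
        Finsupp.supported ℤ ℤ {e | p ≤ D.i e ∧ D.t e ≤ q} := by
      intro l hl
      have hmem := mem_path D hD hl
      unfold Dcx.sumE
      apply list_sum_mem
      intro x hx
      obtain ⟨e, he, rfl⟩ := List.mem_map.1 hx
      exact Finsupp.single_mem_supported ℤ _ (hmem e he)
    obtain ⟨y', hy', hy''⟩ := D.ex1 hD p q hpq (Dcx.sumE (π.map (g • ·)) - Dcx.sumE π)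
      (Submodule.sub_mem _ (hsum _ (hHpath g hg)) (hsum _ hπ)) (by
        rw [map_sub, D.bd1_sumE (hHpath g hg), D.bd1_sumE hπ, sub_self])
    have he : T.y W g = y' := by
      have := hinj' (T.y W g - y') (by rw [map_sub, hyH g hg, hy'', sub_self])
      exact sub_eq_zero.1 this
    intro s hs
    rw [he] at hs
    exact hy' (Finsupp.mem_support_iff.2 hs)
  have hder : ∀ g g', T.y W (g * g') = T.y W g + sm g (T.y W g') := T.y_mul hinj hWw
  obtain ⟨S1, hS1⟩ := exists_finset_supp (T.y W) hder (Dcx.Rsub G D p) hR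
  obtain ⟨S2, hS2⟩ := exists_finset_supp (T.y W) hder (Dcx.Lsub G D q) hL
  -- (2)
  let f1 : D.Cell2 → List α := fun s =>
    if hs : ∃ l, D.Path p l s.a then hs.choose.map D.lab else []
  let f2 : D.Cell2 → List α := fun s =>
    if hs : ∃ l, D.Path s.b l q then hs.choose.map D.lab else []
  let S : Set (List α × ι × List α) :=
    ((S1 ×ˢ S2).image fun z => (f1 z.1, z.1.j, f2 z.2) : Finset (List α × ι × List α))
  have hSfin : S.Finite := Finset.finite_toSet _
  have hgood : ∀ g ∈ H, ∀ s ∈ {s | T.y W g s ≠ 0}, ∀ A B, D.Path p A s.a → D.Path s.b B q →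
      ∃ t ∈ S, Cong P (A.map D.lab) t.1 ∧ s.j = t.2.1 ∧ Cong P (B.map D.lab) t.2.2 := by
    intro g hg s hs A' B' hA' hB'
    obtain ⟨r, hr, hr1⟩ := hS1 g hg.2 s hs
    obtain ⟨l, hl, hl1⟩ := hS2 g hg.1 s hs
    refine ⟨(f1 (r • s), (r • s).j, f2 (l • s)), ?_, ?_, rfl, ?_⟩
    · exact Finset.mem_coe.2 (Finset.mem_image.2 ⟨(r • s, l • s), Finset.mem_product.2 ⟨hr1, hl1⟩, rfl⟩)
    · have h1 : D.Path p (A'.map (r • ·)) (r • s).a := by
        have := D.path_smul r hA'
        rw [hRp r hr] at this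
        exact this
      have h2 : ∃ l, D.Path p l (r • s).a := ⟨_, h1⟩
      have h3 := cong_of_paths D hD h1 h2.choose_spec
      rw [D.map_lab_smul] at h3
      show Cong P (A'.map D.lab) (f1 (r • s))
      simp only [f1, dif_pos h2]
      exact h3
    · have h1 : D.Path (l • s).b (B'.map (l • ·)) q := by
        have := D.path_smul l hB'
        rw [hLq l hl] at this
        exact this
      have h2 : ∃ l', D.Path (l • s).b l' q := ⟨_, h1⟩
      have h3 := cong_of_paths D hD h1 h2.choose_spec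
      rw [D.map_lab_smul] at h3
      show Cong P (B'.map D.lab) (f2 (l • s))
      simp only [f2, dif_pos h2]
      exact h3
  -- (3)
  set v0 : (D.cov p q).E := vx D hπ with hv0
  have hv0' : vl D v0 = π := rfl
  have hspath : ∀ g ∈ H, ∃ (m : List (SEdge α ι)) (_ : IsPath P c m c),
      (∀ s ∈ m, GoodE P S s) ∧ vl D ((D.cov p q).walk v0 m) = π.map (g • ·) := by
    intro g hg
    have h1 := D.gallery hD hinj' hπ (hHpath g hg) (T.y W g) (hyH g hg)
    obtain ⟨m, hm, hm', hw⟩ := exists_spath D hD (hgood g hg) v0 hv0' h1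
    rw [D.map_lab_smul] at hm
    exact ⟨m, hm, hm', hw⟩
  -- (4)
  obtain ⟨Θ, hΘ⟩ := combing (P := P) c S hSfin
  have hwalk : ∀ (m m' : List (SEdge α ι)) (hm : IsPath P c m c) (hm' : IsPath P c m' c),
      Hpt.mk P m hm = Hpt.mk P m' hm' → (D.cov p q).walk v0 m = (D.cov p q).walk v0 m' :=
    fun m m' hm hm' he => (D.cov p q).walk_congr v0 (y := c) ⟨hm, hm', he⟩
  have hwlab : ∀ (m : List (SEdge α ι)), IsPath P c m c →
      (vl D ((D.cov p q).walk v0 m)).map D.lab = c := fun m hm =>
    (D.cov p q).lab_walk v0 (y := c) hm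
  have hΨ : ∀ f : DiagramGroup P c, ∃ g ∈ H, ∀ (m : List (SEdge α ι)) (hm : IsPath P c m c),
      Hpt.mk P m hm = f → vl D ((D.cov p q).walk v0 m) = π.map (g • ·) := by
    intro f
    induction f using Hpt.ind with
    | _ m0 hm0 =>
      obtain ⟨g, hg, hg'⟩ := htrans _ (vl_path D ((D.cov p q).walk v0 m0)) (hwlab m0 hm0)
      refine ⟨g, hg, ?_⟩
      intro m hm he
      rw [hwalk m m0 hm hm0 he]
      exact hg'
  choose Ψ hΨH hΨw using hΨ
  have hΨmul : ∀ f f' : DiagramGroup P c, Ψ (f * f') = Ψ f * Ψ f' := by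
    intro f f'
    apply huniq _ (hΨH _) _ (H.mul_mem (hΨH _) (hΨH _))
    obtain ⟨m, hm, e⟩ : ∃ m, ∃ hm : IsPath P c m c, Hpt.mk P m hm = f :=
      Hpt.ind (M := fun f => ∃ m, ∃ hm : IsPath P c m c, Hpt.mk P m hm = f)
        (fun m hm => ⟨m, hm, rfl⟩) f
    obtain ⟨m', hm', e'⟩ : ∃ m, ∃ hm : IsPath P c m c, Hpt.mk P m hm = f' :=
      Hpt.ind (M := fun f => ∃ m, ∃ hm : IsPath P c m c, Hpt.mk P m hm = f)
        (fun m hm => ⟨m, hm, rfl⟩) f'
    have h1 := hΨw (f * f') (m ++ m') (isPath_append P hm hm') (by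
      rw [← e, ← e']; rfl)
    have h2 : (D.cov p q).walk v0 (m ++ m') =
        (D.cov p q).walk ((D.cov p q).walk v0 m) m' := by
      unfold Cov.walk
      rw [List.foldl_append]
    have h3 := walk_smul D (Ψ f) m' v0 ((D.cov p q).walk v0 m) (hΨw f m hm e) hm'
    rw [h2, h3, hΨw f' m' hm' e', ← map_smul_mul] at h1
    exact h1.symm
  let Φ : DiagramGroup P c →* G := MonoidHom.mk' Ψ hΨmul
  refine ⟨Θ.image Φ, ?_⟩
  apply le_antisymm
  · rw [Subgroup.closure_le]
    intro x hx
    obtain ⟨f, -, rfl⟩ := Finset.mem_image.1 (Finset.mem_coe.1 hx)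
    exact hΨH f
  · intro g hg
    obtain ⟨m, hm, hm', hw⟩ := hspath g hg
    have h1 := hΘ m hm hm'
    have h2 : Ψ (Hpt.mk P m hm : DiagramGroup P c) = g := by
      apply huniq _ (hΨH _) _ hg
      rw [← hΨw _ m hm rfl, hw]
    have h3 : Φ (Hpt.mk P m hm : DiagramGroup P c) ∈
        (Subgroup.closure (Θ : Set (DiagramGroup P c))).map Φ := Subgroup.mem_map_of_mem Φ h1
    rw [MonoidHom.map_closure] at h3
    rw [Finset.coe_image, ← h2]
    exact h3

end Pool.Agent.DG
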