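import Pool.Agent.MP_cff99f_al.Gen.Basic

/-!
Block Mark: marked `G`-sets, equivariant choices, the lifting lemma.
-/

namespace Pool.Agent.DG

universe w u₁ u₂ u₃

/-- Equivariant choice: `X` is a `G`-set, `act` an action of `G` on `M`. If the sets `S x` are
nonempty, `S (g x) ⊇ g (S x)`, and the stabiliser of `x` fixes the elements of `S x`, then there is an
equivariant choice function. -/
theorem exists_equivariant_choice {G : Type w} [Group G] {X : Type u₁} [MulAction G X]
    {M : Type u₂} (act : G → M → M) (act_one : ∀ m, act 1 m = m)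
    (act_mul : ∀ g h m, act (g * h) m = act g (act h m)) (S : X → Set M)
    (hne : ∀ x, (S x).Nonempty) (hsm : ∀ g x m, m ∈ S x → act g m ∈ S (g • x))
    (hfix : ∀ g x m, m ∈ S x → g • x = x → act g m = m) :
    ∃ f : X → M, (∀ x, f x ∈ S x) ∧ ∀ g x, f (g • x) = act g (f x) := by
  classical
  have hrep : ∀ x : X, ∃ g : G,
      g • (Quotient.out (Quotient.mk (MulAction.orbitRel G X) x)) = x := by
    intro x
    have h := Quotient.mk_out (s := MulAction.orbitRel G X) x
    have h2 : (MulAction.orbitRel G X) (Quotient.out (Quotient.mk (MulAction.orbitRel G X) x)) x := h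
    rw [MulAction.orbitRel_apply, MulAction.mem_orbit_iff] at h2
    obtain ⟨g, hg⟩ := h2
    exact ⟨g⁻¹, by rw [← hg, inv_smul_smul]⟩
  choose γ hγ using hrep
  choose m hm using hne
  have hq : ∀ (g : G) (x : X), (Quotient.mk (MulAction.orbitRel G X) (g • x)) =
      Quotient.mk (MulAction.orbitRel G X) x := by
    intro g x
    apply Quotient.sound
    change (MulAction.orbitRel G X) _ _
    rw [MulAction.orbitRel_apply]
    exact MulAction.mem_orbit _ _
  refine ⟨fun x => act (γ x) (m (Quotient.out (Quotient.mk (MulAction.orbitRel G X) x))), ?_, ?_⟩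
  · intro x
    have h := hsm (γ x) _ _ (hm (Quotient.out (Quotient.mk (MulAction.orbitRel G X) x)))
    rw [hγ x] at h
    exact h
  · intro g x
    change act (γ (g • x)) (m (Quotient.out (Quotient.mk (MulAction.orbitRel G X) (g • x)))) =
      act g (act (γ x) (m (Quotient.out (Quotient.mk (MulAction.orbitRel G X) x))))
    have e1 := hγ (g • x)
    have e2 := hγ x
    rw [hq g x] at e1 ⊢
    generalize Quotient.out (Quotient.mk (MulAction.orbitRel G X) x) = r at e1 e2 ⊢
    have e3 : ((g * γ x)⁻¹ * γ (g • x)) • r = r := by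
      rw [mul_smul, e1, mul_inv_rev, mul_smul, inv_smul_smul]
      rw [inv_smul_eq_iff, e2]
    have e4 := hfix _ _ _ (hm r) e3
    have e5 : γ (g • x) = (g * γ x) * ((g * γ x)⁻¹ * γ (g • x)) := by group
    rw [e5, act_mul, e4, act_mul]

/-- A marking of a `G`-set: the stabiliser of every point `x` is the product of two commuting
subgroups `A x`, `B x`, in an equivariant way. -/
structure Mark (G : Type w) (X : Type u₁) [Group G] [MulAction G X] where
  A : X → Subgroup G
  B : X → Subgroup G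
  A_smul : ∀ (g : G) x h, h ∈ A (g • x) ↔ g⁻¹ * h * g ∈ A x
  B_smul : ∀ (g : G) x h, h ∈ B (g • x) ↔ g⁻¹ * h * g ∈ B x
  comm : ∀ x a b, a ∈ A x → b ∈ B x → a * b = b * a
  stab : ∀ (x : X) (g : G), g • x = x ↔ ∃ a ∈ A x, ∃ b ∈ B x, g = a * b

/-- An approximation of a marked `G`-set `Y`: a marked `G`-set over `Y` with finitely many orbits
and finitely generated marking. -/
structure Appr {G : Type w} {Y : Type u₂} [Group G] [MulAction G Y] (MY : Mark G Y) where
  X : Type (max w u₂)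
  act : MulAction G X
  M : Mark G X
  π : X → Y
  fin : Finite (MulAction.orbitRel.Quotient G X)
  π_smul : ∀ (g : G) x, π (g • x) = g • π x
  A_le : ∀ x, M.A x ≤ MY.A (π x)
  B_le : ∀ x, M.B x ≤ MY.B (π x)
  A_fg : ∀ x, (M.A x).FG
  B_fg : ∀ x, (M.B x).FG

attribute [instance] Appr.act

namespace MarkAux

/-- A finite family of finitely generated subgroups of `K` is contained in a finitely generated
subgroup of `K`. -/
theorem exists_fg_sup {G : Type w} [Group G] {ι : Type u₁} (K : Subgroup G) (s : Finset ι)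
    (P : ι → Subgroup G) (h : ∀ i ∈ s, P i ≤ K ∧ (P i).FG) :
    ∃ Q : Subgroup G, Q ≤ K ∧ Q.FG ∧ ∀ i ∈ s, P i ≤ Q := by
  classical
  induction s using Finset.induction_on with
  | empty =>
    refine ⟨⊥, bot_le, ?_, by simp⟩
    exact (Subgroup.fg_iff _).2 ⟨∅, Subgroup.closure_empty, Set.finite_empty⟩
  | insert a s ha ih =>
    obtain ⟨Q, hQ, hfg, hle⟩ := ih fun i hi => h i (Finset.mem_insert_of_mem hi)
    obtain ⟨h1, h2⟩ := h a (Finset.mem_insert_self _ _)
    refine ⟨P a ⊔ Q, sup_le h1 hQ, h2.sup hfg, ?_⟩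
    intro i hi
    rcases Finset.mem_insert.1 hi with rfl | hi
    · exact le_sup_left
    · exact (hle i hi).trans le_sup_right

/-- Conjugate of a subgroup. -/
def cj {G : Type w} [Group G] (g : G) (A : Subgroup G) : Subgroup G :=
  A.map (MulAut.conj g).toMonoidHom

theorem mem_cj {G : Type w} [Group G] {g h : G} {A : Subgroup G} :
    h ∈ cj g A ↔ g⁻¹ * h * g ∈ A := by
  unfold cj
  rw [Subgroup.mem_map]
  constructor
  · rintro ⟨a, ha, rfl⟩
    have : g⁻¹ * (MulAut.conj g).toMonoidHom a * g = a := by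
      simp [mul_assoc]
    rw [this]; exact ha
  · intro hm
    refine ⟨_, hm, ?_⟩
    simp [mul_assoc]

theorem cj_fg {G : Type w} [Group G] {g : G} {A : Subgroup G} (h : A.FG) : (cj g A).FG := by
  classical
  obtain ⟨S, hS⟩ := h
  refine ⟨S.image (MulAut.conj g).toMonoidHom, ?_⟩
  rw [Finset.coe_image, ← MonoidHom.map_closure, hS]
  rfl

/-- Lifting a chain pointwise. -/
theorem exists_chain_lift {Y : Type u₁} {W : Type u₂} (π : W → Y) (P : W → Prop) (h : Y →₀ ℤ)
    (H : ∀ y, h y ≠ 0 → ∃ w, π w = y ∧ P w) :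
    ∃ c : W →₀ ℤ, c.mapDomain π = h ∧ ∀ w, c w ≠ 0 → h (π w) ≠ 0 ∧ P w := by
  classical
  have H' : ∀ y : {y // y ∈ h.support}, ∃ w, π w = y ∧ P w := by
    intro y
    exact H y (Finsupp.mem_support_iff.1 y.2)
  choose j hj hP using H'
  refine ⟨∑ y ∈ h.support.attach, Finsupp.single (j y) (h y), ?_, ?_⟩
  · rw [Finsupp.mapDomain_finsetSum]
    have : ∀ y ∈ h.support.attach, Finsupp.mapDomain π (Finsupp.single (j y) (h y)) =
        Finsupp.single (y : Y) (h y) := by
      intro y _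
      rw [Finsupp.mapDomain_single, hj]
    rw [Finset.sum_congr rfl this, Finset.sum_attach h.support fun y => Finsupp.single y (h y)]
    exact Finsupp.sum_single h
  · intro w hw
    rw [Finsupp.finsetSum_apply] at hw
    obtain ⟨y, _, hy⟩ := Finset.exists_ne_zero_of_sum_ne_zero hw
    have hyw : j y = w := by
      by_contra hne
      exact hy (Finsupp.single_eq_of_ne' hne)
    subst hyw
    exact ⟨by rw [hj]; exact Finsupp.mem_support_iff.1 y.2, hP y⟩

/-- Orbits. -/
abbrev Orb (G : Type w) (Y : Type u₂) [Group G] [MulAction G Y] : Type u₂ :=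
  MulAction.orbitRel.Quotient G Y

/-- The orbit of a point. -/
abbrev oq (G : Type w) {Y : Type u₂} [Group G] [MulAction G Y] (y : Y) : Orb G Y :=
  Quotient.mk (MulAction.orbitRel G Y) y

theorem oq_smul {G : Type w} {Y : Type u₂} [Group G] [MulAction G Y] (g : G) (y : Y) :
    oq G (g • y) = oq G y := by
  apply Quotient.sound
  change (MulAction.orbitRel G Y) _ _
  rw [MulAction.orbitRel_apply]
  exact MulAction.mem_orbit _ _

theorem oq_out {G : Type w} {Y : Type u₂} [Group G] [MulAction G Y] (q : Orb G Y) :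
    oq G q.out = q := Quotient.out_eq q

theorem exists_rep {G : Type w} {Y : Type u₂} [Group G] [MulAction G Y] (y : Y) :
    ∃ g : G, g • (oq G y).out = y := by
  have h := Quotient.mk_out (s := MulAction.orbitRel G Y) y
  have h2 : (MulAction.orbitRel G Y) (oq G y).out y := h
  rw [MulAction.orbitRel_apply, MulAction.mem_orbit_iff] at h2
  obtain ⟨g, hg⟩ := h2
  exact ⟨g⁻¹, by rw [← hg, inv_smul_smul]⟩

/-- Data of an approximation: a finite set of orbits of `Y`, and finitely generated subgroups of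
the marking of their representatives. -/
structure AD {G : Type w} {Y : Type u₂} [Group G] [MulAction G Y] (MY : Mark G Y)
    (I : Finset (Orb G Y)) where
  A : Orb G Y → Subgroup G
  B : Orb G Y → Subgroup G
  A_le : ∀ q, A q ≤ MY.A q.out
  B_le : ∀ q, B q ≤ MY.B q.out
  A_fg : ∀ q, (A q).FG
  B_fg : ∀ q, (B q).FG

namespace AD

variable {G : Type w} {Y : Type u₂} [Group G] [MulAction G Y] {MY : Mark G Y}
    {I : Finset (Orb G Y)} (D : AD MY I)

theorem comm (q : Orb G Y) {a b : G} (ha : a ∈ D.A q) (hb : b ∈ D.B q) : a * b = b * a :=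
  MY.comm _ a b (D.A_le q ha) (D.B_le q hb)

/-- The product of the two subgroups. -/
def H (q : Orb G Y) : Subgroup G where
  carrier := {g | ∃ a ∈ D.A q, ∃ b ∈ D.B q, g = a * b}
  one_mem' := ⟨1, one_mem _, 1, one_mem _, by simp⟩
  mul_mem' := by
    rintro _ _ ⟨a, ha, b, hb, rfl⟩ ⟨a', ha', b', hb', rfl⟩
    refine ⟨a * a', mul_mem ha ha', b * b', mul_mem hb hb', ?_⟩
    have := D.comm q ha' hb
    calc a * b * (a' * b') = a * (b * a') * b' := by group
      _ = a * (a' * b) * b' := by rw [this]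
      _ = a * a' * (b * b') := by group
  inv_mem' := by
    rintro _ ⟨a, ha, b, hb, rfl⟩
    refine ⟨a⁻¹, inv_mem ha, b⁻¹, inv_mem hb, ?_⟩
    rw [mul_inv_rev]
    exact (D.comm q (inv_mem ha) (inv_mem hb)).symm

theorem mem_H {q : Orb G Y} {g : G} : g ∈ D.H q ↔ ∃ a ∈ D.A q, ∃ b ∈ D.B q, g = a * b := Iff.rfl

theorem H_fix {q : Orb G Y} {g : G} (h : g ∈ D.H q) : g • q.out = q.out := by
  obtain ⟨a, ha, b, hb, rfl⟩ := h
  exact (MY.stab _ _).2 ⟨a, D.A_le q ha, b, D.B_le q hb, rfl⟩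

theorem conj_A {q : Orb G Y} {k h : G} (hk : k ∈ D.H q) : k⁻¹ * h * k ∈ D.A q ↔ h ∈ D.A q := by
  have key : ∀ (k h : G), k ∈ D.H q → h ∈ D.A q → k⁻¹ * h * k ∈ D.A q := by
    rintro k h ⟨a, ha, b, hb, rfl⟩ hh
    have h1 : a⁻¹ * h * a ∈ D.A q := mul_mem (mul_mem (inv_mem ha) hh) ha
    have h2 := D.comm q h1 hb
    have h3 : (a * b)⁻¹ * h * (a * b) = a⁻¹ * h * a := by
      calc (a * b)⁻¹ * h * (a * b) = b⁻¹ * ((a⁻¹ * h * a) * b) := by group
        _ = b⁻¹ * (b * (a⁻¹ * h * a)) := by rw [h2]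
        _ = a⁻¹ * h * a := by group
    rw [h3]; exact h1
  constructor
  · intro h1
    have h2 := key k⁻¹ _ (inv_mem hk) h1
    have h3 : k⁻¹⁻¹ * (k⁻¹ * h * k) * k⁻¹ = h := by group
    rwa [h3] at h2
  · exact key k h hk

theorem conj_B {q : Orb G Y} {k h : G} (hk : k ∈ D.H q) : k⁻¹ * h * k ∈ D.B q ↔ h ∈ D.B q := by
  have key : ∀ (k h : G), k ∈ D.H q → h ∈ D.B q → k⁻¹ * h * k ∈ D.B q := by
    rintro k h ⟨a, ha, b, hb, rfl⟩ hh
    have h0 := D.comm q ha hh
    have h1 : b⁻¹ * h * b ∈ D.B q := mul_mem (mul_mem (inv_mem hb) hh) hb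
    have h3 : (a * b)⁻¹ * h * (a * b) = b⁻¹ * h * b := by
      calc (a * b)⁻¹ * h * (a * b) = b⁻¹ * (a⁻¹ * (h * a)) * b := by group
        _ = b⁻¹ * (a⁻¹ * (a * h)) * b := by rw [h0]
        _ = b⁻¹ * h * b := by group
    rw [h3]; exact h1
  constructor
  · intro h1
    have h2 := key k⁻¹ _ (inv_mem hk) h1
    have h3 : k⁻¹⁻¹ * (k⁻¹ * h * k) * k⁻¹ = h := by group
    rwa [h3] at h2
  · exact key k h hk

/-- The points of the approximation. -/
def X : Type (max w u₂) := Σ q : {q // q ∈ I}, G ⧸ D.H q.1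

/-- The point `[g]` over the representative `q`. -/
def pt (q : {q // q ∈ I}) (g : G) : D.X := ⟨q, (g : G ⧸ D.H q.1)⟩

/-- The index of a point. -/
def ix (x : D.X) : {q // q ∈ I} := x.1

/-- A representative of a point. -/
noncomputable def rp (x : D.X) : G := x.2.out

theorem pt_rp (x : D.X) : D.pt (D.ix x) (D.rp x) = x := by
  rcases x with ⟨q, x⟩
  change (⟨q, ((Quotient.out x : G) : G ⧸ D.H q.1)⟩ : D.X) = ⟨q, x⟩
  rw [QuotientGroup.out_eq']

theorem ix_pt (q : {q // q ∈ I}) (g : G) : D.ix (D.pt q g) = q := rfl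

theorem rp_pt (q : {q // q ∈ I}) (g : G) : ∃ h ∈ D.H q.1, D.rp (D.pt q g) = g * h := by
  obtain ⟨h, hh⟩ := QuotientGroup.mk_out_eq_mul (D.H q.1) g
  exact ⟨h, h.2, hh⟩

theorem pt_eq_pt {q : {q // q ∈ I}} {g g' : G} :
    D.pt q g = D.pt q g' ↔ g⁻¹ * g' ∈ D.H q.1 := by
  unfold pt
  constructor
  · intro h
    have h2 := eq_of_heq (Sigma.mk.inj h).2
    exact QuotientGroup.eq.1 h2
  · intro h
    rw [QuotientGroup.eq.2 h]

instance : MulAction G D.X where
  smul g x := ⟨x.1, g • x.2⟩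
  one_smul x := by
    rcases x with ⟨q, x⟩
    change (⟨q, (1 : G) • x⟩ : D.X) = ⟨q, x⟩
    rw [one_smul]
  mul_smul g h x := by
    rcases x with ⟨q, x⟩
    change (⟨q, (g * h) • x⟩ : D.X) = ⟨q, g • h • x⟩
    rw [mul_smul]

theorem smul_pt (g : G) (q : {q // q ∈ I}) (k : G) : g • D.pt q k = D.pt q (g * k) := rfl

theorem exists_pt (x : D.X) : ∃ q g, x = D.pt q g := ⟨_, _, (D.pt_rp x).symm⟩

/-- The first factor of the marking. -/
noncomputable def mA (x : D.X) : Subgroup G := cj (D.rp x) (D.A (D.ix x).1)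

/-- The second factor of the marking. -/
noncomputable def mB (x : D.X) : Subgroup G := cj (D.rp x) (D.B (D.ix x).1)

theorem mem_mA {q : {q // q ∈ I}} {g h : G} : h ∈ D.mA (D.pt q g) ↔ g⁻¹ * h * g ∈ D.A q.1 := by
  unfold mA
  rw [mem_cj, ix_pt]
  obtain ⟨k, hk, e⟩ := D.rp_pt q g
  rw [e]
  have : (g * k)⁻¹ * h * (g * k) = k⁻¹ * (g⁻¹ * h * g) * k := by group
  rw [this, D.conj_A hk]

theorem mem_mB {q : {q // q ∈ I}} {g h : G} : h ∈ D.mB (D.pt q g) ↔ g⁻¹ * h * g ∈ D.B q.1 := by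
  unfold mB
  rw [mem_cj, ix_pt]
  obtain ⟨k, hk, e⟩ := D.rp_pt q g
  rw [e]
  have : (g * k)⁻¹ * h * (g * k) = k⁻¹ * (g⁻¹ * h * g) * k := by group
  rw [this, D.conj_B hk]

/-- The marking of the approximation. -/
noncomputable def mark : Mark G D.X where
  A := D.mA
  B := D.mB
  A_smul g x h := by
    obtain ⟨q, k, rfl⟩ := D.exists_pt x
    rw [smul_pt, mem_mA, mem_mA]
    have : (g * k)⁻¹ * h * (g * k) = k⁻¹ * (g⁻¹ * h * g) * k := by group
    rw [this]
  B_smul g x h := by
    obtain ⟨q, k, rfl⟩ := D.exists_pt x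
    rw [smul_pt, mem_mB, mem_mB]
    have : (g * k)⁻¹ * h * (g * k) = k⁻¹ * (g⁻¹ * h * g) * k := by group
    rw [this]
  comm x a b ha hb := by
    obtain ⟨q, k, rfl⟩ := D.exists_pt x
    rw [mem_mA] at ha
    rw [mem_mB] at hb
    have h := D.comm q.1 ha hb
    have e1 : a * b = k * ((k⁻¹ * a * k) * (k⁻¹ * b * k)) * k⁻¹ := by group
    have e2 : b * a = k * ((k⁻¹ * b * k) * (k⁻¹ * a * k)) * k⁻¹ := by group
    rw [e1, e2, h]
  stab x g := by
    obtain ⟨q, k, rfl⟩ := D.exists_pt x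
    rw [smul_pt, pt_eq_pt, mem_H]
    constructor
    · rintro ⟨a, ha, b, hb, e⟩
      refine ⟨k * a⁻¹ * k⁻¹, ?_, k * b⁻¹ * k⁻¹, ?_, ?_⟩
      · rw [mem_mA]
        have : k⁻¹ * (k * a⁻¹ * k⁻¹) * k = a⁻¹ := by group
        rw [this]; exact inv_mem ha
      · rw [mem_mB]
        have : k⁻¹ * (k * b⁻¹ * k⁻¹) * k = b⁻¹ := by group
        rw [this]; exact inv_mem hb
      · have h1 : g = k * (((g * k)⁻¹ * k))⁻¹ * k⁻¹ := by group
        rw [h1, e, D.comm q.1 ha hb]
        group
    · rintro ⟨a, ha, b, hb, rfl⟩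
      rw [mem_mA] at ha
      rw [mem_mB] at hb
      refine ⟨(k⁻¹ * a * k)⁻¹, inv_mem ha, (k⁻¹ * b * k)⁻¹, inv_mem hb, ?_⟩
      rw [← mul_inv_rev, ← D.comm q.1 ha hb]
      group

/-- The projection to `Y`. -/
noncomputable def pr (x : D.X) : Y := D.rp x • (D.ix x).1.out

theorem pr_pt (q : {q // q ∈ I}) (g : G) : D.pr (D.pt q g) = g • q.1.out := by
  unfold pr
  rw [ix_pt]
  obtain ⟨k, hk, e⟩ := D.rp_pt q g
  rw [e, mul_smul, D.H_fix hk]

/-- The approximation given by the data. -/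
noncomputable def appr : Appr MY where
  X := D.X
  act := inferInstance
  M := D.mark
  π := D.pr
  fin := by
    let φ : {q // q ∈ I} → MulAction.orbitRel.Quotient G D.X :=
      fun q => Quotient.mk (MulAction.orbitRel G D.X) (D.pt q 1)
    refine Finite.of_surjective φ ?_
    intro o
    induction o using Quotient.inductionOn with
    | h x =>
      obtain ⟨q, k, rfl⟩ := D.exists_pt x
      refine ⟨q, ?_⟩
      apply Quotient.sound
      change (MulAction.orbitRel G D.X) _ _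
      rw [MulAction.orbitRel_apply, MulAction.mem_orbit_iff]
      refine ⟨k⁻¹, ?_⟩
      rw [smul_pt, inv_mul_cancel]
  π_smul g x := by
    obtain ⟨q, k, rfl⟩ := D.exists_pt x
    rw [smul_pt, pr_pt, pr_pt, mul_smul]
  A_le x := by
    obtain ⟨q, k, rfl⟩ := D.exists_pt x
    intro h hh
    rw [pr_pt, MY.A_smul]
    exact D.A_le _ (D.mem_mA.1 hh)
  B_le x := by
    obtain ⟨q, k, rfl⟩ := D.exists_pt x
    intro h hh
    rw [pr_pt, MY.B_smul]
    exact D.B_le _ (D.mem_mB.1 hh)
  A_fg x := cj_fg (D.A_fg _)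
  B_fg x := cj_fg (D.B_fg _)

/-- The projection to a coarser approximation. -/
noncomputable def down (D' : AD MY I) (x : D.X) : D'.X := D'.pt (D.ix x) (D.rp x)

theorem down_pt (D' : AD MY I) (hH : ∀ q, D.H q ≤ D'.H q) (q : {q // q ∈ I}) (g : G) :
    D.down D' (D.pt q g) = D'.pt q g := by
  unfold down
  rw [ix_pt, pt_eq_pt]
  obtain ⟨k, hk, e⟩ := D.rp_pt q g
  rw [e]
  have : (g * k)⁻¹ * g = k⁻¹ := by group
  rw [this]
  exact inv_mem (hH _ hk)

theorem down_smul (D' : AD MY I) (hH : ∀ q, D.H q ≤ D'.H q) (g : G) (x : D.X) :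
    D.down D' (g • x) = g • D.down D' x := by
  obtain ⟨q, k, rfl⟩ := D.exists_pt x
  rw [smul_pt, down_pt D D' hH, down_pt D D' hH, smul_pt]

theorem pr_down (D' : AD MY I) (x : D.X) : D'.pr (D.down D' x) = D.pr x := by
  unfold down
  rw [pr_pt]
  rfl

/-- Two points over the same point of `Y` have the same index, and differ by an element of the
stabiliser. -/
theorem pr_eq {x x' : D.X} (h : D.pr x = D.pr x') :
    D.ix x = D.ix x' ∧ ∃ a ∈ MY.A (D.ix x).1.out, ∃ b ∈ MY.B (D.ix x).1.out,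
      (D.rp x)⁻¹ * D.rp x' = a * b := by
  have hi : D.ix x = D.ix x' := by
    apply Subtype.ext
    have h1 : oq G (D.pr x) = (D.ix x).1 := by
      unfold pr
      rw [oq_smul, oq_out]
    have h2 : oq G (D.pr x') = (D.ix x').1 := by
      unfold pr
      rw [oq_smul, oq_out]
    rw [← h1, ← h2, h]
  refine ⟨hi, ?_⟩
  have h3 : ((D.rp x)⁻¹ * D.rp x') • (D.ix x).1.out = (D.ix x).1.out := by
    unfold pr at h
    rw [← hi] at h
    rw [mul_smul, ← h, inv_smul_smul]
  exact (MY.stab _ _).1 h3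

end AD

/-- First stage: an approximation through which `f` lifts. -/
theorem stage_one {G : Type w} [Group G] {X : Type u₁} {Y : Type u₂} [MulAction G X]
    [MulAction G Y] (MX : Mark G X) (MY : Mark G Y)
    (hfin : Finite (MulAction.orbitRel.Quotient G X)) (hA : ∀ x, (MX.A x).FG)
    (hB : ∀ x, (MX.B x).FG) (f : (X →₀ ℤ) →ₗ[ℤ] (Y →₀ ℤ))
    (hf : ∀ (g : G) z, f (sm g z) = sm g (f z))
    (hsupp : ∀ x y, f (Finsupp.single x 1) y ≠ 0 → MX.A x ≤ MY.A y ∧ MX.B x ≤ MY.B y) :
    ∃ (I : Finset (Orb G Y)) (D : AD MY I) (f' : (X →₀ ℤ) →ₗ[ℤ] (D.X →₀ ℤ)),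
      (∀ (g : G) z, f' (sm g z) = sm g (f' z)) ∧ (∀ z, (f' z).mapDomain D.pr = f z) ∧
      (∀ x y', f' (Finsupp.single x 1) y' ≠ 0 → f (Finsupp.single x 1) (D.pr y') ≠ 0 ∧
        MX.A x ≤ D.mA y' ∧ MX.B x ≤ D.mB y') := by
  classical
  have : Fintype (Orb G X) := Fintype.ofFinite _
  choose γ hγ using fun y : Y => exists_rep (G := G) y
  let T : Finset (Σ _ : Orb G X, Y) :=
    Finset.univ.sigma fun o => (f (Finsupp.single o.out 1)).support
  let I : Finset (Orb G Y) := T.image fun t => oq G t.2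
  have memT : ∀ t ∈ T, f (Finsupp.single t.1.out 1) t.2 ≠ 0 := by
    intro t ht
    rw [Finset.mem_sigma] at ht
    exact Finsupp.mem_support_iff.1 ht.2
  have exA : ∀ q : Orb G Y, ∃ Q : Subgroup G, Q ≤ MY.A q.out ∧ Q.FG ∧
      ∀ t ∈ T.filter (fun t => oq G t.2 = q), cj (γ t.2)⁻¹ (MX.A t.1.out) ≤ Q := by
    intro q
    apply exists_fg_sup
    intro t ht
    obtain ⟨ht, hq⟩ := Finset.mem_filter.1 ht
    refine ⟨?_, cj_fg (hA _)⟩
    intro h hh
    rw [mem_cj] at hh
    have h1 := (hsupp _ _ (memT t ht)).1 hh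
    have h2 := hγ t.2
    rw [hq] at h2
    generalize γ t.2 = k at h1 h2
    rw [← h2, MY.A_smul] at h1
    have h3 : k⁻¹ * (k⁻¹⁻¹ * h * k⁻¹) * k = h := by group
    rwa [h3] at h1
  have exB : ∀ q : Orb G Y, ∃ Q : Subgroup G, Q ≤ MY.B q.out ∧ Q.FG ∧
      ∀ t ∈ T.filter (fun t => oq G t.2 = q), cj (γ t.2)⁻¹ (MX.B t.1.out) ≤ Q := by
    intro q
    apply exists_fg_sup
    intro t ht
    obtain ⟨ht, hq⟩ := Finset.mem_filter.1 ht
    refine ⟨?_, cj_fg (hB _)⟩
    intro h hh
    rw [mem_cj] at hh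
    have h1 := (hsupp _ _ (memT t ht)).2 hh
    have h2 := hγ t.2
    rw [hq] at h2
    generalize γ t.2 = k at h1 h2
    rw [← h2, MY.B_smul] at h1
    have h3 : k⁻¹ * (k⁻¹⁻¹ * h * k⁻¹) * k = h := by group
    rwa [h3] at h1
  choose A A_le A_fg hTA using exA
  choose B B_le B_fg hTB using exB
  let D : AD MY I := ⟨A, B, A_le, B_le, A_fg, B_fg⟩
  let S : X → Set (D.X →₀ ℤ) := fun x => {c | c.mapDomain D.pr = f (Finsupp.single x 1) ∧
    ∀ y', c y' ≠ 0 → f (Finsupp.single x 1) (D.pr y') ≠ 0 ∧ (MX.A x ≤ D.mA y' ∧ MX.B x ≤ D.mB y')}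
  have pr_smul : ∀ (g : G) (y' : D.X), D.pr (g • y') = g • D.pr y' := D.appr.π_smul
  have hSm : ∀ (g : G) x m, m ∈ S x → sm g m ∈ S (g • x) := by
    rintro g x m ⟨h1, h2⟩
    have hfx : f (Finsupp.single (g • x) 1) = sm g (f (Finsupp.single x 1)) := by
      rw [← hf, sm_single]
    refine ⟨?_, ?_⟩
    · rw [hfx, ← h1, sm_def, sm_def, ← Finsupp.mapDomain_comp, ← Finsupp.mapDomain_comp]
      congr 1
      funext y'
      exact pr_smul g y'
    · intro y' hy'
      rw [sm_apply] at hy'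
      obtain ⟨h3, h4, h5⟩ := h2 _ hy'
      refine ⟨?_, ?_, ?_⟩
      · rw [hfx, sm_apply, ← pr_smul]
        exact h3
      · intro h hh
        rw [MX.A_smul] at hh
        have h6 := h4 hh
        have h7 := (D.mark.A_smul g (g⁻¹ • y') h).2 h6
        rw [smul_inv_smul] at h7
        exact h7
      · intro h hh
        rw [MX.B_smul] at hh
        have h6 := h5 hh
        have h7 := (D.mark.B_smul g (g⁻¹ • y') h).2 h6
        rw [smul_inv_smul] at h7
        exact h7
  have hSne : ∀ x, (S x).Nonempty := by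
    intro x
    obtain ⟨g, hg⟩ := exists_rep (G := G) x
    suffices h : (S (oq G x).out).Nonempty by
      obtain ⟨m, hm⟩ := h
      have := hSm g _ m hm
      rw [hg] at this
      exact ⟨_, this⟩
    generalize oq G x = o
    obtain ⟨c, hc1, hc2⟩ := exists_chain_lift D.pr
      (fun y' => MX.A o.out ≤ D.mA y' ∧ MX.B o.out ≤ D.mB y') (f (Finsupp.single o.out 1)) (by
        intro y hy
        have hT : (⟨o, y⟩ : Σ _ : Orb G X, Y) ∈ T := by
          rw [Finset.mem_sigma]
          exact ⟨Finset.mem_univ _, Finsupp.mem_support_iff.2 hy⟩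
        have hI : oq G y ∈ I := Finset.mem_image.2 ⟨_, hT, rfl⟩
        have hT2 : (⟨o, y⟩ : Σ _ : Orb G X, Y) ∈ T.filter (fun t => oq G t.2 = oq G y) :=
          Finset.mem_filter.2 ⟨hT, rfl⟩
        refine ⟨D.pt ⟨oq G y, hI⟩ (γ y), ?_, ?_, ?_⟩
        · rw [D.pr_pt]; exact hγ y
        · intro h hh
          rw [D.mem_mA]
          apply hTA (oq G y) _ hT2
          rw [mem_cj]
          have : (γ y)⁻¹⁻¹ * ((γ y)⁻¹ * h * γ y) * (γ y)⁻¹ = h := by group
          rw [this]; exact hh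
        · intro h hh
          rw [D.mem_mB]
          apply hTB (oq G y) _ hT2
          rw [mem_cj]
          have : (γ y)⁻¹⁻¹ * ((γ y)⁻¹ * h * γ y) * (γ y)⁻¹ = h := by group
          rw [this]; exact hh)
    exact ⟨c, hc1, hc2⟩
  have hSfix : ∀ (g : G) x m, m ∈ S x → g • x = x → sm g m = m := by
    rintro g x m ⟨_, h2⟩ hg
    obtain ⟨a, ha, b, hb, rfl⟩ := (MX.stab _ _).1 hg
    rw [sm_def]
    have : Finsupp.mapDomain (fun y' => (a * b) • y') m = Finsupp.mapDomain id m := by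
      apply Finsupp.mapDomain_congr
      intro y' hy'
      obtain ⟨_, h4, h5⟩ := h2 y' (Finsupp.mem_support_iff.1 hy')
      exact (D.mark.stab y' (a * b)).2 ⟨a, h4 ha, b, h5 hb, rfl⟩
    rw [this, Finsupp.mapDomain_id]
  obtain ⟨F, hF1, hF2⟩ := exists_equivariant_choice (G := G) (X := X)
    (fun g (m : D.X →₀ ℤ) => sm g m) (fun m => sm_one m) (fun g h m => sm_mul g h m) S hSne hSm
    hSfix
  have hsing : ∀ x, Finsupp.linearCombination ℤ F (Finsupp.single x 1) = F x := by
    intro x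
    rw [Finsupp.linearCombination_single, one_smul]
  refine ⟨I, D, Finsupp.linearCombination ℤ F, ?_, ?_, ?_⟩
  · intro g z
    induction z using Finsupp.induction_linear with
    | zero => simp
    | add p q hp hq => rw [map_add, map_add, map_add, map_add, hp, hq]
    | single x n =>
      rw [sm_single, Finsupp.linearCombination_single, Finsupp.linearCombination_single, hF2,
        map_zsmul]
  · intro z
    induction z using Finsupp.induction_linear with
    | zero => simp
    | add p q hp hq => rw [map_add, map_add, Finsupp.mapDomain_add, hp, hq]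
    | single x n =>
      have e1 : Finsupp.single x n = n • Finsupp.single x (1 : ℤ) := by
        rw [Finsupp.smul_single, smul_eq_mul, mul_one]
      rw [e1, map_zsmul, map_zsmul, hsing, ← (hF1 x).1]
      exact (Finsupp.mapDomain_smul n (F x))
  · intro x y' hy'
    rw [hsing] at hy'
    exact (hF1 x).2 y' hy'

end MarkAux

/-- The lifting lemma. `f` is a `G`-map from the chains of a marked `G`-set `X` (with finitely many
orbits and a finitely generated marking) to the chains of `Y` such that the marking of `x` is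
contained in the marking of every `y` in the support of `f x`, and `Z` is a finite set of chains
killed by `f`. Then `f` lifts to an approximation `W` of `Y` with the same properties.
Proof: choose representatives `x` of the orbits of `X`, write the finitely many elements of the
supports of the `f x` as `g • s` with `s` in a finite set `Σ` of representatives of orbits of `Y`. For
`s ∈ Σ` choose finitely generated `A s ≤ MY.A s`, `B s ≤ MY.B s` containing all
`g⁻¹ A(x) g`, `g⁻¹ B(x) g`. Let `W` be the disjoint union of the `G ⧸ (A s ⊔ B s)`, and lift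
`f x = ∑ n • (g • s)` to `∑ n • [g]`. The finitely many pairs `[g], [g']` over the same point
`g • s = g' • s` in the supports of the lifts of the elements of `Z` are identified after adding to
`A s`, `B s` the components of `g⁻¹ g' ∈ MY.A s · MY.B s`. -/
theorem exists_lift {G : Type w} [Group G] {X : Type u₁} {Y : Type u₂} [MulAction G X]
    [MulAction G Y] (MX : Mark G X) (MY : Mark G Y)
    (hfin : Finite (MulAction.orbitRel.Quotient G X)) (hA : ∀ x, (MX.A x).FG)
    (hB : ∀ x, (MX.B x).FG) (f : (X →₀ ℤ) →ₗ[ℤ] (Y →₀ ℤ))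
    (hf : ∀ (g : G) z, f (sm g z) = sm g (f z))
    (hsupp : ∀ x y, f (Finsupp.single x 1) y ≠ 0 → MX.A x ≤ MY.A y ∧ MX.B x ≤ MY.B y)
    (Z : Finset (X →₀ ℤ)) (hZ : ∀ z ∈ Z, f z = 0) :
    ∃ (W : Appr MY) (f' : (X →₀ ℤ) →ₗ[ℤ] (W.X →₀ ℤ)),
      (∀ (g : G) z, f' (sm g z) = sm g (f' z)) ∧ (∀ z, (f' z).mapDomain W.π = f z) ∧
      (∀ x y', f' (Finsupp.single x 1) y' ≠ 0 → f (Finsupp.single x 1) (W.π y') ≠ 0 ∧
        MX.A x ≤ W.M.A y' ∧ MX.B x ≤ W.M.B y') ∧ ∀ z ∈ Z, f' z = 0 := by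
  classical
  obtain ⟨I, D, f₀, h1, h2, h3⟩ := MarkAux.stage_one MX MY hfin hA hB f hf hsupp
  let T : Finset (D.X × D.X) := Z.biUnion fun z => (f₀ z).support ×ˢ (f₀ z).support
  have exab : ∀ t : D.X × D.X, ∃ a b : G, D.pr t.1 = D.pr t.2 →
      a ∈ MY.A (D.ix t.1).1.out ∧ b ∈ MY.B (D.ix t.1).1.out ∧ (D.rp t.1)⁻¹ * D.rp t.2 = a * b := by
    intro t
    by_cases h : D.pr t.1 = D.pr t.2
    · obtain ⟨_, a, ha, b, hb, e⟩ := D.pr_eq h
      exact ⟨a, b, fun _ => ⟨ha, hb, e⟩⟩
    · exact ⟨1, 1, fun h' => absurd h' h⟩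
  choose α β hab using exab
  have fgc : ∀ a : G, (Subgroup.closure ({a} : Set G)).FG := by
    intro a
    exact (Subgroup.fg_iff _).2 ⟨{a}, rfl, Set.finite_singleton a⟩
  have exA : ∀ q : MarkAux.Orb G Y, ∃ Q : Subgroup G, Q ≤ MY.A q.out ∧ Q.FG ∧
      ∀ t ∈ T.filter (fun t => (D.ix t.1).1 = q ∧ D.pr t.1 = D.pr t.2),
        Subgroup.closure ({α t} : Set G) ≤ Q := by
    intro q
    apply MarkAux.exists_fg_sup
    intro t ht
    obtain ⟨_, hq, hp⟩ := Finset.mem_filter.1 ht
    refine ⟨?_, fgc _⟩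
    rw [Subgroup.closure_le, Set.singleton_subset_iff, ← hq]
    exact (hab t hp).1
  have exB : ∀ q : MarkAux.Orb G Y, ∃ Q : Subgroup G, Q ≤ MY.B q.out ∧ Q.FG ∧
      ∀ t ∈ T.filter (fun t => (D.ix t.1).1 = q ∧ D.pr t.1 = D.pr t.2),
        Subgroup.closure ({β t} : Set G) ≤ Q := by
    intro q
    apply MarkAux.exists_fg_sup
    intro t ht
    obtain ⟨_, hq, hp⟩ := Finset.mem_filter.1 ht
    refine ⟨?_, fgc _⟩
    rw [Subgroup.closure_le, Set.singleton_subset_iff, ← hq]
    exact (hab t hp).2.1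
  choose A A_le A_fg hTA using exA
  choose B B_le B_fg hTB using exB
  let D' : MarkAux.AD MY I := ⟨fun q => D.A q ⊔ A q, fun q => D.B q ⊔ B q,
    fun q => sup_le (D.A_le q) (A_le q), fun q => sup_le (D.B_le q) (B_le q),
    fun q => (D.A_fg q).sup (A_fg q), fun q => (D.B_fg q).sup (B_fg q)⟩
  have hAA : ∀ q, D.A q ≤ D'.A q := fun q => le_sup_left
  have hBB : ∀ q, D.B q ≤ D'.B q := fun q => le_sup_left
  have hH : ∀ q, D.H q ≤ D'.H q := by
    rintro q _ ⟨a, ha, b, hb, rfl⟩
    exact ⟨a, hAA q ha, b, hBB q hb, rfl⟩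
  have hglue : ∀ t ∈ T, D.pr t.1 = D.pr t.2 → D.down D' t.1 = D.down D' t.2 := by
    intro t ht hp
    obtain ⟨hi, _⟩ := D.pr_eq hp
    obtain ⟨_, _, e⟩ := hab t hp
    have ht2 : t ∈ T.filter (fun t' => (D.ix t'.1).1 = (D.ix t.1).1 ∧ D.pr t'.1 = D.pr t'.2) :=
      Finset.mem_filter.2 ⟨ht, rfl, hp⟩
    unfold MarkAux.AD.down
    rw [← hi, D'.pt_eq_pt, D'.mem_H]
    refine ⟨α t, ?_, β t, ?_, e⟩
    · have h4 : A (D.ix t.1).1 ≤ D'.A (D.ix t.1).1 := le_sup_right
      exact h4 (hTA _ t ht2 (Subgroup.subset_closure (Set.mem_singleton _)))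
    · have h4 : B (D.ix t.1).1 ≤ D'.B (D.ix t.1).1 := le_sup_right
      exact h4 (hTB _ t ht2 (Subgroup.subset_closure (Set.mem_singleton _)))
  refine ⟨D'.appr, (Finsupp.lmapDomain ℤ ℤ (D.down D')).comp f₀, ?_, ?_, ?_, ?_⟩
  · intro g z
    change Finsupp.mapDomain (D.down D') (f₀ (sm g z)) =
      sm g (Finsupp.mapDomain (D.down D') (f₀ z))
    rw [h1, sm_def, sm_def, ← Finsupp.mapDomain_comp, ← Finsupp.mapDomain_comp]
    congr 1
    funext y'
    exact D.down_smul D' hH g y'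
  · intro z
    change Finsupp.mapDomain D'.pr (Finsupp.mapDomain (D.down D') (f₀ z)) = f z
    rw [← Finsupp.mapDomain_comp, ← h2 z]
    congr 1
    funext y'
    exact D.pr_down D' y'
  · intro x y' hy'
    change Finsupp.mapDomain (D.down D') (f₀ (Finsupp.single x 1)) y' ≠ 0 at hy'
    have h4 := Finsupp.mapDomain_support (Finsupp.mem_support_iff.2 hy')
    obtain ⟨y, hy, rfl⟩ := Finset.mem_image.1 h4
    obtain ⟨h5, h6, h7⟩ := h3 x y (Finsupp.mem_support_iff.1 hy)
    refine ⟨?_, ?_, ?_⟩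
    · change f (Finsupp.single x 1) (D'.pr (D.down D' y)) ≠ 0
      rw [D.pr_down]
      exact h5
    · intro h hh
      change h ∈ D'.mA (D.down D' y)
      have h8 := h6 hh
      rw [← D.pt_rp y, D.mem_mA] at h8
      unfold MarkAux.AD.down
      rw [D'.mem_mA]
      exact hAA _ h8
    · intro h hh
      change h ∈ D'.mB (D.down D' y)
      have h8 := h7 hh
      rw [← D.pt_rp y, D.mem_mB] at h8
      unfold MarkAux.AD.down
      rw [D'.mem_mB]
      exact hBB _ h8
  · intro z hz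
    change Finsupp.mapDomain (D.down D') (f₀ z) = 0
    have h4 : Finsupp.mapDomain D'.pr (Finsupp.mapDomain (D.down D') (f₀ z)) = 0 := by
      rw [← Finsupp.mapDomain_comp]
      have : D'.pr ∘ D.down D' = D.pr := by
        funext y'
        exact D.pr_down D' y'
      rw [this, h2, hZ z hz]
    have hinj : Set.InjOn D'.pr (D.down D' '' ((f₀ z).support : Set D.X)) := by
      rintro _ ⟨y, hy, rfl⟩ _ ⟨y', hy', rfl⟩ he
      rw [D.pr_down, D.pr_down] at he
      refine hglue (y, y') ?_ he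
      exact Finset.mem_biUnion.2 ⟨z, hz, Finset.mk_mem_product (Finset.mem_coe.1 hy)
        (Finset.mem_coe.1 hy')⟩
    have h5 := Finsupp.mapDomain_injOn (M := ℤ) _ hinj
    refine h5 (x₁ := Finsupp.mapDomain (D.down D') (f₀ z)) (x₂ := 0) ?_ ?_ ?_
    · intro y hy
      have h6 := Finsupp.mapDomain_support (Finset.mem_coe.1 hy)
      obtain ⟨y', hy', rfl⟩ := Finset.mem_image.1 h6
      exact ⟨y', Finset.mem_coe.2 hy', rfl⟩
    · intro y hy
      simp at hy
    · rw [h4, Finsupp.mapDomain_zero]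

/-- The disjoint union of marked `G`-sets. -/
def Mark.sum {G : Type w} [Group G] {X : Type u₁} {X' : Type u₂} [MulAction G X] [MulAction G X']
    (M : Mark G X) (M' : Mark G X') : Mark G (X ⊕ X') where
  A := Sum.elim M.A M'.A
  B := Sum.elim M.B M'.B
  A_smul g x h := by
    rcases x with x | x
    · exact M.A_smul g x h
    · exact M'.A_smul g x h
  B_smul g x h := by
    rcases x with x | x
    · exact M.B_smul g x h
    · exact M'.B_smul g x h
  comm x a b := by
    rcases x with x | x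
    · exact M.comm x a b
    · exact M'.comm x a b
  stab x g := by
    rcases x with x | x
    · rw [Sum.smul_inl, Sum.inl.injEq]
      exact M.stab x g
    · rw [Sum.smul_inr, Sum.inr.injEq]
      exact M'.stab x g

section

variable {G : Type w} {V : Type u₁} {E : Type u₂} {F : Type u₃} [Group G] [PartialOrder V]
    [MulAction G V] [MulAction G E] [MulAction G F]

/-- The marking of the vertices. -/
def VD.mark (S : VD G V) : Mark G V where
  A := S.L
  B := S.R
  A_smul := S.L_smul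
  B_smul := S.R_smul
  comm := S.comm
  stab := S.stabV

/-- The marking of the edges. -/
def GDC.markE (T : GDC G V E F) : Mark G E where
  A e := T.L (T.i e)
  B e := T.R (T.t e)
  A_smul g e h := by rw [T.i_smul]; exact T.L_smul g _ h
  B_smul g e h := by rw [T.t_smul]; exact T.R_smul g _ h
  comm e a b ha hb := T.comm (T.t e) a b (T.L_mono _ _ (le_of_lt (T.it e)) ha) hb
  stab := T.stabE

/-- The marking of the 2-cells. -/
def GDC.markF (T : GDC G V E F) : Mark G F where
  A s := T.L (T.a s)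
  B s := T.R (T.b s)
  A_smul g e h := by rw [T.a_smul]; exact T.L_smul g _ h
  B_smul g e h := by rw [T.b_smul]; exact T.R_smul g _ h
  comm e a b ha hb := T.comm (T.b e) a b (T.L_mono _ _ (le_of_lt (T.ab e)) ha) hb
  stab := T.stabF

end

end Pool.Agent.DG
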