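import Pool.Agent.MP_cff99f_al.Gen.KThm
import Pool.Agent.MP_cff99f_al.Gen.Mark

/-!
Block SEndo: the multiplicative chain endomorphism killing the homology in degrees `≥ 1`.
-/

namespace Pool.Agent.DG

universe u v w z

variable {α : Type u} {ι : Type v} {P : Pres α ι} {V E : Type w} [PartialOrder V]
  {G : Type z} [Group G] [MulAction G V] [MulAction G E]

namespace SEndo

section

variable (D : Dcx P V E) {f : D.Cell2 → (List D.X →₀ ℤ)}

omit [PartialOrder V] in
theorem Ck_induction {k : ℕ} {p q : V} {motive : (List D.X →₀ ℤ) → Prop} (h0 : motive 0)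
    (hadd : ∀ x y, motive x → motive y → motive (x + y))
    (hsingle : ∀ l n, D.CPath p l q → D.deg l = k → motive (Finsupp.single l n))
    {x : List D.X →₀ ℤ} (hx : x ∈ D.Ck k p q) : motive x := by
  have h : x = ∑ l ∈ x.support, Finsupp.single l (x l) := (Finsupp.sum_single x).symm
  rw [h]
  refine Finset.sum_induction _ motive hadd h0 ?_
  intro l hl
  have := hx hl
  exact hsingle l _ this.1 this.2

/-- the multiplicative map on words -/
noncomputable def SW (f : D.Cell2 → (List D.X →₀ ℤ)) : List D.X → (List D.X →₀ ℤ)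
  | [] => Finsupp.single [] 1
  | Sum.inl e :: l => cat (Finsupp.single [Sum.inl e] 1) (SW f l)
  | Sum.inr s :: l => cat (Finsupp.single [Sum.inr s] 1 + f s) (SW f l)

/-- the multiplicative map -/
noncomputable def SS (f : D.Cell2 → (List D.X →₀ ℤ)) : (List D.X →₀ ℤ) →ₗ[ℤ] (List D.X →₀ ℤ) :=
  Finsupp.linearCombination ℤ (SW D f)

omit [PartialOrder V] in
theorem SS_single (l : List D.X) (n : ℤ) : SS D f (Finsupp.single l n) = n • SW D f l :=
  Finsupp.linearCombination_single ℤ _ _

omit [PartialOrder V] in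
theorem SW_append (l l' : List D.X) : SW D f (l ++ l') = cat (SW D f l) (SW D f l') := by
  induction l with
  | nil => rw [List.nil_append, SW, nil_cat]
  | cons x l ih =>
    rcases x with e | s
    · rw [List.cons_append, SW, SW, ih, cat_assoc]
    · rw [List.cons_append, SW, SW, ih, cat_assoc]

omit [PartialOrder V] in
theorem SS_cat (x y : List D.X →₀ ℤ) : SS D f (cat x y) = cat (SS D f x) (SS D f y) := by
  induction x using Finsupp.induction_linear with
  | zero => simp
  | add x x' hx hx' => rw [map_add, LinearMap.add_apply, map_add, hx, hx', map_add, map_add,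
      LinearMap.add_apply]
  | single l m =>
    induction y using Finsupp.induction_linear with
    | zero => simp
    | add y y' hy hy' => rw [map_add, map_add, hy, hy', map_add, map_add]
    | single l' n =>
      rw [cat_single, SS_single, SS_single, SS_single, SW_append]
      simp only [map_smul, LinearMap.smul_apply, smul_smul]
      rw [mul_comm]

omit [PartialOrder V] in
theorem SW_edges (l : List E) : SW D f (D.edges l) = Finsupp.single (D.edges l) 1 := by
  induction l with
  | nil => rfl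
  | cons e l ih =>
    change cat (Finsupp.single [Sum.inl e] 1) (SW D f (D.edges l)) = _
    rw [ih, cat_single, one_mul]
    rfl

omit [PartialOrder V] in
theorem SS_edges (l : List E) (n : ℤ) :
    SS D f (Finsupp.single (D.edges l) n) = Finsupp.single (D.edges l) n := by
  rw [SS_single, SW_edges, Finsupp.smul_single, smul_eq_mul, mul_one]

omit [PartialOrder V] in
theorem SW_cell (s : D.Cell2) : SW D f [Sum.inr s] = Finsupp.single [Sum.inr s] 1 + f s := by
  rw [SW, SW, cat_nil]

omit [PartialOrder V] in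
theorem cell_mem (hf : ∀ s : D.Cell2, f s ∈ D.Ck 1 s.a s.b) (s : D.Cell2) :
    Finsupp.single [Sum.inr s] 1 + f s ∈ D.Ck 1 s.a s.b := by
  refine add_mem ?_ (hf s)
  exact D.single_mem (l := [Sum.inr s]) ⟨rfl, rfl⟩ 1

omit [PartialOrder V] in
theorem SW_mem (hf : ∀ s : D.Cell2, f s ∈ D.Ck 1 s.a s.b) {p q : V} {l : List D.X}
    (h : D.CPath p l q) : SW D f l ∈ D.Ck (D.deg l) p q := by
  induction l generalizing p with
  | nil => exact D.single_mem (l := []) h 1
  | cons x l ih =>
    obtain ⟨h1, h2⟩ := h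
    rcases x with e | s
    · have h3 : Finsupp.single [Sum.inl e] (1 : ℤ) ∈ D.Ck 0 p (D.xt (Sum.inl e)) :=
        D.single_mem (l := [Sum.inl e]) ⟨h1, rfl⟩ 1
      have h4 := D.cat_mem h3 (ih h2)
      rw [zero_add] at h4
      exact h4
    · have h3 := cell_mem D hf s
      change s.a = p at h1
      rw [h1] at h3
      have h4 := D.cat_mem h3 (ih h2)
      rw [add_comm 1] at h4
      exact h4

omit [PartialOrder V] in
theorem SS_mem (hf : ∀ s : D.Cell2, f s ∈ D.Ck 1 s.a s.b) {k : ℕ} {p q : V}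
    {x : List D.X →₀ ℤ} (hx : x ∈ D.Ck k p q) : SS D f x ∈ D.Ck k p q := by
  refine Ck_induction D (motive := fun x => SS D f x ∈ D.Ck k p q) ?_ ?_ ?_ hx
  · rw [map_zero]; exact zero_mem _
  · intro x y hx hy
    rw [map_add]
    exact add_mem hx hy
  · intro l n h1 h2
    rw [SS_single]
    refine Submodule.smul_mem _ _ ?_
    rw [← h2]
    exact SW_mem D hf h1

omit [PartialOrder V] in
theorem bd_single (l : List D.X) : D.bd (Finsupp.single l 1) = D.bdW l := by
  unfold Dcx.bd
  rw [Finsupp.linearCombination_single, one_smul]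

omit [PartialOrder V] in
theorem bd_SW (hf : ∀ s : D.Cell2, f s ∈ D.Ck 1 s.a s.b) (hb : ∀ s, D.bd (f s) = 0)
    (l : List D.X) : D.bd (SW D f l) = SS D f (D.bdW l) := by
  induction l with
  | nil =>
    rw [SW, bd_single]
    simp [Dcx.bdW]
  | cons x l ih =>
    rcases x with e | s
    · rw [SW, D.bd_cat, ih]
      have h1 : D.bd (Finsupp.single [Sum.inl e] 1) = 0 := D.bd_edges [e] 1
      have h2 : D.sg (Finsupp.single [Sum.inl e] 1) = Finsupp.single [Sum.inl e] 1 := by
        unfold Dcx.sg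
        rw [Finsupp.linearCombination_single, one_smul]
        rfl
      have h3 : SS D f (Finsupp.single [Sum.inl e] 1) = Finsupp.single [Sum.inl e] 1 :=
        SS_edges D [e] 1
      rw [h1, h2, Dcx.bdW, SS_cat, h3, map_zero, LinearMap.zero_apply, zero_add]
    · rw [SW, D.bd_cat, ih, D.sg_of_mem (cell_mem D hf s), map_add, hb, add_zero, D.bd_cell,
        Dcx.bdW]
      simp only [map_sub, SS_cat, SS_single, SW_append, SW_edges, SW_cell, pow_one, neg_smul,
        one_smul, map_neg, LinearMap.sub_apply, LinearMap.neg_apply]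
      abel

omit [PartialOrder V] in
theorem bd_SS (hf : ∀ s : D.Cell2, f s ∈ D.Ck 1 s.a s.b) (hb : ∀ s, D.bd (f s) = 0)
    (x : List D.X →₀ ℤ) : D.bd (SS D f x) = SS D f (D.bd x) := by
  induction x using Finsupp.induction_linear with
  | zero => simp
  | add x x' hx hx' => rw [map_add, map_add, hx, hx', map_add, map_add]
  | single l n =>
    have h : Finsupp.single l n = n • Finsupp.single l (1 : ℤ) := by simp
    rw [h, map_smul, map_smul, map_smul, map_smul, bd_single, SS_single, one_smul,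
      bd_SW D hf hb]

omit [PartialOrder V] in
theorem lin_single (l : List D.X) : D.lin (Finsupp.single l 1) = D.linW l := by
  unfold Dcx.lin
  rw [Finsupp.linearCombination_single, one_smul]

omit [PartialOrder V] in
theorem linW_edges (l : List E) : D.linW (D.edges l) = 0 := by
  induction l with
  | nil => rfl
  | cons e l ih => exact ih

omit [PartialOrder V] in
theorem lin_SW (s' : (D.Cell2 →₀ ℤ) →ₗ[ℤ] (D.Cell2 →₀ ℤ))
    (hl : ∀ s, D.lin (f s) = s' (Finsupp.single s 1) - Finsupp.single s 1)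
    (l : List D.X) (h : D.deg l = 1) : D.lin (SW D f l) = s' (D.linW l) := by
  induction l with
  | nil => exact absurd h (by simp [Dcx.deg])
  | cons x l ih =>
    rcases x with e | s
    · have h1 := D.lin_cat_edges [e] [] (SW D f l)
      change D.lin (cat (Finsupp.single [Sum.inl e] 1) (cat (SW D f l) (Finsupp.single [] 1))) = _
        at h1
      rw [cat_nil] at h1
      rw [SW, h1]
      exact ih h
    · have h0 : D.deg l = 0 := by
        have : D.deg l + 1 = 1 := h
        omega
      obtain ⟨l', rfl⟩ := D.exists_edges h0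
      have h1 := D.lin_cat_edges [] l' (Finsupp.single [Sum.inr s] 1 + f s)
      change D.lin (cat (Finsupp.single [] 1) (cat _ _)) = _ at h1
      rw [nil_cat] at h1
      rw [SW, SW_edges, h1, map_add, hl, lin_single]
      simp only [Dcx.linW, linW_edges, add_zero]
      abel

omit [PartialOrder V] in
theorem lin_SS (s' : (D.Cell2 →₀ ℤ) →ₗ[ℤ] (D.Cell2 →₀ ℤ))
    (hl : ∀ s, D.lin (f s) = s' (Finsupp.single s 1) - Finsupp.single s 1)
    {p q : V} {x : List D.X →₀ ℤ} (hx : x ∈ D.Ck 1 p q) :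
    D.lin (SS D f x) = s' (D.lin x) := by
  refine Ck_induction D (motive := fun x => D.lin (SS D f x) = s' (D.lin x)) ?_ ?_ ?_ hx
  · simp
  · intro x y hx hy
    rw [map_add, map_add, hx, hy, map_add, map_add]
  · intro l n h1 h2
    have h : Finsupp.single l n = n • Finsupp.single l (1 : ℤ) := by simp
    rw [h, map_smul, map_smul, map_smul, map_smul, lin_single, SS_single, one_smul,
      lin_SW D s' hl l h2]

theorem SS_kills (hD : D.Ordered) (s' : (D.Cell2 →₀ ℤ) →ₗ[ℤ] (D.Cell2 →₀ ℤ))
    (hs_cyc : ∀ z, bd2 D.dF z = 0 → s' z = 0)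
    (hf : ∀ s : D.Cell2, f s ∈ D.Ck 1 s.a s.b) (hb : ∀ s, D.bd (f s) = 0)
    (hl : ∀ s, D.lin (f s) = s' (Finsupp.single s 1) - Finsupp.single s 1)
    (k : ℕ) (p q : V) (x : List D.X →₀ ℤ) (hx : x ∈ D.Ck (k + 1) p q) (hbx : D.bd x = 0) :
    ∃ y ∈ D.Ck (k + 2) p q, D.bd y = SS D f x := by
  obtain ⟨y0, hy0, hcl⟩ := D.exists_products hD hx hbx
  have key : ∀ c ∈ AddSubgroup.closure {c | ∃ (r : V) (a κ : List D.X →₀ ℤ), a ∈ D.Ck k p r ∧
        D.bd a = 0 ∧ κ ∈ D.Ck 1 r q ∧ D.bd κ = 0 ∧ c = cat a κ},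
      ∃ y ∈ D.Ck (k + 2) p q, D.bd y = SS D f c := by
    intro c hc
    induction hc using AddSubgroup.closure_induction with
    | mem c hc =>
      obtain ⟨r, a, κ, ha, hba, hκ, hbκ, rfl⟩ := hc
      have h1 : D.bd (SS D f κ) = 0 := by rw [bd_SS D hf hb, hbκ, map_zero]
      have h2 : D.lin (SS D f κ) = 0 := by
        rw [lin_SS D s' hl hκ]
        apply hs_cyc
        rw [D.bd2_lin hκ, hbκ, map_zero]
      obtain ⟨y1, hy1, hby1⟩ := D.exists_bd_of_lin hD (SS_mem D hf hκ) h1 h2
      refine ⟨(-1 : ℤ) ^ k • cat (SS D f a) y1, Submodule.smul_mem _ _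
        (D.cat_mem (SS_mem D hf ha) hy1), ?_⟩
      rw [map_smul, D.bd_cat, hby1, bd_SS D hf hb, hba, map_zero, map_zero,
        LinearMap.zero_apply, zero_add, D.sg_of_mem (SS_mem D hf ha), map_smul,
        LinearMap.smul_apply, smul_smul, ← mul_pow, SS_cat]
      simp
    | zero => exact ⟨0, zero_mem _, by simp⟩
    | add c c' _ _ ih ih' =>
      obtain ⟨y, hy, hby⟩ := ih
      obtain ⟨y', hy', hby'⟩ := ih'
      exact ⟨y + y', add_mem hy hy', by rw [map_add, map_add, hby, hby']⟩
    | neg c _ ih =>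
      obtain ⟨y, hy, hby⟩ := ih
      exact ⟨-y, neg_mem hy, by rw [map_neg, map_neg, hby]⟩
  obtain ⟨y1, hy1, hby1⟩ := key _ hcl
  refine ⟨SS D f y0 + y1, add_mem (SS_mem D hf hy0) hy1, ?_⟩
  rw [map_add, hby1, bd_SS D hf hb, map_sub]
  abel

end

section

variable (D : Dcx P V E) [GAct G D] {f : D.Cell2 → (List D.X →₀ ℤ)}

omit [PartialOrder V] in
theorem gC_single (g : G) (l : List D.X) (n : ℤ) :
    D.gC g (Finsupp.single l n) = Finsupp.single (D.gW g l) n := by
  unfold Dcx.gC
  rw [Finsupp.lmapDomain_apply, Finsupp.mapDomain_single]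

omit [PartialOrder V] in
theorem SW_gW (hfG : ∀ (g : G) (s : D.Cell2), f (g • s) = D.gC g (f s)) (g : G) (l : List D.X) :
    SW D f (D.gW g l) = D.gC g (SW D f l) := by
  induction l with
  | nil =>
    change Finsupp.single [] 1 = D.gC g (Finsupp.single [] 1)
    rw [gC_single]
    rfl
  | cons x l ih =>
    rcases x with e | s
    · change cat (Finsupp.single [Sum.inl (g • e)] 1) (SW D f (D.gW g l)) = _
      rw [ih, SW, D.gC_cat, gC_single]
      rfl
    · change cat (Finsupp.single [Sum.inr (g • s)] 1 + f (g • s)) (SW D f (D.gW g l)) = _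
      rw [ih, hfG, SW, D.gC_cat, map_add (D.gC g), gC_single]
      rfl

omit [PartialOrder V] in
theorem SS_gC (hfG : ∀ (g : G) (s : D.Cell2), f (g • s) = D.gC g (f s)) (g : G)
    (x : List D.X →₀ ℤ) : SS D f (D.gC g x) = D.gC g (SS D f x) := by
  induction x using Finsupp.induction_linear with
  | zero => simp
  | add x x' hx hx' => rw [map_add, map_add, hx, hx', map_add, map_add]
  | single l n => rw [gC_single, SS_single, SS_single, map_smul, SW_gW D hfG]

omit [PartialOrder V] in
theorem gC_fix {g : G} {p q : V} {k : ℕ} (hfix : ∀ x : List D.X, D.CPath p x q → D.gW g x = x)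
    {x : List D.X →₀ ℤ} (hx : x ∈ D.Ck k p q) : D.gC g x = x := by
  refine Ck_induction D (motive := fun x => D.gC g x = x) ?_ ?_ ?_ hx
  · simp
  · intro x y hx hy
    rw [map_add, hx, hy]
  · intro l n h1 h2
    rw [gC_single, hfix l h1]

end

end SEndo

namespace Dcx

/-- `s'` is a local equivariant endomorphism of the chains of 2-cells, compatible with the boundary,
killing 2-cycles. For every 2-cell `s` choose equivariantly (`exists_equivariant_choice`, the
stabiliser of `s` acts trivially by `hstab`) a 1-cycle `κ s` from `a s` to `b s` with linearisation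
`s' s - s` (`exists_cycle`). Let `S` be the multiplicative map (`S (x y) = S x S y`) with `S e = e` and
`S s = s + κ s`. It commutes with the boundary. `lin (S x) = s' (lin x)` in degree 1. A cycle `z` in
degree `≥ 1` is homologous to a sum of products `a κ` of cycles (`exists_products`); `S κ` is a
1-cycle with linearisation `s' (lin κ) = 0` because `lin κ` is a 2-cycle, so it is a boundary
(`exists_bd_of_lin`), and so is `S a · S κ`. -/
theorem exists_S (D : Dcx P V E) [GAct G D] (hD : D.Ordered)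
    (hstab : ∀ (s : D.Cell2) (g : G), g • s = s → ∀ x : List D.X, D.CPath s.a x s.b →
      D.gW g x = x)
    (s' : (D.Cell2 →₀ ℤ) →ₗ[ℤ] (D.Cell2 →₀ ℤ)) (hs_sm : ∀ (g : G) z, s' (sm g z) = sm g (s' z))
    (hs_mem : ∀ s : D.Cell2, s' (Finsupp.single s 1) ∈
      Finsupp.supported ℤ ℤ {c : D.Cell2 | s.a ≤ c.a ∧ c.b ≤ s.b})
    (hs_bd : ∀ z, bd2 D.dF (s' z) = bd2 D.dF z) (hs_cyc : ∀ z, bd2 D.dF z = 0 → s' z = 0) :
    ∃ S : (List D.X →₀ ℤ) →ₗ[ℤ] (List D.X →₀ ℤ),
      (∀ (g : G) x, S (D.gC g x) = D.gC g (S x)) ∧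
      (∀ l n, S (Finsupp.single (D.edges l) n) = Finsupp.single (D.edges l) n) ∧
      (∀ x, D.bd (S x) = S (D.bd x)) ∧
      (∀ k p q x, x ∈ D.Ck k p q → S x ∈ D.Ck k p q) ∧
      (∀ k p q x, x ∈ D.Ck (k + 1) p q → D.bd x = 0 → ∃ y ∈ D.Ck (k + 2) p q, D.bd y = S x) := by
  obtain ⟨f, hf, hfG⟩ := exists_equivariant_choice (G := G) (X := D.Cell2)
    (M := List D.X →₀ ℤ) (fun g m => D.gC g m) (fun m => D.gC_one m)
    (fun g h m => D.gC_mul g h m)
    (fun s => {z | z ∈ D.Ck 1 s.a s.b ∧ D.bd z = 0 ∧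
      D.lin z = s' (Finsupp.single s 1) - Finsupp.single s 1})
    (by
      intro s
      have h1 : s' (Finsupp.single s 1) - Finsupp.single s 1 ∈
          Finsupp.supported ℤ ℤ {c : D.Cell2 | s.a ≤ c.a ∧ c.b ≤ s.b} := by
        refine sub_mem (hs_mem s) ?_
        exact Finsupp.single_mem_supported ℤ 1 ⟨le_rfl, le_rfl⟩
      have h2 : bd2 D.dF (s' (Finsupp.single s 1) - Finsupp.single s 1) = 0 := by
        rw [map_sub, hs_bd, sub_self]
      obtain ⟨z, hz, hbz, hlz⟩ := D.exists_cycle hD h1 h2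
      exact ⟨z, hz, hbz, hlz⟩)
    (by
      rintro g s m ⟨h1, h2, h3⟩
      refine ⟨D.gC_mem g h1, ?_, ?_⟩
      · rw [← D.gC_bd, h2, map_zero]
      · rw [D.lin_gC, h3, map_sub, sm_single, ← hs_sm, sm_single])
    (by
      rintro g s m ⟨h1, h2, h3⟩ hg
      exact SEndo.gC_fix D (hstab s g hg) h1)
  have hf1 := fun s => (hf s).1
  have hf2 := fun s => (hf s).2.1
  have hf3 := fun s => (hf s).2.2
  exact ⟨SEndo.SS D f, SEndo.SS_gC D hfG, SEndo.SS_edges D, SEndo.bd_SS D hf1 hf2,
    fun k p q x hx => SEndo.SS_mem D hf1 hx, SEndo.SS_kills D hD s' hs_cyc hf1 hf2 hf3⟩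

end Dcx

end Pool.Agent.DG
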