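import Pool.Agent.MP_cff99f_al.Gen.KThm
import Pool.Agent.MP_cff99f_al.Gen.Basic

/-!
Block ToGDC: the directed complex with group action given by a labelled directed 2-complex.
-/

namespace Pool.Agent.DG

universe u v w z

variable {α : Type u} {ι : Type v} {P : Pres α ι} {V E : Type w} [PartialOrder V]
  {G : Type z} [Group G] [MulAction G V] [MulAction G E]

namespace Dcx

variable (D : Dcx P V E)

theorem toGDC_path_mem (hD : D.Ordered) {p q : V} {l : List E} (h : D.Path p l q) {e : E}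
    (he : e ∈ l) : p ≤ D.i e ∧ D.t e ≤ q := by
  induction l generalizing p with
  | nil => simp at he
  | cons f l ih =>
    obtain ⟨h1, h2⟩ := h
    rcases List.mem_cons.1 he with h3 | h3
    · subst h3
      exact ⟨h1.ge, (hD.le_iff _ _).2 ⟨l, h2⟩⟩
    · obtain ⟨h4, h5⟩ := ih h2 h3
      refine ⟨?_, h5⟩
      rw [← h1]
      exact (hD.lt f).le.trans h4

theorem toGDC_top_ne (s : D.Cell2) : s.top ≠ [] := by
  intro h
  have h1 := s.lab
  rw [h] at h1
  exact P.lhs_ne s.j h1.symm

theorem a_lt_b (hD : D.Ordered) (s : D.Cell2) : s.a < s.b := by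
  obtain ⟨e, l, hl⟩ := List.exists_cons_of_ne_nil (D.toGDC_top_ne s)
  obtain ⟨h1, h2⟩ := D.toGDC_path_mem hD s.path (e := e) (by rw [hl]; simp)
  exact (h1.trans_lt (hD.lt e)).trans_le h2

theorem toGDC_sumE (l : List E) (e : E) (h : sumE l e ≠ 0) : e ∈ l := by
  induction l with
  | nil => exact absurd (by simp [sumE]) h
  | cons f l ih =>
    by_contra h1
    rw [List.mem_cons, not_or] at h1
    apply h
    have h2 : sumE (f :: l) = Finsupp.single f 1 + sumE l := by simp [sumE]
    rw [h2, Finsupp.add_apply, Finsupp.single_eq_of_ne h1.1, zero_add]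
    by_contra h3
    exact h1.2 (ih h3)

theorem dF_supp (hD : D.Ordered) (s : D.Cell2) (e : E) (h : D.dF s e ≠ 0) :
    s.a ≤ D.i e ∧ D.t e ≤ s.b := by
  by_cases h1 : e ∈ s.top
  · exact D.toGDC_path_mem hD s.path h1
  · by_cases h2 : e ∈ D.low s
    · exact D.toGDC_path_mem hD (D.low_path s) h2
    · exfalso
      apply h
      have h3 : sumE s.top e = 0 := by
        by_contra h4
        exact h1 (toGDC_sumE _ _ h4)
      have h5 : sumE (D.low s) e = 0 := by
        by_contra h4
        exact h2 (toGDC_sumE _ _ h4)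
      rw [dF, Finsupp.sub_apply, h3, h5, sub_zero]

theorem bd1_dF (s : D.Cell2) : bd1 D.i D.t (D.dF s) = 0 := by
  rw [dF, map_sub, D.bd1_sumE s.path, D.bd1_sumE (D.low_path s), sub_self]

/-- An element fixing all edges of a path lies in `L p R q`. -/
theorem toGDC_fix (hD : D.Ordered) (S : VD G V)
    (hE : ∀ (e : E) (g : G), g • e = e ↔ ∃ x ∈ S.L (D.i e), ∃ y ∈ S.R (D.t e), g = x * y)
    (g : G) (l : List E) : ∀ (p q : V), l ≠ [] → D.Path p l q → (∀ e ∈ l, g • e = e) →
      ∃ x ∈ S.L p, ∃ y ∈ S.R q, g = x * y := by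
  induction l with
  | nil => intro p q h; exact absurd rfl h
  | cons e l ih =>
    intro p q _ hp hg
    obtain ⟨h1, h2⟩ := hp
    have h3 := (hE e g).1 (hg e (by simp))
    rw [h1] at h3
    by_cases hl : l = []
    · subst hl
      have h4 : D.t e = q := h2
      rw [h4] at h3
      exact h3
    · have h5 := ih (D.t e) q hl h2 (fun f hf => hg f (by simp [hf]))
      have h6 : p ≤ D.t e := by
        rw [← h1]
        exact (hD.lt e).le
      exact S.mem_inter h6 ((hD.le_iff _ _).2 ⟨l, h2⟩) h3 h5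

/-- The stabiliser of a 2-cell is the stabiliser of its upper path; use `VD.mem_inter` along the
path. -/
theorem stab_cell [GAct G D] (hD : D.Ordered) (S : VD G V)
    (hE : ∀ (e : E) (g : G), g • e = e ↔ ∃ x ∈ S.L (D.i e), ∃ y ∈ S.R (D.t e), g = x * y)
    (s : D.Cell2) (g : G) : g • s = s ↔ ∃ x ∈ S.L s.a, ∃ y ∈ S.R s.b, g = x * y := by
  constructor
  · intro h
    have h1 : s.top.map (g • ·) = s.top := congrArg Cell2.top h
    refine D.toGDC_fix hD S hE g s.top s.a s.b (D.toGDC_top_ne s) s.path ?_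
    intro e he
    have h2 : s.top.map (g • ·) = s.top.map id := by rw [h1, List.map_id]
    exact (List.map_inj_left.1 h2) e he
  · rintro ⟨x, hx, y, hy, rfl⟩
    have hab := (D.a_lt_b hD s).le
    apply Cell2.ext
    · exact (S.stabV s.a (x * y)).2 ⟨x, hx, y, S.R_anti _ _ hab hy, rfl⟩
    · exact (S.stabV s.b (x * y)).2 ⟨x, S.L_mono _ _ hab hx, y, hy, rfl⟩
    · rfl
    · change s.top.map ((x * y) • ·) = s.top
      conv_rhs => rw [← List.map_id s.top]
      apply List.map_congr_left
      intro e he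
      obtain ⟨h1, h2⟩ := D.toGDC_path_mem hD s.path he
      exact (hE e (x * y)).2 ⟨x, S.L_mono _ _ h1 hx, y, S.R_anti _ _ h2 hy, rfl⟩

/-- The directed complex of a labelled directed 2-complex. -/
noncomputable def toGDC [GAct G D] (hD : D.Ordered) (S : VD G V)
    (hE : ∀ (e : E) (g : G), g • e = e ↔ ∃ x ∈ S.L (D.i e), ∃ y ∈ S.R (D.t e), g = x * y) :
    GDC G V E D.Cell2 where
  toVD := S
  i := D.i
  t := D.t
  a := Cell2.a
  b := Cell2.b
  d := D.dF
  i_smul := GAct.i_smul
  t_smul := GAct.t_smul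
  a_smul _ _ := rfl
  b_smul _ _ := rfl
  d_smul g s := D.dF_smul g s
  it := hD.lt
  ab := D.a_lt_b hD
  d_supp := D.dF_supp hD
  dd := D.bd1_dF
  stabE := hE
  stabF := D.stab_cell hD S hE
  ex0 := D.ex0 hD
  ex1 := D.ex1 hD

end Dcx

end Pool.Agent.DG
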