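import Pool.Agent.MP_cff99f_al.Gen.CovIso
import Pool.Agent.MP_cff99f_al.Gen.Cone
import Pool.Agent.MP_cff99f_al.Gen.SEndo
import Pool.Agent.MP_cff99f_al.Gen.ToGDC

/-!
Block RB: consequences for a labelled directed 2-complex over a complete presentation.
-/

namespace Pool.Agent.DG

universe u v w z

variable {α : Type u} {ι : Type v} {P : Pres α ι} {V E : Type w} [PartialOrder V]
  {G : Type z} [Group G] [MulAction G V] [MulAction G E]

namespace Dcx

/-- The hypotheses on the labelled directed 2-complex `D` over the complete presentation `P`. -/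
structure Fin2 (G : Type z) [Group G] [MulAction G V] [MulAction G E] (D : Dcx P V E) [GAct G D]
    (S : VD G V) : Prop where
  complete : Complete P
  ord : D.Ordered
  stabE : ∀ (e : E) (g : G), g • e = e ↔ ∃ x ∈ S.L (D.i e), ∃ y ∈ S.R (D.t e), g = x * y
  trans : ∀ l l', D.Path S.bot l S.top → D.Path S.bot l' S.top → l.map D.lab = l'.map D.lab →
    ∃ g : G, l' = l.map (g • ·)
  crit_fin : ∀ k, {q : Cube α ι | IsCrit P q ∧ dim q = k ∧
    ∃ l, D.Path S.bot l S.top ∧ l.map D.lab = P.top q}.Finite
  crit_zero : ∃ l, D.Path S.bot l S.top ∧ Irr P (l.map D.lab)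

/-! ### Auxiliary lemmas -/

section rbaux

variable (D : Dcx P V E)

/-- The upper path of a word. -/
def rbTop : List D.X → List E
  | [] => []
  | Sum.inl e :: l => e :: rbTop l
  | Sum.inr s :: l => s.top ++ rbTop l

omit [PartialOrder V] in
theorem rbTop_path {p q : V} {l : List D.X} (h : D.CPath p l q) : D.Path p (D.rbTop l) q := by
  induction l generalizing p with
  | nil => exact h
  | cons x l ih =>
    obtain ⟨h1, h2⟩ := h
    rcases x with e | s
    · exact ⟨h1, ih h2⟩
    · have h3 := ih h2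
      have h1' : s.a = p := h1
      subst h1'
      exact pathIn_append.2 ⟨s.b, s.path, h3⟩

omit [PartialOrder V] in
theorem rbTop_lab (l : List D.X) : (D.rbTop l).map D.lab = P.top (D.cube l) := by
  induction l with
  | nil => rfl
  | cons x l ih =>
    rcases x with e | s
    · change D.lab e :: (D.rbTop l).map D.lab = D.lab e :: P.top (D.cube l)
      rw [ih]
    · change (s.top ++ D.rbTop l).map D.lab = P.lhs s.j ++ P.top (D.cube l)
      rw [List.map_append, ih, s.lab]

omit [PartialOrder V] in
theorem rb_ext {p q q' : V} {l l' : List D.X} (h : D.CPath p l q) (h' : D.CPath p l' q')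
    (hc : D.cube l = D.cube l') (ht : D.rbTop l = D.rbTop l') : l = l' := by
  induction l generalizing p l' with
  | nil =>
    rcases l' with _ | ⟨x', l'⟩
    · rfl
    · simp [cube] at hc
  | cons x l ih =>
    rcases l' with _ | ⟨x', l'⟩
    · simp [cube] at hc
    · obtain ⟨h1, h2⟩ := h
      obtain ⟨h1', h2'⟩ := h'
      rcases x with e | s
      · rcases x' with e' | s'
        · have ht1 : e :: D.rbTop l = e' :: D.rbTop l' := ht
          rw [List.cons.injEq] at ht1
          obtain ⟨rfl, ht2⟩ := ht1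
          have hc2 : D.cube l = D.cube l' := by
            have := (List.cons.injEq _ _ _ _).mp hc
            exact this.2
          rw [ih h2 h2' hc2 ht2]
        · exfalso
          have := (List.cons.injEq _ _ _ _).mp hc
          simp at this
      · rcases x' with e' | s'
        · exfalso
          have := (List.cons.injEq _ _ _ _).mp hc
          simp at this
        · have hc1 := (List.cons.injEq _ _ _ _).mp hc
          have hj : s.j = s'.j := by
            have := hc1.1
            simpa using this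
          have hc2 : D.cube l = D.cube l' := hc1.2
          have ht1 : s.top ++ D.rbTop l = s'.top ++ D.rbTop l' := ht
          have hlen : s.top.length = s'.top.length := by
            have e1 : s.top.length = (P.lhs s.j).length := by rw [← s.lab, List.length_map]
            have e2 : s'.top.length = (P.lhs s'.j).length := by rw [← s'.lab, List.length_map]
            rw [e1, e2, hj]
          obtain ⟨ht2, ht3⟩ := List.append_inj ht1 hlen
          have ha : s.a = s'.a := by
            have e1 : s.a = p := h1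
            have e2 : s'.a = p := h1'
            rw [e1, e2]
          have hb : s.b = s'.b := by
            have p1 := s.path
            have p2 := s'.path
            rw [← ha, ← ht2] at p2
            exact pathIn_unique p1 p2
          have hs : s = s' := Cell2.ext ha hb hj ht2
          subst hs
          rw [ih h2 h2' hc2 ht3]

omit [PartialOrder V] in
theorem rb_dim_cube (l : List D.X) : dim (D.cube l) = D.deg l := by
  induction l with
  | nil => rfl
  | cons x l ih =>
    rcases x with e | s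
    · change dim (D.cube l) = D.deg l
      exact ih
    · change dim (D.cube l) + 1 = D.deg l + 1
      rw [ih]

omit [PartialOrder V] in
theorem rb_cube_edges (l : List E) : D.cube (D.edges l) = letters (l.map D.lab) := by
  simp [cube, edges, letters]

omit [PartialOrder V] in
theorem rb_cube_gW [GAct G D] (g : G) (l : List D.X) : D.cube (D.gW g l) = D.cube l := by
  induction l with
  | nil => rfl
  | cons x l ih =>
    rcases x with e | s
    · change Sum.inl (D.lab (g • e)) :: D.cube (D.gW g l) = Sum.inl (D.lab e) :: D.cube l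
      rw [ih, GAct.lab_smul]
    · change Sum.inr s.j :: D.cube (D.gW g l) = Sum.inr s.j :: D.cube l
      rw [ih]

omit [PartialOrder V] in
theorem rb_deg_gW [GAct G D] (g : G) (l : List D.X) : D.deg (D.gW g l) = D.deg l := by
  rw [← D.rb_dim_cube, rb_cube_gW, D.rb_dim_cube]

omit [PartialOrder V] in
theorem rbTop_gW [GAct G D] (g : G) (l : List D.X) :
    D.rbTop (D.gW g l) = (D.rbTop l).map (g • ·) := by
  induction l with
  | nil => rfl
  | cons x l ih =>
    rcases x with e | s
    · change g • e :: D.rbTop (D.gW g l) = g • e :: (D.rbTop l).map (g • ·)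
      rw [ih]
    · change s.top.map (g • ·) ++ D.rbTop (D.gW g l) = (s.top ++ D.rbTop l).map (g • ·)
      rw [ih, List.map_append]

/-- The augmentation. -/
noncomputable def rbAug : (List D.X →₀ ℤ) →ₗ[ℤ] ℤ :=
  Finsupp.linearCombination ℤ fun l => if D.deg l = 0 then (1 : ℤ) else 0

omit [PartialOrder V] in
theorem rbAug_cat_inl (e : E) (y : List D.X →₀ ℤ) :
    D.rbAug (cat (Finsupp.single [Sum.inl e] 1) y) = D.rbAug y := by
  induction y using Finsupp.induction_linear with
  | zero => simp
  | add f g hf hg => rw [map_add, map_add, hf, hg, map_add]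
  | single l n =>
    rw [cat_single, rbAug, Finsupp.linearCombination_single, Finsupp.linearCombination_single,
      one_mul]
    rfl

omit [PartialOrder V] in
theorem rbAug_cat_inr (s : D.Cell2) (y : List D.X →₀ ℤ) :
    D.rbAug (cat (Finsupp.single [Sum.inr s] 1) y) = 0 := by
  induction y using Finsupp.induction_linear with
  | zero => simp
  | add f g hf hg => rw [map_add, map_add, hf, hg, add_zero]
  | single l n =>
    rw [cat_single, rbAug, Finsupp.linearCombination_single]
    have : D.deg ([Sum.inr s] ++ l) = D.deg l + 1 := rfl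
    rw [this, if_neg (Nat.succ_ne_zero _), smul_zero]

omit [PartialOrder V] in
theorem rbAug_bdW (l : List D.X) : D.rbAug (D.bdW l) = 0 := by
  induction l with
  | nil => simp [bdW]
  | cons x l ih =>
    rcases x with e | s
    · rw [bdW, rbAug_cat_inl, ih]
    · rw [bdW, map_sub, map_sub, rbAug_cat_inr, sub_zero]
      rw [rbAug, Finsupp.linearCombination_single, Finsupp.linearCombination_single]
      rw [deg_append, deg_append, deg_edges, deg_edges]
      simp

omit [PartialOrder V] in
theorem rbAug_bd (x : List D.X →₀ ℤ) : D.rbAug (D.bd x) = 0 := by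
  induction x using Finsupp.induction_linear with
  | zero => simp
  | add f g hf hg => rw [map_add, map_add, hf, hg, add_zero]
  | single l n =>
    rw [bd, Finsupp.linearCombination_single, map_smul, rbAug_bdW, smul_zero]

/-- The word of a cell. -/
def rbVal (p q : V) (c : D.I p q) : List D.X := c.1

omit [PartialOrder V] in
theorem rbVal_inj (p q : V) : Function.Injective (D.rbVal p q) := Subtype.val_injective

omit [PartialOrder V] in
theorem rb_map_inj {p q : V} {z z' : D.I p q →₀ ℤ}
    (h : z.mapDomain (D.rbVal p q) = z'.mapDomain (D.rbVal p q)) : z = z' :=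
  Finsupp.mapDomain_injective (D.rbVal_inj p q) h

omit [PartialOrder V] in
theorem rb_dI_val (p q : V) (z : D.I p q →₀ ℤ) :
    (D.dI p q z).mapDomain (D.rbVal p q) = D.bd (z.mapDomain (D.rbVal p q)) := D.dI_val p q z

omit [PartialOrder V] in
theorem rb_lift {k : ℕ} {p q : V} {x : List D.X →₀ ℤ} (hx : x ∈ D.Ck k p q) :
    ∃ z : D.I p q →₀ ℤ, z.mapDomain (D.rbVal p q) = x ∧ ∀ c, z c ≠ 0 → D.deg c.1 = k := by
  classical
  have hx' := (Finsupp.mem_supported' ℤ x).1 hx
  let z : D.I p q →₀ ℤ := Finsupp.comapDomain (D.rbVal p q) x (D.rbVal_inj p q).injOn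
  have hz : ∀ c, z c = x c.1 := fun c => rfl
  refine ⟨z, ?_, ?_⟩
  · ext l
    by_cases h : D.CPath p l q
    · have := Finsupp.mapDomain_apply (D.rbVal_inj p q) z ⟨l, h⟩
      exact this
    · rw [Finsupp.mapDomain_of_notMem_range]
      · rw [hx' l (fun h' => h h'.1)]
      · rintro ⟨c, rfl⟩
        exact h c.2
  · intro c hc
    by_contra hne
    exact hc (by rw [hz]; exact hx' _ (fun h' => hne h'.2))

omit [PartialOrder V] in
theorem rb_mem {k : ℕ} {p q : V} {z : D.I p q →₀ ℤ} (hz : ∀ c, z c ≠ 0 → D.deg c.1 = k) :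
    z.mapDomain (D.rbVal p q) ∈ D.Ck k p q := by
  classical
  refine (Finsupp.mem_supported' ℤ _).2 ?_
  intro l hl
  by_cases h : l ∈ Set.range (D.rbVal p q)
  · obtain ⟨c, rfl⟩ := h
    rw [Finsupp.mapDomain_apply (D.rbVal_inj p q)]
    by_contra hne
    exact hl ⟨c.2, hz c hne⟩
  · exact Finsupp.mapDomain_of_notMem_range _ _ h

omit [PartialOrder V] in
theorem rb_dI_deg {p q : V} (c c' : D.I p q) (h : D.dI p q (Finsupp.single c 1) c' ≠ 0) :
    D.deg c'.1 + 1 = D.deg c.1 := by
  classical
  have e1 := D.rb_dI_val p q (Finsupp.single c 1)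
  rw [Finsupp.mapDomain_single] at e1
  have e2 : D.dI p q (Finsupp.single c 1) c' = D.bd (Finsupp.single (D.rbVal p q c) 1) c'.1 := by
    rw [← e1]
    exact (Finsupp.mapDomain_apply (D.rbVal_inj p q) _ c').symm
  rw [e2] at h
  have hm : Finsupp.single (D.rbVal p q c) (1 : ℤ) ∈ D.Ck (D.deg c.1) p q :=
    D.single_mem c.2 1
  rcases hd : D.deg c.1 with _ | k
  · rw [hd] at hm
    rw [D.bd_of_mem_zero hm] at h
    exact absurd rfl h
  · rw [hd] at hm
    have hm2 := (Finsupp.mem_supported' ℤ _).1 (D.bd_mem hm)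
    by_contra hne
    apply h
    apply hm2
    intro h3
    apply hne
    have := h3.2
    omega

omit [PartialOrder V] in
theorem rb_aug_val {p q : V} (z : D.I p q →₀ ℤ) :
    (Finsupp.linearCombination ℤ fun c : D.I p q => if D.deg c.1 = 0 then (1 : ℤ) else 0) z =
      D.rbAug (z.mapDomain (D.rbVal p q)) := by
  rw [rbAug, Finsupp.linearCombination_mapDomain]
  rfl

theorem rb_hconn (hD : D.Ordered) {p q : V} {l0 : List E} (hl0 : D.Path p l0 q)
    (c0 : D.I p q) (hc0 : D.rbVal p q c0 = D.edges l0)
    (z : D.I p q →₀ ℤ) : ∃ y, D.dI p q y = z.filter (fun c => D.deg (D.rbVal p q c) = 0) -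
      Finsupp.single c0 (D.rbAug (z.mapDomain (D.rbVal p q))) := by
  classical
  induction z using Finsupp.induction_linear with
  | zero =>
    refine ⟨0, ?_⟩
    rw [map_zero, Finsupp.filter_zero, Finsupp.mapDomain_zero, map_zero, Finsupp.single_zero,
      sub_zero]
  | add f g hf hg =>
    obtain ⟨y1, h1⟩ := hf
    obtain ⟨y2, h2⟩ := hg
    refine ⟨y1 + y2, ?_⟩
    rw [map_add, h1, h2, Finsupp.filter_add, Finsupp.mapDomain_add, map_add, Finsupp.single_add]
    abel
  | single c n =>
    by_cases hc : D.deg (D.rbVal p q c) = 0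
    · obtain ⟨l', hl'⟩ := D.exists_edges hc
      have hp' : D.Path p l' q := by
        have : D.CPath p (D.rbVal p q c) q := c.2
        rw [hl'] at this
        exact D.cpath_edges.1 this
      obtain ⟨y, hy, hy'⟩ := D.exists_bd_eq hD hl0 hp'
      obtain ⟨y', hy1, _⟩ := D.rb_lift hy
      refine ⟨n • y', ?_⟩
      have hf : Finsupp.filter (fun c => D.deg (D.rbVal p q c) = 0) (Finsupp.single c n) =
          Finsupp.single c n := Finsupp.filter_single_of_pos _ hc
      have e1 : D.dI p q y' = Finsupp.single c 1 - Finsupp.single c0 1 := by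
        apply D.rb_map_inj
        rw [rb_dI_val, hy1, hy', sub_eq_add_neg, sub_eq_add_neg, Finsupp.mapDomain_add,
          ← Finsupp.single_neg, ← Finsupp.single_neg, Finsupp.mapDomain_single,
          Finsupp.mapDomain_single, hc0, hl']
      have e2 : D.rbAug ((Finsupp.single c n).mapDomain (D.rbVal p q)) = n := by
        rw [Finsupp.mapDomain_single, rbAug, Finsupp.linearCombination_single, if_pos hc]
        simp
      rw [hf, map_smul, e1, e2, smul_sub, Finsupp.smul_single, Finsupp.smul_single]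
      simp
    · refine ⟨0, ?_⟩
      have hf : Finsupp.filter (fun c => D.deg (D.rbVal p q c) = 0) (Finsupp.single c n) = 0 :=
        Finsupp.filter_single_of_neg _ hc
      have e2 : D.rbAug ((Finsupp.single c n).mapDomain (D.rbVal p q)) = 0 := by
        rw [Finsupp.mapDomain_single, rbAug, Finsupp.linearCombination_single, if_neg hc]
        simp
      rw [hf, e2, Finsupp.single_zero, sub_zero, map_zero]

theorem rb_hconn0 (hD : D.Ordered) {p q : V} {l0 : List E} (hl0 : D.Path p l0 q)
    (c0 : D.I p q) (hc0 : D.rbVal p q c0 = D.edges l0)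
    (z : D.I p q →₀ ℤ) (hz : ∀ c, z c ≠ 0 → D.deg c.1 = 0)
    (hz' : D.rbAug (z.mapDomain (D.rbVal p q)) = 0) : ∃ y, D.dI p q y = z := by
  classical
  obtain ⟨y, hy⟩ := D.rb_hconn hD hl0 c0 hc0 z
  refine ⟨y, ?_⟩
  have hz2 : z.filter (fun c => D.deg (D.rbVal p q c) = 0) = z := by
    rw [Finsupp.filter_eq_self_iff]
    exact hz
  rw [hy, hz', hz2, Finsupp.single_zero, sub_zero]

theorem rb_stab_path [GAct G D] (hD : D.Ordered) (S : VD G V)
    (hE : ∀ (e : E) (g : G), g • e = e ↔ ∃ x ∈ S.L (D.i e), ∃ y ∈ S.R (D.t e), g = x * y)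
    (g : G) {p q : V} {l : List E} (hl : D.Path p l q) (hg : ∀ e ∈ l, g • e = e)
    (hp : g • p = p) : ∃ x ∈ S.L p, ∃ y ∈ S.R q, g = x * y := by
  induction l generalizing p with
  | nil =>
    have : p = q := hl
    subst this
    exact (S.stabV p g).1 hp
  | cons e l ih =>
    obtain ⟨h1, h2⟩ := hl
    have h1' : D.i e = p := h1
    subst h1'
    have hge : g • e = e := hg e List.mem_cons_self
    have hte : g • D.t e = D.t e := by rw [← GAct.t_smul, hge]
    have h3 := ih h2 (fun e' he' => hg e' (List.mem_cons_of_mem _ he')) hte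
    have h4 := (hE e g).1 hge
    exact S.mem_inter (hD.lt e).le ((hD.le_iff _ _).2 ⟨l, h2⟩) h4 h3

theorem rb_mem_path (hD : D.Ordered) {p q : V} {l : List D.X} (h : D.CPath p l q) :
    p ≤ q ∧ ∀ x ∈ l, p ≤ D.xi x ∧ D.xt x ≤ q := by
  induction l generalizing p with
  | nil =>
    have : p = q := h
    subst this
    exact ⟨le_rfl, by simp⟩
  | cons x l ih =>
    obtain ⟨h1, h2⟩ := h
    have h1' : D.xi x = p := h1
    subst h1'
    obtain ⟨h3, h4⟩ := ih h2
    have hx : D.xi x ≤ D.xt x := by
      rcases x with e | s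
      · exact (hD.lt e).le
      · exact (D.a_lt_b hD s).le
    refine ⟨hx.trans h3, ?_⟩
    intro x' hx'
    rcases List.mem_cons.1 hx' with rfl | hx'
    · exact ⟨le_rfl, h3⟩
    · exact ⟨hx.trans (h4 x' hx').1, (h4 x' hx').2⟩

omit [PartialOrder V] in
theorem rb_comap {p q : V} {x : List D.X →₀ ℤ}
    (hx : x ∈ Finsupp.supported ℤ ℤ {l : List D.X | D.CPath p l q}) :
    (Finsupp.lcomapDomain (M := ℤ) (R := ℤ) (D.rbVal p q) (D.rbVal_inj p q) x).mapDomain
      (D.rbVal p q) = x := by
  classical
  have hx' := (Finsupp.mem_supported' ℤ x).1 hx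
  ext l
  by_cases h : D.CPath p l q
  · exact Finsupp.mapDomain_apply (D.rbVal_inj p q)
      (Finsupp.lcomapDomain (M := ℤ) (R := ℤ) (D.rbVal p q) (D.rbVal_inj p q) x) ⟨l, h⟩
  · rw [Finsupp.mapDomain_of_notMem_range]
    · rw [hx' l h]
    · rintro ⟨c, rfl⟩
      exact h c.2

omit [PartialOrder V] in
theorem rb_Ck_le (k : ℕ) (p q : V) :
    D.Ck k p q ≤ Finsupp.supported ℤ ℤ {l : List D.X | D.CPath p l q} :=
  Finsupp.supported_mono fun _ h => h.1

theorem rb_filter {I : Type*} [MulAction G I] (R : RedBase G I) (k : ℕ) (y : I →₀ ℤ) :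
    (R.d y).filter (fun c => R.deg c = k) = R.d (y.filter fun c => R.deg c = k + 1) := by
  classical
  induction y using Finsupp.induction_linear with
  | zero => rw [map_zero, Finsupp.filter_zero, Finsupp.filter_zero, map_zero]
  | add f g hf hg => rw [map_add, Finsupp.filter_add, hf, hg, Finsupp.filter_add, map_add]
  | single c n =>
    have e : Finsupp.single c n = n • Finsupp.single c (1 : ℤ) := by simp
    by_cases hc : R.deg c = k + 1
    · have h1 : Finsupp.filter (fun c => R.deg c = k + 1) (Finsupp.single c n) =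
          Finsupp.single c n := Finsupp.filter_single_of_pos _ hc
      rw [h1, Finsupp.filter_eq_self_iff]
      intro c' hc'
      have : R.d (Finsupp.single c 1) c' ≠ 0 := by
        intro h0
        apply hc'
        rw [e, map_smul, Finsupp.smul_apply, h0, smul_zero]
      have := R.hdeg c c' this
      omega
    · have h1 : Finsupp.filter (fun c => R.deg c = k + 1) (Finsupp.single c n) = 0 :=
        Finsupp.filter_single_of_neg _ hc
      rw [h1, map_zero, Finsupp.filter_eq_zero_iff]
      intro c' hc'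
      by_contra hne
      have : R.d (Finsupp.single c 1) c' ≠ 0 := by
        intro h0
        apply hne
        rw [e, map_smul, Finsupp.smul_apply, h0, smul_zero]
      have := R.hdeg c c' this
      omega

end rbaux

variable (D : Dcx P V E) [GAct G D] (S : VD G V)

/-- The action on the cells from `bot` to `top`. -/
def actI (hb : ∀ g : G, g • S.bot = S.bot) (ht : ∀ g : G, g • S.top = S.top) :
    MulAction G (D.I S.bot S.top) where
  smul g c := ⟨D.gW g c.1, by
    have := D.cpath_smul g c.2
    rwa [hb, ht] at this⟩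
  one_smul c := by
    apply Subtype.ext
    change D.gW (1 : G) c.1 = c.1
    unfold gW
    conv_rhs => rw [← List.map_id c.1]
    apply List.map_congr_left
    intro x _
    rcases x with e | s
    · simp
    · simp
  mul_smul g h c := by
    apply Subtype.ext
    change D.gW (g * h) c.1 = D.gW g (D.gW h c.1)
    unfold gW
    rw [List.map_map]
    apply List.map_congr_left
    intro x _
    rcases x with e | s
    · simp [mul_smul]
    · simp [mul_smul]

variable {D S}

/-- `G` acts freely: an element fixing a word from `bot` to `top` fixes a path from `bot` to `top`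
(replace the 2-cells by their upper paths), so it lies in `L bot · R top` by `VD.mem_inter`. Critical
cells with the same cube are in one orbit, by `trans` and because a cell is determined by its cube
and the path of its upper sides. -/
theorem Fin2.exists_redBase (h : Fin2 G D S) :
    letI := D.actI S (G := G) S.smul_bot S.smul_top
    ∃ R : RedBase G (D.I S.bot S.top), (∀ c, R.deg c = D.deg c.1) ∧
      ∀ z, R.d z = D.dI S.bot S.top z := by
  classical
  letI := D.actI S (G := G) S.smul_bot S.smul_top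
  obtain ⟨Dc, hDc⟩ := D.exists_reduction h.complete S.bot S.top
  dsimp only at hDc
  obtain ⟨h1, h2, h3⟩ := hDc
  obtain ⟨l0, hl0, hi0⟩ := h.crit_zero
  have hval : ∀ (g : G) (c : D.I S.bot S.top), (g • c).1 = D.gW g c.1 := fun g c => rfl
  have hsm : ∀ (g : G) (z : D.I S.bot S.top →₀ ℤ),
      (sm g z).mapDomain (D.rbVal S.bot S.top) = D.gC g (z.mapDomain (D.rbVal S.bot S.top)) := by
    intro g z
    rw [sm_def, gC, Finsupp.lmapDomain_apply, ← Finsupp.mapDomain_comp, ← Finsupp.mapDomain_comp]
    rfl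
  refine ⟨{ deg := fun c => D.deg c.1
            d := D.dI S.bot S.top
            dd := ?_
            hdeg := D.rb_dI_deg
            C := {c | IsCrit P (D.cube c.1)}
            D := {c | D.cube c.1 ∈ Dc}
            h1 := h1
            h2 := h2
            h3 := h3
            gdeg := ?_
            gC := ?_
            gD := ?_
            gd := ?_
            free := ?_
            fin := ?_
            ne := ?_
            haug := ?_
            hconn := ?_ }, fun c => rfl, fun z => rfl⟩
  · intro z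
    apply D.rb_map_inj
    rw [rb_dI_val, rb_dI_val, bd_bd, Finsupp.mapDomain_zero]
  · intro g c
    exact D.rb_deg_gW g c.1
  · intro g c hc
    change IsCrit P (D.cube (D.gW g c.1))
    rw [D.rb_cube_gW]
    exact hc
  · intro g c hc
    change D.cube (D.gW g c.1) ∈ Dc
    rw [D.rb_cube_gW]
    exact hc
  · intro g z
    apply D.rb_map_inj
    rw [rb_dI_val, hsm, hsm, rb_dI_val, gC_bd]
  · intro g c hc
    have h4 : D.gW g c.1 = c.1 := congrArg Subtype.val hc
    have h5 : (D.rbTop c.1).map (g • ·) = D.rbTop c.1 := by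
      rw [← D.rbTop_gW, h4]
    have h6 : ∀ e ∈ D.rbTop c.1, g • e = e := by
      intro e he
      obtain ⟨n, hn, rfl⟩ := List.mem_iff_getElem.1 he
      have h7 : ((D.rbTop c.1).map (g • ·))[n]'(by simpa using hn) = (D.rbTop c.1)[n] := by
        simp only [h5]
      simpa using h7
    obtain ⟨x, hx, y, hy, rfl⟩ := D.rb_stab_path h.ord S h.stabE g (D.rbTop_path c.2) h6
      (S.smul_bot g)
    rw [S.L_bot x hx, S.R_top y hy, one_mul]
  · intro k
    let c0 : D.I S.bot S.top := ⟨D.edges l0, D.cpath_edges.2 hl0⟩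
    let rep : Cube α ι → D.I S.bot S.top := fun q =>
      if hq : ∃ c : D.I S.bot S.top, D.cube c.1 = q then hq.choose else c0
    refine ⟨(h.crit_fin k).toFinset.image rep, ?_⟩
    intro c hc hk
    have hex : ∃ c' : D.I S.bot S.top, D.cube c'.1 = D.cube c.1 := ⟨c, rfl⟩
    have hrep : D.cube (rep (D.cube c.1)).1 = D.cube c.1 := by
      change D.cube (dite _ _ _ : D.I S.bot S.top).1 = _
      rw [dif_pos hex]
      exact hex.choose_spec
    have hmem : D.cube c.1 ∈ (h.crit_fin k).toFinset := by
      rw [Set.Finite.mem_toFinset]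
      refine ⟨hc, ?_, D.rbTop c.1, D.rbTop_path c.2, D.rbTop_lab c.1⟩
      rw [D.rb_dim_cube]
      exact hk
    obtain ⟨g, hg⟩ := h.trans (D.rbTop c.1) (D.rbTop (rep (D.cube c.1)).1) (D.rbTop_path c.2)
      (D.rbTop_path (rep (D.cube c.1)).2) (by rw [D.rbTop_lab, D.rbTop_lab, hrep])
    refine ⟨g, ?_⟩
    have hgc : g • c = rep (D.cube c.1) := by
      apply Subtype.ext
      refine D.rb_ext (g • c).2 (rep (D.cube c.1)).2 ?_ ?_
      · rw [hval, D.rb_cube_gW, hrep]
      · rw [hval, D.rbTop_gW, hg]
    rw [hgc]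
    exact Finset.mem_image_of_mem _ hmem
  · refine ⟨⟨D.edges l0, D.cpath_edges.2 hl0⟩, ?_, D.deg_edges l0⟩
    change IsCrit P (D.cube (D.edges l0))
    rw [D.rb_cube_edges]
    exact ⟨[], _, by simp, hi0, by simp [critCube]⟩
  · intro z
    rw [D.rb_aug_val, rb_dI_val, rbAug_bd]
  · intro z hz hz'
    rw [D.rb_aug_val] at hz'
    exact D.rb_hconn0 h.ord hl0 ⟨D.edges l0, D.cpath_edges.2 hl0⟩ rfl z hz hz'

theorem rb_sm_val (g : G) :
    letI := D.actI S (G := G) S.smul_bot S.smul_top
    ∀ z : D.I S.bot S.top →₀ ℤ,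
      (sm g z).mapDomain (D.rbVal S.bot S.top) = D.gC g (z.mapDomain (D.rbVal S.bot S.top)) := by
  letI := D.actI S (G := G) S.smul_bot S.smul_top
  intro z
  rw [sm_def, gC, Finsupp.lmapDomain_apply, ← Finsupp.mapDomain_comp, ← Finsupp.mapDomain_comp]
  rfl

/-- The module of 2-cycles is finitely generated if `G` is of type `FP_2` (`H1_fg`,
`exists_cycle`, `lin_bd`). -/
theorem Fin2.cycles_fg (h : Fin2 G D S) (h2 : TypeFP 2 G) :
    ∃ F : Finset (D.Cell2 →₀ ℤ), (∀ s ∈ F, bd2 D.dF s = 0) ∧
      ∀ z, bd2 D.dF z = 0 → z ∈ AddSubgroup.closure {y | ∃ g : G, ∃ s ∈ F, y = sm g s} := by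
  classical
  letI := D.actI S (G := G) S.smul_bot S.smul_top
  obtain ⟨R, hRdeg, hRd⟩ := h.exists_redBase
  obtain ⟨T, hT1, hT2⟩ := R.H1_fg h2
  let φ : (D.I S.bot S.top →₀ ℤ) →ₗ[ℤ] (D.Cell2 →₀ ℤ) :=
    D.lin ∘ₗ Finsupp.lmapDomain ℤ ℤ (D.rbVal S.bot S.top)
  have hφ : ∀ z, φ z = D.lin (z.mapDomain (D.rbVal S.bot S.top)) := fun z => rfl
  have hφg : ∀ (g : G) z, φ (sm g z) = sm g (φ z) := by
    intro g z
    rw [hφ, hφ, rb_sm_val (S := S) (D := D) g z, lin_gC]
  refine ⟨T.image φ, ?_, ?_⟩
  · intro s hs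
    obtain ⟨t, ht, rfl⟩ := Finset.mem_image.1 hs
    obtain ⟨h3, h4⟩ := hT1 t ht
    have hm : t.mapDomain (D.rbVal S.bot S.top) ∈ D.Ck 1 S.bot S.top :=
      D.rb_mem (fun c hc => by rw [← hRdeg]; exact h3 c hc)
    rw [hφ, D.bd2_lin hm, ← rb_dI_val, ← hRd, h4, Finsupp.mapDomain_zero, map_zero]
  · intro z hz
    obtain ⟨x, hx, hx1, hx2⟩ := D.exists_cycle h.ord (p := S.bot) (q := S.top) (k := z)
      (by
        rw [Finsupp.mem_supported]
        intro s _
        exact ⟨S.bot_le _, S.le_top _⟩) hz
    obtain ⟨x', hx', hxd⟩ := D.rb_lift hx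
    have hRx : R.d x' = 0 := by
      rw [hRd]
      apply D.rb_map_inj
      rw [rb_dI_val, hx', hx1, Finsupp.mapDomain_zero]
    have hxdeg : ∀ c, x' c ≠ 0 → R.deg c = 1 := fun c hc => by
      rw [hRdeg]
      exact hxd c hc
    obtain ⟨y, hy⟩ := hT2 x' hxdeg hRx
    have hle : AddSubgroup.closure {t | ∃ g : G, ∃ s ∈ T, t = sm g s} ≤
        (Finsupp.supported ℤ ℤ {c | R.deg c = 1}).toAddSubgroup := by
      rw [AddSubgroup.closure_le]
      rintro t ⟨g, s, hs, rfl⟩
      refine (Finsupp.mem_supported' ℤ _).2 ?_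
      intro c hc
      rw [sm_apply]
      by_contra hne
      have h5 := (hT1 s hs).1 _ hne
      rw [R.gdeg] at h5
      exact hc h5
    have hd1 : ∀ c, (R.d y) c ≠ 0 → R.deg c = 1 := by
      intro c hc
      by_contra hne
      have h6 := (Finsupp.mem_supported' ℤ _).1 (hle hy) c hne
      have h7 : x' c = 0 := by
        by_contra h8
        exact hne (hxdeg c h8)
      rw [Finsupp.sub_apply, h7, zero_sub, neg_eq_zero] at h6
      exact hc h6
    have hy2 : R.d y = R.d (y.filter fun c => R.deg c = 1 + 1) := by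
      rw [← rb_filter]
      exact ((Finsupp.filter_eq_self_iff _ _).2 hd1).symm
    have hm2 : (y.filter fun c => R.deg c = 1 + 1).mapDomain (D.rbVal S.bot S.top) ∈
        D.Ck 2 S.bot S.top := by
      apply D.rb_mem
      intro c hc
      rw [← hRdeg]
      by_contra hne
      apply hc
      exact Finsupp.filter_apply_neg (fun c => R.deg c = 1 + 1) _ hne
    have hz2 : z = φ (x' - R.d y) := by
      have e1 : φ x' = z := by rw [hφ, hx', hx2]
      have e2 : φ (R.d y) = 0 := by
        rw [hy2, hφ, hRd, rb_dI_val, D.lin_bd hm2]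
      rw [map_sub, e1, e2, sub_zero]
    rw [hz2]
    have hle2 : AddSubgroup.closure {t | ∃ g : G, ∃ s ∈ T, t = sm g s} ≤
        (AddSubgroup.closure {y | ∃ g : G, ∃ s ∈ T.image φ, y = sm g s}).comap
          φ.toAddMonoidHom := by
      rw [AddSubgroup.closure_le]
      rintro t ⟨g, s, hs, rfl⟩
      change φ (sm g s) ∈ AddSubgroup.closure {y | ∃ g : G, ∃ s ∈ T.image φ, y = sm g s}
      apply AddSubgroup.subset_closure
      exact ⟨g, φ s, Finset.mem_image_of_mem _ hs, hφg g s⟩
    exact hle2 hy

/-- If there is an endomorphism `s'` as in `exists_S` then `G` is `FP_n` for all `n`. (`hstab` of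
`exists_S`: the stabiliser of a 2-cell `s` is `L (a s) R (b s)`, which fixes all edges and 2-cells
between `a s` and `b s`.) -/
theorem Fin2.typeFP (h : Fin2 G D S)
    (s' : (D.Cell2 →₀ ℤ) →ₗ[ℤ] (D.Cell2 →₀ ℤ)) (hs_sm : ∀ (g : G) z, s' (sm g z) = sm g (s' z))
    (hs_mem : ∀ s : D.Cell2, s' (Finsupp.single s 1) ∈
      Finsupp.supported ℤ ℤ {c : D.Cell2 | s.a ≤ c.a ∧ c.b ≤ s.b})
    (hs_bd : ∀ z, bd2 D.dF (s' z) = bd2 D.dF z) (hs_cyc : ∀ z, bd2 D.dF z = 0 → s' z = 0)
    (n : ℕ) : TypeFP n G := by
  classical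
  letI := D.actI S (G := G) S.smul_bot S.smul_top
  obtain ⟨R, hRdeg, hRd⟩ := h.exists_redBase
  have hstab : ∀ (s : D.Cell2) (g : G), g • s = s → ∀ x : List D.X, D.CPath s.a x s.b →
      D.gW g x = x := by
    intro s g hgs x hx
    obtain ⟨u, hu, v, hv, rfl⟩ := (D.stab_cell h.ord S h.stabE s g).1 hgs
    have hmem := (D.rb_mem_path h.ord hx).2
    unfold gW
    conv_rhs => rw [← List.map_id x]
    apply List.map_congr_left
    intro y hy
    obtain ⟨h1, h2⟩ := hmem y hy
    let T := D.toGDC h.ord S h.stabE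
    rcases y with e | c
    · have e1 : v • e = e := T.smul_edge_of_R (p := s.b) hv h2
      have e2 : u • e = e := T.smul_edge_of_L (p := s.a) hu h1
      change Sum.inl ((u * v) • e) = Sum.inl e
      rw [mul_smul, e1, e2]
    · have e1 : v • c = c := T.smul_cell_of_R (p := s.b) hv h2
      have e2 : u • c = c := T.smul_cell_of_L (p := s.a) hu h1
      change Sum.inr ((u * v) • c) = Sum.inr c
      rw [mul_smul, e1, e2]
  obtain ⟨SS, hSg, hSe, hSbd, hSm, hSk⟩ :=
    exists_S D h.ord hstab s' hs_sm hs_mem hs_bd hs_cyc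
  let SI : (D.I S.bot S.top →₀ ℤ) →ₗ[ℤ] (D.I S.bot S.top →₀ ℤ) :=
    Finsupp.lcomapDomain (M := ℤ) (R := ℤ) (D.rbVal S.bot S.top) (D.rbVal_inj S.bot S.top) ∘ₗ SS ∘ₗ
      Finsupp.lmapDomain ℤ ℤ (D.rbVal S.bot S.top)
  have hsupp : ∀ z : D.I S.bot S.top →₀ ℤ, SS (z.mapDomain (D.rbVal S.bot S.top)) ∈
      Finsupp.supported ℤ ℤ {l : List D.X | D.CPath S.bot l S.top} := by
    intro z
    induction z using Finsupp.induction_linear with
    | zero => rw [Finsupp.mapDomain_zero, map_zero]; exact Submodule.zero_mem _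
    | add f g hf hg => rw [Finsupp.mapDomain_add, map_add]; exact Submodule.add_mem _ hf hg
    | single c n =>
      rw [Finsupp.mapDomain_single]
      exact D.rb_Ck_le _ _ _ (hSm _ _ _ _ (D.single_mem c.2 n))
  have hval : ∀ z, (SI z).mapDomain (D.rbVal S.bot S.top) =
      SS (z.mapDomain (D.rbVal S.bot S.top)) := fun z => D.rb_comap (hsupp z)
  refine R.typeFP_of_endo SI ?_ ?_ ?_ ?_ ?_ n
  · intro z
    apply D.rb_map_inj
    rw [hRd, hRd, rb_dI_val, hval, hval, rb_dI_val, hSbd]
  · intro g z
    apply D.rb_map_inj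
    rw [hval, rb_sm_val (S := S) (D := D) g z, rb_sm_val (S := S) (D := D) g (SI z), hval, hSg]
  · intro c c' hc
    rw [hRdeg, hRdeg]
    have h1 : SI (Finsupp.single c 1) c' = SS (Finsupp.single c.1 1) c'.1 := by
      change SS ((Finsupp.single c 1).mapDomain (D.rbVal S.bot S.top)) c'.1 = _
      rw [Finsupp.mapDomain_single]
      rfl
    rw [h1] at hc
    have h2 := hSm _ _ _ _ (D.single_mem c.2 1)
    have h3 := (Finsupp.mem_supported' ℤ _).1 h2 c'.1
    by_contra hne
    exact hc (h3 fun h4 => hne h4.2)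
  · intro c hc
    rw [hRdeg] at hc
    obtain ⟨l, hl⟩ := D.exists_edges hc
    apply D.rb_map_inj
    rw [hval, Finsupp.mapDomain_single]
    change SS (Finsupp.single c.1 1) = Finsupp.single c.1 1
    rw [hl, hSe]
  · intro k z hz hdz
    have hm : z.mapDomain (D.rbVal S.bot S.top) ∈ D.Ck (k + 1) S.bot S.top :=
      D.rb_mem (fun c hc => by rw [← hRdeg]; exact hz c hc)
    have hb : D.bd (z.mapDomain (D.rbVal S.bot S.top)) = 0 := by
      rw [← rb_dI_val, ← hRd, hdz, Finsupp.mapDomain_zero]
    obtain ⟨y, hy, hy'⟩ := hSk k _ _ _ hm hb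
    obtain ⟨y', hy1, _⟩ := D.rb_lift hy
    refine ⟨y', ?_⟩
    apply D.rb_map_inj
    rw [hRd, rb_dI_val, hy1, hy', hval]

end Dcx

end Pool.Agent.DG
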