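import Pool.Agent.MP_cff99f_al.Gen.TCx

/-!
Block TCy: properties of the complex over the auxiliary presentation.
-/

namespace Pool.Agent.DG

universe w z

namespace Tab

variable {G : Type w} {W : Type w} [Group G] [PartialOrder W] [MulAction G W] {S : VD G W}
  (T : Tab S)

theorem tcy_exists (e : T.Edg) : ∃ (a : T.A) (g : G), e = T.mkE a g ∧
    T.cx.i e = g • T.P a.1 ∧ T.cx.t e = g • T.Q a.1 ∧ T.cx.lab e = a := by
  obtain ⟨g, hg⟩ := T.exists_mkE e
  refine ⟨e.1.1, g, hg, ?_, ?_, rfl⟩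
  · have := T.ei_mkE e.1.1 g
    rw [← hg] at this
    exact this
  · have := T.et_mkE e.1.1 g
    rw [← hg] at this
    exact this

theorem cx_lt (e : T.Edg) : T.cx.i e < T.cx.t e := by
  obtain ⟨a, g, -, h1, h2, -⟩ := T.tcy_exists e
  rw [h1, h2]
  refine lt_of_le_of_ne (S.smul_le g _ _ (T.lt a.1).le) fun h => ?_
  exact (T.lt a.1).ne (smul_left_cancel g h)

theorem tcy_path_le {p q : W} {l : List T.Edg} (h : T.cx.Path p l q) : p ≤ q := by
  induction l generalizing p with
  | nil => exact le_of_eq h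
  | cons e l ih =>
    obtain ⟨h1, h2⟩ := h
    rw [← h1]
    exact (T.cx_lt e).le.trans (ih h2)

theorem tcy_path_mem {p q : W} {l : List T.Edg} (h : T.cx.Path p l q) :
    ∀ e ∈ l, p ≤ T.cx.i e := by
  induction l generalizing p with
  | nil => intro e he; simp at he
  | cons e l ih =>
    obtain ⟨h1, h2⟩ := h
    intro f hf
    rcases List.mem_cons.1 hf with rfl | hf
    · exact h1.ge
    · rw [← h1]
      exact (T.cx_lt e).le.trans (ih h2 f hf)

theorem cx_le_iff (p q : W) : p ≤ q ↔ ∃ l, T.cx.Path p l q := by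
  constructor
  · intro h
    rcases h.eq_or_lt with rfl | h
    · exact ⟨[], rfl⟩
    · obtain ⟨m, g, h1, h2⟩ := T.ex p q h
      refine ⟨[T.mkE (T.zl m) g], ?_, ?_⟩
      · exact (T.ei_mkE (T.zl m) g).trans h1
      · exact (T.et_mkE (T.zl m) g).trans h2
  · rintro ⟨l, hl⟩
    exact T.tcy_path_le hl

theorem cx_stab (e : T.Edg) (g : G) :
    g • e = e ↔ ∃ x ∈ S.L (T.cx.i e), ∃ y ∈ S.R (T.cx.t e), g = x * y := by
  obtain ⟨a, h, he, h1, h2, -⟩ := T.tcy_exists e
  rw [h1, h2]
  have hle : T.P a.1 ≤ T.Q a.1 := (T.lt a.1).le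
  rw [he, T.smul_mkE, T.mkE_eq_iff]
  constructor
  · rintro ⟨-, l, hl, r, hr, hlr⟩
    have hc : l * r = r * l := S.comm' hle hl hr
    refine ⟨h * l⁻¹ * h⁻¹, ?_, h * r⁻¹ * h⁻¹, ?_, ?_⟩
    · rw [S.L_smul]
      have : h⁻¹ * (h * l⁻¹ * h⁻¹) * h = l⁻¹ := by group
      rw [this]
      exact inv_mem hl
    · rw [S.R_smul]
      have : h⁻¹ * (h * r⁻¹ * h⁻¹) * h = r⁻¹ := by group
      rw [this]
      exact inv_mem hr
    · have h3 : g = h * (l * r)⁻¹ * h⁻¹ := by
        rw [eq_mul_inv_iff_mul_eq, eq_mul_inv_iff_mul_eq, ← mul_assoc]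
        exact hlr.symm
      rw [h3, hc]
      group
  · rintro ⟨x, hx, y, hy, rfl⟩
    rw [S.L_smul] at hx
    rw [S.R_smul] at hy
    have hc := S.comm' hle hx hy
    refine ⟨rfl, (h⁻¹ * x * h)⁻¹, inv_mem hx, (h⁻¹ * y * h)⁻¹, inv_mem hy, ?_⟩
    have h3 : x * y = h * ((h⁻¹ * x * h) * (h⁻¹ * y * h)) * h⁻¹ := by group
    rw [h3, hc]
    group

/-- edges with the same label are in the same orbit -/
theorem tcy_same_lab {e e' : T.Edg} (h : T.cx.lab e = T.cx.lab e') : ∃ g : G, e' = g • e := by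
  obtain ⟨a, k, he, -, -, h1⟩ := T.tcy_exists e
  obtain ⟨a', k', he', -, -, h1'⟩ := T.tcy_exists e'
  have : a = a' := h1.symm.trans (h.trans h1')
  subst this
  refine ⟨k' * k⁻¹, ?_⟩
  rw [he, he', T.smul_mkE, inv_mul_cancel_right]

theorem tcy_map_L {p q : W} {l : List T.Edg} (h : T.cx.Path p l q) {x : G} (hx : x ∈ S.L p) :
    l.map (x • ·) = l := by
  refine (List.map_congr_left fun e he => ?_).trans (List.map_id l)
  exact (T.cx_stab e x).2 ⟨x, S.L_mono p _ (T.tcy_path_mem h e he) hx, 1, one_mem _,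
    (mul_one x).symm⟩

/-- `G` acts transitively on the nonempty paths with a given label: by induction, for `e l` and `e' l`
with `e' = g e`, `g` fixes the end point `v` of `e`, `g = x y`, `x ∈ L v`, `y ∈ R v`; `y` fixes `e` and
`x` fixes `l`, so `x` maps `e l` to `e' l`. -/
theorem cx_trans {p q p' q' : W} {l l' : List T.Edg} (hl : T.cx.Path p l q)
    (hl' : T.cx.Path p' l' q') (hne : l ≠ []) (h : l.map T.cx.lab = l'.map T.cx.lab) :
    ∃ g : G, l' = l.map (g • ·) := by
  induction l generalizing p p' l' with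
  | nil => exact absurd rfl hne
  | cons e l ih =>
    cases l' with
    | nil => simp at h
    | cons e' l' =>
      rw [List.map_cons, List.map_cons, List.cons.injEq] at h
      obtain ⟨h1, h2⟩ := h
      obtain ⟨g, hg⟩ := T.tcy_same_lab h1
      obtain ⟨hl1, hl2⟩ := hl
      obtain ⟨hl1', hl2'⟩ := hl'
      by_cases hnil : l = []
      · subst hnil
        have : l' = [] := by
          rw [List.map_nil] at h2
          exact List.map_eq_nil_iff.1 h2.symm
        subst this
        exact ⟨g, by rw [List.map_cons, List.map_nil, hg]⟩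
      · obtain ⟨g', hg'⟩ := ih hl2 hl2' hnil h2
        -- the starting points
        have hst : g • T.cx.t e = g' • T.cx.t e := by
          rw [← GAct.t_smul (D := T.cx) g e, ← hg]
          obtain ⟨f, l₂, rfl⟩ := List.exists_cons_of_ne_nil hnil
          obtain ⟨hf1, -⟩ := hl2
          rw [hg', List.map_cons] at hl2'
          obtain ⟨hf1', -⟩ := hl2'
          change T.cx.i f = T.cx.t e at hf1
          change T.cx.i (g' • f) = T.cx.t e' at hf1'
          rw [← hf1', GAct.i_smul (D := T.cx) g' f, hf1]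
        have hfix : (g⁻¹ * g') • T.cx.t e = T.cx.t e := by
          rw [mul_smul, ← hst, inv_smul_smul]
        obtain ⟨x, hx, y, hy, hxy⟩ := (S.stabV _ _).1 hfix
        have hg'' : g' = g * y * x := by
          rw [mul_assoc, ← S.comm _ x y hx hy, ← hxy, mul_inv_cancel_left]
        refine ⟨g * y, ?_⟩
        rw [List.map_cons, hg', hg, mul_smul]
        have hye : y • e = e := (T.cx_stab e y).2 ⟨1, one_mem _, y, hy, (one_mul y).symm⟩
        have hxl : l.map (x • ·) = l := T.tcy_map_L hl2 hx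
        rw [hye]
        congr 1
        conv_rhs => rw [← hxl, List.map_map]
        refine List.map_congr_left fun f _ => ?_
        show g' • f = (g * y) • x • f
        rw [hg'', mul_smul]

theorem cx_compW {p q : W} {l : List T.Edg} (h : T.cx.Path p l q) :
    T.CompW (l.map T.cx.lab) := by
  unfold CompW
  induction l generalizing p with
  | nil => exact List.isChain_nil
  | cons e l ih =>
    obtain ⟨h1, h2⟩ := h
    cases l with
    | nil => exact List.isChain_singleton _
    | cons f l =>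
      have h3 := ih h2
      rw [List.map_cons, List.map_cons, List.isChain_cons_cons]
      refine ⟨?_, h3⟩
      obtain ⟨h4, -⟩ := h2
      change T.cx.i f = T.cx.t e at h4
      obtain ⟨a, k, -, -, h5, h6⟩ := T.tcy_exists e
      obtain ⟨b, k', -, h7, -, h8⟩ := T.tcy_exists f
      rw [h5, h7] at h4
      rw [h6, h8]
      refine ⟨k'⁻¹ * k, ?_⟩
      rw [mul_smul, ← h4, inv_smul_smul]

theorem cx_finite_orbits : Finite (MulAction.orbitRel.Quotient G T.Edg) ∧
    Finite (MulAction.orbitRel.Quotient G T.cx.Cell2) := by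
  constructor
  · have := T.finite_A
    refine Finite.of_surjective
      (fun a : T.A => (Quotient.mk'' (T.mkE a 1) : MulAction.orbitRel.Quotient G T.Edg)) ?_
    intro x
    induction x using Quotient.inductionOn' with
    | h e =>
      obtain ⟨a, k, he, -, -, -⟩ := T.tcy_exists e
      refine ⟨a, Quotient.sound' ?_⟩
      rw [MulAction.orbitRel_apply, MulAction.mem_orbit_iff]
      refine ⟨k⁻¹, ?_⟩
      rw [he, T.smul_mkE, inv_mul_cancel]
  · have := T.finite_J
    let f : MulAction.orbitRel.Quotient G T.cx.Cell2 → T.J :=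
      Quotient.lift (fun s : T.cx.Cell2 => s.j) (by
        rintro s s' ⟨g, rfl⟩
        rfl)
    refine Finite.of_injective f ?_
    intro x y hxy
    induction x using Quotient.inductionOn' with
    | h s =>
      induction y using Quotient.inductionOn' with
      | h s' =>
        have hj : s.j = s'.j := hxy
        have hne : s.top ≠ [] := by
          intro h0
          have h1 := s.lab
          rw [h0, List.map_nil] at h1
          exact T.pres.lhs_ne s.j h1.symm
        obtain ⟨g, hg⟩ := T.cx_trans s.path s'.path hne (by rw [s.lab, s'.lab, hj])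
        refine Quotient.sound' ?_
        rw [MulAction.orbitRel_apply, MulAction.mem_orbit_iff]
        refine ⟨g⁻¹, ?_⟩
        rw [inv_smul_eq_iff]
        have h1 : T.cx.Path (g • s.a) s'.top (g • s.b) := by
          rw [hg]
          exact T.cx.path_smul g s.path
        have h2 := s'.path
        have ha : s'.a = g • s.a := by
          obtain ⟨f', l₂, hf⟩ := List.exists_cons_of_ne_nil
            (show s'.top ≠ [] by rw [hg]; simpa using hne)
          rw [hf] at h1 h2
          exact h2.1.symm.trans h1.1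
        have hb : s'.b = g • s.b := by
          rw [ha] at h2
          exact pathIn_unique h2 h1
        exact Dcx.Cell2.ext ha hb hj.symm hg

/-! ### moves -/

theorem tcy_flip_true {j : T.J} {l l' : List T.Edg} (h : T.Rel j l l') :
    T.cx.flip j true l = l' := by
  show T.flp j true l = l'
  have hex : ∃ l', T.Rel j l l' := ⟨l', h⟩
  simp only [flp]
  rw [dif_pos hex]
  exact Rel.right_unique T hex.choose_spec h

theorem tcy_move {j : T.J} {l l' : List T.Edg} (h : T.Rel j l l') : T.cx.Move l l' := by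
  obtain ⟨p, q, h1, -⟩ := h.path
  exact ⟨[], j, true, l, [], ⟨p, q, h1⟩, h.lab.1, by simp, by simp [T.tcy_flip_true h]⟩

theorem tcy_move_ctx {l l' : List T.Edg} (h : T.cx.Move l l') (A B : List T.Edg) :
    T.cx.Move (A ++ l ++ B) (A ++ l' ++ B) := by
  obtain ⟨A', j, b, s, B', h1, h2, rfl, rfl⟩ := h
  exact ⟨A ++ A', j, b, s, B' ++ B, h1, h2, by simp, by simp⟩

theorem tcy_eqv_ctx {l l' : List T.Edg} (h : Relation.EqvGen T.cx.Move l l') (A B : List T.Edg) :
    Relation.EqvGen T.cx.Move (A ++ l ++ B) (A ++ l' ++ B) := by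
  induction h with
  | rel x y h => exact Relation.EqvGen.rel _ _ (T.tcy_move_ctx h A B)
  | refl x => exact Relation.EqvGen.refl _
  | symm x y _ ih => exact Relation.EqvGen.symm _ _ ih
  | trans x y z _ _ ih1 ih2 => exact Relation.EqvGen.trans _ _ _ ih1 ih2

theorem tcy_move_path {l l' : List T.Edg} (h : Relation.EqvGen T.cx.Move l l') :
    ∀ p q, T.cx.Path p l q ↔ T.cx.Path p l' q := by
  induction h with
  | rel x y h =>
    obtain ⟨A, j, b, s, B, ⟨p₀, q₀, h1⟩, h2, rfl, rfl⟩ := h
    intro p q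
    have h3 := T.cx.flip_path j b p₀ s q₀ h1 h2
    have hs : s ≠ [] := by
      rintro rfl
      exact T.pres.side_ne j b h2.symm
    have hfl : T.cx.flip j b s ≠ [] := by
      intro h0
      have h4 := T.cx.flip_lab j b p₀ s q₀ h1 h2
      rw [h0] at h4
      exact T.pres.side_ne j (!b) h4.symm
    have huniq : ∀ (s s' : List T.Edg), s ≠ [] → s' ≠ [] → PathIn T.cx.i T.cx.t p₀ s q₀ →
        PathIn T.cx.i T.cx.t p₀ s' q₀ → ∀ p q, PathIn T.cx.i T.cx.t p s q →
        PathIn T.cx.i T.cx.t p s' q := by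
      intro s s' hs _ h h' p q hp
      have e1 : p = p₀ := by
        obtain ⟨f, l₂, rfl⟩ := List.exists_cons_of_ne_nil hs
        exact hp.1.symm.trans h.1
      subst e1
      have e2 : q = q₀ := pathIn_unique hp h
      subst e2
      exact h'
    show PathIn T.cx.i T.cx.t p (A ++ s ++ B) q ↔
      PathIn T.cx.i T.cx.t p (A ++ T.cx.flip j b s ++ B) q
    rw [pathIn_append, pathIn_append]
    simp only [pathIn_append]
    constructor
    · rintro ⟨r, ⟨r', h4, h5⟩, h6⟩
      exact ⟨r, ⟨r', h4, huniq s _ hs hfl h1 h3 _ _ h5⟩, h6⟩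
    · rintro ⟨r, ⟨r', h4, h5⟩, h6⟩
      exact ⟨r, ⟨r', h4, huniq _ s hfl hs h3 h1 _ _ h5⟩, h6⟩
  | refl x => exact fun p q => Iff.rfl
  | symm x y _ ih => exact fun p q => (ih p q).symm
  | trans x y z _ _ ih1 ih2 => exact fun p q => (ih1 p q).trans (ih2 p q)

/-- a single edge is connected with one whose label is `z_m` -/
theorem tcy_z (e : T.Edg) : ∃ (m : T.M) (g : G),
    Relation.EqvGen T.cx.Move [e] [T.mkE (T.zl m) g] := by
  obtain ⟨⟨m, k⟩, g, he, -, -, -⟩ := T.tcy_exists e
  cases k with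
  | none => exact ⟨m, g, by rw [he]; exact Relation.EqvGen.refl _⟩
  | some k =>
    refine ⟨m, g, ?_⟩
    rw [he]
    refine Relation.EqvGen.rel _ _ (T.tcy_move (j := Sum.inr (⟨m, k⟩, true)) ?_)
    exact ⟨g, rfl, by simp⟩

/-- two composable edges labelled `z` are connected with a single one -/
theorem tcy_zz {p q : W} {m m' : T.M} {g g' : G}
    (h : T.cx.Path p [T.mkE (T.zl m) g, T.mkE (T.zl m') g'] q) : ∃ (m'' : T.M) (g'' : G),
    Relation.EqvGen T.cx.Move [T.mkE (T.zl m) g, T.mkE (T.zl m') g'] [T.mkE (T.zl m'') g''] := by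
  have hc : T.Comp m m' := by
    obtain ⟨h1, h2, h3⟩ := h
    have h4 := T.et_mkE (T.zl m) g
    have h5 := T.ei_mkE (T.zl m') g'
    have h6 : g' • T.P m' = g • T.Q m := h5.symm.trans (h2.trans h4)
    refine ⟨g'⁻¹ * g, ?_⟩
    rw [mul_smul, ← h6, inv_smul_smul]
  obtain ⟨l', hl'⟩ := T.exists_rel_left (j := Sum.inl ⟨(m, m'), hc⟩) h rfl
  obtain ⟨k, -, hk⟩ := id hl'
  refine ⟨T.mul m m', k * T.b m m', ?_⟩
  have hmv := T.tcy_move hl'
  rw [hk] at hmv
  exact Relation.EqvGen.rel _ _ hmv

theorem tcy_single {p q : W} {l : List T.Edg} (h : T.cx.Path p l q) (hne : l ≠ []) :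
    ∃ (m : T.M) (g : G), Relation.EqvGen T.cx.Move l [T.mkE (T.zl m) g] := by
  induction l generalizing p with
  | nil => exact absurd rfl hne
  | cons e l ih =>
    obtain ⟨m, g, h1⟩ := T.tcy_z e
    by_cases hnil : l = []
    · subst hnil
      exact ⟨m, g, h1⟩
    · obtain ⟨m', g', h2⟩ := ih h.2 hnil
      have h3 : Relation.EqvGen T.cx.Move (e :: l) [T.mkE (T.zl m) g, T.mkE (T.zl m') g'] := by
        have h4 := T.tcy_eqv_ctx h1 [] l
        have h5 := T.tcy_eqv_ctx h2 [T.mkE (T.zl m) g] []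
        simp only [List.nil_append, List.append_nil, List.cons_append] at h4 h5
        exact Relation.EqvGen.trans _ _ _ h4 h5
      obtain ⟨m'', g'', h4⟩ := T.tcy_zz ((T.tcy_move_path h3 p q).1 h)
      exact ⟨m'', g'', Relation.EqvGen.trans _ _ _ h3 h4⟩

/-- moving by an element of `L (Q m) ⊓ R (P m)` -/
theorem tcy_gen (m : T.M) {x : G} (hx : x ∈ S.L (T.Q m) ⊓ S.R (T.P m)) :
    ∀ g : G, Relation.EqvGen T.cx.Move [T.mkE (T.zl m) g] [T.mkE (T.zl m) (g * x)] := by
  rw [← T.gen_closure m] at hx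
  induction hx using Subgroup.closure_induction with
  | mem y hy =>
    obtain ⟨k, rfl⟩ := hy
    intro g
    have h1 : T.Rel (Sum.inr (⟨m, k⟩, true)) [T.mkE (T.yl m k) g] [T.mkE (T.zl m) g] :=
      ⟨g, rfl, by simp⟩
    have h2 : T.Rel (Sum.inr (⟨m, k⟩, false)) [T.mkE (T.yl m k) g]
        [T.mkE (T.zl m) (g * T.gen m k)] := ⟨g, rfl, by simp⟩
    exact Relation.EqvGen.trans _ _ _
      (Relation.EqvGen.symm _ _ (Relation.EqvGen.rel _ _ (T.tcy_move h1)))
      (Relation.EqvGen.rel _ _ (T.tcy_move h2))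
  | one => intro g; rw [mul_one]; exact Relation.EqvGen.refl _
  | mul x y _ _ ihx ihy =>
    intro g
    have h1 := ihy (g * x)
    rw [mul_assoc] at h1
    exact Relation.EqvGen.trans _ _ _ (ihx g) h1
  | inv x _ ih =>
    intro g
    have h1 := ih (g * x⁻¹)
    rw [inv_mul_cancel_right] at h1
    exact Relation.EqvGen.symm _ _ h1

/-- Every path from `p` to `q`, `p < q`, is connected by moves to a single edge labelled `z_m`; `m` is
determined (`uniq`), and two such edges `mkE z_m g`, `mkE z_m g'` from `p` to `q` have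
`g⁻¹ g' ∈ L (P m) (L (Q m) ⊓ R (P m)) R (Q m)`, and `mkE z_m g` and `mkE z_m (g * gen m k)` are
connected by two moves through `mkE y_{m,k} g`. -/
theorem cx_ordered : T.cx.Ordered := by
  refine ⟨T.cx_le_iff, T.cx_lt, ?_⟩
  intro p q l l' hl hl'
  by_cases hnil : l = []
  · subst hnil
    have hpq : p = q := hl
    subst hpq
    cases l' with
    | nil => exact Relation.EqvGen.refl _
    | cons e l' =>
      obtain ⟨h1, h2⟩ := hl'
      have h3 := T.tcy_path_le h2
      have h4 := T.cx_lt e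
      change T.cx.i e = p at h1
      rw [h1] at h4
      exact absurd (h4.trans_le h3) (lt_irrefl _)
  by_cases hnil' : l' = []
  · subst hnil'
    have hpq : p = q := hl'
    subst hpq
    cases l with
    | nil => exact Relation.EqvGen.refl _
    | cons e l =>
      obtain ⟨h1, h2⟩ := hl
      have h3 := T.tcy_path_le h2
      have h4 := T.cx_lt e
      change T.cx.i e = p at h1
      rw [h1] at h4
      exact absurd (h4.trans_le h3) (lt_irrefl _)
  obtain ⟨m, g, h1⟩ := T.tcy_single hl hnil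
  obtain ⟨m', g', h1'⟩ := T.tcy_single hl' hnil'
  obtain ⟨h2, h3⟩ := (T.tcy_move_path h1 p q).1 hl
  obtain ⟨h2', h3'⟩ := (T.tcy_move_path h1' p q).1 hl'
  have e1 : g • T.P m = p := (T.ei_mkE (T.zl m) g).symm.trans h2
  have e2 : g • T.Q m = q := (T.et_mkE (T.zl m) g).symm.trans h3
  have e1' : g' • T.P m' = p := (T.ei_mkE (T.zl m') g').symm.trans h2'
  have e2' : g' • T.Q m' = q := (T.et_mkE (T.zl m') g').symm.trans h3'
  have hm : m = m' := T.uniq m m' (g'⁻¹ * g) (by rw [mul_smul, e1, ← e1', inv_smul_smul])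
    (by rw [mul_smul, e2, ← e2', inv_smul_smul])
  subst hm
  have hle : T.P m ≤ T.Q m := (T.lt m).le
  have hP : (g⁻¹ * g') • T.P m = T.P m := by rw [mul_smul, e1', ← e1, inv_smul_smul]
  have hQ : (g⁻¹ * g') • T.Q m = T.Q m := by rw [mul_smul, e2', ← e2, inv_smul_smul]
  obtain ⟨x, hx, y, hy, hxy⟩ := (S.stabV _ _).1 hP
  obtain ⟨x', hx', y', hy', hxy'⟩ := (S.stabV _ _).1 hQ
  set c := x⁻¹ * x' with hc
  have hc' : c = y * y'⁻¹ := by
    rw [hc, inv_mul_eq_iff_eq_mul, ← mul_assoc, ← hxy, hxy', mul_inv_cancel_right]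
  have hcL : c ∈ S.L (T.Q m) := mul_mem (inv_mem (S.L_mono _ _ hle hx)) hx'
  have hcR : c ∈ S.R (T.P m) := by
    rw [hc']
    exact mul_mem hy (inv_mem (S.R_anti _ _ hle hy'))
  have hg' : g' = g * c * x * y' := by
    have h4 : x * c = c * x := S.comm _ x c hx hcR
    have h5 : x' = x * c := by rw [hc, mul_inv_cancel_left]
    have h6 : g' = g * (x' * y') := by rw [← hxy', mul_inv_cancel_left]
    rw [h6, h5, h4]
    group
  have h7 : T.mkE (T.zl m) (g * c) = T.mkE (T.zl m) g' :=
    T.mkE_eq_iff.2 ⟨rfl, x, hx, y', hy', hg'⟩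
  have h8 := T.tcy_gen m ⟨hcL, hcR⟩ g
  rw [h7] at h8
  exact Relation.EqvGen.trans _ _ _ h1
    (Relation.EqvGen.trans _ _ _ h8 (Relation.EqvGen.symm _ _ h1'))

end Tab

end Pool.Agent.DG
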