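import Pool.Agent.MP_cff99f_al.Gen.ToGDC

/-!
Block Stab: the subgroups `L v`, `R v` for a homogeneous labelled directed 2-complex.
-/

namespace Pool.Agent.DG

universe u v w z

variable {α : Type u} {ι : Type v} {P : Pres α ι} {V E : Type w} [PartialOrder V]
  {G : Type z} [Group G] [MulAction G V] [MulAction G E]

namespace Dcx

/-- `G` acts simply transitively on the paths from `bot` to `top` with a given label. -/
structure Homog (G : Type z) [Group G] [MulAction G V] [MulAction G E] (D : Dcx P V E)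
    (bot top : V) : Prop where
  bot_le : ∀ v, bot ≤ v
  le_top : ∀ v, v ≤ top
  trans : ∀ l l', D.Path bot l top → D.Path bot l' top → l.map D.lab = l'.map D.lab →
    ∃ g : G, l' = l.map (g • ·)
  free : ∀ (g : G) l, D.Path bot l top → l.map (g • ·) = l → g = 1

variable (D : Dcx P V E)

theorem stab_aux_app {g : G} {A B : List E} :
    (A ++ B).map (g • ·) = A ++ B ↔ A.map (g • ·) = A ∧ B.map (g • ·) = B := by
  rw [List.map_append]
  constructor
  · intro h
    exact List.append_inj h (by simp)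
  · rintro ⟨h1, h2⟩
    rw [h1, h2]

theorem stab_aux_move [GAct G D] {g : G} {l l' : List E} (h : D.Move l l') :
    l.map (g • ·) = l ↔ l'.map (g • ·) = l' := by
  obtain ⟨A, j, b, s, B, ⟨p, q, hp⟩, hlab, rfl, rfl⟩ := h
  rw [stab_aux_app, stab_aux_app, stab_aux_app, stab_aux_app]
  have key : s.map (g • ·) = s ↔ (D.flip j b s).map (g • ·) = D.flip j b s := by
    constructor
    · intro h
      rw [← GAct.flip_smul g j b p s q hp hlab, h]
    · intro h
      have hp' : D.Path p (D.flip j b s) q := D.flip_path j b p s q hp hlab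
      have hl' := D.flip_lab j b p s q hp hlab
      have h1 := GAct.flip_smul (D := D) g j (!b) p (D.flip j b s) q hp' hl'
      rw [h, D.flip_flip j b p s q hp hlab] at h1
      exact h1.symm
  rw [key]

theorem fix_path [GAct G D] (hD : D.Ordered) {g : G} {p q : V} {l l' : List E}
    (hl : D.Path p l q) (hg : l.map (g • ·) = l) (hl' : D.Path p l' q) :
    l'.map (g • ·) = l' := by
  have h := hD.conn p q l l' hl hl'
  have key : ∀ m m' : List E, Relation.EqvGen D.Move m m' →
      (m.map (g • ·) = m ↔ m'.map (g • ·) = m') := by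
    intro m m' h
    induction h with
    | rel _ _ h => exact D.stab_aux_move h
    | refl _ => exact Iff.rfl
    | symm _ _ _ ih => exact ih.symm
    | trans _ _ _ _ _ ih1 ih2 => exact ih1.trans ih2
  exact (key l l' h).mp hg

theorem stab_aux_path3 (hD : D.Ordered) {p q : V} {e : E} (he : p ≤ D.i e) (he' : D.t e ≤ q) :
    ∃ l₁ l₂ : List E, D.Path p l₁ (D.i e) ∧ D.Path (D.t e) l₂ q ∧
      D.Path p (l₁ ++ (e :: l₂)) q := by
  obtain ⟨l₁, h1⟩ := (hD.le_iff _ _).mp he
  obtain ⟨l₂, h2⟩ := (hD.le_iff _ _).mp he'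
  exact ⟨l₁, l₂, h1, h2, pathIn_append.mpr ⟨_, h1, rfl, h2⟩⟩

/-- Rigidity: an element fixing the edges of one path from `p` to `q` fixes all edges between `p` and
`q` (moves commute with the action, `Ordered.conn`). -/
theorem fix_edge [GAct G D] (hD : D.Ordered) {g : G} {p q : V} {l : List E} (hl : D.Path p l q)
    (hg : l.map (g • ·) = l) {e : E} (he : p ≤ D.i e) (he' : D.t e ≤ q) : g • e = e := by
  obtain ⟨l₁, l₂, _, _, h3⟩ := D.stab_aux_path3 hD he he'
  have h := D.fix_path hD hl hg h3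
  have h4 := (stab_aux_app.mp h).2
  rw [List.map_cons] at h4
  exact (List.cons.inj h4).1

/-- the edges of a path from `p` to `q` lie between `p` and `q` -/
theorem stab_aux_between (hD : D.Ordered) {p q : V} {l : List E} (hl : D.Path p l q) :
    ∀ e ∈ l, p ≤ D.i e ∧ D.t e ≤ q := by
  induction l generalizing p with
  | nil => simp
  | cons a l ih =>
    obtain ⟨h1, h2⟩ := hl
    subst h1
    intro e he
    rcases List.mem_cons.mp he with rfl | he
    · exact ⟨le_rfl, (hD.le_iff _ _).mpr ⟨l, h2⟩⟩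
    · obtain ⟨h3, h4⟩ := ih h2 e he
      exact ⟨(hD.lt a).le.trans h3, h4⟩

theorem stab_aux_map {g : G} {l : List E} (h : ∀ e ∈ l, g • e = e) : l.map (g • ·) = l := by
  conv_rhs => rw [← List.map_id l]
  exact List.map_congr_left h

theorem stab_aux_mem {g : G} {l : List E} (h : l.map (g • ·) = l) : ∀ e ∈ l, g • e = e := by
  induction l with
  | nil => simp
  | cons a l ih =>
    rw [List.map_cons] at h
    obtain ⟨h1, h2⟩ := List.cons.inj h
    intro e he
    rcases List.mem_cons.mp he with rfl | he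
    · exact h1
    · exact ih h2 e he

/-- Elements fixing all edges above `v`. -/
def Lsub (G : Type z) [Group G] [MulAction G E] (D : Dcx P V E) (v : V) : Subgroup G where
  carrier := {g | ∀ e, v ≤ D.i e → g • e = e}
  mul_mem' := by
    intro a b ha hb e he
    rw [mul_smul, hb e he, ha e he]
  one_mem' := fun e _ => one_smul G e
  inv_mem' := by
    intro a ha e he
    rw [inv_smul_eq_iff, ha e he]

/-- Elements fixing all edges below `v`. -/
def Rsub (G : Type z) [Group G] [MulAction G E] (D : Dcx P V E) (v : V) : Subgroup G where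
  carrier := {g | ∀ e, D.t e ≤ v → g • e = e}
  mul_mem' := by
    intro a b ha hb e he
    rw [mul_smul, hb e he, ha e he]
  one_mem' := fun e _ => one_smul G e
  inv_mem' := by
    intro a ha e he
    rw [inv_smul_eq_iff, ha e he]

theorem mem_Lsub [GAct G D] (hD : D.Ordered) {bot top : V} (h : Homog G D bot top) {g : G} {v : V}
    {l : List E} (hl : D.Path v l top) (hg : l.map (g • ·) = l) : g ∈ Lsub G D v :=
  fun _ he => D.fix_edge hD hl hg he (h.le_top _)

theorem mem_Rsub [GAct G D] (hD : D.Ordered) {bot top : V} (h : Homog G D bot top) {g : G} {v : V}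
    {l : List E} (hl : D.Path bot l v) (hg : l.map (g • ·) = l) : g ∈ Rsub G D v :=
  fun _ he => D.fix_edge hD hl hg (h.bot_le _) he

theorem smul_le' [GAct G D] (hD : D.Ordered) (g : G) (p q : V) (h : p ≤ q) : g • p ≤ g • q := by
  obtain ⟨l, hl⟩ := (hD.le_iff _ _).mp h
  exact (hD.le_iff _ _).mpr ⟨_, D.path_smul g hl⟩

theorem L_smul' [GAct G D] (hD : D.Ordered) (g : G) (v : V) (x : G) :
    x ∈ Lsub G D (g • v) ↔ g⁻¹ * x * g ∈ Lsub G D v := by
  constructor
  · intro hx e he
    have h1 : g • v ≤ D.i (g • e) := by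
      rw [GAct.i_smul (D := D) g e]
      exact D.smul_le' hD g _ _ he
    rw [mul_smul, mul_smul, hx _ h1, inv_smul_smul]
  · intro hx e he
    have h1 : v ≤ D.i (g⁻¹ • e) := by
      rw [GAct.i_smul (D := D) g⁻¹ e]
      have := D.smul_le' hD g⁻¹ _ _ he
      rwa [inv_smul_smul] at this
    have h2 := hx _ h1
    rw [mul_smul, mul_smul, smul_inv_smul] at h2
    exact smul_left_cancel _ h2

theorem R_smul' [GAct G D] (hD : D.Ordered) (g : G) (v : V) (x : G) :
    x ∈ Rsub G D (g • v) ↔ g⁻¹ * x * g ∈ Rsub G D v := by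
  constructor
  · intro hx e he
    have h1 : D.t (g • e) ≤ g • v := by
      rw [GAct.t_smul (D := D) g e]
      exact D.smul_le' hD g _ _ he
    rw [mul_smul, mul_smul, hx _ h1, inv_smul_smul]
  · intro hx e he
    have h1 : D.t (g⁻¹ • e) ≤ v := by
      rw [GAct.t_smul (D := D) g⁻¹ e]
      have := D.smul_le' hD g⁻¹ _ _ he
      rwa [inv_smul_smul] at this
    have h2 := hx _ h1
    rw [mul_smul, mul_smul, smul_inv_smul] at h2
    exact smul_left_cancel _ h2

theorem L_bot' [GAct G D] (hD : D.Ordered) {bot top : V} (h : Homog G D bot top) (x : G)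
    (hx : x ∈ Lsub G D bot) : x = 1 := by
  obtain ⟨l, hl⟩ := (hD.le_iff _ _).mp (h.bot_le top)
  exact h.free x l hl (stab_aux_map fun e _ => hx e (h.bot_le _))

theorem R_top' [GAct G D] (hD : D.Ordered) {bot top : V} (h : Homog G D bot top) (x : G)
    (hx : x ∈ Rsub G D top) : x = 1 := by
  obtain ⟨l, hl⟩ := (hD.le_iff _ _).mp (h.bot_le top)
  exact h.free x l hl (stab_aux_map fun e _ => hx e (h.le_top _))

theorem stab_aux_through (hD : D.Ordered) {bot top : V} (h : Homog G D bot top) (v : V) :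
    ∃ l₁ l₂ : List E, D.Path bot l₁ v ∧ D.Path v l₂ top ∧ D.Path bot (l₁ ++ l₂) top := by
  obtain ⟨l₁, h1⟩ := (hD.le_iff _ _).mp (h.bot_le v)
  obtain ⟨l₂, h2⟩ := (hD.le_iff _ _).mp (h.le_top v)
  exact ⟨l₁, l₂, h1, h2, pathIn_append.mpr ⟨_, h1, h2⟩⟩

theorem LR' [GAct G D] (hD : D.Ordered) {bot top : V} (h : Homog G D bot top) (v : V) (x : G)
    (hx : x ∈ Lsub G D v) (hx' : x ∈ Rsub G D v) : x = 1 := by
  obtain ⟨l₁, l₂, h1, h2, h3⟩ := D.stab_aux_through hD h v
  refine h.free x _ h3 (stab_aux_app.mpr ⟨stab_aux_map fun e he => ?_, stab_aux_map fun e he => ?_⟩)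
  · exact hx' e (D.stab_aux_between hD h1 e he).2
  · exact hx e (D.stab_aux_between hD h2 e he).1

theorem stab_aux_bot [GAct G D] (hD : D.Ordered) {bot top : V} (h : Homog G D bot top) (g : G) :
    g • bot = bot := by
  apply le_antisymm _ (h.bot_le _)
  have := D.smul_le' hD g _ _ (h.bot_le (g⁻¹ • bot))
  rwa [smul_inv_smul] at this

theorem stab_aux_top [GAct G D] (hD : D.Ordered) {bot top : V} (h : Homog G D bot top) (g : G) :
    g • top = top := by
  apply le_antisymm (h.le_top _)
  have := D.smul_le' hD g _ _ (h.le_top (g⁻¹ • top))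
  rwa [smul_inv_smul] at this

theorem stab_aux_L [GAct G D] (hD : D.Ordered) {bot top : V} (h : Homog G D bot top) {v : V}
    {x : G} (hx : x ∈ Lsub G D v) : x • v = v := by
  obtain ⟨l, hl⟩ := (hD.le_iff _ _).mp (h.le_top v)
  cases l with
  | nil =>
    have : v = top := hl
    rw [this]
    exact D.stab_aux_top hD h x
  | cons a l =>
    obtain ⟨h1, _⟩ := hl
    have h2 := hx a (by rw [h1])
    rw [← h1, ← GAct.i_smul (D := D) x a, h2]

theorem stab_aux_R_end {p q : V} {l : List E} (hl : D.Path p l q) (hne : l ≠ []) :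
    ∃ a ∈ l, D.t a = q := by
  induction l generalizing p with
  | nil => exact absurd rfl hne
  | cons a l ih =>
    obtain ⟨_, h2⟩ := hl
    by_cases hl' : l = []
    · subst hl'
      exact ⟨a, List.mem_cons_self, h2⟩
    · obtain ⟨b, hb, hb'⟩ := ih h2 hl'
      exact ⟨b, List.mem_cons_of_mem _ hb, hb'⟩

theorem stab_aux_R [GAct G D] (hD : D.Ordered) {bot top : V} (h : Homog G D bot top) {v : V}
    {x : G} (hx : x ∈ Rsub G D v) : x • v = v := by
  obtain ⟨l, hl⟩ := (hD.le_iff _ _).mp (h.bot_le v)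
  by_cases hne : l = []
  · subst hne
    have : bot = v := hl
    rw [← this]
    exact D.stab_aux_bot hD h x
  · obtain ⟨a, _, ha⟩ := D.stab_aux_R_end hl hne
    have h2 := hx a (by rw [ha])
    rw [← ha, ← GAct.t_smul (D := D) x a, h2]

/-- The commutator fixes a path through `v`. -/
theorem comm' [GAct G D] (hD : D.Ordered) {bot top : V} (h : Homog G D bot top) (v : V) (x y : G)
    (hx : x ∈ Lsub G D v) (hy : y ∈ Rsub G D v) : x * y = y * x := by
  have hxv := D.stab_aux_L hD h hx
  have hyv := D.stab_aux_R hD h hy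
  have hx' := (Lsub G D v).inv_mem hx
  have hy' := (Rsub G D v).inv_mem hy
  have hxv' : x⁻¹ • v = v := by rw [inv_smul_eq_iff, hxv]
  have hyv' : y⁻¹ • v = v := by rw [inv_smul_eq_iff, hyv]
  have hc : x * y * x⁻¹ * y⁻¹ = 1 := by
    apply D.LR' hD h v
    · intro e he
      have h1 : v ≤ D.i (y⁻¹ • e) := by
        rw [GAct.i_smul (D := D) y⁻¹ e]
        have := D.smul_le' hD y⁻¹ _ _ he
        rwa [hyv'] at this
      rw [mul_smul, mul_smul, mul_smul, hx' _ h1, smul_inv_smul, hx _ he]
    · intro e he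
      have h1 : D.t (x⁻¹ • e) ≤ v := by
        rw [GAct.t_smul (D := D) x⁻¹ e]
        have := D.smul_le' hD x⁻¹ _ _ he
        rwa [hxv'] at this
      rw [mul_smul, mul_smul, mul_smul, hy' _ he, hy _ h1, smul_inv_smul]
  have h2 : x * y * x⁻¹ * y⁻¹ = (x * y) * (y * x)⁻¹ := by group
  rw [h2] at hc
  exact mul_inv_eq_one.mp hc

/-- If `g` fixes `v`, take paths `l₁` from `bot` to `v` and `l₂` from `v` to `top`; some `x` maps
`l₁ l₂` to `(g l₁) l₂`, and `g = x (x⁻¹ g)`. -/
theorem stabV' [GAct G D] (hD : D.Ordered) {bot top : V} (h : Homog G D bot top) (v : V) (g : G) :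
    g • v = v ↔ ∃ x ∈ Lsub G D v, ∃ y ∈ Rsub G D v, g = x * y := by
  constructor
  · intro hg
    obtain ⟨l₁, l₂, h1, h2, h3⟩ := D.stab_aux_through hD h v
    have h1' : D.Path bot (l₁.map (g • ·)) v := by
      have := D.path_smul g h1
      rwa [hg, D.stab_aux_bot hD h g] at this
    have h3' : D.Path bot (l₁.map (g • ·) ++ l₂) top := pathIn_append.mpr ⟨_, h1', h2⟩
    obtain ⟨x, hx⟩ := h.trans _ _ h3 h3' (by
      rw [List.map_append, List.map_append, D.map_lab_smul g l₁])
    rw [List.map_append] at hx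
    obtain ⟨hx1, hx2⟩ := List.append_inj hx (by simp)
    refine ⟨x, D.mem_Lsub hD h h2 hx2.symm, x⁻¹ * g, D.mem_Rsub hD h h1 ?_, by group⟩
    apply stab_aux_map
    intro e he
    have h4 : ∀ e ∈ l₁, g • e = x • e := fun e he => List.map_inj_left.mp hx1 e he
    rw [mul_smul, h4 e he, inv_smul_smul]
  · rintro ⟨x, hx, y, hy, rfl⟩
    rw [mul_smul, D.stab_aux_R hD h hy, D.stab_aux_L hD h hx]

theorem stabE' [GAct G D] (hD : D.Ordered) {bot top : V} (h : Homog G D bot top) (e : E) (g : G) :
    g • e = e ↔ ∃ x ∈ Lsub G D (D.i e), ∃ y ∈ Rsub G D (D.t e), g = x * y := by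
  constructor
  · intro hg
    obtain ⟨l₁, l₂, h1, h2, h3⟩ := D.stab_aux_path3 hD (h.bot_le (D.i e)) (h.le_top (D.t e))
    have hgi : g • D.i e = D.i e := by rw [← GAct.i_smul (D := D) g e, hg]
    have h1' : D.Path bot (l₁.map (g • ·)) (D.i e) := by
      have := D.path_smul g h1
      rwa [hgi, D.stab_aux_bot hD h g] at this
    have h3' : D.Path bot (l₁.map (g • ·) ++ (e :: l₂)) top :=
      pathIn_append.mpr ⟨_, h1', rfl, h2⟩
    obtain ⟨x, hx⟩ := h.trans _ _ h3 h3' (by
      rw [List.map_append, List.map_append, D.map_lab_smul g l₁])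
    rw [List.map_append] at hx
    obtain ⟨hx1, hx2⟩ := List.append_inj hx (by simp)
    have hx3 : x • e = e := stab_aux_mem hx2.symm e List.mem_cons_self
    have h5 : D.Path (D.i e) (e :: l₂) top := ⟨rfl, h2⟩
    have h6 : D.Path bot (l₁ ++ [e]) (D.t e) := pathIn_append.mpr ⟨_, h1, rfl, rfl⟩
    refine ⟨x, D.mem_Lsub hD h h5 hx2.symm, x⁻¹ * g, D.mem_Rsub hD h h6 ?_, by group⟩
    apply stab_aux_map
    intro e' he
    rcases List.mem_append.mp he with he | he
    · have h4 : ∀ e ∈ l₁, g • e = x • e := fun e he => List.map_inj_left.mp hx1 e he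
      rw [mul_smul, h4 e' he, inv_smul_smul]
    · rw [List.mem_singleton.mp he, mul_smul, hg, inv_smul_eq_iff, hx3]
  · rintro ⟨x, hx, y, hy, rfl⟩
    rw [mul_smul, hy e le_rfl, hx e le_rfl]

/-- The vertex data of a homogeneous complex. -/
def vdOf [GAct G D] (hD : D.Ordered) {bot top : V} (h : Homog G D bot top) : VD G V where
  bot := bot
  top := top
  L := Lsub G D
  R := Rsub G D
  bot_le := h.bot_le
  le_top := h.le_top
  smul_le := D.smul_le' hD
  L_mono _ _ hpq _ hx e he := hx e (le_trans hpq he)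
  R_anti _ _ hpq _ hx e he := hx e (le_trans he hpq)
  L_smul := D.L_smul' hD
  R_smul := D.R_smul' hD
  L_bot := D.L_bot' hD h
  R_top := D.R_top' hD h
  LR := D.LR' hD h
  comm := D.comm' hD h
  stabV := D.stabV' hD h

/-- The directed complex of a homogeneous labelled directed 2-complex. -/
noncomputable def gdcOf [GAct G D] (hD : D.Ordered) {bot top : V} (h : Homog G D bot top) :
    GDC G V E D.Cell2 :=
  D.toGDC hD (D.vdOf hD h) (D.stabE' hD h)

end Dcx

end Pool.Agent.DG
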