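import Pool.Agent.MP_cff99f_al.Gen.TreeB
import Pool.Agent.MP_cff99f_al.Gen.Stab

/-!
Block TreeC: the action of the diagram group on the universal 2-tree.
-/

namespace Pool.Agent.DG

universe u v w

variable {α : Type u} {ι : Type v} (P : Pres α ι) (x : List α)

/-- The isomorphism of the universal covering with the covering by paths of the tree. -/
noncomputable def tiso : (univCov P x).E ≃ TreeE P x := (exists_iso P x).choose

variable {P x}

theorem tiso_lab (v : (univCov P x).E) :
    (tiso P x v).1.map Prod.fst = (univCov P x).lab v := (exists_iso P x).choose_spec.1 v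

theorem tiso_mv (v : (univCov P x).E) (s : SEdge α ι) (h : s.src P = (univCov P x).lab v) :
    tiso P x ((univCov P x).mv v s) = TreeE.mv P x (tiso P x v) s :=
  (exists_iso P x).choose_spec.2.1 v s h

/-- The action of the diagram group on `TreeE`. -/
noncomputable def tact (g : DiagramGroup P x) (L : TreeE P x) : TreeE P x :=
  tiso P x (g • (tiso P x).symm L)

theorem tact_one (L : TreeE P x) : tact (1 : DiagramGroup P x) L = L := by
  unfold tact
  rw [one_smul, Equiv.apply_symm_apply]

theorem tact_mul (g h : DiagramGroup P x) (L : TreeE P x) :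
    tact (g * h) L = tact g (tact h L) := by
  unfold tact
  rw [Equiv.symm_apply_apply, mul_smul]

theorem tact_lab (g : DiagramGroup P x) (L : TreeE P x) :
    (tact g L).1.map Prod.fst = L.1.map Prod.fst := by
  unfold tact
  rw [tiso_lab, univ_lab_smul, ← tiso_lab, Equiv.apply_symm_apply]

theorem tact_mv (g : DiagramGroup P x) (L : TreeE P x) (s : SEdge α ι)
    (h : s.src P = L.1.map Prod.fst) : tact g (TreeE.mv P x L s) = TreeE.mv P x (tact g L) s := by
  obtain ⟨v, rfl⟩ := (tiso P x).surjective L
  rw [tiso_lab] at h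
  unfold tact
  rw [← tiso_mv v s h, Equiv.symm_apply_apply, Equiv.symm_apply_apply, ← univ_mv_smul,
    tiso_mv _ s (by rw [univ_lab_smul]; exact h)]

theorem tact_free (g : DiagramGroup P x) (L : TreeE P x) (h : tact g L = L) : g = 1 := by
  obtain ⟨v, rfl⟩ := (tiso P x).surjective L
  unfold tact at h
  rw [Equiv.symm_apply_apply] at h
  exact Vert.free g (v : Vert P x) ((tiso P x).injective h)

theorem tact_trans (L L' : TreeE P x) (h : L.1.map Prod.fst = L'.1.map Prod.fst) :
    ∃ g : DiagramGroup P x, tact g L = L' := by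
  obtain ⟨v, rfl⟩ := (tiso P x).surjective L
  obtain ⟨v', rfl⟩ := (tiso P x).surjective L'
  rw [tiso_lab, tiso_lab] at h
  obtain ⟨g, hg⟩ := Vert.trans (v : Vert P x) (v' : Vert P x) h
  refine ⟨g, ?_⟩
  unfold tact
  rw [Equiv.symm_apply_apply]
  exact congrArg (tiso P x) hg

/-! ### auxiliary lemmas -/

theorem tc_length (g : DiagramGroup P x) (L : TreeE P x) : (tact g L).1.length = L.1.length := by
  have := congrArg List.length (tact_lab g L)
  rwa [List.length_map, List.length_map] at this

theorem tc_append {V E : Type*} {i t : E → V} {A B : List E} {p q : V}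
    (h : PathIn i t p (A ++ B) q) : ∃ c, PathIn i t p A c ∧ PathIn i t c B q := by
  induction A generalizing p with
  | nil => exact ⟨p, rfl, h⟩
  | cons e A ih =>
    obtain ⟨h1, h2⟩ := h
    obtain ⟨c, h3, h4⟩ := ih h2
    exact ⟨c, ⟨h1, h3⟩, h4⟩

theorem tc_append' {V E : Type*} {i t : E → V} {A B : List E} {p c q : V}
    (h : PathIn i t p A c) (h' : PathIn i t c B q) : PathIn i t p (A ++ B) q := by
  induction A generalizing p with
  | nil =>
    have h1 : p = c := h
    subst h1
    exact h'
  | cons e A ih => exact ⟨h.1, ih h.2⟩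

theorem tc_end {V E : Type*} {i t : E → V} {A : List E} {p q q' : V}
    (h : PathIn i t p A q) (h' : PathIn i t p A q') : q = q' := by
  induction A generalizing p with
  | nil => exact (show p = q from h).symm.trans h'
  | cons e A ih => exact ih h.2 h'.2

/-- the initial vertex of a path is determined by the path and its end point -/
theorem tc_start {V E : Type*} {i t : E → V} {A : List E} {p p' q : V}
    (h : PathIn i t p A q) (h' : PathIn i t p' A q) : p = p' := by
  cases A with
  | nil => exact (show p = q from h).trans (show p' = q from h').symm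
  | cons e A => exact h.1.symm.trans h'.1

theorem tc_tree_split {A B : List (Ed α ι)} {L : TreeE P x} (h : L.1 = A ++ B) :
    ∃ c, RPath P (VCode.vb 0) A c ∧ RPath P c B (VCode.vb x.length) := by
  have h1 := tree_path L
  rw [h] at h1
  exact tc_append h1

theorem tc_val {A : List (Ed α ι)} {L : TreeE P x} (h : L.1 = A) : ∀ e ∈ A, Val P x e :=
  fun _ he => ⟨L, h ▸ he⟩

theorem tc_ext {L L' : TreeE P x} (h : L.1 = L'.1) : L = L' := Subtype.ext h

/-- The effect of a move on a translate. -/
theorem tc_move (g : DiagramGroup P x) {L L' : TreeE P x} {A s B : List (Ed α ι)} {i : ι} {p : Bool}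
    (hs : s.map Prod.fst = P.side i p) (hL : L.1 = A ++ s ++ B)
    (hL' : L'.1 = A ++ act P i p s ++ B) :
    ∃ A' s' B', (tact g L).1 = A' ++ s' ++ B' ∧ (tact g L').1 = A' ++ act P i p s' ++ B' ∧
      A'.length = A.length ∧ s'.length = s.length ∧ B'.length = B.length ∧
      (act P i p s').length = (act P i p s).length := by
  let σ : SEdge α ι := ⟨A.map Prod.fst, i, B.map Prod.fst, p⟩
  have hσ : σ.src P = L.1.map Prod.fst := by
    rw [hL]
    simp only [List.map_append, hs]
    rfl
  have hmv : TreeE.mv P x L σ = L' := by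
    apply tc_ext
    rw [TreeE.mv_val P x L σ hσ, hL, actList_split P (s := σ) rfl hs, hL']
  have hσ' : σ.src P = (tact g L).1.map Prod.fst := by rw [tact_lab]; exact hσ
  obtain ⟨A', s', B', e1, e2, e3, e4⟩ := exists_split P hσ'
  have hmv' : (tact g L').1 = A' ++ act P i p s' ++ B' := by
    rw [← hmv, tact_mv g L σ hσ, TreeE.mv_val P x _ σ hσ', e1, actList_split P (s := σ) e2 e3]
  have hok : ∀ e ∈ s', Ok P e.2 := fun e he => (tact g L).2.1 e (by rw [e1]; simp [he])
  have hok0 : ∀ e ∈ s, Ok P e.2 := fun e he => L.2.1 e (by rw [hL]; simp [he])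
  have l2 := congrArg List.length e2
  have l3 := congrArg List.length e3
  have l4 := congrArg List.length e4
  have l0 := congrArg List.length hs
  simp only [List.length_map] at l2 l3 l4 l0
  refine ⟨A', s', B', e1, hmv', ?_, ?_, ?_, ?_⟩
  · rw [l2]; simp [σ]
  · rw [l3, l0]
  · rw [l4]; simp [σ]
  · rw [length_act P hok, length_act P hok0]

open Classical in
/-- The tail of a translate, as a function of the beginning. -/
noncomputable def tcTail (g : DiagramGroup P x) (B : List (Ed α ι)) (A : List (Ed α ι)) :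
    List (Ed α ι) :=
  if h : ∃ L : TreeE P x, L.1 = A ++ B then (tact g h.choose).1.drop A.length else []

open Classical in
/-- The beginning of a translate, as a function of the tail. -/
noncomputable def tcHead (g : DiagramGroup P x) (A : List (Ed α ι)) (B : List (Ed α ι)) :
    List (Ed α ι) :=
  if h : ∃ L : TreeE P x, L.1 = A ++ B then (tact g h.choose).1.take A.length else []

theorem tcTail_eq (g : DiagramGroup P x) {A B : List (Ed α ι)} {L : TreeE P x}
    (h : L.1 = A ++ B) : tcTail g B A = (tact g L).1.drop A.length := by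
  unfold tcTail
  have h' : ∃ L : TreeE P x, L.1 = A ++ B := ⟨L, h⟩
  rw [dif_pos h']
  have : h'.choose = L := tc_ext (h'.choose_spec.trans h.symm)
  rw [this]

theorem tcHead_eq (g : DiagramGroup P x) {A B : List (Ed α ι)} {L : TreeE P x}
    (h : L.1 = A ++ B) : tcHead g A B = (tact g L).1.take A.length := by
  unfold tcHead
  have h' : ∃ L : TreeE P x, L.1 = A ++ B := ⟨L, h⟩
  rw [dif_pos h']
  have : h'.choose = L := tc_ext (h'.choose_spec.trans h.symm)
  rw [this]

theorem tc_eqvGen {X Y : Type*} {r : X → X → Prop} (F : X → Y) (h : ∀ a b, r a b → F a = F b)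
    {a b : X} (hab : Relation.EqvGen r a b) : F a = F b := by
  induction hab with
  | rel a b hr => exact h a b hr
  | refl a => rfl
  | symm a b _ ih => exact ih.symm
  | trans a b c _ _ ih1 ih2 => exact ih1.trans ih2

/-- Moves on the left of position `k` do not change the part after it: if `A B`, `A' B` are in `TreeE`
(so `A`, `A'` are parallel) then the translates `g (A B)`, `g (A' B)` have the same tail of length
`B.length` (`val_conn` for `A`, `A'` and `tact_mv`). -/
theorem tact_drop (g : DiagramGroup P x) (L L' : TreeE P x) (A A' B : List (Ed α ι))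
    (h : L.1 = A ++ B) (h' : L'.1 = A' ++ B) :
    (tact g L).1.drop A.length = (tact g L').1.drop A'.length := by
  obtain ⟨c, h1, h2⟩ := tc_tree_split h
  obtain ⟨c', h1', h2'⟩ := tc_tree_split h'
  have hc : c = c' := tc_start h2 h2'
  subst hc
  have hA : ∀ e ∈ A, Val P x e := fun e he => tc_val h e (by simp [he])
  have hB : ∀ e ∈ B, Val P x e := fun e he => tc_val h e (by simp [he])
  have hA' : ∀ e ∈ A', Val P x e := fun e he => tc_val h' e (by simp [he])
  rw [← tcTail_eq g h, ← tcTail_eq g h']
  refine tc_eqvGen (tcTail g B) ?_ (val_conn hA hA' h1 h1')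
  rintro a b ⟨⟨A0, i, p, s, B0, hs, _, hlab, rfl, rfl⟩, ha, hb, hpa, hpb⟩
  obtain ⟨La, hLa⟩ := val_tree (l := A0 ++ s ++ B0 ++ B) (fun e he => by
    rcases List.mem_append.1 he with he | he
    · exact ha e he
    · exact hB e he) (tc_append' hpa h2)
  obtain ⟨Lb, hLb⟩ := val_tree (l := A0 ++ act P i p s ++ B0 ++ B) (fun e he => by
    rcases List.mem_append.1 he with he | he
    · exact hb e he
    · exact hB e he) (tc_append' hpb h2)
  rw [tcTail_eq g hLa, tcTail_eq g hLb]
  obtain ⟨A1, s1, B1, e1, e2, l1, l2, l3, l4⟩ := tc_move g (L := La) (L' := Lb) (A := A0) (s := s)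
    (B := B0 ++ B) hlab (by rw [hLa]; simp only [List.append_assoc])
    (by rw [hLb]; simp only [List.append_assoc])
  rw [e1, e2]
  have k1 : (A0 ++ s ++ B0).length = (A1 ++ s1).length + B0.length := by
    simp only [List.length_append]; omega
  have k2 : (A0 ++ act P i p s ++ B0).length = (A1 ++ act P i p s1).length + B0.length := by
    simp only [List.length_append]; omega
  have k3 : (A1 ++ s1 ++ B1).drop ((A1 ++ s1).length + B0.length) = B1.drop B0.length := by
    rw [← List.drop_drop, List.drop_left]
  have k4 : (A1 ++ act P i p s1 ++ B1).drop ((A1 ++ act P i p s1).length + B0.length) =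
      B1.drop B0.length := by
    rw [← List.drop_drop, List.drop_left]
  rw [k1, k2, k3, k4]

theorem tact_take (g : DiagramGroup P x) (L L' : TreeE P x) (A B B' : List (Ed α ι))
    (h : L.1 = A ++ B) (h' : L'.1 = A ++ B') :
    (tact g L).1.take A.length = (tact g L').1.take A.length := by
  obtain ⟨c, h1, h2⟩ := tc_tree_split h
  obtain ⟨c', h1', h2'⟩ := tc_tree_split h'
  have hc : c = c' := tc_end h1 h1'
  subst hc
  have hA : ∀ e ∈ A, Val P x e := fun e he => tc_val h e (by simp [he])
  have hB : ∀ e ∈ B, Val P x e := fun e he => tc_val h e (by simp [he])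
  have hB' : ∀ e ∈ B', Val P x e := fun e he => tc_val h' e (by simp [he])
  rw [← tcHead_eq g h, ← tcHead_eq g h']
  refine tc_eqvGen (tcHead g A) ?_ (val_conn hB hB' h2 h2')
  rintro a b ⟨⟨A0, i, p, s, B0, hs, _, hlab, rfl, rfl⟩, ha, hb, hpa, hpb⟩
  obtain ⟨La, hLa⟩ := val_tree (l := A ++ (A0 ++ s ++ B0)) (fun e he => by
    rcases List.mem_append.1 he with he | he
    · exact hA e he
    · exact ha e he) (tc_append' h1 hpa)
  obtain ⟨Lb, hLb⟩ := val_tree (l := A ++ (A0 ++ act P i p s ++ B0)) (fun e he => by
    rcases List.mem_append.1 he with he | he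
    · exact hA e he
    · exact hb e he) (tc_append' h1 hpb)
  rw [tcHead_eq g hLa, tcHead_eq g hLb]
  obtain ⟨A1, s1, B1, e1, e2, l1, l2, l3, l4⟩ := tc_move g (L := La) (L' := Lb) (A := A ++ A0)
    (s := s) (B := B0) hlab (by rw [hLa]; simp only [List.append_assoc])
    (by rw [hLb]; simp only [List.append_assoc])
  rw [e1, e2]
  have k1 : A.length ≤ A1.length := by
    rw [l1, List.length_append]; omega
  rw [List.append_assoc, List.append_assoc, List.take_append_of_le_length k1,
    List.take_append_of_le_length k1]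

/-- `e'` is the image of the edge `e` under `g`. -/
def IsImg (g : DiagramGroup P x) (e e' : Ed α ι) : Prop :=
  ∃ (L : TreeE P x) (k : ℕ), L.1[k]? = some e ∧ (tact g L).1[k]? = some e'

theorem IsImg.exists (g : DiagramGroup P x) (e : TE P x) : ∃ e' : TE P x, IsImg g e.1 e'.1 := by
  obtain ⟨e, L, he⟩ := e
  obtain ⟨k, hk, hke⟩ := List.getElem_of_mem he
  have hk' : k < (tact g L).1.length := by rw [tc_length]; exact hk
  refine ⟨⟨(tact g L).1[k], tact g L, List.getElem_mem hk'⟩, L, k, ?_, ?_⟩
  · rw [List.getElem?_eq_getElem hk, hke]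
  · exact List.getElem?_eq_getElem hk'

theorem tc_split_at {L : List (Ed α ι)} {k : ℕ} {e : Ed α ι} (h : L[k]? = some e) :
    ∃ A B, L = A ++ e :: B ∧ A.length = k := by
  obtain ⟨hk, hke⟩ := List.getElem?_eq_some_iff.1 h
  refine ⟨L.take k, L.drop (k + 1), ?_, ?_⟩
  · rw [← hke, ← List.drop_eq_getElem_cons hk, List.take_append_drop]
  · rw [List.length_take]; omega

/-- Let `L = A e B`, `L' = A' e B'`. Then `A e B'` is in `TreeE` (`val_tree`); compare `L` with it by
`tact_take` and it with `L'` by `tact_drop`. -/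
theorem IsImg.unique {g : DiagramGroup P x} {e e' e'' : Ed α ι} (h : IsImg g e e')
    (h' : IsImg g e e'') : e' = e'' := by
  obtain ⟨L, k, h1, h2⟩ := h
  obtain ⟨L', k', h1', h2'⟩ := h'
  obtain ⟨A, B, hL, hA⟩ := tc_split_at h1
  obtain ⟨A', B', hL', hA'⟩ := tc_split_at h1'
  obtain ⟨c, p1, p2⟩ := tc_tree_split hL
  obtain ⟨c', p1', p2'⟩ := tc_tree_split hL'
  have hc : c = c' := p2.1.symm.trans p2'.1
  subst hc
  obtain ⟨M, hM⟩ := val_tree (P := P) (x := x) (l := A ++ e :: B') (fun f hf => by
    rcases List.mem_append.1 hf with hf | hf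
    · exact tc_val hL f (by simp [hf])
    · exact tc_val hL' f (List.mem_append_right _ hf)) (tc_append' p1 p2')
  have t1 := tact_take g L M (A ++ [e]) B B' (by rw [hL]; simp) (by rw [hM]; simp)
  have t2 := tact_drop g M L' A A' (e :: B') hM hL'
  have s1 : ((tact g L).1.take (A ++ [e]).length)[k]? = some e' := by
    rw [List.getElem?_take_of_lt (by simp [hA]), h2]
  have s2 : (tact g M).1[k]? = some e' := by
    rw [t1, List.getElem?_take_of_lt (by simp [hA])] at s1
    exact s1
  have s3 : ((tact g M).1.drop A.length)[0]? = some e' := by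
    rw [List.getElem?_drop, hA, add_zero, s2]
  have s4 : ((tact g L').1.drop A'.length)[0]? = some e'' := by
    rw [List.getElem?_drop, hA', add_zero, h2']
  rw [t2, s4] at s3
  exact (Option.some.inj s3).symm

theorem tc_img_comp {g h : DiagramGroup P x} {e e' e'' : Ed α ι} (h1 : IsImg h e e')
    (h2 : IsImg g e' e'') : IsImg (g * h) e e'' := by
  obtain ⟨L, k, a1, a2⟩ := h1
  have hk : k < (tact g (tact h L)).1.length := by
    rw [tc_length]
    exact (List.getElem?_eq_some_iff.1 a2).1
  have h3 : IsImg g e' (tact g (tact h L)).1[k] := ⟨tact h L, k, a2, List.getElem?_eq_getElem hk⟩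
  rw [h2.unique h3]
  exact ⟨L, k, a1, by rw [tact_mul]; exact List.getElem?_eq_getElem hk⟩

noncomputable instance : MulAction (DiagramGroup P x) (TE P x) where
  smul g e := (IsImg.exists g e).choose
  one_smul e := by
    apply Subtype.ext
    have h1 := (IsImg.exists (1 : DiagramGroup P x) e).choose_spec
    obtain ⟨L, he⟩ := e.2
    obtain ⟨k, hk, hke⟩ := List.getElem_of_mem he
    have h2 : IsImg (1 : DiagramGroup P x) e.1 e.1 :=
      ⟨L, k, by rw [List.getElem?_eq_getElem hk, hke],
        by rw [tact_one, List.getElem?_eq_getElem hk, hke]⟩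
    exact h1.unique h2
  mul_smul g h e := by
    apply Subtype.ext
    have h1 := (IsImg.exists (g * h) e).choose_spec
    have h2 := (IsImg.exists h e).choose_spec
    have h3 := (IsImg.exists g (IsImg.exists h e).choose).choose_spec
    exact h1.unique (tc_img_comp h2 h3)

theorem smul_spec (g : DiagramGroup P x) (e : TE P x) : IsImg g e.1 (g • e).1 :=
  (IsImg.exists g e).choose_spec

/-- The underlying edge. -/
def tcv (e : TE P x) : Ed α ι := e.1

theorem tcv_inj : Function.Injective (tcv : TE P x → Ed α ι) := fun _ _ h => Subtype.ext h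

theorem tc_map_smul (g : DiagramGroup P x) (l : List (TE P x)) (L : TreeE P x)
    (h : l.map tcv = L.1) : (l.map (g • ·)).map tcv = (tact g L).1 := by
  have hlen : l.length = L.1.length := by rw [← h, List.length_map]
  apply List.ext_getElem
  · rw [List.length_map, List.length_map, tc_length, hlen]
  · intro k hk hk'
    rw [List.getElem_map, List.getElem_map]
    have hkl : k < l.length := by rw [List.length_map, List.length_map] at hk; exact hk
    have h1 : IsImg g (tcv l[k]) (tact g L).1[k] := by
      refine ⟨L, k, ?_, List.getElem?_eq_getElem hk'⟩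
      rw [← h, List.getElem?_map, List.getElem?_eq_getElem hkl]
      rfl
    exact (smul_spec g l[k]).unique h1

/-- The elementwise action on an element of `TreeE` is `tact`. -/
theorem map_smul_tree (g : DiagramGroup P x) (l : List (TE P x)) (L : TreeE P x)
    (h : l.map Subtype.val = L.1) : (l.map (g • ·)).map Subtype.val = (tact g L).1 :=
  tc_map_smul g l L h

/-- The vertex at position `k` of a list of edges. -/
def vert (L : List (Ed α ι)) (k : ℕ) : VCode α ι :=
  if k = 0 then VCode.vb 0 else match L[k - 1]? with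
    | some e => e.2.tv P
    | none => VCode.vb 0

/-- `c'` is the image of the vertex `c` under `g`. -/
def IsImgV (g : DiagramGroup P x) (c c' : VCode α ι) : Prop :=
  ∃ (L : TreeE P x) (k : ℕ), k ≤ L.1.length ∧ vert (P := P) L.1 k = c ∧
    vert (P := P) (tact g L).1 k = c'

theorem tc_vert_succ {L : List (Ed α ι)} {k : ℕ} {e : Ed α ι} (h : L[k]? = some e) :
    vert (P := P) L (k + 1) = e.2.tv P := by
  unfold vert
  rw [if_neg (Nat.succ_ne_zero k)]
  simp only [Nat.add_sub_cancel, h]

theorem tc_vert_take (L : List (Ed α ι)) (k : ℕ) :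
    vert (P := P) (L.take k) k = vert (P := P) L k := by
  unfold vert
  by_cases hk : k = 0
  · rw [if_pos hk, if_pos hk]
  · rw [if_neg hk, if_neg hk, List.getElem?_take_of_lt (by omega)]

/-- the vertex at the end of a path -/
theorem tc_vert_path {A : List (Ed α ι)} {c : VCode α ι} (h : RPath P (VCode.vb 0) A c) :
    vert (P := P) A A.length = c := by
  rcases List.eq_nil_or_concat A with rfl | ⟨A', e, rfl⟩
  · have h1 : VCode.vb 0 = c := h
    rw [← h1]; rfl
  · rw [List.concat_eq_append] at h ⊢
    obtain ⟨d, _, h2⟩ := tc_append h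
    have h3 : e.2.tv P = c := h2.2
    rw [List.length_append, List.length_singleton, tc_vert_succ (e := e), h3]
    simp

theorem tc_vert_split {L : TreeE P x} {A B : List (Ed α ι)} (h : L.1 = A ++ B) :
    RPath P (VCode.vb 0) A (vert (P := P) L.1 A.length) ∧
      RPath P (vert (P := P) L.1 A.length) B (VCode.vb x.length) := by
  obtain ⟨c, h1, h2⟩ := tc_tree_split h
  have h3 : vert (P := P) L.1 A.length = c := by
    rw [← tc_vert_path h1, ← tc_vert_take, h, List.take_left]
  rw [h3]
  exact ⟨h1, h2⟩

theorem IsImgV.exists (g : DiagramGroup P x) (c : TV P x) : ∃ c' : TV P x, IsImgV g c.1 c'.1 := by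
  obtain ⟨c, hc⟩ := c
  rcases hc with rfl | ⟨e, ⟨L, he⟩, rfl⟩
  · exact ⟨TV.bot P x, TreeE.base P x, 0, Nat.zero_le _, rfl, rfl⟩
  · obtain ⟨k, hk, hke⟩ := List.getElem_of_mem he
    have hk' : k < (tact g L).1.length := by rw [tc_length]; exact hk
    refine ⟨⟨((tact g L).1[k]).2.tv P, Or.inr ⟨_, ⟨tact g L, List.getElem_mem hk'⟩, rfl⟩⟩,
      L, k + 1, hk, ?_, ?_⟩
    · rw [tc_vert_succ (e := e)]
      rw [List.getElem?_eq_getElem hk, hke]
    · exact tc_vert_succ (List.getElem?_eq_getElem hk')

/-- Let `L = A B`, `L' = A' B'` with `A`, `A'` ending at the vertex `c`. Then `A B'` is in `TreeE`;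
use `tact_take`, `tact_drop` (the vertex is the end point of the edge before it and the initial point
of the edge after it). -/
theorem IsImgV.unique {g : DiagramGroup P x} {c c' c'' : VCode α ι} (h : IsImgV g c c')
    (h' : IsImgV g c c'') : c' = c'' := by
  obtain ⟨L, k, hk, h1, h2⟩ := h
  obtain ⟨L', k', hk', h1', h2'⟩ := h'
  set A := L.1.take k with hA
  set B := L.1.drop k with hB
  set A' := L'.1.take k' with hA'
  set B' := L'.1.drop k' with hB'
  have hL : L.1 = A ++ B := (List.take_append_drop k L.1).symm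
  have hL' : L'.1 = A' ++ B' := (List.take_append_drop k' L'.1).symm
  have lA : A.length = k := by rw [hA, List.length_take]; omega
  have lA' : A'.length = k' := by rw [hA', List.length_take]; omega
  obtain ⟨p1, p2⟩ := tc_vert_split hL
  obtain ⟨p1', p2'⟩ := tc_vert_split hL'
  rw [lA, h1] at p1 p2
  rw [lA', h1'] at p1' p2'
  obtain ⟨M, hM⟩ := val_tree (P := P) (x := x) (l := A ++ B') (fun f hf => by
    rcases List.mem_append.1 hf with hf | hf
    · exact tc_val hL f (by simp [hf])
    · exact tc_val hL' f (List.mem_append_right _ hf)) (tc_append' p1 p2')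
  have t1 := tact_take g L M A B B' hL hM
  have t2 := tact_drop g M L' A A' B' hM hL'
  rw [lA] at t1 t2
  rw [lA'] at t2
  have lM : k ≤ (tact g M).1.length := by
    rw [tc_length, hM, List.length_append, lA]; omega
  have lT : k' ≤ (tact g L').1.length := by rw [tc_length]; exact hk'
  have v1 : vert (P := P) (tact g M).1 k = c' := by
    rw [← h2, ← tc_vert_take, ← t1, tc_vert_take]
  have q1 := (tc_vert_split (L := tact g M) (A := (tact g M).1.take k) (B := (tact g M).1.drop k)
    (List.take_append_drop k _).symm).2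
  have q2 := (tc_vert_split (L := tact g L') (A := (tact g L').1.take k')
    (B := (tact g L').1.drop k') (List.take_append_drop k' _).symm).2
  rw [List.length_take, Nat.min_eq_left lM, v1, t2] at q1
  rw [List.length_take, Nat.min_eq_left lT, h2'] at q2
  exact tc_start q1 q2

theorem tc_imgV_comp {g h : DiagramGroup P x} {e e' e'' : VCode α ι} (h1 : IsImgV h e e')
    (h2 : IsImgV g e' e'') : IsImgV (g * h) e e'' := by
  obtain ⟨L, k, hk, a1, a2⟩ := h1
  have h3 : IsImgV g e' (vert (P := P) (tact g (tact h L)).1 k) :=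
    ⟨tact h L, k, by rw [tc_length]; exact hk, a2, rfl⟩
  rw [h2.unique h3]
  exact ⟨L, k, hk, a1, by rw [tact_mul]⟩

theorem tc_imgV_one (c : TV P x) : IsImgV (1 : DiagramGroup P x) c.1 c.1 := by
  obtain ⟨c', L, k, hk, h1, h2⟩ := IsImgV.exists (1 : DiagramGroup P x) c
  exact ⟨L, k, hk, h1, by rw [tact_one]; exact h1⟩

noncomputable instance : MulAction (DiagramGroup P x) (TV P x) where
  smul g c := (IsImgV.exists g c).choose
  one_smul c := Subtype.ext
    ((IsImgV.exists (1 : DiagramGroup P x) c).choose_spec.unique (tc_imgV_one c))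
  mul_smul g h c := Subtype.ext
    ((IsImgV.exists (g * h) c).choose_spec.unique
      (tc_imgV_comp (IsImgV.exists h c).choose_spec
        (IsImgV.exists g (IsImgV.exists h c).choose).choose_spec))

theorem smulV_spec (g : DiagramGroup P x) (c : TV P x) : IsImgV g c.1 (g • c).1 :=
  (IsImgV.exists g c).choose_spec

theorem tc_i_smul (g : DiagramGroup P x) (e : TE P x) : TE.iv (g • e) = g • TE.iv e := by
  apply Subtype.ext
  obtain ⟨L, k, h1, h2⟩ := smul_spec g e
  obtain ⟨A, B, hL, hA⟩ := tc_split_at h1
  obtain ⟨A', B', hL', hA'⟩ := tc_split_at h2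
  have p1 := (tc_vert_split hL).2
  have p2 := (tc_vert_split hL').2
  have h3 : IsImgV g e.1.2.iv (g • e).1.2.iv := by
    refine ⟨L, k, ?_, ?_, ?_⟩
    · rw [hL, List.length_append, hA]; omega
    · rw [← hA]; exact p1.1.symm
    · rw [← hA']; exact p2.1.symm
  exact h3.unique (smulV_spec g (TE.iv e))

theorem tc_t_smul (g : DiagramGroup P x) (e : TE P x) : TE.tv (g • e) = g • TE.tv e := by
  apply Subtype.ext
  obtain ⟨L, k, h1, h2⟩ := smul_spec g e
  have h3 : IsImgV g (e.1.2.tv P) ((g • e).1.2.tv P) := by
    refine ⟨L, k + 1, ?_, tc_vert_succ h1, tc_vert_succ h2⟩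
    exact (List.getElem?_eq_some_iff.1 h1).1
  exact h3.unique (smulV_spec g (TE.tv e))

theorem tc_lab_smul (g : DiagramGroup P x) (e : TE P x) : (g • e).1.1 = e.1.1 := by
  obtain ⟨L, k, h1, h2⟩ := smul_spec g e
  have h3 := congrArg (fun l => l[k]?) (tact_lab g L)
  simp only [List.getElem?_map, h1, h2, Option.map_some, Option.some.injEq] at h3
  exact h3

theorem tc_path_smul (g : DiagramGroup P x) {p q : TV P x} {l : List (TE P x)}
    (h : PathIn TE.iv TE.tv p l q) : PathIn TE.iv TE.tv (g • p) (l.map (g • ·)) (g • q) := by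
  induction l generalizing p with
  | nil => exact congrArg (g • ·) h
  | cons e l ih =>
    obtain ⟨h1, h2⟩ := h
    subst h1
    refine ⟨tc_i_smul g e, ?_⟩
    have := ih h2
    change PathIn TE.iv TE.tv (TE.tv (g • e)) _ _
    rw [tc_t_smul g e]
    exact this

theorem tc_map_inj {l l' : List (TE P x)} (h : l.map tcv = l'.map tcv) : l = l' :=
  List.map_injective_iff.2 tcv_inj h

theorem tc_lift (l : List (Ed α ι)) (h : ∀ e ∈ l, Val P x e) :
    ∃ l' : List (TE P x), l'.map tcv = l := by
  induction l with
  | nil => exact ⟨[], rfl⟩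
  | cons e l ih =>
    obtain ⟨l', hl'⟩ := ih fun e' he' => h e' (List.mem_cons_of_mem _ he')
    refine ⟨(⟨e, h e List.mem_cons_self⟩ : TE P x) :: l', ?_⟩
    show e :: l'.map tcv = e :: l
    rw [hl']

theorem tc_flip_smul (g : DiagramGroup P x) (j : ι) (b : Bool) (p : TV P x) (l : List (TE P x))
    (q : TV P x) (hl : PathIn TE.iv TE.tv p l q) (hlab : l.map (fun e => e.1.1) = P.side j b) :
    tflip P x j b (l.map (g • ·)) = (tflip P x j b l).map (g • ·) := by
  have hne : l.map tcv ≠ [] := by
    intro h0
    have : l = [] := List.map_eq_nil_iff.1 h0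
    subst this
    exact P.side_ne j b hlab.symm
  have hval : ∀ e ∈ l.map tcv, Val P x e := by
    intro e he
    obtain ⟨e', _, rfl⟩ := List.mem_map.1 he
    exact e'.2
  obtain ⟨A, B, L, hL⟩ := val_extend hval (tpath_iff.1 hl) hne
  obtain ⟨AA, hAA⟩ := tc_lift A (fun e he => tc_val hL e (by simp [he]))
  obtain ⟨BB, hBB⟩ := tc_lift B (fun e he => tc_val hL e (by simp [he]))
  subst hAA hBB
  have hfl : (tflip P x j b l).map tcv = act P j b (l.map tcv) := map_tflip hl hlab
  have hlab' : (l.map tcv).map Prod.fst = P.side j b := by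
    rw [List.map_map]; exact hlab
  let σ : SEdge α ι := ⟨(AA.map tcv).map Prod.fst, j, (BB.map tcv).map Prod.fst, b⟩
  have hσ : σ.src P = L.1.map Prod.fst := by
    rw [hL]
    simp only [List.map_append]
    rw [hlab']
    rfl
  have hmv : (TreeE.mv P x L σ).1 = (AA ++ tflip P x j b l ++ BB).map tcv := by
    rw [TreeE.mv_val P x L σ hσ, hL, actList_split P (s := σ) rfl hlab', List.map_append,
      List.map_append, hfl]
  -- the translates
  have hgl : (l.map (g • ·)).map (fun e : TE P x => e.1.1) = P.side j b := by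
    rw [List.map_map, ← hlab]
    apply List.map_congr_left
    intro e _
    exact tc_lab_smul g e
  have hgfl : (tflip P x j b (l.map (g • ·))).map tcv = act P j b ((l.map (g • ·)).map tcv) :=
    map_tflip (tc_path_smul g hl) hgl
  have hgL : (tact g L).1 = (AA.map (g • ·)).map tcv ++ (l.map (g • ·)).map tcv ++
      (BB.map (g • ·)).map tcv := by
    rw [← tc_map_smul g (AA ++ l ++ BB) L (by rw [hL]; simp only [List.map_append])]
    simp only [List.map_append]
  have hgM := tc_map_smul g (AA ++ tflip P x j b l ++ BB) (TreeE.mv P x L σ) hmv.symm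
  have hσ' : σ.src P = (tact g L).1.map Prod.fst := by rw [tact_lab]; exact hσ
  have hA1 : ((AA.map (g • ·)).map tcv).map Prod.fst = σ.pre := by
    show _ = (AA.map tcv).map Prod.fst
    rw [List.map_map, List.map_map, List.map_map]
    apply List.map_congr_left
    intro e _
    exact tc_lab_smul g e
  have hl1 : ((l.map (g • ·)).map tcv).map Prod.fst = P.side σ.i σ.pos := by
    rw [List.map_map]; exact hgl
  have hmv2 : (tact g (TreeE.mv P x L σ)).1 = (AA.map (g • ·)).map tcv ++
      (tflip P x j b (l.map (g • ·))).map tcv ++ (BB.map (g • ·)).map tcv := by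
    rw [tact_mv g L σ hσ, TreeE.mv_val P x _ σ hσ', hgL, actList_split P (s := σ) hA1 hl1, hgfl]
  rw [hmv2] at hgM
  simp only [List.map_append] at hgM
  have h5 := List.append_cancel_right hgM
  have h6 := List.append_cancel_left h5
  exact (tc_map_inj h6).symm

instance : GAct (DiagramGroup P x) (treeD P x) where
  i_smul := tc_i_smul
  t_smul := tc_t_smul
  lab_smul := tc_lab_smul
  flip_smul := tc_flip_smul

theorem tree_homog : Dcx.Homog (DiagramGroup P x) (treeD P x) (TV.bot P x) (TV.top P x) where
  bot_le := tree_bot_le P x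
  le_top := tree_le_top P x
  trans := by
    intro l l' hl hl' hlab
    obtain ⟨f, hf, _⟩ := exists_treeE_equiv P x
    have h1 : (f ⟨l, hl⟩).1 = l.map tcv := hf ⟨l, hl⟩
    have h2 : (f ⟨l', hl'⟩).1 = l'.map tcv := hf ⟨l', hl'⟩
    have hlab' : (f ⟨l, hl⟩).1.map Prod.fst = (f ⟨l', hl'⟩).1.map Prod.fst := by
      rw [h1, h2, List.map_map, List.map_map]
      exact hlab
    obtain ⟨g, hg⟩ := tact_trans _ _ hlab'
    refine ⟨g, ?_⟩
    apply tc_map_inj
    rw [tc_map_smul g l _ h1.symm, hg, h2]
  free := by
    intro g l hl hg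
    obtain ⟨f, hf, _⟩ := exists_treeE_equiv P x
    have h1 : (f ⟨l, hl⟩).1 = l.map tcv := hf ⟨l, hl⟩
    refine tact_free g (f ⟨l, hl⟩) ?_
    apply tc_ext
    rw [← tc_map_smul g l _ h1.symm, hg, h1]

end Pool.Agent.DG
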