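import Pool.Agent.MP_cff99f_al.Gen.Base

/-!
Block Triv: the trivial group.
-/

namespace Pool.Agent.DG

universe w

theorem typeFP_of_subsingleton (G : Type w) [Group G] [Subsingleton G] (n : ℕ) : TypeFP n G := by
  classical
  let X : ℕ → Type := fun k => match k with
    | 0 => PUnit
    | _ + 1 => PEmpty
  let a : ∀ k, MulAction G (X k) := fun k =>
    { smul := fun _ x => x
      one_smul := fun _ => rfl
      mul_smul := fun _ _ _ => rfl }
  have hs : ∀ k, Subsingleton (X k) := by
    intro k
    cases k with
    | zero => exact inferInstanceAs (Subsingleton PUnit)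
    | succ k => exact inferInstanceAs (Subsingleton PEmpty)
  have he : ∀ k, IsEmpty (X (k + 1)) := fun k => inferInstanceAs (IsEmpty PEmpty)
  refine typeFP_of_complex G X (fun k g x _ => Subsingleton.elim _ _) ?_ ⟨PUnit.unit⟩ (fun _ => 0)
    (by simp) ?_ ?_ n
  · intro k
    have : Finite (X k) := Finite.of_subsingleton
    exact Quotient.finite _
  · intro z
    have hz : z = Finsupp.single PUnit.unit (z PUnit.unit) := by
      apply Finsupp.ext
      intro x
      have hx : x = PUnit.unit := Subsingleton.elim _ _
      rw [hx]; simp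
    constructor
    · intro h
      refine ⟨0, ?_⟩
      rw [hz, FPAlg.sumCoeff_single] at h
      rw [hz, h]; simp
    · rintro ⟨y, hy⟩
      rw [← hy]; simp
  · intro k z
    have : z = 0 := Subsingleton.elim _ _
    subst this
    exact ⟨fun _ => ⟨0, rfl⟩, fun _ => rfl⟩

end Pool.Agent.DG
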