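import Pool.Agent.MP_cff99f_al.Gen.SPrime
import Pool.Agent.MP_cff99f_al.Gen.TCy
import Pool.Agent.MP_cff99f_al.Gen.RB
import Pool.Agent.MP_cff99f_al.Gen.LemmaA
import Pool.Agent.MP_cff99f_al.Gen.TreeC
import Pool.Agent.MP_cff99f_al.Gen.Triv

/-!
The main theorem in the general case.
-/

namespace Pool.Agent.DG

universe u v w u₂ u₃

theorem TypeFP.mono' {G : Type w} [Group G] {m n : ℕ} (hmn : m ≤ n) (h : TypeFP n G) :
    TypeFP m G := by
  obtain ⟨k, ε, d, h1, h2, h3, h4⟩ := h
  exact ⟨k, ε, d, h1, h2, fun h => h3 (by omega), fun i hi => h4 i (by omega)⟩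

/-- Pairs of closed vertices modulo the group. -/
theorem PP.fin_pairs {G : Type w} {V : Type w} [Group G] [PartialOrder V] [MulAction G V]
    {T : VD G V} {Q : SubMulAction G V} (h : PP T Q) :
    ∃ F : Finset (Q × Q), ∀ p q : Q, p ≤ q → ∃ g : G, (g • p, g • q) ∈ F := by
  classical
  obtain ⟨S, hS⟩ := h.fin
  refine ⟨S.preimage (fun pq : Q × Q => (pq.1.1, pq.2.1)) ?_, ?_⟩
  · rintro ⟨p, q⟩ _ ⟨p', q'⟩ _ h
    simp only [Prod.mk.injEq] at h
    exact Prod.ext (Subtype.ext h.1) (Subtype.ext h.2)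
  · intro p q hpq
    obtain ⟨g, hg⟩ := hS p.1 p.2 q.1 q.2 hpq
    refine ⟨g, ?_⟩
    rw [Finset.mem_preimage]
    exact hg

/-- A single letter `z` is irreducible. -/
theorem Tab.irr_zl {G W : Type w} [Group G] [PartialOrder W] [MulAction G W] {S : VD G W}
    (T : Tab S) (m : T.M) : Irr T.pres [T.zl m] := by
  rintro y ⟨a, j, b, h, -⟩
  rcases j with mm | yk
  · have := congrArg List.length h
    simp [Tab.pres] at this
    omega
  · have h1 : T.yl yk.1.1 yk.1.2 ∈ [T.zl m] := by
      rw [h]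
      simp [Tab.pres]
    rw [List.mem_singleton] at h1
    simp [Tab.yl, Tab.zl] at h1
    obtain ⟨rfl, h1⟩ := h1

/-- The abstract form of the main theorem. -/
theorem typeFP_of_gdc {G V : Type w} {E : Type u₂} {F : Type u₃} [Group G] [PartialOrder V]
    [MulAction G V] [MulAction G E] [MulAction G F] [Nontrivial G] (T : GDC G V E F)
    (hinj : T.Inj) (hD : ∀ p q, p ≤ q → (T.L q).FG → (T.R p).FG → (T.L q ⊓ T.R p).FG)
    (h2 : TypeFP 2 G) (n : ℕ) : TypeFP n G := by
  have hG : Group.FG G := fg_of_typeFP_one G (h2.mono' (by norm_num))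
  have hQ : PP T.toVD T.Q := T.pp_Q hinj h2 hD
  let S : VD G T.Q := hQ.vd hG
  have hbt : S.bot ≠ S.top := by
    intro h
    obtain ⟨g, hg⟩ := exists_ne (1 : G)
    exact hg (S.L_bot g (h ▸ S.mem_L_top g))
  obtain ⟨tab⟩ := exists_tab S hQ.fin_pairs (fun p q hpq => hQ.D_fg p.1 p.2 q.1 q.2 hpq)
  have h : Dcx.Fin2 G tab.cx S :=
    { complete := tab.complete_pres
      ord := tab.cx_ordered
      stabE := tab.cx_stab
      trans := by
        intro l l' hl hl' hlab
        refine tab.cx_trans hl hl' ?_ hlab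
        rintro rfl
        exact hbt hl
      crit_fin := by
        intro k
        refine (tab.finite_crit k).subset ?_
        rintro q ⟨h1, h2, l, hl, hl'⟩
        exact ⟨h1, h2, hl' ▸ tab.cx_compW hl⟩
      crit_zero := by
        obtain ⟨m, g, h1, h2⟩ := tab.ex S.bot S.top (lt_of_le_of_ne (S.bot_le _) hbt)
        refine ⟨[tab.mkE (tab.zl m) g], ⟨?_, ?_⟩, tab.irr_zl m⟩
        · exact (tab.ei_mkE _ _).trans h1
        · exact (tab.et_mkE _ _).trans h2 }
  let U : GDC G T.Q tab.Edg tab.cx.Cell2 := tab.cx.toGDC tab.cx_ordered S tab.cx_stab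
  obtain ⟨fs, hf, hgen⟩ := h.cycles_fg h2
  obtain ⟨s', h1, h3, h4, h5⟩ := exists_sprime T hinj T.Q hQ U (fun _ => rfl) (fun _ => rfl)
    tab.cx_finite_orbits.1 tab.cx_finite_orbits.2 fs hf hgen
  exact h.typeFP s' h1 h3 h4 h5 n

/-- Every diagram group of type `FP_2` is of type `FP_n` for all `n`. -/
theorem main_general {α : Type u} {ι : Type v} (P : Pres α ι) (x : List α)
    (h : TypeFP 2 (DiagramGroup P x)) (n : ℕ) : TypeFP n (DiagramGroup P x) := by
  rcases subsingleton_or_nontrivial (DiagramGroup P x) with hs | hn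
  · exact typeFP_of_subsingleton _ n
  · have hinj : ((treeD P x).gdcOf (tree_ordered P x) (tree_homog (P := P) (x := x))).Inj := by
      intro k hk
      exact (treeD P x).injective_of_h1 (tree_ordered P x) (TV.bot P x) (TV.top P x)
        (tree_bot_le P x) (tree_le_top P x) (tree_h1 P x) k hk
    refine typeFP_of_gdc ((treeD P x).gdcOf (tree_ordered P x) (tree_homog (P := P) (x := x)))
      hinj ?_ h n
    intro p q hpq hL hR
    exact (treeD P x).inter_fg (tree_ordered P x) tree_homog hinj p q hpq hL hR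

end Pool.Agent.DG
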