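import Pool.Agent.MP_cff99f_al.Gen.Base
import Pool.Agent.MP_cff99f_al.Cov

/-!
Block Mono: homotopy of paths in the Squier complex and multiplication by words.
-/

namespace Pool.Agent.DG

universe u v w

variable {α : Type u} {ι : Type v}

/-- Multiplying an edge by words on both sides. -/
def SEdge.wh (a b : List α) (s : SEdge α ι) : SEdge α ι := ⟨a ++ s.pre, s.i, s.post ++ b, s.pos⟩

/-- Multiplying a path by words on both sides. -/
def whL (a b : List α) (l : List (SEdge α ι)) : List (SEdge α ι) := l.map (SEdge.wh a b)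

/-- The reversed path. -/
def invL (l : List (SEdge α ι)) : List (SEdge α ι) := (l.map SEdge.inv).reverse

/-- Homotopy of paths from `x` to `y`. -/
def Htp (P : Pres α ι) (x : List α) (l l' : List (SEdge α ι)) (y : List α) : Prop :=
  ∃ (h : IsPath P x l y) (h' : IsPath P x l' y), Hpt.mk P l h = Hpt.mk P l' h'

variable {P : Pres α ι}

theorem Htp.refl {x y : List α} {l : List (SEdge α ι)} (h : IsPath P x l y) : Htp P x l l y :=
  ⟨h, h, rfl⟩

theorem Htp.symm {x y : List α} {l l' : List (SEdge α ι)} (h : Htp P x l l' y) :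
    Htp P x l' l y := by
  obtain ⟨h1, h2, e⟩ := h
  exact ⟨h2, h1, e.symm⟩

theorem Htp.trans {x y : List α} {l l' l'' : List (SEdge α ι)} (h : Htp P x l l' y)
    (h' : Htp P x l' l'' y) : Htp P x l l'' y := by
  obtain ⟨h1, h2, e⟩ := h
  obtain ⟨h3, h4, e'⟩ := h'
  exact ⟨h1, h4, e.trans e'⟩

theorem Htp.append {x y z : List α} {l l' m m' : List (SEdge α ι)} (h : Htp P x l l' y)
    (h' : Htp P y m m' z) : Htp P x (l ++ m) (l' ++ m') z := by
  obtain ⟨h1, h2, e⟩ := h
  obtain ⟨h3, h4, e'⟩ := h'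
  refine ⟨isPath_append P h1 h3, isPath_append P h2 h4, ?_⟩
  rw [← Hpt.mk_comp_mk h1 h3, ← Hpt.mk_comp_mk h2 h4, e, e']

theorem Htp.invL {x y : List α} {l l' : List (SEdge α ι)} (h : Htp P x l l' y) :
    Htp P y (invL l) (invL l') x := by
  obtain ⟨h1, h2, e⟩ := h
  exact ⟨isPath_reverse P h1, isPath_reverse P h2, congrArg Hpt.inv e⟩

theorem Htp.cancel {x y : List α} {l : List (SEdge α ι)} (h : IsPath P x l y) :
    Htp P x (l ++ Pool.Agent.DG.invL l) [] x :=
  ⟨isPath_append P h (isPath_reverse P h), rfl, Hpt.comp_inv (Hpt.mk P l h)⟩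

theorem Htp.cancel' {x y : List α} {l : List (SEdge α ι)} (h : IsPath P x l y) :
    Htp P y (Pool.Agent.DG.invL l ++ l) [] y :=
  ⟨isPath_append P (isPath_reverse P h) h, rfl, Hpt.inv_comp (Hpt.mk P l h)⟩

theorem isPath_whL (a b : List α) {x y : List α} {l : List (SEdge α ι)} (h : IsPath P x l y) :
    IsPath P (a ++ x ++ b) (whL a b l) (a ++ y ++ b) := by
  induction l generalizing x with
  | nil =>
    have h' : x = y := h
    subst h'
    rfl
  | cons s l ih =>
    obtain ⟨rfl, h2⟩ := h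
    refine ⟨?_, ?_⟩
    · simp [SEdge.src, SEdge.wh]
    · have := ih h2
      have e : (SEdge.wh a b s).tgt P = a ++ s.tgt P ++ b := by simp [SEdge.tgt, SEdge.wh]
      rw [e]
      exact this

theorem Mono.elem_whL (a b : List α) {l l' : List (SEdge α ι)} (h : Elem P l l') :
    Elem P (whL a b l) (whL a b l') := by
  cases h with
  | cancel l₁ l₂ s =>
    have := Elem.cancel (P := P) (whL a b l₁) (whL a b l₂) (s.wh a b)
    have e : (s.wh a b).inv = s.inv.wh a b := rfl
    rw [e] at this
    simpa [whL] using this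
  | square l₁ l₂ a' b' c' i j p q =>
    have := Elem.square (P := P) (whL a b l₁) (whL a b l₂) (a ++ a') b' (c' ++ b) i j p q
    simpa [whL, SEdge.wh] using this

theorem Mono.htp_of_elem {x y : List α} {l l' : List (SEdge α ι)} (h : Elem P l l')
    (h1 : IsPath P x l y) (h2 : IsPath P x l' y) : Htp P x l l' y :=
  ⟨h1, h2, Hpt.sound h1 h2 h⟩

theorem Mono.isPath_split {x z : List α} {l l' : List (SEdge α ι)}
    (h : IsPath P x (l ++ l') z) : ∃ y, IsPath P x l y ∧ IsPath P y l' z := by
  induction l generalizing x with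
  | nil => exact ⟨x, rfl, h⟩
  | cons s l ih =>
    obtain ⟨h1, h2⟩ := h
    obtain ⟨y, h3, h4⟩ := ih h2
    exact ⟨y, ⟨h1, h3⟩, h4⟩

theorem Htp.whL (a b : List α) {x y : List α} {l l' : List (SEdge α ι)} (h : Htp P x l l' y) :
    Htp P (a ++ x ++ b) (Pool.Agent.DG.whL a b l) (Pool.Agent.DG.whL a b l') (a ++ y ++ b) := by
  obtain ⟨h1, h2, e⟩ := h
  have e' : Relation.EqvGen (fun m m' : PathTo P x y => Elem P m.1 m'.1) ⟨l, h1⟩ ⟨l', h2⟩ :=
    Quotient.exact (s := pathSetoid P x y) e
  have key : ∀ m m' : PathTo P x y, Relation.EqvGen (fun m m' : PathTo P x y => Elem P m.1 m'.1) m m' →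
      Htp P (a ++ x ++ b) (Pool.Agent.DG.whL a b m.1) (Pool.Agent.DG.whL a b m'.1) (a ++ y ++ b) := by
    intro m m' hm
    induction hm with
    | rel m m' hm =>
      exact Mono.htp_of_elem (Mono.elem_whL a b hm) (isPath_whL a b m.2) (isPath_whL a b m'.2)
    | refl m => exact Htp.refl (isPath_whL a b m.2)
    | symm m m' _ ih => exact ih.symm
    | trans m m' m'' _ _ ih1 ih2 => exact ih1.trans ih2
  exact key _ _ e'

theorem whL_whL (a b a' b' : List α) (l : List (SEdge α ι)) :
    whL a b (whL a' b' l) = whL (a ++ a') (b' ++ b) l := by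
  simp [whL, SEdge.wh, Function.comp_def]

theorem whL_nil (l : List (SEdge α ι)) : whL [] [] l = l := by
  induction l with
  | nil => rfl
  | cons s l ih =>
    have e : SEdge.wh [] [] s = s := by
      obtain ⟨a, i, b, p⟩ := s
      simp [SEdge.wh]
    change SEdge.wh [] [] s :: whL [] [] l = s :: l
    rw [ih, e]

theorem invL_whL (a b : List α) (l : List (SEdge α ι)) : invL (whL a b l) = whL a b (invL l) := by
  simp only [invL, whL, List.map_reverse, List.map_map]
  rfl

theorem Mono.inter_edge {x x' y y' : List α} (s t : SEdge α ι) (hx : s.src P = x)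
    (hx' : s.tgt P = x') (hy : t.src P = y) (hy' : t.tgt P = y') :
    Htp P (x ++ y) [s.wh [] y, t.wh x' []] [t.wh x [], s.wh [] y'] (x' ++ y') := by
  subst hx hx' hy hy'
  have h := Elem.square (P := P) [] [] s.pre (s.post ++ t.pre) t.post s.i t.i s.pos t.pos
  refine Mono.htp_of_elem ?_ ?_ ?_
  · simpa [SEdge.wh, SEdge.src, SEdge.tgt] using h
  · refine ⟨by simp [SEdge.wh, SEdge.src], ?_, ?_⟩
    · simp [SEdge.wh, SEdge.src, SEdge.tgt]
    · simp [IsPath, SEdge.wh, SEdge.tgt]
  · refine ⟨by simp [SEdge.wh, SEdge.src], ?_, ?_⟩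
    · simp [SEdge.wh, SEdge.src, SEdge.tgt]
    · simp [IsPath, SEdge.wh, SEdge.tgt]

theorem Mono.isPath_wh (a b : List α) {x y x' y' : List α} {l : List (SEdge α ι)}
    (h : IsPath P x l y) (hx : a ++ x ++ b = x') (hy : a ++ y ++ b = y') :
    IsPath P x' (whL a b l) y' := by
  subst hx hy
  exact isPath_whL a b h

theorem Mono.inter_one {x x' y y' : List α} (s : SEdge α ι) {l' : List (SEdge α ι)}
    (hx : s.src P = x) (hx' : s.tgt P = x') (h' : IsPath P y l' y') :
    Htp P (x ++ y) ([s.wh [] y] ++ whL x' [] l') (whL x [] l' ++ [s.wh [] y']) (x' ++ y') := by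
  have hs : IsPath P x [s] x' := ⟨hx, hx'⟩
  induction l' generalizing y with
  | nil =>
    have h1 : y = y' := h'
    subst h1
    exact Htp.refl (Mono.isPath_wh [] y hs (by simp) (by simp))
  | cons t l' ih =>
    obtain ⟨h1, h2⟩ := h'
    have e1 := Mono.inter_edge s t hx hx' h1 rfl
    have ht : IsPath P y [t] (t.tgt P) := ⟨h1, rfl⟩
    have e2 := ih h2
    have e3 : Htp P (x ++ y) ([s.wh [] y, t.wh x' []] ++ whL x' [] l')
        ([t.wh x [], s.wh [] (t.tgt P)] ++ whL x' [] l') (x' ++ y') :=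
      Htp.append e1 (Htp.refl (Mono.isPath_wh x' [] h2 (by simp) (by simp)))
    have e4 : Htp P (x ++ y) ([t.wh x []] ++ ([s.wh [] (t.tgt P)] ++ whL x' [] l'))
        ([t.wh x []] ++ (whL x [] l' ++ [s.wh [] y'])) (x' ++ y') :=
      Htp.append (Htp.refl (Mono.isPath_wh x [] ht (by simp) (by simp))) e2
    exact Htp.trans e3 e4

/-- The interchange law: paths acting on disjoint factors commute. -/
theorem interchange {x x' y y' : List α} {l l' : List (SEdge α ι)} (h : IsPath P x l x')
    (h' : IsPath P y l' y') :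
    Htp P (x ++ y) (whL [] y l ++ whL x' [] l') (whL x [] l' ++ whL [] y' l) (x' ++ y') := by
  induction l generalizing x with
  | nil =>
    have h1 : x = x' := h
    subst h1
    have := Htp.refl (Mono.isPath_wh (P := P) x [] h' (x' := x ++ y) (y' := x ++ y')
      (by simp) (by simp))
    simpa [whL] using this
  | cons s l ih =>
    obtain ⟨h1, h2⟩ := h
    have hs : IsPath P x [s] (s.tgt P) := ⟨h1, rfl⟩
    have e2 := ih h2
    have e1 := Mono.inter_one s h1 rfl h'
    have e3 : Htp P (x ++ y) ([s.wh [] y] ++ (whL [] y l ++ whL x' [] l'))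
        ([s.wh [] y] ++ (whL (s.tgt P) [] l' ++ whL [] y' l)) (x' ++ y') :=
      Htp.append (Htp.refl (Mono.isPath_wh [] y hs (by simp) (by simp))) e2
    have e4 : Htp P (x ++ y) (([s.wh [] y] ++ whL (s.tgt P) [] l') ++ whL [] y' l)
        ((whL x [] l' ++ [s.wh [] y']) ++ whL [] y' l) (x' ++ y') :=
      Htp.append e1 (Htp.refl (Mono.isPath_wh [] y' h2 (by simp) (by simp)))
    have e5 := Htp.trans (l'' := (whL x [] l' ++ [s.wh [] y']) ++ whL [] y' l) e3
      (by simpa using e4)
    simpa [whL] using e5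

/-- Walking in a covering. -/
def Cov.walk (X : Cov.{u, v, w} P) (v : X.E) (l : List (SEdge α ι)) : X.E := l.foldl X.mv v

theorem Cov.lab_walk (X : Cov.{u, v, w} P) (v : X.E) {y : List α} {l : List (SEdge α ι)}
    (h : IsPath P (X.lab v) l y) : X.lab (X.walk v l) = y := by
  induction l generalizing v with
  | nil => exact h
  | cons s l ih =>
    obtain ⟨h1, h2⟩ := h
    refine ih (X.mv v s) ?_
    rw [X.lab_mv v s h1]
    exact h2

theorem Mono.walk_append (X : Cov.{u, v, w} P) (v : X.E) (l l' : List (SEdge α ι)) :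
    X.walk v (l ++ l') = X.walk (X.walk v l) l' := by
  simp [Cov.walk]

theorem Mono.walk_elem (X : Cov.{u, v, w} P) (v : X.E) {y : List α} {l l' : List (SEdge α ι)}
    (h : Elem P l l') (h1 : IsPath P (X.lab v) l y) : X.walk v l = X.walk v l' := by
  cases h with
  | cancel l₁ l₂ s =>
    obtain ⟨z, h2, h3⟩ := Mono.isPath_split h1
    rw [Mono.walk_append, Mono.walk_append]
    have hz := X.lab_walk v h2
    have h4 : s.src P = X.lab (X.walk v l₁) := by rw [hz]; exact h3.1
    have h5 : X.walk (X.walk v l₁) (s :: s.inv :: l₂) =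
        X.walk (X.mv (X.mv (X.walk v l₁) s) s.inv) l₂ := rfl
    rw [h5, X.mv_inv _ _ h4]
  | square l₁ l₂ a b c i j p q =>
    obtain ⟨z, h2, h3⟩ := Mono.isPath_split h1
    rw [Mono.walk_append, Mono.walk_append]
    have hz := X.lab_walk v h2
    have h4 : X.lab (X.walk v l₁) = a ++ P.side i p ++ b ++ P.side j q ++ c := by
      rw [hz, ← h3.1]
      simp [SEdge.src]
    have h5 := X.mv_sq (X.walk v l₁) a b c i j p q h4
    exact congrArg (fun e => X.walk e l₂) h5

/-- Homotopic paths lift to paths with the same end point. -/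
theorem Cov.walk_congr (X : Cov.{u, v, w} P) (v : X.E) {y : List α} {l l' : List (SEdge α ι)}
    (h : Htp P (X.lab v) l l' y) : X.walk v l = X.walk v l' := by
  obtain ⟨h1, h2, e⟩ := h
  have e' : Relation.EqvGen (fun m m' : PathTo P (X.lab v) y => Elem P m.1 m'.1)
      ⟨l, h1⟩ ⟨l', h2⟩ := Quotient.exact (s := pathSetoid P (X.lab v) y) e
  have key : ∀ m m' : PathTo P (X.lab v) y,
      Relation.EqvGen (fun m m' : PathTo P (X.lab v) y => Elem P m.1 m'.1) m m' →
      X.walk v m.1 = X.walk v m'.1 := by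
    intro m m' hm
    induction hm with
    | rel m m' hm => exact Mono.walk_elem X v hm m.2
    | refl m => rfl
    | symm m m' _ ih => exact ih.symm
    | trans m m' m'' _ _ ih1 ih2 => exact ih1.trans ih2
  exact key _ _ e'

end Pool.Agent.DG
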