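import Pool.Agent.MP_cff99f_al.Gen.QFin

/-!
The package of properties of the closed vertices, and the vertex data they form.
-/

namespace Pool.Agent.DG

universe w u₁ u₂ u₃

/-- The properties of the set of closed vertices used later. -/
structure PP {G : Type w} {V : Type u₁} [Group G] [PartialOrder V] [MulAction G V]
    (T : VD G V) (Q : SubMulAction G V) : Prop where
  bot_mem : T.bot ∈ Q
  L_fg : ∀ p ∈ Q, (T.L p).FG
  R_fg : ∀ p ∈ Q, (T.R p).FG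
  le_of_L : ∀ p ∈ Q, ∀ q ∈ Q, T.L p ≤ T.L q → p ≤ q
  le_of_R : ∀ p ∈ Q, ∀ q ∈ Q, T.R q ≤ T.R p → p ≤ q
  exL : ∀ A : Subgroup G, A.FG → ∃ p ∈ Q, A ≤ T.L p ∧ ∀ q ∈ Q, A ≤ T.L q → p ≤ q
  exR : ∀ B : Subgroup G, B.FG → ∃ q ∈ Q, B ≤ T.R q ∧ ∀ p ∈ Q, B ≤ T.R p → p ≤ q
  cross : ∀ A B : Subgroup G, A.FG → B.FG → ∀ v p q : V, A ≤ T.L v → B ≤ T.R v →
    (∀ p' ∈ Q, A ≤ T.L p' → p ≤ p') → (∀ q' ∈ Q, B ≤ T.R q' → q' ≤ q) → p ≤ q
  fin : ∃ S : Finset (V × V), ∀ p ∈ Q, ∀ q ∈ Q, p ≤ q → ∃ g : G, (g • p, g • q) ∈ S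
  D_fg : ∀ p ∈ Q, ∀ q ∈ Q, p ≤ q → (T.L q ⊓ T.R p).FG

theorem GDC.pp_Q {G : Type w} {V : Type u₁} {E : Type u₂} {F : Type u₃} [Group G]
    [PartialOrder V] [MulAction G V] [MulAction G E] [MulAction G F] (T : GDC G V E F)
    (hinj : T.Inj) (h2 : TypeFP 2 G)
    (hD : ∀ p q, p ≤ q → (T.L q).FG → (T.R p).FG → (T.L q ⊓ T.R p).FG) : PP T.toVD T.Q where
  bot_mem := T.bot_mem_Q hinj h2
  L_fg p hp := T.L_fg_Q hinj h2 hp
  R_fg p hp := T.R_fg_Q hinj h2 hp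
  le_of_L p hp q _ h := T.le_of_L_Q hinj h2 hp h
  le_of_R p hp q hq h := T.le_of_R_Q hinj h2 hp hq h
  exL A hA := T.exL_Q hinj h2 A hA
  exR B hB := by
    obtain ⟨q, h1, h2, h3, _⟩ := T.exR_Q hinj h2 B hB
    exact ⟨q, h1, h2, h3⟩
  cross A B hA hB v p q h1 h3 h4 h5 := T.cross_Q hinj h2 A B hA hB v p q h1 h3 h4 h5
  fin := T.fin_Q hinj h2
  D_fg p hp q hq h := hD p q h (T.L_fg_Q hinj h2 hq) (T.R_fg_Q hinj h2 hp)

namespace PP

variable {G : Type w} {V : Type u₁} [Group G] [PartialOrder V] [MulAction G V] {T : VD G V}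
  {Q : SubMulAction G V}

/-- The vertex data formed by the closed vertices: the greatest closed vertex is the least `p`
with `L p = ⊤`. -/
noncomputable def vd (h : PP T Q) (hG : Group.FG G) : VD G Q where
  bot := ⟨T.bot, h.bot_mem⟩
  top := ⟨(h.exL ⊤ hG.out).choose, (h.exL ⊤ hG.out).choose_spec.1⟩
  L p := T.L p.1
  R p := T.R p.1
  bot_le p := T.bot_le p.1
  le_top p := h.le_of_L _ p.2 _ (h.exL ⊤ hG.out).choose_spec.1
    (fun x _ => (h.exL ⊤ hG.out).choose_spec.2.1 trivial)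
  smul_le g p q hpq := T.smul_le g p.1 q.1 hpq
  L_mono p q hpq := T.L_mono p.1 q.1 hpq
  R_anti p q hpq := T.R_anti p.1 q.1 hpq
  L_smul g v x := T.L_smul g v.1 x
  R_smul g v x := T.R_smul g v.1 x
  L_bot := T.L_bot
  R_top x hx := T.LR _ x ((h.exL ⊤ hG.out).choose_spec.2.1 trivial) hx
  LR v x := T.LR v.1 x
  comm v x y := T.comm v.1 x y
  stabV v g := by
    rw [← T.stabV, Subtype.ext_iff]
    rfl

end PP

end Pool.Agent.DG
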