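import Pool.Agent.MP_cff99f_al.Gen.Gal

/-!
Block QFin: finiteness of the set of pairs of closed vertices modulo `G`.
-/

namespace Pool.Agent.DG

universe w u₁ u₂ u₃

namespace GDC

variable {G : Type w} {V : Type u₁} {E : Type u₂} {F : Type u₃} [Group G] [PartialOrder V]
    [MulAction G V] [MulAction G E] [MulAction G F] (T : GDC G V E F)

theorem QFin.typeFP_one {G : Type w} [Group G] (h : TypeFP 2 G) : TypeFP 1 G := by
  obtain ⟨k, ε, d, hs, hi, h0, h1⟩ := h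
  exact ⟨k, ε, d, hs, hi, fun _ => h0 two_pos, fun i hi' => h1 i (by omega)⟩

/-- A closed vertex `p ≠ bot` is the end point of a 2-cell in the support of `y x` for some `x`
(`IsRho.not_inner`, `exists_cell_of_not_inner`), and `G` is finitely generated
(`fg_of_typeFP_one`, `exists_finset_supp` for `A = ⊤`). -/
theorem exists_finset_Q (hinj : T.Inj) (h2 : TypeFP 2 G) :
    ∃ S : Finset V, ∀ p ∈ T.Q, ∃ g : G, g • p ∈ S := by
  classical
  have hfg : (⊤ : Subgroup G).FG := (fg_of_typeFP_one G (QFin.typeFP_one h2)).out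
  obtain ⟨S0, hS0⟩ := exists_finset_supp (T.y T.w)
    (fun g h => T.y_mul hinj T.isW_w g h) ⊤ hfg
  refine ⟨insert T.bot (S0.image T.b), ?_⟩
  intro p hp
  obtain ⟨A, hA, hrho⟩ := (show p ∈ T.Qset from hp).1
  by_cases hne : A = ⊥
  · refine ⟨1, ?_⟩
    have h1 : T.IsRho A T.bot := ⟨by rw [hne]; exact bot_le, fun v' _ => T.bot_le v'⟩
    rw [one_smul, hrho.unique T h1]
    exact Finset.mem_insert_self _ _
  · obtain ⟨x, hx, s, hs, hys⟩ := T.exists_cell_of_not_inner (hrho.not_inner T hinj hA hne)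
    obtain ⟨g, -, hg⟩ := hS0 x (Subgroup.mem_top x) s hys
    refine ⟨g, Finset.mem_insert_of_mem (Finset.mem_image.2 ⟨g • s, hg, ?_⟩)⟩
    rw [T.b_smul, hs]

/-- For a closed vertex `p` there are, modulo `R p`, only finitely many closed vertices `q ≥ p`:
`q = be (al q)`, `al q = rhoS (R q)` is `top` or the initial vertex of a 2-cell in the support of
`T.rev.y x` for some `x ∈ R q ≤ R p`, and `R p` is finitely generated. -/
theorem exists_finset_Q_above (hinj : T.Inj) (h2 : TypeFP 2 G) {p : V} (hp : p ∈ T.Q) :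
    ∃ S : Finset V, ∀ q ∈ T.Q, p ≤ q → ∃ g ∈ T.R p, g • q ∈ S := by
  classical
  obtain ⟨S0, hS0⟩ := exists_finset_supp (T.rev.y T.rev.w)
    (fun g h => T.rev.y_mul (GDC.rev_inj hinj) T.rev.isW_w g h) (T.R p) (T.R_fg_Q hinj h2 hp)
  refine ⟨insert (T.be T.top) ((S0.image T.a).image T.be), ?_⟩
  intro q hq hpq
  have hRq := T.R_fg_Q hinj h2 hq
  have hbe : T.be (T.al q) = q := (show q ∈ T.Qset from hq).2
  obtain ⟨hz1, hz2⟩ := T.rhoS_spec hinj hRq
  change T.R q ≤ T.R (T.al q) at hz1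
  change ∀ v', T.R q ≤ T.R v' → v' ≤ T.al q at hz2
  by_cases hne : T.R q = ⊥
  · refine ⟨1, (T.R p).one_mem, ?_⟩
    have h1 : T.al q = T.top :=
      le_antisymm (T.le_top _) (hz2 T.top (by rw [hne]; exact bot_le))
    rw [one_smul, ← hbe, h1]
    exact Finset.mem_insert_self _ _
  · have hrho : T.rev.IsRho (T.R q) (OrderDual.toDual (T.al q)) :=
      ⟨hz1, fun v' hv' => hz2 (OrderDual.ofDual v') hv'⟩
    obtain ⟨x, hx, s, hs, hys⟩ :=
      T.rev.exists_cell_of_not_inner (hrho.not_inner T.rev (GDC.rev_inj hinj) hRq hne)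
    obtain ⟨g, hg, hgs⟩ := hS0 x (T.R_anti _ _ hpq hx) s hys
    have hs' : T.a s = T.al q := hs
    refine ⟨g, hg, Finset.mem_insert_of_mem (Finset.mem_image.2
      ⟨g • T.al q, Finset.mem_image.2 ⟨g • s, hgs, ?_⟩, ?_⟩)⟩
    · rw [T.a_smul, hs']
    · rw [T.be_smul, hbe]

theorem fin_Q (hinj : T.Inj) (h2 : TypeFP 2 G) :
    ∃ S : Finset (V × V), ∀ p ∈ T.Q, ∀ q ∈ T.Q, p ≤ q → ∃ g : G, (g • p, g • q) ∈ S := by
  classical
  obtain ⟨S1, hS1⟩ := T.exists_finset_Q hinj h2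
  have h := fun (p : V) (hp : p ∈ T.Q) => T.exists_finset_Q_above hinj h2 hp
  choose S2 hS2 using h
  refine ⟨S1.biUnion fun p => if hp : p ∈ T.Q then (S2 p hp).image (fun q => (p, q)) else ∅, ?_⟩
  intro p hp q hq hpq
  obtain ⟨g1, hg1⟩ := hS1 p hp
  have hp' : g1 • p ∈ T.Q := T.Q.smul_mem g1 hp
  have hq' : g1 • q ∈ T.Q := T.Q.smul_mem g1 hq
  obtain ⟨g2, hg2, hg2'⟩ := hS2 (g1 • p) hp' (g1 • q) hq' (T.smul_le _ _ _ hpq)
  refine ⟨g2 * g1, Finset.mem_biUnion.2 ⟨g1 • p, hg1, ?_⟩⟩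
  rw [dif_pos hp']
  refine Finset.mem_image.2 ⟨g2 • g1 • q, hg2', ?_⟩
  rw [mul_smul, mul_smul, T.smul_of_mem_R hg2 le_rfl]

end GDC

end Pool.Agent.DG
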