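import Pool.Agent.MP_cff99f_al.Gen.Base

/-!
Block RedBase: a free complex with an acyclic invariant subcomplex of finite colength; the first
homology is finitely generated over an `FP_2` group.
-/

namespace Pool.Agent.DG

universe u w

/-- A graded complex on the free `G`-set `I`, the sum of the span of the critical cells `C` and of
an acyclic invariant subcomplex, connected, with finitely many orbits of critical cells in every
degree. -/
structure RedBase (G : Type w) (I : Type u) [Group G] [MulAction G I] where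
  deg : I → ℕ
  d : (I →₀ ℤ) →ₗ[ℤ] (I →₀ ℤ)
  dd : ∀ z, d (d z) = 0
  hdeg : ∀ c c', d (Finsupp.single c 1) c' ≠ 0 → deg c' + 1 = deg c
  C : Set I
  D : Set I
  h1 : ∀ z, ∃ c ∈ Finsupp.supported ℤ ℤ C,
    z - c ∈ Finsupp.supported ℤ ℤ D ⊔ (Finsupp.supported ℤ ℤ D).map d
  h2 : ∀ c ∈ Finsupp.supported ℤ ℤ C,
    c ∈ Finsupp.supported ℤ ℤ D ⊔ (Finsupp.supported ℤ ℤ D).map d → c = 0
  h3 : ∀ z ∈ Finsupp.supported ℤ ℤ D ⊔ (Finsupp.supported ℤ ℤ D).map d, d z = 0 →
    ∃ y ∈ Finsupp.supported ℤ ℤ D, d y = z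
  gdeg : ∀ (g : G) c, deg (g • c) = deg c
  gC : ∀ (g : G) c, c ∈ C → g • c ∈ C
  gD : ∀ (g : G) c, c ∈ D → g • c ∈ D
  gd : ∀ (g : G) z, d (sm g z) = sm g (d z)
  free : ∀ (g : G) (c : I), g • c = c → g = 1
  fin : ∀ k, ∃ S : Finset I, ∀ c ∈ C, deg c = k → ∃ g : G, g • c ∈ S
  ne : ∃ c ∈ C, deg c = 0
  haug : ∀ z, (Finsupp.linearCombination ℤ fun c : I => if deg c = 0 then (1 : ℤ) else 0) (d z) = 0
  hconn : ∀ z, (∀ c, z c ≠ 0 → deg c = 0) →
    (Finsupp.linearCombination ℤ fun c : I => if deg c = 0 then (1 : ℤ) else 0) z = 0 →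
    ∃ y, d y = z

namespace RedBase

variable {G : Type w} {I : Type u} [Group G] [MulAction G I] (R : RedBase G I)

/-- The acyclic part. -/
noncomputable def N : Submodule ℤ (I →₀ ℤ) :=
  Finsupp.supported ℤ ℤ R.D ⊔ (Finsupp.supported ℤ ℤ R.D).map R.d

/-- The critical part. -/
noncomputable def S : Submodule ℤ (I →₀ ℤ) := Finsupp.supported ℤ ℤ R.C

theorem isCompl : IsCompl R.S R.N := by
  constructor
  · rw [Submodule.disjoint_def]
    exact fun c hc hn => R.h2 c hc hn
  · rw [codisjoint_iff, Submodule.eq_top_iff']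
    intro z
    obtain ⟨c, hc, hn⟩ := R.h1 z
    rw [Submodule.mem_sup]
    exact ⟨c, hc, z - c, hn, by simp⟩

/-- The projection to the critical part. -/
noncomputable def pr : (I →₀ ℤ) →ₗ[ℤ] (I →₀ ℤ) :=
  R.S.subtype ∘ₗ Submodule.projectionOnto R.S R.N R.isCompl

theorem pr_mem (z : I →₀ ℤ) : R.pr z ∈ R.S := by
  simp [pr]

theorem pr_of_mem {z : I →₀ ℤ} (h : z ∈ R.S) : R.pr z = z := by
  have := Submodule.projectionOnto_apply_left R.isCompl ⟨z, h⟩
  simp only [pr, LinearMap.comp_apply, Submodule.subtype_apply]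
  rw [this]

theorem pr_of_memN {z : I →₀ ℤ} (h : z ∈ R.N) : R.pr z = 0 := by
  have := Submodule.projectionOnto_apply_right R.isCompl ⟨z, h⟩
  simp only [pr, LinearMap.comp_apply, Submodule.subtype_apply]
  rw [this]
  simp

theorem sub_pr_mem (z : I →₀ ℤ) : z - R.pr z ∈ R.N := by
  obtain ⟨c, hc, hn⟩ := R.h1 z
  have e : R.pr z = c := by
    have : z = c + (z - c) := by simp
    rw [this, map_add, R.pr_of_mem hc, R.pr_of_memN hn, add_zero]
  rw [e]
  exact hn

theorem d_memN {z : I →₀ ℤ} (h : z ∈ R.N) : R.d z ∈ R.N := by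
  obtain ⟨a, ha, b, hb, rfl⟩ := Submodule.mem_sup.1 h
  obtain ⟨b', _, rfl⟩ := Submodule.mem_map.1 hb
  rw [map_add, R.dd, add_zero]
  exact Submodule.mem_sup_right (Submodule.mem_map_of_mem ha)

theorem pr_d_pr (z : I →₀ ℤ) : R.pr (R.d (R.pr z)) = R.pr (R.d z) := by
  have h := R.pr_of_memN (R.d_memN (R.sub_pr_mem z))
  rw [map_sub, map_sub, sub_eq_zero] at h
  exact h.symm

/-! ### Grading -/

/-- The homogeneous component. -/
noncomputable def hom (k : ℕ) : (I →₀ ℤ) →ₗ[ℤ] (I →₀ ℤ) :=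
  Finsupp.linearCombination ℤ fun c => if R.deg c = k then Finsupp.single c 1 else 0

open Classical in
theorem hom_apply (k : ℕ) (z : I →₀ ℤ) (c : I) :
    R.hom k z c = if R.deg c = k then z c else 0 := by
  induction z using Finsupp.induction_linear with
  | zero => simp
  | add z z' h h' =>
    rw [map_add, Finsupp.add_apply, h, h']
    split_ifs <;> simp
  | single c' n =>
    rw [hom, Finsupp.linearCombination_single]
    by_cases h : R.deg c' = k
    · rw [if_pos h]
      by_cases e : c' = c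
      · subst e; simp [h]
      · simp [e]
    · rw [if_neg h]
      by_cases e : c' = c
      · subst e; simp [h]
      · simp [e]

/-- Chains of degree `k`. -/
def IsHom (k : ℕ) (z : I →₀ ℤ) : Prop := ∀ c, z c ≠ 0 → R.deg c = k

theorem hom_eq {k : ℕ} {z : I →₀ ℤ} (h : R.IsHom k z) : R.hom k z = z := by
  ext c
  rw [hom_apply]
  by_cases e : z c = 0
  · simp [e]
  · rw [if_pos (h c e)]

theorem isHom_hom (k : ℕ) (z : I →₀ ℤ) : R.IsHom k (R.hom k z) := by
  intro c h
  rw [hom_apply] at h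
  by_contra hc
  rw [if_neg hc] at h
  exact h rfl

theorem hom_mem_supported {A : Set I} {z : I →₀ ℤ} (h : z ∈ Finsupp.supported ℤ ℤ A) (k : ℕ) :
    R.hom k z ∈ Finsupp.supported ℤ ℤ A := by
  rw [Finsupp.mem_supported'] at h ⊢
  intro c hc
  rw [hom_apply, h c hc]
  simp

theorem hom_d (k : ℕ) (z : I →₀ ℤ) : R.hom k (R.d z) = R.d (R.hom (k + 1) z) := by
  induction z using Finsupp.induction_linear with
  | zero => simp
  | add z z' h h' => rw [map_add, map_add, h, h', map_add, map_add]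
  | single c n =>
    have e : Finsupp.single c n = n • Finsupp.single c (1 : ℤ) := by simp
    rw [e]
    simp only [map_smul]
    congr 1
    ext c'
    rw [hom_apply]
    by_cases h : R.deg c = k + 1
    · have e1 : R.hom (k + 1) (Finsupp.single c 1) = Finsupp.single c 1 := by
        apply R.hom_eq
        intro c'' h''
        by_cases e : c = c''
        · rw [← e]; exact h
        · simp [e] at h''
      rw [e1]
      by_cases h' : R.d (Finsupp.single c 1) c' = 0
      · simp [h']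
      · have := R.hdeg c c' h'
        rw [if_pos (by omega)]
    · have e1 : R.hom (k + 1) (Finsupp.single c (1 : ℤ)) = 0 := by
        rw [hom, Finsupp.linearCombination_single, if_neg h, smul_zero]
      rw [e1, map_zero]
      by_cases h' : R.d (Finsupp.single c 1) c' = 0
      · simp [h']
      · have := R.hdeg c c' h'
        rw [if_neg (by omega)]
        rfl

theorem hom_memN {z : I →₀ ℤ} (h : z ∈ R.N) (k : ℕ) : R.hom k z ∈ R.N := by
  obtain ⟨a, ha, b, hb, rfl⟩ := Submodule.mem_sup.1 h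
  obtain ⟨b', hb', rfl⟩ := Submodule.mem_map.1 hb
  rw [map_add, R.hom_d]
  exact Submodule.add_mem _ (Submodule.mem_sup_left (R.hom_mem_supported ha k))
    (Submodule.mem_sup_right (Submodule.mem_map_of_mem (R.hom_mem_supported hb' _)))

theorem hom_pr (k : ℕ) (z : I →₀ ℤ) : R.hom k (R.pr z) = R.pr (R.hom k z) := by
  have e : R.hom k z = R.hom k (R.pr z) + R.hom k (z - R.pr z) := by
    rw [← map_add]; simp
  rw [e, map_add, R.pr_of_mem (R.hom_mem_supported (R.pr_mem z) k),
    R.pr_of_memN (R.hom_memN (R.sub_pr_mem z) k), add_zero]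

theorem isHom_sub {k : ℕ} {z z' : I →₀ ℤ} (h : R.IsHom k z) (h' : R.IsHom k z') :
    R.IsHom k (z - z') := by
  intro c hc
  by_contra hne
  have e1 : z c = 0 := by
    by_contra h1
    exact hne (h c h1)
  have e2 : z' c = 0 := by
    by_contra h1
    exact hne (h' c h1)
  apply hc
  simp [e1, e2]

theorem isHom_pr {k : ℕ} {z : I →₀ ℤ} (h : R.IsHom k z) : R.IsHom k (R.pr z) := by
  rw [← R.hom_eq h, ← R.hom_pr]
  exact R.isHom_hom k _

theorem isHom_d {k : ℕ} {z : I →₀ ℤ} (h : R.IsHom (k + 1) z) : R.IsHom k (R.d z) := by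
  rw [← R.hom_eq h, ← R.hom_d]
  exact R.isHom_hom k _

theorem d_of_isHom_zero {z : I →₀ ℤ} (h : R.IsHom 0 z) : R.d z = 0 := by
  rw [← R.hom_eq h]
  induction z using Finsupp.induction_linear with
  | zero => simp
  | add z z' _ _ =>
    -- reduce to single cells
    clear h
    have key : ∀ z : I →₀ ℤ, R.d (R.hom 0 z) = 0 := by
      intro z
      induction z using Finsupp.induction_linear with
      | zero => simp
      | add z z' h h' => rw [map_add, map_add, h, h', add_zero]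
      | single c n =>
        rw [hom, Finsupp.linearCombination_single]
        by_cases hc : R.deg c = 0
        · rw [if_pos hc, map_smul]
          have : R.d (Finsupp.single c 1) = 0 := by
            ext c'
            by_contra hne
            have := R.hdeg c c' hne
            omega
          rw [this, smul_zero]
        · rw [if_neg hc]; simp
    exact key _
  | single c n =>
    rw [hom, Finsupp.linearCombination_single]
    by_cases hc : R.deg c = 0
    · rw [if_pos hc, map_smul]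
      have : R.d (Finsupp.single c 1) = 0 := by
        ext c'
        by_contra hne
        have := R.hdeg c c' hne
        omega
      rw [this, smul_zero]
    · rw [if_neg hc]; simp

/-! ### The complex of critical cells -/

/-- The critical cells of degree `k`. -/
def X (k : ℕ) : Type u := {c : I // c ∈ R.C ∧ R.deg c = k}

instance (k : ℕ) : MulAction G (R.X k) where
  smul g c := ⟨g • c.1, R.gC g _ c.2.1, by rw [R.gdeg]; exact c.2.2⟩
  one_smul c := Subtype.ext (one_smul G c.1)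
  mul_smul g h c := Subtype.ext (mul_smul g h c.1)

theorem X_smul_val (k : ℕ) (g : G) (c : R.X k) : (g • c).1 = g • c.1 := rfl

/-- The inclusion of chains on critical cells. -/
noncomputable def inc (k : ℕ) : (R.X k →₀ ℤ) →ₗ[ℤ] (I →₀ ℤ) :=
  Finsupp.lmapDomain ℤ ℤ fun c : R.X k => c.1

theorem inc_def (k : ℕ) (z : R.X k →₀ ℤ) :
    R.inc k z = z.mapDomain fun c : R.X k => c.1 := rfl

/-- The restriction of chains to critical cells. -/
noncomputable def res (k : ℕ) : (I →₀ ℤ) →ₗ[ℤ] (R.X k →₀ ℤ) :=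
  Finsupp.lsubtypeDomain {c : I | c ∈ R.C ∧ R.deg c = k}

theorem res_apply (k : ℕ) (z : I →₀ ℤ) (c : R.X k) : R.res k z c = z c.1 := rfl

theorem inc_apply (k : ℕ) (z : R.X k →₀ ℤ) (c : R.X k) : R.inc k z c.1 = z c :=
  Finsupp.mapDomain_apply Subtype.val_injective z c

theorem inc_apply_of_notMem (k : ℕ) (z : R.X k →₀ ℤ) (c : I) (h : ¬ (c ∈ R.C ∧ R.deg c = k)) :
    R.inc k z c = 0 := by
  rw [inc_def]
  apply Finsupp.mapDomain_of_notMem_range
  rintro ⟨c', rfl⟩
  exact h c'.2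

theorem res_inc (k : ℕ) (z : R.X k →₀ ℤ) : R.res k (R.inc k z) = z := by
  ext c
  rw [res_apply, inc_apply]

theorem inc_res (k : ℕ) (z : I →₀ ℤ) (h : z ∈ R.S) (h' : R.IsHom k z) :
    R.inc k (R.res k z) = z := by
  ext c
  by_cases hc : c ∈ R.C ∧ R.deg c = k
  · exact R.inc_apply k _ ⟨c, hc⟩
  · rw [R.inc_apply_of_notMem k _ c hc]
    by_contra hne
    have hne' : z c ≠ 0 := fun e => hne e.symm
    apply hc
    refine ⟨?_, h' c hne'⟩
    by_contra hcC
    exact hne' ((Finsupp.mem_supported' ℤ z).1 h c hcC)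

theorem inc_mem (k : ℕ) (z : R.X k →₀ ℤ) : R.inc k z ∈ R.S := by
  unfold S
  rw [Finsupp.mem_supported']
  intro c hc
  exact R.inc_apply_of_notMem k z c (fun h => hc h.1)

theorem isHom_inc (k : ℕ) (z : R.X k →₀ ℤ) : R.IsHom k (R.inc k z) := by
  intro c hc
  by_contra h
  exact hc (R.inc_apply_of_notMem k z c (fun h' => h h'.2))

theorem inc_injective (k : ℕ) : Function.Injective (R.inc k) := by
  intro z z' h
  rw [← R.res_inc k z, h, R.res_inc]

/-- The differential of the complex of critical cells. -/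
noncomputable def dX (k : ℕ) : (R.X (k + 1) →₀ ℤ) →ₗ[ℤ] (R.X k →₀ ℤ) :=
  R.res k ∘ₗ R.pr ∘ₗ R.d ∘ₗ R.inc (k + 1)

theorem inc_dX (k : ℕ) (z : R.X (k + 1) →₀ ℤ) :
    R.inc k (R.dX k z) = R.pr (R.d (R.inc (k + 1) z)) := by
  apply R.inc_res
  · exact R.pr_mem _
  · exact R.isHom_pr (R.isHom_d (R.isHom_inc _ _))

theorem dX_dX (k : ℕ) (z : R.X (k + 2) →₀ ℤ) : R.dX k (R.dX (k + 1) z) = 0 := by
  apply R.inc_injective
  rw [inc_dX, inc_dX, pr_d_pr, R.dd, map_zero, map_zero]

/-- The augmentation on all chains. -/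
noncomputable def aug : (I →₀ ℤ) →ₗ[ℤ] ℤ :=
  Finsupp.linearCombination ℤ fun c : I => if R.deg c = 0 then (1 : ℤ) else 0

theorem aug_inc (z : R.X 0 →₀ ℤ) : R.aug (R.inc 0 z) = sumCoeff (R.X 0) z := by
  induction z using Finsupp.induction_linear with
  | zero => simp
  | add z z' h h' => rw [map_add, map_add, h, h', map_add]
  | single c n =>
    rw [inc_def, Finsupp.mapDomain_single, aug,
      Finsupp.linearCombination_single, if_pos c.2.2]
    simp [sumCoeff]

/-- Exactness in degree zero. -/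
theorem exact_zero (z : R.X 0 →₀ ℤ) : sumCoeff (R.X 0) z = 0 ↔ ∃ y, R.dX 0 y = z := by
  rw [← aug_inc]
  constructor
  · intro h
    obtain ⟨y, hy⟩ := R.hconn (R.inc 0 z) (R.isHom_inc 0 z) h
    refine ⟨R.res 1 (R.pr (R.hom 1 y)), ?_⟩
    apply R.inc_injective
    rw [inc_dX, inc_res _ _ _ (R.pr_mem _) (R.isHom_pr (R.isHom_hom _ _)), pr_d_pr, ← R.hom_d,
      hy, R.hom_eq (R.isHom_inc 0 z), R.pr_of_mem (R.inc_mem _ _)]
  · rintro ⟨y, rfl⟩
    rw [inc_dX]
    have h1 : R.aug (R.d (R.inc 1 y)) = 0 := R.haug _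
    have hn := R.sub_pr_mem (R.d (R.inc 1 y))
    have hh : R.IsHom 0 (R.d (R.inc 1 y) - R.pr (R.d (R.inc 1 y))) := by
      have e1 := R.isHom_d (R.isHom_inc 1 y)
      have e2 := R.isHom_pr e1
      exact R.isHom_sub e1 e2
    obtain ⟨y', _, hy'⟩ := R.h3 _ hn (R.d_of_isHom_zero hh)
    have h2 : R.aug (R.d y') = 0 := R.haug _
    rw [hy', map_sub, h1, zero_sub, neg_eq_zero] at h2
    exact h2

/-! ### Equivariance -/

theorem gd' (g : G) (z : I →₀ ℤ) :
    R.d (z.mapDomain (g • ·)) = (R.d z).mapDomain (g • ·) := R.gd g z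

theorem smul_mem_supported {A : Set I} (hA : ∀ (g : G) c, c ∈ A → g • c ∈ A) (g : G)
    {z : I →₀ ℤ} (h : z ∈ Finsupp.supported ℤ ℤ A) :
    z.mapDomain (g • ·) ∈ Finsupp.supported ℤ ℤ A := by
  rw [Finsupp.mem_supported'] at h ⊢
  intro c hc
  have hc' : c = g • (g⁻¹ • c) := (smul_inv_smul g c).symm
  rw [hc', Finsupp.mapDomain_apply (MulAction.injective g)]
  apply h
  intro hA'
  exact hc (by rw [hc']; exact hA g _ hA')

theorem smul_memN (g : G) {z : I →₀ ℤ} (h : z ∈ R.N) : z.mapDomain (g • ·) ∈ R.N := by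
  obtain ⟨a, ha, b, hb, rfl⟩ := Submodule.mem_sup.1 h
  obtain ⟨b', hb', rfl⟩ := Submodule.mem_map.1 hb
  rw [Finsupp.mapDomain_add, ← R.gd']
  exact Submodule.add_mem _ (Submodule.mem_sup_left (smul_mem_supported R.gD g ha))
    (Submodule.mem_sup_right (Submodule.mem_map_of_mem (smul_mem_supported R.gD g hb')))

theorem pr_smul (g : G) (z : I →₀ ℤ) :
    R.pr (z.mapDomain (g • ·)) = (R.pr z).mapDomain (g • ·) := by
  have e : z.mapDomain (g • ·) =
      (R.pr z).mapDomain (g • ·) + (z - R.pr z).mapDomain (g • ·) := by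
    rw [← Finsupp.mapDomain_add]; simp
  rw [e, map_add, R.pr_of_mem (smul_mem_supported R.gC g (R.pr_mem z)),
    R.pr_of_memN (R.smul_memN g (R.sub_pr_mem z)), add_zero]

theorem inc_smul (k : ℕ) (g : G) (z : R.X k →₀ ℤ) :
    R.inc k (z.mapDomain (g • ·)) = (R.inc k z).mapDomain (g • ·) := by
  rw [inc_def, inc_def, ← Finsupp.mapDomain_comp, ← Finsupp.mapDomain_comp]
  rfl

theorem dX_smul (k : ℕ) (g : G) (z : R.X (k + 1) →₀ ℤ) :
    R.dX k (z.mapDomain (g • ·)) = (R.dX k z).mapDomain (g • ·) := by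
  apply R.inc_injective
  rw [inc_dX, inc_smul, R.gd', pr_smul, inc_smul, inc_dX]

/-! ### The proof -/

theorem finite_X (k : ℕ) : Finite (MulAction.orbitRel.Quotient G (R.X k)) := by
  classical
  obtain ⟨S, hS⟩ := R.fin k
  -- every orbit meets `S`
  choose g hg using fun c : R.X k => hS c.1 c.2.1 c.2.2
  have hgm : ∀ c : R.X k, (g c • c).1 ∈ S := hg
  refine Finite.of_injective
    (fun q : MulAction.orbitRel.Quotient G (R.X k) => (⟨(g q.out • q.out).1, hgm q.out⟩ : S)) ?_
  intro q q' h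
  have h0 : (g q.out • q.out).1 = (g q'.out • q'.out).1 := congrArg (fun s : S => (s : I)) h
  have h1 : g q.out • q.out = g q'.out • q'.out := Subtype.ext h0
  rw [← Quotient.out_eq q, ← Quotient.out_eq q']
  apply Quotient.sound
  show MulAction.orbitRel G (R.X k) q.out q'.out
  rw [MulAction.orbitRel_apply]
  exact ⟨(g q.out)⁻¹ * g q'.out, by
    show ((g q.out)⁻¹ * g q'.out) • q'.out = q.out
    rw [mul_smul, ← h1, inv_smul_smul]⟩

theorem nonempty_X : Nonempty (R.X 0) := by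
  obtain ⟨c, hc, h0⟩ := R.ne
  exact ⟨⟨c, hc, h0⟩⟩

theorem isHom_add {k : ℕ} {z z' : I →₀ ℤ} (h : R.IsHom k z) (h' : R.IsHom k z') :
    R.IsHom k (z + z') := by
  intro c hc
  by_contra hne
  have e1 : z c = 0 := by
    by_contra h1
    exact hne (h c h1)
  have e2 : z' c = 0 := by
    by_contra h1
    exact hne (h' c h1)
  apply hc
  simp [e1, e2]

theorem isHom_neg {k : ℕ} {z : I →₀ ℤ} (h : R.IsHom k z) : R.IsHom k (-z) := by
  intro c hc
  apply h
  intro e
  apply hc
  rw [Finsupp.neg_apply, e, neg_zero]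

theorem isHom_sm {k : ℕ} (g : G) {z : I →₀ ℤ} (h : R.IsHom k z) : R.IsHom k (sm g z) := by
  intro c hc
  rw [sm_apply] at hc
  have := h _ hc
  rwa [R.gdeg] at this

/-- Lift of a cycle of critical cells to a cycle of degree 1. -/
theorem exists_lift_cycle (s : R.X 1 →₀ ℤ) (hs : R.dX 0 s = 0) :
    ∃ w : I →₀ ℤ, R.IsHom 1 w ∧ R.d w = 0 ∧ R.pr w = R.inc 1 s := by
  have h1 : R.pr (R.d (R.inc 1 s)) = 0 := by rw [← inc_dX, hs, map_zero]
  have h2 : R.d (R.inc 1 s) ∈ R.N := by
    have := R.sub_pr_mem (R.d (R.inc 1 s))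
    rwa [h1, sub_zero] at this
  obtain ⟨n, hn, hn'⟩ := R.h3 _ h2 (R.dd _)
  have hnN : R.hom 1 n ∈ R.N := Submodule.mem_sup_left (R.hom_mem_supported hn 1)
  refine ⟨R.inc 1 s - R.hom 1 n, R.isHom_sub (R.isHom_inc 1 s) (R.isHom_hom 1 n), ?_, ?_⟩
  · have e : R.hom 0 (R.d (R.inc 1 s)) = R.d (R.inc 1 s) :=
      R.hom_eq (R.isHom_d (R.isHom_inc 1 s))
    rw [map_sub, ← R.hom_d, hn', e, sub_self]
  · rw [map_sub, R.pr_of_mem (R.inc_mem _ _), R.pr_of_memN hnN, sub_zero]

/-- The homology in degree 1 is finitely generated if `G` is of type `FP_2`. (As in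
`RedData`: the complex of critical cells `X k`, `dX k`; `fg_ker_one` gives finitely many generators of
the kernel of `dX 0`; lift each to a cycle of degree 1 by subtracting an element of the acyclic
part; a cycle in the acyclic part is a boundary.) -/
theorem H1_fg (h : TypeFP 2 G) : ∃ S : Finset (I →₀ ℤ),
    (∀ s ∈ S, (∀ c, s c ≠ 0 → R.deg c = 1) ∧ R.d s = 0) ∧
    ∀ z, (∀ c, z c ≠ 0 → R.deg c = 1) → R.d z = 0 →
      ∃ y, z - R.d y ∈ AddSubgroup.closure {t | ∃ g : G, ∃ s ∈ S, t = sm g s} := by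
  classical
  obtain ⟨S, hS, hS'⟩ := fg_ker_one G h (R.X 0) (R.X 1)
    (fun g c h => R.free g c.1 (congrArg Subtype.val h)) (R.finite_X 0)
    (fun g c h => R.free g c.1 (congrArg Subtype.val h)) (R.finite_X 1) R.nonempty_X
    (R.dX 0).toAddMonoidHom (fun g z => R.dX_smul 0 g z) (fun z => R.exact_zero z)
  have hS1 : ∀ s ∈ (S : Set (R.X 1 →₀ ℤ)), ∃ w : I →₀ ℤ, R.IsHom 1 w ∧ R.d w = 0 ∧
      R.pr w = R.inc 1 s := fun s hs => R.exists_lift_cycle s (hS s hs)
  choose! f hf using hS1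
  refine ⟨S.image f, ?_, ?_⟩
  · intro s hs
    obtain ⟨t, ht, rfl⟩ := Finset.mem_image.1 hs
    exact ⟨(hf t ht).1, (hf t ht).2.1⟩
  · intro z hz hz0
    have hz' : R.IsHom 1 z := hz
    have key : ∀ x ∈ AddSubgroup.closure {y | ∃ g : G, ∃ s ∈ S, y = s.mapDomain (g • ·)},
        ∃ w ∈ AddSubgroup.closure {t | ∃ g : G, ∃ s ∈ S.image f, t = sm g s},
          R.IsHom 1 w ∧ R.d w = 0 ∧ R.pr w = R.inc 1 x := by
      intro x hx
      induction hx using AddSubgroup.closure_induction with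
      | mem x hx =>
        obtain ⟨g, s, hs, rfl⟩ := hx
        obtain ⟨h1, h2, h3⟩ := hf s hs
        refine ⟨sm g (f s), AddSubgroup.subset_closure ⟨g, f s, Finset.mem_image_of_mem f hs, rfl⟩,
          R.isHom_sm g h1, ?_, ?_⟩
        · rw [R.gd, h2, map_zero]
        · rw [sm_def, pr_smul, h3, inc_smul]
      | zero => exact ⟨0, AddSubgroup.zero_mem _, fun c hc => absurd rfl hc, by simp, by simp⟩
      | add x y _ _ hx hy =>
        obtain ⟨w, hw, h1, h2, h3⟩ := hx
        obtain ⟨w', hw', h1', h2', h3'⟩ := hy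
        exact ⟨w + w', AddSubgroup.add_mem _ hw hw', R.isHom_add h1 h1',
          by rw [map_add, h2, h2', add_zero], by rw [map_add, map_add, h3, h3']⟩
      | neg x _ hx =>
        obtain ⟨w, hw, h1, h2, h3⟩ := hx
        exact ⟨-w, AddSubgroup.neg_mem _ hw, R.isHom_neg h1, by rw [map_neg, h2, neg_zero],
          by rw [map_neg, map_neg, h3]⟩
    have e1 : R.inc 1 (R.res 1 (R.pr z)) = R.pr z :=
      R.inc_res 1 _ (R.pr_mem z) (R.isHom_pr hz')
    have e2 : R.dX 0 (R.res 1 (R.pr z)) = 0 := by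
      apply R.inc_injective
      rw [inc_dX, e1, pr_d_pr, hz0, map_zero, map_zero]
    obtain ⟨w, hw, -, h2, h3⟩ := key _ (hS' _ e2)
    rw [e1] at h3
    have h4 : z - w ∈ R.N := by
      have := R.sub_pr_mem (z - w)
      rwa [map_sub R.pr, h3, sub_self, sub_zero] at this
    obtain ⟨y, -, hy⟩ := R.h3 _ h4 (by rw [map_sub, hz0, h2, sub_self])
    refine ⟨y, ?_⟩
    rw [hy, sub_sub_cancel]
    exact hw

end RedBase

end Pool.Agent.DG
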