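import Pool.Agent.MP_cff99f_al.Gen.Base

/-!
The reversed complex.
-/

namespace Pool.Agent.DG

universe w u₁ u₂ u₃

open OrderDual

variable {G : Type w} {V : Type u₁} {E : Type u₂} {F : Type u₃} [Group G] [PartialOrder V] [MulAction G V]
    [MulAction G E] [MulAction G F]

theorem supported_congr {X : Type*} {A B : Set X} (h : ∀ x, x ∈ A ↔ x ∈ B) :
    Finsupp.supported ℤ ℤ A = Finsupp.supported ℤ ℤ B := by
  have : A = B := Set.ext h
  rw [this]

/-- The reversed data on vertices. -/
def VD.rev (S : VD G V) : VD G Vᵒᵈ where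
  bot := toDual S.top
  top := toDual S.bot
  L v := S.R (ofDual v)
  R v := S.L (ofDual v)
  bot_le v := S.le_top (ofDual v)
  le_top v := S.bot_le (ofDual v)
  smul_le g p q h := S.smul_le g (ofDual q) (ofDual p) h
  L_mono p q h := S.R_anti (ofDual q) (ofDual p) h
  R_anti p q h := S.L_mono (ofDual q) (ofDual p) h
  L_smul g v x := S.R_smul g (ofDual v) x
  R_smul g v x := S.L_smul g (ofDual v) x
  L_bot := S.R_top
  R_top := S.L_bot
  LR v x h h' := S.LR (ofDual v) x h' h
  comm v x y h h' := (S.comm (ofDual v) y x h' h).symm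
  stabV v g := by
    have h : g • v = v ↔ g • (ofDual v) = ofDual v := Iff.rfl
    rw [h, S.stabV]
    constructor
    · rintro ⟨x, hx, y, hy, rfl⟩
      exact ⟨y, hy, x, hx, S.comm _ _ _ hx hy⟩
    · rintro ⟨x, hx, y, hy, rfl⟩
      exact ⟨y, hy, x, hx, (S.comm _ _ _ hy hx).symm⟩

omit [PartialOrder V] in
theorem bd1_rev (i t : E → V) (z : E →₀ ℤ) :
    bd1 (fun e => toDual (t e)) (fun e => toDual (i e)) z =
      -(Finsupp.mapDomain (toDual : V → Vᵒᵈ) (bd1 i t z)) := by
  induction z using Finsupp.induction_linear with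
  | zero => simp
  | add f g hf hg => rw [map_add, map_add, hf, hg, Finsupp.mapDomain_add]; abel
  | single e n =>
    unfold bd1
    rw [Finsupp.linearCombination_single, Finsupp.linearCombination_single,
      Finsupp.mapDomain_smul, sub_eq_add_neg, sub_eq_add_neg, Finsupp.mapDomain_add,
      ← Finsupp.single_neg, ← Finsupp.single_neg, Finsupp.mapDomain_single,
      Finsupp.mapDomain_single, ← smul_neg]
    congr 1
    rw [neg_add, ← Finsupp.single_neg, ← Finsupp.single_neg, neg_neg]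
    abel

/-- The reversed complex. -/
noncomputable def GDC.rev (T : GDC G V E F) : GDC G Vᵒᵈ E F where
  toVD := T.toVD.rev
  i e := toDual (T.t e)
  t e := toDual (T.i e)
  a s := toDual (T.b s)
  b s := toDual (T.a s)
  d := T.d
  i_smul g e := by rw [T.t_smul]; rfl
  t_smul g e := by rw [T.i_smul]; rfl
  a_smul g s := by rw [T.b_smul]; rfl
  b_smul g s := by rw [T.a_smul]; rfl
  d_smul := T.d_smul
  it e := T.it e
  ab s := T.ab s
  d_supp s e h := ⟨(T.d_supp s e h).2, (T.d_supp s e h).1⟩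
  dd s := by rw [bd1_rev, T.dd]; simp
  stabE e g := by
    have hle := le_of_lt (T.it e)
    rw [T.stabE]
    constructor
    · rintro ⟨x, hx, y, hy, rfl⟩
      exact ⟨y, hy, x, hx, T.comm (T.i e) x y hx (T.R_anti _ _ hle hy)⟩
    · rintro ⟨x, hx, y, hy, rfl⟩
      exact ⟨y, hy, x, hx, (T.comm (T.i e) y x hy (T.R_anti _ _ hle hx)).symm⟩
  stabF s g := by
    have hle := le_of_lt (T.ab s)
    rw [T.stabF]
    constructor
    · rintro ⟨x, hx, y, hy, rfl⟩
      exact ⟨y, hy, x, hx, T.comm (T.a s) x y hx (T.R_anti _ _ hle hy)⟩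
    · rintro ⟨x, hx, y, hy, rfl⟩
      exact ⟨y, hy, x, hx, (T.comm (T.a s) y x hy (T.R_anti _ _ hle hx)).symm⟩
  ex0 p q h := by
    obtain ⟨z, hz, hz'⟩ := T.ex0 (ofDual q) (ofDual p) h
    refine ⟨z, ?_, ?_⟩
    · rw [supported_congr (B := {e | ofDual q ≤ T.i e ∧ T.t e ≤ ofDual p})]
      · exact hz
      · intro e
        exact and_comm
    · rw [bd1_rev, hz', sub_eq_add_neg, Finsupp.mapDomain_add, ← Finsupp.single_neg,
        Finsupp.mapDomain_single, Finsupp.mapDomain_single, Finsupp.single_neg]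
      simp [sub_eq_add_neg]
  ex1 p q h z hz hz' := by
    have h1 : z ∈ Finsupp.supported ℤ ℤ {e | ofDual q ≤ T.i e ∧ T.t e ≤ ofDual p} := by
      rw [supported_congr (B := {e | p ≤ toDual (T.t e) ∧ toDual (T.i e) ≤ q})]
      · exact hz
      · intro e
        exact and_comm
    have h2 : bd1 T.i T.t z = 0 := by
      rw [bd1_rev, neg_eq_zero] at hz'
      exact Finsupp.mapDomain_injective (toDual : V ≃ Vᵒᵈ).injective (by rw [hz']; simp)
    obtain ⟨y, hy, hy'⟩ := T.ex1 (ofDual q) (ofDual p) h z h1 h2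
    refine ⟨y, ?_, hy'⟩
    rw [supported_congr (B := {s | ofDual q ≤ T.a s ∧ T.b s ≤ ofDual p})]
    · exact hy
    · intro e
      exact and_comm

theorem GDC.rev_inj {T : GDC G V E F} (h : T.Inj) : T.rev.Inj := h

end Pool.Agent.DG
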