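import Pool.Agent.MP_cff99f_al.Gen.Sig

/-!
Block Rho1: torsion-freeness, and `Sig x = ∅` only for `x = 1`.
-/

namespace Pool.Agent.DG

universe w u₁ u₂ u₃

namespace GDC

namespace Rho1

open Classical in
/-- The sum of an invariant function over a finite set without fixed points, for a permutation of
prime order, is divisible by the prime. -/
theorem dvd_sum {Y : Type*} (C : Finset Y) (f : Y → ℤ) (σ : Y → Y) (p : ℕ) (hp : p.Prime)
    (hC : ∀ y ∈ C, σ y ∈ C) (hf : ∀ y ∈ C, f (σ y) = f y) (hfix : ∀ y ∈ C, σ y ≠ y)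
    (hσ : ∀ y, σ^[p] y = y) : (p : ℤ) ∣ ∑ y ∈ C, f y := by
  have : Fact p.Prime := ⟨hp⟩
  rw [Finset.sum_comp (fun n : ℤ => n) f]
  apply Finset.dvd_sum
  intro n hn
  rw [nsmul_eq_mul]
  apply Dvd.dvd.mul_right
  rw [Int.natCast_dvd_natCast]
  let D := C.filter (fun y => f y = n)
  have hD : ∀ y ∈ D, σ y ∈ D := by
    intro y hy
    rw [Finset.mem_filter] at hy ⊢
    exact ⟨hC y hy.1, (hf y hy.1).trans hy.2⟩
  let g : Function.End D := fun y => ⟨σ y.1, hD y.1 y.2⟩
  have hgk : ∀ (k : ℕ) (y : D), ((g ^ k) y : Y) = σ^[k] y.1 := by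
    intro k
    induction k with
    | zero => intro y; rfl
    | succ k ih =>
      intro y
      rw [pow_succ, Function.iterate_succ]
      exact ih (g y)
  have hg : g ^ p ^ 1 = 1 := by
    rw [pow_one]
    funext y
    apply Subtype.ext
    rw [hgk p y, hσ]
    rfl
  have h1 := Equiv.Perm.card_fixedPoints_modEq hg
  have h2 : Fintype.card g.fixedPoints = 0 := by
    rw [Fintype.card_eq_zero_iff]
    constructor
    rintro ⟨y, hy⟩
    exact hfix y.1 (Finset.mem_filter.1 y.2).1 (congrArg Subtype.val hy)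
  rw [h2, Fintype.card_coe] at h1
  exact (Nat.modEq_zero_iff_dvd).1 h1

/-- A finitely supported function with the same nonzero value at all `x ^ n • e` gives a finite
orbit. -/
theorem exists_pow_smul {G : Type w} [Group G] {Y : Type*} [MulAction G Y] (z : Y →₀ ℤ) (x : G)
    (e : Y) (he : z e ≠ 0) (h : ∀ n : ℕ, z (x ^ n • e) = z e) : ∃ k : ℕ, 0 < k ∧ x ^ k • e = e := by
  have hmaps : Set.MapsTo (fun n : ℕ => x ^ n • e) Set.univ (z.support : Set Y) := by
    intro n _
    rw [Finset.mem_coe, Finsupp.mem_support_iff]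
    change z (x ^ n • e) ≠ 0
    rw [h n]
    exact he
  obtain ⟨a, _, b, _, hab, heq⟩ := Set.infinite_univ.exists_ne_map_eq_of_mapsTo hmaps
    (Finset.finite_toSet _)
  wlog hlt : a < b generalizing a b
  · exact this b (Set.mem_univ _) a (Set.mem_univ _) hab.symm heq.symm
      (lt_of_le_of_ne (not_lt.1 hlt) hab.symm)
  refine ⟨b - a, Nat.sub_pos_of_lt hlt, ?_⟩
  have h1 : x ^ b • e = x ^ a • x ^ (b - a) • e := by
    rw [← mul_smul, ← pow_add, Nat.add_sub_cancel' hlt.le]
  have h2 : x ^ a • e = x ^ a • x ^ (b - a) • e := heq.trans h1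
  exact ((MulAction.injective (x ^ a)) h2).symm

end Rho1

variable {G : Type w} {V : Type u₁} {E : Type u₂} {F : Type u₃} [Group G] [PartialOrder V]
    [MulAction G V] [MulAction G E] [MulAction G F] (T : GDC G V E F)

namespace Rho1

/-- The decomposition of `y x` and the corrected flow `ω`. -/
theorem exists_omega (x : G) : ∃ (ω : E →₀ ℤ) (y0 : F →₀ ℤ), T.IsW ω ∧
    sm x ω = ω + T.d2 y0 ∧ ∀ s, y0 s ≠ 0 → s ∈ T.Sig x := by
  obtain ⟨y0, m, h1, h2⟩ := exists_decomp x (T.y T.w x)
  refine ⟨T.w - T.d2 m, y0, ?_, ?_, ?_⟩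
  · have := T.isW_w
    unfold IsW at this ⊢
    rw [map_sub, this, T.d1_d2, sub_zero]
  · have h3 := T.y_spec T.isW_w x
    rw [h1, map_add, map_sub] at h3
    rw [map_sub, ← T.d2_sm]
    have h4 : sm x T.w = T.w + (T.d2 y0 + (T.d2 (sm x m) - T.d2 m)) := by
      rw [h3]; abel
    rw [h4]
    abel
  · intro s hs
    exact h2 s hs

/-- If `Sig x` is empty, there is an invariant flow. -/
theorem exists_omega_inv (x : G) (h : T.Sig x = ∅) : ∃ ω : E →₀ ℤ, T.IsW ω ∧ sm x ω = ω := by
  obtain ⟨ω, y0, h1, h2, h3⟩ := exists_omega T x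
  have h4 : y0 = 0 := by
    ext s
    by_contra hs
    have := h3 s hs
    rw [h] at this
    exact this
  refine ⟨ω, h1, ?_⟩
  rw [h2, h4, map_zero, add_zero]

theorem apply_smul_of_inv {x : G} {ω : E →₀ ℤ} (h : sm x ω = ω) (e : E) : ω (x • e) = ω e := by
  conv_lhs => rw [← h]
  exact sm_smul_apply x ω e

/-- An element of `R (i e)` fixing `e` lies in `R (t e)`. -/
theorem mem_R_t {x : G} {e : E} (h : x • e = e) (hx : x ∈ T.R (T.i e)) : x ∈ T.R (T.t e) := by
  obtain ⟨l, hl, r, hr, hlr⟩ := (T.stabE e x).1 h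
  have hr' : r ∈ T.R (T.i e) := T.R_anti _ _ (T.it e).le hr
  have hl' : l ∈ T.R (T.i e) := by
    have : l = x * r⁻¹ := by rw [hlr, mul_inv_cancel_right]
    rw [this]
    exact (T.R (T.i e)).mul_mem hx ((T.R (T.i e)).inv_mem hr')
  have hl1 : l = 1 := T.LR _ _ hl hl'
  rw [hlr, hl1, one_mul]
  exact hr

theorem mem_R_smul_self (x : G) (v : V) : x ∈ T.R (x • v) ↔ x ∈ T.R v := by
  rw [T.R_smul, inv_mul_cancel, one_mul]

end Rho1

open Rho1

/-- If `x ^ p = 1`, `p` prime, then `x = 1`. Proof: all orbit sums of `y x` vanish (`osum_pow`), so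
`y x = x m - m`, and `ω = w - d2 m` is `x`-invariant and flows from `bot` to `top`. Let
`U = {v | x ∉ R v}` (up-closed, does not contain `bot`). If `top ∉ U` then `x ∈ R top`, `x = 1`.
Otherwise the total coefficient of the crossing edges (`sum_crossing`) is `1`; no crossing edge is
fixed by `x` (if `x • e = e` then `x = l r` with `l ∈ L (i e)`, `r ∈ R (t e) ≤ R (i e)`, so
`l ∈ L (i e) ∩ R (i e) = 1` and `x ∈ R (t e)`), so the crossing edges in the support of `ω`, which
are permuted by `x`, form orbits of size `p` on which `ω` is constant, and `p ∣ 1`. -/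
theorem eq_one_of_pow_prime (hinj : T.Inj) (x : G) (p : ℕ) (hp : p.Prime) (h : x ^ p = 1) :
    x = 1 := by
  classical
  have hSig : T.Sig x = ∅ := by
    rw [← T.Sig_pow hinj x p hp.pos, h, T.Sig_one hinj]
  obtain ⟨ω, hω, hinv⟩ := exists_omega_inv T x hSig
  by_cases htop : x ∈ T.R T.top
  · exact T.R_top x htop
  exfalso
  have hsum := T.sum_crossing hω {v | x ∉ T.R v}
    (fun p q hpq hx hq => hx (T.R_anti p q hpq hq)) htop
    (fun hb => hb (T.mem_R_bot x))
  have hdvd := dvd_sum (ω.support.filter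
      (fun e => T.i e ∉ {v | x ∉ T.R v} ∧ T.t e ∈ {v | x ∉ T.R v})) ω (fun e => x • e) p hp
    (by
      intro e he
      rw [Finset.mem_filter, Finsupp.mem_support_iff] at he ⊢
      refine ⟨?_, ?_, ?_⟩
      · rw [apply_smul_of_inv hinv]
        exact he.1
      · rw [T.i_smul, Set.mem_ofPred_eq, mem_R_smul_self]
        exact he.2.1
      · rw [T.t_smul, Set.mem_ofPred_eq, mem_R_smul_self]
        exact he.2.2)
    (fun e _ => apply_smul_of_inv hinv e)
    (by
      intro e he hfix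
      rw [Finset.mem_filter] at he
      have h1 : x ∈ T.R (T.i e) := by
        by_contra hc
        exact he.2.1 hc
      exact he.2.2 (mem_R_t T hfix h1))
    (by
      intro e
      rw [smul_iterate]
      change x ^ p • e = e
      rw [h, one_smul])
  rw [hsum] at hdvd
  have h2 := Int.le_of_dvd one_pos hdvd
  have h3 := hp.two_le
  omega

theorem torsion_free (hinj : T.Inj) (x : G) (n : ℕ) (hn : 0 < n) (h : x ^ n = 1) : x = 1 := by
  induction n using Nat.strong_induction_on generalizing x with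
  | _ n ih =>
    rcases Nat.lt_or_ge 1 n with h1 | h1
    · have hp := Nat.minFac_prime h1.ne'
      obtain ⟨m, hm⟩ := Nat.minFac_dvd n
      have hm0 : 0 < m := by
        rcases Nat.eq_zero_or_pos m with h0 | h0
        · rw [h0, mul_zero] at hm
          omega
        · exact h0
      have hlt : m < n := by
        rw [hm]
        have := hp.two_le
        nlinarith
      have h2 : (x ^ m) ^ n.minFac = 1 := by
        rw [← pow_mul, mul_comm, ← hm, h]
      exact ih m hlt x hm0 (T.eq_one_of_pow_prime hinj _ _ hp h2)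
    · have : n = 1 := le_antisymm h1 hn
      rw [this, pow_one] at h
      exact h

/-- S3: if `Sig x = ∅` then `y x = x m - m`, and `ω = w - d2 m` is `x`-invariant. Let
`U = {v | ∀ k > 0, x ^ k ∉ R v}`. If `top ∉ U` then `x ^ k = 1` for some `k > 0`, `x = 1`. Otherwise
there is an edge `e` in the support of `ω` with `i e ∉ U`, `t e ∈ U`; it has a finite orbit, so
`x ^ n • e = e` for some `n > 0`, and `x ^ k ∈ R (i e)` for some `k > 0`; then
`x ^ (n k) = l r` with `l ∈ L (i e)`, `r ∈ R (t e)`, and `l = 1`, a contradiction. -/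
theorem eq_one_of_Sig (hinj : T.Inj) (x : G) (h : T.Sig x = ∅) : x = 1 := by
  obtain ⟨ω, hω, hinv⟩ := exists_omega_inv T x h
  by_cases htop : T.top ∈ {v | ∀ k : ℕ, 0 < k → x ^ k ∉ T.R v}
  · exfalso
    obtain ⟨e, he, h1, h2⟩ := T.exists_crossing hω {v | ∀ k : ℕ, 0 < k → x ^ k ∉ T.R v}
      (fun p q hpq hx k hk hq => hx k hk (T.R_anti p q hpq hq)) htop
      (fun hb => hb 1 one_pos (T.mem_R_bot _))
    have hpow : ∀ n : ℕ, ω (x ^ n • e) = ω e := by
      intro n
      induction n with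
      | zero => rw [pow_zero, one_smul]
      | succ n ih => rw [pow_succ', mul_smul, apply_smul_of_inv hinv, ih]
    obtain ⟨n, hn, hfix⟩ := exists_pow_smul ω x e he hpow
    rw [Set.mem_ofPred_eq] at h1
    push Not at h1
    obtain ⟨k, hk, hk'⟩ := h1
    have hfix' : x ^ (n * k) • e = e := by
      rw [pow_mul]
      have h3 : ∀ j : ℕ, (x ^ n) ^ j • e = e := by
        intro j
        induction j with
        | zero => rw [pow_zero, one_smul]
        | succ j ih => rw [pow_succ, mul_smul, hfix, ih]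
      exact h3 k
    have h4 : x ^ (n * k) ∈ T.R (T.i e) := by
      rw [mul_comm, pow_mul]
      exact (T.R (T.i e)).pow_mem hk' n
    exact h2 (n * k) (Nat.mul_pos hn hk) (mem_R_t T hfix' h4)
  · rw [Set.mem_ofPred_eq] at htop
    push Not at htop
    obtain ⟨k, hk, hk'⟩ := htop
    exact T.torsion_free hinj x k hk (T.R_top _ hk')

/-- S5/S6. Let `x ≠ 1`, so `Sig x ≠ ∅`, and `U = {v | ∀ s ∈ Sig x, b s ≤ v}`: up-closed, contains
`top`, not `bot`, and is invariant under `x`. Write `y x = y0 + (x m - m)` with `y0` supported on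
`Sig x` (`exists_decomp`). Suppose `b s ∉ U` for all `s ∈ Sig x`. Then `ω = w - d2 m` satisfies
`x ω - ω = d2 y0`, which vanishes on the edges `e` with `t e ∈ U` (an edge `e` of a face of
`s ∈ Sig x` has `t e ≤ b s`). There is `e` in the support of `ω` with `i e ∉ U`, `t e ∈ U`; as `ω` is
constant on the orbit of `e`, the orbit is finite: `x ^ k • e = e`, `k > 0`, `x ^ k = l r`,
`l ∈ L (i e)`, `r ∈ R (t e)`. `Sig r ⊆ Sig (l r) = Sig x`, and for `s ∈ Sig r`:
`t e ≤ a s < b s ≤ t e`. So `Sig r = ∅`, `r = 1`, `x ^ k ∈ L (i e)`, `Sig x = Sig (x ^ k)` lies below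
`i e`, so `i e ∈ U`, a contradiction. So there is `s ∈ Sig x` with `u = b s ∈ U`; `x • u = u`,
`x = l r` with `l ∈ L u`, `r ∈ R u` and again `Sig r = ∅`, `r = 1`. -/
theorem rho_one (hinj : T.Inj) (x : G) (hx : x ≠ 1) : ∃ v, x ∈ T.L v ∧
    (∀ v', x ∈ T.L v' → v ≤ v') ∧ ∀ v', (∀ s ∈ T.Sig x, T.b s ≤ v') → v ≤ v' := by
  have hne : (T.Sig x).Nonempty := by
    rw [Set.nonempty_iff_ne_empty]
    intro h
    exact hx (T.eq_one_of_Sig hinj x h)
  -- the case of an element of `R v` with `Sig` inside `Sig x`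
  have key : ∀ (v : V) (r : G), (∀ s ∈ T.Sig x, T.b s ≤ v) → r ∈ T.R v → T.Sig r ⊆ T.Sig x →
      r = 1 := by
    intro v r hv hr hsub
    apply T.eq_one_of_Sig hinj r
    rw [Set.eq_empty_iff_forall_notMem]
    intro s hs
    have h1 := T.Sig_R hinj hr hs
    exact absurd (h1.trans_lt (T.ab s)) (not_lt_of_ge (hv s (hsub hs)))
  by_cases hcase : ∃ s ∈ T.Sig x, ∀ s' ∈ T.Sig x, T.b s' ≤ T.b s
  · obtain ⟨s, hs, hmax⟩ := hcase
    have h1 : x • T.b s ≤ T.b s := by
      rw [← T.b_smul]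
      apply hmax
      have := (T.smul_mem_Sig x 1 s).2 hs
      rwa [zpow_one] at this
    have h2 : T.b s ≤ x • T.b s := by
      have h3 : x⁻¹ • T.b s ≤ T.b s := by
        rw [← T.b_smul]
        apply hmax
        have := (T.smul_mem_Sig x (-1) s).2 hs
        rwa [zpow_neg_one] at this
      have h4 := T.smul_le x _ _ h3
      rwa [smul_inv_smul] at h4
    obtain ⟨l, hl, r, hr, hlr⟩ := (T.stabV (T.b s) x).1 (le_antisymm h1 h2)
    have hr1 : r = 1 := by
      apply key (T.b s) r hmax hr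
      have := T.Sig_mul hinj hl hr
      rwa [← hlr] at this
    refine ⟨T.b s, ?_, ?_, ?_⟩
    · rw [hlr, hr1, mul_one]
      exact hl
    · intro v' hv'
      exact T.Sig_L hinj hv' hs
    · intro v' hv'
      exact hv' s hs
  · exfalso
    push Not at hcase
    obtain ⟨ω, y0, hω, h1, h2⟩ := exists_omega T x
    obtain ⟨s0, hs0⟩ := hne
    have hup : ∀ p q, p ≤ q → p ∈ {v | ∀ s ∈ T.Sig x, T.b s ≤ v} →
        q ∈ {v | ∀ s ∈ T.Sig x, T.b s ≤ v} := fun p q hpq hp s hs => (hp s hs).trans hpq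
    obtain ⟨e, he, hi, ht⟩ := T.exists_crossing hω {v | ∀ s ∈ T.Sig x, T.b s ≤ v} hup
      (fun s _ => T.le_top _) (by
        intro hb
        have h3 := (T.ab s0).trans_le (hb s0 hs0)
        exact absurd h3 (not_lt_of_ge (T.bot_le _)))
    have hUinv : ∀ v, v ∈ {v | ∀ s ∈ T.Sig x, T.b s ≤ v} →
        x • v ∈ {v | ∀ s ∈ T.Sig x, T.b s ≤ v} := by
      intro v hv s hs
      have h3 : T.b (x⁻¹ • s) ≤ v := by
        apply hv
        have := (T.smul_mem_Sig x (-1) s).2 hs
        rwa [zpow_neg_one] at this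
      have h4 := T.smul_le x _ _ h3
      rwa [T.b_smul, smul_inv_smul] at h4
    have hzero : ∀ e' : E, T.t e' ∈ {v | ∀ s ∈ T.Sig x, T.b s ≤ v} → T.d2 y0 e' = 0 := by
      intro e' he'
      unfold d2 bd2
      rw [Finsupp.linearCombination_apply, Finsupp.sum, Finsupp.finsetSum_apply]
      apply Finset.sum_eq_zero
      intro s hs
      rw [Finsupp.mem_support_iff] at hs
      have hsS := h2 s hs
      rw [Finsupp.smul_apply, smul_eq_mul]
      by_cases hd : T.d s e' = 0
      · rw [hd, mul_zero]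
      · exfalso
        have h3 := (T.d_supp s e' hd).2
        obtain ⟨s', hs', hlt⟩ := hcase s hsS
        exact hlt ((he' s' hs').trans h3)
    have hstep : ∀ e' : E, T.t e' ∈ {v | ∀ s ∈ T.Sig x, T.b s ≤ v} → ω (x • e') = ω e' := by
      intro e' he'
      have h3 : sm x ω (x • e') = ω e' := sm_smul_apply x ω e'
      rw [h1, Finsupp.add_apply, hzero (x • e') (by rw [T.t_smul]; exact hUinv _ he'),
        add_zero] at h3
      exact h3
    have hpow : ∀ n : ℕ, T.t (x ^ n • e) ∈ {v | ∀ s ∈ T.Sig x, T.b s ≤ v} ∧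
        ω (x ^ n • e) = ω e := by
      intro n
      induction n with
      | zero =>
        rw [pow_zero, one_smul]
        exact ⟨ht, rfl⟩
      | succ n ih =>
        rw [pow_succ', mul_smul, T.t_smul]
        exact ⟨hUinv _ ih.1, (hstep _ ih.1).trans ih.2⟩
    obtain ⟨k, hk, hfix⟩ := exists_pow_smul ω x e he (fun n => (hpow n).2)
    obtain ⟨l, hl, r, hr, hlr⟩ := (T.stabE e (x ^ k)).1 hfix
    have hl' : l ∈ T.L (T.t e) := T.L_mono _ _ (T.it e).le hl
    have hSigk : T.Sig (x ^ k) = T.Sig x := T.Sig_pow hinj x k hk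
    have hr1 : r = 1 := by
      apply key (T.t e) r ht hr
      have := T.Sig_mul hinj hl' hr
      rwa [← hlr, hSigk] at this
    have hxk : x ^ k ∈ T.L (T.i e) := by
      rw [hlr, hr1, mul_one]
      exact hl
    apply hi
    intro s hs
    rw [← hSigk] at hs
    exact T.Sig_L hinj hxk hs

/-- Root-closedness. -/
theorem root_L (hinj : T.Inj) (x : G) (k : ℕ) (hk : 0 < k) (v : V) (h : x ^ k ∈ T.L v) :
    x ∈ T.L v := by
  by_cases hx : x = 1
  · rw [hx]
    exact (T.L v).one_mem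
  obtain ⟨v0, h1, _, h3⟩ := T.rho_one hinj x hx
  apply T.L_mono _ _ (h3 v _) h1
  intro s hs
  rw [← T.Sig_pow hinj x k hk] at hs
  exact T.Sig_L hinj h hs

theorem root_R (hinj : T.Inj) (x : G) (k : ℕ) (hk : 0 < k) (v : V) (h : x ^ k ∈ T.R v) :
    x ∈ T.R v :=
  T.rev.root_L (GDC.rev_inj hinj) x k hk (OrderDual.toDual v) h

end GDC

end Pool.Agent.DG
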