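import Pool.Agent.MP_cff99f_al.Gen.Rho1

/-!
Block Rho2: the least vertex `v` with `A ≤ L v`, for a finitely generated subgroup `A`.
-/

namespace Pool.Agent.DG

universe w u₁ u₂ u₃

namespace GDC

variable {G : Type w} {V : Type u₁} {E : Type u₂} {F : Type u₃} [Group G] [PartialOrder V]
    [MulAction G V] [MulAction G E] [MulAction G F] (T : GDC G V E F)

/-- The part of the derivation `y` on the 2-cells ending at `v` is inner on the subgroup `A`. -/
def InnerAt (A : Subgroup G) (v : V) : Prop :=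
  ∃ m : F →₀ ℤ, ∀ x ∈ A, ∀ s, T.b s = v → T.y T.w x s = (sm x m - m) s

/-- `v` is the least vertex with `A ≤ L v`. -/
def IsRho (A : Subgroup G) (v : V) : Prop := A ≤ T.L v ∧ ∀ v', A ≤ T.L v' → v ≤ v'

theorem rho2_C2_apply {p q : V} {z : F →₀ ℤ} (hz : z ∈ T.C2 p q) {s : F} (hs : z s ≠ 0) :
    p ≤ T.a s ∧ T.b s ≤ q := by
  rw [C2, Finsupp.mem_supported] at hz
  exact hz (Finsupp.mem_support_iff.2 hs)

/-- If `A ≤ L v` and `y` is not inner at `v` then `v` is least: for `A ≤ L v'` compute `y` with a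
chain adapted to `v'`; it lies in `[bot, v']`, and if `v ≤ v'` fails it has no part at `v`. -/
theorem isRho_of_not_inner (hinj : T.Inj) (A : Subgroup G) (v : V) (hA : A ≤ T.L v)
    (h : ¬ T.InnerAt A v) : T.IsRho A v := by
  refine ⟨hA, fun v' hv' => ?_⟩
  by_contra hle
  apply h
  obtain ⟨z1, h1, z2, h2, h1', h2', hz⟩ := T.exists_adapted v'
  obtain ⟨m, hm⟩ := T.y_indep hinj T.isW_w hz
  refine ⟨-m, fun x hx s hs => ?_⟩
  have h3 := T.y_adapted_L hinj h1 h2 hz h1' (hv' hx)
  have h4 : T.y (z1 + z2) x s = 0 := by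
    by_contra hne
    have h5 := (T.rho2_C2_apply h3 hne).2
    rw [hs] at h5
    exact hle h5
  have h6 := congrArg (fun f : F →₀ ℤ => f s) (hm x)
  simp only [Finsupp.add_apply, Finsupp.sub_apply] at h6
  rw [h4] at h6
  rw [map_neg, Finsupp.sub_apply, Finsupp.neg_apply, Finsupp.neg_apply]
  linarith

/-- `y x` vanishes on the cells ending at `v`, for `x` in a subgroup generated by elements for which
this holds. -/
theorem rho2_zero (hinj : T.Inj) (S : Set G) (v : V) (hv : Subgroup.closure S ≤ T.L v)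
    (h : ∀ g ∈ S, ∀ s, T.b s = v → T.y T.w g s = 0) :
    ∀ x ∈ Subgroup.closure S, ∀ s, T.b s = v → T.y T.w x s = 0 := by
  have hfix : ∀ x ∈ Subgroup.closure S, x • v = v := fun x hx => T.smul_of_mem_L (hv hx) le_rfl
  have hb : ∀ x ∈ Subgroup.closure S, ∀ s, T.b s = v → T.b (x • s) = v := by
    intro x hx s hs
    rw [T.b_smul, hs, hfix x hx]
  have hone : T.y T.w 1 = 0 := der_one (T.y T.w) (T.y_mul hinj T.isW_w)
  intro x hx
  induction hx using Subgroup.closure_induction with
  | mem g hg => exact h g hg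
  | one => intro s _; rw [hone]; rfl
  | mul g k hg hk ihg ihk =>
    intro s hs
    rw [T.y_mul hinj T.isW_w, Finsupp.add_apply, ihg s hs, sm_apply,
      ihk _ (hb _ (inv_mem hg) s hs), add_zero]
  | inv g hg ih =>
    intro s hs
    have h1 := T.y_mul hinj T.isW_w g⁻¹ g
    rw [inv_mul_cancel, hone] at h1
    have h2 := congrArg (fun f : F →₀ ℤ => f s) h1
    simp only [Finsupp.add_apply, sm_apply, inv_inv, Finsupp.coe_zero, Pi.zero_apply] at h2
    rw [ih _ (hb _ hg s hs), add_zero] at h2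
    exact h2.symm

open Classical in
/-- One inner derivation for all the cells ending in `U`. -/
theorem rho2_glue (hinj : T.Inj) (A : Subgroup G) (hA : A.FG)
    (h : ∀ v, A ≤ T.L v → T.InnerAt A v) :
    ∃ m : F →₀ ℤ, ∀ x ∈ A, ∀ s, A ≤ T.L (T.b s) → T.y T.w x s = (sm x m - m) s := by
  obtain ⟨S, hS⟩ := hA
  -- the finitely many relevant vertices
  let Vf : Finset V := (S.biUnion fun g => (T.y T.w g).support.image T.b).filter
    fun v => A ≤ T.L v
  choose! mv hmv using h
  let m : F →₀ ℤ := ∑ v ∈ Vf, (mv v).filter fun s => T.b s = v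
  have hm : ∀ s, m s = if T.b s ∈ Vf then mv (T.b s) s else 0 := by
    intro s
    simp only [m, Finsupp.finsetSum_apply, Finsupp.filter_apply]
    rw [Finset.sum_ite_eq]
  refine ⟨m, fun x hx s hs => ?_⟩
  have hfix : x⁻¹ • T.b s = T.b s := T.smul_of_mem_L (hs (inv_mem hx)) le_rfl
  have hbx : T.b (x⁻¹ • s) = T.b s := by rw [T.b_smul, hfix]
  rw [Finsupp.sub_apply, sm_apply, hm, hm, hbx]
  by_cases hV : T.b s ∈ Vf
  · rw [if_pos hV, if_pos hV]
    have h1 := hmv (T.b s) hs x hx s rfl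
    rw [Finsupp.sub_apply, sm_apply] at h1
    exact h1
  · rw [if_neg hV, if_neg hV, sub_zero]
    have h2 : ∀ g ∈ (S : Set G), ∀ s', T.b s' = T.b s → T.y T.w g s' = 0 := by
      intro g hg s' hs'
      by_contra hne
      apply hV
      rw [Finset.mem_filter]
      refine ⟨?_, hs⟩
      rw [Finset.mem_biUnion]
      exact ⟨g, hg, Finset.mem_image.2 ⟨s', Finsupp.mem_support_iff.2 hne, hs'⟩⟩
    have h3 := T.rho2_zero hinj (S : Set G) (T.b s) (by rw [hS]; exact hs) h2 x
      (by rw [hS]; exact hx) s rfl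
    exact h3

/-- Suppose `y` is inner at all `v` with `A ≤ L v`. As `A` is finitely generated only finitely many
`v` are involved and there is one `m` with `y x = x m - m` on all 2-cells `s` with
`A ≤ L (b s)`, for all `x ∈ A`. Let `ω = w - d2 m` and `U = {v | A ≤ L v}` (contains `top`, not `bot`
as `A ≠ ⊥`). `ω` is invariant under `A` on the edges ending in `U`. Crossing edge `e` of `U`: its
`A`-orbit is finite, so for every `x ∈ A` some `x ^ k`, `k > 0`, fixes `e`; `x ^ k = l r`, with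
`l ∈ L (i e)`, `r ∈ R (t e) ∩ L (t e) = 1`; so `x ^ k ∈ L (i e)` and `x ∈ L (i e)` by `root_L`. So
`i e ∈ U`, a contradiction. -/
theorem exists_not_inner (hinj : T.Inj) (A : Subgroup G) (hA : A.FG) (hne : A ≠ ⊥) :
    ∃ v, A ≤ T.L v ∧ ¬ T.InnerAt A v := by
  by_contra hcon
  push Not at hcon
  obtain ⟨m, hm⟩ := T.rho2_glue hinj A hA hcon
  set ω : E →₀ ℤ := T.w - T.d2 m with hω
  have hWω : T.d1 ω = Finsupp.single T.top (1 : ℤ) - Finsupp.single T.bot (1 : ℤ) := by
    rw [hω, map_sub, T.d1_d2, sub_zero]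
    exact T.isW_w
  -- invariance
  have hinv : ∀ x ∈ A, ∀ e, A ≤ T.L (T.t e) → ω (x⁻¹ • e) = ω e := by
    intro x hx e he
    have h1 : sm x ω - ω = T.d2 (T.y T.w x - (sm x m - m)) := by
      have e1 : T.d2 (T.y T.w x - (sm x m - m)) =
          T.d2 (T.y T.w x) - (T.d2 (sm x m) - T.d2 m) := by rw [map_sub, map_sub]
      rw [e1, T.y_spec T.isW_w, T.d2_sm, hω, map_sub]
      abel
    have h2 : (T.d2 (T.y T.w x - (sm x m - m))) e = 0 := by
      rw [d2, bd2, Finsupp.linearCombination_apply, Finsupp.sum, Finsupp.finsetSum_apply]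
      refine Finset.sum_eq_zero fun s hs => ?_
      rw [Finsupp.smul_apply, smul_eq_mul]
      by_contra hne0
      have h3 : T.d s e ≠ 0 := fun h0 => hne0 (by rw [h0, mul_zero])
      have h4 := (T.d_supp s e h3).2
      have h5 : A ≤ T.L (T.b s) := he.trans (T.L_mono _ _ h4)
      have h6 := hm x hx s h5
      apply hne0
      rw [Finsupp.sub_apply, h6, sub_self, zero_mul]
    rw [← h1, Finsupp.sub_apply, sm_apply] at h2
    exact sub_eq_zero.1 h2
  -- the crossing edge
  obtain ⟨e, he0, hei, het⟩ := T.exists_crossing hWω {v | A ≤ T.L v}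
    (fun p q hpq hp => le_trans hp (T.L_mono p q hpq)) (fun x _ => T.mem_L_top x) (by
      intro hbot
      apply hne
      rw [Subgroup.eq_bot_iff_forall]
      intro x hx
      exact T.L_bot x (hbot hx))
  apply hei
  intro x hx
  have hte : A ≤ T.L (T.t e) := het
  -- the orbit of `e` is finite
  have horb : ∀ n : ℕ, ω (x ^ n • e) = ω e := by
    intro n
    have h1 := hinv ((x ^ n)⁻¹) (inv_mem (pow_mem hx n)) e hte
    rwa [inv_inv] at h1
  have hfin : ∃ k : ℕ, 0 < k ∧ x ^ k • e = e := by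
    have h1 : ∀ n : ℕ, x ^ n • e ∈ (ω.support : Set E) := by
      intro n
      rw [Finset.mem_coe, Finsupp.mem_support_iff, horb n]
      exact he0
    obtain ⟨a, b, hab, hEq⟩ := Set.Finite.exists_lt_map_eq_of_forall_mem (t := (ω.support : Set E))
      (f := fun n : ℕ => x ^ n • e) h1 ω.support.finite_toSet
    refine ⟨b - a, by omega, ?_⟩
    have h2 : x ^ a • (x ^ (b - a) • e) = x ^ a • e := by
      rw [← mul_smul, ← pow_add]
      have h3 : a + (b - a) = b := by omega
      rw [h3]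
      exact hEq.symm
    exact MulAction.injective _ h2
  obtain ⟨k, hk, hke⟩ := hfin
  obtain ⟨l, hl, r, hr, hlr⟩ := (T.stabE e (x ^ k)).1 hke
  have hl' : l ∈ T.L (T.t e) := T.L_mono _ _ (T.it e).le hl
  have hr' : r ∈ T.L (T.t e) := by
    have h1 : r = l⁻¹ * x ^ k := by rw [hlr]; group
    rw [h1]
    exact mul_mem (inv_mem hl') (pow_mem (hte hx) k)
  have hr1 : r = 1 := T.LR _ _ hr' hr
  apply T.root_L hinj x k hk
  rw [hlr, hr1, mul_one]
  exact hl

theorem exists_isRho (hinj : T.Inj) (A : Subgroup G) (hA : A.FG) : ∃ v, T.IsRho A v := by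
  by_cases hne : A = ⊥
  · refine ⟨T.bot, ?_, fun v' _ => T.bot_le v'⟩
    rw [hne]
    exact bot_le
  · obtain ⟨v, hv, hn⟩ := T.exists_not_inner hinj A hA hne
    exact ⟨v, T.isRho_of_not_inner hinj A v hv hn⟩

theorem IsRho.unique {A : Subgroup G} {v v' : V} (h : T.IsRho A v) (h' : T.IsRho A v') : v = v' :=
  le_antisymm (h.2 _ h'.1) (h'.2 _ h.1)

theorem IsRho.not_inner (hinj : T.Inj) {A : Subgroup G} (hA : A.FG) (hne : A ≠ ⊥) {v : V}
    (h : T.IsRho A v) : ¬ T.InnerAt A v := by
  obtain ⟨v', hv', hn⟩ := T.exists_not_inner hinj A hA hne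
  have h' := T.isRho_of_not_inner hinj A v' hv' hn
  have : v = v' := IsRho.unique T h h'
  rw [this]
  exact hn

/-- If `y` is not inner at `v` then `v` is the end point of a 2-cell in the support of `y x` for
some `x ∈ A`. -/
theorem exists_cell_of_not_inner {A : Subgroup G} {v : V} (h : ¬ T.InnerAt A v) :
    ∃ x ∈ A, ∃ s, T.b s = v ∧ T.y T.w x s ≠ 0 := by
  by_contra hcon
  push Not at hcon
  apply h
  refine ⟨0, fun x hx s hs => ?_⟩
  rw [hcon x hx s hs]
  simp

end GDC

end Pool.Agent.DG
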