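import Pool.Agent.MP_cff99f_al.Gen.Stage

/-!
Block SPrime: the chain endomorphism `s'` killing the 2-cycles.
-/

namespace Pool.Agent.DG

universe w u₁ u₂ u₃ v₂ v₃ z₀ z₁ z₂

namespace SP

theorem lc_mem {X M : Type*} [AddCommGroup M] (f : X → M) (P : Submodule ℤ M) (z : X →₀ ℤ)
    (h : ∀ x, z x ≠ 0 → f x ∈ P) : Finsupp.linearCombination ℤ f z ∈ P := by
  rw [Finsupp.linearCombination_apply]
  exact Submodule.sum_mem _ fun x hx => P.smul_mem _ (h x (Finsupp.mem_support_iff.1 hx))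

theorem lext {X M : Type*} [AddCommGroup M] {φ ψ : (X →₀ ℤ) →ₗ[ℤ] M}
    (h : ∀ x, φ (Finsupp.single x 1) = ψ (Finsupp.single x 1)) : φ = ψ :=
  Finsupp.lhom_ext' fun x => LinearMap.ext_ring (h x)

theorem lc_sm {G : Type*} [Group G] {X Y : Type*} [MulAction G X] [MulAction G Y]
    (f : X → (Y →₀ ℤ)) (hf : ∀ (g : G) x, f (g • x) = sm g (f x)) (g : G) (z : X →₀ ℤ) :
    Finsupp.linearCombination ℤ f (sm g z) = sm g (Finsupp.linearCombination ℤ f z) := by
  have : (Finsupp.linearCombination ℤ f).comp (sm g) =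
      (sm g).comp (Finsupp.linearCombination ℤ f) := by
    refine lext fun x => ?_
    rw [LinearMap.comp_apply, LinearMap.comp_apply, sm_single, Finsupp.linearCombination_single,
      Finsupp.linearCombination_single, one_smul, one_smul, hf]
  exact LinearMap.congr_fun this z

theorem sumCoeff_lmap {X Y : Type*} (f : X → Y) (z : X →₀ ℤ) :
    sumCoeff Y (Finsupp.lmapDomain ℤ ℤ f z) = sumCoeff X z := by
  induction z using Finsupp.induction_linear with
  | zero => simp
  | add f g hf hg => rw [map_add, map_add, map_add, hf, hg]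
  | single x n =>
    rw [Finsupp.lmapDomain_apply, Finsupp.mapDomain_single, FPAlg.sumCoeff_single,
      FPAlg.sumCoeff_single]

section

variable {G : Type w} [Group G] {V : Type u₁} [PartialOrder V] [MulAction G V]

/-- The least closed vertex `p x` with `A x ≤ L (p x)` and the greatest `q x` with
`B x ≤ R (q x)`. -/
theorem exists_pq (T : VD G V) (Q : SubMulAction G V) (hQ : PP T Q) {X : Type*} [MulAction G X]
    (M : Mark G X) (h : ∀ x, (M.A x).FG ∧ (M.B x).FG ∧ ∃ v, M.A x ≤ T.L v ∧ M.B x ≤ T.R v) :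
    ∃ p q : X → Q, (∀ x, M.A x ≤ T.L (p x).1) ∧
      (∀ x (r : Q), M.A x ≤ T.L r.1 → p x ≤ r) ∧ (∀ x, M.B x ≤ T.R (q x).1) ∧
      (∀ x (r : Q), M.B x ≤ T.R r.1 → r ≤ q x) ∧ (∀ x, p x ≤ q x) ∧
      (∀ (g : G) x, p (g • x) = g • p x) ∧ (∀ (g : G) x, q (g • x) = g • q x) := by
  choose p hp1 hp2 hp3 using fun x => hQ.exL (M.A x) (h x).1
  choose q hq1 hq2 hq3 using fun x => hQ.exR (M.B x) (h x).2.1
  have hinv : ∀ (g : G) (a b : V), a ≤ g⁻¹ • b → g • a ≤ b := by
    intro g a b hab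
    have := T.smul_le g _ _ hab
    rwa [smul_inv_smul] at this
  have hinv' : ∀ (g : G) (a b : V), g⁻¹ • a ≤ b → a ≤ g • b := by
    intro g a b hab
    have := T.smul_le g _ _ hab
    rwa [smul_inv_smul] at this
  refine ⟨fun x => ⟨p x, hp1 x⟩, fun x => ⟨q x, hq1 x⟩, hp2, fun x r hr => hp3 x r.1 r.2 hr, hq2,
    fun x r hr => hq3 x r.1 r.2 hr, fun x => ?_, fun g x => ?_, fun g x => ?_⟩
  · obtain ⟨v, hv1, hv2⟩ := (h x).2.2
    exact hQ.cross (M.A x) (M.B x) (h x).1 (h x).2.1 v (p x) (q x) hv1 hv2 (hp3 x) (hq3 x)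
  · apply le_antisymm
    · refine hp3 (g • x) (g • p x) (Q.smul_mem g (hp1 x)) fun k hk => ?_
      rw [M.A_smul] at hk
      rw [T.L_smul]
      exact hp2 x hk
    · refine hinv g (p x) (p (g • x)) (hp3 x _ (Q.smul_mem g⁻¹ (hp1 _)) fun k hk => ?_)
      rw [T.L_smul]
      apply hp2
      rw [M.A_smul]
      have e : g⁻¹ * (g⁻¹⁻¹ * k * g⁻¹) * g = k := by group
      rw [e]
      exact hk
  · apply le_antisymm
    · refine hinv' g (q (g • x)) (q x) (hq3 x _ (Q.smul_mem g⁻¹ (hq1 _)) fun k hk => ?_)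
      rw [T.R_smul]
      apply hq2
      rw [M.B_smul]
      have e : g⁻¹ * (g⁻¹⁻¹ * k * g⁻¹) * g = k := by group
      rw [e]
      exact hk
    · refine hq3 (g • x) (g • q x) (Q.smul_mem g (hq1 x)) fun k hk => ?_
      rw [M.B_smul] at hk
      rw [T.R_smul]
      exact hq2 x hk

end

end SP

/-- The endomorphism `s'` from stage data.
For a point `x` of `X0`, `X1`, `X2` let `p x ∈ Q` be the least closed vertex with
`A x ≤ L (p x)` and `q x` the greatest with `B x ≤ R (q x)` (`PP.exL`, `PP.exR`). By `PP.cross` (at the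
anchor `v`) `p x ≤ q x`, and if `A x ≤ A x'`, `B x ≤ B x'` then
`p x ≤ p x' ≤ q x' ≤ q x`. `A x` and `B x` act trivially on the chains of `[p x, q x]` (`sm_C1_of_L`
etc.); `p (g x) = g (p x)`.
(4) `g0 x = p x` on `X0`, extended linearly; `g0 (f0 p) = p` because `f0 p` is supported
on points `x` with `A x = L p`, of total weight `1`, and `p x = p` for those (`PP.le_of_L`).
(5) `exists_equivariant_choice`: `g1 x ∈ U.C1 (p x) (q x)` with `U.d1 (g1 x) = g0 (d1 x)`
(`exact0`: `d1 x` has total weight `0`).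
(6) `g2 x ∈ U.C2 (p x) (q x)` with `U.d2 (g2 x) = g1 (d2 x)` (`exact1`).
(7) `h1 e ∈ U.C2 (i e) (t e)` with `U.d2 (h1 e) = e - g1 (f1 e)`: `f1 e` is supported on points
`x` with `L (i e) ≤ A x`, `R (t e) ≤ B x`, so `i e ≤ p x`, `q x ≤ t e`.
(8) `s' = g2 f2 + h1 U.d2`. -/
theorem exists_sprime_of_stage {G : Type w} [Group G]
    {V : Type u₁} {E : Type u₂} {F : Type u₃} [PartialOrder V]
    [MulAction G V] [MulAction G E] [MulAction G F] (T : GDC G V E F)
    (Q : SubMulAction G V) (hQ : PP T.toVD Q)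
    {E' : Type v₂} {F' : Type v₃} [MulAction G E'] [MulAction G F'] (U : GDC G Q E' F')
    (hL : ∀ p, U.L p = T.L p.1) (hR : ∀ p, U.R p = T.R p.1)
    {X0 : Type z₀} {X1 : Type z₁} {X2 : Type z₂} [MulAction G X0] [MulAction G X1]
    [MulAction G X2] (St : Stage T Q U X0 X1 X2) :
    ∃ s' : (F' →₀ ℤ) →ₗ[ℤ] (F' →₀ ℤ), (∀ (g : G) z, s' (sm g z) = sm g (s' z)) ∧
      (∀ s, s' (Finsupp.single s 1) ∈ U.C2 (U.a s) (U.b s)) ∧
      (∀ z, U.d2 (s' z) = U.d2 z) ∧ ∀ z, U.d2 z = 0 → s' z = 0 := by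
  obtain ⟨p0, q0, A0, A0', B0, B0', pq0, ps0, qs0⟩ := SP.exists_pq T.toVD Q hQ St.M0 St.fg0
  obtain ⟨p1, q1, A1, A1', B1, B1', pq1, ps1, qs1⟩ := SP.exists_pq T.toVD Q hQ St.M1 St.fg1
  obtain ⟨p2, q2, A2, A2', B2, B2', pq2, ps2, qs2⟩ := SP.exists_pq T.toVD Q hQ St.M2 St.fg2
  -- (4)
  let g0 : (X0 →₀ ℤ) →ₗ[ℤ] (Q →₀ ℤ) := Finsupp.lmapDomain ℤ ℤ p0
  have g0_single : ∀ x, g0 (Finsupp.single x 1) = Finsupp.single (p0 x) 1 := fun x => by
    simp only [g0, Finsupp.lmapDomain_apply, Finsupp.mapDomain_single]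
  have g0_sm : ∀ (g : G) z, g0 (sm g z) = sm g (g0 z) := by
    intro g z
    have : g0.comp (sm g) = (sm g).comp g0 := by
      refine SP.lext fun x => ?_
      rw [LinearMap.comp_apply, LinearMap.comp_apply, sm_single, g0_single, g0_single, sm_single,
        ps0]
    exact LinearMap.congr_fun this z
  have g0_mem : ∀ (P : Submodule ℤ (Q →₀ ℤ)) (z : X0 →₀ ℤ),
      (∀ x, z x ≠ 0 → Finsupp.single (p0 x) 1 ∈ P) → g0 z ∈ P := by
    intro P z hz
    have h1 : g0 = Finsupp.linearCombination ℤ fun x => Finsupp.single (p0 x) (1 : ℤ) := by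
      refine SP.lext fun x => ?_
      rw [g0_single, Finsupp.linearCombination_single, one_smul]
    rw [h1]
    exact SP.lc_mem _ P z hz
  have g0_f0 : ∀ z, g0 (St.f0 z) = z := by
    intro z
    have : g0.comp St.f0 = LinearMap.id := by
      refine SP.lext fun p => ?_
      rw [LinearMap.comp_apply, LinearMap.id_apply]
      have h1 : g0 (St.f0 (Finsupp.single p 1)) ∈ Submodule.span ℤ {Finsupp.single p (1 : ℤ)} := by
        refine g0_mem _ _ fun x hx => ?_
        have h2 := St.supp_f0 p x hx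
        have h3 : p0 x = p := by
          apply le_antisymm
          · exact A0' x p (le_of_eq h2)
          · exact hQ.le_of_L _ p.2 _ (p0 x).2 (by rw [← h2]; exact A0 x)
        rw [h3]
        exact Submodule.mem_span_singleton_self _
      obtain ⟨n, hn⟩ := Submodule.mem_span_singleton.1 h1
      have h4 : sumCoeff Q (g0 (St.f0 (Finsupp.single p 1))) = 1 :=
        (SP.sumCoeff_lmap p0 _).trans (St.sum_f0 p)
      rw [← hn, Finsupp.smul_single, FPAlg.sumCoeff_single] at h4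
      rw [← hn, Finsupp.smul_single, h4]
    exact LinearMap.congr_fun this z
  -- (5)
  obtain ⟨k1, hk1, hk1s⟩ := exists_equivariant_choice (G := G) (X := X1) (M := E' →₀ ℤ)
    (fun g z => sm g z) (fun m => sm_one m) (fun g h m => sm_mul g h m)
    (fun x => {y | y ∈ U.C1 (p1 x) (q1 x) ∧ U.d1 y = g0 (St.d1 (Finsupp.single x 1))})
    (fun x => by
      have h1 : g0 (St.d1 (Finsupp.single x 1)) ∈
          Finsupp.supported ℤ ℤ {v : Q | p1 x ≤ v ∧ v ≤ q1 x} := by
        refine g0_mem _ _ fun x' hx' => ?_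
        obtain ⟨h2, h3⟩ := St.supp_d1 x x' hx'
        refine Finsupp.single_mem_supported ℤ _ ⟨A1' x _ (h2.trans (A0 x')), ?_⟩
        exact (pq0 x').trans (B1' x _ (h3.trans (B0 x')))
      obtain ⟨y, hy, hy'⟩ := U.exact0 h1 (by
        rw [show sumCoeff Q (g0 (St.d1 (Finsupp.single x 1))) = _ from SP.sumCoeff_lmap p0 _]
        exact St.sum_d1 _)
      exact ⟨y, hy, hy'⟩)
    (fun g x m hm => by
      refine ⟨?_, ?_⟩
      · rw [ps1, qs1]
        exact U.sm_mem_C1 g hm.1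
      · rw [U.d1_sm, hm.2, ← g0_sm, ← St.d1_sm, sm_single])
    (fun g x m hm hg => by
      obtain ⟨a, ha, b, hb, rfl⟩ := (St.M1.stab x g).1 hg
      have h1 : sm a m = m := U.sm_C1_of_L (by rw [hL]; exact A1 x ha) hm.1
      have h2 : sm b m = m := U.sm_C1_of_R (by rw [hR]; exact B1 x hb) hm.1
      change sm (a * b) m = m
      rw [sm_mul, h2, h1])
  let g1 : (X1 →₀ ℤ) →ₗ[ℤ] (E' →₀ ℤ) := Finsupp.linearCombination ℤ k1
  have g1_single : ∀ x, g1 (Finsupp.single x 1) = k1 x := fun x => by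
    simp only [g1, Finsupp.linearCombination_single, one_smul]
  have g1_sm : ∀ (g : G) z, g1 (sm g z) = sm g (g1 z) := SP.lc_sm k1 hk1s
  have d1_g1 : ∀ z, U.d1 (g1 z) = g0 (St.d1 z) := by
    intro z
    have : U.d1.comp g1 = g0.comp St.d1 := by
      refine SP.lext fun x => ?_
      rw [LinearMap.comp_apply, LinearMap.comp_apply, g1_single]
      exact (hk1 x).2
    exact LinearMap.congr_fun this z
  -- (6)
  obtain ⟨k2, hk2, hk2s⟩ := exists_equivariant_choice (G := G) (X := X2) (M := F' →₀ ℤ)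
    (fun g z => sm g z) (fun m => sm_one m) (fun g h m => sm_mul g h m)
    (fun x => {y | y ∈ U.C2 (p2 x) (q2 x) ∧ U.d2 y = g1 (St.d2 (Finsupp.single x 1))})
    (fun x => by
      have h1 : g1 (St.d2 (Finsupp.single x 1)) ∈ U.C1 (p2 x) (q2 x) := by
        refine SP.lc_mem _ _ _ fun x' hx' => ?_
        obtain ⟨h2, h3⟩ := St.supp_d2 x x' hx'
        exact U.C1_mono (A2' x _ (h2.trans (A1 x'))) (B2' x _ (h3.trans (B1 x'))) (hk1 x').1
      obtain ⟨y, hy, hy'⟩ := U.exact1 (pq2 x) h1 (by rw [d1_g1, St.d1_d2, map_zero])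
      exact ⟨y, hy, hy'⟩)
    (fun g x m hm => by
      refine ⟨?_, ?_⟩
      · rw [ps2, qs2]
        exact U.sm_mem_C2 g hm.1
      · rw [U.d2_sm, hm.2, ← g1_sm, ← St.d2_sm, sm_single])
    (fun g x m hm hg => by
      obtain ⟨a, ha, b, hb, rfl⟩ := (St.M2.stab x g).1 hg
      have h1 : sm a m = m := U.sm_C2_of_L (by rw [hL]; exact A2 x ha) hm.1
      have h2 : sm b m = m := U.sm_C2_of_R (by rw [hR]; exact B2 x hb) hm.1
      change sm (a * b) m = m
      rw [sm_mul, h2, h1])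
  let g2 : (X2 →₀ ℤ) →ₗ[ℤ] (F' →₀ ℤ) := Finsupp.linearCombination ℤ k2
  have g2_single : ∀ x, g2 (Finsupp.single x 1) = k2 x := fun x => by
    simp only [g2, Finsupp.linearCombination_single, one_smul]
  have g2_sm : ∀ (g : G) z, g2 (sm g z) = sm g (g2 z) := SP.lc_sm k2 hk2s
  have d2_g2 : ∀ z, U.d2 (g2 z) = g1 (St.d2 z) := by
    intro z
    have : U.d2.comp g2 = g1.comp St.d2 := by
      refine SP.lext fun x => ?_
      rw [LinearMap.comp_apply, LinearMap.comp_apply, g2_single]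
      exact (hk2 x).2
    exact LinearMap.congr_fun this z
  -- (7)
  obtain ⟨kh, hkh, hkhs⟩ := exists_equivariant_choice (G := G) (X := E') (M := F' →₀ ℤ)
    (fun g z => sm g z) (fun m => sm_one m) (fun g h m => sm_mul g h m)
    (fun e => {y | y ∈ U.C2 (U.i e) (U.t e) ∧
      U.d2 y = Finsupp.single e 1 - g1 (St.f1 (Finsupp.single e 1))})
    (fun e => by
      have h1 : Finsupp.single e 1 - g1 (St.f1 (Finsupp.single e 1)) ∈ U.C1 (U.i e) (U.t e) := by
        refine Submodule.sub_mem _ (Finsupp.single_mem_supported ℤ _ ⟨le_rfl, le_rfl⟩) ?_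
        refine SP.lc_mem _ _ _ fun x' hx' => ?_
        obtain ⟨h2, h3⟩ := St.supp_f1 e x' hx'
        rw [hL] at h2
        rw [hR] at h3
        exact U.C1_mono (hQ.le_of_L _ (U.i e).2 _ (p1 x').2 (h2.trans (A1 x')))
          (hQ.le_of_R _ (q1 x').2 _ (U.t e).2 (h3.trans (B1 x'))) (hk1 x').1
      obtain ⟨y, hy, hy'⟩ := U.exact1 (le_of_lt (U.it e)) h1 (by
        rw [map_sub, d1_g1, St.d1_f1, g0_f0, sub_self])
      exact ⟨y, hy, hy'⟩)
    (fun g e m hm => by
      refine ⟨?_, ?_⟩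
      · rw [U.i_smul, U.t_smul]
        exact U.sm_mem_C2 g hm.1
      · rw [U.d2_sm, hm.2, map_sub, ← g1_sm, ← St.f1_sm, sm_single])
    (fun g e m hm hg => by
      obtain ⟨a, ha, b, hb, rfl⟩ := (U.stabE e g).1 hg
      have h1 : sm a m = m := U.sm_C2_of_L ha hm.1
      have h2 : sm b m = m := U.sm_C2_of_R hb hm.1
      change sm (a * b) m = m
      rw [sm_mul, h2, h1])
  let h1 : (E' →₀ ℤ) →ₗ[ℤ] (F' →₀ ℤ) := Finsupp.linearCombination ℤ kh
  have h1_single : ∀ x, h1 (Finsupp.single x 1) = kh x := fun x => by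
    simp only [h1, Finsupp.linearCombination_single, one_smul]
  have h1_sm : ∀ (g : G) z, h1 (sm g z) = sm g (h1 z) := SP.lc_sm kh hkhs
  have d2_h1 : ∀ z, U.d2 (h1 z) = z - g1 (St.f1 z) := by
    intro z
    have : U.d2.comp h1 = LinearMap.id - g1.comp St.f1 := by
      refine SP.lext fun x => ?_
      rw [LinearMap.comp_apply, h1_single, LinearMap.sub_apply, LinearMap.comp_apply,
        LinearMap.id_apply]
      exact (hkh x).2
    exact LinearMap.congr_fun this z
  -- (8)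
  refine ⟨g2.comp St.f2 + h1.comp U.d2, ?_, ?_, ?_, ?_⟩
  · intro g z
    rw [LinearMap.add_apply, LinearMap.add_apply, LinearMap.comp_apply, LinearMap.comp_apply,
      LinearMap.comp_apply, LinearMap.comp_apply, St.f2_sm, g2_sm, U.d2_sm, h1_sm, map_add]
  · intro s
    rw [LinearMap.add_apply, LinearMap.comp_apply, LinearMap.comp_apply]
    refine Submodule.add_mem _ ?_ ?_
    · refine SP.lc_mem _ _ _ fun x' hx' => ?_
      obtain ⟨h2, h3⟩ := St.supp_f2 s x' hx'
      rw [hL] at h2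
      rw [hR] at h3
      exact U.C2_mono (hQ.le_of_L _ (U.a s).2 _ (p2 x').2 (h2.trans (A2 x')))
        (hQ.le_of_R _ (q2 x').2 _ (U.b s).2 (h3.trans (B2 x'))) (hk2 x').1
    · refine SP.lc_mem _ _ _ fun e he => ?_
      have h2 : U.d2 (Finsupp.single s 1) = U.d s := by
        change Finsupp.linearCombination ℤ U.d (Finsupp.single s 1) = U.d s
        rw [Finsupp.linearCombination_single, one_smul]
      rw [h2] at he
      obtain ⟨h3, h4⟩ := U.d_supp s e he
      exact U.C2_mono h3 h4 (hkh e).1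
  · intro z
    rw [LinearMap.add_apply, LinearMap.comp_apply, LinearMap.comp_apply, map_add, d2_g2, d2_h1,
      St.d2_f2]
    abel
  · intro z hz
    rw [LinearMap.add_apply, LinearMap.comp_apply, LinearMap.comp_apply, St.f2_cyc z hz, hz,
      map_zero, map_zero, add_zero]

/-- `T` is a directed complex with injective boundary on 2-cells, `Q` a set of vertices with the
properties `PP`, and `U` a directed complex with set of vertices `Q` (and `L`, `R` as in `T`) with
finitely many orbits of edges and 2-cells and a finitely generated module of 2-cycles. Then there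
is an equivariant endomorphism `s'` of the chains of 2-cells of `U` which is local, compatible with
the boundary, and kills the 2-cycles. -/
theorem exists_sprime {G : Type w} [Group G]
    {V : Type u₁} {E : Type u₂} {F : Type u₃} [PartialOrder V]
    [MulAction G V] [MulAction G E] [MulAction G F] (T : GDC G V E F) (hinj : T.Inj)
    (Q : SubMulAction G V) (hQ : PP T.toVD Q)
    {E' : Type v₂} {F' : Type v₃} [MulAction G E'] [MulAction G F'] (U : GDC G Q E' F')
    (hL : ∀ p, U.L p = T.L p.1) (hR : ∀ p, U.R p = T.R p.1)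
    (hE : Finite (MulAction.orbitRel.Quotient G E'))
    (hF : Finite (MulAction.orbitRel.Quotient G F'))
    (S : Finset (F' →₀ ℤ)) (hS : ∀ z ∈ S, U.d2 z = 0)
    (hgen : ∀ z, U.d2 z = 0 → z ∈ AddSubgroup.closure {y | ∃ g : G, ∃ s ∈ S, y = sm g s}) :
    ∃ s' : (F' →₀ ℤ) →ₗ[ℤ] (F' →₀ ℤ), (∀ (g : G) z, s' (sm g z) = sm g (s' z)) ∧
      (∀ s, s' (Finsupp.single s 1) ∈ U.C2 (U.a s) (U.b s)) ∧
      (∀ z, U.d2 (s' z) = U.d2 z) ∧ ∀ z, U.d2 z = 0 → s' z = 0 := by
  obtain ⟨X0, X1, X2, _, _, _, ⟨St⟩⟩ := exists_stage T hinj Q hQ U hL hR hE hF S hS hgen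
  exact exists_sprime_of_stage T Q hQ U hL hR St

end Pool.Agent.DG
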