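import Pool.Agent.MP_cff99f_al.Gen.ChainF
import Pool.Agent.MP_cff99f_al.Gen.PP

/-!
Block Stage: the finite stage of the complex `T` over which the chain map factors.
-/

namespace Pool.Agent.DG

universe w u₁ u₂ u₃ v₂ v₃ z₀ z₁ z₂

/-- Finite stage data for `U → T`, see `exists_stage`. -/
structure Stage {G : Type w} [Group G]
    {V : Type u₁} {E : Type u₂} {F : Type u₃} [PartialOrder V]
    [MulAction G V] [MulAction G E] [MulAction G F] (T : GDC G V E F)
    (Q : SubMulAction G V)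
    {E' : Type v₂} {F' : Type v₃} [MulAction G E'] [MulAction G F'] (U : GDC G Q E' F')
    (X0 : Type z₀) (X1 : Type z₁) (X2 : Type z₂) [MulAction G X0] [MulAction G X1]
    [MulAction G X2] where
  M0 : Mark G X0
  M1 : Mark G X1
  M2 : Mark G X2
  f0 : (Q →₀ ℤ) →ₗ[ℤ] (X0 →₀ ℤ)
  f1 : (E' →₀ ℤ) →ₗ[ℤ] (X1 →₀ ℤ)
  f2 : (F' →₀ ℤ) →ₗ[ℤ] (X2 →₀ ℤ)
  d1 : (X1 →₀ ℤ) →ₗ[ℤ] (X0 →₀ ℤ)
  d2 : (X2 →₀ ℤ) →ₗ[ℤ] (X1 →₀ ℤ)
  f0_sm : ∀ (g : G) z, f0 (sm g z) = sm g (f0 z)
  f1_sm : ∀ (g : G) z, f1 (sm g z) = sm g (f1 z)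
  f2_sm : ∀ (g : G) z, f2 (sm g z) = sm g (f2 z)
  d1_sm : ∀ (g : G) z, d1 (sm g z) = sm g (d1 z)
  d2_sm : ∀ (g : G) z, d2 (sm g z) = sm g (d2 z)
  /-- the squares commute -/
  d1_d2 : ∀ z, d1 (d2 z) = 0
  d1_f1 : ∀ z, d1 (f1 z) = f0 (U.d1 z)
  d2_f2 : ∀ z, d2 (f2 z) = f1 (U.d2 z)
  /-- 2-cycles are killed -/
  f2_cyc : ∀ z, U.d2 z = 0 → f2 z = 0
  /-- augmentations -/
  sum_d1 : ∀ z, sumCoeff X0 (d1 z) = 0
  sum_f0 : ∀ p, sumCoeff X0 (f0 (Finsupp.single p 1)) = 1
  /-- the markings are finitely generated and anchored at vertices of `T` -/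
  fg0 : ∀ x, (M0.A x).FG ∧ (M0.B x).FG ∧ ∃ v, M0.A x ≤ T.L v ∧ M0.B x ≤ T.R v
  fg1 : ∀ x, (M1.A x).FG ∧ (M1.B x).FG ∧ ∃ v, M1.A x ≤ T.L v ∧ M1.B x ≤ T.R v
  fg2 : ∀ x, (M2.A x).FG ∧ (M2.B x).FG ∧ ∃ v, M2.A x ≤ T.L v ∧ M2.B x ≤ T.R v
  /-- supports -/
  supp_f0 : ∀ p x, f0 (Finsupp.single p 1) x ≠ 0 → M0.A x = T.L p.1
  supp_f1 : ∀ e x, f1 (Finsupp.single e 1) x ≠ 0 →
    U.L (U.i e) ≤ M1.A x ∧ U.R (U.t e) ≤ M1.B x
  supp_f2 : ∀ s x, f2 (Finsupp.single s 1) x ≠ 0 →
    U.L (U.a s) ≤ M2.A x ∧ U.R (U.b s) ≤ M2.B x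
  supp_d1 : ∀ x x', d1 (Finsupp.single x 1) x' ≠ 0 → M1.A x ≤ M0.A x' ∧ M1.B x ≤ M0.B x'
  supp_d2 : ∀ x x', d2 (Finsupp.single x 1) x' ≠ 0 → M2.A x ≤ M1.A x' ∧ M2.B x ≤ M1.B x'

namespace StageAux

section

variable {G : Type w} [Group G]

/-- The linear map on the chains of a disjoint union with given components. -/
noncomputable def comb {X : Type*} {X' : Type*} {Y : Type*} (p : (X →₀ ℤ) →ₗ[ℤ] (Y →₀ ℤ))
    (q : (X' →₀ ℤ) →ₗ[ℤ] (Y →₀ ℤ)) : (X ⊕ X' →₀ ℤ) →ₗ[ℤ] (Y →₀ ℤ) :=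
  Finsupp.linearCombination ℤ
    (Sum.elim (fun x => p (Finsupp.single x 1)) fun x => q (Finsupp.single x 1))

theorem comb_single_inl {X : Type*} {X' : Type*} {Y : Type*} (p : (X →₀ ℤ) →ₗ[ℤ] (Y →₀ ℤ))
    (q : (X' →₀ ℤ) →ₗ[ℤ] (Y →₀ ℤ)) (x : X) :
    comb p q (Finsupp.single (Sum.inl x) 1) = p (Finsupp.single x 1) := by
  simp [comb, Finsupp.linearCombination_single]

theorem comb_single_inr {X : Type*} {X' : Type*} {Y : Type*} (p : (X →₀ ℤ) →ₗ[ℤ] (Y →₀ ℤ))
    (q : (X' →₀ ℤ) →ₗ[ℤ] (Y →₀ ℤ)) (x : X') :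
    comb p q (Finsupp.single (Sum.inr x) 1) = q (Finsupp.single x 1) := by
  simp [comb, Finsupp.linearCombination_single]

/-- Two additive maps on chains agree when they agree on the points. -/
theorem ext_single {X : Type*} {Y : Type*} (p q : (X →₀ ℤ) →ₗ[ℤ] (Y →₀ ℤ))
    (h : ∀ x, p (Finsupp.single x 1) = q (Finsupp.single x 1)) : p = q := by
  refine Finsupp.lhom_ext' fun x => LinearMap.ext_ring ?_
  simpa using h x

theorem comb_inl {X : Type*} {X' : Type*} {Y : Type*} (p : (X →₀ ℤ) →ₗ[ℤ] (Y →₀ ℤ))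
    (q : (X' →₀ ℤ) →ₗ[ℤ] (Y →₀ ℤ)) (z : X →₀ ℤ) :
    comb p q (Finsupp.lmapDomain ℤ ℤ Sum.inl z) = p z := by
  have : (comb p q).comp (Finsupp.lmapDomain ℤ ℤ Sum.inl) = p := by
    refine ext_single _ _ fun x => ?_
    rw [LinearMap.comp_apply, Finsupp.lmapDomain_apply, Finsupp.mapDomain_single, comb_single_inl]
  exact LinearMap.congr_fun this z

theorem comb_inr {X : Type*} {X' : Type*} {Y : Type*} (p : (X →₀ ℤ) →ₗ[ℤ] (Y →₀ ℤ))
    (q : (X' →₀ ℤ) →ₗ[ℤ] (Y →₀ ℤ)) (z : X' →₀ ℤ) :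
    comb p q (Finsupp.lmapDomain ℤ ℤ Sum.inr z) = q z := by
  have : (comb p q).comp (Finsupp.lmapDomain ℤ ℤ Sum.inr) = q := by
    refine ext_single _ _ fun x => ?_
    rw [LinearMap.comp_apply, Finsupp.lmapDomain_apply, Finsupp.mapDomain_single, comb_single_inr]
  exact LinearMap.congr_fun this z

/-- Equivariance can be tested on points. -/
theorem equiv_of_single {X : Type*} {Y : Type*} [MulAction G X] [MulAction G Y]
    (p : (X →₀ ℤ) →ₗ[ℤ] (Y →₀ ℤ))
    (h : ∀ (g : G) x, p (Finsupp.single (g • x) 1) = sm g (p (Finsupp.single x 1))) (g : G)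
    (z : X →₀ ℤ) : p (sm g z) = sm g (p z) := by
  have : p.comp (sm g) = (sm g).comp p := by
    refine ext_single _ _ fun x => ?_
    rw [LinearMap.comp_apply, LinearMap.comp_apply, sm_single, h]
  exact LinearMap.congr_fun this z

theorem comb_sm {X : Type*} {X' : Type*} {Y : Type*} [MulAction G X] [MulAction G X']
    [MulAction G Y] (p : (X →₀ ℤ) →ₗ[ℤ] (Y →₀ ℤ))
    (q : (X' →₀ ℤ) →ₗ[ℤ] (Y →₀ ℤ)) (hp : ∀ (g : G) z, p (sm g z) = sm g (p z))
    (hq : ∀ (g : G) z, q (sm g z) = sm g (q z)) (g : G) (z : X ⊕ X' →₀ ℤ) :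
    comb p q (sm g z) = sm g (comb p q z) := by
  refine equiv_of_single _ ?_ g z
  rintro g (x | x)
  · rw [Sum.smul_inl, comb_single_inl, comb_single_inl, ← hp, sm_single]
  · rw [Sum.smul_inr, comb_single_inr, comb_single_inr, ← hq, sm_single]

theorem map_sm {X : Type*} {Y : Type*} [MulAction G X] [MulAction G Y] (f : X → Y)
    (hf : ∀ (g : G) x, f (g • x) = g • f x) (g : G) (z : X →₀ ℤ) :
    Finsupp.lmapDomain ℤ ℤ f (sm g z) = sm g (Finsupp.lmapDomain ℤ ℤ f z) := by
  refine equiv_of_single _ ?_ g z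
  intro g x
  rw [Finsupp.lmapDomain_apply, Finsupp.lmapDomain_apply, Finsupp.mapDomain_single,
    Finsupp.mapDomain_single, sm_single, hf]

/-- An equivariant linear map which vanishes at representatives of the orbits is zero. -/
theorem eq_of_reps {X : Type*} {Y : Type*} [MulAction G X] [MulAction G Y]
    (p q : (X →₀ ℤ) →ₗ[ℤ] (Y →₀ ℤ)) (hp : ∀ (g : G) z, p (sm g z) = sm g (p z))
    (hq : ∀ (g : G) z, q (sm g z) = sm g (q z))
    (h : ∀ o : MulAction.orbitRel.Quotient G X,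
      p (Finsupp.single o.out 1) = q (Finsupp.single o.out 1)) : p = q := by
  refine ext_single _ _ fun x => ?_
  have h1 : MulAction.orbitRel G X (Quotient.out (Quotient.mk (MulAction.orbitRel G X) x)) x :=
    Quotient.mk_out x
  rw [MulAction.orbitRel_apply] at h1
  obtain ⟨g, hg⟩ := h1
  have h2 := h (Quotient.mk (MulAction.orbitRel G X) x)
  have h3 : x = g⁻¹ • (Quotient.out (Quotient.mk (MulAction.orbitRel G X) x)) := by
    rw [eq_inv_smul_iff]; exact hg
  rw [h3, ← sm_single, hp, hq]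
  exact congrArg (sm g⁻¹) h2

theorem finite_sum {X : Type*} {X' : Type*} [MulAction G X] [MulAction G X']
    (h : Finite (MulAction.orbitRel.Quotient G X))
    (h' : Finite (MulAction.orbitRel.Quotient G X')) :
    Finite (MulAction.orbitRel.Quotient G (X ⊕ X')) := by
  have hf : Function.Surjective
      (Sum.elim
        (fun o : MulAction.orbitRel.Quotient G X =>
          (Quotient.mk (MulAction.orbitRel G (X ⊕ X')) (Sum.inl o.out)))
        (fun o : MulAction.orbitRel.Quotient G X' =>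
          (Quotient.mk (MulAction.orbitRel G (X ⊕ X')) (Sum.inr o.out)))) := by
    intro o
    induction o using Quotient.inductionOn with
    | h x =>
      rcases x with x | x
      · refine ⟨Sum.inl (Quotient.mk _ x), ?_⟩
        refine Quotient.sound ?_
        have h1 : MulAction.orbitRel G X
          (Quotient.out (Quotient.mk (MulAction.orbitRel G X) x)) x := Quotient.mk_out x
        rw [MulAction.orbitRel_apply] at h1
        obtain ⟨g, hg⟩ := h1
        refine ⟨g, ?_⟩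
        exact congrArg Sum.inl hg
      · refine ⟨Sum.inr (Quotient.mk _ x), ?_⟩
        refine Quotient.sound ?_
        have h1 : MulAction.orbitRel G X'
          (Quotient.out (Quotient.mk (MulAction.orbitRel G X') x)) x := Quotient.mk_out x
        rw [MulAction.orbitRel_apply] at h1
        obtain ⟨g, hg⟩ := h1
        refine ⟨g, ?_⟩
        exact congrArg Sum.inr hg
  exact Finite.of_surjective _ hf

theorem sumCoeff_map {X : Type*} {Y : Type*} (f : X → Y) (z : X →₀ ℤ) :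
    sumCoeff Y (z.mapDomain f) = sumCoeff X z := by
  induction z using Finsupp.induction_linear with
  | zero => simp
  | add a b ha hb => rw [Finsupp.mapDomain_add, map_add, map_add, ha, hb]
  | single x n =>
    rw [Finsupp.mapDomain_single, FPAlg.sumCoeff_single, FPAlg.sumCoeff_single]

end

end StageAux

open StageAux

/-- Existence of stage data.
Let `f1, f2` be as in `exists_chain_map` for the inclusion of `Q`. As `T.d2` is injective
`f2` kills the 2-cycles of `U`.
(1) `exists_lift` for `f2` (`MX = U.markF`, `MY = T.markF`, `Z` = the generators `S` of the module of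
2-cycles): an approximation `W2` and `f2'`, killing the 2-cycles. (The support condition: `f2 s`
lies in `T.C2 (a s) (b s)`, so `U.L (a s) = T.L (a s) ≤ T.L (T.a c)` for `c` in the support.)
(2) `exists_lift` for the map `W2.X ⊕ E' → E` given by `T.d2 ∘ W2.π` and `f1`, with
`Z` = the elements `f2' s - U.d s` (`f2' s` in the first, `U.d s` in the second summand), `s`
running through representatives of the orbits of `F'`: an approximation `W1` and
`d2' : W2.X → W1.X`, `f1' : E' → W1.X` with `d2' (f2' z) = f1' (U.d2 z)`.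
(3) `exists_lift` for the map `W1.X ⊕ Q → V` given by `T.d1 ∘ W1.π` and the inclusion, with
`Z` = the elements `d2' x` (in the first summand), `x` in representatives of the orbits of
`W2.X`, and the elements `f1' e - (t e - i e)`, `e` in representatives of the orbits of `E'`: an
approximation `W0`, `d1'`, `f0'` with `d1' d2' = 0`, `d1' f1' = f0' U.d1`. The support of `f0' p`
consists of points `x` over `p` with `L p ≤ A x ≤ L p`. -/
theorem exists_stage {G : Type w} [Group G]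
    {V : Type u₁} {E : Type u₂} {F : Type u₃} [PartialOrder V]
    [MulAction G V] [MulAction G E] [MulAction G F] (T : GDC G V E F) (hinj : T.Inj)
    (Q : SubMulAction G V) (hQ : PP T.toVD Q)
    {E' : Type v₂} {F' : Type v₃} [MulAction G E'] [MulAction G F'] (U : GDC G Q E' F')
    (hL : ∀ p, U.L p = T.L p.1) (hR : ∀ p, U.R p = T.R p.1)
    (hE : Finite (MulAction.orbitRel.Quotient G E'))
    (hF : Finite (MulAction.orbitRel.Quotient G F'))
    (S : Finset (F' →₀ ℤ)) (hS : ∀ z ∈ S, U.d2 z = 0)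
    (hgen : ∀ z, U.d2 z = 0 → z ∈ AddSubgroup.closure {y | ∃ g : G, ∃ s ∈ S, y = sm g s}) :
    ∃ (X0 : Type (max w u₁)) (X1 : Type (max w u₂)) (X2 : Type (max w u₃))
      (_ : MulAction G X0) (_ : MulAction G X1) (_ : MulAction G X2),
      Nonempty (Stage T Q U X0 X1 X2) := by
  classical
  obtain ⟨f1, f2, f1s, f2s, hf1, hf2, hd1, hd2⟩ := exists_chain_map T U (Subtype.val : Q → V)
    (fun _ _ h => h) (fun _ _ => rfl) hL hR
  have : Finite (MulAction.orbitRel.Quotient G E') := hE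
  have : Finite (MulAction.orbitRel.Quotient G F') := hF
  -- first application
  obtain ⟨W2, g2, g2s, hg2, hg2', hgS⟩ := exists_lift U.markF T.markF hF
    (fun s => by
      show (U.L (U.a s)).FG
      rw [hL]; exact hQ.L_fg _ (U.a s).2)
    (fun s => by
      show (U.R (U.b s)).FG
      rw [hR]; exact hQ.R_fg _ (U.b s).2)
    f2 f2s
    (fun s c hc => by
      have h1 : c ∈ {s' : F | (U.a s : V) ≤ T.a s' ∧ T.b s' ≤ (U.b s : V)} :=
        (Finsupp.mem_supported ℤ _).1 (hf2 s) (Finsupp.mem_support_iff.2 hc)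
      refine ⟨?_, ?_⟩
      · show U.L (U.a s) ≤ T.L (T.a c)
        rw [hL]; exact T.L_mono _ _ h1.1
      · show U.R (U.b s) ≤ T.R (T.b c)
        rw [hR]; exact T.R_anti _ _ h1.2)
    S (fun z hz => hinj _ (by rw [hd2, hS z hz, map_zero]))
  have hg2' : ∀ s x, g2 (Finsupp.single s 1) x ≠ 0 →
      U.L (U.a s) ≤ W2.M.A x ∧ U.R (U.b s) ≤ W2.M.B x := fun s x h => (hg2' s x h).2
  have hcyc : ∀ z, U.d2 z = 0 → g2 z = 0 := by
    intro z hz
    have h1 := hgen z hz
    refine AddSubgroup.closure_induction (p := fun y _ => g2 y = 0) ?_ (map_zero _) ?_ ?_ h1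
    · rintro y ⟨g, s, hs, rfl⟩
      rw [g2s, hgS s hs, map_zero]
    · intro a b _ _ ha hb
      rw [map_add, ha, hb, add_zero]
    · intro a _ ha
      rw [map_neg, ha, neg_zero]
  have hfin2 : Finite (MulAction.orbitRel.Quotient G W2.X) := W2.fin
  -- second application
  let π2 : (W2.X →₀ ℤ) →ₗ[ℤ] (F →₀ ℤ) := Finsupp.lmapDomain ℤ ℤ W2.π
  have π2s : ∀ (g : G) z, π2 (sm g z) = sm g (π2 z) := map_sm _ W2.π_smul
  have hπg2 : ∀ z, π2 (g2 z) = f2 z := hg2
  let k1 : (W2.X ⊕ E' →₀ ℤ) →ₗ[ℤ] (E →₀ ℤ) := comb (T.d2 ∘ₗ π2) f1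
  let z1 : (MulAction.orbitRel.Quotient G F') → (W2.X ⊕ E' →₀ ℤ) := fun o =>
    Finsupp.lmapDomain ℤ ℤ Sum.inl (g2 (Finsupp.single o.out 1)) -
      Finsupp.lmapDomain ℤ ℤ Sum.inr (U.d2 (Finsupp.single o.out 1))
  have hz1fin : (Set.range z1).Finite := Set.finite_range z1
  obtain ⟨W1, k, ks, hk, hk', hkS⟩ := exists_lift (W2.M.sum U.markE) T.markE
    (finite_sum W2.fin hE)
    (by
      rintro (x | x)
      · exact W2.A_fg x
      · show (U.L (U.i x)).FG
        rw [hL]; exact hQ.L_fg _ (U.i x).2)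
    (by
      rintro (x | x)
      · exact W2.B_fg x
      · show (U.R (U.t x)).FG
        rw [hR]; exact hQ.R_fg _ (U.t x).2)
    k1
    (comb_sm _ _ (fun g z => by
      rw [LinearMap.comp_apply, LinearMap.comp_apply, π2s, T.d2_sm]) f1s)
    (by
      rintro (x | x) e he
      · have h0 : k1 (Finsupp.single (Sum.inl x) 1) = T.d (W2.π x) := by
          show comb _ _ _ = _
          rw [comb_single_inl, LinearMap.comp_apply]
          show T.d2 (Finsupp.mapDomain W2.π (Finsupp.single x 1)) = _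
          rw [Finsupp.mapDomain_single]
          simp [GDC.d2, bd2, Finsupp.linearCombination_single]
        rw [h0] at he
        have h1 := T.d_supp _ _ he
        refine ⟨(W2.A_le x).trans ?_, (W2.B_le x).trans ?_⟩
        · exact T.L_mono _ _ h1.1
        · exact T.R_anti _ _ h1.2
      · have h0 : k1 (Finsupp.single (Sum.inr x) 1) = f1 (Finsupp.single x 1) :=
          comb_single_inr _ _ _
        rw [h0] at he
        have h1 : e ∈ {s' : E | (U.i x : V) ≤ T.i s' ∧ T.t s' ≤ (U.t x : V)} :=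
          (Finsupp.mem_supported ℤ _).1 (hf1 x) (Finsupp.mem_support_iff.2 he)
        refine ⟨?_, ?_⟩
        · show U.L (U.i x) ≤ T.L (T.i e)
          rw [hL]; exact T.L_mono _ _ h1.1
        · show U.R (U.t x) ≤ T.R (T.t e)
          rw [hR]; exact T.R_anti _ _ h1.2)
    hz1fin.toFinset
    (by
      intro z hz
      rw [Set.Finite.mem_toFinset] at hz
      obtain ⟨o, rfl⟩ := hz
      show k1 (z1 o) = 0
      rw [map_sub]
      show comb _ _ _ - comb _ _ _ = 0
      rw [comb_inl, comb_inr, LinearMap.comp_apply, hπg2, hd2, sub_self])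
  have hk' : ∀ (x : W2.X ⊕ E') y, k (Finsupp.single x 1) y ≠ 0 →
      (W2.M.sum U.markE).A x ≤ W1.M.A y ∧ (W2.M.sum U.markE).B x ≤ W1.M.B y :=
    fun x y h => (hk' x y h).2
  let d2' : (W2.X →₀ ℤ) →ₗ[ℤ] (W1.X →₀ ℤ) := k ∘ₗ Finsupp.lmapDomain ℤ ℤ Sum.inl
  let g1 : (E' →₀ ℤ) →ₗ[ℤ] (W1.X →₀ ℤ) := k ∘ₗ Finsupp.lmapDomain ℤ ℤ Sum.inr
  have hfin1 : Finite (MulAction.orbitRel.Quotient G W1.X) := W1.fin
  have d2's : ∀ (g : G) z, d2' (sm g z) = sm g (d2' z) := by
    intro g z
    show k (Finsupp.lmapDomain ℤ ℤ Sum.inl (sm g z)) = sm g (k _)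
    rw [map_sm _ (fun _ _ => rfl), ks]
  have g1s : ∀ (g : G) z, g1 (sm g z) = sm g (g1 z) := by
    intro g z
    show k (Finsupp.lmapDomain ℤ ℤ Sum.inr (sm g z)) = sm g (k _)
    rw [map_sm _ (fun _ _ => rfl), ks]
  have hd2g2 : ∀ z, d2' (g2 z) = g1 (U.d2 z) := by
    have : d2' ∘ₗ g2 = g1 ∘ₗ U.d2 := by
      refine eq_of_reps (G := G) _ _ (fun g z => ?_) (fun g z => ?_) fun o => ?_
      · show d2' (g2 (sm g z)) = sm g (d2' (g2 z))
        rw [g2s, d2's]
      · show g1 (U.d2 (sm g z)) = sm g (g1 (U.d2 z))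
        rw [U.d2_sm, g1s]
      · have h1 := hkS (z1 o) (by rw [Set.Finite.mem_toFinset]; exact ⟨o, rfl⟩)
        rw [map_sub, sub_eq_zero] at h1
        exact h1
    intro z
    exact LinearMap.congr_fun this z
  let π1 : (W1.X →₀ ℤ) →ₗ[ℤ] (E →₀ ℤ) := Finsupp.lmapDomain ℤ ℤ W1.π
  have π1s : ∀ (g : G) z, π1 (sm g z) = sm g (π1 z) := map_sm _ W1.π_smul
  have hπd2 : ∀ z, π1 (d2' z) = T.d2 (π2 z) := by
    intro z
    have h1 := hk (Finsupp.lmapDomain ℤ ℤ Sum.inl z)
    refine Eq.trans h1 ?_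
    show comb _ _ _ = _
    rw [comb_inl, LinearMap.comp_apply]
  have hπg1 : ∀ z, π1 (g1 z) = f1 z := by
    intro z
    have h1 := hk (Finsupp.lmapDomain ℤ ℤ Sum.inr z)
    refine Eq.trans h1 ?_
    show comb _ _ _ = _
    rw [comb_inr]
  -- third application
  have hQfin : Finite (MulAction.orbitRel.Quotient G Q) := by
    obtain ⟨S0, hS0⟩ := hQ.fin
    let S1 : Set (V × V) := {s | s ∈ S0 ∧ s.1 ∈ Q}
    have hS1 : S1.Finite := S0.finite_toSet.subset fun s hs => hs.1
    have : Finite S1 := hS1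
    refine Finite.of_surjective (fun s : S1 => Quotient.mk (MulAction.orbitRel G Q) ⟨s.1.1, s.2.2⟩) ?_
    intro o
    induction o using Quotient.inductionOn with
    | h p =>
      obtain ⟨g, hg⟩ := hS0 p.1 p.2 p.1 p.2 le_rfl
      refine ⟨⟨(g • p.1, g • p.1), hg, Q.smul_mem g p.2⟩, ?_⟩
      refine Quotient.sound ?_
      exact ⟨g, rfl⟩
  let ι : (Q →₀ ℤ) →ₗ[ℤ] (V →₀ ℤ) := Finsupp.lmapDomain ℤ ℤ Subtype.val
  have ιs : ∀ (g : G) z, ι (sm g z) = sm g (ι z) := map_sm _ fun _ _ => rfl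
  let m1 : (W1.X ⊕ Q →₀ ℤ) →ₗ[ℤ] (V →₀ ℤ) := comb (T.d1 ∘ₗ π1) ι
  let z2 : (MulAction.orbitRel.Quotient G W2.X) → (W1.X ⊕ Q →₀ ℤ) := fun o =>
    Finsupp.lmapDomain ℤ ℤ Sum.inl (d2' (Finsupp.single o.out 1))
  let z3 : (MulAction.orbitRel.Quotient G E') → (W1.X ⊕ Q →₀ ℤ) := fun o =>
    Finsupp.lmapDomain ℤ ℤ Sum.inl (g1 (Finsupp.single o.out 1)) -
      Finsupp.lmapDomain ℤ ℤ Sum.inr (U.d1 (Finsupp.single o.out 1))
  have hz2fin : (Set.range z2).Finite := Set.finite_range z2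
  have hz3fin : (Set.range z3).Finite := Set.finite_range z3
  obtain ⟨W0, m, ms, hm, hm', hmS⟩ := exists_lift (W1.M.sum U.toVD.mark) T.toVD.mark
    (finite_sum W1.fin hQfin)
    (by
      rintro (x | x)
      · exact W1.A_fg x
      · show (U.L x).FG
        rw [hL]; exact hQ.L_fg _ x.2)
    (by
      rintro (x | x)
      · exact W1.B_fg x
      · show (U.R x).FG
        rw [hR]; exact hQ.R_fg _ x.2)
    m1
    (comb_sm _ _ (fun g z => by
      rw [LinearMap.comp_apply, LinearMap.comp_apply, π1s, T.d1_sm]) ιs)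
    (by
      rintro (x | x) v hv
      · have h0 : m1 (Finsupp.single (Sum.inl x) 1) =
            Finsupp.single (T.t (W1.π x)) 1 - Finsupp.single (T.i (W1.π x)) 1 := by
          show comb _ _ _ = _
          rw [comb_single_inl, LinearMap.comp_apply]
          show T.d1 (Finsupp.mapDomain W1.π (Finsupp.single x 1)) = _
          rw [Finsupp.mapDomain_single]
          simp [GDC.d1, bd1, Finsupp.linearCombination_single]
        rw [h0] at hv
        have h1 : v = T.t (W1.π x) ∨ v = T.i (W1.π x) := by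
          by_contra hcon
          push Not at hcon
          apply hv
          rw [Finsupp.sub_apply, Finsupp.single_eq_of_ne hcon.1, Finsupp.single_eq_of_ne hcon.2,
            sub_zero]
        have h2 := le_of_lt (T.it (W1.π x))
        refine ⟨(W1.A_le x).trans ?_, (W1.B_le x).trans ?_⟩
        · show T.L (T.i (W1.π x)) ≤ T.L v
          rcases h1 with rfl | rfl
          · exact T.L_mono _ _ h2
          · exact le_rfl
        · show T.R (T.t (W1.π x)) ≤ T.R v
          rcases h1 with rfl | rfl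
          · exact le_rfl
          · exact T.R_anti _ _ h2
      · have h0 : m1 (Finsupp.single (Sum.inr x) 1) = Finsupp.single x.1 1 := by
          show comb _ _ _ = _
          rw [comb_single_inr]
          show Finsupp.mapDomain Subtype.val (Finsupp.single x 1) = _
          rw [Finsupp.mapDomain_single]
        rw [h0] at hv
        have h1 : v = x.1 := by
          by_contra hcon
          exact hv (Finsupp.single_eq_of_ne hcon)
        subst h1
        exact ⟨le_of_eq (hL x), le_of_eq (hR x)⟩)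
    (hz2fin.toFinset ∪ hz3fin.toFinset)
    (by
      intro z hz
      rw [Finset.mem_union, Set.Finite.mem_toFinset, Set.Finite.mem_toFinset] at hz
      rcases hz with ⟨o, rfl⟩ | ⟨o, rfl⟩
      · show comb _ _ _ = 0
        rw [comb_inl, LinearMap.comp_apply, hπd2, T.d1_d2]
      · show m1 (z3 o) = 0
        rw [map_sub]
        show comb _ _ _ - comb _ _ _ = 0
        rw [comb_inl, comb_inr, LinearMap.comp_apply, hπg1, hd1]
        exact sub_self _)
  let d1' : (W1.X →₀ ℤ) →ₗ[ℤ] (W0.X →₀ ℤ) := m ∘ₗ Finsupp.lmapDomain ℤ ℤ Sum.inl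
  let g0 : (Q →₀ ℤ) →ₗ[ℤ] (W0.X →₀ ℤ) := m ∘ₗ Finsupp.lmapDomain ℤ ℤ Sum.inr
  have d1's : ∀ (g : G) z, d1' (sm g z) = sm g (d1' z) := by
    intro g z
    show m (Finsupp.lmapDomain ℤ ℤ Sum.inl (sm g z)) = sm g (m _)
    rw [map_sm _ (fun _ _ => rfl), ms]
  have g0s : ∀ (g : G) z, g0 (sm g z) = sm g (g0 z) := by
    intro g z
    show m (Finsupp.lmapDomain ℤ ℤ Sum.inr (sm g z)) = sm g (m _)
    rw [map_sm _ (fun _ _ => rfl), ms]
  have hd1d2 : ∀ z, d1' (d2' z) = 0 := by
    have : d1' ∘ₗ d2' = 0 := by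
      refine eq_of_reps (G := G) _ _ (fun g z => ?_) (fun g z => ?_) fun o => ?_
      · show d1' (d2' (sm g z)) = sm g (d1' (d2' z))
        rw [d2's, d1's]
      · rw [LinearMap.zero_apply, LinearMap.zero_apply, map_zero]
      · have h1 := hmS (z2 o) (by
          rw [Finset.mem_union, Set.Finite.mem_toFinset, Set.Finite.mem_toFinset]
          exact Or.inl ⟨o, rfl⟩)
        exact h1
    intro z
    exact LinearMap.congr_fun this z
  have hd1g1 : ∀ z, d1' (g1 z) = g0 (U.d1 z) := by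
    have : d1' ∘ₗ g1 = g0 ∘ₗ U.d1 := by
      refine eq_of_reps (G := G) _ _ (fun g z => ?_) (fun g z => ?_) fun o => ?_
      · show d1' (g1 (sm g z)) = sm g (d1' (g1 z))
        rw [g1s, d1's]
      · show g0 (U.d1 (sm g z)) = sm g (g0 (U.d1 z))
        rw [U.d1_sm, g0s]
      · have h1 := hmS (z3 o) (by
          rw [Finset.mem_union, Set.Finite.mem_toFinset, Set.Finite.mem_toFinset]
          exact Or.inr ⟨o, rfl⟩)
        rw [map_sub, sub_eq_zero] at h1
        exact h1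
    intro z
    exact LinearMap.congr_fun this z
  have hπd1 : ∀ z, (d1' z).mapDomain W0.π = T.d1 (π1 z) := by
    intro z
    have h1 := hm (Finsupp.lmapDomain ℤ ℤ Sum.inl z)
    refine Eq.trans h1 ?_
    show comb _ _ _ = _
    rw [comb_inl, LinearMap.comp_apply]
  have hπg0 : ∀ z, (g0 z).mapDomain W0.π = ι z := by
    intro z
    have h1 := hm (Finsupp.lmapDomain ℤ ℤ Sum.inr z)
    refine Eq.trans h1 ?_
    show comb _ _ _ = _
    rw [comb_inr]
  have hinl : ∀ (x : W1.X), (Finsupp.lmapDomain ℤ ℤ (Sum.inl : W1.X → W1.X ⊕ Q))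
      (Finsupp.single x 1) = Finsupp.single (Sum.inl x) 1 := by
    intro x
    rw [Finsupp.lmapDomain_apply, Finsupp.mapDomain_single]
  have hinr : ∀ (x : Q), (Finsupp.lmapDomain ℤ ℤ (Sum.inr : Q → W1.X ⊕ Q))
      (Finsupp.single x 1) = Finsupp.single (Sum.inr x) 1 := by
    intro x
    rw [Finsupp.lmapDomain_apply, Finsupp.mapDomain_single]
  have hinl' : ∀ (x : W2.X), (Finsupp.lmapDomain ℤ ℤ (Sum.inl : W2.X → W2.X ⊕ E'))
      (Finsupp.single x 1) = Finsupp.single (Sum.inl x) 1 := by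
    intro x
    rw [Finsupp.lmapDomain_apply, Finsupp.mapDomain_single]
  have hinr' : ∀ (x : E'), (Finsupp.lmapDomain ℤ ℤ (Sum.inr : E' → W2.X ⊕ E'))
      (Finsupp.single x 1) = Finsupp.single (Sum.inr x) 1 := by
    intro x
    rw [Finsupp.lmapDomain_apply, Finsupp.mapDomain_single]
  refine ⟨W0.X, W1.X, W2.X, W0.act, W1.act, W2.act, ⟨?_⟩⟩
  exact
    { M0 := W0.M
      M1 := W1.M
      M2 := W2.M
      f0 := g0
      f1 := g1
      f2 := g2
      d1 := d1'
      d2 := d2'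
      f0_sm := g0s
      f1_sm := g1s
      f2_sm := g2s
      d1_sm := d1's
      d2_sm := d2's
      d1_d2 := hd1d2
      d1_f1 := hd1g1
      d2_f2 := hd2g2
      f2_cyc := hcyc
      sum_d1 := by
        intro z
        rw [← sumCoeff_map W0.π, hπd1, T.sumCoeff_d1]
      sum_f0 := by
        intro p
        rw [← sumCoeff_map W0.π, hπg0]
        show sumCoeff V (Finsupp.mapDomain Subtype.val (Finsupp.single p 1)) = 1
        rw [Finsupp.mapDomain_single, FPAlg.sumCoeff_single]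
      fg0 := fun x => ⟨W0.A_fg x, W0.B_fg x, W0.π x, W0.A_le x, W0.B_le x⟩
      fg1 := fun x => ⟨W1.A_fg x, W1.B_fg x, T.i (W1.π x), W1.A_le x,
        (W1.B_le x).trans (T.R_anti _ _ (le_of_lt (T.it (W1.π x))))⟩
      fg2 := fun x => ⟨W2.A_fg x, W2.B_fg x, T.a (W2.π x), W2.A_le x,
        (W2.B_le x).trans (T.R_anti _ _ (le_of_lt (T.ab (W2.π x))))⟩
      supp_f0 := by
        intro p x hx
        have h1 := hm' (Sum.inr p) x (by rw [← hinr]; exact hx)
        obtain ⟨h2, h3, h4⟩ := h1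
        have h0 : m1 (Finsupp.single (Sum.inr p) 1) = Finsupp.single p.1 1 := by
          show comb _ _ _ = _
          rw [comb_single_inr]
          show Finsupp.mapDomain Subtype.val (Finsupp.single p 1) = _
          rw [Finsupp.mapDomain_single]
        rw [h0] at h2
        have h5 : W0.π x = p.1 := by
          by_contra hcon
          exact h2 (Finsupp.single_eq_of_ne hcon)
        refine le_antisymm ?_ ?_
        · have := W0.A_le x
          rw [h5] at this
          exact this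
        · have : U.L p ≤ W0.M.A x := h3
          rw [hL] at this
          exact this
      supp_f1 := by
        intro e x hx
        have h1 := hk' (Sum.inr e) x (by rw [← hinr']; exact hx)
        exact h1
      supp_f2 := hg2'
      supp_d1 := by
        intro x x' hx
        have h1 := (hm' (Sum.inl x) x' (by rw [← hinl]; exact hx)).2
        exact h1
      supp_d2 := by
        intro x x' hx
        have h1 := hk' (Sum.inl x) x' (by rw [← hinl']; exact hx)
        exact h1 }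

end Pool.Agent.DG
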