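import Pool.Agent.MP_cff99f_al.Gen.Tab
import Pool.Agent.MP_cff99f_al.Gen.Chain


/-!
Block TCx: the labelled directed 2-complex over the auxiliary presentation.
-/

namespace Pool.Agent.DG

universe w z

open Pointwise

namespace Tab

variable {G : Type w} {W : Type w} [Group G] [PartialOrder W] [MulAction G W] {S : VD G W}
  (T : Tab S)

/-- The coset `g L(P m) R(Q m)`. -/
def cos (m : T.M) (g : G) : Set G := {x | ∃ l ∈ S.L (T.P m), ∃ r ∈ S.R (T.Q m), x = g * l * r}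

theorem tcx_fixP {m : T.M} {l r : G} (hl : l ∈ S.L (T.P m)) (hr : r ∈ S.R (T.Q m)) (g : G) :
    (g * l * r) • T.P m = g • T.P m := by
  have h1 : r • T.P m = T.P m := S.smul_of_mem_R hr (T.lt m).le
  have h2 : l • T.P m = T.P m := S.smul_of_mem_L hl le_rfl
  rw [mul_smul, mul_smul, h1, h2]

theorem tcx_fixQ {m : T.M} {l r : G} (hl : l ∈ S.L (T.P m)) (hr : r ∈ S.R (T.Q m)) (g : G) :
    (g * l * r) • T.Q m = g • T.Q m := by
  have h1 : r • T.Q m = T.Q m := S.smul_of_mem_R hr le_rfl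
  have h2 : l • T.Q m = T.Q m := S.smul_of_mem_L hl (T.lt m).le
  rw [mul_smul, mul_smul, h1, h2]

theorem tcx_gen (m : T.M) (k : T.K m) : T.gen m k ∈ S.L (T.Q m) ∧ T.gen m k ∈ S.R (T.P m) := by
  have h : T.gen m k ∈ Subgroup.closure (Set.range (T.gen m)) := Subgroup.subset_closure ⟨k, rfl⟩
  rw [T.gen_closure m] at h
  exact ⟨h.1, h.2⟩

theorem smul_cos (m : T.M) (g h : G) : g • T.cos m h = T.cos m (g * h) := by
  ext x
  constructor
  · rintro ⟨y, ⟨l, hl, r, hr, rfl⟩, rfl⟩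
    exact ⟨l, hl, r, hr, by simp only [smul_eq_mul, mul_assoc]⟩
  · rintro ⟨l, hl, r, hr, rfl⟩
    exact ⟨h * l * r, ⟨l, hl, r, hr, rfl⟩, by simp only [smul_eq_mul, mul_assoc]⟩

theorem tcx_comm {m : T.M} {l r : G} (hl : l ∈ S.L (T.P m)) (hr : r ∈ S.R (T.Q m)) :
    l * r = r * l := S.comm' (T.lt m).le hl hr

theorem cos_eq_iff {m : T.M} {g h : G} : T.cos m g = T.cos m h ↔
    ∃ l ∈ S.L (T.P m), ∃ r ∈ S.R (T.Q m), h = g * l * r := by
  constructor
  · intro e
    have : h ∈ T.cos m h := ⟨1, (S.L _).one_mem, 1, (S.R _).one_mem, by simp⟩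
    rw [← e] at this
    exact this
  · rintro ⟨l, hl, r, hr, rfl⟩
    ext x
    constructor
    · rintro ⟨l', hl', r', hr', rfl⟩
      refine ⟨l⁻¹ * l', (S.L _).mul_mem ((S.L _).inv_mem hl) hl', r⁻¹ * r',
        (S.R _).mul_mem ((S.R _).inv_mem hr) hr', ?_⟩
      have e1 : (l⁻¹ * l') * r⁻¹ = r⁻¹ * (l⁻¹ * l') :=
        T.tcx_comm ((S.L _).mul_mem ((S.L _).inv_mem hl) hl') ((S.R _).inv_mem hr)
      calc g * l' * r' = g * l * r * (r⁻¹ * (l⁻¹ * l')) * r' := by group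
        _ = g * l * r * ((l⁻¹ * l') * r⁻¹) * r' := by rw [e1]
        _ = g * l * r * (l⁻¹ * l') * (r⁻¹ * r') := by group
    · rintro ⟨l', hl', r', hr', rfl⟩
      refine ⟨l * l', (S.L _).mul_mem hl hl', r * r', (S.R _).mul_mem hr hr', ?_⟩
      have e1 : l' * r = r * l' := T.tcx_comm hl' hr
      calc g * l * r * l' * r' = g * l * (r * l') * r' := by group
        _ = g * l * (l' * r) * r' := by rw [e1]
        _ = g * (l * l') * (r * r') := by group

/-- The edges: a letter and a coset. -/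
def Edg : Type w := {e : T.A × Set G // ∃ g : G, e.2 = T.cos e.1.1 g}

/-- The edge given by a letter and a group element. -/
def mkE (x : T.A) (g : G) : T.Edg := ⟨(x, T.cos x.1 g), g, rfl⟩

theorem exists_mkE (e : T.Edg) : ∃ g, e = T.mkE e.1.1 g := by
  obtain ⟨⟨x, c⟩, g, hg⟩ := e
  exact ⟨g, Subtype.ext (Prod.ext rfl hg)⟩

theorem mkE_eq_iff {x y : T.A} {g h : G} : T.mkE x g = T.mkE y h ↔
    x = y ∧ ∃ l ∈ S.L (T.P x.1), ∃ r ∈ S.R (T.Q x.1), h = g * l * r := by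
  constructor
  · intro e
    have e1 : (x, T.cos x.1 g) = (y, T.cos y.1 h) := congrArg Subtype.val e
    have e2 : x = y := congrArg Prod.fst e1
    subst e2
    have e3 : T.cos x.1 g = T.cos x.1 h := congrArg Prod.snd e1
    exact ⟨rfl, T.cos_eq_iff.1 e3⟩
  · rintro ⟨rfl, h⟩
    exact Subtype.ext (Prod.ext rfl (T.cos_eq_iff.2 h))

theorem tcx_mkE {x : T.A} {g h l r : G} (hl : l ∈ S.L (T.P x.1)) (hr : r ∈ S.R (T.Q x.1))
    (e : h = g * l * r) : T.mkE x g = T.mkE x h := T.mkE_eq_iff.2 ⟨rfl, l, hl, r, hr, e⟩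

instance : MulAction G T.Edg where
  smul g e := ⟨(e.1.1, g • e.1.2), by
    obtain ⟨h, hh⟩ := e.2
    exact ⟨g * h, by rw [hh]; exact T.smul_cos _ _ _⟩⟩
  one_smul e := Subtype.ext (Prod.ext rfl (one_smul G e.1.2))
  mul_smul g h e := Subtype.ext (Prod.ext rfl (mul_smul g h e.1.2))

theorem smul_mkE (x : T.A) (g h : G) : g • T.mkE x h = T.mkE x (g * h) :=
  Subtype.ext (Prod.ext rfl (T.smul_cos x.1 g h))

noncomputable def ei (e : T.Edg) : W := e.2.choose • T.P e.1.1.1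

noncomputable def et (e : T.Edg) : W := e.2.choose • T.Q e.1.1.1

theorem ei_mkE (x : T.A) (g : G) : T.ei (T.mkE x g) = g • T.P x.1 := by
  have h : T.cos x.1 g = T.cos x.1 (T.mkE x g).2.choose := (T.mkE x g).2.choose_spec
  obtain ⟨l, hl, r, hr, e⟩ := T.cos_eq_iff.1 h
  unfold ei
  rw [e]
  exact T.tcx_fixP hl hr g

theorem et_mkE (x : T.A) (g : G) : T.et (T.mkE x g) = g • T.Q x.1 := by
  have h : T.cos x.1 g = T.cos x.1 (T.mkE x g).2.choose := (T.mkE x g).2.choose_spec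
  obtain ⟨l, hl, r, hr, e⟩ := T.cos_eq_iff.1 h
  unfold et
  rw [e]
  exact T.tcx_fixQ hl hr g

/-- The 2-cells: `Rel j l l'` means that `l` (with label `lhs j`) and `l'` (with label `rhs j`) are
the two sides of a 2-cell. -/
def Rel : T.J → List T.Edg → List T.Edg → Prop
  | Sum.inl mm, l, l' => ∃ h : G,
      l = [T.mkE (T.zl mm.1.1) h, T.mkE (T.zl mm.1.2) (h * (T.a mm.1.1 mm.1.2)⁻¹)] ∧
      l' = [T.mkE (T.zl (T.mul mm.1.1 mm.1.2)) (h * T.b mm.1.1 mm.1.2)]
  | Sum.inr yk, l, l' => ∃ h : G, l = [T.mkE (T.yl yk.1.1 yk.1.2) h] ∧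
      l' = [T.mkE (T.zl yk.1.1) (if yk.2 then h else h * T.gen yk.1.1 yk.1.2)]

open Classical in
noncomputable def flp (j : T.J) : Bool → List T.Edg → List T.Edg
  | true, l => if h : ∃ l', T.Rel j l l' then h.choose else l
  | false, l => if h : ∃ l', T.Rel j l' l then h.choose else l

/-- The sides of a 2-cell are parallel paths with the right labels. -/
theorem Rel.path {j : T.J} {l l' : List T.Edg} (h : T.Rel j l l') :
    ∃ p q, PathIn T.ei T.et p l q ∧ PathIn T.ei T.et p l' q := by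
  rcases j with ⟨⟨m, m'⟩, hc⟩ | ⟨⟨m, k⟩, b⟩
  · obtain ⟨h, rfl, rfl⟩ := h
    have hc' : ∃ g : G, g • T.Q m = T.P m' := hc
    have ha := T.ha m m' hc'
    have hP := T.hbP m m' hc'
    have hQ := T.hbQ m m' hc'
    refine ⟨h • T.P m, (h * (T.a m m')⁻¹) • T.Q m', ⟨T.ei_mkE _ _, ?_, ?_⟩, ?_, ?_⟩
    · rw [T.ei_mkE, T.et_mkE]
      change (h * (T.a m m')⁻¹) • T.P m' = h • T.Q m
      rw [← ha, mul_smul, inv_smul_smul]
    · rw [T.et_mkE]
      rfl
    · rw [T.ei_mkE]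
      change (h * T.b m m') • T.P (T.mul m m') = h • T.P m
      rw [mul_smul, hP]
    · rw [T.et_mkE]
      change (h * T.b m m') • T.Q (T.mul m m') = (h * (T.a m m')⁻¹) • T.Q m'
      rw [mul_smul, hQ, mul_smul]
  · obtain ⟨h, rfl, rfl⟩ := h
    obtain ⟨g1, g2⟩ := T.tcx_gen m k
    refine ⟨h • T.P m, h • T.Q m, ⟨T.ei_mkE _ _, T.et_mkE _ _⟩, ?_, ?_⟩
    · rw [T.ei_mkE]
      split_ifs
      · rfl
      · change (h * T.gen m k) • T.P m = h • T.P m
        rw [mul_smul, S.smul_of_mem_R g2 le_rfl]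
    · rw [T.et_mkE]
      split_ifs
      · rfl
      · change (h * T.gen m k) • T.Q m = h • T.Q m
        rw [mul_smul, S.smul_of_mem_L g1 le_rfl]

theorem Rel.lab {j : T.J} {l l' : List T.Edg} (h : T.Rel j l l') :
    l.map (fun e => e.1.1) = T.pres.lhs j ∧ l'.map (fun e => e.1.1) = T.pres.rhs j := by
  rcases j with ⟨⟨m, m'⟩, hc⟩ | ⟨⟨m, k⟩, b⟩
  · obtain ⟨h, rfl, rfl⟩ := h
    exact ⟨rfl, rfl⟩
  · obtain ⟨h, rfl, rfl⟩ := h
    exact ⟨rfl, rfl⟩

theorem tcx_lt {m m' : T.M} (hc : T.Comp m m') : T.Q m ≤ (T.a m m')⁻¹ • T.Q m' := by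
  have ha := T.ha m m' hc
  have h1 : T.Q m = (T.a m m')⁻¹ • T.P m' := by rw [← ha, inv_smul_smul]
  rw [h1]
  exact S.smul_le _ _ _ (T.lt m').le

/-- The group `L (P m) R (a⁻¹ Q m')`, in various coordinates. -/
theorem tcx_key {m m' : T.M} (hc : T.Comp m m') {l ρ : G} (hl : l ∈ S.L (T.P m))
    (hρ : ρ ∈ S.R ((T.a m m')⁻¹ • T.Q m')) :
    (ρ ∈ S.R (T.Q m)) ∧
    (T.a m m' * l * (T.a m m')⁻¹ ∈ S.L (T.P m')) ∧ (T.a m m' * ρ * (T.a m m')⁻¹ ∈ S.R (T.Q m')) ∧
    ((T.b m m')⁻¹ * l * T.b m m' ∈ S.L (T.P (T.mul m m'))) ∧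
    ((T.b m m')⁻¹ * ρ * T.b m m' ∈ S.R (T.Q (T.mul m m'))) := by
  have ha := T.ha m m' hc
  have hP := T.hbP m m' hc
  have hQ := T.hbQ m m' hc
  refine ⟨S.R_anti _ _ (T.tcx_lt hc) hρ, ?_, ?_, ?_, ?_⟩
  · rw [← ha, S.L_smul]
    have : (T.a m m')⁻¹ * (T.a m m' * l * (T.a m m')⁻¹) * T.a m m' = l := by group
    rw [this]
    exact S.L_mono _ _ (T.lt m).le hl
  · rw [S.R_smul, inv_inv] at hρ
    exact hρ
  · rw [← hP, S.L_smul] at hl
    exact hl
  · rw [← hQ, S.R_smul] at hρ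
    exact hρ

/-- For `j = inl (m, m')`: `h⁻¹ h'` lies in `L(P m) R(Q m) ∩ L(Q m) R(a⁻¹ Q m') = L(P m) R(a⁻¹ Q m')`
(`VD.mem_inter`), which is the conjugate by `b` of `L (P mm') R (Q mm')`. For `j = inr _` use that
`gen m k ∈ L (Q m) ⊓ R (P m)` commutes with `L (P m)` and `R (Q m)`. -/
theorem Rel.right_unique {j : T.J} {l l' l'' : List T.Edg} (h : T.Rel j l l')
    (h' : T.Rel j l l'') : l' = l'' := by
  rcases j with ⟨⟨m, m'⟩, hc⟩ | ⟨⟨m, k⟩, b⟩
  · obtain ⟨h, rfl, rfl⟩ := h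
    obtain ⟨h', e, rfl⟩ := h'
    have hcc : T.Comp m m' := hc
    have ha := T.ha m m' hcc
    simp only [List.cons.injEq, and_true] at e
    obtain ⟨-, x, hx, y, hy, e1⟩ := T.mkE_eq_iff.1 e.1
    obtain ⟨-, z, hz, u, hu, e2⟩ := T.mkE_eq_iff.1 e.2
    change x ∈ S.L (T.P m) at hx
    change y ∈ S.R (T.Q m) at hy
    change z ∈ S.L (T.P m') at hz
    change u ∈ S.R (T.Q m') at hu
    change h' * (T.a m m')⁻¹ = h * (T.a m m')⁻¹ * z * u at e2
    have h1 : h⁻¹ * h' = x * y := by rw [e1]; group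
    have h2 : h⁻¹ * h' = ((T.a m m')⁻¹ * z * T.a m m') * ((T.a m m')⁻¹ * u * T.a m m') := by
      have : h' = h * (T.a m m')⁻¹ * z * u * T.a m m' := by rw [← e2]; group
      rw [this]
      group
    have hz' : (T.a m m')⁻¹ * z * T.a m m' ∈ S.L (T.Q m) := by
      rw [← ha, S.L_smul] at hz
      exact hz
    have hu' : (T.a m m')⁻¹ * u * T.a m m' ∈ S.R ((T.a m m')⁻¹ • T.Q m') := by
      rw [S.R_smul, inv_inv]
      have : T.a m m' * ((T.a m m')⁻¹ * u * T.a m m') * (T.a m m')⁻¹ = u := by group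
      rw [this]
      exact hu
    obtain ⟨l, hl, ρ, hρ, e3⟩ := S.mem_inter (T.lt m).le (T.tcx_lt hcc)
      ⟨x, hx, y, hy, h1⟩ ⟨_, hz', _, hu', h2⟩
    obtain ⟨-, -, -, k1, k2⟩ := T.tcx_key hcc hl hρ
    have e4 : h' * T.b m m' = h * T.b m m' * ((T.b m m')⁻¹ * l * T.b m m')
        * ((T.b m m')⁻¹ * ρ * T.b m m') := by
      have : h' = h * (l * ρ) := by rw [← e3]; group
      rw [this]
      group
    simp only [List.cons.injEq, and_true]
    exact T.tcx_mkE (x := T.zl (T.mul m m')) k1 k2 e4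
  · obtain ⟨h, rfl, rfl⟩ := h
    obtain ⟨h', e, rfl⟩ := h'
    obtain ⟨g1, g2⟩ := T.tcx_gen m k
    simp only [List.cons.injEq, and_true] at e
    obtain ⟨-, x, hx, y, hy, e1⟩ := T.mkE_eq_iff.1 e
    change x ∈ S.L (T.P m) at hx
    change y ∈ S.R (T.Q m) at hy
    simp only [List.cons.injEq, and_true]
    refine T.tcx_mkE (x := T.zl m) hx hy ?_
    split_ifs
    · exact e1
    · change h' * T.gen m k = h * T.gen m k * x * y
      have c1 : T.gen m k * y = y * T.gen m k := S.comm _ _ _ g1 hy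
      have c2 : x * T.gen m k = T.gen m k * x := S.comm _ _ _ hx g2
      calc h' * T.gen m k = h * x * (y * T.gen m k) := by rw [e1]; group
        _ = h * (x * T.gen m k) * y := by rw [← c1]; group
        _ = h * T.gen m k * x * y := by rw [c2]; group

theorem Rel.left_unique {j : T.J} {l l' l'' : List T.Edg} (h : T.Rel j l l')
    (h' : T.Rel j l'' l') : l = l'' := by
  rcases j with ⟨⟨m, m'⟩, hc⟩ | ⟨⟨m, k⟩, b⟩
  · obtain ⟨h, rfl, rfl⟩ := h
    obtain ⟨h', rfl, e⟩ := h'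
    have hcc : T.Comp m m' := hc
    have hP := T.hbP m m' hcc
    have hQ := T.hbQ m m' hcc
    simp only [List.cons.injEq, and_true] at e
    obtain ⟨-, x, hx, y, hy, e1⟩ := T.mkE_eq_iff.1 e
    change x ∈ S.L (T.P (T.mul m m')) at hx
    change y ∈ S.R (T.Q (T.mul m m')) at hy
    change h' * T.b m m' = h * T.b m m' * x * y at e1
    have hx' : T.b m m' * x * (T.b m m')⁻¹ ∈ S.L (T.P m) := by
      rw [← hP, S.L_smul]
      have : (T.b m m')⁻¹ * (T.b m m' * x * (T.b m m')⁻¹) * T.b m m' = x := by group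
      rw [this]
      exact hx
    have hy' : T.b m m' * y * (T.b m m')⁻¹ ∈ S.R ((T.a m m')⁻¹ • T.Q m') := by
      rw [← hQ, S.R_smul]
      have : (T.b m m')⁻¹ * (T.b m m' * y * (T.b m m')⁻¹) * T.b m m' = y := by group
      rw [this]
      exact hy
    obtain ⟨k0, k1, k2, -, -⟩ := T.tcx_key hcc hx' hy'
    have e2 : h' = h * (T.b m m' * x * (T.b m m')⁻¹) * (T.b m m' * y * (T.b m m')⁻¹) := by
      have : h' = h * T.b m m' * x * y * (T.b m m')⁻¹ := by rw [← e1]; group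
      rw [this]
      group
    generalize T.b m m' * x * (T.b m m')⁻¹ = l at *
    generalize T.b m m' * y * (T.b m m')⁻¹ = ρ at *
    simp only [List.cons.injEq, and_true]
    refine ⟨T.tcx_mkE (x := T.zl m) hx' k0 e2, T.tcx_mkE (x := T.zl m') k1 k2 ?_⟩
    change h' * (T.a m m')⁻¹ = _
    rw [e2]
    group
  · obtain ⟨h, rfl, rfl⟩ := h
    obtain ⟨h', rfl, e⟩ := h'
    obtain ⟨g1, g2⟩ := T.tcx_gen m k
    simp only [List.cons.injEq, and_true] at e
    obtain ⟨-, x, hx, y, hy, e1⟩ := T.mkE_eq_iff.1 e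
    change x ∈ S.L (T.P m) at hx
    change y ∈ S.R (T.Q m) at hy
    simp only [List.cons.injEq, and_true]
    refine T.tcx_mkE (x := T.yl m k) hx hy ?_
    split_ifs at e1
    · exact e1
    · change h' * T.gen m k = h * T.gen m k * x * y at e1
      have c1 : T.gen m k * y = y * T.gen m k := S.comm _ _ _ g1 hy
      have c2 : x * T.gen m k = T.gen m k * x := S.comm _ _ _ hx g2
      have e3 : h' * T.gen m k = h * x * y * T.gen m k := by
        calc h' * T.gen m k = h * (T.gen m k * x) * y := by rw [e1]; group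
          _ = h * x * (T.gen m k * y) := by rw [← c2]; group
          _ = h * x * y * T.gen m k := by rw [c1]; group
      exact mul_right_cancel e3

/-- For the path `mkE z_m g, mkE z_m' g'`: `g⁻¹ g' a = l r` in the stabiliser of `Q m`, and `h = g r`. -/
theorem exists_rel_left {j : T.J} {p q : W} {l : List T.Edg} (h : PathIn T.ei T.et p l q)
    (hl : l.map (fun e => e.1.1) = T.pres.lhs j) : ∃ l', T.Rel j l l' := by
  rcases j with ⟨⟨m, m'⟩, hc⟩ | ⟨⟨m, k⟩, b⟩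
  · have hcc : T.Comp m m' := hc
    have ha := T.ha m m' hcc
    change l.map (fun e => e.1.1) = [T.zl m, T.zl m'] at hl
    obtain ⟨e1, t1, rfl, h1, hl⟩ := List.map_eq_cons_iff.1 hl
    obtain ⟨e2, t2, rfl, h2, hl⟩ := List.map_eq_cons_iff.1 hl
    obtain rfl := List.map_eq_nil_iff.1 hl
    obtain ⟨g, hg⟩ := T.exists_mkE e1
    obtain ⟨g', hg'⟩ := T.exists_mkE e2
    rw [h1] at hg
    rw [h2] at hg'
    subst hg
    subst hg'
    obtain ⟨-, h3, -⟩ := h
    rw [T.ei_mkE, T.et_mkE] at h3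
    change g' • T.P m' = g • T.Q m at h3
    have h4 : (g⁻¹ * g' * T.a m m') • T.Q m = T.Q m := by
      rw [mul_smul, mul_smul, ha, h3, inv_smul_smul]
    obtain ⟨x, hx, y, hy, e⟩ := (S.stabV _ _).1 h4
    refine ⟨_, g * y, ?_, rfl⟩
    simp only [List.cons.injEq, and_true]
    constructor
    · exact T.tcx_mkE (x := T.zl m) (S.L _).one_mem hy (by simp)
    · have hx' : T.a m m' * x⁻¹ * (T.a m m')⁻¹ ∈ S.L (T.P m') := by
        rw [← ha, S.L_smul]
        have : (T.a m m')⁻¹ * (T.a m m' * x⁻¹ * (T.a m m')⁻¹) * T.a m m' = x⁻¹ := by group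
        rw [this]
        exact (S.L _).inv_mem hx
      refine T.tcx_mkE (x := T.zl m') hx' (S.R _).one_mem ?_
      have c1 : x * y = y * x := S.comm _ _ _ hx hy
      have e5 : g' = g * (y * x) * (T.a m m')⁻¹ := by
        rw [← c1, ← e]
        group
      change g * y * (T.a m m')⁻¹ = g' * _ * 1
      rw [e5]
      group
  · change l.map (fun e => e.1.1) = [T.yl m k] at hl
    obtain ⟨e1, t1, rfl, h1, hl⟩ := List.map_eq_cons_iff.1 hl
    obtain rfl := List.map_eq_nil_iff.1 hl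
    obtain ⟨g, hg⟩ := T.exists_mkE e1
    rw [h1] at hg
    subst hg
    exact ⟨_, g, rfl, rfl⟩

theorem exists_rel_right {j : T.J} {l : List T.Edg}
    (hl : l.map (fun e => e.1.1) = T.pres.rhs j) : ∃ l', T.Rel j l' l := by
  rcases j with ⟨⟨m, m'⟩, hc⟩ | ⟨⟨m, k⟩, b⟩
  · change l.map (fun e => e.1.1) = [T.zl (T.mul m m')] at hl
    obtain ⟨e1, t1, rfl, h1, hl⟩ := List.map_eq_cons_iff.1 hl
    obtain rfl := List.map_eq_nil_iff.1 hl
    obtain ⟨g, hg⟩ := T.exists_mkE e1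
    rw [h1] at hg
    subst hg
    refine ⟨_, g * (T.b m m')⁻¹, rfl, ?_⟩
    rw [inv_mul_cancel_right]
  · change l.map (fun e => e.1.1) = [T.zl m] at hl
    obtain ⟨e1, t1, rfl, h1, hl⟩ := List.map_eq_cons_iff.1 hl
    obtain rfl := List.map_eq_nil_iff.1 hl
    obtain ⟨g, hg⟩ := T.exists_mkE e1
    rw [h1] at hg
    subst hg
    cases b
    · refine ⟨_, g * (T.gen m k)⁻¹, rfl, ?_⟩
      simp only [Bool.false_eq_true, if_false]
      rw [inv_mul_cancel_right]
    · exact ⟨_, g, rfl, by simp⟩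

theorem Rel.smul (g : G) {j : T.J} {l l' : List T.Edg} (h : T.Rel j l l') :
    T.Rel j (l.map (g • ·)) (l'.map (g • ·)) := by
  rcases j with ⟨⟨m, m'⟩, hc⟩ | ⟨⟨m, k⟩, b⟩
  · obtain ⟨h, rfl, rfl⟩ := h
    refine ⟨g * h, ?_, ?_⟩
    · simp only [List.map_cons, List.map_nil, T.smul_mkE, mul_assoc]
    · simp only [List.map_cons, List.map_nil, T.smul_mkE, mul_assoc]
  · obtain ⟨h, rfl, rfl⟩ := h
    refine ⟨g * h, ?_, ?_⟩
    · simp only [List.map_cons, List.map_nil, T.smul_mkE]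
    · simp only [List.map_cons, List.map_nil, T.smul_mkE]
      split_ifs
      · rfl
      · rw [mul_assoc]

theorem tcx_flp_true {j : T.J} {l l' : List T.Edg} (h : T.Rel j l l') : T.flp j true l = l' := by
  have h' : ∃ l', T.Rel j l l' := ⟨l', h⟩
  rw [show T.flp j true l = h'.choose from dif_pos h']
  exact Rel.right_unique T h'.choose_spec h

theorem tcx_flp_false {j : T.J} {l l' : List T.Edg} (h : T.Rel j l l') : T.flp j false l' = l := by
  have h' : ∃ l, T.Rel j l l' := ⟨l, h⟩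
  rw [show T.flp j false l' = h'.choose from dif_pos h']
  exact Rel.left_unique T h'.choose_spec h

theorem tcx_path {j : T.J} {l l' : List T.Edg} (h : T.Rel j l l') {p q : W} :
    PathIn T.ei T.et p l q ↔ PathIn T.ei T.et p l' q := by
  obtain ⟨p', q', h1, h2⟩ := Rel.path T h
  have h3 := Rel.lab T h
  have n1 : l ≠ [] := by
    rintro rfl
    exact T.pres.lhs_ne j h3.1.symm
  have n2 : l' ≠ [] := by
    rintro rfl
    exact T.pres.rhs_ne j h3.2.symm
  have key : ∀ (l : List T.Edg) (p q p' q' : W), l ≠ [] → PathIn T.ei T.et p l q →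
      PathIn T.ei T.et p' l q' → p = p' ∧ q = q' := by
    intro l p q p' q' hn h h'
    have hp : p = p' := by
      rcases l with _ | ⟨e, l⟩
      · exact absurd rfl hn
      · exact h.1.symm.trans h'.1
    subst hp
    exact ⟨rfl, pathIn_unique h h'⟩
  constructor
  · intro h
    obtain ⟨rfl, rfl⟩ := key l _ _ _ _ n1 h h1
    exact h2
  · intro h
    obtain ⟨rfl, rfl⟩ := key l' _ _ _ _ n2 h h2
    exact h1

theorem tcx_flp {j : T.J} {b : Bool} {p q : W} {l : List T.Edg} (h : PathIn T.ei T.et p l q)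
    (hl : l.map (fun e => e.1.1) = T.pres.side j b) :
    PathIn T.ei T.et p (T.flp j b l) q ∧
    (T.flp j b l).map (fun e => e.1.1) = T.pres.side j (!b) ∧
    T.flp j (!b) (T.flp j b l) = l ∧
    ∀ g : G, T.flp j b (l.map (g • ·)) = (T.flp j b l).map (g • ·) := by
  cases b
  · obtain ⟨l', h'⟩ := T.exists_rel_right hl
    rw [T.tcx_flp_false h']
    refine ⟨(T.tcx_path h').2 h, (Rel.lab T h').1, T.tcx_flp_true h', fun g => ?_⟩
    exact T.tcx_flp_false (Rel.smul T g h')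
  · obtain ⟨l', h'⟩ := T.exists_rel_left h hl
    rw [T.tcx_flp_true h']
    refine ⟨(T.tcx_path h').1 h, (Rel.lab T h').2, T.tcx_flp_false h', fun g => ?_⟩
    exact T.tcx_flp_true (Rel.smul T g h')

/-- The labelled directed 2-complex. -/
noncomputable def cx : Dcx T.pres W T.Edg where
  i := T.ei
  t := T.et
  lab e := e.1.1
  flip := T.flp
  flip_path := fun _ _ _ _ _ h hl => (T.tcx_flp h hl).1
  flip_lab := fun _ _ _ _ _ h hl => (T.tcx_flp h hl).2.1
  flip_flip := fun _ _ _ _ _ h hl => (T.tcx_flp h hl).2.2.1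

instance : GAct G T.cx where
  i_smul g e := by
    obtain ⟨h, hh⟩ := T.exists_mkE e
    rw [hh]
    change T.ei (g • T.mkE e.1.1 h) = g • T.ei (T.mkE e.1.1 h)
    rw [T.smul_mkE, T.ei_mkE, T.ei_mkE, mul_smul]
  t_smul g e := by
    obtain ⟨h, hh⟩ := T.exists_mkE e
    rw [hh]
    change T.et (g • T.mkE e.1.1 h) = g • T.et (T.mkE e.1.1 h)
    rw [T.smul_mkE, T.et_mkE, T.et_mkE, mul_smul]
  lab_smul _ _ := rfl
  flip_smul g _ _ _ _ _ h hl := (T.tcx_flp h hl).2.2.2 g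

end Tab

end Pool.Agent.DG
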