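import Pool.Agent.MP_cff99f_al.Gen.Basic
import Pool.Agent.MP_cff99f_al.Words

/-!
Block Tab: types of pairs of vertices, composition table, and the auxiliary complete presentation.
-/

namespace Pool.Agent.DG

universe w z

/-- A composition table for the vertex data `S`: representatives `(P m, Q m)` of the orbits of pairs
`p < q`, generators of the groups `L (Q m) ⊓ R (P m)`, and for composable `m, m'` elements
`a = a m m'`, `b = b m m'` such that `a (Q m) = P m'` and `b` maps the representative
of the type `mul m m'` to `(P m, a⁻¹ (Q m'))`. -/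
structure Tab {G : Type z} {W : Type w} [Group G] [PartialOrder W] [MulAction G W] (S : VD G W) where
  M : Type
  finM : Finite M
  P : M → W
  Q : M → W
  lt : ∀ m, P m < Q m
  ex : ∀ p q, p < q → ∃ m, ∃ g : G, g • P m = p ∧ g • Q m = q
  uniq : ∀ m m' (g : G), g • P m = P m' → g • Q m = Q m' → m = m'
  K : M → Type
  finK : ∀ m, Finite (K m)
  gen : ∀ m, K m → G
  gen_closure : ∀ m, Subgroup.closure (Set.range (gen m)) = S.L (Q m) ⊓ S.R (P m)
  mul : M → M → M
  a : M → M → G
  b : M → M → G
  ha : ∀ m m', (∃ g : G, g • Q m = P m') → a m m' • Q m = P m'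
  hbP : ∀ m m', (∃ g : G, g • Q m = P m') → b m m' • P (mul m m') = P m
  hbQ : ∀ m m', (∃ g : G, g • Q m = P m') → b m m' • Q (mul m m') = (a m m')⁻¹ • Q m'

/-- Existence of a table. (`P m < (a m m')⁻¹ • Q m'` because `Q m = a⁻¹ P m' < a⁻¹ Q m'`.) -/
theorem exists_tab {G : Type z} {W : Type w} [Group G] [PartialOrder W] [MulAction G W]
    (S : VD G W) (hfin : ∃ F : Finset (W × W), ∀ p q : W, p ≤ q → ∃ g : G, (g • p, g • q) ∈ F)
    (hD : ∀ p q, p ≤ q → (S.L q ⊓ S.R p).FG) : Nonempty (Tab S) := by
  classical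
  let r : Setoid {pq : W × W // pq.1 < pq.2} :=
    { r := fun a b => ∃ g : G, g • a.1.1 = b.1.1 ∧ g • a.1.2 = b.1.2
      iseqv := by
        refine ⟨fun a => ⟨1, by simp, by simp⟩, ?_, ?_⟩
        · rintro a b ⟨g, h1, h2⟩
          exact ⟨g⁻¹, by rw [← h1, inv_smul_smul], by rw [← h2, inv_smul_smul]⟩
        · rintro a b c ⟨g, h1, h2⟩ ⟨g', h3, h4⟩
          exact ⟨g' * g, by rw [mul_smul, h1, h3], by rw [mul_smul, h2, h4]⟩ }
  have hfinQ : Finite (Quotient r) := by
    obtain ⟨F, hF⟩ := hfin
    have hfs : Finite {pq : W × W // pq ∈ F ∧ pq.1 < pq.2} :=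
      Set.Finite.to_subtype (F.finite_toSet.subset (fun x hx => hx.1))
    refine Finite.of_surjective (fun x : {pq : W × W // pq ∈ F ∧ pq.1 < pq.2} =>
      Quotient.mk r ⟨x.1, x.2.2⟩) ?_
    intro y
    induction y using Quotient.ind with
    | _ y =>
      obtain ⟨g, hg⟩ := hF y.1.1 y.1.2 y.2.le
      have hlt : g • y.1.1 < g • y.1.2 := by
        refine lt_of_le_of_ne (S.smul_le g _ _ y.2.le) ?_
        intro h
        exact y.2.ne ((smul_left_cancel_iff g).1 h)
      refine ⟨⟨(g • y.1.1, g • y.1.2), hg, hlt⟩, ?_⟩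
      apply Quotient.sound (s := r)
      exact ⟨g⁻¹, by simp, by simp⟩
  obtain ⟨n, ⟨e⟩⟩ := Finite.exists_equiv_fin (Quotient r)
  have hPQ : ∃ P Q : Fin n → W, (∀ m, P m < Q m) ∧
      (∀ p q, p < q → ∃ m, ∃ g : G, g • P m = p ∧ g • Q m = q) ∧
      (∀ m m' (g : G), g • P m = P m' → g • Q m = Q m' → m = m') := by
    refine ⟨fun m => (e.symm m).out.1.1, fun m => (e.symm m).out.1.2, fun m => (e.symm m).out.2,
      ?_, ?_⟩
    · intro p q hpq
      refine ⟨e (Quotient.mk r ⟨(p, q), hpq⟩), ?_⟩
      simp only [Equiv.symm_apply_apply]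
      exact Quotient.exact (Quotient.out_eq (Quotient.mk r ⟨(p, q), hpq⟩))
    · intro m m' g h1 h2
      apply e.symm.injective
      rw [← Quotient.out_equiv_out]
      exact ⟨g, h1, h2⟩
  obtain ⟨P, Q, hlt, hex, huniq⟩ := hPQ
  choose F hF using fun m => hD (P m) (Q m) (hlt m).le
  have key : ∀ m m' : Fin n, ∃ (r : Fin n) (a b : G), (∃ g : G, g • Q m = P m') →
      a • Q m = P m' ∧ b • P r = P m ∧ b • Q r = a⁻¹ • Q m' := by
    intro m m'
    by_cases h : ∃ g : G, g • Q m = P m'
    · obtain ⟨g, hg⟩ := h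
      have h1 : Q m = g⁻¹ • P m' := by rw [← hg, inv_smul_smul]
      have h2 : g⁻¹ • P m' < g⁻¹ • Q m' := by
        refine lt_of_le_of_ne (S.smul_le g⁻¹ _ _ (hlt m').le) ?_
        intro h
        exact (hlt m').ne ((smul_left_cancel_iff _).1 h)
      obtain ⟨r, b, hb1, hb2⟩ := hex (P m) (g⁻¹ • Q m') ((hlt m).trans (h1 ▸ h2))
      exact ⟨r, g, b, fun _ => ⟨hg, hb1, hb2⟩⟩
    · exact ⟨m, 1, 1, fun h' => absurd h' h⟩
  choose mul a b hab using key
  refine ⟨{ M := Fin n
            finM := inferInstance
            P := P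
            Q := Q
            lt := hlt
            ex := hex
            uniq := huniq
            K := fun m => Fin (F m).card
            finK := fun m => inferInstance
            gen := fun m k => ((F m).equivFin.symm k).1
            gen_closure := ?_
            mul := mul
            a := a
            b := b
            ha := fun m m' h => (hab m m' h).1
            hbP := fun m m' h => (hab m m' h).2.1
            hbQ := fun m m' h => (hab m m' h).2.2 }⟩
  intro m
  rw [← hF m]
  congr 1
  ext x
  constructor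
  · rintro ⟨k, rfl⟩
    exact ((F m).equivFin.symm k).2
  · intro hx
    exact ⟨(F m).equivFin ⟨x, hx⟩, by simp⟩

namespace Tab

variable {G : Type z} {W : Type w} [Group G] [PartialOrder W] [MulAction G W] {S : VD G W}
  (T : Tab S)

/-- Composable types. -/
def Comp (m m' : T.M) : Prop := ∃ g : G, g • T.Q m = T.P m'

/-- The letters: `z_m = ⟨m, none⟩` and `y_{m,k} = ⟨m, some k⟩`. -/
def A : Type := Σ m : T.M, Option (T.K m)

/-- The relations. -/
def J : Type := {mm : T.M × T.M // T.Comp mm.1 mm.2} ⊕ ((Σ m : T.M, T.K m) × Bool)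

/-- The letter `z_m`. -/
def zl (m : T.M) : T.A := ⟨m, none⟩

/-- The letter `y_{m,k}`. -/
def yl (m : T.M) (k : T.K m) : T.A := ⟨m, some k⟩

/-- The auxiliary presentation: `z_m z_m' = z_{mul m m'}` for composable types, and `y_{m,k} = z_m`,
twice. -/
def pres : Pres T.A T.J where
  lhs := Sum.elim (fun mm => [T.zl mm.1.1, T.zl mm.1.2]) (fun mk => [T.yl mk.1.1 mk.1.2])
  rhs := Sum.elim (fun mm => [T.zl (T.mul mm.1.1 mm.1.2)]) (fun mk => [T.zl mk.1.1])
  lhs_ne j := by rcases j with mm | mk <;> simp
  rhs_ne j := by rcases j with mm | mk <;> simp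

theorem finite_A : Finite T.A := by
  have h1 := T.finM
  have h2 := T.finK
  unfold A
  infer_instance

theorem finite_J : Finite T.J := by
  have h1 := T.finM
  have h2 := T.finK
  unfold J
  infer_instance

/-- If `(p, q)` has type `m` and `(q, r)` has type `m'` then `(p, r)` has type `mul m m'`: both
`L q` and `R q` act, commuting, and `L q` fixes `r`, `R q` fixes `p`. -/
theorem type_mul {p q r : W} {m m' : T.M} {g g' : G} (h1 : g • T.P m = p) (h2 : g • T.Q m = q)
    (h3 : g' • T.P m' = q) (h4 : g' • T.Q m' = r) : T.Comp m m' ∧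
    ∃ k : G, k • T.P (T.mul m m') = p ∧ k • T.Q (T.mul m m') = r := by
  have hc : T.Comp m m' := ⟨g'⁻¹ * g, by rw [mul_smul, h2, ← h3, inv_smul_smul]⟩
  refine ⟨hc, ?_⟩
  have ha := T.ha m m' hc
  have hbP := T.hbP m m' hc
  have hbQ := T.hbQ m m' hc
  have ha' : T.Q m = (T.a m m')⁻¹ • T.P m' := by rw [← ha, inv_smul_smul]
  have hs : (g⁻¹ * g' * T.a m m') • T.Q m = T.Q m := by
    rw [mul_smul, ha, mul_smul, h3, ← h2, inv_smul_smul]
  obtain ⟨x, hx, y, hy, hxy⟩ := (S.stabV (T.Q m) (g⁻¹ * g' * T.a m m')).1 hs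
  have hle : T.Q m ≤ (T.a m m')⁻¹ • T.Q m' := by
    rw [ha']
    exact S.smul_le _ _ _ (T.lt m').le
  have e1 : x • ((T.a m m')⁻¹ • T.Q m') = (T.a m m')⁻¹ • T.Q m' := S.smul_of_mem_L hx hle
  have e2 : y • T.P m = T.P m := S.smul_of_mem_R hy (T.lt m).le
  have e3 : y • ((T.a m m')⁻¹ • T.Q m') = (g⁻¹ * g') • T.Q m' := by
    conv_lhs => rw [← e1]
    rw [← mul_smul, ← S.comm (T.Q m) x y hx hy, ← hxy, mul_smul, smul_inv_smul]
  refine ⟨g * y * T.b m m', ?_, ?_⟩
  · rw [mul_smul, hbP, mul_smul, e2, h1]
  · rw [mul_smul, hbQ, mul_smul, e3, mul_smul, smul_inv_smul, h4]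

theorem comp_mul_left {m m' m'' : T.M} (h : T.Comp m m') :
    T.Comp (T.mul m m') m'' ↔ T.Comp m' m'' := by
  have hbQ := T.hbQ m m' h
  constructor
  · rintro ⟨g, hg⟩
    refine ⟨g * (T.b m m')⁻¹ * (T.a m m')⁻¹, ?_⟩
    rw [mul_smul, ← hbQ, mul_smul, inv_smul_smul, hg]
  · rintro ⟨g, hg⟩
    refine ⟨g * T.a m m' * T.b m m', ?_⟩
    rw [mul_smul, hbQ, mul_smul, smul_inv_smul, hg]

theorem comp_mul_right {m m' m'' : T.M} (h : T.Comp m' m'') :
    T.Comp m (T.mul m' m'') ↔ T.Comp m m' := by
  have hbP := T.hbP m' m'' h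
  constructor
  · rintro ⟨g, hg⟩
    refine ⟨T.b m' m'' * g, ?_⟩
    rw [mul_smul, hg, hbP]
  · rintro ⟨g, hg⟩
    refine ⟨(T.b m' m'')⁻¹ * g, ?_⟩
    rw [mul_smul, hg, ← hbP, inv_smul_smul]

theorem mul_assoc' {m m' m'' : T.M} (h : T.Comp m m') (h' : T.Comp m' m'') :
    T.mul (T.mul m m') m'' = T.mul m (T.mul m' m'') := by
  obtain ⟨g1, hg1⟩ := h
  obtain ⟨g2, hg2⟩ := h'
  -- `p = P m`, `q = Q m`, `r = g1⁻¹ • Q m'`, `s = (g1⁻¹ * g2⁻¹) • Q m''`
  have t1 : g1⁻¹ • T.P m' = T.Q m := by rw [← hg1, inv_smul_smul]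
  have t2 : (g1⁻¹ * g2⁻¹) • T.P m'' = g1⁻¹ • T.Q m' := by
    rw [mul_smul, ← hg2, inv_smul_smul]
  obtain ⟨-, k1, hk1, hk1'⟩ := T.type_mul (p := T.P m) (q := T.Q m) (r := g1⁻¹ • T.Q m')
    (g := 1) (g' := g1⁻¹) (one_smul _ _) (one_smul _ _) t1 rfl
  obtain ⟨-, k2, hk2, hk2'⟩ := T.type_mul hk1 hk1' t2 (r := (g1⁻¹ * g2⁻¹) • T.Q m'') rfl
  obtain ⟨-, k3, hk3, hk3'⟩ := T.type_mul (p := T.Q m) (q := g1⁻¹ • T.Q m')
    (r := (g1⁻¹ * g2⁻¹) • T.Q m'') (g := g1⁻¹) (g' := g1⁻¹ * g2⁻¹) t1 rfl t2 rfl
  obtain ⟨-, k4, hk4, hk4'⟩ := T.type_mul (p := T.P m) (q := T.Q m) (g := 1)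
    (one_smul _ _) (one_smul _ _) hk3 hk3'
  apply T.uniq _ _ (k4⁻¹ * k2)
  · rw [mul_smul, hk2, ← hk4, inv_smul_smul]
  · rw [mul_smul, hk2', ← hk4', inv_smul_smul]

/-- The normal form of a list of types. -/
noncomputable def tabPush (m : T.M) : List T.M → List T.M
  | [] => [m]
  | m' :: l => by
    classical exact if T.Comp m m' then T.mul m m' :: l else m :: m' :: l

theorem tabPush_nil (m : T.M) : T.tabPush m [] = [m] := rfl

theorem tabPush_pos {m m' : T.M} (h : T.Comp m m') (l : List T.M) :
    T.tabPush m (m' :: l) = T.mul m m' :: l := by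
  simp only [tabPush]
  exact if_pos h

theorem tabPush_neg {m m' : T.M} (h : ¬ T.Comp m m') (l : List T.M) :
    T.tabPush m (m' :: l) = m :: m' :: l := by
  simp only [tabPush]
  exact if_neg h

theorem tabPush_push {m m' : T.M} (h : T.Comp m m') (l : List T.M) :
    T.tabPush m (T.tabPush m' l) = T.tabPush (T.mul m m') l := by
  cases l with
  | nil => rw [tabPush_nil, tabPush_pos T h, tabPush_nil]
  | cons m'' l =>
    by_cases h' : T.Comp m' m''
    · rw [tabPush_pos T h', tabPush_pos T ((T.comp_mul_right h').2 h),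
        tabPush_pos T ((T.comp_mul_left h).2 h'), T.mul_assoc' h h']
    · rw [tabPush_neg T h', tabPush_pos T h, tabPush_neg T (mt (T.comp_mul_left h).1 h')]

/-- The normal form of a word. -/
noncomputable def tabN (x : List T.A) : List T.M := x.foldr (fun c l => T.tabPush c.1 l) []

theorem tabN_cons (c : T.A) (x : List T.A) : T.tabN (c :: x) = T.tabPush c.1 (T.tabN x) := rfl

theorem tabN_append_congr (x : List T.A) {y y' : List T.A} (h : T.tabN y = T.tabN y') :
    T.tabN (x ++ y) = T.tabN (x ++ y') := by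
  induction x with
  | nil => exact h
  | cons c x ih => rw [List.cons_append, List.cons_append, tabN_cons, tabN_cons, ih]

/-- The auxiliary presentation is complete: every step decreases the length plus the number of
letters `y`; the critical pairs are resolved by `mul_assoc'`. -/
theorem complete_pres : Complete T.pres := by
  classical
  constructor
  · -- termination
    let w : T.A → ℕ := fun c => if c.2 = none then 1 else 2
    have hz : ∀ m, w (T.zl m) = 1 := fun m => if_pos rfl
    have hy : ∀ m k, w (T.yl m k) = 2 := fun m k => if_neg (Option.some_ne_none k)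
    refine Subrelation.wf ?_ (measure (fun x : List T.A => (x.map w).sum)).wf
    rintro y x ⟨a, i, b, rfl, rfl⟩
    change (List.map w (a ++ T.pres.rhs i ++ b)).sum < (List.map w (a ++ T.pres.lhs i ++ b)).sum
    simp only [List.map_append, List.sum_append]
    have : (List.map w (T.pres.rhs i)).sum < (List.map w (T.pres.lhs i)).sum := by
      rcases i with mm | mk
      · change (List.map w [T.zl (T.mul mm.1.1 mm.1.2)]).sum <
          (List.map w [T.zl mm.1.1, T.zl mm.1.2]).sum
        simp only [List.map_cons, List.map_nil, List.sum_cons, List.sum_nil, hz]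
        omega
      · change (List.map w [T.zl mk.1.1]).sum < (List.map w [T.yl mk.1.1 mk.1.2]).sum
        simp only [List.map_cons, List.map_nil, List.sum_cons, List.sum_nil, hz, hy]
        omega
    omega
  · intro x y z hy hz
    have hN : ∀ u v, Step T.pres u v → T.tabN u = T.tabN v := by
      rintro u v ⟨a, i, b, rfl, rfl⟩
      rw [List.append_assoc, List.append_assoc]
      apply tabN_append_congr
      rcases i with mm | mk
      · change T.tabN (T.zl mm.1.1 :: T.zl mm.1.2 :: b) = T.tabN (T.zl (T.mul mm.1.1 mm.1.2) :: b)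
        rw [tabN_cons, tabN_cons, tabN_cons]
        exact T.tabPush_push mm.2 _
      · change T.tabN (T.yl mk.1.1 mk.1.2 :: b) = T.tabN (T.zl mk.1.1 :: b)
        rw [tabN_cons, tabN_cons]
        rfl
    have hN' : ∀ u v, Relation.ReflTransGen (Step T.pres) u v → T.tabN u = T.tabN v := by
      intro u v h
      induction h with
      | refl => rfl
      | tail _ h ih => exact ih.trans (hN _ _ h)
    have hR : ∀ u : List T.A,
        Relation.ReflTransGen (Step T.pres) u ((T.tabN u).map T.zl) := by
      intro u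
      induction u with
      | nil => exact Relation.ReflTransGen.refl
      | cons c u ih =>
        have h1 : Relation.ReflTransGen (Step T.pres) (c :: u) (c :: (T.tabN u).map T.zl) := by
          have : ∀ v, Relation.ReflTransGen (Step T.pres) u v →
              Relation.ReflTransGen (Step T.pres) (c :: u) (c :: v) := by
            intro v h
            induction h with
            | refl => exact Relation.ReflTransGen.refl
            | tail _ h ih => exact ih.tail (h.append_left [c])
          exact this _ ih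
        have h2 : Relation.ReflTransGen (Step T.pres) (c :: (T.tabN u).map T.zl)
            (T.zl c.1 :: (T.tabN u).map T.zl) := by
          obtain ⟨m, o⟩ := c
          cases o with
          | none => exact Relation.ReflTransGen.refl
          | some k =>
            apply Relation.ReflTransGen.single
            exact ⟨[], Sum.inr (⟨m, k⟩, true), (T.tabN u).map T.zl, rfl, rfl⟩
        have h3 : Relation.ReflTransGen (Step T.pres) (T.zl c.1 :: (T.tabN u).map T.zl)
            ((T.tabN (c :: u)).map T.zl) := by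
          rw [tabN_cons]
          generalize T.tabN u = l
          cases l with
          | nil => exact Relation.ReflTransGen.refl
          | cons m' l =>
            by_cases h : T.Comp c.1 m'
            · rw [T.tabPush_pos h]
              apply Relation.ReflTransGen.single
              exact ⟨[], Sum.inl ⟨(c.1, m'), h⟩, l.map T.zl, rfl, rfl⟩
            · rw [T.tabPush_neg h]
              exact Relation.ReflTransGen.refl
        exact (h1.trans h2).trans h3
    refine ⟨(T.tabN x).map T.zl, ?_, ?_⟩
    · rw [hN' x y hy]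
      exact hR y
    · rw [hN' x z hz]
      exact hR z

/-- A word all of whose adjacent letters have composable types (such as the label of a path of the
complex below). -/
def CompW (x : List T.A) : Prop := x.IsChain fun a b => T.Comp a.1 b.1

/-- An irreducible word with composable adjacent letters has length at most 1. -/
theorem length_le_of_irr {x : List T.A} (h : T.CompW x) (h' : Irr T.pres x) : x.length ≤ 1 := by
  rcases x with _ | ⟨c, _ | ⟨d, l⟩⟩
  · simp
  · simp
  · exfalso
    rw [irr_iff] at h'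
    obtain ⟨m, o⟩ := c
    obtain ⟨m', o'⟩ := d
    cases o with
    | some k => exact h' [] (Sum.inr (⟨m, k⟩, true)) (⟨m', o'⟩ :: l) rfl
    | none =>
      cases o' with
      | some k => exact h' [⟨m, none⟩] (Sum.inr (⟨m', k⟩, true)) l rfl
      | none =>
        have hc : T.Comp m m' := by
          have := List.isChain_cons_cons.1 h
          exact this.1
        exact h' [] (Sum.inl ⟨(m, m'), hc⟩) l rfl

/-- There are finitely many critical cubes of a given dimension whose words are composable. -/
theorem finite_crit (k : ℕ) :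
    {q : Cube T.A T.J | IsCrit T.pres q ∧ dim q = k ∧ T.CompW (T.pres.top q)}.Finite := by
  have hA := T.finite_A
  have hJ := T.finite_J
  apply (List.finite_length_le (T.A ⊕ T.J) (2 * k + 1)).subset
  rintro q ⟨⟨L, t, hL, ht, rfl⟩, hdim, hc⟩
  change (critCube L t).length ≤ 2 * k + 1
  have key : ∀ (L : List (List T.A × T.J)) (t : List T.A), (∀ p ∈ L, MSite T.pres p.1 p.2) →
      Irr T.pres t → T.CompW (T.pres.top (critCube L t)) →
      (critCube L t).length ≤ 2 * dim (critCube L t) + 1 := by
    intro L t hL ht hc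
    induction L with
    | nil =>
      have e : critCube [] t = (letters t : Cube T.A T.J) := rfl
      rw [e] at hc ⊢
      rw [top_letters] at hc
      have h1 := T.length_le_of_irr hc ht
      simp only [letters, List.length_map]
      omega
    | cons p L ih =>
      have e : critCube (p :: L) t = letters p.1 ++ ([Sum.inr p.2] ++ critCube L t) := by
        simp [critCube]
      rw [e, top_append, top_letters, top_append] at hc
      have hc1 : T.CompW p.1 := (List.isChain_append.1 hc).1
      have hc2 : T.CompW (T.pres.top (critCube L t)) :=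
        (List.isChain_append.1 (List.isChain_append.1 hc).2.1).2.1
      have h1 := T.length_le_of_irr hc1 (hL p List.mem_cons_self).1
      have h2 := ih (fun p' hp' => hL p' (List.mem_cons_of_mem _ hp')) hc2
      rw [e]
      simp only [List.length_append, dim_append, dim_inr, dim_nil, letters,
        List.length_map, List.length_cons, List.length_nil] at h2 ⊢
      omega
  have := key L t hL ht hc
  rw [hdim] at this
  exact this

end Tab

end Pool.Agent.DG
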