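import Pool.Agent.MP_cff99f_al.TreeIso
import Pool.Agent.MP_cff99f_al.Gen.Chain

/-!
Block TreeA: the universal 2-tree as a directed 2-complex; raw paths.
-/

namespace Pool.Agent.DG

universe u v w

variable {α : Type u} {ι : Type v}

/-- Codes of the vertices of the universal 2-tree: `vb k` is the `k`-th vertex of the base path,
`vi i p j top`, `0 < j`, the interior vertex between the edges `cell i p (j-1) top` and
`cell i p j top` of the far side of a 2-cell. -/
inductive VCode (α : Type u) (ι : Type v) : Type (max u v)
  | vb (k : ℕ)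
  | vi (i : ι) (p : Bool) (j : ℕ) (top : Code α ι)

/-- The initial vertex of an edge code, or of a list code. -/
def Code.iv : Code α ι → VCode α ι
  | Code.base k => VCode.vb k
  | Code.nil => VCode.vb 0
  | Code.cons _ c _ => c.iv
  | Code.cell i p j top => if j = 0 then top.iv else VCode.vi i p j top

variable (P : Pres α ι)

/-- The terminal vertex of an edge code, or of a list code. -/
def Code.tv : Code α ι → VCode α ι
  | Code.base k => VCode.vb (k + 1)
  | Code.nil => VCode.vb 0
  | Code.cons _ c l => match l with
    | Code.nil => c.tv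
    | l => l.tv
  | Code.cell i p j top =>
      if j + 1 = (P.side i (!p)).length then top.tv else VCode.vi i p (j + 1) top

/-- The size of a code. -/
def Code.sz : Code α ι → ℕ
  | Code.base _ => 1
  | Code.nil => 0
  | Code.cons _ c l => 1 + c.sz + l.sz
  | Code.cell _ _ _ top => 1 + top.sz

/-- Raw paths. -/
def RPath : VCode α ι → List (Ed α ι) → VCode α ι → Prop :=
  PathIn (fun e : Ed α ι => e.2.iv) (fun e => e.2.tv P)

/-- Valid edges: those on the paths in `TreeE P x`. -/
def Val (x : List α) (e : Ed α ι) : Prop := ∃ L : TreeE P x, e ∈ L.1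

/-- Raw moves. -/
def RMove (x : List α) (l l' : List (Ed α ι)) : Prop :=
  ∃ (A : List (Ed α ι)) (i : ι) (p : Bool) (s B : List (Ed α ι)), (∀ e ∈ s, Val P x e) ∧
    (∃ u v, RPath P u s v) ∧ s.map Prod.fst = P.side i p ∧ l = A ++ s ++ B ∧
    l' = A ++ act P i p s ++ B

variable {P} {x : List α}

theorem enc_iv_cons (e : Ed α ι) (l : List (Ed α ι)) : (enc (e :: l)).iv = e.2.iv := rfl

theorem enc_tv_append (l : List (Ed α ι)) (e : Ed α ι) : (enc (l ++ [e])).tv P = e.2.tv P := by
  induction l with
  | nil => rfl
  | cons a l ih =>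
    cases l with
    | nil => exact ih
    | cons b l => exact ih

/-- A list of arrows whose ends are given by a sequence of vertices is a path. -/
theorem ta_pathIn_of_seq {V E : Type*} {i t : E → V} (l : List E) :
    ∀ w : ℕ → V, (∀ k (hk : k < l.length), i l[k] = w k ∧ t l[k] = w (k + 1)) →
      PathIn i t (w 0) l (w l.length) := by
  induction l with
  | nil => intro w _; rfl
  | cons e l ih =>
    intro w h
    have h0 := h 0 (by simp)
    refine ⟨h0.1, ?_⟩
    have h1 := ih (fun k => w (k + 1)) (fun k hk => h (k + 1) (by simpa using hk))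
    have h2 : t e = w (0 + 1) := h0.2
    rw [h2]
    exact h1

theorem ta_enc_iv {T : List (Ed α ι)} {u v : VCode α ι} (hT : RPath P u T v) (hne : T ≠ []) :
    (enc T).iv = u := by
  cases T with
  | nil => exact absurd rfl hne
  | cons e l => exact hT.1

theorem ta_enc_tv {T : List (Ed α ι)} {u v : VCode α ι} (hT : RPath P u T v) (hne : T ≠ []) :
    (enc T).tv P = v := by
  induction T using List.reverseRecOn with
  | nil => exact absurd rfl hne
  | append_singleton l e ih =>
    rw [enc_tv_append]
    obtain ⟨r, _, h2⟩ := pathIn_append.1 hT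
    exact h2.2

/-- The far side of a 2-cell is a path parallel to the path `T` along which the cell is attached. -/
theorem rpath_bottom {i : ι} {p : Bool} {T : List (Ed α ι)} {u v : VCode α ι} (hT : RPath P u T v)
    (hne : T ≠ []) : RPath P u (bottom P i p T) v := by
  have hu := ta_enc_iv hT hne
  have hv := ta_enc_tv hT hne
  have hpos : 0 < (P.side i (!p)).length := List.length_pos_iff.2 (P.side_ne i (!p))
  have key := ta_pathIn_of_seq (i := fun e : Ed α ι => e.2.iv) (t := fun e => e.2.tv P)
    (bottom P i p T)
    (fun k => if k = 0 then u else if k = (P.side i (!p)).length then v else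
      VCode.vi i p k (enc T)) (by
      intro k hk
      have hc := ti_getElem_bottom P i p T k hk
      rw [ti_length_bottom] at hk
      simp only [hc]
      constructor
      · by_cases h0 : k = 0
        · subst h0
          simp [Code.iv, hu]
        · have h1 : k ≠ (P.side i (!p)).length := by omega
          simp [Code.iv, h0, h1]
      · by_cases h1 : k + 1 = (P.side i (!p)).length
        · have h2 : k + 1 ≠ 0 := by omega
          rw [if_neg h2]
          simp only [Code.tv, if_pos h1, hv]
        · simp [Code.tv, h1])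
  have e1 : (bottom P i p T).length ≠ 0 := by rw [ti_length_bottom]; omega
  rw [if_pos rfl, if_neg e1, if_pos (ti_length_bottom P i p T)] at key
  exact key

theorem ta_side_ne {T : List (Ed α ι)} {i : ι} {p : Bool} (h : T.map Prod.fst = P.side i p) :
    T ≠ [] := by
  rintro rfl
  exact P.side_ne i p h.symm

theorem ta_base_path : RPath P (VCode.vb 0) (baseList x : List (Ed α ι)) (VCode.vb x.length) := by
  have key := ta_pathIn_of_seq (i := fun e : Ed α ι => e.2.iv) (t := fun e => e.2.tv P)
    (baseList x) (fun k => VCode.vb k) (by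
      intro k hk
      simp [baseList, Code.iv, Code.tv])
  have e1 : (baseList x : List (Ed α ι)).length = x.length := by simp [baseList]
  rw [e1] at key
  exact key

theorem ta_path_aux {L : List (Ed α ι)} (h : Relation.ReflTransGen (Down P) L (baseList x)) :
    (∀ e ∈ L, Ok P e.2) → RPath P (VCode.vb 0) L (VCode.vb x.length) := by
  induction h using Relation.ReflTransGen.head_induction_on with
  | refl => intro _; exact ta_base_path
  | head h h' ih =>
    intro hok
    obtain ⟨s, hs⟩ := ti_exists_step P h
    have h1 := ih (ti_step_ok P hs hok)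
    obtain ⟨A, i, p, T, B, rfl, rfl⟩ := h
    have hT := ta_side_ne (ti_ok_bottom P hok).2.1
    obtain ⟨r, h2, h3⟩ := pathIn_append.1 h1
    obtain ⟨q, h4, h5⟩ := pathIn_append.1 h2
    exact pathIn_append.2 ⟨r, pathIn_append.2 ⟨q, h4, rpath_bottom h5 hT⟩, h3⟩

/-- By induction on the reduction to the base path (`Down` read backwards). -/
theorem tree_path (L : TreeE P x) : RPath P (VCode.vb 0) L.1 (VCode.vb x.length) :=
  ta_path_aux L.2.2 L.2.1

theorem ta_cases_aux {L : List (Ed α ι)} (h : Relation.ReflTransGen (Down P) L (baseList x)) :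
    (∀ e ∈ L, Ok P e.2) → ∀ e ∈ L, (∃ k a, e = (a, Code.base k) ∧ x[k]? = some a) ∨
    ∃ (a : α) (i : ι) (p : Bool) (j : ℕ) (T : List (Ed α ι)), e = (a, Code.cell i p j (enc T)) ∧
      (P.side i (!p))[j]? = some a ∧ (∀ e' ∈ T, Val P x e') ∧ T.map Prod.fst = P.side i p ∧
      (∀ T', T ≠ bottom P i (!p) T') ∧ (∃ u v, RPath P u T v) ∧
      ∀ e' ∈ bottom P i p T, Val P x e' := by
  induction h using Relation.ReflTransGen.head_induction_on with
  | refl =>
    intro _ e he
    left
    simp only [baseList, List.mem_mapIdx] at he
    obtain ⟨k, hk, rfl⟩ := he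
    exact ⟨k, x[k], rfl, List.getElem?_eq_getElem hk⟩
  | @head L L' h h' ih =>
    intro hok e he
    obtain ⟨s, hs⟩ := ti_exists_step P h
    have hok' := ti_step_ok P hs hok
    have h1 := ih hok'
    have hred : Relation.ReflTransGen (Down P) L (baseList x) := Relation.ReflTransGen.head h h'
    obtain ⟨A, i, p, T, B, rfl, rfl⟩ := h
    rw [List.mem_append, List.mem_append] at he
    rcases he with (he | he) | he
    · exact h1 e (by simp [he])
    · right
      obtain ⟨j, hj, hje⟩ := List.getElem_of_mem he
      have h2 : (bottom P i p T)[j]? = some e := by rw [List.getElem?_eq_getElem hj, hje]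
      rw [getElem?_bottom, Option.map_eq_some_iff] at h2
      obtain ⟨a, ha, rfl⟩ := h2
      have h3 := ti_ok_bottom P hok
      refine ⟨a, i, p, j, T, rfl, ha, ?_, h3.2.1, h3.2.2, ?_, ?_⟩
      · intro e' he'
        exact ⟨⟨A ++ T ++ B, hok', h'⟩, by simp [he']⟩
      · obtain ⟨r, h4, _⟩ := pathIn_append.1 (ta_path_aux h' hok')
        obtain ⟨q, _, h5⟩ := pathIn_append.1 h4
        exact ⟨q, r, h5⟩
      · intro e' he'
        exact ⟨⟨A ++ bottom P i p T ++ B, hok, hred⟩, by simp [he']⟩
    · exact h1 e (by simp [he])

/-- The shape of the valid edges. (An edge `cell i p j (enc T)` of a list in `TreeE` is removed at some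
point of the reduction to the base path, by a `Down` move from `bottom P i p T` to `T`.) -/
theorem val_cases {e : Ed α ι} (h : Val P x e) :
    (∃ k a, e = (a, Code.base k) ∧ x[k]? = some a) ∨
    ∃ (a : α) (i : ι) (p : Bool) (j : ℕ) (T : List (Ed α ι)), e = (a, Code.cell i p j (enc T)) ∧
      (P.side i (!p))[j]? = some a ∧ (∀ e' ∈ T, Val P x e') ∧ T.map Prod.fst = P.side i p ∧
      (∀ T', T ≠ bottom P i (!p) T') ∧ (∃ u v, RPath P u T v) ∧
      ∀ e' ∈ bottom P i p T, Val P x e' := by
  obtain ⟨L, hL⟩ := h
  exact ta_cases_aux L.2.2 L.2.1 e hL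

theorem ta_sz_mem {T : List (Ed α ι)} {e : Ed α ι} (h : e ∈ T) : e.2.sz + 1 ≤ (enc T).sz := by
  induction T with
  | nil => simp at h
  | cons a T ih =>
    simp only [enc, Code.sz]
    rcases List.mem_cons.1 h with rfl | h
    · omega
    · have := ih h
      omega

/-- If a valid edge starts at an interior vertex `vi i p j (enc T)` then it is the `j`-th edge of the
bottom, or its code is larger (size at least `2 + (enc T).sz`). -/
theorem val_of_iv {e : Ed α ι} (h : Val P x e) {i : ι} {p : Bool} {j : ℕ} {top : Code α ι}
    (h' : e.2.iv = VCode.vi i p j top) :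
    e.2 = Code.cell i p j top ∨ 1 + top.sz < e.2.sz := by
  generalize hn : e.2.sz = n
  induction n using Nat.strong_induction_on generalizing e with
  | _ n ih =>
  rcases val_cases h with ⟨k, a, rfl, _⟩ | ⟨a, i', p', j', T, rfl, _, hv, hl, _, _, _⟩
  · simp [Code.iv] at h'
  · by_cases h0 : j' = 0
    · subst h0
      simp only [Code.iv, if_true] at h'
      have hne := ta_side_ne hl
      obtain ⟨e₁, T', rfl⟩ := List.exists_cons_of_ne_nil hne
      rw [enc_iv_cons] at h'
      have hs := ta_sz_mem (e := e₁) (T := e₁ :: T') (by simp)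
      simp only [Code.sz] at hn
      right
      rcases ih _ (by omega) (hv e₁ (by simp)) h' rfl with h1 | h1
      · have h2 := congrArg Code.sz h1
        simp only [Code.sz] at h2
        omega
      · omega
    · simp only [Code.iv, if_neg h0] at h'
      left
      cases h'
      rfl

theorem val_of_tv {e : Ed α ι} (h : Val P x e) {i : ι} {p : Bool} {j : ℕ} {top : Code α ι}
    (h' : e.2.tv P = VCode.vi i p (j + 1) top) :
    e.2 = Code.cell i p j top ∨ 1 + top.sz < e.2.sz := by
  generalize hn : e.2.sz = n
  induction n using Nat.strong_induction_on generalizing e with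
  | _ n ih =>
  rcases val_cases h with ⟨k, a, rfl, _⟩ | ⟨a, i', p', j', T, rfl, _, hv, hl, _, _, _⟩
  · simp [Code.tv] at h'
  · by_cases h0 : j' + 1 = (P.side i' (!p')).length
    · simp only [Code.tv, if_pos h0] at h'
      have hne := ta_side_ne hl
      obtain ⟨T', e₁, rfl⟩ := (List.eq_nil_or_concat' T).resolve_left hne
      rw [enc_tv_append] at h'
      have hs := ta_sz_mem (e := e₁) (T := T' ++ [e₁]) (by simp)
      simp only [Code.sz] at hn
      right
      rcases ih _ (by omega) (hv e₁ (by simp)) h' rfl with h1 | h1
      · have h2 := congrArg Code.sz h1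
        simp only [Code.sz] at h2
        omega
      · omega
    · simp only [Code.tv, if_neg h0] at h'
      left
      rw [VCode.vi.injEq] at h'
      obtain ⟨rfl, rfl, h2, rfl⟩ := h'
      obtain rfl : j' = j := by omega
      rfl

end Pool.Agent.DG
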