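import Pool.Agent.MP_cff99f_al.Gen.TreeA

/-!
Block TreeA2: valid paths: no cycles, connectedness, extension to `TreeE`.

No cycles: there is a height function on the vertices (`ta2V`, with values in `ℚ`) which increases
along the valid edges (the interior vertices of the far side of a 2-cell divide the interval given by
the end points of the cell into equal parts).
-/

namespace Pool.Agent.DG

universe u v w

variable {α : Type u} {ι : Type v} {P : Pres α ι} {x : List α}

/-! ### Paths -/

theorem ta2_append_iff {u v : VCode α ι} {A B : List (Ed α ι)} :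
    RPath P u (A ++ B) v ↔ ∃ r, RPath P u A r ∧ RPath P r B v := by
  induction A generalizing u with
  | nil =>
    constructor
    · intro h
      exact ⟨u, rfl, h⟩
    · rintro ⟨r, h1, h2⟩
      have h1' : u = r := h1
      subst h1'
      exact h2
  | cons e A ih =>
    constructor
    · rintro ⟨h1, h2⟩
      obtain ⟨r, h3, h4⟩ := ih.1 h2
      exact ⟨r, ⟨h1, h3⟩, h4⟩
    · rintro ⟨r, ⟨h1, h3⟩, h4⟩
      exact ⟨h1, ih.2 ⟨r, h3, h4⟩⟩

theorem ta2_single {u v : VCode α ι} {e : Ed α ι} :
    RPath P u [e] v ↔ e.2.iv = u ∧ e.2.tv P = v := Iff.rfl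

theorem ta2_cons {u v : VCode α ι} {e : Ed α ι} {l : List (Ed α ι)} :
    RPath P u (e :: l) v ↔ e.2.iv = u ∧ RPath P (e.2.tv P) l v := Iff.rfl

/-- The end points of a nonempty path. -/
theorem ta2_ends {u v : VCode α ι} {l : List (Ed α ι)} (h : RPath P u l v) (hne : l ≠ []) :
    (enc l).iv = u ∧ (enc l).tv P = v := by
  constructor
  · cases l with
    | nil => exact absurd rfl hne
    | cons e l =>
      rw [enc_iv_cons]
      exact h.1
  · rcases List.eq_nil_or_concat l with h0 | ⟨L, b, rfl⟩
    · exact absurd h0 hne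
    · rw [List.concat_eq_append] at h ⊢
      rw [enc_tv_append]
      obtain ⟨r, _, h2⟩ := ta2_append_iff.1 h
      exact h2.2

theorem ta2_path_unique {u v u' v' : VCode α ι} {l : List (Ed α ι)} (h : RPath P u l v)
    (h' : RPath P u' l v') (hne : l ≠ []) : u = u' ∧ v = v' := by
  obtain ⟨h1, h2⟩ := ta2_ends h hne
  obtain ⟨h3, h4⟩ := ta2_ends h' hne
  exact ⟨h1.symm.trans h3, h2.symm.trans h4⟩

/-! ### Sizes -/

theorem ta2_sz_lt_enc {e : Ed α ι} {T : List (Ed α ι)} (h : e ∈ T) : e.2.sz < (enc T).sz := by
  induction T with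
  | nil => simp at h
  | cons a T ih =>
    change e.2.sz < 1 + a.2.sz + (enc T).sz
    rcases List.mem_cons.1 h with rfl | h
    · omega
    · have := ih h
      omega

/-- The total size of a list of edges. -/
def ta2S (l : List (Ed α ι)) : ℕ := (l.map fun e => e.2.sz).sum

theorem ta2S_append (l l' : List (Ed α ι)) : ta2S (l ++ l') = ta2S l + ta2S l' := by
  simp [ta2S]

theorem ta2S_le_enc (T : List (Ed α ι)) : ta2S T ≤ (enc T).sz := by
  induction T with
  | nil => exact le_rfl
  | cons a T ih =>
    change (a.2.sz + ta2S T) ≤ 1 + a.2.sz + (enc T).sz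
    omega

theorem ta2_le_S {e : Ed α ι} {T : List (Ed α ι)} (h : e ∈ T) : e.2.sz ≤ ta2S T := by
  induction T with
  | nil => simp at h
  | cons a T ih =>
    change e.2.sz ≤ a.2.sz + ta2S T
    rcases List.mem_cons.1 h with rfl | h
    · omega
    · have := ih h
      omega

theorem ta2S_bottom (i : ι) (p : Bool) (T : List (Ed α ι)) : ta2S T < ta2S (bottom P i p T) := by
  obtain ⟨e, _, he, hm⟩ := exists_getElem?_bottom P i p T
  have h1 := ta2_le_S hm
  rw [he] at h1
  have h2 : (Code.cell i p 0 (enc T)).sz = 1 + (enc T).sz := rfl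
  have h3 := ta2S_le_enc T
  omega

/-! ### Heights -/

/-- Is a code the empty list? -/
def ta2Nil : Code α ι → Bool
  | Code.nil => true
  | _ => false

/-- The heights of the two end points of an edge or a list of edges. -/
noncomputable def ta2H (P : Pres α ι) : Code α ι → ℚ × ℚ
  | Code.base k => (k, k + 1)
  | Code.nil => (0, 0)
  | Code.cons _ c l => ((ta2H P c).1, bif ta2Nil l then (ta2H P c).2 else (ta2H P l).2)
  | Code.cell i p j top =>
      ((ta2H P top).1 + ((ta2H P top).2 - (ta2H P top).1) * (j / (P.side i (!p)).length),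
        (ta2H P top).1 + ((ta2H P top).2 - (ta2H P top).1) * ((j + 1) / (P.side i (!p)).length))

/-- The height of a vertex. -/
noncomputable def ta2V (P : Pres α ι) : VCode α ι → ℚ
  | VCode.vb k => k
  | VCode.vi i p j top =>
      (ta2H P top).1 + ((ta2H P top).2 - (ta2H P top).1) * (j / (P.side i (!p)).length)

theorem ta2V_code (c : Code α ι) :
    ta2V P c.iv = (ta2H P c).1 ∧ ta2V P (c.tv P) = (ta2H P c).2 := by
  induction c with
  | base k =>
    constructor
    · simp [Code.iv, ta2V, ta2H]
    · simp [Code.tv, ta2V, ta2H]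
  | nil =>
    constructor
    · simp [Code.iv, ta2V, ta2H]
    · simp [Code.tv, ta2V, ta2H]
  | cons y c l ihc ihl =>
    constructor
    · simpa [Code.iv, ta2H] using ihc.1
    · cases l with
      | nil => simpa [Code.tv, ta2H, ta2Nil] using ihc.2
      | base k => simpa [Code.tv, ta2H, ta2Nil] using ihl.2
      | cons y c l => simpa [Code.tv, ta2H, ta2Nil] using ihl.2
      | cell i p j top => simpa [Code.tv, ta2H, ta2Nil] using ihl.2
  | cell i p j top ih =>
    have hn : ((P.side i (!p)).length : ℚ) ≠ 0 := by
      have := P.side_ne i (!p)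
      rw [Ne, ← List.length_eq_zero_iff] at this
      exact_mod_cast this
    constructor
    · by_cases hj : j = 0
      · subst hj
        simp [Code.iv, ta2H, ih.1]
      · simp [Code.iv, hj, ta2V, ta2H]
    · by_cases hj : j + 1 = (P.side i (!p)).length
      · have : Code.tv P (Code.cell i p j top) = top.tv P := by
          simp [Code.tv, hj]
        rw [this, ih.2]
        have h2 : ((j : ℚ) + 1) / (P.side i (!p)).length = 1 := by
          rw [div_eq_one_iff_eq hn]
          exact_mod_cast hj
        simp only [ta2H, h2]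
        ring
      · have : Code.tv P (Code.cell i p j top) = VCode.vi i p (j + 1) top := by
          simp [Code.tv, hj]
        rw [this]
        simp [ta2V, ta2H]

theorem ta2_path_le {u v : VCode α ι} {l : List (Ed α ι)} (h : RPath P u l v)
    (hl : ∀ e ∈ l, (ta2H P e.2).1 < (ta2H P e.2).2) : ta2V P u ≤ ta2V P v ∧
      (l ≠ [] → ta2V P u < ta2V P v) := by
  induction l generalizing u with
  | nil =>
    have h' : u = v := h
    subst h'
    exact ⟨le_rfl, fun h => absurd rfl h⟩
  | cons e l ih =>
    obtain ⟨h1, h2⟩ := ta2_cons.1 h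
    have h3 := ih h2 (fun e' he' => hl e' (List.mem_cons_of_mem _ he'))
    have h4 := hl e List.mem_cons_self
    rw [← (ta2V_code e.2).1, ← (ta2V_code e.2).2, h1] at h4
    have h5 : ta2V P u < ta2V P v := lt_of_lt_of_le h4 h3.1
    exact ⟨h5.le, fun _ => h5⟩

theorem ta2_edge_lt : ∀ (n : ℕ) {e : Ed α ι}, e.2.sz ≤ n → Val P x e →
    (ta2H P e.2).1 < (ta2H P e.2).2 := by
  intro n
  induction n using Nat.strong_induction_on with
  | _ n ih =>
    intro e hn he
    rcases val_cases he with ⟨k, a, rfl, _⟩ | ⟨a, i, p, j, T, rfl, hj, hT, hlab, _, ⟨u, v, hp⟩, _⟩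
    · simp [ta2H]
    · have hne : T ≠ [] := by
        rintro rfl
        exact P.side_ne i p (by simpa using hlab.symm)
      have h1 : (Code.cell i p j (enc T)).sz = 1 + (enc T).sz := rfl
      have h2 := (ta2_path_le hp (fun e' he' => by
        have h3 := ta2_sz_lt_enc he'
        have h4 : (Code.cell i p j (enc T)).sz ≤ n := hn
        exact ih e'.2.sz (by omega) le_rfl (hT e' he'))).2 hne
      obtain ⟨h5, h6⟩ := ta2_ends hp hne
      rw [← h5, ← h6, (ta2V_code _).1, (ta2V_code _).2] at h2
      have hn : (0 : ℚ) < ((P.side i (!p)).length : ℚ) := by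
        have := P.side_ne i (!p)
        rw [Ne, ← List.length_eq_zero_iff] at this
        exact_mod_cast Nat.pos_of_ne_zero this
      simp only [ta2H]
      have h7 : (j : ℚ) / (P.side i (!p)).length < ((j : ℚ) + 1) / (P.side i (!p)).length := by
        apply div_lt_div_of_pos_right _ hn
        linarith
      have h8 := mul_lt_mul_of_pos_left h7 (sub_pos.2 h2)
      linarith

/-- No directed cycles. -/
theorem val_acyclic {u : VCode α ι} {l : List (Ed α ι)} (hv : ∀ e ∈ l, Val P x e)
    (h : RPath P u l u) : l = [] := by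
  by_contra hne
  have := (ta2_path_le h (fun e he => ta2_edge_lt _ le_rfl (hv e he))).2 hne
  exact lt_irrefl _ this

/-! ### Edges -/

/-- A valid edge is determined by its code. -/
theorem ta2_ext {e e' : Ed α ι} (h : Val P x e) (h' : Val P x e') (hc : e.2 = e'.2) : e = e' := by
  rcases val_cases h with ⟨k, a, rfl, ha⟩ | ⟨a, i, p, j, T, rfl, ha, _⟩
  · rcases val_cases h' with ⟨k', a', rfl, ha'⟩ | ⟨a', i', p', j', T', rfl, ha', _⟩
    · have hk : k = k' := by simpa using hc
      subst hk
      rw [ha] at ha'
      have : a = a' := by simpa using ha'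
      rw [this]
    · cases hc
  · rcases val_cases h' with ⟨k', a', rfl, ha'⟩ | ⟨a', i', p', j', T', rfl, ha', _⟩
    · cases hc
    · have hc' : Code.cell i p j (enc T) = Code.cell i' p' j' (enc T') := hc
      rw [Code.cell.injEq] at hc'
      obtain ⟨rfl, rfl, rfl, hT⟩ := hc'
      rw [ha] at ha'
      have : a = a' := by simpa using ha'
      rw [this, hT]

/-- A valid edge of a bottom. -/
theorem ta2_getElem? {e : Ed α ι} (h : Val P x e) {i : ι} {p : Bool} {j : ℕ} {T : List (Ed α ι)}
    (hc : e.2 = Code.cell i p j (enc T)) : (bottom P i p T)[j]? = some e := by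
  rcases val_cases h with ⟨k, a, rfl, ha⟩ | ⟨a, i', p', j', T', rfl, ha, _⟩
  · cases hc
  · have hc' : Code.cell i' p' j' (enc T') = Code.cell i p j (enc T) := hc
    rw [Code.cell.injEq] at hc'
    obtain ⟨rfl, rfl, rfl, hT⟩ := hc'
    rw [getElem?_bottom, ha, ← hT]
    rfl

/-- What is known about the top of a valid bottom. -/
theorem ta2_bottom {i : ι} {p : Bool} {T : List (Ed α ι)}
    (h : ∀ e ∈ bottom P i p T, Val P x e) : (∀ e' ∈ T, Val P x e') ∧
      T.map Prod.fst = P.side i p ∧ (∀ T', T ≠ bottom P i (!p) T') ∧ T ≠ [] ∧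
      ∃ u v, RPath P u T v ∧ RPath P u (bottom P i p T) v := by
  obtain ⟨e, _, he, hm⟩ := exists_getElem?_bottom P i p T
  rcases val_cases (h e hm) with ⟨k, a, rfl, ha⟩ |
    ⟨a, i', p', j', T', rfl, ha, hT, hlab, hno, ⟨u, v, hp⟩, _⟩
  · cases he
  · have hc' : Code.cell i' p' j' (enc T') = Code.cell i p 0 (enc T) := he
    rw [Code.cell.injEq] at hc'
    obtain ⟨rfl, rfl, rfl, hTT⟩ := hc'
    have := enc_injective hTT
    subst this
    have hne : T' ≠ [] := by
      rintro rfl
      exact P.side_ne i' p' (by simpa using hlab.symm)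
    exact ⟨hT, hlab, hno, hne, u, v, hp, rpath_bottom hp hne⟩

/-! ### Reduction -/

/-- One step of the reduction of a valid path. -/
theorem ta2_down {u v : VCode α ι} {l l' : List (Ed α ι)} (hl : ∀ e ∈ l, Val P x e)
    (h : RPath P u l v) (hd : Down P l l') : (∀ e ∈ l', Val P x e) ∧ RPath P u l' v ∧
      ta2S l' < ta2S l ∧ RMove P x l' l := by
  obtain ⟨A, i, p, T, B, rfl, rfl⟩ := hd
  obtain ⟨h1, h2, h3, h4, a, b, h5, h6⟩ := ta2_bottom (P := P) (x := x) (i := i) (p := p) (T := T)
    (fun e he => hl e (by simp [he]))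
  refine ⟨?_, ?_, ?_, ?_⟩
  · intro e he
    rw [List.mem_append, List.mem_append] at he
    rcases he with (he | he) | he
    · exact hl e (by simp [he])
    · exact h1 e he
    · exact hl e (by simp [he])
  · obtain ⟨r, h7, h8⟩ := ta2_append_iff.1 h
    obtain ⟨s, h9, h10⟩ := ta2_append_iff.1 h7
    obtain ⟨rfl, rfl⟩ := ta2_path_unique h10 h6 (bottom_ne_nil P i p T)
    exact ta2_append_iff.2 ⟨_, ta2_append_iff.2 ⟨_, h9, h5⟩, h8⟩
  · simp only [ta2S_append]
    have := ta2S_bottom (P := P) i p T
    omega
  · exact ⟨A, i, p, T, B, h1, ⟨a, b, h5⟩, h2, rfl, by rw [act_of_ne P h3]⟩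

/-- The relation of `val_conn`. -/
def ta2R (P : Pres α ι) (x : List α) (u v : VCode α ι) (a b : List (Ed α ι)) : Prop :=
  RMove P x a b ∧ (∀ e ∈ a, Val P x e) ∧ (∀ e ∈ b, Val P x e) ∧ RPath P u a v ∧ RPath P u b v

theorem ta2_reduce : ∀ (n : ℕ) {u v : VCode α ι} {l : List (Ed α ι)}, ta2S l ≤ n →
    (∀ e ∈ l, Val P x e) → RPath P u l v →
    ∃ l₀, (∀ e ∈ l₀, Val P x e) ∧ RPath P u l₀ v ∧ (∀ l', ¬ Down P l₀ l') ∧
      Relation.ReflTransGen (Down P) l l₀ ∧ Relation.EqvGen (ta2R P x u v) l l₀ := by
  intro n
  induction n using Nat.strong_induction_on with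
  | _ n ih =>
    intro u v l hn hl h
    by_cases hd : ∃ l', Down P l l'
    · obtain ⟨l', hd⟩ := hd
      obtain ⟨h1, h2, h3, h4⟩ := ta2_down hl h hd
      obtain ⟨l₀, h5, h6, h7, h8, h9⟩ := ih (ta2S l') (by omega) le_rfl h1 h2
      refine ⟨l₀, h5, h6, h7, Relation.ReflTransGen.head hd h8, ?_⟩
      exact Relation.EqvGen.trans _ _ _
        (Relation.EqvGen.symm _ _ (Relation.EqvGen.rel _ _ ⟨h4, h1, hl, h2, h⟩)) h9
    · exact ⟨l, hl, h, fun l' hl' => hd ⟨l', hl'⟩, Relation.ReflTransGen.refl,
        Relation.EqvGen.refl _⟩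

/-! ### Reduced paths -/

theorem ta2_bwd {i : ι} {p : Bool} {T : List (Ed α ι)} : ∀ (j : ℕ) (l₁ : List (Ed α ι))
    (e : Ed α ι) (u v : VCode α ι), (∀ e' ∈ l₁ ++ [e], Val P x e') → RPath P u (l₁ ++ [e]) v →
    e.2 = Code.cell i p j (enc T) → (∀ e' ∈ l₁, e'.2.sz ≤ 1 + (enc T).sz) →
    (∃ B', l₁ = B' ++ (bottom P i p T).take j) ∨ ∃ j₀, u = VCode.vi i p j₀ (enc T) := by
  intro j
  induction j with
  | zero =>
    intro l₁ e u v _ _ _ _
    exact Or.inl ⟨l₁, by simp⟩
  | succ j ih =>
    intro l₁ e u v hv h hc hm
    have hiv : e.2.iv = VCode.vi i p (j + 1) (enc T) := by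
      rw [hc]
      simp [Code.iv]
    obtain ⟨r, h1, h2⟩ := ta2_append_iff.1 h
    have h3 : e.2.iv = r := (ta2_single.1 h2).1
    rcases List.eq_nil_or_concat l₁ with h0 | ⟨L, b, h0⟩
    · subst h0
      right
      have h1' : u = r := h1
      exact ⟨j + 1, by rw [h1', ← h3, hiv]⟩
    · rw [List.concat_eq_append] at h0
      subst h0
      have hb : Val P x b := hv b (by simp)
      obtain ⟨r', _, h5⟩ := ta2_append_iff.1 h1
      have h6 : b.2.tv P = VCode.vi i p (j + 1) (enc T) := by
        rw [(ta2_single.1 h5).2, ← h3, hiv]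
      rcases val_of_tv hb h6 with h7 | h7
      · rcases ih L b u r (fun e' he' => hv e' (by
          simp only [List.mem_append, List.mem_singleton] at he' ⊢
          tauto)) h1 h7 (fun e' he' => hm e' (by simp [he'])) with ⟨B', hB'⟩ | h8
        · left
          refine ⟨B', ?_⟩
          rw [hB', List.take_add_one, ta2_getElem? hb h7]
          simp
        · exact Or.inr h8
      · exact absurd (hm b (by simp)) (by omega)

theorem ta2_fwd {i : ι} {p : Bool} {T : List (Ed α ι)} : ∀ (l₂ : List (Ed α ι)) (j : ℕ)
    (e : Ed α ι) (u v : VCode α ι), (∀ e' ∈ e :: l₂, Val P x e') → RPath P u (e :: l₂) v →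
    e.2 = Code.cell i p j (enc T) → (∀ e' ∈ l₂, e'.2.sz ≤ 1 + (enc T).sz) →
    (∃ B', l₂ = (bottom P i p T).drop (j + 1) ++ B') ∨
      ∃ j₁, v = VCode.vi i p (j₁ + 1) (enc T) := by
  intro l₂
  induction l₂ with
  | nil =>
    intro j e u v hv h hc _
    by_cases hj : j + 1 = (P.side i (!p)).length
    · left
      refine ⟨[], ?_⟩
      rw [List.drop_eq_nil_of_le (by rw [length_bottom]; omega)]
      rfl
    · right
      refine ⟨j, ?_⟩
      have h1 := (ta2_single.1 h).2
      rw [← h1, hc]
      simp [Code.tv, hj]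
  | cons b l₂ ih =>
    intro j e u v hv h hc hm
    by_cases hj : j + 1 = (P.side i (!p)).length
    · left
      refine ⟨b :: l₂, ?_⟩
      rw [List.drop_eq_nil_of_le (by rw [length_bottom]; omega)]
      rfl
    · obtain ⟨h1, h2⟩ := ta2_cons.1 h
      have h3 : b.2.iv = VCode.vi i p (j + 1) (enc T) := by
        rw [(ta2_cons.1 h2).1, hc]
        simp [Code.tv, hj]
      have hb : Val P x b := hv b (by simp)
      rcases val_of_iv hb h3 with h4 | h4
      · rcases ih (j + 1) b _ v (fun e' he' => hv e' (List.mem_cons_of_mem _ he')) h2 h4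
          (fun e' he' => hm e' (List.mem_cons_of_mem _ he')) with ⟨B', hB'⟩ | h5
        · left
          refine ⟨B', ?_⟩
          have h6 := ta2_getElem? hb h4
          obtain ⟨hlt, h7⟩ := List.getElem?_eq_some_iff.1 h6
          rw [List.drop_eq_getElem_cons hlt, h7, hB']
          rfl
        · exact Or.inr h5
      · exact absurd (hm b (by simp)) (by omega)

/-- A reduced path starts or ends in the interior of the largest bottom which it meets. -/
theorem ta2_key {u v : VCode α ι} {l : List (Ed α ι)} (hv : ∀ e ∈ l, Val P x e)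
    (h : RPath P u l v) (hr : ∀ l', ¬ Down P l l') {e : Ed α ι} (he : e ∈ l) {i : ι} {p : Bool}
    {j : ℕ} {T : List (Ed α ι)} (hc : e.2 = Code.cell i p j (enc T))
    (hm : ∀ e' ∈ l, e'.2.sz ≤ 1 + (enc T).sz) :
    (∃ j₀, u = VCode.vi i p j₀ (enc T)) ∨ ∃ j₁, v = VCode.vi i p (j₁ + 1) (enc T) := by
  obtain ⟨l₁, l₂, rfl⟩ := List.append_of_mem he
  have h' : RPath P u ((l₁ ++ [e]) ++ l₂) v := by simpa using h
  obtain ⟨r, h1, _⟩ := ta2_append_iff.1 h'
  obtain ⟨s, _, h2⟩ := ta2_append_iff.1 h
  rcases ta2_bwd j l₁ e u r (fun e' he' => hv e' (by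
      simp only [List.mem_append, List.mem_singleton, List.mem_cons] at he' ⊢
      tauto)) h1 hc (fun e' he' => hm e' (by simp [he'])) with ⟨B', hB'⟩ | h3
  · rcases ta2_fwd l₂ j e s v (fun e' he' => hv e' (by
      simp only [List.mem_append, List.mem_cons] at he' ⊢
      tauto)) h2 hc (fun e' he' => hm e' (by simp [he'])) with ⟨B'', hB''⟩ | h4
    · exfalso
      apply hr (B' ++ T ++ B'')
      refine ⟨B', i, p, T, B'', ?_, rfl⟩
      have h6 := ta2_getElem? (hv e (by simp)) hc
      obtain ⟨hlt, h7⟩ := List.getElem?_eq_some_iff.1 h6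
      have h8 : (bottom P i p T).take j ++ e :: (bottom P i p T).drop (j + 1) = bottom P i p T := by
        rw [← h7, ← List.drop_eq_getElem_cons hlt, List.take_append_drop]
      conv_rhs => rw [← h8]
      rw [hB', hB'']
      simp only [List.append_assoc, List.cons_append]
    · exact Or.inr h4
  · exact Or.inl h3

theorem ta2_exists_max {l : List (Ed α ι)} (hne : l ≠ []) :
    ∃ e ∈ l, ∀ e' ∈ l, e'.2.sz ≤ e.2.sz := by
  induction l with
  | nil => exact absurd rfl hne
  | cons a l ih =>
    by_cases h : l = []
    · subst h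
      exact ⟨a, by simp, by simp⟩
    · obtain ⟨e, he, hmax⟩ := ih h
      rcases Nat.le_total a.2.sz e.2.sz with hle | hle
      · refine ⟨e, List.mem_cons_of_mem _ he, fun e' he' => ?_⟩
        rcases List.mem_cons.1 he' with rfl | he'
        · exact hle
        · exact hmax e' he'
      · refine ⟨a, List.mem_cons_self, fun e' he' => ?_⟩
        rcases List.mem_cons.1 he' with rfl | he'
        · exact le_rfl
        · exact (hmax e' he').trans hle

theorem ta2_down_append {A l l' B : List (Ed α ι)} (h : Down P l l') :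
    Down P (A ++ l ++ B) (A ++ l' ++ B) := by
  obtain ⟨C, i, p, T, D, rfl, rfl⟩ := h
  exact ⟨A ++ C, i, p, T, D ++ B, by simp only [List.append_assoc],
    by simp only [List.append_assoc]⟩

/-- Parallel reduced valid paths are equal. -/
theorem ta2_reduced_unique : ∀ (n : ℕ) {u v : VCode α ι} {l l' : List (Ed α ι)},
    l.length ≤ n → (∀ e ∈ l, Val P x e) → (∀ e ∈ l', Val P x e) → RPath P u l v →
    RPath P u l' v → (∀ m, ¬ Down P l m) → (∀ m, ¬ Down P l' m) → l = l' := by
  intro n
  induction n with
  | zero =>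
    intro u v l l' hn hv hv' h h' _ _
    have h0 : l = [] := List.length_eq_zero_iff.1 (by omega)
    subst h0
    have huv : u = v := h
    subst huv
    exact (val_acyclic hv' h').symm
  | succ n ih =>
    intro u v l l' hn hv hv' h h' hr hr'
    by_cases h0 : l = []
    · subst h0
      have huv : u = v := h
      subst huv
      exact (val_acyclic hv' h').symm
    · have h0' : l' ≠ [] := by
        rintro rfl
        have huv : u = v := h'
        subst huv
        exact h0 (val_acyclic hv h)
      -- it is enough to find a common first or last edge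
      have first : (∀ a b m m', l = a :: m → l' = b :: m' → a.2 = b.2) → l = l' := by
        intro hf
        cases l with
        | nil => exact absurd rfl h0
        | cons a m =>
          cases l' with
          | nil => exact absurd rfl h0'
          | cons b m' =>
            have hab := ta2_ext (hv a (by simp)) (hv' b (by simp)) (hf a b m m' rfl rfl)
            subst hab
            have := ih (u := a.2.tv P) (v := v) (l := m) (l' := m')
              (by simp only [List.length_cons] at hn; omega)
              (fun e he => hv e (List.mem_cons_of_mem _ he))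
              (fun e he => hv' e (List.mem_cons_of_mem _ he)) h.2 h'.2
              (fun m₂ hm₂ => hr ([a] ++ m₂ ++ []) (by
                have := ta2_down_append (A := [a]) (B := []) hm₂
                simpa using this))
              (fun m₂ hm₂ => hr' ([a] ++ m₂ ++ []) (by
                have := ta2_down_append (A := [a]) (B := []) hm₂
                simpa using this))
            rw [this]
      have last : (∀ a b m m', l = m ++ [a] → l' = m' ++ [b] → a.2 = b.2) → l = l' := by
        intro hf
        rcases List.eq_nil_or_concat l with h1 | ⟨m, a, h1⟩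
        · exact absurd h1 h0
        rcases List.eq_nil_or_concat l' with h1' | ⟨m', b, h1'⟩
        · exact absurd h1' h0'
        rw [List.concat_eq_append] at h1 h1'
        have hab := ta2_ext (hv a (by simp [h1])) (hv' b (by simp [h1'])) (hf a b m m' h1 h1')
        subst hab
        subst h1
        subst h1'
        obtain ⟨r, h2, h3⟩ := ta2_append_iff.1 h
        obtain ⟨r', h2', h3'⟩ := ta2_append_iff.1 h'
        have h4 : r = r' := (ta2_single.1 h3).1.symm.trans (ta2_single.1 h3').1
        subst h4
        have := ih (u := u) (v := r) (l := m) (l' := m')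
          (by rw [List.length_append, List.length_singleton] at hn; omega)
          (fun e he => hv e (by simp [he]))
          (fun e he => hv' e (by simp [he])) h2 h2'
          (fun m₂ hm₂ => hr ([] ++ m₂ ++ [a]) (by
            have := ta2_down_append (A := []) (B := [a]) hm₂
            simpa using this))
          (fun m₂ hm₂ => hr' ([] ++ m₂ ++ [a]) (by
            have := ta2_down_append (A := []) (B := [a]) hm₂
            simpa using this))
        rw [this]
      obtain ⟨e, he, hmax⟩ := ta2_exists_max (l := l ++ l') (by simp [h0])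
      have hve : Val P x e := by
        rcases List.mem_append.1 he with he | he
        · exact hv e he
        · exact hv' e he
      rcases val_cases hve with ⟨k, a, rfl, _⟩ | ⟨a, i, p, j, T, hT, _⟩
      · -- all edges are base edges
        apply first
        intro a b m m' hm hm'
        have hbase : ∀ e' : Ed α ι, Val P x e' → e' ∈ l ++ l' → ∃ k', e'.2 = Code.base k' := by
          intro e' hve' he'
          have h5 : e'.2.sz ≤ 1 := hmax e' he'
          rcases val_cases hve' with ⟨k', a', rfl, _⟩ |
            ⟨a', i, p, j, T, rfl, _, _, hlab, _⟩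
          · exact ⟨k', rfl⟩
          · exfalso
            cases T with
            | nil => exact P.side_ne i p (by simpa using hlab.symm)
            | cons c T =>
              have h6 : (Code.cell i p j (enc (c :: T))).sz
                = 1 + (1 + c.2.sz + (enc T).sz) := rfl
              have h7 : (Code.cell i p j (enc (c :: T))).sz ≤ 1 := h5
              omega
        obtain ⟨k1, hk1⟩ := hbase a (hv a (by simp [hm])) (by simp [hm])
        obtain ⟨k2, hk2⟩ := hbase b (hv' b (by simp [hm'])) (by simp [hm'])
        subst hm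
        subst hm'
        have h8 : a.2.iv = b.2.iv := h.1.trans h'.1.symm
        rw [hk1, hk2] at h8
        have h9 : k1 = k2 := by simpa [Code.iv] using h8
        rw [hk1, hk2, h9]
      · have hc : e.2 = Code.cell i p j (enc T) := by rw [hT]
        have hsz : e.2.sz = 1 + (enc T).sz := by rw [hc]; rfl
        have hm1 : ∀ e' ∈ l, e'.2.sz ≤ 1 + (enc T).sz := fun e' he' => by
          have := hmax e' (by simp [he'])
          omega
        have hm2 : ∀ e' ∈ l', e'.2.sz ≤ 1 + (enc T).sz := fun e' he' => by
          have := hmax e' (by simp [he'])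
          omega
        have key : (∃ j₀, u = VCode.vi i p j₀ (enc T)) ∨
            ∃ j₁, v = VCode.vi i p (j₁ + 1) (enc T) := by
          rcases List.mem_append.1 he with he | he
          · exact ta2_key hv h hr he hc hm1
          · exact ta2_key hv' h' hr' he hc hm2
        rcases key with ⟨j₀, hu⟩ | ⟨j₁, hv1⟩
        · apply first
          intro a b m m' hm hm'
          subst hm
          subst hm'
          have ha : a.2 = Code.cell i p j₀ (enc T) := by
            rcases val_of_iv (hv a (by simp)) (h.1.trans hu) with h1 | h1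
            · exact h1
            · exact absurd (hm1 a (by simp)) (by omega)
          have hb : b.2 = Code.cell i p j₀ (enc T) := by
            rcases val_of_iv (hv' b (by simp)) (h'.1.trans hu) with h1 | h1
            · exact h1
            · exact absurd (hm2 b (by simp)) (by omega)
          rw [ha, hb]
        · apply last
          intro a b m m' hm hm'
          subst hm
          subst hm'
          obtain ⟨r, _, h3⟩ := ta2_append_iff.1 h
          obtain ⟨r', _, h3'⟩ := ta2_append_iff.1 h'
          have ha : a.2 = Code.cell i p j₁ (enc T) := by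
            rcases val_of_tv (hv a (by simp)) ((ta2_single.1 h3).2.trans hv1) with h1 | h1
            · exact h1
            · exact absurd (hm1 a (by simp)) (by omega)
          have hb : b.2 = Code.cell i p j₁ (enc T) := by
            rcases val_of_tv (hv' b (by simp)) ((ta2_single.1 h3').2.trans hv1) with h1 | h1
            · exact h1
            · exact absurd (hm2 b (by simp)) (by omega)
          rw [ha, hb]

/-- Parallel valid paths are connected by moves, and by moves through valid paths. -/
theorem val_conn {u v : VCode α ι} {l l' : List (Ed α ι)} (hl : ∀ e ∈ l, Val P x e)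
    (hl' : ∀ e ∈ l', Val P x e) (h : RPath P u l v) (h' : RPath P u l' v) :
    Relation.EqvGen (fun a b => RMove P x a b ∧ (∀ e ∈ a, Val P x e) ∧ (∀ e ∈ b, Val P x e) ∧
      RPath P u a v ∧ RPath P u b v) l l' := by
  obtain ⟨m, h1, h2, h3, _, h5⟩ := ta2_reduce _ le_rfl hl h
  obtain ⟨m', h1', h2', h3', _, h5'⟩ := ta2_reduce _ le_rfl hl' h'
  have := ta2_reduced_unique _ le_rfl h1 h1' h2 h2' h3 h3'
  subst this
  exact Relation.EqvGen.trans _ _ _ h5 (Relation.EqvGen.symm _ _ h5')

theorem ta2_val_ok {e : Ed α ι} (h : Val P x e) : Ok P e.2 := by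
  obtain ⟨L, hL⟩ := h
  exact L.2.1 e hL

/-- A valid path from the first to the last vertex of the base path is in `TreeE` (it reduces to a
valid path without complete bottoms, which is the base path). -/
theorem val_tree {l : List (Ed α ι)} (hl : ∀ e ∈ l, Val P x e)
    (h : RPath P (VCode.vb 0) l (VCode.vb x.length)) : ∃ L : TreeE P x, L.1 = l := by
  obtain ⟨m, h1, h2, h3, h4, _⟩ := ta2_reduce _ le_rfl hl h
  have hb : RPath P (VCode.vb 0) (baseList x) (VCode.vb x.length) :=
    tree_path (TreeE.base P x)
  have := ta2_reduced_unique _ le_rfl h1 (fun e he => ⟨TreeE.base P x, he⟩) h2 hb h3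
    (not_down_baseList P x)
  subst this
  exact ⟨⟨l, fun e he => ta2_val_ok (hl e he), h4⟩, rfl⟩

/-- A valid path is contained in an element of `TreeE`. -/
theorem val_extend {u v : VCode α ι} {l : List (Ed α ι)} (hl : ∀ e ∈ l, Val P x e)
    (h : RPath P u l v) (hne : l ≠ []) : ∃ (A B : List (Ed α ι)) (L : TreeE P x),
      L.1 = A ++ l ++ B := by
  -- a path from the beginning to `u`
  obtain ⟨A, hA, hAv⟩ : ∃ A : List (Ed α ι), RPath P (VCode.vb 0) A u ∧ ∀ e ∈ A, Val P x e := by
    cases l with
    | nil => exact absurd rfl hne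
    | cons a m =>
      obtain ⟨L, hL⟩ := hl a (by simp)
      obtain ⟨A, B, hAB⟩ := List.append_of_mem hL
      have h1 := tree_path L
      rw [hAB] at h1
      obtain ⟨r, h2, h3⟩ := ta2_append_iff.1 h1
      have h4 : r = u := (ta2_cons.1 h3).1.symm.trans h.1
      subst h4
      exact ⟨A, h2, fun e he => ⟨L, by rw [hAB]; simp [he]⟩⟩
  obtain ⟨B, hB, hBv⟩ : ∃ B : List (Ed α ι), RPath P v B (VCode.vb x.length) ∧
      ∀ e ∈ B, Val P x e := by
    rcases List.eq_nil_or_concat l with h0 | ⟨m, a, h0⟩
    · exact absurd h0 hne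
    · rw [List.concat_eq_append] at h0
      subst h0
      obtain ⟨L, hL⟩ := hl a (by simp)
      obtain ⟨A, B, hAB⟩ := List.append_of_mem hL
      have h1 := tree_path L
      rw [hAB] at h1
      obtain ⟨r, h2, h3⟩ := ta2_append_iff.1 h1
      obtain ⟨s, _, h5⟩ := ta2_append_iff.1 h
      have h6 : a.2.tv P = v := (ta2_single.1 h5).2
      have h7 := (ta2_cons.1 h3).2
      rw [h6] at h7
      exact ⟨B, h7, fun e he => ⟨L, by rw [hAB]; simp [he]⟩⟩
  obtain ⟨L, hL⟩ := val_tree (P := P) (x := x) (l := A ++ l ++ B) (by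
    intro e he
    rw [List.mem_append, List.mem_append] at he
    rcases he with (he | he) | he
    · exact hAv e he
    · exact hl e he
    · exact hBv e he) (ta2_append_iff.2 ⟨v, ta2_append_iff.2 ⟨u, hA, h⟩, hB⟩)
  exact ⟨A, B, L, hL⟩

/-- The action of a relation on a valid path. -/
theorem val_act {u v : VCode α ι} {l : List (Ed α ι)} (hl : ∀ e ∈ l, Val P x e)
    (h : RPath P u l v) {i : ι} {p : Bool} (hlab : l.map Prod.fst = P.side i p) :
    (∀ e ∈ act P i p l, Val P x e) ∧ RPath P u (act P i p l) v := by
  have hne : l ≠ [] := by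
    rintro rfl
    exact P.side_ne i p (by simpa using hlab.symm)
  by_cases hT : ∃ T', l = bottom P i (!p) T'
  · obtain ⟨T', rfl⟩ := hT
    rw [act_of_eq]
    obtain ⟨h1, _, _, _, a, b, h5, h6⟩ := ta2_bottom hl
    obtain ⟨rfl, rfl⟩ := ta2_path_unique h h6 hne
    exact ⟨h1, h5⟩
  · have hno : ∀ T', l ≠ bottom P i (!p) T' := fun T' hT' => hT ⟨T', hT'⟩
    rw [act_of_ne P hno]
    refine ⟨?_, rpath_bottom h hne⟩
    obtain ⟨A, B, L, hL⟩ := val_extend hl h hne
    have hokl : ∀ e ∈ l, Ok P e.2 := fun e he => ta2_val_ok (hl e he)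
    have hok2 : ∀ e ∈ bottom P i p l, Ok P e.2 := by
      have := ok_act P (i := i) (p := p) hokl hlab
      rwa [act_of_ne P hno] at this
    have hokL := L.2.1
    rw [hL] at hokL
    let M : TreeE P x := ⟨A ++ bottom P i p l ++ B, by
      intro e he
      rw [List.mem_append, List.mem_append] at he
      rcases he with (he | he) | he
      · exact hokL e (by simp [he])
      · exact hok2 e he
      · exact hokL e (by simp [he]), by
      refine Relation.ReflTransGen.head ⟨A, i, p, l, B, rfl, rfl⟩ ?_
      rw [← hL]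
      exact L.2.2⟩
    intro e he
    exact ⟨M, by change e ∈ A ++ bottom P i p l ++ B; simp [he]⟩

end Pool.Agent.DG
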