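import Pool.Agent.MP_cff99f_al.Gen.TreeA2
import Pool.Agent.MP_cff99f_al.Gen.CovIso
import Pool.Agent.MP_cff99f_al.Action

/-!
Block TreeB: the universal 2-tree as a labelled directed 2-complex.
-/

namespace Pool.Agent.DG

universe u v w

variable {α : Type u} {ι : Type v} (P : Pres α ι) (x : List α)

/-- The vertices of the universal 2-tree. -/
def TV : Type (max u v) :=
  {c : VCode α ι // c = VCode.vb 0 ∨ ∃ e, Val P x e ∧ e.2.tv P = c}

/-- The edges of the universal 2-tree. -/
def TE : Type (max u v) := {e : Ed α ι // Val P x e}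

variable {P x}

theorem trB_val_of_mem (L : TreeE P x) {e : Ed α ι} (h : e ∈ L.1) : Val P x e := ⟨L, h⟩

theorem trB_ok {e : Ed α ι} (h : Val P x e) : Ok P e.2 := by
  obtain ⟨L, hL⟩ := h
  exact L.2.1 e hL

theorem trB_rpath_append {u v : VCode α ι} {l l' : List (Ed α ι)} :
    RPath P u (l ++ l') v ↔ ∃ r, RPath P u l r ∧ RPath P r l' v := pathIn_append

theorem trB_rpath_snoc {u v : VCode α ι} {l : List (Ed α ι)} {e : Ed α ι} :
    RPath P u (l ++ [e]) v ↔ RPath P u l e.2.iv ∧ e.2.tv P = v := by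
  rw [trB_rpath_append]
  constructor
  · rintro ⟨r, h1, h2, h3⟩
    have h2' : e.2.iv = r := h2
    have h3' : e.2.tv P = v := h3
    subst h2'
    exact ⟨h1, h3'⟩
  · rintro ⟨h1, h2⟩
    exact ⟨e.2.iv, h1, rfl, h2⟩

theorem trB_end_mem {u v : VCode α ι} {l : List (Ed α ι)} (hl : ∀ e ∈ l, Val P x e)
    (h : RPath P u l v) : u = v ∨ ∃ e', Val P x e' ∧ e'.2.tv P = v := by
  rcases List.eq_nil_or_concat l with rfl | ⟨A, e, rfl⟩
  · exact Or.inl h
  · rw [List.concat_eq_append] at h hl
    exact Or.inr ⟨e, hl e (by simp), (trB_rpath_snoc.1 h).2⟩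

theorem iv_mem (e : TE P x) : e.1.2.iv = VCode.vb 0 ∨ ∃ e', Val P x e' ∧ e'.2.tv P = e.1.2.iv := by
  obtain ⟨e, L, hL⟩ := e
  obtain ⟨A, B, hAB⟩ := List.append_of_mem hL
  have hp := tree_path L
  rw [hAB] at hp
  obtain ⟨r, h1, h2, h3⟩ := trB_rpath_append.1 hp
  have h2' : e.2.iv = r := h2
  subst h2'
  rcases trB_end_mem (fun e' he' => trB_val_of_mem L (by rw [hAB]; simp [he'])) h1 with h | h
  · exact Or.inl h.symm
  · exact Or.inr h

/-- The initial vertex. -/
def TE.iv (e : TE P x) : TV P x := ⟨e.1.2.iv, iv_mem e⟩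

/-- The terminal vertex. -/
def TE.tv (e : TE P x) : TV P x := ⟨e.1.2.tv P, Or.inr ⟨e.1, e.2, rfl⟩⟩

variable (P x)

open Classical in
/-- The other side of a 2-cell. -/
noncomputable def tflip (i : ι) (p : Bool) (l : List (TE P x)) : List (TE P x) :=
  if h : ∀ e ∈ act P i p (l.map Subtype.val), Val P x e then
    (act P i p (l.map Subtype.val)).attachWith _ h
  else l

variable {P x}

theorem tpath_iff {u v : TV P x} {l : List (TE P x)} :
    PathIn TE.iv TE.tv u l v ↔ RPath P u.1 (l.map Subtype.val) v.1 := by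
  induction l generalizing u with
  | nil => exact Subtype.ext_iff
  | cons e l ih =>
    constructor
    · rintro ⟨h1, h2⟩
      exact ⟨congrArg Subtype.val h1, ih.1 h2⟩
    · rintro ⟨h1, h2⟩
      exact ⟨Subtype.ext h1, ih.2 h2⟩

theorem trB_vals (l : List (TE P x)) : ∀ e ∈ l.map Subtype.val, Val P x e := by
  intro e he
  obtain ⟨e', _, rfl⟩ := List.mem_map.1 he
  exact e'.2

theorem trB_fst (l : List (TE P x)) :
    (l.map Subtype.val).map Prod.fst = l.map (fun e => e.1.1) := by
  rw [List.map_map]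
  rfl

theorem trB_inj {l l' : List (TE P x)} (h : l.map Subtype.val = l'.map Subtype.val) : l = l' :=
  (List.map_injective_iff.2 Subtype.val_injective) h

theorem trB_map3 (A s B : List (TE P x)) : (A ++ s ++ B).map Subtype.val =
    A.map Subtype.val ++ s.map Subtype.val ++ B.map Subtype.val := by
  induction A with
  | nil =>
    induction s with
    | nil => rfl
    | cons e s ih => exact congrArg (e.1 :: ·) ih
  | cons e A ih => exact congrArg (e.1 :: ·) ih

theorem trB_split3 {l : List (TE P x)} {A s B : List (Ed α ι)}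
    (h : l.map Subtype.val = A ++ s ++ B) : ∃ A' s' B' : List (TE P x), l = A' ++ s' ++ B' ∧
      A'.map Subtype.val = A ∧ s'.map Subtype.val = s ∧ B'.map Subtype.val = B := by
  obtain ⟨l₁, B', h1, hl₁, h2⟩ := List.map_eq_append_iff.1 h
  obtain ⟨A', s', h3, h4, h5⟩ := List.map_eq_append_iff.1 hl₁
  exact ⟨A', s', B', h1.trans (congrArg (· ++ B') h3), h4, h5, h2⟩

theorem trB_lift {a : List (Ed α ι)} (h : ∀ e ∈ a, Val P x e) :
    ∃ l : List (TE P x), l.map Subtype.val = a := by
  refine ⟨a.attachWith _ h, ?_⟩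
  exact List.attachWith_map_subtype_val h

theorem map_tflip {u v : TV P x} {l : List (TE P x)} (h : PathIn TE.iv TE.tv u l v) {i : ι}
    {p : Bool} (hl : l.map (fun e => e.1.1) = P.side i p) :
    (tflip P x i p l).map Subtype.val = act P i p (l.map Subtype.val) := by
  have h' := (val_act (trB_vals l) (tpath_iff.1 h) ((trB_fst l).trans hl)).1
  unfold tflip
  rw [dif_pos h']
  exact List.attachWith_map_subtype_val h'

theorem trB_flip_path {j : ι} {b : Bool} {p q : TV P x} {l : List (TE P x)}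
    (h : PathIn TE.iv TE.tv p l q) (hl : l.map (fun e => e.1.1) = P.side j b) :
    PathIn TE.iv TE.tv p (tflip P x j b l) q := by
  rw [tpath_iff, map_tflip h hl]
  exact (val_act (trB_vals l) (tpath_iff.1 h) ((trB_fst l).trans hl)).2

theorem trB_flip_lab {j : ι} {b : Bool} {p q : TV P x} {l : List (TE P x)}
    (h : PathIn TE.iv TE.tv p l q) (hl : l.map (fun e => e.1.1) = P.side j b) :
    (tflip P x j b l).map (fun e => e.1.1) = P.side j (!b) := by
  rw [← trB_fst, map_tflip h hl]
  exact map_fst_act P (fun e he => trB_ok (trB_vals l e he))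

theorem trB_flip_flip {j : ι} {b : Bool} {p q : TV P x} {l : List (TE P x)}
    (h : PathIn TE.iv TE.tv p l q) (hl : l.map (fun e => e.1.1) = P.side j b) :
    tflip P x j (!b) (tflip P x j b l) = l := by
  apply trB_inj
  rw [map_tflip (trB_flip_path h hl) (trB_flip_lab h hl), map_tflip h hl]
  exact act_act P (fun e he => trB_ok (trB_vals l e he))

variable (P x)

/-- The universal 2-tree. -/
noncomputable def treeD : Dcx P (TV P x) (TE P x) where
  i := TE.iv
  t := TE.tv
  lab e := e.1.1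
  flip := tflip P x
  flip_path := fun _ _ _ _ _ h hl => trB_flip_path h hl
  flip_lab := fun _ _ _ _ _ h hl => trB_flip_lab h hl
  flip_flip := fun _ _ _ _ _ h hl => trB_flip_flip h hl

variable {P x}

theorem trB_append {p q r : TV P x} {l l' : List (TE P x)} (h : (treeD P x).Path p l q)
    (h' : (treeD P x).Path q l' r) : (treeD P x).Path p (l ++ l') r :=
  pathIn_append.2 ⟨q, h, h'⟩

theorem trB_nil {p : TV P x} {l : List (TE P x)} (h : (treeD P x).Path p l p) : l = [] := by
  have h1 : RPath P p.1 (l.map Subtype.val) p.1 := tpath_iff.1 h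
  exact List.map_eq_nil_iff.1 (val_acyclic (trB_vals l) h1)

/-- Lifting the end point of a raw path. -/
theorem trB_exists_end {p : TV P x} {l : List (TE P x)} {v : VCode α ι}
    (h : RPath P p.1 (l.map Subtype.val) v) : ∃ q : TV P x, q.1 = v ∧ (treeD P x).Path p l q := by
  induction l generalizing p with
  | nil => exact ⟨p, h, rfl⟩
  | cons e l ih =>
    obtain ⟨h1, h2⟩ := h
    obtain ⟨q, hq, hq'⟩ := ih (p := TE.tv e) h2
    exact ⟨q, hq, Subtype.ext h1, hq'⟩

variable (P x)

/-- The order given by paths. -/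
noncomputable instance : PartialOrder (TV P x) where
  le p q := ∃ l, (treeD P x).Path p l q
  le_refl p := ⟨[], rfl⟩
  le_trans p q r := fun ⟨l, hl⟩ ⟨l', hl'⟩ => ⟨l ++ l', trB_append hl hl'⟩
  le_antisymm p q := fun ⟨l, hl⟩ ⟨l', hl'⟩ => by
    have h := (List.append_eq_nil_iff.1 (trB_nil (trB_append hl hl'))).1
    subst h
    exact hl

variable {P x}

theorem trB_le_iff {p q : TV P x} : p ≤ q ↔ ∃ l, (treeD P x).Path p l q := Iff.rfl

theorem trB_valid_iff {u v : VCode α ι} {a b : List (Ed α ι)}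
    (h : Relation.EqvGen (fun a b => RMove P x a b ∧ (∀ e ∈ a, Val P x e) ∧
      (∀ e ∈ b, Val P x e) ∧ RPath P u a v ∧ RPath P u b v) a b) :
    (∀ e ∈ a, Val P x e) ↔ (∀ e ∈ b, Val P x e) := by
  induction h with
  | rel a b h => exact ⟨fun _ => h.2.2.1, fun _ => h.2.1⟩
  | refl a => exact Iff.rfl
  | symm a b _ ih => exact ih.symm
  | trans a b c _ _ ih1 ih2 => exact ih1.trans ih2

theorem trB_move {l l' : List (TE P x)}
    (h : RMove P x (l.map Subtype.val) (l'.map Subtype.val)) : (treeD P x).Move l l' := by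
  obtain ⟨A, i, p, s, B, hs, ⟨u, v, hp⟩, hlab, h1, h2⟩ := h
  obtain ⟨A', s', B', rfl, rfl, rfl, rfl⟩ := trB_split3 h1
  have hlab' : s'.map (fun e => e.1.1) = P.side i p := (trB_fst s').symm.trans hlab
  have hne : s' ≠ [] := by
    intro h0
    subst h0
    exact P.side_ne i p hlab'.symm
  obtain ⟨e, s'', rfl⟩ := List.exists_cons_of_ne_nil hne
  have hu : (TE.iv e).1 = u := hp.1
  subst hu
  obtain ⟨q, rfl, hq⟩ := trB_exists_end hp
  refine ⟨A', i, p, e :: s'', B', ⟨TE.iv e, q, hq⟩, hlab', rfl, ?_⟩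
  apply trB_inj
  refine h2.trans (Eq.trans ?_ (trB_map3 A' (tflip P x i p (e :: s'')) B').symm)
  rw [map_tflip hq hlab']

theorem trB_conn {u v : VCode α ι} {a b : List (Ed α ι)}
    (h : Relation.EqvGen (fun a b => RMove P x a b ∧ (∀ e ∈ a, Val P x e) ∧
      (∀ e ∈ b, Val P x e) ∧ RPath P u a v ∧ RPath P u b v) a b) :
    ∀ l l' : List (TE P x), l.map Subtype.val = a → l'.map Subtype.val = b →
      Relation.EqvGen (treeD P x).Move l l' := by
  induction h with
  | rel a b h =>
    rintro l l' rfl rfl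
    exact Relation.EqvGen.rel _ _ (trB_move h.1)
  | refl a =>
    rintro l l' rfl h
    rw [trB_inj h]
    exact Relation.EqvGen.refl _
  | symm a b _ ih =>
    intro l l' h1 h2
    exact Relation.EqvGen.symm _ _ (ih l' l h2 h1)
  | trans a b c h1 h2 ih1 ih2 =>
    intro l l' hl hl'
    have hb : ∀ e ∈ b, Val P x e := (trB_valid_iff h1).1 (hl ▸ trB_vals l)
    obtain ⟨m, hm⟩ := trB_lift hb
    exact Relation.EqvGen.trans _ _ _ (ih1 l m hl hm) (ih2 m l' hm hl')

variable (P x)

theorem tree_ordered : (treeD P x).Ordered where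
  le_iff _ _ := Iff.rfl
  lt e := by
    have h1 : (treeD P x).Path ((treeD P x).i e) [e] ((treeD P x).t e) := ⟨rfl, rfl⟩
    refine lt_of_le_not_ge ⟨[e], h1⟩ ?_
    rintro ⟨l, hl⟩
    have h2 := trB_nil (trB_append h1 hl)
    simp at h2
  conn p q l l' h h' :=
    trB_conn (val_conn (trB_vals l) (trB_vals l') (tpath_iff.1 h) (tpath_iff.1 h')) l l' rfl rfl

/-- The first vertex. -/
def TV.bot : TV P x := ⟨VCode.vb 0, Or.inl rfl⟩

theorem vb_mem : (VCode.vb x.length : VCode α ι) = VCode.vb 0 ∨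
    ∃ e, Val P x e ∧ e.2.tv P = VCode.vb x.length := by
  rcases trB_end_mem (fun e he => trB_val_of_mem (TreeE.base P x) he)
    (tree_path (TreeE.base P x)) with h | h
  · exact Or.inl h.symm
  · exact Or.inr h

/-- The last vertex. -/
def TV.top : TV P x := ⟨VCode.vb x.length, vb_mem P x⟩

theorem trB_split (v : TV P x) : ∃ A B : List (TE P x), (treeD P x).Path (TV.bot P x) A v ∧
    (treeD P x).Path v B (TV.top P x) := by
  obtain ⟨v, hv⟩ := v
  rcases hv with hv | ⟨e, ⟨L, hL⟩, hv⟩
  · subst hv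
    obtain ⟨l, hl⟩ := trB_lift (fun e he => trB_val_of_mem (TreeE.base P x) he)
    refine ⟨[], l, rfl, tpath_iff.2 ?_⟩
    rw [hl]
    exact tree_path (TreeE.base P x)
  · subst hv
    obtain ⟨A, B, hAB⟩ := List.append_of_mem hL
    have hp := tree_path L
    have hall : ∀ e' ∈ L.1, Val P x e' := fun e' he' => trB_val_of_mem L he'
    have h1 : L.1 = (A ++ [e]) ++ B := by rw [hAB]; simp
    rw [h1] at hp hall
    obtain ⟨r, h2, h3⟩ := trB_rpath_append.1 hp
    obtain ⟨h4, h5⟩ := trB_rpath_snoc.1 h2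
    subst h5
    obtain ⟨A', hA'⟩ := trB_lift (P := P) (x := x) (a := A ++ [e])
      (fun e' he' => hall e' (List.mem_append_left _ he'))
    obtain ⟨B', hB'⟩ := trB_lift (P := P) (x := x) (a := B)
      (fun e' he' => hall e' (List.mem_append_right _ he'))
    refine ⟨A', B', tpath_iff.2 ?_, tpath_iff.2 ?_⟩
    · rw [hA']
      exact h2
    · rw [hB']
      exact h3

theorem tree_bot_le (v : TV P x) : TV.bot P x ≤ v := by
  obtain ⟨A, B, h, _⟩ := trB_split P x v
  exact ⟨A, h⟩

theorem tree_le_top (v : TV P x) : v ≤ TV.top P x := by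
  obtain ⟨A, B, _, h⟩ := trB_split P x v
  exact ⟨B, h⟩

/-- Paths from the first to the last vertex are the elements of `TreeE`. -/
theorem exists_treeE_equiv : ∃ f : {l : List (TE P x) // (treeD P x).Path (TV.bot P x) l (TV.top P x)}
    ≃ TreeE P x, (∀ l, (f l).1 = l.1.map Subtype.val) ∧
    ∀ l s, s.src P = l.1.map (treeD P x).lab →
      f (((treeD P x).cov (TV.bot P x) (TV.top P x)).mv l s) = TreeE.mv P x (f l) s := by
  have h1 : ∀ l : {l : List (TE P x) // (treeD P x).Path (TV.bot P x) l (TV.top P x)},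
      ∃ L : TreeE P x, L.1 = l.1.map Subtype.val := fun l =>
    val_tree (trB_vals l.1) (tpath_iff.1 l.2)
  choose f hf using h1
  have hinj : Function.Injective f := by
    intro l l' h
    apply Subtype.ext
    apply trB_inj
    rw [← hf, ← hf, h]
  have hsurj : Function.Surjective f := by
    intro L
    obtain ⟨l, hl⟩ := trB_lift (fun e he => trB_val_of_mem L he)
    refine ⟨⟨l, tpath_iff.2 ?_⟩, Subtype.ext ?_⟩
    · rw [hl]
      exact tree_path L
    · rw [hf]
      exact hl
  refine ⟨Equiv.ofBijective f ⟨hinj, hsurj⟩, hf, ?_⟩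
  intro l s h
  change f (((treeD P x).cov (TV.bot P x) (TV.top P x)).mv l s) = TreeE.mv P x (f l) s
  apply Subtype.ext
  have hlab : s.src P = (f l).1.map Prod.fst := by
    rw [hf, trB_fst]
    exact h
  rw [hf, TreeE.mv_val P x (f l) s hlab, hf]
  have hmv : ((treeD P x).cov (TV.bot P x) (TV.top P x)).mv l s =
      ⟨(treeD P x).mvL l.1 s, (treeD P x).mvL_path l.2 h⟩ := dif_pos h
  rw [hmv]
  change ((treeD P x).mvL l.1 s).map Subtype.val = _
  unfold SEdge.src at h
  obtain ⟨l₁, B, hB1, hB2, hB3⟩ := List.map_eq_append_iff.1 h.symm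
  obtain ⟨A, t, rfl, hA2, ht⟩ := List.map_eq_append_iff.1 hB2
  obtain ⟨l, hl⟩ := l
  have hB1' : l = A ++ t ++ B := hB1
  subst hB1'
  obtain ⟨r, h3, h4⟩ := pathIn_append.1 hl
  obtain ⟨r', h5, h6⟩ := pathIn_append.1 h3
  have e1 := (treeD P x).mvL_append (A := A) (s := t) (B := B) (j := s.i) (b := s.pos) ht
  have es : (⟨A.map (treeD P x).lab, s.i, B.map (treeD P x).lab, s.pos⟩ : SEdge α ι) = s := by
    rw [hA2, hB3]
  rw [es] at e1
  rw [e1]
  refine (trB_map3 A (tflip P x s.i s.pos t) B).trans ?_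
  rw [map_tflip h6 ht]
  have e2 := actList_split P (A := A.map Subtype.val) (t := t.map Subtype.val)
    (B := B.map Subtype.val) (s := s) ((trB_fst A).trans hA2) ((trB_fst t).trans ht)
  exact e2.symm.trans (congrArg (fun m => actList P m s) (trB_map3 A t B).symm)

/-- 1-cycles of paths from the first to the last vertex are boundaries (`h1_of_cov`, `exists_iso`). -/
theorem tree_h1 (z : List (treeD P x).X →₀ ℤ)
    (hz : z ∈ (treeD P x).Ck 1 (TV.bot P x) (TV.top P x)) (hz' : (treeD P x).bd z = 0) :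
    ∃ y ∈ (treeD P x).Ck 2 (TV.bot P x) (TV.top P x), (treeD P x).bd y = z := by
  obtain ⟨g, hg1, hg2⟩ := exists_treeE_equiv P x
  obtain ⟨k, hk1, hk2, _⟩ := exists_iso P x
  let g' : ((treeD P x).cov (TV.bot P x) (TV.top P x)).E ≃ (treeCov P x).E := g
  refine (treeD P x).h1_of_cov (TV.bot P x) (TV.top P x) x (g'.trans k.symm) ?_ ?_ z hz hz'
  · intro v
    rw [← hk1]
    change (treeCov P x).lab (k (k.symm (g' v))) = _
    rw [Equiv.apply_symm_apply]
    change (g v).1.map Prod.fst = _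
    rw [hg1, trB_fst]
    rfl
  · intro v s hs
    apply k.injective
    rw [hk2 _ s ?_]
    · change k (k.symm (g' _)) = (treeCov P x).mv (k (k.symm (g' v))) s
      rw [Equiv.apply_symm_apply, Equiv.apply_symm_apply]
      exact hg2 v s hs
    · rw [← hk1]
      change s.src P = (treeCov P x).lab (k (k.symm (g' v)))
      rw [Equiv.apply_symm_apply]
      change s.src P = (g v).1.map Prod.fst
      rw [hg1, trB_fst]
      exact hs

end Pool.Agent.DG
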